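import Pool.Agent.SelQ.TargetsK
import Pool.Agent.SelDeg2.EE
import Pool.Agent.SelDeg2.GRP

set_option autoImplicit false

open Finset

namespace Pool.Agent.SelQ

open Pool.Agent.SelDeg2

noncomputable section

namespace KEE_

lemma log_ge (η : ℝ) (h0 : 0 < η) (h1 : η ≤ 1) : 1 ≤ (1 + Real.log (1 / η)) ^ 3 := by
  have h2 : 0 ≤ Real.log (1 / η) := Real.log_nonneg (by rw [le_div_iff₀ h0]; linarith)
  exact one_le_pow₀ (by linarith)

lemma QE_ge (C η : ℝ) (hC : 0 ≤ C) (h0 : 0 < η) (h1 : η ≤ 1) : 1 ≤ QE C η := by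
  unfold QE
  exact Real.one_le_exp (mul_nonneg hC (le_trans zero_le_one (log_ge η h0 h1)))

lemma QE_abs (c C η : ℝ) (hc : 0 ≤ c) (h0 : 0 < η) (h1 : η ≤ 1) :
    c * QE C η ^ 2 ≤ QE (2 * C + c) η := by
  unfold QE
  set L := (1 + Real.log (1 / η)) ^ 3 with hL
  have hL1 : 1 ≤ L := log_ge η h0 h1
  have e1 : Real.exp (C * L) ^ 2 = Real.exp (2 * C * L) := by
    rw [← Real.exp_nat_mul]
    congr 1
    push_cast
    ring
  have e2 : c ≤ Real.exp (c * L) := by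
    have h2 := Real.add_one_le_exp (c * L)
    nlinarith
  rw [e1]
  calc c * Real.exp (2 * C * L) ≤ Real.exp (c * L) * Real.exp (2 * C * L) :=
        mul_le_mul_of_nonneg_right e2 (Real.exp_pos _).le
    _ = Real.exp ((2 * C + c) * L) := by
        rw [← Real.exp_add]
        congr 1
        ring

end KEE_

open KEE_ in
theorem p_KEE (hKDV : T_KDV) (hKM1 : T_KM1) : T_KEE := by
  intro g hg
  have hGRP : T_GRP := p_GRP
  obtain ⟨C1, hC1, hD⟩ := hKDV g hg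
  obtain ⟨C0', hC0', hM⟩ := hKM1 g hg
  obtain ⟨Cs, hCs⟩ := hg.small (1 / 8) (by norm_num)
  have hCs0 : 0 ≤ Cs := by
    have h := hCs 1 le_rfl
    rw [Nat.cast_one, Real.one_rpow, mul_one] at h
    exact le_trans (norm_nonneg _) h
  have hZs : Summable (fun n : ℕ => (n : ℝ) ^ (-(5 / 4) : ℝ)) :=
    Real.summable_nat_rpow.2 (by norm_num)
  have hZ0 : 0 ≤ ∑' n : ℕ, (n : ℝ) ^ (-(5 / 4) : ℝ) :=
    tsum_nonneg (fun n => Real.rpow_nonneg (Nat.cast_nonneg n) _)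
  set c : ℝ := C1 * (1 + 1 ^ 2 + Cs * 1) * ∑' n : ℕ, (n : ℝ) ^ (-(5 / 4) : ℝ) with hc
  have hc0 : 0 ≤ c := by positivity
  refine ⟨2 * C0' + c, by positivity, ?_⟩
  intro η P₀ hη hη1 hP
  obtain ⟨hAs, hAt⟩ := hM η hη hη1
  set A : ℕ → ℝ := fun n => ‖g n‖ * wt η n with hAdef
  set B : ℕ → ℝ := fun n => ‖uu g P₀ n‖ * wt η n with hBdef
  have hA : ∀ n, 0 ≤ A n := fun n => mul_nonneg (norm_nonneg _) (EE_wt_nonneg η n)
  have hB : ∀ n, 0 ≤ B n := fun n => mul_nonneg (norm_nonneg _) (EE_wt_nonneg η n)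
  have hBA : ∀ n, B n ≤ A n := fun n =>
    mul_le_mul_of_nonneg_right (EE_uu_le g P₀ n) (EE_wt_nonneg η n)
  have hA0 : A 0 = 0 := by simp only [hAdef]; rw [EE_wt_zero η hη, mul_zero]
  have hB0 : B 0 = 0 := by simp only [hBdef]; rw [EE_wt_zero η hη, mul_zero]
  have hBs : Summable B := Summable.of_nonneg_of_le hB hBA hAs
  have hBp : ∀ n : ℕ, ¬ n.Prime → B n = 0 := fun n hn => by
    simp only [hBdef, uu]
    rw [if_neg (fun h => hn h.1), norm_zero, zero_mul]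
  have hG0 : 0 ≤ ∑' n, A n := tsum_nonneg hA
  have hSB0 : 0 ≤ ∑' n, B n := tsum_nonneg hB
  have hSBG : ∑' n, B n ≤ ∑' n, A n := Summable.tsum_le_tsum hBA hBs hAs
  set X : ℝ := QE C0' η with hXdef
  have hX : 1 ≤ X := QE_ge C0' η hC0' hη hη1
  have hAt' : ∑' n, A n ≤ 1 * X := by rw [one_mul]; exact hAt
  -- the double sequence
  set W : ℕ → ℝ := fun n => A n + ∑ x ∈ n.divisorsAntidiagonal, B x.1 * A x.2 with hWdef
  have hW : ∀ n, 0 ≤ W n := fun n =>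
    add_nonneg (hA n) (Finset.sum_nonneg (fun x _ => mul_nonneg (hB _) (hA _)))
  classical
  set F : ℕ × ℕ → ℝ := fun x =>
    if x.1.Prime ∧ P₀ < x.1 ∧ x.1 ^ 2 ∣ x.2 then W x.2 else 0 with hFdef
  have hF0 : ∀ x, 0 ≤ F x := fun x => by
    simp only [hFdef]
    split_ifs
    · exact hW _
    · exact le_refl 0
  set D : ℝ := C1 * (1 + 1 ^ 2 + Cs * 1) * X ^ 2 * (P₀ : ℝ) ^ (-(1 / 4) : ℝ) with hDdef
  have hD0 : 0 ≤ D := by positivity
  have hrow : ∀ p : ℕ, Summable (fun n : ℕ => F (p, n)) ∧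
      ∑' n : ℕ, F (p, n) ≤ D * (p : ℝ) ^ (-(5 / 4) : ℝ) := by
    intro p
    by_cases hp : p.Prime ∧ P₀ < p
    · have h := EE_one hGRP A B hA hB hA0 hB0 hAs hBs hBp p hp.1
      have heq : (fun n : ℕ => F (p, n)) = fun n : ℕ => if p ^ 2 ∣ n then
          (A n + ∑ x ∈ n.divisorsAntidiagonal, B x.1 * A x.2) else 0 := by
        funext n
        simp only [hFdef]
        by_cases hn : p ^ 2 ∣ n
        · rw [if_pos ⟨hp.1, hp.2, hn⟩, if_pos hn]
        · rw [if_neg (fun h => hn h.2.2), if_neg hn]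
      rw [heq]
      refine ⟨h.1, le_trans h.2 ?_⟩
      have hd := hD p η hp.1 hη hη1
      have hpp : (0 : ℝ) < p := by exact_mod_cast hp.1.pos
      have hBple : B p ≤ Cs * (p : ℝ) ^ (-(3 / 4) : ℝ) := by
        have h1 : B p ≤ ‖g p‖ * wt η p := hBA p
        have h2 : ‖g p‖ ≤ Cs * (p : ℝ) ^ (1 / 8 : ℝ) := hCs p hp.1.one_lt.le
        have h3 : (p : ℝ) ^ (1 / 8 : ℝ) * wt η p ≤ (p : ℝ) ^ (-(3 / 4) : ℝ) := by
          unfold wt
          rw [← Real.rpow_add hpp]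
          refine Real.rpow_le_rpow_of_exponent_le ?_ (by linarith)
          exact_mod_cast hp.1.one_lt.le
        calc B p ≤ ‖g p‖ * wt η p := h1
          _ ≤ (Cs * (p : ℝ) ^ (1 / 8 : ℝ)) * wt η p :=
              mul_le_mul_of_nonneg_right h2 (EE_wt_nonneg η p)
          _ = Cs * ((p : ℝ) ^ (1 / 8 : ℝ) * wt η p) := by ring
          _ ≤ _ := mul_le_mul_of_nonneg_left h3 hCs0
      have hI20 : 0 ≤ ∑' n : ℕ, (if p ^ 2 ∣ n then A n else 0) := tsum_nonneg (fun n => by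
        split_ifs
        · exact hA n
        · exact le_refl 0)
      have hI10 : 0 ≤ ∑' n : ℕ, (if p ∣ n then A n else 0) := tsum_nonneg (fun n => by
        split_ifs
        · exact hA n
        · exact le_refl 0)
      exact EE_num C1 1 Cs (∑' n, A n) (∑' n, B n) (B p) _ _ X p P₀ hC1 zero_le_one hCs0 hG0
        hAt' hX hSB0 hSBG hBple (hB p) hd.2 hd.1 hI20 hI10 hP hp.2
    · have heq : (fun n : ℕ => F (p, n)) = fun _ : ℕ => (0 : ℝ) := by
        funext n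
        simp only [hFdef]
        rw [if_neg (fun h => hp ⟨h.1, h.2.1⟩)]
      rw [heq]
      refine ⟨summable_zero, ?_⟩
      rw [tsum_zero]
      exact mul_nonneg hD0 (Real.rpow_nonneg (Nat.cast_nonneg p) _)
  have hrs : Summable (fun p : ℕ => ∑' n : ℕ, F (p, n)) :=
    Summable.of_nonneg_of_le (fun p => tsum_nonneg (fun n => hF0 _)) (fun p => (hrow p).2)
      (hZs.mul_left D)
  have hFs : Summable F := (summable_prod_of_nonneg hF0).2 ⟨fun p => (hrow p).1, hrs⟩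
  have hFs' : Summable (fun x : ℕ × ℕ => F (x.2, x.1)) := hFs.prod_symm
  have hcol : ∀ n : ℕ, Summable (fun p : ℕ => F (p, n)) := fun n => hFs'.prod_factor n
  have hcs : Summable (fun n : ℕ => ∑' p : ℕ, F (p, n)) := hFs'.prod
  have hcomm : ∑' n : ℕ, ∑' p : ℕ, F (p, n) = ∑' p : ℕ, ∑' n : ℕ, F (p, n) :=
    Summable.tsum_comm' hFs (fun p => (hrow p).1) hcol
  have hE0 : ∀ n : ℕ, 0 ≤ EE g P₀ n * wt η n := by
    intro n
    refine mul_nonneg ?_ (EE_wt_nonneg η n)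
    unfold EE
    split_ifs
    · exact add_nonneg (norm_nonneg _)
        (Finset.sum_nonneg (fun x _ => mul_nonneg (norm_nonneg _) (norm_nonneg _)))
    · exact le_refl 0
  have hEle : ∀ n : ℕ, EE g P₀ n * wt η n ≤ ∑' p : ℕ, F (p, n) := by
    intro n
    by_cases h : ∃ p : ℕ, p.Prime ∧ P₀ < p ∧ p ^ 2 ∣ n
    · rw [EE_term g P₀ η n h]
      obtain ⟨p, hp⟩ := h
      have h1 : F (p, n) ≤ ∑' p : ℕ, F (p, n) :=
        (hcol n).le_tsum p (fun q _ => hF0 _)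
      refine le_trans (le_of_eq ?_) h1
      simp only [hFdef]
      rw [if_pos hp]
    · have : EE g P₀ n = 0 := by
        unfold EE
        rw [if_neg h]
      rw [this, zero_mul]
      exact tsum_nonneg (fun p => hF0 _)
  have hEs : Summable (fun n : ℕ => EE g P₀ n * wt η n) :=
    Summable.of_nonneg_of_le hE0 hEle hcs
  refine ⟨hEs, ?_⟩
  have hP00 : 0 ≤ (P₀ : ℝ) ^ (-(1 / 4) : ℝ) := Real.rpow_nonneg (Nat.cast_nonneg _) _
  calc ∑' n : ℕ, EE g P₀ n * wt η n ≤ ∑' n : ℕ, ∑' p : ℕ, F (p, n) :=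
        Summable.tsum_le_tsum hEle hEs hcs
    _ = ∑' p : ℕ, ∑' n : ℕ, F (p, n) := hcomm
    _ ≤ ∑' p : ℕ, D * (p : ℝ) ^ (-(5 / 4) : ℝ) :=
        Summable.tsum_le_tsum (fun p => (hrow p).2) hrs (hZs.mul_left D)
    _ = D * ∑' p : ℕ, (p : ℝ) ^ (-(5 / 4) : ℝ) := tsum_mul_left
    _ = c * X ^ 2 * (P₀ : ℝ) ^ (-(1 / 4) : ℝ) := by rw [hDdef, hc]; ring
    _ ≤ QE (2 * C0' + c) η * (P₀ : ℝ) ^ (-(1 / 4) : ℝ) :=
        mul_le_mul_of_nonneg_right (QE_abs c C0' η hc0 hη hη1) hP00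

end

end Pool.Agent.SelQ
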