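import Pool.Agent.SelQ.TargetsK
import Pool.Agent.SelDeg2.HAR

set_option autoImplicit false

open Finset

namespace Pool.Agent.SelQ

open Pool.Agent.SelDeg2

noncomputable section

theorem p_KHA (h : T_KM1) : T_KHA := by
  intro g hg
  obtain ⟨C, hC, hCK⟩ := h g hg
  refine ⟨C + 1, by positivity, fun M hM => ?_⟩
  have hM' : (1 : ℝ) ≤ M := by exact_mod_cast hM
  have hlog : 0 ≤ Real.log M := Real.log_nonneg hM'
  have hη0 : 0 < 1 / (1 + Real.log M) := by positivity
  have hη1 : 1 / (1 + Real.log M) ≤ 1 := by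
    rw [div_le_one (by linarith)]; linarith
  obtain ⟨hs, hb⟩ := hCK _ hη0 hη1
  unfold QE at hb
  rw [one_div_one_div] at hb
  have hL : 1 ≤ (1 + Real.log (1 + Real.log M)) ^ 3 :=
    one_le_pow₀ (by
      have := Real.log_nonneg (x := 1 + Real.log M) (by linarith)
      linarith)
  calc ∑ m ∈ Finset.Icc 1 M, ‖g m‖ / m
      ≤ ∑ m ∈ Finset.Icc 1 M, Real.exp 1 * (‖g m‖ * wt (1 / (1 + Real.log M)) m) := by
        refine Finset.sum_le_sum fun m hm => ?_
        rw [Finset.mem_Icc] at hm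
        have := HAR_wt hm.1 hm.2
        calc ‖g m‖ / m = ‖g m‖ * (1 / m) := by ring
          _ ≤ ‖g m‖ * (Real.exp 1 * wt (1 / (1 + Real.log M)) m) :=
            mul_le_mul_of_nonneg_left this (norm_nonneg _)
          _ = _ := by ring
    _ = Real.exp 1 * ∑ m ∈ Finset.Icc 1 M, ‖g m‖ * wt (1 / (1 + Real.log M)) m := by
        rw [Finset.mul_sum]
    _ ≤ Real.exp 1 * ∑' m : ℕ, ‖g m‖ * wt (1 / (1 + Real.log M)) m := by
        refine mul_le_mul_of_nonneg_left ?_ (Real.exp_pos 1).le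
        exact hs.sum_le_tsum _ fun m _ =>
          mul_nonneg (norm_nonneg _) (Real.rpow_nonneg (Nat.cast_nonneg m) _)
    _ ≤ Real.exp 1 * Real.exp (C * (1 + Real.log (1 + Real.log M)) ^ 3) :=
        mul_le_mul_of_nonneg_left hb (Real.exp_pos 1).le
    _ ≤ QL (C + 1) M := by
        unfold QL
        rw [← Real.exp_add]
        exact Real.exp_le_exp.2 (by linarith)

end

end Pool.Agent.SelQ
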