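import Pool.Agent.SelQ.TargetsK
import Pool.Agent.SelDeg2.IRR
import Pool.Agent.SelDeg2.DIO

/-!
# SD2-KIR (MP_995735_nt): irrational points, with quasi-polynomial moments
-/

set_option autoImplicit false

open Finset

namespace Pool.Agent.SelQ

open Complex Filter Topology
open Pool.Agent.SelDeg2 (ee SS wt BF)

noncomputable section

namespace KIR_

theorem ev_log (C : ℝ) : ∀ᶠ l : ℝ in atTop,
    C * (1 + Real.log (1 + 3 * l ^ 4)) ^ 3 ≤ l / 4 := by
  have h1 : (fun x : ℝ => Real.log x ^ 3) =o[atTop] fun x => x := Real.isLittleO_pow_log_id_atTop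
  have hc : (0 : ℝ) < 1 / (4 * 343 * (|C| + 1)) := by positivity
  have h2 := h1.def hc
  filter_upwards [h2, eventually_ge_atTop (Real.exp 1), eventually_ge_atTop (1 : ℝ)] with l h3 h4 h5
  have hl0 : 0 < l := by linarith
  have hlog : 1 ≤ Real.log l := by
    rw [Real.le_log_iff_exp_le hl0]
    exact h4
  have h6 : Real.log (1 + 3 * l ^ 4) ≤ 2 + 4 * Real.log l := by
    have h7 : 1 + 3 * l ^ 4 ≤ 4 * l ^ 4 := by
      have : 1 ≤ l ^ 4 := one_le_pow₀ h5
      linarith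
    have h8 : Real.log (1 + 3 * l ^ 4) ≤ Real.log (4 * l ^ 4) :=
      Real.log_le_log (by positivity) h7
    rw [Real.log_mul (by norm_num) (by positivity), Real.log_pow] at h8
    have h9 : Real.log 4 ≤ 2 := by
      rw [Real.log_le_iff_le_exp (by norm_num)]
      have := Real.exp_one_gt_d9
      have h10 : Real.exp 2 = Real.exp 1 * Real.exp 1 := by rw [← Real.exp_add]; norm_num
      rw [h10]
      nlinarith
    push_cast at h8
    linarith
  have h6' : 0 ≤ Real.log (1 + 3 * l ^ 4) := Real.log_nonneg (by nlinarith [pow_pos hl0 4])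
  have h11 : (1 + Real.log (1 + 3 * l ^ 4)) ^ 3 ≤ 343 * Real.log l ^ 3 := by
    calc (1 + Real.log (1 + 3 * l ^ 4)) ^ 3 ≤ (7 * Real.log l) ^ 3 := by
          refine pow_le_pow_left₀ (by linarith) ?_ 3
          linarith
      _ = 343 * Real.log l ^ 3 := by ring
  rw [Real.norm_of_nonneg (by positivity), Real.norm_of_nonneg hl0.le] at h3
  have h12 : 0 ≤ (1 + Real.log (1 + 3 * l ^ 4)) ^ 3 := by positivity
  calc C * (1 + Real.log (1 + 3 * l ^ 4)) ^ 3 ≤ (|C| + 1) * (343 * Real.log l ^ 3) := by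
        refine mul_le_mul ?_ h11 h12 (by positivity)
        linarith [le_abs_self C]
    _ ≤ (|C| + 1) * (343 * (1 / (4 * 343 * (|C| + 1)) * l)) := by gcongr
    _ = l / 4 := by field_simp

theorem ev_pow (C : ℝ) : ∀ᶠ l : ℝ in atTop, C * l ^ 3 ≤ Real.exp (l / 4) := by
  have h1 : Tendsto (fun x : ℝ => x ^ 3 / Real.exp x) atTop (𝓝 0) :=
    Real.tendsto_pow_mul_exp_neg_atTop_nhds_zero 3 |>.congr fun x => by
      rw [Real.exp_neg, div_eq_mul_inv]
  have h2 : Tendsto (fun l : ℝ => l / 4) atTop atTop := tendsto_id.atTop_div_const (by norm_num)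
  have h3 := h1.comp h2
  have hc : (0 : ℝ) < 1 / (64 * (|C| + 1)) := by positivity
  filter_upwards [h3.eventually (gt_mem_nhds hc), eventually_ge_atTop (0 : ℝ)] with l h4 h5
  simp only [Function.comp] at h4
  rw [div_lt_iff₀ (Real.exp_pos _)] at h4
  have h6 : 0 ≤ l ^ 3 := by positivity
  calc C * l ^ 3 ≤ (|C| + 1) * l ^ 3 := by
        refine mul_le_mul_of_nonneg_right ?_ h6
        linarith [le_abs_self C]
    _ = 64 * (|C| + 1) * (l / 4) ^ 3 := by ring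
    _ ≤ 64 * (|C| + 1) * (1 / (64 * (|C| + 1)) * Real.exp (l / 4)) := by gcongr
    _ = Real.exp (l / 4) := by field_simp

theorem ev_quart (C : ℝ) : ∀ᶠ l : ℝ in atTop, C * l ^ 3 ≤ l ^ 4 / 4 := by
  filter_upwards [eventually_ge_atTop (4 * |C|), eventually_ge_atTop (0 : ℝ)] with l h1 h2
  have h3 : 0 ≤ l ^ 3 := by positivity
  have h4 : C ≤ l / 4 := by linarith [le_abs_self C]
  calc C * l ^ 3 ≤ l / 4 * l ^ 3 := mul_le_mul_of_nonneg_right h4 h3
    _ = l ^ 4 / 4 := by ring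

theorem ev_exp {ε : ℝ} (hε : 0 < ε) : ∀ᶠ l : ℝ in atTop, 10 * Real.exp (1 - l / 2) < ε := by
  have h1 : Tendsto (fun l : ℝ => l / 2 - 1) atTop atTop :=
    tendsto_atTop_add_const_right _ _ (tendsto_id.atTop_div_const (by norm_num))
  have h2 : Tendsto (fun l : ℝ => 10 * Real.exp (-(l / 2 - 1))) atTop (𝓝 (10 * 0)) :=
    (Real.tendsto_exp_neg_atTop_nhds_zero.comp h1).const_mul 10
  rw [mul_zero] at h2
  filter_upwards [h2.eventually (gt_mem_nhds hε)] with l hl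
  have : 1 - l / 2 = -(l / 2 - 1) := by ring
  rw [this]
  exact hl

end KIR_

open KIR_ in
theorem p_KIR (hKRA : T_KRA) : T_KIR := by
  intro g κ hg hκ ε δ hε hδ
  obtain ⟨C, hC, h⟩ := hKRA g κ hg
  -- the scale
  have hl : Tendsto (fun J : ℕ => (Real.log J) ^ (1 / 4 : ℝ)) atTop atTop :=
    (tendsto_rpow_atTop (by norm_num)).comp (Real.tendsto_log_atTop.comp tendsto_natCast_atTop_atTop)
  have hev : ∀ᶠ l : ℝ in atTop, C * (1 + Real.log (1 + 3 * l ^ 4)) ^ 3 ≤ l / 4 ∧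
      C * l ^ 3 ≤ Real.exp (l / 4) ∧ C * l ^ 3 ≤ l ^ 4 / 4 ∧ 10 * Real.exp (1 - l / 2) < ε ∧
      10 * Real.exp (1 - l / 2) < δ ∧ 2 ≤ l := by
    filter_upwards [ev_log C, ev_pow C, ev_quart C, ev_exp hε, ev_exp hδ,
      eventually_ge_atTop (2 : ℝ)] with l h1 h2 h3 h4 h5 h6
    exact ⟨h1, h2, h3, h4, h5, h6⟩
  obtain ⟨N, hN⟩ := ((hl.eventually hev).and (eventually_ge_atTop 3)).exists_forall_of_atTop
  obtain ⟨J, hNJ, hJ1, hJ⟩ := Pool.Agent.SelDeg2.p_DIO κ hκ N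
  obtain ⟨⟨e1, e2, e3, e4, e5, e6⟩, hJ3⟩ := hN J hNJ
  set l : ℝ := (Real.log J) ^ (1 / 4 : ℝ) with hldef
  have hJ' : (3 : ℝ) ≤ J := by exact_mod_cast hJ3
  have hJ0 : (0 : ℝ) < J := by linarith
  have hlog0 : 0 ≤ Real.log J := Real.log_nonneg (by linarith)
  have hl4 : Real.log J = l ^ 4 := by
    rw [hldef, ← Real.rpow_natCast, ← Real.rpow_mul hlog0]
    norm_num
  have hl0 : 0 < l := by linarith
  set η : ℝ := Real.exp (1 - l) with hη
  have hη0 : 0 < η := Real.exp_pos _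
  have hη1 : η ≤ 1 := by
    rw [hη]
    exact Real.exp_le_one_iff.2 (by linarith)
  have hηl : η ≤ Real.exp (1 - l / 2) := Real.exp_le_exp.2 (by linarith)
  have hηlog : 1 + Real.log (1 / η) = l := by
    rw [hη, one_div, ← Real.exp_neg, Real.log_exp]
    ring
  have hJexp : (J : ℝ) = Real.exp (l ^ 4) := by rw [← hl4, Real.exp_log hJ0]
  refine ⟨η, hη0, ?_, hη1, lt_of_le_of_lt ?_ e4⟩
  · have := Real.exp_pos (1 - l / 2)
    linarith
  have hm := h (1 / (8 * (J + 1))) η J J (J ^ 3) (by positivity) hη0 hη1 hJ1 hJ1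
    (Nat.one_le_pow _ _ hJ1) (fun j hj1 hj2 z => by
      refine le_trans (le_of_eq ?_) (hJ j hj1 hj2 z)
      field_simp
      norm_num)
  have hBF := Pool.Agent.SelDeg2.IRR_.BF_le hη0 hη1 hJ1
  have hM0 : Real.log ((J ^ 3 : ℕ) : ℝ) = 3 * l ^ 4 := by
    push_cast
    rw [Real.log_pow, hl4]
    norm_num
  have hQE : QE C η = Real.exp (C * l ^ 3) := by
    unfold QE
    rw [hηlog]
  have hQL2 : QL C (J ^ 3) ≤ Real.exp (l / 4) := by
    unfold QL
    rw [hM0]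
    exact Real.exp_le_exp.2 e1
  have hQL1 : QL C J ≤ Real.exp (l / 4) := by
    refine le_trans ?_ hQL2
    unfold QL
    rw [hM0, hl4]
    have h1 : Real.log (1 + l ^ 4) ≤ Real.log (1 + 3 * l ^ 4) := by
      refine Real.log_le_log (by positivity) ?_
      nlinarith [pow_pos hl0 4]
    have h2 : 0 ≤ Real.log (1 + l ^ 4) := Real.log_nonneg (by nlinarith [pow_pos hl0 4])
    refine Real.exp_le_exp.2 (mul_le_mul_of_nonneg_left ?_ hC)
    exact pow_le_pow_left₀ (by linarith) (by linarith) 3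
  rw [hηlog, hQE] at hm
  have hJq : (J : ℝ) ^ (-(1 / 4) : ℝ) = Real.exp (-(l ^ 4 / 4)) := by
    rw [hJexp, ← Real.exp_mul]
    congr 1
    ring
  have hJh : (J : ℝ) ^ (-(1 / 2) : ℝ) = Real.exp (-(l ^ 4 / 2)) := by
    rw [hJexp, ← Real.exp_mul]
    congr 1
    ring
  set x : ℝ := Real.exp (1 - l / 2) with hx
  have hx0 : 0 < x := Real.exp_pos _
  have t1 : η * QL C J ≤ x := by
    calc η * QL C J ≤ η * Real.exp (l / 4) := by gcongr
      _ = Real.exp (1 - l + l / 4) := by rw [hη, ← Real.exp_add]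
      _ ≤ x := Real.exp_le_exp.2 (by linarith)
  have t2 : η * (QL C (J ^ 3) * (C * l ^ 3)) ≤ x := by
    calc η * (QL C (J ^ 3) * (C * l ^ 3)) ≤ η * (Real.exp (l / 4) * Real.exp (l / 4)) := by
          gcongr
      _ = Real.exp (1 - l + (l / 4 + l / 4)) := by rw [hη, ← Real.exp_add, ← Real.exp_add]
      _ ≤ x := Real.exp_le_exp.2 (by linarith)
  have t3 : η * (Real.exp (C * l ^ 3) * (J : ℝ) ^ (-(1 / 4) : ℝ)) ≤ x := by
    rw [hJq, hη, ← Real.exp_add, ← Real.exp_add]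
    exact Real.exp_le_exp.2 (by linarith)
  have t4 : η * (Real.exp (C * l ^ 3) *
      Real.sqrt (BF η (1 / (8 * (J + 1))) J J (J ^ 3))) ≤ 7 * x := by
    calc η * (Real.exp (C * l ^ 3) * Real.sqrt (BF η (1 / (8 * (J + 1))) J J (J ^ 3))) ≤
        η * (Real.exp (C * l ^ 3) * (7 * (J : ℝ) ^ (-(1 / 2) : ℝ) * (1 / η))) := by gcongr
      _ = 7 * (Real.exp (C * l ^ 3) * (J : ℝ) ^ (-(1 / 2) : ℝ)) := by field_simp
      _ = 7 * Real.exp (C * l ^ 3 + -(l ^ 4 / 2)) := by rw [hJh, ← Real.exp_add]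
      _ ≤ 7 * x := by
          refine mul_le_mul_of_nonneg_left (Real.exp_le_exp.2 ?_) (by norm_num)
          have h1 : 2 * l ≤ l ^ 4 := by
            have h2 : (2 : ℝ) ^ 3 ≤ l ^ 3 := pow_le_pow_left₀ (by norm_num) e6 3
            nlinarith
          linarith
  calc η * ‖SS g κ η‖ ≤ η * (QL C J + QL C (J ^ 3) * (C * l ^ 3) +
      Real.exp (C * l ^ 3) * (J : ℝ) ^ (-(1 / 4) : ℝ) +
      Real.exp (C * l ^ 3) * Real.sqrt (BF η (1 / (8 * (J + 1))) J J (J ^ 3))) :=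
        mul_le_mul_of_nonneg_left hm hη0.le
    _ = η * QL C J + η * (QL C (J ^ 3) * (C * l ^ 3)) +
      η * (Real.exp (C * l ^ 3) * (J : ℝ) ^ (-(1 / 4) : ℝ)) +
      η * (Real.exp (C * l ^ 3) * Real.sqrt (BF η (1 / (8 * (J + 1))) J J (J ^ 3))) := by ring
    _ ≤ 10 * x := by linarith

end

end Pool.Agent.SelQ
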