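import Pool.Agent.SelQ.TargetsK
import Pool.Agent.SelDeg2.MOM1

/-!
# K3 KM1: the first moment
-/

set_option autoImplicit false

namespace Pool.Agent.SelQ

open Filter Topology
open Pool.Agent.SelDeg2 (wt)
open Pool.Agent.SelDeg2.MOM1_

/-- K3 KM1: the first moment -/
theorem p_KM1 (hKM2 : T_KM2) : T_KM1 := by
  intro g hg
  obtain ⟨C, hC, h⟩ := hKM2 g hg
  refine ⟨C + 2, by positivity, fun η hη hη1 => ?_⟩
  obtain ⟨hs, hb⟩ := h η hη hη1
  have hpt : ∀ n : ℕ, ‖g n‖ * wt η n ≤ (‖g n‖ ^ 2 * wt η n + wt η n) / 2 := by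
    intro n
    have h1 := wt_nonneg η n
    have h2 : ‖g n‖ ≤ (‖g n‖ ^ 2 + 1) / 2 := by nlinarith [sq_nonneg (‖g n‖ - 1)]
    calc ‖g n‖ * wt η n ≤ (‖g n‖ ^ 2 + 1) / 2 * wt η n := mul_le_mul_of_nonneg_right h2 h1
      _ = _ := by ring
  have hsum : Summable (fun n : ℕ => (‖g n‖ ^ 2 * wt η n + wt η n) / 2) :=
    (hs.add (summable_wt hη)).div_const 2
  have hs1 : Summable (fun n : ℕ => ‖g n‖ * wt η n) :=
    Summable.of_nonneg_of_le (fun n => mul_nonneg (norm_nonneg _) (wt_nonneg η n)) hpt hsum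
  refine ⟨hs1, ?_⟩
  have h1η : 1 ≤ 1 / η := by
    rw [le_div_iff₀ hη]
    linarith
  set L : ℝ := Real.log (1 / η) with hL
  have hL0 : 0 ≤ L := Real.log_nonneg h1η
  have hexpL : Real.exp L = 1 / η := Real.exp_log (by positivity)
  have hcube : 1 + L ≤ (1 + L) ^ 3 := by
    calc 1 + L = (1 + L) ^ 1 := (pow_one _).symm
      _ ≤ (1 + L) ^ 3 := pow_le_pow_right₀ (by linarith) (by norm_num)
  have e1 : QE C η ≤ QE (C + 2) η := by
    unfold QE
    apply Real.exp_le_exp.2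
    have : 0 ≤ (1 + L) ^ 3 := by positivity
    nlinarith
  have e2 : 1 + 1 / η ≤ QE (C + 2) η := by
    have h2 : 1 + 1 / η ≤ 2 * Real.exp L := by
      rw [hexpL]
      linarith
    have h3 : 2 * Real.exp L ≤ Real.exp (1 + L) := by
      rw [Real.exp_add]
      have : (2 : ℝ) ≤ Real.exp 1 := by
        have := Real.add_one_le_exp (1 : ℝ)
        linarith
      exact mul_le_mul_of_nonneg_right this (Real.exp_pos _).le
    have h4 : Real.exp (1 + L) ≤ QE (C + 2) η := by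
      unfold QE
      apply Real.exp_le_exp.2
      have : 0 ≤ (1 + L) ^ 3 := by positivity
      nlinarith
    linarith
  calc ∑' n : ℕ, ‖g n‖ * wt η n ≤ ∑' n : ℕ, (‖g n‖ ^ 2 * wt η n + wt η n) / 2 :=
        hs1.tsum_le_tsum hpt hsum
    _ = (∑' n : ℕ, ‖g n‖ ^ 2 * wt η n + ∑' n : ℕ, wt η n) / 2 := by
        rw [tsum_div_const, hs.tsum_add (summable_wt hη)]
    _ ≤ (QE C η + (1 + 1 / η)) / 2 := by
        have := tsum_wt_le hη
        linarith
    _ ≤ QE (C + 2) η := by linarith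

end Pool.Agent.SelQ
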