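import Pool.Agent.SelQ.TargetsK
import Pool.Agent.SelDeg2.EP

/-!
# SD2-KM2: the second moment
-/

set_option autoImplicit false

namespace Pool.Agent.SelQ

open Complex Filter Topology MeasureTheory
open Pool.Agent.SelTwo
open Pool.Agent.SelDeg2 (wt)

noncomputable section

namespace KM2_

lemma wt_nonneg (η : ℝ) (n : ℕ) : 0 ≤ wt η n := Real.rpow_nonneg (Nat.cast_nonneg n) _

lemma wt_mul (η : ℝ) (m n : ℕ) : wt η (m * n) = wt η m * wt η n := by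
  unfold wt
  push_cast
  exact Real.mul_rpow (Nat.cast_nonneg m) (Nat.cast_nonneg n)

lemma wt_one (η : ℝ) : wt η 1 = 1 := by simp [wt]

lemma wt_zero {η : ℝ} (hη : 0 < η) : wt η 0 = 0 := by
  unfold wt
  rw [Nat.cast_zero, Real.zero_rpow]
  linarith

/-- `|g n|^2 ≤ C n^(2 ε)` -/
lemma sq_bound {g : ℕ → ℂ} (h : MQ g) {ε : ℝ} (hε : 0 < ε) : ∃ C : ℝ, 0 ≤ C ∧
    ∀ n : ℕ, 1 ≤ n → ‖g n‖ ^ 2 ≤ C * (n : ℝ) ^ (2 * ε) := by
  obtain ⟨C, hC⟩ := h.small ε hε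
  refine ⟨C ^ 2, sq_nonneg C, fun n hn => ?_⟩
  have h1 := hC n hn
  have h2 : ‖g n‖ ^ 2 ≤ (C * (n : ℝ) ^ ε) ^ 2 := by
    exact pow_le_pow_left₀ (norm_nonneg _) h1 2
  refine h2.trans (le_of_eq ?_)
  rw [mul_pow]
  congr 1
  rw [← Real.rpow_natCast, ← Real.rpow_mul (Nat.cast_nonneg n)]
  congr 1
  push_cast
  ring

lemma summable_h {g : ℕ → ℂ} (h : MQ g) {η : ℝ} (hη : 0 < η) :
    Summable (fun n : ℕ => ‖g n‖ ^ 2 * wt η n) := by
  obtain ⟨C, hC0, hC⟩ := sq_bound h (ε := η / 4) (by positivity)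
  have hs : Summable (fun n : ℕ => C * (n : ℝ) ^ (-(1 + η / 2))) := by
    refine Summable.mul_left _ ?_
    rw [Real.summable_nat_rpow]
    linarith
  refine Summable.of_nonneg_of_le (fun n => by
    exact mul_nonneg (sq_nonneg _) (wt_nonneg η n)) (fun n => ?_) hs
  rcases Nat.eq_zero_or_pos n with h0 | h0
  · subst h0
    rw [wt_zero hη, mul_zero]
    positivity
  · have hn : (0 : ℝ) < n := by exact_mod_cast h0
    calc ‖g n‖ ^ 2 * wt η n ≤ C * (n : ℝ) ^ (2 * (η / 4)) * wt η n :=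
          mul_le_mul_of_nonneg_right (hC n h0) (wt_nonneg η n)
      _ = C * (n : ℝ) ^ (-(1 + η / 2)) := by
          unfold wt
          rw [mul_assoc, ← Real.rpow_add hn]
          congr 2
          ring

end KM2_

open KM2_

theorem p_KM2 : T_KM2 := by
  intro g hg
  obtain ⟨C₀, hC₀⟩ := hg.qp
  obtain ⟨C₁, hC₁0, hC₁⟩ := sq_bound hg (ε := 1 / 16) (by norm_num)
  have hC₀0 : 0 ≤ C₀ := by
    have h1 := (hC₀ 1 one_pos le_rfl).2
    simp only [div_one, Real.log_one, add_zero, one_pow, mul_one] at h1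
    refine le_trans (tsum_nonneg fun p => ?_) h1
    positivity
  set r : ℝ := (2 : ℝ) ^ (-(7 / 8) : ℝ) with hr
  have hr0 : 0 < r := by positivity
  have hr1 : r < 1 := by
    rw [hr]
    exact Real.rpow_lt_one_of_one_lt_of_neg (by norm_num) (by norm_num)
  have hq1 : Summable (fun p : Nat.Primes => ((p : ℕ) : ℝ) ^ (-(7 / 4) : ℝ)) := by
    rw [Nat.Primes.summable_rpow]
    norm_num
  have hq2 : Summable (fun k : ℕ => r ^ k) := summable_geometric_of_lt_one hr0.le hr1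
  have hq : Summable (fun x : Nat.Primes × ℕ => ((x.1 : ℕ) : ℝ) ^ (-(7 / 4) : ℝ) * r ^ x.2) := by
    refine Summable.mul_of_nonneg hq1 hq2 ?_ ?_
    · intro p
      positivity
    · intro k
      positivity
  set E : ℝ := ∑' x : Nat.Primes × ℕ, C₁ * r⁻¹ *
    (((x.1 : ℕ) : ℝ) ^ (-(7 / 4) : ℝ) * r ^ x.2) with hE
  have hE0 : 0 ≤ E := tsum_nonneg fun x => by positivity
  refine ⟨C₀ + E, add_nonneg hC₀0 hE0, ?_⟩
  intro η hη hη1
  have hsum := summable_h hg hη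
  refine ⟨hsum, ?_⟩
  obtain ⟨hF, hle⟩ := Pool.Agent.SelDeg2.p_EP (fun n : ℕ => ‖g n‖ ^ 2 * wt η n)
    (fun n => mul_nonneg (sq_nonneg _) (wt_nonneg η n)) (by simp only [wt_zero hη, mul_zero])
    (by simp only [hg.one, wt_one, norm_one, one_pow, mul_one]) (by
      intro m n hmn
      simp only [hg.mul m n hmn, wt_mul, norm_mul]
      ring) hsum
  refine hle.trans ?_
  -- the part with exponent one
  obtain ⟨hp1, hp2⟩ := hC₀ η hη hη1
  have hinj : Function.Injective (fun p : Nat.Primes => ((p, 0) : Nat.Primes × ℕ)) := by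
    intro p p' h
    exact (Prod.mk.inj h).1
  have hG0 : HasSum (fun x : Nat.Primes × ℕ => if x.2 = 0 then
      ‖g (x.1 : ℕ)‖ ^ 2 * ((x.1 : ℕ) : ℝ) ^ (-1 - η) else 0)
      (∑' p : Nat.Primes, ‖g p‖ ^ 2 * ((p : ℕ) : ℝ) ^ (-1 - η)) := by
    rw [← hinj.hasSum_iff]
    · have e : ((fun x : Nat.Primes × ℕ => if x.2 = 0 then
          ‖g (x.1 : ℕ)‖ ^ 2 * ((x.1 : ℕ) : ℝ) ^ (-1 - η) else 0) ∘
          fun p : Nat.Primes => ((p, 0) : Nat.Primes × ℕ)) =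
          fun p : Nat.Primes => ‖g p‖ ^ 2 * ((p : ℕ) : ℝ) ^ (-1 - η) := by
        funext p
        simp
      rw [e]
      exact hp1.hasSum
    · rintro ⟨p, k⟩ hx
      rw [if_neg]
      intro hk
      apply hx
      refine ⟨p, ?_⟩
      simp only at hk
      rw [hk]
  have hG1 : Summable (fun x : Nat.Primes × ℕ => C₁ * r⁻¹ *
      (((x.1 : ℕ) : ℝ) ^ (-(7 / 4) : ℝ) * r ^ x.2)) := hq.mul_left _
  have hpt : ∀ x : Nat.Primes × ℕ, ‖g ((x.1 : ℕ) ^ (x.2 + 1))‖ ^ 2 * wt η ((x.1 : ℕ) ^ (x.2 + 1)) ≤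
      (if x.2 = 0 then ‖g (x.1 : ℕ)‖ ^ 2 * ((x.1 : ℕ) : ℝ) ^ (-1 - η) else 0) +
      C₁ * r⁻¹ * (((x.1 : ℕ) : ℝ) ^ (-(7 / 4) : ℝ) * r ^ x.2) := by
    rintro ⟨p, k⟩
    have hp0 : 0 < (p : ℕ) := p.2.pos
    have hp0' : (0 : ℝ) < ((p : ℕ) : ℝ) := by exact_mod_cast hp0
    have hp2' : (2 : ℝ) ≤ ((p : ℕ) : ℝ) := by exact_mod_cast p.2.two_le
    rcases Nat.eq_zero_or_pos k with hk | hk
    · subst hk
      simp only [zero_add, pow_one, if_pos]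
      have : 0 ≤ C₁ * r⁻¹ * (((p : ℕ) : ℝ) ^ (-(7 / 4) : ℝ) * r ^ 0) := by positivity
      unfold wt
      linarith
    · simp only
      rw [if_neg (by omega), zero_add]
      have hN : 1 ≤ (p : ℕ) ^ (k + 1) := Nat.one_le_pow _ _ hp0
      have hN0 : (0 : ℝ) < (((p : ℕ) ^ (k + 1) : ℕ) : ℝ) := by exact_mod_cast hN
      have hN1 : (1 : ℝ) ≤ (((p : ℕ) ^ (k + 1) : ℕ) : ℝ) := by exact_mod_cast hN
      have h1 : ‖g ((p : ℕ) ^ (k + 1))‖ ^ 2 * wt η ((p : ℕ) ^ (k + 1)) ≤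
          C₁ * (((p : ℕ) ^ (k + 1) : ℕ) : ℝ) ^ (-(7 / 8) : ℝ) := by
        calc ‖g ((p : ℕ) ^ (k + 1))‖ ^ 2 * wt η ((p : ℕ) ^ (k + 1))
            ≤ C₁ * (((p : ℕ) ^ (k + 1) : ℕ) : ℝ) ^ (2 * (1 / 16) : ℝ) *
              wt η ((p : ℕ) ^ (k + 1)) :=
              mul_le_mul_of_nonneg_right (hC₁ _ hN) (wt_nonneg η _)
          _ ≤ C₁ * (((p : ℕ) ^ (k + 1) : ℕ) : ℝ) ^ (2 * (1 / 16) : ℝ) *
              (((p : ℕ) ^ (k + 1) : ℕ) : ℝ) ^ (-1 : ℝ) := by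
              refine mul_le_mul_of_nonneg_left ?_ (by positivity)
              unfold wt
              exact Real.rpow_le_rpow_of_exponent_le hN1 (by linarith)
          _ = C₁ * (((p : ℕ) ^ (k + 1) : ℕ) : ℝ) ^ (-(7 / 8) : ℝ) := by
              rw [mul_assoc, ← Real.rpow_add hN0]
              norm_num
      refine h1.trans ?_
      rw [mul_assoc C₁]
      refine mul_le_mul_of_nonneg_left ?_ hC₁0
      -- p^(-(7/8)(k+1)) = p^(-7/4) p^(-(7/8)(k-1))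
      obtain ⟨j, rfl⟩ : ∃ j, k = j + 1 := ⟨k - 1, by omega⟩
      have h2 : (((p : ℕ) ^ (j + 1 + 1) : ℕ) : ℝ) ^ (-(7 / 8) : ℝ) =
          ((p : ℕ) : ℝ) ^ (-(7 / 4) : ℝ) * (((p : ℕ) : ℝ) ^ (-(7 / 8) : ℝ)) ^ j := by
        push_cast
        rw [← Real.rpow_natCast, ← Real.rpow_natCast, ← Real.rpow_mul hp0'.le,
          ← Real.rpow_mul hp0'.le, ← Real.rpow_add hp0']
        congr 1
        push_cast
        ring
      have h3 : ((p : ℕ) : ℝ) ^ (-(7 / 8) : ℝ) ≤ r := by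
        rw [hr]
        exact Real.rpow_le_rpow_of_nonpos (by norm_num) hp2' (by norm_num)
      have h4 : (((p : ℕ) : ℝ) ^ (-(7 / 8) : ℝ)) ^ j ≤ r ^ j :=
        pow_le_pow_left₀ (by positivity) h3 j
      have h5 : r⁻¹ * r ^ (j + 1) = r ^ j := by
        rw [pow_succ]
        field_simp
      rw [h2]
      calc ((p : ℕ) : ℝ) ^ (-(7 / 4) : ℝ) * (((p : ℕ) : ℝ) ^ (-(7 / 8) : ℝ)) ^ j
          ≤ ((p : ℕ) : ℝ) ^ (-(7 / 4) : ℝ) * r ^ j :=
            mul_le_mul_of_nonneg_left h4 (by positivity)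
        _ = r⁻¹ * (((p : ℕ) : ℝ) ^ (-(7 / 4) : ℝ) * r ^ (j + 1)) := by
            rw [← h5]
            ring
  have hlog : 0 ≤ Real.log (1 / η) := Real.log_nonneg (by
    rw [le_div_iff₀ hη]
    linarith)
  have htot : ∑' x : Nat.Primes × ℕ, ‖g ((x.1 : ℕ) ^ (x.2 + 1))‖ ^ 2 *
      wt η ((x.1 : ℕ) ^ (x.2 + 1)) ≤ C₀ * (1 + Real.log (1 / η)) ^ 3 + E := by
    refine (Summable.tsum_le_tsum hpt hF (hG0.summable.add hG1)).trans ?_
    rw [Summable.tsum_add hG0.summable hG1, hG0.tsum_eq]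
    linarith
  have h3 : (1 : ℝ) ≤ (1 + Real.log (1 / η)) ^ 3 := one_le_pow₀ (by linarith)
  refine Real.exp_le_exp.2 (htot.trans ?_)
  rw [add_mul]
  have h4 : E * 1 ≤ E * (1 + Real.log (1 / η)) ^ 3 := mul_le_mul_of_nonneg_left h3 hE0
  linarith

end

end Pool.Agent.SelQ
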