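import Pool.Agent.SelQ.TargetsK
import Pool.Agent.SelDeg2.PM1

/-!
# SD2-KP1 (MP_995735_nt): the first moment over the primes
-/

set_option autoImplicit false

namespace Pool.Agent.SelQ

open Complex Filter Topology
open Pool.Agent.SelDeg2 (wt Lg)
open Pool.Agent.SelDeg2.PM1_ (summable_wt wt_nonneg sum_wt)

theorem p_KP1 : T_KP1 := by
  rintro g ⟨C, hC⟩
  obtain ⟨C₂, hC₂⟩ := sum_wt
  have hC0 : 0 ≤ C := by
    have h := (hC 1 one_pos le_rfl).2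
    rw [div_one, Real.log_one, add_zero, one_pow, mul_one] at h
    refine le_trans (tsum_nonneg fun p => ?_) h
    positivity
  refine ⟨C + (1 + |C₂|), by positivity, fun η h0 h1 => ?_⟩
  obtain ⟨hs, hb⟩ := hC η h0 h1
  have hs2 : Summable (fun p : Nat.Primes => (1 / 2 : ℝ) *
      (‖g p‖ ^ 2 * ((p : ℕ) : ℝ) ^ (-1 - η) + wt η p)) :=
    (hs.add (summable_wt h0)).mul_left (1 / 2)
  have hle : ∀ p : Nat.Primes, ‖g p‖ * wt η p ≤ (1 / 2 : ℝ) *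
      (‖g p‖ ^ 2 * ((p : ℕ) : ℝ) ^ (-1 - η) + wt η p) := by
    intro p
    have h2 : ((p : ℕ) : ℝ) ^ (-1 - η) = wt η p := rfl
    rw [h2]
    have h3 := wt_nonneg η p
    nlinarith [mul_nonneg (sq_nonneg (‖g p‖ - 1)) h3]
  have hs3 : Summable (fun p : Nat.Primes => ‖g p‖ * wt η p) :=
    Summable.of_nonneg_of_le (fun p => mul_nonneg (norm_nonneg _) (wt_nonneg η p)) hle hs2
  refine ⟨hs3, ?_⟩
  have hL : 0 ≤ Real.log (1 / η) := Real.log_nonneg (by rw [le_div_iff₀ h0]; linarith)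
  have h4 := hC₂ η h0 h1
  rw [Lg] at h4
  have h5 : ∑' p : Nat.Primes, ‖g p‖ * wt η p ≤ ∑' p : Nat.Primes, (1 / 2 : ℝ) *
      (‖g p‖ ^ 2 * ((p : ℕ) : ℝ) ^ (-1 - η) + wt η p) := hs3.tsum_le_tsum hle hs2
  rw [tsum_mul_left, hs.tsum_add (summable_wt h0)] at h5
  have h6 := le_abs_self C₂
  have h7 := abs_nonneg C₂
  set L := Real.log (1 / η) with hLdef
  have h10 : 1 + L ≤ (1 + L) ^ 3 := by
    have : 0 ≤ L * ((1 + L) ^ 2) := by positivity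
    nlinarith [mul_nonneg hL hL]
  have h11 : 0 ≤ C * (1 + L) ^ 3 := by positivity
  have h9 : 0 ≤ |C₂| * L := mul_nonneg h7 hL
  have h12 : L + C₂ ≤ (1 + |C₂|) * (1 + L) := by nlinarith
  have h13 : (1 + |C₂|) * (1 + L) ≤ (1 + |C₂|) * (1 + L) ^ 3 :=
    mul_le_mul_of_nonneg_left h10 (by positivity)
  have h14 : 0 ≤ (1 + |C₂|) * (1 + L) ^ 3 := by positivity
  have h15 : (C + (1 + |C₂|)) * (1 + L) ^ 3 = C * (1 + L) ^ 3 + (1 + |C₂|) * (1 + L) ^ 3 := by ring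
  rw [h15]
  linarith

end Pool.Agent.SelQ
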