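import Pool.Agent.SelQ.TargetsK
import Pool.Agent.SelDeg2.RAM
import Pool.Agent.SelDeg2.BIL
import Pool.Agent.SelDeg2.GEO
import Pool.Agent.SelDeg2.SPC
import Pool.Agent.SelDeg2.GRP

/-!
# K10 KRA: the bound for the twisted series (MP_995735_nt)

Adaptation of `Pool/Agent/SelDeg2/RAM.lean`; all its helper lemmas are used by import.
-/

set_option autoImplicit false

open Finset

namespace Pool.Agent.SelQ

open Complex Filter Topology
open Pool.Agent.SelTwo (lam pX vl cj tw gP FEq DegreeTwo)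
open Pool.Agent.SelDeg2

noncomputable section

namespace KRA_

lemma QE_mono {C C' η : ℝ} (h : C ≤ C') (hη : 0 < η) (hη1 : η ≤ 1) : QE C η ≤ QE C' η := by
  unfold QE
  have hlog : 0 ≤ Real.log (1 / η) := Real.log_nonneg (by rw [le_div_iff₀ hη]; linarith)
  exact Real.exp_le_exp.mpr (mul_le_mul_of_nonneg_right h (by positivity))

lemma QL_mono {C C' : ℝ} {P : ℕ} (h : C ≤ C') (hP : 1 ≤ P) : QL C P ≤ QL C' P := by
  unfold QL
  have h1 : 0 ≤ Real.log (P : ℝ) := Real.log_nonneg (by exact_mod_cast hP)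
  have h2 : 0 ≤ Real.log (1 + Real.log (P : ℝ)) := Real.log_nonneg (by linarith)
  exact Real.exp_le_exp.mpr (mul_le_mul_of_nonneg_right h (by positivity))

end KRA_

open KRA_

theorem p_KRA (hKM2 : T_KM2) (hKM1 : T_KM1) (hKP1 : T_KP1) (hKHA : T_KHA) (hKSO : T_KSO)
    (hKRI : T_KRI) (hKEE : T_KEE) : T_KRA := by
  intro g κ hg
  obtain ⟨C2, hC2, h2⟩ := hKM2 g hg
  obtain ⟨C1, hC1, h1⟩ := hKM1 g hg
  obtain ⟨CP, hCP, hP⟩ := hKP1 g hg.qp
  obtain ⟨CH, hCH, hH⟩ := hKHA g hg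
  obtain ⟨CS, hCS, hS⟩ := hKSO g hg
  obtain ⟨CE, hCE, hE⟩ := hKEE g hg
  have hCC : 0 ≤ CS + CP + CH + CE + C2 := by positivity
  refine ⟨CS + CP + CH + CE + C2, hCC, ?_⟩
  intro δ η J P₀ M₀ hδ hη hη1 hJ hP₀ hM₀ hκ
  obtain ⟨h1s, -⟩ := h1 η hη hη1
  obtain ⟨h2s, h2b⟩ := h2 η hη hη1
  obtain ⟨hPs, hPb⟩ := hP η hη hη1
  obtain ⟨hEs, hEb⟩ := hE η P₀ hη hη1 hP₀
  have hHb := hH M₀ hM₀
  obtain ⟨hp1s, hp1⟩ := RAM_part1 g κ hη P₀ _ h1s (hS P₀ hP₀)
  obtain ⟨hus, hub⟩ := RAM_uu_sum g P₀ _ h1s hPb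
  have hlog : 0 ≤ Real.log (1 / η) := Real.log_nonneg (by rw [le_div_iff₀ hη]; linarith)
  have hBP0 : 0 ≤ CP * (1 + Real.log (1 / η)) ^ 3 := mul_nonneg hCP (by positivity)
  obtain ⟨hv1s, hv1⟩ := RAM_small g κ hη P₀ M₀ _ _ hBP0 h1s hus hub hHb
  -- the pair series
  have hprod : Summable (fun x : ℕ × ℕ => (‖uu g P₀ x.1‖ * wt η x.1) * (‖g x.2‖ * wt η x.2)) :=
    hus.mul_of_nonneg h1s (fun n => mul_nonneg (norm_nonneg _) (RAM_wt_nonneg η n))
      (fun n => mul_nonneg (norm_nonneg _) (RAM_wt_nonneg η n))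
  have hvs : Summable (RAM_v g κ η P₀) :=
    Summable.of_norm_bounded hprod (RAM_v_norm g κ η P₀)
  have hv2s : Summable (fun x : ℕ × ℕ => if M₀ < x.2 then RAM_v g κ η P₀ x else 0) := by
    refine Summable.of_norm_bounded hprod (fun x => ?_)
    split_ifs
    · exact RAM_v_norm g κ η P₀ x
    · rw [norm_zero]
      exact mul_nonneg (mul_nonneg (norm_nonneg _) (RAM_wt_nonneg η _))
        (mul_nonneg (norm_nonneg _) (RAM_wt_nonneg η _))
  have hv2 := RAM_large (p_BIL p_GEO p_SPC) g κ hδ hη hη1 J P₀ M₀ hJ hP₀ hM₀ hκ _ h2s h2b hv2s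
  have hvsplit : ∑' x, RAM_v g κ η P₀ x =
      ∑' x : ℕ × ℕ, (if x.2 ≤ M₀ then RAM_v g κ η P₀ x else 0) +
      ∑' x : ℕ × ℕ, (if M₀ < x.2 then RAM_v g κ η P₀ x else 0) := by
    rw [← hv1s.tsum_add hv2s]
    refine tsum_congr fun x => ?_
    by_cases hx : x.2 ≤ M₀
    · rw [if_pos hx, if_neg (by omega), add_zero]
    · rw [if_neg hx, if_pos (by omega), zero_add]
  have hgrp := p_GRP (RAM_v g κ η P₀) hvs (fun n => by
    constructor
    · simp [RAM_v, RAM_wt_zero hη]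
    · simp [RAM_v, RAM_wt_zero hη])
  have hgrp2 : HasSum (fun n : ℕ => (∑ x ∈ n.divisorsAntidiagonal,
      uu g P₀ x.1 * dm g P₀ x.2) * ee (n * κ) * ((wt η n : ℝ) : ℂ)) (∑' x, RAM_v g κ η P₀ x) := by
    convert hgrp using 2 with n
    rw [Finset.sum_mul, Finset.sum_mul]
    refine Finset.sum_congr rfl fun x hx => ?_
    have hx' := (Nat.mem_divisorsAntidiagonal.mp hx).1
    unfold RAM_v
    rw [← RAM_wt_mul, hx']
  -- the error
  have hes : Summable (fun n : ℕ => (g n - ((if om P₀ n = 0 then g n else 0) +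
      ∑ x ∈ n.divisorsAntidiagonal, uu g P₀ x.1 * dm g P₀ x.2)) * ee (n * κ) *
        ((wt η n : ℝ) : ℂ)) ∧
      ‖∑' n : ℕ, (g n - ((if om P₀ n = 0 then g n else 0) +
      ∑ x ∈ n.divisorsAntidiagonal, uu g P₀ x.1 * dm g P₀ x.2)) * ee (n * κ) *
        ((wt η n : ℝ) : ℂ)‖ ≤ QE CE η * (P₀ : ℝ) ^ (-(1 / 4) : ℝ) := by
    have hle : ∀ n : ℕ, ‖(g n - ((if om P₀ n = 0 then g n else 0) +
      ∑ x ∈ n.divisorsAntidiagonal, uu g P₀ x.1 * dm g P₀ x.2)) * ee (n * κ) *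
        ((wt η n : ℝ) : ℂ)‖ ≤ EE g P₀ n * wt η n := by
      intro n
      rw [norm_mul, norm_mul, RAM_norm_ee, Complex.norm_real, Real.norm_eq_abs,
        abs_of_nonneg (RAM_wt_nonneg η _), mul_one]
      rcases Nat.eq_zero_or_pos n with h | h
      · subst h
        rw [RAM_wt_zero hη]
        simp
      · exact mul_le_mul_of_nonneg_right (hKRI g P₀ n hg h) (RAM_wt_nonneg η n)
    refine ⟨Summable.of_norm_bounded hEs hle, ?_⟩
    exact (tsum_of_norm_bounded hEs.hasSum hle).trans hEb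
  have hSSeq : SS g κ η =
      (∑' n : ℕ, (if om P₀ n = 0 then g n else 0) * ee (n * κ) * ((wt η n : ℝ) : ℂ)) +
      (∑' x : ℕ × ℕ, (if x.2 ≤ M₀ then RAM_v g κ η P₀ x else 0)) +
      (∑' n : ℕ, (g n - ((if om P₀ n = 0 then g n else 0) +
      ∑ x ∈ n.divisorsAntidiagonal, uu g P₀ x.1 * dm g P₀ x.2)) * ee (n * κ) *
        ((wt η n : ℝ) : ℂ)) +
      (∑' x : ℕ × ℕ, (if M₀ < x.2 then RAM_v g κ η P₀ x else 0)) := by
    rw [RAM_SS g κ hη]
    have ht := ((hp1s.hasSum.add hgrp2).add hes.1.hasSum).tsum_eq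
    rw [hvsplit] at ht
    have hc : ∑' n : ℕ, g n * ee (n * κ) * ((wt η n : ℝ) : ℂ) =
        ∑' n : ℕ, ((if om P₀ n = 0 then g n else 0) * ee (n * κ) * ((wt η n : ℝ) : ℂ) +
        (∑ x ∈ n.divisorsAntidiagonal, uu g P₀ x.1 * dm g P₀ x.2) * ee (n * κ) *
          ((wt η n : ℝ) : ℂ) +
        (g n - ((if om P₀ n = 0 then g n else 0) +
      ∑ x ∈ n.divisorsAntidiagonal, uu g P₀ x.1 * dm g P₀ x.2)) * ee (n * κ) *
        ((wt η n : ℝ) : ℂ)) := tsum_congr fun n => by ring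
    rw [hc, ht]
    ring
  rw [hSSeq]
  refine (norm_add_le _ _).trans ?_
  refine add_le_add ((norm_add_le _ _).trans (add_le_add ((norm_add_le _ _).trans
    (add_le_add ?_ ?_)) ?_)) ?_
  · exact hp1.trans (QL_mono (by linarith) hP₀)
  · refine hv1.trans ?_
    rw [mul_comm]
    refine mul_le_mul (QL_mono (by linarith) hM₀) ?_ hBP0 (Real.exp_pos _).le
    exact mul_le_mul_of_nonneg_right (by linarith) (by positivity)
  · refine hes.2.trans ?_
    exact mul_le_mul_of_nonneg_right (QE_mono (by linarith) hη hη1)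
      (Real.rpow_nonneg (Nat.cast_nonneg _) _)
  · refine hv2.trans ?_
    exact mul_le_mul_of_nonneg_right (QE_mono (by linarith) hη hη1) (Real.sqrt_nonneg _)

end

end Pool.Agent.SelQ
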