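import Pool.Agent.SelQ.TargetsK

/-!
# K8 KRI: the identity of Ramare
-/

set_option autoImplicit false

namespace Pool.Agent.SelQ

open Pool.Agent.SelDeg2 (om uu dm EE)

noncomputable section

namespace KRI_

theorem dm_le (g : ℕ → ℂ) (P₀ m : ℕ) : ‖dm g P₀ m‖ ≤ ‖g m‖ := by
  unfold dm
  rw [norm_div]
  have h1 : (1 : ℝ) ≤ ‖((om P₀ m : ℂ) + 1)‖ := by
    have : ((om P₀ m : ℂ) + 1) = ((om P₀ m + 1 : ℕ) : ℂ) := by push_cast; ring
    rw [this, Complex.norm_natCast]
    push_cast
    have := Nat.cast_nonneg (α := ℝ) (om P₀ m)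
    linarith
  exact div_le_self (norm_nonneg _) h1

theorem om_div {P₀ n p : ℕ} (hn : 1 ≤ n) (hp : p.Prime) (hpP : P₀ < p) (hpn : p ∣ n)
    (hsq : ¬ p ^ 2 ∣ n) : p.Coprime (n / p) ∧ om P₀ (n / p) + 1 = om P₀ n := by
  obtain ⟨m, rfl⟩ := hpn
  have hm : p * m / p = m := Nat.mul_div_cancel_left m hp.pos
  rw [hm]
  have hpm : ¬ p ∣ m := by
    rintro ⟨c, rfl⟩
    exact hsq ⟨c, by ring⟩
  have hm0 : m ≠ 0 := by
    rintro rfl
    omega
  have hcop : p.Coprime m := (Nat.Prime.coprime_iff_not_dvd hp).2 hpm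
  refine ⟨hcop, ?_⟩
  unfold om
  rw [Nat.primeFactors_mul hp.ne_zero hm0, hp.primeFactors, Finset.filter_union,
    Finset.filter_singleton, if_pos hpP, Finset.singleton_union, Finset.card_insert_of_notMem]
  rw [Finset.mem_filter, Nat.mem_primeFactors]
  rintro ⟨⟨-, h, -⟩, -⟩
  exact hpm h

end KRI_

open KRI_ in
theorem p_KRI : T_KRI := by
  classical
  intro g P₀ n hg hn
  unfold EE
  by_cases h : ∃ p : ℕ, p.Prime ∧ P₀ < p ∧ p ^ 2 ∣ n
  · rw [if_pos h]
    obtain ⟨p, hp, hpP, hpn⟩ := h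
    have hom : om P₀ n ≠ 0 := by
      unfold om
      refine Finset.card_ne_zero_of_mem (a := p) ?_
      rw [Finset.mem_filter, Nat.mem_primeFactors]
      exact ⟨⟨hp, (dvd_pow_self p two_ne_zero).trans hpn, by omega⟩, hpP⟩
    rw [if_neg hom, zero_add]
    refine (norm_sub_le _ _).trans (add_le_add le_rfl ?_)
    refine (norm_sum_le _ _).trans (Finset.sum_le_sum fun x _ => ?_)
    rw [norm_mul]
    exact mul_le_mul_of_nonneg_left (dm_le g P₀ x.2) (norm_nonneg _)
  · rw [if_neg h]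
    push Not at h
    have key : ∑ x ∈ n.divisorsAntidiagonal, uu g P₀ x.1 * dm g P₀ x.2 =
        ∑ p ∈ n.primeFactors.filter (fun p => P₀ < p), g n / (om P₀ n : ℂ) := by
      rw [Nat.sum_divisorsAntidiagonal (fun a b => uu g P₀ a * dm g P₀ b)]
      have hsub : n.primeFactors.filter (fun p => P₀ < p) ⊆ n.divisors := by
        intro p hp
        rw [Finset.mem_filter, Nat.mem_primeFactors] at hp
        rw [Nat.mem_divisors]
        exact ⟨hp.1.2.1, hp.1.2.2⟩
      rw [← Finset.sum_subset hsub]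
      · refine Finset.sum_congr rfl fun p hp => ?_
        rw [Finset.mem_filter, Nat.mem_primeFactors] at hp
        obtain ⟨⟨hpp, hpn, -⟩, hpP⟩ := hp
        obtain ⟨hcop, hom⟩ := om_div hn hpp hpP hpn (h p hpp hpP)
        unfold uu dm
        rw [if_pos ⟨hpp, hpP⟩, ← hom]
        have h1 : g n = g p * g (n / p) := by
          rw [← hg.mul _ _ hcop, Nat.mul_div_cancel' hpn]
        rw [h1]
        push_cast
        ring
      · intro d hd hd'
        rw [Nat.mem_divisors] at hd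
        unfold uu
        rw [if_neg, zero_mul]
        rintro ⟨h1, h2⟩
        exact hd' (by
          rw [Finset.mem_filter, Nat.mem_primeFactors]
          exact ⟨⟨h1, hd.1, hd.2⟩, h2⟩)
    rw [key, Finset.sum_const, nsmul_eq_mul]
    have hcard : (n.primeFactors.filter (fun p => P₀ < p)).card = om P₀ n := rfl
    rw [hcard]
    by_cases h0 : om P₀ n = 0
    · rw [if_pos h0, h0]
      simp
    · rw [if_neg h0]
      have h1 : (om P₀ n : ℂ) ≠ 0 := by exact_mod_cast h0
      rw [mul_div_cancel₀ _ h1]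
      simp

end

end Pool.Agent.SelQ
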