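import Pool.Agent.SelQ.TargetsK

/-!
# The relation at `α = 1` and the pole force `κ` to be rational
-/

set_option autoImplicit false

namespace Pool.Agent.SelQ

open Complex Filter Topology MeasureTheory
open Pool.Agent.SelPole Pool.Agent.SelTwo
open Pool.Agent.SelDeg2 (ee gth SS Drel HasPole)

noncomputable section

theorem p_KRT (hKMD : T_KMD) (hKIR : T_KIR) : T_KRT := by
  intro F a b r R₀ A₁ κ θ hS hpole hMS hD hκ
  obtain ⟨hr, hR, hlim⟩ := hpole
  obtain ⟨C, hC⟩ := hD.rel 1 one_pos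
  have hg := hKMD F a b θ hS hMS
  -- the function on the real line
  have h1 : Tendsto (fun η : ℝ => (1 : ℂ) + η) (𝓝[>] 0) (𝓝[≠] 1) := by
    refine tendsto_nhdsWithin_iff.2 ⟨?_, ?_⟩
    · have : Continuous fun η : ℝ => (1 : ℂ) + η := by fun_prop
      have h := this.tendsto 0
      simp only [ofReal_zero, add_zero] at h
      exact h.mono_left nhdsWithin_le_nhds
    · filter_upwards [self_mem_nhdsWithin] with η hη
      have : (η : ℂ) ≠ 0 := by exact_mod_cast (ne_of_gt hη)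
      simpa using this
  have h2 := (hlim.comp h1).norm
  have h3 : 0 < ‖R₀‖ := norm_pos_iff.2 hR
  -- lower bound near zero
  have h4 : ∀ᶠ η : ℝ in 𝓝[>] 0, ‖R₀‖ / 2 < η ^ r * ‖F (1 + η)‖ := by
    filter_upwards [h2.eventually (lt_mem_nhds (show ‖R₀‖ / 2 < ‖R₀‖ by linarith)),
      self_mem_nhdsWithin] with η hη hη0
    simp only [Function.comp, add_sub_cancel_left, norm_mul, norm_pow, Complex.norm_real,
      Real.norm_of_nonneg (le_of_lt (show (0 : ℝ) < η from hη0))] at hη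
    exact hη
  obtain ⟨δ₀, hδ₀, hδ⟩ := mem_nhdsGT_iff_exists_Ioo_subset.1 h4
  have hδ₀' : (0 : ℝ) < δ₀ := hδ₀
  -- choose eta
  set D : ℝ := ‖A₁‖ * max (1 / κ) 1 with hDdef
  have hκ0 := hD.κ_pos
  have hD0 : 0 < D := mul_pos (norm_pos_iff.2 hD.A_ne) (lt_max_of_lt_right one_pos)
  set ε : ℝ := ‖R₀‖ / (8 * D) with hε
  have hε0 : 0 < ε := by positivity
  have hCp : 0 < ‖R₀‖ / (8 * (|C| + 1)) := by positivity
  obtain ⟨η, hη0, hηδ, hη1, hηε⟩ := hKIR (gth θ a) κ hg hκ ε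
    (min δ₀ (‖R₀‖ / (8 * (|C| + 1)))) hε0 (lt_min hδ₀' hCp)
  have h5 := hδ ⟨hη0, hηδ.trans_le (min_le_left _ _)⟩
  simp only [Set.mem_ofPred_eq] at h5
  have h6 := hC η hη0 hη1
  have e1 : SS a 1 η = F (1 + η) := by
    have hre : 1 < ((1 : ℂ) + η).re := by simpa using hη0
    rw [hS.eq_series _ hre]
    unfold SS
    refine LSeries_congr (fun {n} _ => ?_) _
    have : ee (n * 1) = 1 := by
      unfold ee
      rw [mul_one]
      have := Complex.exp_nat_mul_two_pi_mul_I n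
      rw [← this]
      congr 1
      push_cast
      ring
    rw [this, mul_one]
  rw [e1] at h6
  simp only [ofReal_one, Complex.one_cpow, mul_one, one_pow, div_one] at h6
  have h7 : ‖F (1 + η)‖ ≤ |C| + D * ‖SS (gth θ a) κ η‖ := by
    have h8 : ‖F (1 + η)‖ ≤ ‖F (1 + η) - A₁ * (((1 / κ) ^ η : ℝ) : ℂ) *
        (starRingEnd ℂ) (SS (gth θ a) κ η)‖ + ‖A₁ * (((1 / κ) ^ η : ℝ) : ℂ) *
        (starRingEnd ℂ) (SS (gth θ a) κ η)‖ := by
      have := norm_add_le (F (1 + η) - A₁ * (((1 / κ) ^ η : ℝ) : ℂ) *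
        (starRingEnd ℂ) (SS (gth θ a) κ η)) (A₁ * (((1 / κ) ^ η : ℝ) : ℂ) *
        (starRingEnd ℂ) (SS (gth θ a) κ η))
      rwa [sub_add_cancel] at this
    refine h8.trans (add_le_add (h6.trans (le_abs_self C)) ?_)
    rw [norm_mul, norm_mul, RCLike.norm_conj, Complex.norm_real,
      Real.norm_of_nonneg (by positivity)]
    refine mul_le_mul_of_nonneg_right ?_ (norm_nonneg _)
    rw [hDdef]
    refine mul_le_mul_of_nonneg_left ?_ (norm_nonneg _)
    rcases le_total 1 (1 / κ) with h | h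
    · refine le_trans ?_ (le_max_left _ _)
      calc (1 / κ) ^ η ≤ (1 / κ) ^ (1 : ℝ) := Real.rpow_le_rpow_of_exponent_le h hη1
        _ = 1 / κ := Real.rpow_one _
    · refine le_trans ?_ (le_max_right _ _)
      exact Real.rpow_le_one (by positivity) h hη0.le
  have h9 : η ^ r ≤ η := by
    calc η ^ r ≤ η ^ 1 := pow_le_pow_of_le_one hη0.le hη1 hr
      _ = η := pow_one _
  have h10 : η ^ r * ‖F (1 + η)‖ ≤ η * |C| + D * (η * ‖SS (gth θ a) κ η‖) := by
    calc η ^ r * ‖F (1 + η)‖ ≤ η * (|C| + D * ‖SS (gth θ a) κ η‖) :=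
          mul_le_mul h9 h7 (norm_nonneg _) hη0.le
      _ = _ := by ring
  have h11 : η * |C| ≤ ‖R₀‖ / 8 := by
    have h12 : η ≤ ‖R₀‖ / (8 * (|C| + 1)) := (hηδ.trans_le (min_le_right _ _)).le
    calc η * |C| ≤ ‖R₀‖ / (8 * (|C| + 1)) * (|C| + 1) := by
          gcongr
          linarith
      _ = ‖R₀‖ / 8 := by field_simp
  have h13 : D * (η * ‖SS (gth θ a) κ η‖) ≤ ‖R₀‖ / 8 := by
    calc D * (η * ‖SS (gth θ a) κ η‖) ≤ D * ε := by gcongr
      _ = ‖R₀‖ / 8 := by rw [hε]; field_simp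
  linarith

end

end Pool.Agent.SelQ
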