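import Pool.Agent.SelQ.TargetsK
import Pool.Agent.SelDeg2.EPS
import Pool.Agent.SelDeg2.SMO

/-!
# B'-KSO (MP_995735_nt): sums over smooth numbers
-/

set_option autoImplicit false

namespace Pool.Agent.SelQ

open Complex Filter Topology MeasureTheory
open Pool.Agent.SelDeg2 (wt SMO_pow SMO_ratio SMO_summable SMO_tail p_EPS)

/-- KSO. -/
theorem p_KSO (hKP1 : T_KP1) : T_KSO := by
  intro g hg
  obtain ⟨C₁, hs⟩ := hg.small (1 / 4) (by norm_num)
  have hC1 : 0 ≤ C₁ := by
    have := hs 1 le_rfl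
    simp only [Nat.cast_one, Real.one_rpow, mul_one] at this
    exact (norm_nonneg _).trans this
  obtain ⟨C₀, hC0, hPM⟩ := hKP1 g hg.qp
  set D : ℝ := C₁ * (1 / (1 - (2 : ℝ) ^ (-(3 / 4) : ℝ))) with hD
  have hr0 : (2 : ℝ) ^ (-(3 / 4) : ℝ) < 1 := (SMO_ratio 2 Nat.prime_two).2.2
  have hD0 : 0 ≤ D := by
    rw [hD]
    have : 0 < 1 - (2 : ℝ) ^ (-(3 / 4) : ℝ) := by linarith
    positivity
  have hZ : Summable (fun n : ℕ => 1 / (n : ℝ) ^ (3 / 2 : ℝ)) :=
    Real.summable_one_div_nat_rpow.2 (by norm_num)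
  set Z : ℝ := ∑' n : ℕ, 1 / (n : ℝ) ^ (3 / 2 : ℝ) with hZd
  refine ⟨Real.exp 1 * C₀ + D * Z, by positivity, ?_⟩
  intro P hP T hT
  have hP0 : (1 : ℝ) ≤ P := by exact_mod_cast hP
  have hlog : 0 ≤ Real.log P := Real.log_nonneg hP0
  have hL : 0 < 1 + Real.log P := by linarith
  set η : ℝ := 1 / (1 + Real.log P) with hη
  have hη0 : 0 < η := by positivity
  have hη1 : η ≤ 1 := by
    rw [hη, div_le_one hL]
    linarith
  obtain ⟨hsum, htot⟩ := hPM η hη0 hη1
  -- the multiplicative function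
  have key := p_EPS (fun n => ‖g n‖ / (n : ℝ)) (fun n => by positivity) (by simp [hg.one])
    (by
      intro m n hmn
      simp only [hg.mul m n hmn, norm_mul, Nat.cast_mul]
      rw [mul_div_mul_comm])
    (fun p hp => SMO_summable g C₁ hC1 hs p hp) P T hT
  refine key.trans ?_
  have hsumle : ∑ p ∈ (Finset.range (P + 1)).filter Nat.Prime,
      ∑' k : ℕ, ‖g (p ^ (k + 1))‖ / ((p ^ (k + 1) : ℕ) : ℝ) ≤
      Real.exp 1 * (C₀ * (1 + Real.log (1 / η)) ^ 3) + D * Z := by
    calc ∑ p ∈ (Finset.range (P + 1)).filter Nat.Prime,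
          ∑' k : ℕ, ‖g (p ^ (k + 1))‖ / ((p ^ (k + 1) : ℕ) : ℝ)
        ≤ ∑ p ∈ (Finset.range (P + 1)).filter Nat.Prime,
          (Real.exp 1 * (‖g p‖ * wt η p) + D * (1 / (p : ℝ) ^ (3 / 2 : ℝ))) := by
          refine Finset.sum_le_sum (fun p hp => ?_)
          obtain ⟨hpr, hpp⟩ := Finset.mem_filter.1 hp
          have hp0 : (0 : ℝ) < p := by exact_mod_cast hpp.pos
          have hpP : (p : ℝ) ≤ P := by
            exact_mod_cast Nat.lt_succ_iff.1 (Finset.mem_range.1 hpr)
          refine (SMO_tail g C₁ hC1 hs p hpp).trans (add_le_add ?_ le_rfl)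
          have h1 : 1 / (p : ℝ) ≤ Real.exp 1 * wt η p := by
            have h2 : (p : ℝ) ^ η ≤ Real.exp 1 := by
              rw [Real.rpow_def_of_pos hp0]
              refine Real.exp_le_exp.2 ?_
              have h3 : Real.log p ≤ Real.log P := Real.log_le_log hp0 hpP
              have h4 : Real.log P * η ≤ 1 := by
                rw [hη, mul_one_div, div_le_one hL]
                linarith
              exact (mul_le_mul_of_nonneg_right h3 hη0.le).trans h4
            have h5 : wt η p = (p : ℝ) ^ (-1 - η) := rfl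
            have h6 : 1 / (p : ℝ) = (p : ℝ) ^ η * (p : ℝ) ^ (-1 - η) := by
              rw [← Real.rpow_add hp0]
              have : η + (-1 - η) = -1 := by ring
              rw [this, Real.rpow_neg_one, one_div]
            rw [h6, h5]
            exact mul_le_mul_of_nonneg_right h2 (Real.rpow_nonneg hp0.le _)
          calc ‖g p‖ / p = ‖g p‖ * (1 / (p : ℝ)) := by ring
            _ ≤ ‖g p‖ * (Real.exp 1 * wt η p) := mul_le_mul_of_nonneg_left h1 (norm_nonneg _)
            _ = Real.exp 1 * (‖g p‖ * wt η p) := by ring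
      _ = Real.exp 1 * ∑ p ∈ (Finset.range (P + 1)).filter Nat.Prime, ‖g p‖ * wt η p +
          D * ∑ p ∈ (Finset.range (P + 1)).filter Nat.Prime, 1 / (p : ℝ) ^ (3 / 2 : ℝ) := by
          rw [Finset.sum_add_distrib, ← Finset.mul_sum, ← Finset.mul_sum]
      _ ≤ Real.exp 1 * (C₀ * (1 + Real.log (1 / η)) ^ 3) + D * Z := by
          refine add_le_add (mul_le_mul_of_nonneg_left ?_ (Real.exp_pos 1).le)
            (mul_le_mul_of_nonneg_left ?_ hD0)
          · refine le_trans ?_ htot
            have h7 : ∑ x ∈ (show Finset Nat.Primes from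
                Finset.subtype Nat.Prime (Finset.range (P + 1))), ‖g x‖ * wt η x ≤
                ∑' p : Nat.Primes, ‖g p‖ * wt η p :=
              Summable.sum_le_tsum _ (fun x _ => by
                unfold wt
                positivity) hsum
            refine le_trans (le_of_eq ?_) h7
            exact (Finset.sum_subtype_eq_sum_filter (s := Finset.range (P + 1))
              (p := Nat.Prime) (fun p => ‖g p‖ * wt η p)).symm
          · exact hZ.sum_le_tsum _ (fun n _ => by positivity)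
  have h8 : 1 / η = 1 + Real.log P := by
    rw [hη, one_div_one_div]
  rw [h8] at hsumle
  unfold QL
  refine Real.exp_le_exp.2 (hsumle.trans ?_)
  have h9 : 0 ≤ Real.log (1 + Real.log P) := Real.log_nonneg (by linarith)
  have h10 : 1 ≤ (1 + Real.log (1 + Real.log P)) ^ 3 := one_le_pow₀ (by linarith)
  have hZ0 : 0 ≤ Z := tsum_nonneg fun n => by positivity
  have h11 : 0 ≤ D * Z := mul_nonneg hD0 hZ0
  calc Real.exp 1 * (C₀ * (1 + Real.log (1 + Real.log P)) ^ 3) + D * Z
      ≤ Real.exp 1 * (C₀ * (1 + Real.log (1 + Real.log P)) ^ 3) +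
        D * Z * (1 + Real.log (1 + Real.log P)) ^ 3 := by
        have := mul_le_mul_of_nonneg_left h10 h11
        linarith
    _ = (Real.exp 1 * C₀ + D * Z) * (1 + Real.log (1 + Real.log P)) ^ 3 := by ring

end Pool.Agent.SelQ
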