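import Pool.Agent.SelQ.P_KMD
import Pool.Agent.SelQ.P_KM2
import Pool.Agent.SelQ.P_KM1
import Pool.Agent.SelQ.P_KP1
import Pool.Agent.SelQ.P_KHA
import Pool.Agent.SelQ.P_KSO
import Pool.Agent.SelQ.P_KDV
import Pool.Agent.SelQ.P_KRI
import Pool.Agent.SelQ.P_KEE
import Pool.Agent.SelQ.P_KRA
import Pool.Agent.SelQ.P_KIR
import Pool.Agent.SelQ.P_KRT
import Pool.Agent.SelDeg2.TW

/-! Assembly of part B': irrational `κ`. -/

set_option autoImplicit false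

namespace Pool.Agent.SelQ

theorem all_KM1 : T_KM1 := p_KM1 p_KM2

theorem all_KRA : T_KRA :=
  p_KRA p_KM2 all_KM1 p_KP1 (p_KHA all_KM1) (p_KSO p_KP1) p_KRI (p_KEE p_KDV all_KM1)

theorem all_KRQ : T_KRQ := p_KRT (p_KMD Pool.Agent.SelDeg2.p_MUL) (p_KIR all_KRA)

end Pool.Agent.SelQ
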