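import Mathlib

/-!
# Degree 2 without the mean square bound (MP_995735_nt): the decorrelation lemma, definitions

`c` is a nonnegative multiplicative function (later `c n = |a n|`), the weights are
`wc c η n = c(n)^2 n^(-1-η)`. Under the probability measure proportional to these weights the
exponents of different primes are independent. `ex Q n` is the set of the primes of `Q` which
divide `n` exactly once; its law is a product of Bernoulli laws with parameters `pr w p`.
-/

set_option autoImplicit false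

open Finset

namespace Pool.Agent.SelQ

noncomputable section

/-- A nonnegative multiplicative function with small values. -/
structure MF (c : ℕ → ℝ) : Prop where
  nn : ∀ n, 0 ≤ c n
  one : c 1 = 1
  mul : ∀ m n : ℕ, m.Coprime n → c (m * n) = c m * c n
  small : ∀ ε : ℝ, 0 < ε → ∃ C : ℝ, ∀ n : ℕ, 1 ≤ n → c n ≤ C * (n : ℝ) ^ ε

/-- A nonnegative summable multiplicative weight. -/
structure WF (w : ℕ → ℝ) : Prop where
  nn : ∀ n, 0 ≤ w n
  zero : w 0 = 0
  one : w 1 = 1
  mul : ∀ m n : ℕ, m.Coprime n → w (m * n) = w m * w n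
  sm : Summable w

/-- The weights `c(n)^2 n^(-1-η)`. -/
def wc (c : ℕ → ℝ) (η : ℝ) (n : ℕ) : ℝ := c n ^ 2 * (n : ℝ) ^ (-1 - η)

/-- The total mass. -/
def DD (c : ℕ → ℝ) (η : ℝ) : ℝ := ∑' n, wc c η n

/-- The primes of `Q` which divide `n` exactly once. -/
def ex (Q : Finset ℕ) (n : ℕ) : Finset ℕ := Q.filter (fun p => p ∣ n ∧ ¬ p ^ 2 ∣ n)

/-- The probability that `p` divides `n` exactly once. -/
def pr (w : ℕ → ℝ) (p : ℕ) : ℝ := w p / ∑' j : ℕ, w (p ^ j)

/-- The expectation of `F` on the subsets of `Q`, for independent Bernoulli variables. -/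
def EB (π : ℕ → ℝ) (Q : Finset ℕ) (F : Finset ℕ → ℝ) : ℝ :=
  ∑ B ∈ Q.powerset, F B * ((∏ p ∈ B, π p) * ∏ p ∈ Q \ B, (1 - π p))

/-- The subsets of `B` with `R` elements whose product has its logarithm in `[u, u + 1)`. -/
def win (R : ℕ) (u : ℝ) (B : Finset ℕ) : Finset (Finset ℕ) :=
  open Classical in
  (B.powersetCard R).filter (fun S => u ≤ Real.log (∏ p ∈ S, (p : ℝ)) ∧
    Real.log (∏ p ∈ S, (p : ℝ)) < u + 1)

/-- The expected number of such sets. -/
def KK (π : ℕ → ℝ) (Q : Finset ℕ) (R : ℕ) (u : ℝ) : ℝ := ∑ S ∈ win R u Q, ∏ p ∈ S, π p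

/-- The largest number of primes in a window. -/
def Rm (T : ℝ) : ℕ := ⌈8 * Real.logb 2 T⌉₊

/-- The number of the unitary divisors of `n` in `Δ`. -/
def fd (Δ : Finset ℕ) (n : ℕ) : ℕ := (Δ.filter (fun d => d ∣ n ∧ d.Coprime (n / d))).card

/-- The primes between `p₀` and `e^T`. -/
def PT (p₀ : ℕ) (T : ℝ) : Finset ℕ :=
  (Finset.range (⌊Real.exp T⌋₊ + 1)).filter (fun p => p.Prime ∧ p₀ ≤ p)

end

end Pool.Agent.SelQ
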