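import Pool.Agent.SelQ.TargetsC

/-!
# BES: the inequality of Bessel over the primes
-/

set_option autoImplicit false

open Finset

namespace Pool.Agent.SelQ

open Complex Filter Topology
open Pool.Agent.SelDeg2 (aX pser)

namespace BES_

/-- the weight -/
noncomputable def w (η x : ℝ) (q : ℕ) : ℝ := (q : ℝ) ^ (-1 - η) - (q : ℝ) ^ (-1 - x)

theorem w_nonneg {η x : ℝ} (h : η ≤ x) (q : Nat.Primes) : 0 ≤ w η x (q : ℕ) := by
  have h1 : (1 : ℝ) ≤ ((q : ℕ) : ℝ) := by exact_mod_cast q.2.one_lt.le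
  have h2 : ((q : ℕ) : ℝ) ^ (-1 - x) ≤ ((q : ℕ) : ℝ) ^ (-1 - η) :=
    Real.rpow_le_rpow_of_exponent_le h1 (by linarith)
  unfold w
  linarith

theorem w_le (η x : ℝ) (q : ℕ) : w η x q ≤ (q : ℝ) ^ (-1 - η) := by
  have : 0 ≤ (q : ℝ) ^ (-1 - x) := Real.rpow_nonneg (Nat.cast_nonneg q) _
  unfold w
  linarith

theorem cast_pow (q : ℕ) (t : ℝ) :
    (q : ℂ) ^ (-(1 + (t : ℂ))) = (((q : ℝ) ^ (-1 - t) : ℝ) : ℂ) := by
  rw [Complex.ofReal_cpow (Nat.cast_nonneg q)]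
  congr 1
  push_cast
  ring

theorem summable_base {η : ℝ} (h : 0 < η) :
    Summable (fun q : Nat.Primes => ((q : ℕ) : ℝ) ^ (-1 - η)) :=
  Nat.Primes.summable_rpow.2 (by linarith)

theorem pser_sub {f : ℕ → ℂ} {η x : ℝ} (hx : η ≤ x)
    (hf : Summable (fun q : Nat.Primes => ‖f (q : ℕ)‖ * ((q : ℕ) : ℝ) ^ (-1 - η))) :
    Summable (fun q : Nat.Primes => ‖f (q : ℕ)‖ * w η x (q : ℕ)) ∧
    Summable (fun q : Nat.Primes => f (q : ℕ) * ((w η x (q : ℕ) : ℝ) : ℂ)) ∧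
    pser f (1 + (η : ℂ)) - pser f (1 + (x : ℂ)) =
      ∑' q : Nat.Primes, f (q : ℕ) * ((w η x (q : ℕ) : ℝ) : ℂ) := by
  have h0 : Summable (fun q : Nat.Primes => ‖f (q : ℕ)‖ * w η x (q : ℕ)) := by
    refine Summable.of_nonneg_of_le (fun q => mul_nonneg (norm_nonneg _) (w_nonneg hx q))
      (fun q => ?_) hf
    exact mul_le_mul_of_nonneg_left (w_le η x q) (norm_nonneg _)
  have h1 : Summable (fun q : Nat.Primes => f (q : ℕ) * ((w η x (q : ℕ) : ℝ) : ℂ)) := by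
    refine Summable.of_norm ?_
    refine h0.congr fun q => ?_
    rw [norm_mul, Complex.norm_real, Real.norm_of_nonneg (w_nonneg hx q)]
  have e1 : Summable (fun q : Nat.Primes => f (q : ℕ) * ((q : ℕ) : ℂ) ^ (-(1 + (η : ℂ)))) := by
    refine Summable.of_norm ?_
    refine hf.congr fun q => ?_
    rw [norm_mul, cast_pow, Complex.norm_real, Real.norm_of_nonneg]
    exact Real.rpow_nonneg (Nat.cast_nonneg _) _
  have e2 : Summable (fun q : Nat.Primes => f (q : ℕ) * ((q : ℕ) : ℂ) ^ (-(1 + (x : ℂ)))) := by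
    have := e1.sub h1
    refine this.congr fun q => ?_
    rw [cast_pow, cast_pow, ← mul_sub, ← Complex.ofReal_sub]
    congr 2
    unfold w
    ring
  refine ⟨h0, h1, ?_⟩
  unfold pser
  rw [← e1.tsum_sub e2]
  refine tsum_congr fun q => ?_
  rw [cast_pow, cast_pow, ← mul_sub, ← Complex.ofReal_sub]
  rfl

theorem cs {ι : Type} {f g : ι → ℝ} {A B : ℝ} (hf : Summable (fun i => f i ^ 2))
    (hg : Summable (fun i => g i ^ 2)) (hA : ∑' i, f i ^ 2 ≤ A) (hB : ∑' i, g i ^ 2 ≤ B)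
    (hfg : ∀ i, 0 ≤ f i * g i) : ∑' i, f i * g i ≤ Real.sqrt (A * B) := by
  apply Real.tsum_le_of_sum_le hfg
  intro s
  apply Real.le_sqrt_of_sq_le
  have h1 := Finset.sum_mul_sq_le_sq_mul_sq s f g
  have h2 : ∑ i ∈ s, f i ^ 2 ≤ A :=
    (hf.sum_le_tsum s (fun i _ => sq_nonneg _)).trans hA
  have h3 : ∑ i ∈ s, g i ^ 2 ≤ B :=
    (hg.sum_le_tsum s (fun i _ => sq_nonneg _)).trans hB
  have h4 : 0 ≤ ∑ i ∈ s, f i ^ 2 := Finset.sum_nonneg fun i _ => sq_nonneg _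
  have h5 : 0 ≤ ∑ i ∈ s, g i ^ 2 := Finset.sum_nonneg fun i _ => sq_nonneg _
  exact h1.trans (mul_le_mul h2 h3 h5 (h4.trans h2))

end BES_

open BES_ in
/-- BES. -/
theorem p_BES : T_BES := by
  intro a η x H hη hx hx1 hs hH P χ
  have hb := summable_base hη
  have hr : ∀ q : Nat.Primes, 0 ≤ ((q : ℕ) : ℝ) ^ (-1 - η) :=
    fun q => Real.rpow_nonneg (Nat.cast_nonneg _) _
  -- first order summability of a
  have ha1 : Summable (fun q : Nat.Primes => ‖a (q : ℕ)‖ * ((q : ℕ) : ℝ) ^ (-1 - η)) := by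
    refine Summable.of_nonneg_of_le (fun q => mul_nonneg (norm_nonneg _) (hr q)) (fun q => ?_)
      (hs.add hb)
    have h1 : ‖a (q : ℕ)‖ ≤ ‖a (q : ℕ)‖ ^ 2 + 1 := by nlinarith [sq_nonneg (‖a (q : ℕ)‖ - 1)]
    have h2 := mul_le_mul_of_nonneg_right h1 (hr q)
    linarith
  have hf : ∀ p : ℕ, Summable (fun q : Nat.Primes =>
      ‖aX a (χ p) (q : ℕ)‖ * ((q : ℕ) : ℝ) ^ (-1 - η)) := by
    intro p
    refine Summable.of_nonneg_of_le (fun q => mul_nonneg (norm_nonneg _) (hr q)) (fun q => ?_) ha1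
    apply mul_le_mul_of_nonneg_right _ (hr q)
    unfold aX
    rw [norm_mul]
    exact mul_le_of_le_one_right (norm_nonneg _) (DirichletCharacter.norm_le_one _ _)
  have hg : ∀ p p' : ℕ, Summable (fun q : Nat.Primes =>
      ‖cc (χ p) (χ p') (q : ℕ)‖ * ((q : ℕ) : ℝ) ^ (-1 - η)) := by
    intro p p'
    refine Summable.of_nonneg_of_le (fun q => mul_nonneg (norm_nonneg _) (hr q)) (fun q => ?_) hb
    apply mul_le_of_le_one_left (hr q)
    unfold cc
    rw [norm_mul, RCLike.norm_conj]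
    exact mul_le_one₀ (DirichletCharacter.norm_le_one _ _) (norm_nonneg _)
      (DirichletCharacter.norm_le_one _ _)
  set Z : ℕ → ℂ := fun q => ∑ p ∈ P, χ p (q : ZMod (p ^ 1)) with hZ
  -- left side
  have hL : ∑ p ∈ P, (pser (aX a (χ p)) (1 + (η : ℂ)) - pser (aX a (χ p)) (1 + (x : ℂ))).re =
      (∑' q : Nat.Primes, a (q : ℕ) * Z (q : ℕ) * ((w η x (q : ℕ) : ℝ) : ℂ)).re := by
    rw [← Complex.re_sum]
    congr 1
    calc ∑ p ∈ P, (pser (aX a (χ p)) (1 + (η : ℂ)) - pser (aX a (χ p)) (1 + (x : ℂ)))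
        = ∑ p ∈ P, ∑' q : Nat.Primes, aX a (χ p) (q : ℕ) * ((w η x (q : ℕ) : ℝ) : ℂ) :=
          Finset.sum_congr rfl fun p _ => (pser_sub hx (hf p)).2.2
      _ = ∑' q : Nat.Primes, ∑ p ∈ P, aX a (χ p) (q : ℕ) * ((w η x (q : ℕ) : ℝ) : ℂ) :=
          (Summable.tsum_finsetSum fun p _ => (pser_sub hx (hf p)).2.1).symm
      _ = _ := by
          refine tsum_congr fun q => ?_
          rw [← Finset.sum_mul]
          congr 1
          rw [hZ, Finset.mul_sum]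
          rfl
  -- double sum
  have hB : ∑ p ∈ P, ∑ p' ∈ P,
      (pser (cc (χ p) (χ p')) (1 + (η : ℂ)) - pser (cc (χ p) (χ p')) (1 + (x : ℂ))).re =
      ∑' q : Nat.Primes, ‖Z (q : ℕ)‖ ^ 2 * w η x (q : ℕ) := by
    have h1 : ∑ p ∈ P, ∑ p' ∈ P,
        (pser (cc (χ p) (χ p')) (1 + (η : ℂ)) - pser (cc (χ p) (χ p')) (1 + (x : ℂ))) =
        ((∑' q : Nat.Primes, ‖Z (q : ℕ)‖ ^ 2 * w η x (q : ℕ) : ℝ) : ℂ) := by
      calc ∑ p ∈ P, ∑ p' ∈ P,
          (pser (cc (χ p) (χ p')) (1 + (η : ℂ)) - pser (cc (χ p) (χ p')) (1 + (x : ℂ)))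
          = ∑ p ∈ P, ∑ p' ∈ P, ∑' q : Nat.Primes,
              cc (χ p) (χ p') (q : ℕ) * ((w η x (q : ℕ) : ℝ) : ℂ) :=
            Finset.sum_congr rfl fun p _ => Finset.sum_congr rfl fun p' _ =>
              (pser_sub hx (hg p p')).2.2
        _ = ∑ p ∈ P, ∑' q : Nat.Primes, ∑ p' ∈ P,
              cc (χ p) (χ p') (q : ℕ) * ((w η x (q : ℕ) : ℝ) : ℂ) :=
            Finset.sum_congr rfl fun p _ =>
              (Summable.tsum_finsetSum fun p' _ => (pser_sub hx (hg p p')).2.1).symm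
        _ = ∑' q : Nat.Primes, ∑ p ∈ P, ∑ p' ∈ P,
              cc (χ p) (χ p') (q : ℕ) * ((w η x (q : ℕ) : ℝ) : ℂ) :=
            (Summable.tsum_finsetSum fun p _ =>
              summable_sum fun p' _ => (pser_sub hx (hg p p')).2.1).symm
        _ = ∑' q : Nat.Primes, ((‖Z (q : ℕ)‖ ^ 2 * w η x (q : ℕ) : ℝ) : ℂ) := by
            refine tsum_congr fun q => ?_
            have h2 : ∑ p ∈ P, ∑ p' ∈ P, cc (χ p) (χ p') (q : ℕ) =
                Z (q : ℕ) * (starRingEnd ℂ) (Z (q : ℕ)) := by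
              rw [hZ]
              simp only
              rw [map_sum, Finset.sum_mul_sum]
              rfl
            simp_rw [← Finset.sum_mul]
            rw [h2, Complex.mul_conj, Complex.normSq_eq_norm_sq]
            push_cast
            ring
        _ = _ := (Complex.ofReal_tsum _).symm
    have h3 := congrArg Complex.re h1
    rw [Complex.ofReal_re] at h3
    rw [← h3, Complex.re_sum]
    refine Finset.sum_congr rfl fun p _ => ?_
    rw [Complex.re_sum]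
  have hw := w_nonneg hx
  -- summability of the two squares
  have hsA : Summable (fun q : Nat.Primes => (‖a (q : ℕ)‖ * √(w η x (q : ℕ))) ^ 2) := by
    refine Summable.of_nonneg_of_le (fun q => sq_nonneg _) (fun q => ?_) hs
    rw [mul_pow, Real.sq_sqrt (hw q)]
    exact mul_le_mul_of_nonneg_left (w_le η x q) (sq_nonneg _)
  have hA : ∑' q : Nat.Primes, (‖a (q : ℕ)‖ * √(w η x (q : ℕ))) ^ 2 ≤ H := by
    refine (hsA.tsum_le_tsum (fun q => ?_) hs).trans hH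
    rw [mul_pow, Real.sq_sqrt (hw q)]
    exact mul_le_mul_of_nonneg_left (w_le η x q) (sq_nonneg _)
  have hZb : ∀ q : ℕ, ‖Z q‖ ≤ P.card := by
    intro q
    rw [hZ]
    refine (norm_sum_le _ _).trans ?_
    calc ∑ p ∈ P, ‖χ p (q : ZMod (p ^ 1))‖ ≤ ∑ p ∈ P, (1 : ℝ) :=
          Finset.sum_le_sum fun p _ => DirichletCharacter.norm_le_one _ _
      _ = P.card := by simp
  have hsB : Summable (fun q : Nat.Primes => (‖Z (q : ℕ)‖ * √(w η x (q : ℕ))) ^ 2) := by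
    refine Summable.of_nonneg_of_le (fun q => sq_nonneg _) (fun q => ?_)
      (hb.mul_left ((P.card : ℝ) ^ 2))
    rw [mul_pow, Real.sq_sqrt (hw q)]
    apply mul_le_mul _ (w_le η x q) (hw q) (sq_nonneg _)
    exact pow_le_pow_left₀ (norm_nonneg _) (hZb q) 2
  have hBe : ∑' q : Nat.Primes, (‖Z (q : ℕ)‖ * √(w η x (q : ℕ))) ^ 2 =
      ∑' q : Nat.Primes, ‖Z (q : ℕ)‖ ^ 2 * w η x (q : ℕ) := by
    refine tsum_congr fun q => ?_
    rw [mul_pow, Real.sq_sqrt (hw q)]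
  rw [hL, hB]
  have hcs := cs hsA hsB hA hBe.le (fun q => by positivity)
  refine le_trans ?_ hcs
  refine (Complex.re_le_norm _).trans ?_
  have hterm : ∀ q : Nat.Primes, ‖a (q : ℕ) * Z (q : ℕ) * ((w η x (q : ℕ) : ℝ) : ℂ)‖ =
      ‖a (q : ℕ)‖ * √(w η x (q : ℕ)) * (‖Z (q : ℕ)‖ * √(w η x (q : ℕ))) := by
    intro q
    rw [norm_mul, norm_mul, Complex.norm_real, Real.norm_of_nonneg (hw q)]
    nth_rewrite 1 [← Real.mul_self_sqrt (hw q)]
    ring
  have hsn : Summable (fun q : Nat.Primes =>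
      ‖a (q : ℕ) * Z (q : ℕ) * ((w η x (q : ℕ) : ℝ) : ℂ)‖) := by
    refine Summable.of_nonneg_of_le (fun q => norm_nonneg _) (fun q => ?_)
      (ha1.mul_left (P.card : ℝ))
    rw [norm_mul, norm_mul, Complex.norm_real, Real.norm_of_nonneg (hw q)]
    calc ‖a (q : ℕ)‖ * ‖Z (q : ℕ)‖ * w η x (q : ℕ)
        ≤ ‖a (q : ℕ)‖ * P.card * ((q : ℕ) : ℝ) ^ (-1 - η) := by
          apply mul_le_mul _ (w_le η x q) (hw q) (by positivity)
          exact mul_le_mul_of_nonneg_left (hZb q) (norm_nonneg _)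
      _ = (P.card : ℝ) * (‖a (q : ℕ)‖ * ((q : ℕ) : ℝ) ^ (-1 - η)) := by ring
  refine (norm_tsum_le_tsum_norm hsn).trans ?_
  rw [tsum_congr hterm]

end Pool.Agent.SelQ
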