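import Pool.Agent.SelQ.TargetsD

/-!
# SelQ: the inequality of Chebyshev (D10 CHB)
-/

set_option autoImplicit false

open Finset

namespace Pool.Agent.SelQ

namespace CHB_

/-- The weight of `B`. -/
noncomputable def wt (π : ℕ → ℝ) (Q B : Finset ℕ) : ℝ :=
  (∏ p ∈ B, π p) * ∏ p ∈ Q \ B, (1 - π p)

lemma wt_nonneg {π : ℕ → ℝ} (h : ∀ p, 0 ≤ π p ∧ π p ≤ 1) (Q B : Finset ℕ) : 0 ≤ wt π Q B :=
  mul_nonneg (prod_nonneg fun p _ => (h p).1) (prod_nonneg fun p _ => by linarith [(h p).2])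

lemma EB_eq (π : ℕ → ℝ) (Q : Finset ℕ) (F : Finset ℕ → ℝ) :
    EB π Q F = ∑ B ∈ Q.powerset, F B * wt π Q B := rfl

lemma exp_small : Real.exp (1 / 512) ≤ 1 + 1 / 256 := by
  have h1 := Real.add_one_le_exp (-(1 / 512 : ℝ))
  rw [Real.exp_neg] at h1
  have h2 := Real.exp_pos (1 / 512 : ℝ)
  have h3 : (-(1 / 512 : ℝ) + 1) * Real.exp (1 / 512) ≤ 1 := by
    calc (-(1 / 512 : ℝ) + 1) * Real.exp (1 / 512)
        ≤ (Real.exp (1 / 512))⁻¹ * Real.exp (1 / 512) := mul_le_mul_of_nonneg_right h1 h2.le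
      _ = 1 := inv_mul_cancel₀ h2.ne'
  linarith

end CHB_

open CHB_ in
theorem p_CHB (hEBS : T_EBS) : T_CHB := by
  intro π Q f κ hπ hκ h1 h2
  classical
  have hone : ∑ B ∈ Q.powerset, wt π Q B = 1 := by
    have h3 := hEBS π Q ∅ (empty_subset Q)
    rw [EB_eq, prod_empty] at h3
    rw [← h3]
    refine sum_congr rfl fun B _ => ?_
    rw [if_pos (empty_subset B), one_mul]
  rw [EB_eq] at h1 h2 ⊢
  have hk2 : 0 < κ ^ 2 := by positivity
  have hpt : ∀ B ∈ Q.powerset, (if f B < κ / 2 then (1 : ℝ) else 0) * wt π Q B ≤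
      4 / κ ^ 2 * (f B ^ 2 * wt π Q B) - 8 / κ * (f B * wt π Q B) + 4 * wt π Q B := by
    intro B _
    have hw := wt_nonneg hπ Q B
    have h4 : 4 / κ ^ 2 * (f B ^ 2 * wt π Q B) - 8 / κ * (f B * wt π Q B) + 4 * wt π Q B =
        4 / κ ^ 2 * (f B - κ) ^ 2 * wt π Q B := by
      field_simp
      ring
    rw [h4]
    apply mul_le_mul_of_nonneg_right _ hw
    split_ifs with h5
    · have h6 : κ ^ 2 / 4 ≤ (f B - κ) ^ 2 := by nlinarith
      rw [div_mul_eq_mul_div, le_div_iff₀ hk2]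
      linarith
    · positivity
  have hsum := sum_le_sum hpt
  rw [sum_add_distrib, sum_sub_distrib, ← mul_sum, ← mul_sum, ← mul_sum, hone, h1] at hsum
  have h7 : 8 / κ * κ = 8 := by field_simp
  have h8 : 4 / κ ^ 2 * ∑ B ∈ Q.powerset, f B ^ 2 * wt π Q B ≤
      4 / κ ^ 2 * (κ ^ 2 * Real.exp (1 / 512)) :=
    mul_le_mul_of_nonneg_left h2 (by positivity)
  have h9 : 4 / κ ^ 2 * (κ ^ 2 * Real.exp (1 / 512)) = 4 * Real.exp (1 / 512) := by
    field_simp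
  have h10 := exp_small
  rw [h7] at hsum
  rw [h9] at h8
  refine hsum.trans ?_
  linarith

end Pool.Agent.SelQ
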