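import Pool.Agent.SelQ.TargetsC

/-!
# CHN: the chain over the scales
-/

set_option autoImplicit false

open Finset

namespace Pool.Agent.SelQ

open Complex Filter Topology

namespace CHN_

theorem et_pos (N : ℕ) : 0 < et N := Real.exp_pos _

theorem YY_pos (B N : ℕ) : 0 < YY B N := Real.exp_pos _

theorem one_le_YY (B N : ℕ) : 1 ≤ YY B N := by
  unfold YY
  exact Real.one_le_exp (by positivity)

theorem YY_mono (B N : ℕ) : YY B N ≤ YY B (N + 1) := by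
  unfold YY
  apply Real.exp_le_exp.2
  apply pow_le_pow_left₀ (Nat.cast_nonneg N)
  push_cast
  linarith

theorem inv_YY_le {B : ℕ} (hB : 1 ≤ B) (N : ℕ) : (1 / YY B N) ^ 5 ≤ (1 / 2 : ℝ) ^ N := by
  have h1 : (N : ℝ) ≤ (N : ℝ) ^ B := by
    exact_mod_cast Nat.le_self_pow (by omega) N
  have h2 : (1 / YY B N) ^ 5 = Real.exp (-(5 * (N : ℝ) ^ B)) := by
    unfold YY
    rw [one_div, ← Real.exp_neg, ← Real.exp_nat_mul]
    congr 1
    push_cast
    ring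
  have h3 : (1 / 2 : ℝ) ^ N = Real.exp (-(N * Real.log 2)) := by
    rw [Real.exp_neg, Real.exp_nat_mul, Real.exp_log (by norm_num)]
    rw [one_div, inv_pow]
  rw [h2, h3]
  apply Real.exp_le_exp.2
  have h4 : Real.log 2 ≤ 1 := by
    have := Real.log_two_lt_d9
    linarith
  have h5 : (0 : ℝ) ≤ N := Nat.cast_nonneg N
  nlinarith

theorem inv_YY_mono (B N : ℕ) : (1 / YY B (N + 1)) ^ 5 ≤ (1 / YY B N) ^ 5 := by
  have h1 := YY_pos B N
  have h2 := YY_mono B N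
  apply pow_le_pow_left₀ (by have := YY_pos B (N + 1); positivity)
  exact one_div_le_one_div_of_le h1 h2

theorem eps_small (B : ℕ) : ∃ M : ℕ, ∀ N : ℕ, M ≤ N →
    2 * et (N + 1) * (N : ℝ) ^ B ≤ (1 / 2 : ℝ) ^ N := by
  have h1 := Real.tendsto_pow_mul_exp_neg_atTop_nhds_zero (B + 1)
  have h2 : Tendsto (fun N : ℕ => (2 : ℝ) ^ N) atTop atTop :=
    tendsto_pow_atTop_atTop_of_one_lt (by norm_num)
  have h3 := h1.comp h2
  have h4 : ∀ᶠ N : ℕ in atTop, ((2 : ℝ) ^ N) ^ (B + 1) * Real.exp (-(2 : ℝ) ^ N) < 1 / 2 := by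
    have := h3.eventually (gt_mem_nhds (show (0 : ℝ) < 1 / 2 by norm_num))
    simpa [Function.comp] using this
  obtain ⟨M, hM⟩ := eventually_atTop.1 h4
  refine ⟨M, fun N hN => ?_⟩
  have h5 := hM N hN
  have h6 : (0 : ℝ) < 2 ^ N := by positivity
  have h7 : (N : ℝ) ≤ 2 ^ N := by exact_mod_cast (Nat.lt_two_pow_self (n := N)).le
  have h8 : (N : ℝ) ^ B ≤ ((2 : ℝ) ^ N) ^ B := pow_le_pow_left₀ (Nat.cast_nonneg N) h7 B
  have h9 : et (N + 1) ≤ Real.exp (-(2 : ℝ) ^ N) := by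
    unfold et
    apply Real.exp_le_exp.2
    rw [pow_succ]
    linarith
  have h10 : 0 < Real.exp (-(2 : ℝ) ^ N) := Real.exp_pos _
  have h11 : (1 / 2 : ℝ) ^ N * 2 ^ N = 1 := by
    rw [← mul_pow]
    norm_num
  have h12 : 2 * et (N + 1) * (N : ℝ) ^ B * 2 ^ N ≤ 1 := by
    calc 2 * et (N + 1) * (N : ℝ) ^ B * 2 ^ N
        ≤ 2 * Real.exp (-(2 : ℝ) ^ N) * ((2 : ℝ) ^ N) ^ B * 2 ^ N := by
          gcongr
      _ = 2 * (((2 : ℝ) ^ N) ^ (B + 1) * Real.exp (-(2 : ℝ) ^ N)) := by ring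
      _ ≤ 1 := by linarith
  have h13 : 2 * et (N + 1) * (N : ℝ) ^ B * 2 ^ N ≤ (1 / 2 : ℝ) ^ N * 2 ^ N := by
    rw [h11]
    exact h12
  exact le_of_mul_le_mul_right h13 h6

theorem rpow_le {p B N : ℕ} (hp : p.Prime) (hY : (p : ℝ) ≤ YY B N) {t : ℝ} (ht : 0 ≤ t) :
    (p : ℝ) ^ t ≤ Real.exp (t * (N : ℝ) ^ B) := by
  have h1 : (0 : ℝ) ≤ p := Nat.cast_nonneg p
  calc (p : ℝ) ^ t ≤ (YY B N) ^ t := Real.rpow_le_rpow h1 hY ht
    _ = Real.exp (t * (N : ℝ) ^ B) := by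
        unfold YY
        rw [← Real.exp_mul, mul_comm]

theorem rpow_neg_le {p : ℕ} (hp : p.Prime) (N : ℕ) : (p : ℝ) ^ (-2 * et N) ≤ 1 := by
  have h1 : (1 : ℝ) ≤ p := by exact_mod_cast hp.one_lt.le
  apply Real.rpow_le_one_of_one_le_of_nonpos h1
  have := et_pos N
  linarith

/-- a prime in the class which is inactive at two consecutive scales -/
theorem good {Q B N₀ : ℕ} {C : ℝ} {act : ℕ → ℕ → Prop} (hC : 0 ≤ C)
    (h1 : ∀ N : ℕ, N₀ ≤ N → ∀ P : Finset ℕ, (∀ p ∈ P, p.Prime ∧ (p : ℝ) ≤ YY B N ∧ act N p) →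
      (P.card : ℝ) ≤ C * 4 ^ N)
    {N b : ℕ} (hN : N₀ ≤ N)
    (h2 : ∃ P : Finset ℕ, (∀ p ∈ P, p.Prime ∧ (p : ℝ) ≤ YY B N ∧ p ≡ b [MOD Q]) ∧
      (5 * C) * 4 ^ N < (P.card : ℝ)) :
    ∃ p : ℕ, p.Prime ∧ (p : ℝ) ≤ YY B N ∧ p ≡ b [MOD Q] ∧ ¬ act N p ∧ ¬ act (N + 1) p := by
  classical
  obtain ⟨P, hP, hc⟩ := h2
  by_contra hcon
  push Not at hcon
  have h3 : P ⊆ P.filter (act N) ∪ P.filter (act (N + 1)) := by
    intro p hp
    obtain ⟨q1, q2, q3⟩ := hP p hp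
    rw [mem_union, mem_filter, mem_filter]
    by_cases hh : act N p
    · exact Or.inl ⟨hp, hh⟩
    · exact Or.inr ⟨hp, hcon p q1 q2 q3 hh⟩
  have h4 : (P.card : ℝ) ≤ (P.filter (act N)).card + (P.filter (act (N + 1))).card := by
    exact_mod_cast (card_le_card h3).trans (card_union_le _ _)
  have h5 := h1 N hN (P.filter (act N)) (by
    intro p hp
    rw [mem_filter] at hp
    obtain ⟨q1, q2, -⟩ := hP p hp.1
    exact ⟨q1, q2, hp.2⟩)
  have h6 := h1 (N + 1) (by omega) (P.filter (act (N + 1))) (by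
    intro p hp
    rw [mem_filter] at hp
    obtain ⟨q1, q2, -⟩ := hP p hp.1
    exact ⟨q1, q2.trans (YY_mono B N), hp.2⟩)
  rw [pow_succ] at h6
  linarith

theorem step {p B N : ℕ} {C x x' h : ℝ} (hC : 0 ≤ C) (hB : 1 ≤ B) (hp : p.Prime)
    (hY : (p : ℝ) ≤ YY B N) (hx : 0 ≤ x)
    (hs : 2 * et (N + 1) * (N : ℝ) ^ B ≤ (1 / 2 : ℝ) ^ N)
    (h1 : |h - (p : ℝ) ^ (-2 * et N) * x| ≤ C * (1 / YY B N) ^ 5)
    (h2 : |h - (p : ℝ) ^ (-2 * et (N + 1)) * x'| ≤ C * (1 / YY B (N + 1)) ^ 5) :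
    1 + x' ≤ (1 + x) * Real.exp ((2 * C + 1) * (1 / 2 : ℝ) ^ N) := by
  have hp0 : (0 : ℝ) < p := by exact_mod_cast hp.pos
  have e1 := inv_YY_le hB N
  have e2 := inv_YY_mono B N
  have e3 := rpow_neg_le hp N
  have hd : 0 < (1 / 2 : ℝ) ^ N := by positivity
  set d := (1 / 2 : ℝ) ^ N with hdd
  have e4 : C * (1 / YY B N) ^ 5 ≤ C * d := mul_le_mul_of_nonneg_left e1 hC
  have e5 : C * (1 / YY B (N + 1)) ^ 5 ≤ C * d :=
    mul_le_mul_of_nonneg_left (e2.trans e1) hC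
  have a1 := (abs_le.1 h1).2
  have a2 := (abs_le.1 h2).1
  have a3 : (p : ℝ) ^ (-2 * et N) * x ≤ x := by nlinarith
  have a4 : (p : ℝ) ^ (-2 * et (N + 1)) * x' ≤ x + 2 * C * d := by linarith
  have b1 : 0 < (p : ℝ) ^ (2 * et (N + 1)) := Real.rpow_pos_of_pos hp0 _
  have b2 : (p : ℝ) ^ (2 * et (N + 1)) * (p : ℝ) ^ (-2 * et (N + 1)) = 1 := by
    rw [← Real.rpow_add hp0]
    have : 2 * et (N + 1) + -2 * et (N + 1) = 0 := by ring
    rw [this, Real.rpow_zero]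
  have b3 : x' ≤ (p : ℝ) ^ (2 * et (N + 1)) * (x + 2 * C * d) := by
    have := mul_le_mul_of_nonneg_left a4 b1.le
    rwa [← mul_assoc, b2, one_mul] at this
  have b4 : (p : ℝ) ^ (2 * et (N + 1)) ≤ Real.exp d := by
    have h0 := et_pos (N + 1)
    refine (rpow_le hp hY (t := 2 * et (N + 1)) (by linarith)).trans ?_
    exact Real.exp_le_exp.2 hs
  have hCd : 0 ≤ C * d := mul_nonneg hC hd.le
  have b5 : x' ≤ Real.exp d * (x + 2 * C * d) := by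
    refine b3.trans (mul_le_mul_of_nonneg_right b4 ?_)
    linarith
  have b6 : 1 ≤ Real.exp d := Real.one_le_exp hd.le
  have b7 : 1 + 2 * C * d ≤ Real.exp (2 * C * d) := by
    have := Real.add_one_le_exp (2 * C * d)
    linarith
  have b8 : 1 + x + 2 * C * d ≤ (1 + x) * Real.exp (2 * C * d) := by nlinarith
  calc 1 + x' ≤ Real.exp d * 1 + Real.exp d * (x + 2 * C * d) := by linarith
    _ = Real.exp d * (1 + x + 2 * C * d) := by ring
    _ ≤ Real.exp d * ((1 + x) * Real.exp (2 * C * d)) :=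
        mul_le_mul_of_nonneg_left b8 (by positivity)
    _ = (1 + x) * Real.exp ((2 * C + 1) * d) := by
        rw [show (2 * C + 1) * d = d + 2 * C * d by ring, Real.exp_add]
        ring

theorem chain {D : ℝ} {x : ℕ → ℝ} {M : ℕ} (hx : ∀ N, 0 ≤ x N) (hD : 0 ≤ D)
    (h : ∀ N, M ≤ N → 1 + x (N + 1) ≤ (1 + x N) * Real.exp (D * (1 / 2 : ℝ) ^ N)) :
    ∀ N, M ≤ N → x N ≤ (1 + x M) * Real.exp (2 * D) := by
  have key : ∀ N, M ≤ N → (1 + x N) * Real.exp (2 * D * (1 / 2 : ℝ) ^ N) ≤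
      (1 + x M) * Real.exp (2 * D * (1 / 2 : ℝ) ^ M) := by
    intro N hN
    induction N, hN using Nat.le_induction with
    | base => exact le_refl _
    | succ N hN ih =>
      refine le_trans ?_ ih
      have h1 := h N hN
      have h2 : 2 * D * (1 / 2 : ℝ) ^ (N + 1) = D * (1 / 2 : ℝ) ^ N := by
        rw [pow_succ]
        ring
      rw [h2]
      calc (1 + x (N + 1)) * Real.exp (D * (1 / 2 : ℝ) ^ N)
          ≤ (1 + x N) * Real.exp (D * (1 / 2 : ℝ) ^ N) * Real.exp (D * (1 / 2 : ℝ) ^ N) :=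
            mul_le_mul_of_nonneg_right h1 (Real.exp_pos _).le
        _ = (1 + x N) * Real.exp (2 * D * (1 / 2 : ℝ) ^ N) := by
            rw [mul_assoc, ← Real.exp_add]
            congr 2
            ring
  intro N hN
  have h1 := key N hN
  have h2 : 1 ≤ Real.exp (2 * D * (1 / 2 : ℝ) ^ N) := Real.one_le_exp (by positivity)
  have h3 : Real.exp (2 * D * (1 / 2 : ℝ) ^ M) ≤ Real.exp (2 * D) := by
    apply Real.exp_le_exp.2
    have : (1 / 2 : ℝ) ^ M ≤ 1 := pow_le_one₀ (by norm_num) (by norm_num)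
    nlinarith
  have h4 := hx N
  have h5 := hx M
  have h6 : 1 + x N ≤ (1 + x N) * Real.exp (2 * D * (1 / 2 : ℝ) ^ N) := by nlinarith
  have h7 : (1 + x M) * Real.exp (2 * D * (1 / 2 : ℝ) ^ M) ≤ (1 + x M) * Real.exp (2 * D) :=
    mul_le_mul_of_nonneg_left h3 (by linarith)
  linarith

end CHN_

open CHN_ in
/-- CHN. -/
theorem p_CHN : T_CHN := by
  intro Q B N₀ C act H X hQ hB hC h1 h2 h3
  obtain ⟨N₁, hN₁⟩ := h2 (5 * C)
  obtain ⟨M, hM⟩ := eps_small B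
  set N₃ := max N₀ (max N₁ M) with hN₃
  have g0 : N₀ ≤ N₃ := le_max_left _ _
  have g1 : N₁ ≤ N₃ := (le_max_left _ _).trans (le_max_right _ _)
  have g2 : M ≤ N₃ := (le_max_right _ _).trans (le_max_right _ _)
  have hbd : ∀ b : ℕ, b.Coprime Q → ∀ N, N₃ ≤ N →
      ‖X N b‖ ≤ (1 + ‖X N₃ b‖) * Real.exp (2 * (2 * C + 1)) := by
    intro b hb
    apply chain (x := fun N => ‖X N b‖) (fun N => norm_nonneg _) (by linarith)
    intro N hN
    obtain ⟨p, p1, p2, p3, p4, p5⟩ := good (Q := Q) (b := b) hC h1 (g0.trans hN)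
      (hN₁ N (g1.trans hN) b hb)
    exact step hC hB p1 p2 (norm_nonneg _) (hM N (g2.trans hN))
      (h3 N (g0.trans hN) p b p1 p2 p4 p3)
      (h3 (N + 1) (by omega) p b p1 (p2.trans (YY_mono B N)) p5 p3)
  refine ⟨N₃, ∑ b ∈ range Q, (1 + ‖X N₃ b‖) * Real.exp (2 * (2 * C + 1)) + C, ?_⟩
  intro N hN p hp hpQ hY hact
  have hmod : p ≡ p % Q [MOD Q] := (Nat.mod_modEq p Q).symm
  have hcop : (p % Q).Coprime Q := by
    have := hmod.gcd_eq
    unfold Nat.Coprime at hpQ ⊢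
    rw [← this, hpQ]
  have k1 := (abs_le.1 (h3 N (g0.trans hN) p (p % Q) hp hY hact hmod)).2
  have k2 := hbd (p % Q) hcop N hN
  have k3 : (1 + ‖X N₃ (p % Q)‖) * Real.exp (2 * (2 * C + 1)) ≤
      ∑ b ∈ range Q, (1 + ‖X N₃ b‖) * Real.exp (2 * (2 * C + 1)) := by
    apply single_le_sum (f := fun b => (1 + ‖X N₃ b‖) * Real.exp (2 * (2 * C + 1)))
      (fun b _ => by positivity)
    exact mem_range.2 (Nat.mod_lt _ (by omega))
  have k4 : (p : ℝ) ^ (-2 * et N) * ‖X N (p % Q)‖ ≤ ‖X N (p % Q)‖ := by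
    have := rpow_neg_le hp N
    nlinarith [norm_nonneg (X N (p % Q))]
  have k5 : C * (1 / YY B N) ^ 5 ≤ C := by
    have h6 := inv_YY_le hB N
    have h7 : (1 / 2 : ℝ) ^ N ≤ 1 := pow_le_one₀ (by norm_num) (by norm_num)
    nlinarith
  linarith

end Pool.Agent.SelQ
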