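import Pool.Agent.SelQ.TargetsE

/-!
# SD2-CHV: change of variables
-/

set_option autoImplicit false

open Finset

namespace Pool.Agent.SelQ

noncomputable section

namespace CHV_

/-- the inner substitution `y' = c y` -/
theorem inner_subst {c η δ : ℝ} (hc : 0 < c) (hδ : 0 < δ) (hδ1 : δ < 1) (g : ℝ → ℝ) :
    ∫ y in δ..1, y ^ η * (c * g (c * y)) = c ^ (-η) * ∫ y in (c * δ)..c, y ^ η * g y := by
  have h1 : ∫ y in δ..1, y ^ η * (c * g (c * y)) =
      ∫ y in δ..1, (c ^ (-η) * c) * ((c * y) ^ η * g (c * y)) := by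
    apply intervalIntegral.integral_congr
    intro y hy
    rw [Set.uIcc_of_le hδ1.le] at hy
    have hy0 : 0 ≤ y := hδ.le.trans hy.1
    show y ^ η * (c * g (c * y)) = (c ^ (-η) * c) * ((c * y) ^ η * g (c * y))
    rw [Real.mul_rpow hc.le hy0, Real.rpow_neg hc.le]
    have := (Real.rpow_pos_of_pos hc η).ne'
    field_simp
  rw [h1, intervalIntegral.integral_const_mul,
    intervalIntegral.integral_comp_mul_left (fun y => y ^ η * g y) hc.ne', mul_one, smul_eq_mul]
  field_simp

theorem image_div {κ u v : ℝ} (hκ : 0 < κ) (hu : 0 < u) (huv : u < v) :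
    (fun x : ℝ => κ / x) '' Set.Icc (κ / v) (κ / u) = Set.Icc u v := by
  have hv : 0 < v := hu.trans huv
  ext x
  constructor
  · rintro ⟨y, ⟨h1, h2⟩, rfl⟩
    have hy : 0 < y := lt_of_lt_of_le (by positivity) h1
    rw [div_le_iff₀ hv] at h1
    rw [le_div_iff₀ hu] at h2
    constructor
    · show u ≤ κ / y
      rw [le_div_iff₀ hy]
      linarith
    · show κ / y ≤ v
      rw [div_le_iff₀ hy]
      linarith
  · rintro ⟨h1, h2⟩
    have hx : 0 < x := lt_of_lt_of_le hu h1
    refine ⟨κ / x, ⟨?_, ?_⟩, ?_⟩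
    · exact div_le_div_of_nonneg_left hκ.le hx h2
    · exact div_le_div_of_nonneg_left hκ.le hu h1
    · show κ / (κ / x) = x
      field_simp

end CHV_

open CHV_ in
/-- Target CHV. -/
theorem p_CHV : T_CHV := by
  intro κ u v η δ G hκ hu huv hδ hδ1 hη hη1 _
  have hv : 0 < v := hu.trans huv
  have hle : κ / v ≤ κ / u := div_le_div_of_nonneg_left hκ.le hu huv.le
  rw [intervalIntegral.integral_of_le huv.le, intervalIntegral.integral_of_le hle,
    ← MeasureTheory.integral_Icc_eq_integral_Ioc, ← MeasureTheory.integral_Icc_eq_integral_Ioc]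
  conv_lhs => rw [← image_div hκ hu huv]
  rw [MeasureTheory.integral_image_eq_integral_abs_deriv_smul (f' := fun x => -κ / x ^ 2)
    measurableSet_Icc]
  · apply MeasureTheory.setIntegral_congr_fun measurableSet_Icc
    intro x hx
    have hx0 : 0 < x := lt_of_lt_of_le (by positivity) hx.1
    have hc : 0 < x ^ 2 / κ := by positivity
    have e1 : κ / (κ / x) = x := by field_simp
    have e2 : κ / (κ / x) ^ 2 = x ^ 2 / κ := by field_simp
    have e3 : |-κ / x ^ 2| = κ / x ^ 2 := by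
      rw [neg_div, abs_neg, abs_of_pos (by positivity)]
    have e4 : (fun y : ℝ => y ^ η * (κ / (κ / x) ^ 2 * G (κ / (κ / x)) (κ * y / (κ / x) ^ 2))) =
        fun y : ℝ => y ^ η * (x ^ 2 / κ * G x (x ^ 2 / κ * y)) := by
      funext y
      rw [e1, e2]
      congr 3
      field_simp
    have e5 : x ^ 2 / κ * δ = δ * x ^ 2 / κ := by ring
    show |-κ / x ^ 2| • (W0 u v (κ / x) * ∫ y in δ..1,
      y ^ η * (κ / (κ / x) ^ 2 * G (κ / (κ / x)) (κ * y / (κ / x) ^ 2))) = _
    rw [e3, e4, inner_subst hc hδ hδ1, e5, smul_eq_mul]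
    unfold W1
    have e6 : (x ^ 2 / κ) ^ (-η) = (κ / x ^ 2) ^ η := by
      rw [Real.rpow_neg hc.le, ← Real.inv_rpow hc.le, inv_div]
    have e7 : (κ / x ^ 2) ^ (1 + η) = κ / x ^ 2 * (κ / x ^ 2) ^ η := by
      rw [Real.rpow_add (by positivity), Real.rpow_one]
    rw [e6]
    beta_reduce
    rw [e7]
    ring
  · intro x hx
    have hx0 : 0 < x := lt_of_lt_of_le (by positivity) hx.1
    have h1 := (hasDerivAt_inv hx0.ne').const_mul κ
    have h2 : κ * -(x ^ 2)⁻¹ = -κ / x ^ 2 := by ring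
    rw [h2] at h1
    exact h1.hasDerivWithinAt
  · intro x hx y hy hxy
    have hx0 : 0 < x := lt_of_lt_of_le (by positivity) hx.1
    have hy0 : 0 < y := lt_of_lt_of_le (by positivity) hy.1
    have h1 : κ / x = κ / y := hxy
    rw [div_eq_div_iff hx0.ne' hy0.ne'] at h1
    exact (mul_left_cancel₀ hκ.ne' h1).symm

end

end Pool.Agent.SelQ
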