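import Pool.Agent.SelQ.TargetsD

/-!
# SD2-CLS: a good window in every class
-/

set_option autoImplicit false

open Finset

namespace Pool.Agent.SelQ

noncomputable section

namespace CLS_

theorem KK_nn {π : ℕ → ℝ} (hπ : ∀ p, 0 ≤ π p) (Q : Finset ℕ) (j : ℕ) (u : ℝ) :
    0 ≤ KK π Q j u := by
  unfold KK
  exact sum_nonneg fun S _ => prod_nonneg fun p _ => hπ p

theorem exists_max (π : ℕ → ℝ) (Q : Finset ℕ) (j : ℕ) :
    ∃ u₀ : ℝ, ∀ u : ℝ, KK π Q j u ≤ KK π Q j u₀ := by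
  have hfin : (Set.range (fun u : ℝ => win j u Q)).Finite := by
    apply ((Q.powersetCard j).powerset : Finset (Finset (Finset ℕ))).finite_toSet.subset
    rintro _ ⟨u, rfl⟩
    simp only [mem_coe, mem_powerset]
    unfold win
    exact filter_subset _ _
  obtain ⟨A, ⟨u₀, rfl⟩, hmax⟩ := Set.exists_max_image (Set.range (fun u : ℝ => win j u Q))
    (fun A => ∑ S ∈ A, ∏ p ∈ S, π p) hfin ⟨_, ⟨0, rfl⟩⟩
  exact ⟨u₀, fun u => hmax _ ⟨u, rfl⟩⟩

theorem KK_zero (π : ℕ → ℝ) (Q : Finset ℕ) (u : ℝ) : KK π Q 0 u ≤ 1 := by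
  unfold KK
  have h : win 0 u Q ⊆ {∅} := by
    unfold win
    rw [powersetCard_zero]
    exact filter_subset _ _
  calc ∑ S ∈ win 0 u Q, ∏ p ∈ S, π p ≤ ∑ S ∈ ({∅} : Finset (Finset ℕ)), ∏ p ∈ S, π p := by
        apply sum_le_sum_of_subset_of_nonneg h
        intro S hS _
        rw [mem_singleton.1 hS]
        simp
    _ = 1 := by simp

theorem rm_upper {T : ℝ} (hT : 10000 ≤ T) : 2 * ((Rm T : ℝ) * T + 1) ≤ T ^ 2 := by
  have hT0 : 0 < T := by linarith
  set s := Real.sqrt T with hs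
  have hs2 : s ^ 2 = T := Real.sq_sqrt hT0.le
  have hs100 : 100 ≤ s := by
    rw [hs]
    apply Real.le_sqrt_of_sq_le
    norm_num
    exact hT
  have hs0 : 0 < s := by linarith
  have hlog : Real.log T ≤ 2 * (s - 1) := by
    rw [← hs2, Real.log_pow]
    have := Real.log_le_sub_one_of_pos hs0
    push_cast
    linarith
  have hlogb : Real.logb 2 T ≤ 3 * (s - 1) := by
    unfold Real.logb
    have hl2 := Real.log_two_gt_d9
    rw [div_le_iff₀ (by linarith)]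
    nlinarith
  have hlogb0 : 0 ≤ Real.logb 2 T := Real.logb_nonneg (by norm_num) (by linarith)
  have hN : (Rm T : ℝ) ≤ 24 * s := by
    unfold Rm
    have := Nat.ceil_lt_add_one (a := 8 * Real.logb 2 T) (by positivity)
    linarith
  have h3 : (Rm T : ℝ) * T ≤ 24 * s * s ^ 2 := by
    rw [hs2]
    exact mul_le_mul_of_nonneg_right hN hT0.le
  have h4 : T ^ 2 = s ^ 4 := by rw [← hs2]; ring
  rw [h4]
  have h5 : 1 ≤ s ^ 3 := one_le_pow₀ (by linarith)
  nlinarith [mul_le_mul_of_nonneg_right hs100 (pow_nonneg hs0.le 3)]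

theorem rm_lower {T : ℝ} (hT : 10000 ≤ T) : T ^ 8 ≤ (2 : ℝ) ^ (Rm T) := by
  have hT0 : 0 < T := by linarith
  have h1 : 8 * Real.logb 2 T ≤ (Rm T : ℝ) := Nat.le_ceil _
  have h2 : (2 : ℝ) ^ (8 * Real.logb 2 T) = T ^ 8 := by
    rw [mul_comm, Real.rpow_mul (by norm_num), Real.rpow_logb (by norm_num) (by norm_num) hT0]
    norm_cast
  rw [← h2, ← Real.rpow_natCast]
  exact Real.rpow_le_rpow_of_exponent_le (by norm_num) h1

/-- the binomial sum -/
theorem binom (R : ℕ) (x κ : ℝ) :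
    ∑ s ∈ range (R + 1), (R.choose s : ℝ) * (κ * x ^ s) = κ * (1 + x) ^ R := by
  rw [add_comm (1 : ℝ) x, add_pow, mul_sum]
  apply sum_congr rfl
  intro s _
  rw [one_pow]
  ring

end CLS_

open CLS_ in
/-- Target CLS. -/
theorem p_CLS (hUPP : T_UPP) (hLOW : T_LOW) (hSEL : T_SEL) (hSEC : T_SEC) (hCHB : T_CHB) :
    T_CLS := by
  refine ⟨10000, by norm_num, ?_⟩
  intro T hT π Q hπ hQ hM
  have hT0 : 0 < T := by linarith
  set N := Rm T with hNdef
  set M := ∑ p ∈ Q, π p with hMdef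
  have hπ0 : ∀ p, 0 ≤ π p := fun p => (hπ p).1
  choose u hu using fun j => exists_max π Q j
  set K : ℕ → ℝ := fun j => KK π Q j (u j) with hK
  have hVT : 2 * ((N : ℝ) * T + 1) ≤ T ^ 2 := rm_upper hT
  have hNT : T ^ 8 ≤ (2 : ℝ) ^ N := rm_lower hT
  have hN1 : 1 ≤ N := by
    by_contra h
    have h0 : N = 0 := by omega
    rw [h0, pow_zero] at hNT
    have : (1 : ℝ) < T ^ 8 := one_lt_pow₀ (by linarith) (by norm_num)
    linarith
  have hN1' : (1 : ℝ) ≤ N := by exact_mod_cast hN1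
  have hM0 : 0 < M := by nlinarith
  have hNM : (N : ℝ) ^ 2 ≤ M := by nlinarith
  have hV0 : 0 < 2 * ((N : ℝ) * T + 1) := by positivity
  obtain ⟨R, hRN, hR2, hRM, hRs⟩ := hSEL K M (2 * ((N : ℝ) * T + 1)) N hM0 hV0
    (fun j => KK_nn hπ0 Q j _) (KK_zero π Q _)
    (fun j => hUPP π Q j (K j) hπ0 (fun p hp => (hQ p hp).1) (hu j) (u (j + 1)))
    (hLOW π Q N T (K N) hT0.le hπ hQ hM0 hNM (hu N))
  have hR6 : T ^ 6 ≤ (2 : ℝ) ^ R := by
    have h1 : T ^ 8 ≤ T ^ 2 * 2 ^ R :=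
      hNT.trans (hR2.trans (mul_le_mul_of_nonneg_right hVT (by positivity)))
    have h2 : T ^ 8 = T ^ 2 * T ^ 6 := by ring
    rw [h2] at h1
    exact le_of_mul_le_mul_left h1 (by positivity)
  have hR1 : 1 ≤ R := by
    by_contra h
    have h0 : R = 0 := by omega
    rw [h0, pow_zero] at hR6
    have : (1 : ℝ) < T ^ 6 := one_lt_pow₀ (by linarith) (by norm_num)
    linarith
  have hR1' : (1 : ℝ) ≤ R := by exact_mod_cast hR1
  have hRN' : (R : ℝ) ≤ N := by exact_mod_cast hRN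
  have hMR : 1024 * (R : ℝ) ^ 2 ≤ M := by nlinarith
  -- lower bound for `K R`
  have hKR : 2 ^ R * T ^ 10 ≤ K R := by
    have hfac : (R.factorial : ℝ) ≤ (R : ℝ) ^ R := by exact_mod_cast Nat.factorial_le_pow R
    have hf0 : (0 : ℝ) < (R.factorial : ℝ) := by exact_mod_cast Nat.factorial_pos R
    have h1 : (1024 : ℝ) ^ R ≤ M ^ R / (R.factorial : ℝ) := by
      rw [le_div_iff₀ hf0]
      calc (1024 : ℝ) ^ R * (R.factorial : ℝ) ≤ 1024 ^ R * (R : ℝ) ^ R := by gcongr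
        _ = (1024 * (R : ℝ)) ^ R := by rw [mul_pow]
        _ ≤ M ^ R := by
            apply pow_le_pow_left₀ (by positivity)
            nlinarith
    have hKR0 : 0 ≤ K R := KK_nn hπ0 Q R _
    have h2 : (1024 : ℝ) ^ R ≤ T ^ 2 * K R :=
      h1.trans (hRM.trans (mul_le_mul_of_nonneg_right hVT hKR0))
    have h3 : (1024 : ℝ) ^ R = 2 ^ R * ((2 : ℝ) ^ R) ^ 9 := by
      rw [show (1024 : ℝ) = 2 ^ 10 by norm_num, ← pow_mul, ← pow_mul, ← pow_add]
      congr 1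
      ring
    have h4 : (T ^ 6) ^ 9 ≤ ((2 : ℝ) ^ R) ^ 9 := pow_le_pow_left₀ (by positivity) hR6 9
    have h5 : T ^ 12 ≤ (T ^ 6) ^ 9 := by
      rw [← pow_mul]
      exact pow_le_pow_right₀ (by linarith) (by norm_num)
    have h6 : 2 ^ R * T ^ 12 ≤ T ^ 2 * K R := by
      calc (2 : ℝ) ^ R * T ^ 12 ≤ 2 ^ R * ((2 : ℝ) ^ R) ^ 9 := by
            apply mul_le_mul_of_nonneg_left (h5.trans h4) (by positivity)
        _ = 1024 ^ R := h3.symm
        _ ≤ _ := h2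
    have h7 : (2 : ℝ) ^ R * T ^ 12 = T ^ 2 * (2 ^ R * T ^ 10) := by ring
    rw [h7] at h6
    exact le_of_mul_le_mul_left h6 (by positivity)
  have hKRpos : 0 < K R := lt_of_lt_of_le (by positivity) hKR
  obtain ⟨hm1, hm2⟩ := hSEC π Q R (u R) K hπ (fun p hp => (hQ p hp).1) hu
  refine ⟨R, u R, hKR, hCHB π Q (fun B => ((win R (u R) B).card : ℝ)) (KK π Q R (u R)) hπ hKRpos
    hm1 (hm2.trans ?_)⟩
  have h8 : ∑ s ∈ range (R + 1), (R.choose s : ℝ) * K (R - s) ≤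
      K R * (1 + 2 * R / M) ^ R := by
    rw [← binom R (2 * R / M) (K R)]
    apply sum_le_sum
    intro s hs
    exact mul_le_mul_of_nonneg_left (hRs s (by have := mem_range.1 hs; omega))
      (Nat.cast_nonneg _)
  have h9 : (1 + 2 * (R : ℝ) / M) ^ R ≤ Real.exp (1 / 512) := by
    have h10 : 1 + 2 * (R : ℝ) / M ≤ Real.exp (2 * R / M) := by
      have := Real.add_one_le_exp (2 * (R : ℝ) / M)
      linarith
    calc (1 + 2 * (R : ℝ) / M) ^ R ≤ Real.exp (2 * R / M) ^ R :=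
          pow_le_pow_left₀ (by positivity) h10 R
      _ = Real.exp (R * (2 * R / M)) := by rw [← Real.exp_nat_mul]
      _ ≤ Real.exp (1 / 512) := by
          apply Real.exp_le_exp.2
          rw [← mul_div_assoc, div_le_iff₀ hM0]
          nlinarith
  calc KK π Q R (u R) * ∑ s ∈ range (R + 1), (R.choose s : ℝ) * K (R - s)
      ≤ K R * (K R * (1 + 2 * R / M) ^ R) := mul_le_mul_of_nonneg_left h8 hKRpos.le
    _ ≤ K R * (K R * Real.exp (1 / 512)) := by gcongr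
    _ = KK π Q R (u R) ^ 2 * Real.exp (1 / 512) := by simp only [hK]; ring

end

end Pool.Agent.SelQ
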