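import Pool.Agent.SelQ.TargetsC
import Pool.Agent.SelDeg2.MSQ
import Pool.Agent.SelDeg2.E1
import Pool.Agent.SelDeg2.LOC
import Pool.Agent.SelDeg2.TW

/-!
# CQA: rational `κ`, assembly of the mean square bound
-/

set_option autoImplicit false

open Finset

namespace Pool.Agent.SelQ

open Complex Filter Topology
open Pool.Agent.SelDeg2 (ee gth SS Drel HasPole MeanSquare aX pser Lg Br LpF HH)
open Pool.Agent.SelPole (IsSelberg)

namespace CQA_

/-- A positive rational number. -/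
theorem exists_frac {κ : ℝ} (h0 : 0 < κ) (h : ¬ Irrational κ) :
    ∃ u Q : ℕ, 1 ≤ Q ∧ κ = (u : ℝ) / Q := by
  rw [Irrational, not_not] at h
  obtain ⟨q, hq⟩ := h
  have hq0 : 0 < q := by
    have : (0 : ℝ) < (q : ℝ) := by rw [hq]; exact h0
    exact_mod_cast this
  refine ⟨q.num.toNat, q.den, q.den_pos, ?_⟩
  have h1 : ((q.num.toNat : ℕ) : ℤ) = q.num := Int.toNat_of_nonneg (Rat.num_nonneg.mpr hq0.le)
  have h2 : ((q.num.toNat : ℕ) : ℝ) = ((q.num : ℤ) : ℝ) := by exact_mod_cast h1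
  rw [h2, ← hq]
  exact (Rat.cast_def q)

/-- The norm of the value at `κ b`, moved by a prime. -/
theorem norm_term {p : ℕ} (hp : 0 < p) (θ e : ℝ) (X : ℂ) :
    ‖(p : ℂ) ^ (-((θ : ℂ) * I)) * (((p : ℝ) ^ e : ℝ) : ℂ) * X‖ = (p : ℝ) ^ e * ‖X‖ := by
  rw [norm_mul, norm_mul, Complex.norm_natCast_cpow_of_pos hp, Complex.norm_real,
    Real.norm_of_nonneg (Real.rpow_nonneg (Nat.cast_nonneg _) _)]
  simp

end CQA_

theorem p_CQA (hACN : T_ACN) (hPAP : T_PAP) (hINA : T_INA) (hCHN : T_CHN) (hTHI : T_THI) :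
    T_CQA := by
  intro F a b r R₀ A₁ κ θ hF hpole hQP hD hUD hκ
  obtain ⟨u, Q, hQ1, hκe⟩ := CQA_.exists_frac hD.κ_pos hκ
  have : NeZero Q := ⟨by omega⟩
  obtain ⟨B, hB2, hPB⟩ := hPAP Q
  obtain ⟨C₁, N₁, hC₁, hA1⟩ := hACN F a b r B hF hQP hpole.1 (by omega)
  obtain ⟨C₂, N₂, hC₂, hI2⟩ := hINA F a b r R₀ A₁ κ θ u Q B hF hpole hUD hD.κ_pos hQ1 hκe
    (by omega)
  set C : ℝ := max C₁ C₂ with hC
  have hC0 : 0 ≤ C := hC₁.trans (le_max_left _ _)
  set N₀ : ℕ := max N₁ N₂ with hN₀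
  have hcard : ∀ N : ℕ, N₀ ≤ N → ∀ P : Finset ℕ,
      (∀ p ∈ P, p.Prime ∧ (p : ℝ) ≤ YY B N ∧ Act a r B N p) → (P.card : ℝ) ≤ C * 4 ^ N := by
    intro N hN P hP
    refine (hA1 N ((le_max_left _ _).trans hN) P hP).trans ?_
    exact mul_le_mul_of_nonneg_right (le_max_left _ _) (by positivity)
  obtain ⟨N₃, K, hK⟩ := hCHN Q B N₀ C (fun N p => Act a r B N p) (fun p => HH a p 1)
    (fun N b => Xi a A₁ κ θ b (et N)) hQ1 (by omega) hC0 hcard hPB (by
      intro N hN p b hp hpY hna hmod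
      have h := hI2 N ((le_max_right _ _).trans hN) p b hp hpY hna hmod
      have h2 := (abs_norm_sub_norm_le _ _).trans h
      rw [CQA_.norm_term hp.pos] at h2
      refine h2.trans (mul_le_mul_of_nonneg_right (le_max_right _ _) ?_)
      have : 0 < YY B N := Real.exp_pos _
      positivity)
  set M : ℕ := max N₃ N₀ with hM
  set E : Set ℕ := {p | p.Prime ∧ ∀ N : ℕ, M ≤ N → (p : ℝ) ≤ YY B N → Act a r B N p} with hE
  have hthin : Pool.Agent.SelTwo.Thin E :=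
    hTHI B M C (fun N p => Act a r B N p) E hB2
      (fun N hN => hcard N ((le_max_right _ _).trans hN)) (fun p hp => hp)
  obtain ⟨-, δ, K', hδ, hE1⟩ := Pool.Agent.SelDeg2.p_E1
    (Pool.Agent.SelDeg2.p_LOC Pool.Agent.SelDeg2.p_TW Pool.Agent.SelDeg2.p_MUL) F a b hF
  refine Pool.Agent.SelDeg2.meanSquare_of_bounded hF hthin
    (K := |K| + 1 + |K'| + ∑ p ∈ range (Q + 1), ‖a p‖) (fun p hp hpE => ?_)
  have hS0 : 0 ≤ ∑ p ∈ range (Q + 1), ‖a p‖ := Finset.sum_nonneg fun _ _ => norm_nonneg _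
  by_cases hco : p.Coprime Q
  · have hex : ∃ N : ℕ, M ≤ N ∧ (p : ℝ) ≤ YY B N ∧ ¬ Act a r B N p := by
      by_contra hcon
      push Not at hcon
      exact hpE ⟨hp, hcon⟩
    obtain ⟨N, hN, hpY, hna⟩ := hex
    have h1 : ‖HH a p 1‖ ≤ K := hK N ((le_max_left _ _).trans hN) p hp hco hpY hna
    have h2 : ‖HH a p 1 - (a p - 1)‖ ≤ |K'| := by
      refine (hE1 p hp).trans ?_
      have h3 : (p : ℝ) ^ (-δ) ≤ 1 := by
        apply Real.rpow_le_one_of_one_le_of_nonpos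
        · exact_mod_cast hp.one_lt.le
        · linarith
      have h4 : 0 ≤ (p : ℝ) ^ (-δ) := Real.rpow_nonneg (Nat.cast_nonneg _) _
      calc K' * (p : ℝ) ^ (-δ) ≤ |K'| * (p : ℝ) ^ (-δ) :=
            mul_le_mul_of_nonneg_right (le_abs_self _) h4
        _ ≤ |K'| * 1 := mul_le_mul_of_nonneg_left h3 (abs_nonneg _)
        _ = |K'| := mul_one _
    have h5 : a p = HH a p 1 - (HH a p 1 - (a p - 1)) + 1 := by ring
    have h6 : ‖a p‖ ≤ ‖HH a p 1‖ + ‖HH a p 1 - (a p - 1)‖ + 1 := by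
      conv_lhs => rw [h5]
      refine (norm_add_le _ _).trans ?_
      rw [norm_one]
      linarith [norm_sub_le (HH a p 1) (HH a p 1 - (a p - 1))]
    linarith [le_abs_self K]
  · have hdvd : p ∣ Q := by
      by_contra hnd
      exact hco ((Nat.Prime.coprime_iff_not_dvd hp).mpr hnd)
    have hle : p ≤ Q := Nat.le_of_dvd (by omega) hdvd
    have h1 : ‖a p‖ ≤ ∑ p ∈ range (Q + 1), ‖a p‖ :=
      Finset.single_le_sum (f := fun p => ‖a p‖) (fun _ _ => norm_nonneg _)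
        (Finset.mem_range.mpr (by omega))
    linarith [abs_nonneg K, abs_nonneg K']

end Pool.Agent.SelQ
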