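import Pool.Agent.SelQ.TargetsD

set_option autoImplicit false

open Finset

namespace Pool.Agent.SelQ

noncomputable section

namespace DEC_

lemma EB_congr (π π' : ℕ → ℝ) (Q : Finset ℕ) (F : Finset ℕ → ℝ) (h : ∀ p ∈ Q, π p = π' p) :
    EB π Q F = EB π' Q F := by
  unfold EB
  refine Finset.sum_congr rfl (fun B hB => ?_)
  have hB' := Finset.mem_powerset.1 hB
  have e1 : ∏ p ∈ B, π p = ∏ p ∈ B, π' p := Finset.prod_congr rfl (fun p hp => h p (hB' hp))
  have e2 : ∏ p ∈ Q \ B, (1 - π p) = ∏ p ∈ Q \ B, (1 - π' p) :=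
    Finset.prod_congr rfl (fun p hp => by rw [h p (Finset.sdiff_subset hp)])
  rw [e1, e2]

lemma ex_inter (Q P : Finset ℕ) (n : ℕ) (h : P ⊆ Q) : ex Q n ∩ P = ex P n := by
  ext p
  simp only [ex, Finset.mem_inter, Finset.mem_filter]
  constructor
  · rintro ⟨⟨_, h1⟩, h2⟩
    exact ⟨h2, h1⟩
  · rintro ⟨h1, h2⟩
    exact ⟨⟨h h1, h2⟩, h1⟩

lemma term_nonneg (c : ℕ → ℝ) (hc : MF c) (η : ℝ) (k n : ℕ) :
    0 ≤ c n * c (n + k) * (n : ℝ) ^ (-1 - η) :=
  mul_nonneg (mul_nonneg (hc.nn _) (hc.nn _)) (Real.rpow_nonneg (Nat.cast_nonneg _) _)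

lemma term_zero (c : ℕ → ℝ) (η : ℝ) (hη : 0 < η) (k : ℕ) :
    c 0 * c (0 + k) * ((0 : ℕ) : ℝ) ^ (-1 - η) = 0 := by
  rw [Nat.cast_zero, Real.zero_rpow (by linarith), mul_zero]

/-- The mass of the window. -/
lemma mass (c : ℕ → ℝ) (η : ℝ) (π : ℕ → ℝ) (P : Finset ℕ) (R : ℕ) (u : ℝ)
    (h0 : ∀ p ∈ P, 0 ≤ wc c η p) (hw : ∀ p ∈ P, wc c η p ≤ 2 * π p) :
    ∑ S ∈ win R u P, ∏ p ∈ S, wc c η p ≤ 2 ^ R * KK π P R u := by
  unfold KK
  rw [Finset.mul_sum]
  refine Finset.sum_le_sum (fun S hS => ?_)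
  have hS1 : S ∈ P.powersetCard R := by
    unfold win at hS
    exact (Finset.mem_filter.1 hS).1
  obtain ⟨hS2, hS3⟩ := Finset.mem_powersetCard.1 hS1
  calc ∏ p ∈ S, wc c η p ≤ ∏ p ∈ S, (2 * π p) :=
        Finset.prod_le_prod (fun p hp => h0 p (hS2 hp)) (fun p hp => hw p (hS2 hp))
    _ = 2 ^ R * ∏ p ∈ S, π p := by
        rw [Finset.prod_mul_distrib, Finset.prod_const, hS3]

/-- The probability of the bad integers. -/
lemma badmass (hLAW : T_LAW) (hFAI : T_FAI) (w : ℕ → ℝ) (hw : WF w) (G : ℕ)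
    (P : ℕ → Finset ℕ) (π : ℕ → ℝ) (bad : ℕ → Finset ℕ → Prop)
    (hpr : ∀ i < G, ∀ p ∈ P i, p.Prime) (hπ : ∀ p, 0 ≤ π p ∧ π p ≤ 1)
    (hπw : ∀ i < G, ∀ p ∈ P i, π p = pr w p)
    (hdis : ∀ i < G, ∀ j < G, i ≠ j → Disjoint (P i) (P j))
    (hbad : ∀ i < G, EB π (P i) (fun B => open Classical in if bad i B then 1 else 0) ≤ 1 / 64) :
    ∑' n : ℕ, (open Classical in
      if G ≤ 2 * ((range G).filter (fun i => bad i (ex (P i) n))).card then w n else 0) ≤
      (1 / 4) ^ G * ∑' n : ℕ, w n := by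
  classical
  set Q := (range G).biUnion P with hQ
  set F : Finset ℕ → ℝ := fun B =>
    if G ≤ 2 * ((range G).filter (fun i => bad i (B ∩ P i))).card then 1 else 0 with hF
  have h1 := hLAW w hw Q (by
    intro p hp
    obtain ⟨i, hi, hpi⟩ := Finset.mem_biUnion.1 hp
    exact hpr i (Finset.mem_range.1 hi) p hpi) F
  have h2 : EB (pr w) Q F = EB π Q F := by
    refine EB_congr _ _ _ _ ?_
    intro p hp
    obtain ⟨i, hi, hpi⟩ := Finset.mem_biUnion.1 hp
    exact (hπw i (Finset.mem_range.1 hi) p hpi).symm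
  have h3 : EB π Q F ≤ (1 / 4) ^ G := by
    have h := hFAI π G P bad hπ hdis hbad
    refine le_trans (le_of_eq ?_) h
    congr 1
  have h4 : ∀ n : ℕ, (if G ≤ 2 * ((range G).filter (fun i => bad i (ex (P i) n))).card
      then w n else 0) = w n * F (ex Q n) := by
    intro n
    have h5 : (range G).filter (fun i => bad i (ex (P i) n)) =
        (range G).filter (fun i => bad i (ex Q n ∩ P i)) := by
      refine Finset.filter_congr (fun i hi => ?_)
      rw [ex_inter Q (P i) n (Finset.subset_biUnion_of_mem P hi)]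
    simp only [hF]
    rw [h5]
    split_ifs <;> simp
  have h6 : ∑' n : ℕ, (if G ≤ 2 * ((range G).filter (fun i => bad i (ex (P i) n))).card
      then w n else 0) ≤ (1 / 4) ^ G * ∑' n : ℕ, w n := by
    rw [tsum_congr h4, h1, h2, mul_comm]
    exact mul_le_mul_of_nonneg_right h3 (tsum_nonneg hw.nn)
  refine le_trans (le_of_eq ?_) h6
  refine tsum_congr (fun n => ?_)
  congr

/-- The counting part. -/
lemma core (hLAW : T_LAW) (hFAI : T_FAI) (hUNI : T_UNI) (hPAI : T_PAI)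
    (hEXC : T_EXC) (hWCP : T_WCP) (c : ℕ → ℝ) (hc : MF c) (η : ℝ) (hη0 : 0 < η) (hη1 : η ≤ 1)
    (G : ℕ) (P : ℕ → Finset ℕ) (R : ℕ → ℕ) (u : ℕ → ℝ) (π : ℕ → ℝ) (A : ℝ) (hA : 0 < A)
    (hpr : ∀ i < G, ∀ p ∈ P i, p.Prime) (hπ : ∀ p, 0 ≤ π p ∧ π p ≤ 1)
    (hπw : ∀ i < G, ∀ p ∈ P i, π p = pr (wc c η) p)
    (hw2 : ∀ i < G, ∀ p ∈ P i, wc c η p ≤ 2 * π p)
    (hdis : ∀ i < G, ∀ j < G, i ≠ j → Disjoint (P i) (P j))
    (hκ : ∀ i < G, 2 ^ (R i) * A ≤ KK π (P i) (R i) (u i))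
    (hbad : ∀ i < G, EB π (P i) (fun B => open Classical in
      if ((win (R i) (u i) B).card : ℝ) < KK π (P i) (R i) (u i) / 2 then 1 else 0) ≤ 1 / 64)
    (k : ℕ) (hk : 1 ≤ k) :
    ∑' n : ℕ, c n * c (n + k) * (n : ℝ) ^ (-1 - η) ≤
      (2 * (1 + k) * (1 / 2) ^ G + G * (96 * (1 + k : ℝ) ^ 3 / A)) * DD c η := by
  classical
  obtain ⟨hWF, hSM, -⟩ := hWCP c hc
  have hwf := hWF η hη0
  have hsm := hSM η hη0 k
  set κ : ℕ → ℝ := fun i => KK π (P i) (R i) (u i) with hκd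
  have hκ0 : ∀ i < G, 0 < κ i := fun i hi =>
    lt_of_lt_of_le (mul_pos (pow_pos two_pos _) hA) (hκ i hi)
  set bad : ℕ → Finset ℕ → Prop := fun i B => ((win (R i) (u i) B).card : ℝ) < κ i / 2
    with hbd
  obtain ⟨badn, hbn⟩ : ∃ b : ℕ → Prop, ∀ n, b n ↔
    G ≤ 2 * ((range G).filter (fun i => bad i (ex (P i) n))).card := ⟨fun n => _, fun n => Iff.rfl⟩
  have hD0 : 0 ≤ DD c η := tsum_nonneg hwf.nn
  -- the bad integers
  have hB1 : ∑' n : ℕ, (open Classical in if badn n then wc c η n else 0) ≤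
      ((1 / 2) ^ G) ^ 2 * DD c η := by
    have h := badmass hLAW hFAI (wc c η) hwf G P π bad hpr hπ hπw hdis (by
      intro i hi
      refine le_trans (le_of_eq ?_) (hbad i hi)
      rfl)
    have e : ((1 / 2 : ℝ) ^ G) ^ 2 = (1 / 4) ^ G := by
      rw [← pow_mul, mul_comm, pow_mul]
      norm_num
    rw [e]
    refine le_trans (le_of_eq ?_) h
    refine tsum_congr (fun n => ?_)
    by_cases hb : badn n
    · rw [if_pos hb, if_pos ((hbn n).1 hb)]
    · rw [if_neg hb, if_neg (fun h => hb ((hbn n).2 h))]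
  have hE := hEXC c hc η hη0 hη1 badn ((1 / 2) ^ G) (by positivity) hB1 k hk
  -- the windows
  have hU : ∀ i, ∃ Δ : Finset ℕ, i < G →
      (∀ n : ℕ, n ≠ 0 → fd Δ n = (win (R i) (u i) (ex (P i) n)).card) ∧
      (∀ w : ℕ → ℝ, WF w → ∑ d ∈ Δ, w d = ∑ S ∈ win (R i) (u i) (P i), ∏ p ∈ S, w p) ∧
      ∀ d ∈ Δ, Real.exp (u i) ≤ d ∧ (d : ℝ) < Real.exp (u i + 1) := by
    intro i
    by_cases hi : i < G
    · obtain ⟨Δ, hΔ⟩ := hUNI (P i) (R i) (u i) (hpr i hi)
      exact ⟨Δ, fun _ => hΔ⟩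
    · exact ⟨∅, fun h => absurd h hi⟩
  choose Δ hΔ using hU
  have hPi : ∀ i < G, ∑' n : ℕ, (open Classical in
      if κ i / 2 ≤ fd (Δ i) n ∧ κ i / 2 ≤ fd (Δ i) (n + k) then
      c n * c (n + k) * (n : ℝ) ^ (-1 - η) else 0) ≤
      96 * (1 + k : ℝ) ^ 3 / A * DD c η := by
    intro i hi
    obtain ⟨h1, h2, h3⟩ := hΔ i hi
    have hκi := hκ0 i hi
    have h := hPAI c hc η hη0 hη1 (Δ i) (u i) h3 (κ i / 2) k (by linarith) hk
    refine le_trans h ?_
    have hm : ∑ d ∈ Δ i, wc c η d ≤ 2 ^ (R i) * κ i := by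
      rw [h2 _ hwf]
      exact mass c η π (P i) (R i) (u i) (fun p _ => hwf.nn p) (hw2 i hi)
    refine mul_le_mul_of_nonneg_right ?_ hD0
    calc 24 * (1 + k : ℝ) ^ 3 / (κ i / 2) ^ 2 * ∑ d ∈ Δ i, wc c η d
        ≤ 24 * (1 + k : ℝ) ^ 3 / (κ i / 2) ^ 2 * (2 ^ (R i) * κ i) :=
          mul_le_mul_of_nonneg_left hm (by positivity)
      _ = 96 * (1 + k : ℝ) ^ 3 * (2 ^ (R i) / κ i) := by
          field_simp
          ring
      _ ≤ 96 * (1 + k : ℝ) ^ 3 * (1 / A) := by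
          refine mul_le_mul_of_nonneg_left ?_ (by positivity)
          rw [div_le_div_iff₀ hκi hA, one_mul]
          exact hκ i hi
      _ = 96 * (1 + k : ℝ) ^ 3 / A := by ring
  -- pointwise
  have hpt : ∀ n : ℕ, c n * c (n + k) * (n : ℝ) ^ (-1 - η) ≤
      (open Classical in if badn n ∨ badn (n + k) then
        c n * c (n + k) * (n : ℝ) ^ (-1 - η) else 0) +
      ∑ i ∈ range G, (open Classical in
        if κ i / 2 ≤ fd (Δ i) n ∧ κ i / 2 ≤ fd (Δ i) (n + k) then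
        c n * c (n + k) * (n : ℝ) ^ (-1 - η) else 0) := by
    intro n
    have htn := term_nonneg c hc η k n
    have hs0 : 0 ≤ ∑ i ∈ range G, (open Classical in
        if κ i / 2 ≤ fd (Δ i) n ∧ κ i / 2 ≤ fd (Δ i) (n + k) then
        c n * c (n + k) * (n : ℝ) ^ (-1 - η) else 0) := by
      refine Finset.sum_nonneg (fun i _ => ?_)
      split_ifs
      · exact htn
      · exact le_rfl
    rcases Nat.eq_zero_or_pos n with hn | hn
    · subst hn
      rw [term_zero c η hη0 k]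
      simp
    · by_cases hb : badn n ∨ badn (n + k)
      · rw [if_pos hb]
        linarith
      · rw [if_neg hb, zero_add]
        push Not at hb
        obtain ⟨hb1, hb2⟩ := hb
        have hex : ∃ i < G, ¬ bad i (ex (P i) n) ∧ ¬ bad i (ex (P i) (n + k)) := by
          by_contra hcon
          push Not at hcon
          have hsub : range G ⊆ (range G).filter (fun i => bad i (ex (P i) n)) ∪
              (range G).filter (fun i => bad i (ex (P i) (n + k))) := by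
            intro i hi
            rw [Finset.mem_union, Finset.mem_filter, Finset.mem_filter]
            by_cases h : bad i (ex (P i) n)
            · exact Or.inl ⟨hi, h⟩
            · exact Or.inr ⟨hi, hcon i (Finset.mem_range.1 hi) h⟩
          have h1 := Finset.card_le_card hsub
          have h2 := Finset.card_union_le ((range G).filter (fun i => bad i (ex (P i) n)))
            ((range G).filter (fun i => bad i (ex (P i) (n + k))))
          rw [Finset.card_range] at h1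
          rw [hbn, not_le] at hb1 hb2
          omega
        obtain ⟨i, hi, h1, h2⟩ := hex
        have hi' := hΔ i hi
        have e1 : κ i / 2 ≤ fd (Δ i) n := by
          rw [hi'.1 n (by omega)]
          simpa only [hbd, not_lt] using h1
        have e2 : κ i / 2 ≤ fd (Δ i) (n + k) := by
          rw [hi'.1 (n + k) (by omega)]
          simpa only [hbd, not_lt] using h2
        refine le_trans ?_ (Finset.single_le_sum (f := fun i => (open Classical in
          if κ i / 2 ≤ fd (Δ i) n ∧ κ i / 2 ≤ fd (Δ i) (n + k) then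
          c n * c (n + k) * (n : ℝ) ^ (-1 - η) else 0)) (fun j _ => ?_)
          (Finset.mem_range.2 hi))
        · rw [if_pos ⟨e1, e2⟩]
        · split_ifs
          · exact htn
          · exact le_rfl
  have hs1 : ∀ (p : ℕ → Prop) [DecidablePred p], Summable (fun n : ℕ => (if p n then
      c n * c (n + k) * (n : ℝ) ^ (-1 - η) else 0)) := by
    intro p _
    refine Summable.of_nonneg_of_le (fun n => ?_) (fun n => ?_) hsm
    · split_ifs
      · exact term_nonneg c hc η k n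
      · exact le_rfl
    · split_ifs
      · exact le_rfl
      · exact term_nonneg c hc η k n
  have hs2 : Summable (fun n : ℕ => ∑ i ∈ range G, (open Classical in
        if κ i / 2 ≤ fd (Δ i) n ∧ κ i / 2 ≤ fd (Δ i) (n + k) then
        c n * c (n + k) * (n : ℝ) ^ (-1 - η) else 0)) :=
    summable_sum (fun i _ => hs1 _)
  calc ∑' n : ℕ, c n * c (n + k) * (n : ℝ) ^ (-1 - η)
      ≤ ∑' n : ℕ, ((open Classical in if badn n ∨ badn (n + k) then
        c n * c (n + k) * (n : ℝ) ^ (-1 - η) else 0) +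
      ∑ i ∈ range G, (open Classical in
        if κ i / 2 ≤ fd (Δ i) n ∧ κ i / 2 ≤ fd (Δ i) (n + k) then
        c n * c (n + k) * (n : ℝ) ^ (-1 - η) else 0)) :=
        Summable.tsum_le_tsum hpt hsm ((hs1 _).add hs2)
    _ = (∑' n : ℕ, (open Classical in if badn n ∨ badn (n + k) then
        c n * c (n + k) * (n : ℝ) ^ (-1 - η) else 0)) +
      ∑' n : ℕ, ∑ i ∈ range G, (open Classical in
        if κ i / 2 ≤ fd (Δ i) n ∧ κ i / 2 ≤ fd (Δ i) (n + k) then
        c n * c (n + k) * (n : ℝ) ^ (-1 - η) else 0) := Summable.tsum_add (hs1 _) hs2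
    _ = (∑' n : ℕ, (open Classical in if badn n ∨ badn (n + k) then
        c n * c (n + k) * (n : ℝ) ^ (-1 - η) else 0)) +
      ∑ i ∈ range G, ∑' n : ℕ, (open Classical in
        if κ i / 2 ≤ fd (Δ i) n ∧ κ i / 2 ≤ fd (Δ i) (n + k) then
        c n * c (n + k) * (n : ℝ) ^ (-1 - η) else 0) := by
        rw [Summable.tsum_finsetSum (fun i _ => hs1 _)]
    _ ≤ 2 * (1 + k) * (1 / 2) ^ G * DD c η +
        ∑ i ∈ range G, 96 * (1 + k : ℝ) ^ 3 / A * DD c η :=
        add_le_add hE (Finset.sum_le_sum (fun i hi => hPi i (Finset.mem_range.1 hi)))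
    _ = (2 * (1 + k) * (1 / 2) ^ G + G * (96 * (1 + k : ℝ) ^ 3 / A)) * DD c η := by
        rw [Finset.sum_const, Finset.card_range, nsmul_eq_mul]
        ring

lemma Rm_le (T : ℝ) (hT : 3 ≤ T) : (Rm T : ℝ) ≤ 13 * Real.log T := by
  have hl : 1 ≤ Real.log T := by
    rw [Real.le_log_iff_exp_le (by linarith)]
    exact le_trans Real.exp_one_lt_d9.le (by linarith)
  have h2 := Real.log_two_gt_d9
  have h1 : Real.logb 2 T ≤ Real.log T * (1 / 0.69) := by
    unfold Real.logb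
    rw [div_eq_mul_one_div]
    refine mul_le_mul_of_nonneg_left ?_ (by linarith)
    exact one_div_le_one_div_of_le (by norm_num) (by linarith)
  have h3 : 0 ≤ 8 * Real.logb 2 T := by
    have := Real.logb_nonneg (b := 2) (by norm_num) (x := T) (by linarith)
    linarith
  have h4 := (Nat.ceil_lt_add_one h3).le
  unfold Rm
  refine le_trans h4 ?_
  norm_num at h1 ⊢
  linarith

lemma Rm_pow (T : ℝ) (hT : 3 ≤ T) : (1 / 2 : ℝ) ^ Rm T ≤ 1 / T ^ 8 := by
  have hT0 : (0 : ℝ) < T := by linarith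
  have h1 : 8 * Real.logb 2 T ≤ (Rm T : ℝ) := Nat.le_ceil _
  have h2 : T ^ 8 ≤ (2 : ℝ) ^ Rm T := by
    have h3 : (2 : ℝ) ^ (8 * Real.logb 2 T) = T ^ 8 := by
      rw [mul_comm, Real.rpow_mul (by norm_num), Real.rpow_logb (by norm_num) (by norm_num) hT0]
      exact_mod_cast Real.rpow_natCast T 8
    rw [← h3, ← Real.rpow_natCast]
    exact Real.rpow_le_rpow_of_exponent_le (by norm_num) h1
  rw [one_div, inv_pow, one_div]
  exact inv_anti₀ (by positivity) h2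

end DEC_

open DEC_ in
theorem p_DEC (hLAW : T_LAW) (hFAI : T_FAI) (hCLS : T_CLS) (hUNI : T_UNI) (hPAI : T_PAI)
    (hEXC : T_EXC) (hSPL : T_SPL) (hWCP : T_WCP) : T_DEC := by
  classical
  intro c hc
  obtain ⟨hWF, hSM, p₀, hp₀⟩ := hWCP c hc
  obtain ⟨T₁, hT₁, hcls⟩ := hCLS
  refine ⟨p₀, max T₁ 5, 10 ^ 7, le_trans hT₁ (le_max_left _ _), by norm_num, ?_⟩
  intro T hT hmass k hk
  have hTa : T₁ ≤ T := le_trans (le_max_left _ _) hT
  have hT5 : (5 : ℝ) ≤ T := le_trans (le_max_right _ _) hT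
  have hT0 : (0 : ℝ) < T := by linarith
  set η : ℝ := 1 / T with hη
  have hη0 : 0 < η := by positivity
  have hη1 : η ≤ 1 := by
    rw [hη, div_le_one hT0]
    linarith
  have hwf := hWF η hη0
  have hl1 : 1 ≤ Real.log T := by
    rw [Real.le_log_iff_exp_le hT0]
    exact le_trans Real.exp_one_lt_d9.le (by linarith)
  set w : ℕ → ℝ := wc c η with hw
  set π : ℕ → ℝ := fun p => if p.Prime ∧ p₀ ≤ p then pr w p else 0 with hπd
  have hprb : ∀ p : ℕ, p.Prime → p₀ ≤ p → 0 ≤ pr w p ∧ pr w p ≤ 1 ∧ w p ≤ 2 * pr w p := by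
    intro p hp hpp
    obtain ⟨h1, h2, h3⟩ := hp₀ η hη0 p hp hpp
    have h0 : 0 ≤ w p := hwf.nn p
    have hS : 0 < ∑' j : ℕ, w (p ^ j) := by linarith
    unfold pr
    refine ⟨div_nonneg h0 hS.le, ?_, ?_⟩
    · rw [div_le_one hS]
      linarith
    · rw [← mul_div_assoc, le_div_iff₀ hS]
      nlinarith
  have hπ : ∀ p, 0 ≤ π p ∧ π p ≤ 1 := by
    intro p
    simp only [hπd]
    split_ifs with h
    · exact ⟨(hprb p h.1 h.2).1, (hprb p h.1 h.2).2.1⟩
    · norm_num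
  have hQ : ∀ p ∈ PT p₀ T, p.Prime ∧ p₀ ≤ p ∧ Real.log p ≤ T := by
    intro p hp
    unfold PT at hp
    rw [Finset.mem_filter, Finset.mem_range] at hp
    refine ⟨hp.2.1, hp.2.2, ?_⟩
    have hpos : (0 : ℝ) < p := by exact_mod_cast hp.2.1.pos
    rw [Real.log_le_iff_le_exp hpos]
    exact (Nat.le_floor_iff (Real.exp_pos T).le).1 (by omega)
  have hπQ : ∀ p ∈ PT p₀ T, π p = pr w p := by
    intro p hp
    obtain ⟨h1, h2, -⟩ := hQ p hp
    simp only [hπd]
    rw [if_pos ⟨h1, h2⟩]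
  set G := Rm T with hG
  have hG13 : (G : ℝ) ≤ 13 * Real.log T := Rm_le T (by linarith)
  have hG1 : (1 : ℝ) ≤ G := by
    have h1 : 8 * Real.logb 2 T ≤ (Rm T : ℝ) := Nat.le_ceil _
    have h2 : 1 ≤ Real.logb 2 T := by
      rw [Real.le_logb_iff_rpow_le (by norm_num) hT0, Real.rpow_one]
      linarith
    rw [hG]
    linarith
  set M : ℝ := 1024 * (G : ℝ) ^ 2 with hM
  have hM0 : 0 ≤ M := by positivity
  have hsumπ : (G : ℝ) * (M + 1) ≤ ∑ p ∈ PT p₀ T, π p := by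
    have h1 : ∑ p ∈ PT p₀ T, w p ≤ 2 * ∑ p ∈ PT p₀ T, π p := by
      rw [Finset.mul_sum]
      refine Finset.sum_le_sum (fun p hp => ?_)
      rw [hπQ p hp]
      exact (hprb p (hQ p hp).1 (hQ p hp).2.1).2.2
    have h2 : (G : ℝ) * (M + 1) ≤ 1025 * (13 * Real.log T) ^ 3 := by
      have h3 : (G : ℝ) ^ 3 ≤ (13 * Real.log T) ^ 3 :=
        pow_le_pow_left₀ (by linarith) hG13 3
      have h4 : (G : ℝ) ≤ G ^ 3 := by
        nlinarith [mul_nonneg (by linarith : (0 : ℝ) ≤ G - 1) (by linarith : (0 : ℝ) ≤ G),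
          mul_nonneg (mul_nonneg (by linarith : (0 : ℝ) ≤ G - 1) (by linarith : (0 : ℝ) ≤ G))
            (by linarith : (0 : ℝ) ≤ G)]
      rw [hM]
      nlinarith
    have h5 : 0 ≤ Real.log T ^ 3 := by positivity
    have h6 : 1025 * (13 * Real.log T) ^ 3 = 2251925 * Real.log T ^ 3 := by ring
    have h7 : (10 : ℝ) ^ 7 * Real.log T ^ 3 ≤ ∑ p ∈ PT p₀ T, w p := hmass
    rw [h6] at h2
    linarith
  obtain ⟨P, hPQ, hdis, hPM⟩ := hSPL (PT p₀ T) π G M hM0 hπ hsumπ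
  have hC : ∀ i, ∃ (R : ℕ) (u : ℝ), i < G → (2 ^ R * T ^ 10 ≤ KK π (P i) R u ∧
      EB π (P i) (fun B => open Classical in
      if ((win R u B).card : ℝ) < KK π (P i) R u / 2 then 1 else 0) ≤ 1 / 64) := by
    intro i
    by_cases hi : i < G
    · obtain ⟨R, u, h⟩ := hcls T hTa π (P i) hπ (by
        intro p hp
        obtain ⟨h1, -, h3⟩ := hQ p (hPQ i hi hp)
        exact ⟨h1.one_lt.le, h3⟩) (hPM i hi)
      exact ⟨R, u, fun _ => h⟩
    · exact ⟨0, 0, fun h => absurd h hi⟩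
  choose R u hRu using hC
  have hcore := core hLAW hFAI hUNI hPAI hEXC hWCP c hc η hη0 hη1 G P R u π (T ^ 10)
    (by positivity) (fun i hi p hp => (hQ p (hPQ i hi hp)).1) hπ
    (fun i hi p hp => hπQ p (hPQ i hi hp))
    (fun i hi p hp => by
      rw [hπQ p (hPQ i hi hp)]
      exact (hprb p (hQ p (hPQ i hi hp)).1 (hQ p (hPQ i hi hp)).2.1).2.2)
    hdis (fun i hi => (hRu i hi).1) (fun i hi => (hRu i hi).2) k hk
  refine le_trans hcore ?_
  have hD0 : 0 ≤ DD c η := tsum_nonneg hwf.nn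
  refine mul_le_mul_of_nonneg_right ?_ hD0
  have hk1 : (1 : ℝ) ≤ 1 + k := by
    have : (0 : ℝ) ≤ k := Nat.cast_nonneg k
    linarith
  have hk3 : (1 + k : ℝ) ≤ (1 + k : ℝ) ^ 3 := by
    nlinarith [mul_nonneg (by linarith : (0 : ℝ) ≤ (1 + k : ℝ) - 1)
      (by linarith : (0 : ℝ) ≤ (1 + k : ℝ)), mul_nonneg (mul_nonneg (by linarith : (0 : ℝ) ≤
        (1 + k : ℝ) - 1) (by linarith : (0 : ℝ) ≤ (1 + k : ℝ))) (by linarith : (0 : ℝ) ≤
        (1 + k : ℝ))]
  have hr : T ^ (-4 : ℝ) = 1 / T ^ 4 := by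
    rw [Real.rpow_neg hT0.le, one_div]
    congr 1
    exact_mod_cast Real.rpow_natCast T 4
  rw [hr]
  have hG8 : (1 / 2 : ℝ) ^ G ≤ 1 / T ^ 8 := Rm_pow T (by linarith)
  have hlT : Real.log T ≤ T := by
    have := Real.log_le_sub_one_of_pos hT0
    linarith
  have hGT : (G : ℝ) ≤ 13 * T := by linarith
  calc 2 * (1 + k : ℝ) * (1 / 2) ^ G + G * (96 * (1 + k : ℝ) ^ 3 / T ^ 10)
      ≤ 2 * (1 + k : ℝ) ^ 3 * (1 / T ^ 8) + 13 * T * (96 * (1 + k : ℝ) ^ 3 / T ^ 10) := by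
        refine add_le_add ?_ (mul_le_mul_of_nonneg_right hGT (by positivity))
        exact mul_le_mul (by linarith) hG8 (by positivity) (by positivity)
    _ = (1 + k : ℝ) ^ 3 * (1 / T ^ 4) * (2 / T ^ 4 + 1248 / T ^ 5) := by
        field_simp
        ring
    _ ≤ (1 + k : ℝ) ^ 3 * (1 / T ^ 4) * 1 := by
        refine mul_le_mul_of_nonneg_left ?_ (by positivity)
        have h4 : (5 : ℝ) ^ 4 ≤ T ^ 4 := pow_le_pow_left₀ (by norm_num) hT5 4
        have h5 : (5 : ℝ) ^ 5 ≤ T ^ 5 := pow_le_pow_left₀ (by norm_num) hT5 5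
        have e4 : 2 / T ^ 4 ≤ 2 / 5 ^ 4 :=
          div_le_div_of_nonneg_left (by norm_num) (by norm_num) h4
        have e5 : 1248 / T ^ 5 ≤ 1248 / 5 ^ 5 :=
          div_le_div_of_nonneg_left (by norm_num) (by norm_num) h5
        norm_num at e4 e5
        linarith
    _ = (1 + k : ℝ) ^ 3 * (1 / T ^ 4) := mul_one _

end

end Pool.Agent.SelQ
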