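import Pool.Agent.SelQ.TargetsE

/-!
# Degree 2 without the mean square bound: block DIA
-/

set_option autoImplicit false

open Finset

namespace Pool.Agent.SelQ

namespace DIA_

/-- `x ^ (1 + η) * exp (- a x)` is bounded. -/
lemma bound (x η a : ℝ) (hx : 1 ≤ x) (hη1 : η ≤ 1) (ha : 0 < a) :
    x ^ (1 + η) * Real.exp (-(a * x)) ≤ 2 / a ^ 2 := by
  have hx0 : 0 < x := by linarith
  have h1 : x ^ (1 + η) ≤ x ^ 2 := by
    have : x ^ (1 + η) ≤ x ^ (2 : ℝ) := Real.rpow_le_rpow_of_exponent_le hx (by linarith)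
    simpa using this
  have h2 : (a * x) ^ 2 / 2 ≤ Real.exp (a * x) := by
    have := Real.quadratic_le_exp_of_nonneg (x := a * x) (by positivity)
    nlinarith [mul_pos ha hx0]
  have h3 : x ^ 2 * Real.exp (-(a * x)) ≤ 2 / a ^ 2 := by
    rw [Real.exp_neg, ← div_eq_mul_inv, div_le_div_iff₀ (Real.exp_pos _) (by positivity)]
    nlinarith
  calc x ^ (1 + η) * Real.exp (-(a * x)) ≤ x ^ 2 * Real.exp (-(a * x)) :=
        mul_le_mul_of_nonneg_right h1 (Real.exp_pos _).le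
    _ ≤ 2 / a ^ 2 := h3

/-- One frequency. -/
lemma one (m η δ : ℝ) (hm : 1 ≤ m) (hη : 0 < η) (hη1 : η ≤ 1) (hδ : 0 < δ)
    (hδm : δ ≤ 1 / (2 * m)) :
    Real.exp (-(4 * Real.pi)) / 4 * m ^ (-1 - η) ≤
      ∫ y in δ..1, y ^ η * Real.exp (-(4 * Real.pi * m * y)) := by
  have hm0 : 0 < m := by linarith
  have hab : 1 / (2 * m) ≤ 1 / m := by
    apply one_div_le_one_div_of_le hm0
    linarith
  have hb1 : 1 / m ≤ 1 := by
    rw [div_le_one hm0]
    exact hm
  have ha0 : 0 < 1 / (2 * m) := by positivity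
  have hcont : Continuous (fun y : ℝ => y ^ η * Real.exp (-(4 * Real.pi * m * y))) := by
    apply Continuous.mul
    · exact Real.continuous_rpow_const hη.le
    · fun_prop
  have h1 : ∫ y in (1 / (2 * m))..(1 / m), y ^ η * Real.exp (-(4 * Real.pi * m * y)) ≤
      ∫ y in δ..1, y ^ η * Real.exp (-(4 * Real.pi * m * y)) := by
    refine intervalIntegral.integral_mono_interval hδm hab hb1 ?_ (hcont.intervalIntegrable _ _)
    filter_upwards [MeasureTheory.ae_restrict_mem measurableSet_Ioc] with y hy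
    have : 0 < y := lt_trans hδ hy.1
    simp only [Pi.zero_apply]
    positivity
  have h2 : ∫ y in (1 / (2 * m))..(1 / m),
      ((1 / (2 * m)) ^ η * Real.exp (-(4 * Real.pi))) ≤
      ∫ y in (1 / (2 * m))..(1 / m), y ^ η * Real.exp (-(4 * Real.pi * m * y)) := by
    refine intervalIntegral.integral_mono_on hab
      (continuous_const.intervalIntegrable _ _) (hcont.intervalIntegrable _ _) ?_
    intro y hy
    have hy0 : 0 < y := lt_of_lt_of_le ha0 hy.1
    refine mul_le_mul ?_ ?_ (Real.exp_pos _).le (by positivity)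
    · exact Real.rpow_le_rpow ha0.le hy.1 hη.le
    · apply Real.exp_le_exp.2
      have h3 : m * y ≤ 1 := by
        have := mul_le_mul_of_nonneg_left hy.2 hm0.le
        rwa [mul_one_div_cancel hm0.ne'] at this
      have hpi := Real.pi_pos
      nlinarith
  rw [intervalIntegral.integral_const, smul_eq_mul] at h2
  have h4 : 1 / m - 1 / (2 * m) = 1 / (2 * m) := by
    field_simp
    norm_num
  rw [h4] at h2
  have h5 : Real.exp (-(4 * Real.pi)) / 4 * m ^ (-1 - η) ≤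
      1 / (2 * m) * ((1 / (2 * m)) ^ η * Real.exp (-(4 * Real.pi))) := by
    have h6 : 1 / (2 * m) * (1 / (2 * m)) ^ η = (1 / (2 * m)) ^ (η + 1) := by
      rw [Real.rpow_add_one ha0.ne', mul_comm]
    have h7 : (1 / (2 * m)) ^ (η + 1) = 1 / ((2 : ℝ) ^ (η + 1) * m ^ (η + 1)) := by
      rw [Real.div_rpow (by norm_num) (by positivity), Real.one_rpow,
        Real.mul_rpow (by norm_num) hm0.le]
    have h8 : m ^ (-1 - η) = 1 / m ^ (η + 1) := by
      rw [show (-1 - η) = -(η + 1) by ring, Real.rpow_neg hm0.le, one_div]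
    have h9 : (2 : ℝ) ^ (η + 1) ≤ 4 := by
      have : (2 : ℝ) ^ (η + 1) ≤ (2 : ℝ) ^ (2 : ℝ) :=
        Real.rpow_le_rpow_of_exponent_le (by norm_num) (by linarith)
      have h10 : (2 : ℝ) ^ (2 : ℝ) = 4 := by norm_num
      linarith
    have h11 : 0 < m ^ (η + 1) := Real.rpow_pos_of_pos hm0 _
    have h12 : 0 < (2 : ℝ) ^ (η + 1) := Real.rpow_pos_of_pos (by norm_num) _
    rw [← mul_assoc, h6, h7, h8]
    have h13 : 1 / 4 * (1 / m ^ (η + 1)) ≤ 1 / ((2 : ℝ) ^ (η + 1) * m ^ (η + 1)) := by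
      rw [div_mul_div_comm, one_mul]
      apply one_div_le_one_div_of_le (by positivity)
      exact mul_le_mul_of_nonneg_right h9 h11.le
    calc Real.exp (-(4 * Real.pi)) / 4 * (1 / m ^ (η + 1))
        = 1 / 4 * (1 / m ^ (η + 1)) * Real.exp (-(4 * Real.pi)) := by ring
      _ ≤ 1 / ((2 : ℝ) ^ (η + 1) * m ^ (η + 1)) * Real.exp (-(4 * Real.pi)) :=
        mul_le_mul_of_nonneg_right h13 (Real.exp_pos _).le
  linarith

end DIA_

open DIA_ in
/-- The diagonal. -/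
theorem p_DIA : T_DIA := by
  have hc1 : 0 < Real.exp (-(4 * Real.pi)) / 4 := by positivity
  refine ⟨Real.exp (-(4 * Real.pi)) / 4, hc1, ?_⟩
  intro c η hη hη1 hs ε hε
  have hf0 : ‖c 0‖ ^ 2 * ((0 : ℕ) : ℝ) ^ (-1 - η) = 0 := by
    rw [Nat.cast_zero, Real.zero_rpow (by linarith : -1 - η ≠ 0), mul_zero]
  have hs1 : Summable (fun n : ℕ => ‖c (n + 1)‖ ^ 2 * ((n + 1 : ℕ) : ℝ) ^ (-1 - η)) :=
    (summable_nat_add_iff 1).2 hs
  have htsum : ∑' n : ℕ, ‖c n‖ ^ 2 * (n : ℝ) ^ (-1 - η) =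
      ∑' n : ℕ, ‖c (n + 1)‖ ^ 2 * ((n + 1 : ℕ) : ℝ) ^ (-1 - η) := by
    rw [hs.tsum_eq_zero_add, hf0, zero_add]
  have hlim := hs1.hasSum.tendsto_sum_nat
  obtain ⟨N, hN⟩ := (hlim.eventually (lt_mem_nhds (sub_lt_self _
    (div_pos hε hc1)))).exists
  refine ⟨1 / (2 * (N + 1)), by positivity, fun δ hδ hδ0 => ?_⟩
  have hδ1 : δ ≤ 1 := by
    have : (1 : ℝ) / (2 * (N + 1)) ≤ 1 := by
      rw [div_le_one (by positivity)]
      have : (0 : ℝ) ≤ N := Nat.cast_nonneg N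
      linarith
    linarith
  have hpi := Real.pi_pos
  -- summability for `y ≥ δ`
  have hu : Summable (fun n : ℕ => ‖c (n + 1)‖ ^ 2 *
      Real.exp (-(4 * Real.pi * (n + 1) * δ))) := by
    refine Summable.of_nonneg_of_le (fun n => by positivity) (fun n => ?_)
      (hs1.mul_left (2 / (4 * Real.pi * δ) ^ 2))
    have hn1 : (1 : ℝ) ≤ (n : ℝ) + 1 := by
      have : (0 : ℝ) ≤ n := Nat.cast_nonneg n
      linarith
    have hn0 : (0 : ℝ) < (n : ℝ) + 1 := by linarith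
    have h1 := bound ((n : ℝ) + 1) η (4 * Real.pi * δ) hn1 hη1 (by positivity)
    have h2 : ((n : ℝ) + 1) ^ (1 + η) * ((n : ℝ) + 1) ^ (-1 - η) = 1 := by
      rw [← Real.rpow_add hn0, show (1 + η + (-1 - η)) = 0 by ring, Real.rpow_zero]
    push_cast
    calc ‖c (n + 1)‖ ^ 2 * Real.exp (-(4 * Real.pi * (n + 1) * δ))
        = (((n : ℝ) + 1) ^ (1 + η) * Real.exp (-(4 * Real.pi * δ * ((n : ℝ) + 1)))) *
          (‖c (n + 1)‖ ^ 2 * ((n : ℝ) + 1) ^ (-1 - η)) := by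
          rw [show 4 * Real.pi * (n + 1) * δ = 4 * Real.pi * δ * ((n : ℝ) + 1) by ring]
          calc _ = (((n : ℝ) + 1) ^ (1 + η) * ((n : ℝ) + 1) ^ (-1 - η)) *
                (‖c (n + 1)‖ ^ 2 * Real.exp (-(4 * Real.pi * δ * ((n : ℝ) + 1)))) := by
                rw [h2, one_mul]
            _ = _ := by ring
      _ ≤ 2 / (4 * Real.pi * δ) ^ 2 * (‖c (n + 1)‖ ^ 2 * ((n : ℝ) + 1) ^ (-1 - η)) :=
          mul_le_mul_of_nonneg_right h1 (by positivity)
  have hle : ∀ n : ℕ, ∀ y ∈ Set.Icc δ 1, ‖c (n + 1)‖ ^ 2 *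
      Real.exp (-(4 * Real.pi * (n + 1) * y)) ≤ ‖c (n + 1)‖ ^ 2 *
      Real.exp (-(4 * Real.pi * (n + 1) * δ)) := by
    intro n y hy
    refine mul_le_mul_of_nonneg_left (Real.exp_le_exp.2 ?_) (by positivity)
    have h1 : (0 : ℝ) ≤ 4 * Real.pi * (n + 1) := by positivity
    have h2 := mul_le_mul_of_nonneg_left hy.1 h1
    linarith
  have hgc : ContinuousOn (fun y : ℝ => ∑' n : ℕ, ‖c (n + 1)‖ ^ 2 *
      Real.exp (-(4 * Real.pi * (n + 1) * y))) (Set.Icc δ 1) := by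
    refine continuousOn_tsum (fun n => ?_) hu (fun n y hy => ?_)
    · fun_prop
    · rw [Real.norm_of_nonneg (by positivity)]
      exact hle n y hy
  have hrc : Continuous (fun y : ℝ => y ^ η) := Real.continuous_rpow_const hη.le
  have hI : IntervalIntegrable (fun y : ℝ => y ^ η * ∑' n : ℕ, ‖c (n + 1)‖ ^ 2 *
      Real.exp (-(4 * Real.pi * (n + 1) * y))) MeasureTheory.volume δ 1 := by
    apply ContinuousOn.intervalIntegrable
    rw [Set.uIcc_of_le hδ1]
    exact hrc.continuousOn.mul hgc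
  have hterm : ∀ n : ℕ, Continuous (fun y : ℝ => ‖c (n + 1)‖ ^ 2 *
      (y ^ η * Real.exp (-(4 * Real.pi * ((n : ℝ) + 1) * y)))) := by
    intro n
    exact continuous_const.mul (hrc.mul (by fun_prop))
  have h1 : ∫ y in δ..1, ∑ n ∈ Finset.range N, ‖c (n + 1)‖ ^ 2 *
      (y ^ η * Real.exp (-(4 * Real.pi * ((n : ℝ) + 1) * y))) ≤
      ∫ y in δ..1, y ^ η * ∑' n : ℕ, ‖c (n + 1)‖ ^ 2 *
        Real.exp (-(4 * Real.pi * (n + 1) * y)) := by
    refine intervalIntegral.integral_mono_on hδ1 ?_ hI ?_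
    · exact (continuous_finsetSum _ (fun n _ => hterm n)).intervalIntegrable _ _
    · intro y hy
      have hy0 : 0 < y := lt_of_lt_of_le hδ hy.1
      have hsy : Summable (fun n : ℕ => ‖c (n + 1)‖ ^ 2 *
          Real.exp (-(4 * Real.pi * (n + 1) * y))) :=
        Summable.of_nonneg_of_le (fun n => by positivity) (fun n => hle n y hy) hu
      have h2 := hsy.sum_le_tsum (Finset.range N) (fun n _ => by positivity)
      calc ∑ n ∈ Finset.range N, ‖c (n + 1)‖ ^ 2 *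
            (y ^ η * Real.exp (-(4 * Real.pi * ((n : ℝ) + 1) * y)))
          = y ^ η * ∑ n ∈ Finset.range N, ‖c (n + 1)‖ ^ 2 *
            Real.exp (-(4 * Real.pi * (n + 1) * y)) := by
            rw [Finset.mul_sum]
            refine Finset.sum_congr rfl fun n _ => ?_
            ring
        _ ≤ y ^ η * ∑' n : ℕ, ‖c (n + 1)‖ ^ 2 *
            Real.exp (-(4 * Real.pi * (n + 1) * y)) :=
            mul_le_mul_of_nonneg_left h2 (by positivity)
  have h2 : ∫ y in δ..1, ∑ n ∈ Finset.range N, ‖c (n + 1)‖ ^ 2 *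
      (y ^ η * Real.exp (-(4 * Real.pi * ((n : ℝ) + 1) * y))) =
      ∑ n ∈ Finset.range N, ‖c (n + 1)‖ ^ 2 *
        ∫ y in δ..1, y ^ η * Real.exp (-(4 * Real.pi * ((n : ℝ) + 1) * y)) := by
    rw [intervalIntegral.integral_finsetSum (fun n _ => (hterm n).intervalIntegrable _ _)]
    refine Finset.sum_congr rfl fun n _ => ?_
    rw [intervalIntegral.integral_const_mul]
  have h3 : ∑ n ∈ Finset.range N, Real.exp (-(4 * Real.pi)) / 4 *
      (‖c (n + 1)‖ ^ 2 * ((n + 1 : ℕ) : ℝ) ^ (-1 - η)) ≤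
      ∑ n ∈ Finset.range N, ‖c (n + 1)‖ ^ 2 *
        ∫ y in δ..1, y ^ η * Real.exp (-(4 * Real.pi * ((n : ℝ) + 1) * y)) := by
    refine Finset.sum_le_sum fun n hn => ?_
    have hnN : ((n : ℝ) + 1) ≤ N := by
      exact_mod_cast Finset.mem_range.1 hn
    have hn1 : (1 : ℝ) ≤ (n : ℝ) + 1 := by
      have : (0 : ℝ) ≤ n := Nat.cast_nonneg n
      linarith
    have h4 := one ((n : ℝ) + 1) η δ hn1 hη hη1 hδ (by
      refine hδ0.le.trans ?_
      apply one_div_le_one_div_of_le (by positivity)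
      linarith)
    have h5 := mul_le_mul_of_nonneg_left h4 (by positivity : (0 : ℝ) ≤ ‖c (n + 1)‖ ^ 2)
    push_cast
    calc Real.exp (-(4 * Real.pi)) / 4 * (‖c (n + 1)‖ ^ 2 * ((n : ℝ) + 1) ^ (-1 - η))
        = ‖c (n + 1)‖ ^ 2 * (Real.exp (-(4 * Real.pi)) / 4 * ((n : ℝ) + 1) ^ (-1 - η)) := by
          ring
      _ ≤ _ := h5
  rw [← Finset.mul_sum] at h3
  have h4 : Real.exp (-(4 * Real.pi)) / 4 *
      (∑' n : ℕ, ‖c (n + 1)‖ ^ 2 * ((n + 1 : ℕ) : ℝ) ^ (-1 - η)) - ε ≤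
      Real.exp (-(4 * Real.pi)) / 4 *
      ∑ n ∈ Finset.range N, ‖c (n + 1)‖ ^ 2 * ((n + 1 : ℕ) : ℝ) ^ (-1 - η) := by
    have h5 := mul_le_mul_of_nonneg_left hN.le hc1.le
    rw [mul_sub, mul_div_cancel₀ _ hc1.ne'] at h5
    exact h5
  rw [htsum]
  linarith

end Pool.Agent.SelQ
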