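import Pool.Agent.SelQ.TargetsU
import Pool.Agent.SelDeg2.DREL

/-!
# Degree 2 without the mean square bound: U7 DRU, the relation of Dirichlet series, uniformly
-/

set_option autoImplicit false

open Finset

namespace Pool.Agent.SelQ

open Complex Filter Topology MeasureTheory
open Pool.Agent.SelTwo (lam pX vl cj tw gP FEq)
open Pool.Agent.SelDeg2 (ee gth SS Drel ContM)
open Pool.Agent.SelPole (IsSelberg)

namespace DRU_

/-- the norm of the factor in front of the main term -/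
theorem norm_B0 (A : ℂ) (q θ x : ℝ) (hq : 0 < q) (hx : 0 < x) :
    ‖A / (-(2 * Real.pi * I * x)) *
      (2 * Real.pi * I / (q * x)) ^ (-((θ : ℂ) * I))‖ =
    ‖A‖ * Real.exp (Real.pi * θ / 2) / (2 * Real.pi * x) := by
  have hpi := Real.pi_pos
  have e1 : (2 * Real.pi * I / (q * x) : ℂ) = ((2 * Real.pi / (q * x) : ℝ) : ℂ) * I := by
    push_cast
    ring
  have hpos : 0 < 2 * Real.pi / (q * x) := by positivity
  have hne : (((2 * Real.pi / (q * x) : ℝ) : ℂ) * I) ≠ 0 :=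
    mul_ne_zero (by exact_mod_cast hpos.ne') I_ne_zero
  have harg : Complex.arg (((2 * Real.pi / (q * x) : ℝ) : ℂ) * I) = Real.pi / 2 := by
    rw [Complex.arg_real_mul _ hpos, Complex.arg_I]
  rw [e1, norm_mul, norm_div, Complex.norm_cpow_of_ne_zero hne, harg]
  have h1 : (-((θ : ℂ) * I)).re = 0 := by simp
  have h2 : (-((θ : ℂ) * I)).im = -θ := by simp
  have h3 : ‖(-(2 * Real.pi * I * x) : ℂ)‖ = 2 * Real.pi * x := by
    rw [norm_neg, norm_mul, norm_mul, norm_mul, Complex.norm_I, Complex.norm_real,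
      Complex.norm_real, Real.norm_eq_abs, Real.norm_eq_abs, abs_of_pos hpi, abs_of_pos hx]
    simp
  rw [h1, h2, h3, Real.rpow_zero]
  have h4 : (1 / Real.exp (Real.pi / 2 * -θ)) = Real.exp (Real.pi * θ / 2) := by
    rw [one_div, ← Real.exp_neg]
    congr 1
    ring
  rw [h4]
  ring

end DRU_

open Pool.Agent.SelDeg2.DREL_ in
theorem p_DRU (hPTU : T_PTU) (hMLU : T_MLU) : T_DRU := by
  intro a A₁ A q θ C ha hs hq hC0 hrel
  obtain ⟨Cp, hCp0, hCp⟩ := hPTU a A₁ A q θ C ha hq hC0 hrel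
  set c : ℕ → ℂ := tw θ (cj a) with hc
  have hcs := tw_cj_summable θ hs
  obtain ⟨K1, hK10, hK1⟩ := hMLU a 1 hs one_pos
  obtain ⟨K2, hK20, hK2⟩ := hMLU c (1 / q) hcs (by positivity)
  obtain ⟨m, hm0, hm⟩ := gamma_low
  set Bq : ℝ := ‖A‖ * Real.exp (Real.pi * θ / 2) / (2 * Real.pi) with hBq
  have hBq0 : 0 ≤ Bq := by positivity
  set qm : ℝ := max (q ^ 2) q with hqm
  have hqm0 : 0 ≤ qm := le_max_of_le_right hq.le
  refine ⟨(K1 + Bq * qm * K2 + Cp * 4) / (m / (2 * Real.pi) ^ 2), ?_⟩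
  intro α η hα hα1 hη hη1
  set C' : ℝ := Cp * (1 / α) ^ 5 with hC'def
  have hC'0 : 0 ≤ C' := by positivity
  have hC' := hCp α hα hα1
  set β : ℝ := q * α ^ 2 with hβ
  have hβ0 : 0 < β := by positivity
  have hβq : β ≤ q := by
    rw [hβ]
    have h1 : α ^ 2 ≤ 1 := pow_le_one₀ hα.le hα1
    nlinarith
  have hβ1 : 1 / q ≤ 1 / β := one_div_le_one_div_of_le hβ0 hβq
  set B0 : ℂ := A / (-(2 * Real.pi * I * α)) *
      (2 * Real.pi * I / (q * α)) ^ (-((θ : ℂ) * I)) with hB0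
  set βm : ℝ := max (β ^ (2 : ℝ)) (β ^ (1 : ℝ)) with hβm
  obtain ⟨hI1, hJ1⟩ := hK1 α 1 η le_rfl hη hη1
  obtain ⟨hI2, hJ2⟩ := hK2 (-1 / (q * α)) (1 / β) η hβ1 hη hη1
  set G : ℝ := (2 * Real.pi) ^ (-1 - η) * Real.Gamma (1 + η) with hG
  have hΓ := hm η hη.le hη1
  have hGlow : m / (2 * Real.pi) ^ 2 ≤ G := by
    have h1 : ((2 * Real.pi) ^ 2)⁻¹ ≤ (2 * Real.pi) ^ (-1 - η) := by
      have h2 : ((2 * Real.pi) ^ 2)⁻¹ = (2 * Real.pi) ^ (-2 : ℝ) := by
        rw [Real.rpow_neg (by positivity)]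
        norm_num
      rw [h2]
      refine Real.rpow_le_rpow_of_exponent_le ?_ (by linarith)
      linarith [Real.pi_gt_three]
    rw [hG, div_eq_mul_inv, mul_comm]
    exact mul_le_mul h1 hΓ hm0.le (by positivity)
  have hG0 : 0 < G := lt_of_lt_of_le (by positivity) hGlow
  -- substitution
  set f : ℝ → ℂ := fun u => lam c (pX (-1 / (q * α)) u) with hf
  have hsub : ∫ y in Set.Ioc (0 : ℝ) 1, f (y / β) * ((y ^ η : ℝ) : ℂ) =
      ((β ^ (1 + η) : ℝ) : ℂ) * ∫ u in Set.Ioc (0 : ℝ) (1 / β), f u * ((u ^ η : ℝ) : ℂ) := by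
    have h1 : ∫ y in Set.Ioc (0 : ℝ) 1, f (y / β) * ((y ^ η : ℝ) : ℂ) =
        ∫ y in Set.Ioc (0 : ℝ) 1, (fun u : ℝ => ((β ^ η : ℝ) : ℂ) * (f u * ((u ^ η : ℝ) : ℂ)))
          (y / β) := by
      refine setIntegral_congr_fun measurableSet_Ioc fun y hy => ?_
      simp only
      have h2 : y ^ η = β ^ η * (y / β) ^ η := by
        rw [← Real.mul_rpow hβ0.le (div_nonneg hy.1.le hβ0.le), mul_div_cancel₀ _ hβ0.ne']
      rw [h2]
      push_cast
      ring
    have h3 := intervalIntegral.integral_comp_div (a := 0) (b := 1)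
      (fun u : ℝ => ((β ^ η : ℝ) : ℂ) * (f u * ((u ^ η : ℝ) : ℂ))) hβ0.ne'
    rw [zero_div] at h3
    rw [h1, ← intervalIntegral.integral_of_le zero_le_one, h3,
      intervalIntegral.integral_of_le (by positivity), integral_const_mul, Real.rpow_add hβ0,
      Real.rpow_one, Complex.real_smul]
    push_cast
    ring
  have hI3 : IntegrableOn (fun y : ℝ => f (y / β) * ((y ^ η : ℝ) : ℂ)) (Set.Ioc 0 1) := by
    have h1 : IntervalIntegrable (fun u : ℝ => f u * ((u ^ η : ℝ) : ℂ)) volume 0 (1 / β) :=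
      (intervalIntegrable_iff_integrableOn_Ioc_of_le (by positivity)).2 hI2
    have h2 : IntervalIntegrable (fun y : ℝ => (fun u : ℝ => f u * ((u ^ η : ℝ) : ℂ)) (y / β))
        volume 0 1 := by
      have h3 := h1.comp_mul_left (c := β⁻¹)
      have e0 : (0 : ℝ) / β⁻¹ = 0 := zero_div _
      have e1 : (1 / β) / β⁻¹ = 1 := by field_simp
      rw [e0, e1] at h3
      refine h3.congr (fun y _ => ?_)
      simp only
      rw [div_eq_inv_mul]
    have h4 := (intervalIntegrable_iff_integrableOn_Ioc_of_le zero_le_one).1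
      (h2.const_mul ((β ^ η : ℝ) : ℂ))
    refine h4.congr_fun (fun y hy => ?_) measurableSet_Ioc
    simp only
    have h5 : y ^ η = β ^ η * (y / β) ^ η := by
      rw [← Real.mul_rpow hβ0.le (div_nonneg hy.1.le hβ0.le), mul_div_cancel₀ _ hβ0.ne']
    rw [h5]
    push_cast
    ring
  -- integrated relation
  have hrel2 : ‖(∫ y in Set.Ioc (0 : ℝ) 1, lam a (pX α y) * ((y ^ η : ℝ) : ℂ)) -
      B0 * ∫ y in Set.Ioc (0 : ℝ) 1, f (y / β) * ((y ^ η : ℝ) : ℂ)‖ ≤ |C'| * 4 := by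
    rw [← integral_const_mul, ← integral_sub hI1 (hI3.const_mul B0)]
    have h34 : IntegrableOn (fun y : ℝ => |C'| * y ^ (-(3 / 4) : ℝ)) (Set.Ioc 0 1) := by
      refine Integrable.const_mul ?_ _
      exact (intervalIntegrable_iff_integrableOn_Ioc_of_le zero_le_one).1
        (intervalIntegral.intervalIntegrable_rpow' (by norm_num))
    have hval : ∫ y in Set.Ioc (0 : ℝ) 1, |C'| * y ^ (-(3 / 4) : ℝ) = |C'| * 4 := by
      rw [integral_const_mul, ← intervalIntegral.integral_of_le zero_le_one,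
        integral_rpow (Or.inl (by norm_num))]
      norm_num
    rw [← hval]
    refine norm_integral_le_of_norm_le h34 ?_
    filter_upwards [ae_restrict_mem measurableSet_Ioc] with y hy
    have h1 := hC' y hy.1 hy.2
    have h2 : lam a (pX α y) * ((y ^ η : ℝ) : ℂ) - B0 * (f (y / β) * ((y ^ η : ℝ) : ℂ)) =
        (lam a (pX α y) - B0 * f (y / β)) * ((y ^ η : ℝ) : ℂ) := by ring
    rw [h2, norm_mul, Complex.norm_real, Real.norm_of_nonneg (Real.rpow_nonneg hy.1.le _)]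
    have h3 : y ^ η ≤ 1 := Real.rpow_le_one hy.1.le hy.2 hη.le
    have h4 : ‖lam a (pX α y) - B0 * f (y / β)‖ ≤ |C'| * y ^ (-(3 / 4) : ℝ) :=
      h1.trans (mul_le_mul_of_nonneg_right (le_abs_self _) (Real.rpow_nonneg hy.1.le _))
    calc ‖lam a (pX α y) - B0 * f (y / β)‖ * y ^ η ≤ (|C'| * y ^ (-(3 / 4) : ℝ)) * 1 :=
          mul_le_mul h4 h3 (Real.rpow_nonneg hy.1.le _)
            (mul_nonneg (abs_nonneg _) (Real.rpow_nonneg hy.1.le _))
      _ = _ := mul_one _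
  rw [hsub] at hrel2
  set S1 := SS a α η
  set S2 := SS c (-1 / (q * α)) η
  set J1 := ∫ y in Set.Ioc (0 : ℝ) 1, lam a (pX α y) * ((y ^ η : ℝ) : ℂ)
  set J2 := ∫ u in Set.Ioc (0 : ℝ) (1 / β), f u * ((u ^ η : ℝ) : ℂ)
  set bb : ℂ := ((β ^ (1 + η) : ℝ) : ℂ) with hbb
  have hbbn : ‖bb‖ ≤ βm := by
    rw [hbb, Complex.norm_real, Real.norm_of_nonneg (by positivity), hβm]
    rcases le_total 1 β with h | h
    · exact (Real.rpow_le_rpow_of_exponent_le h (by linarith)).trans (le_max_left _ _)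
    · exact (Real.rpow_le_rpow_of_exponent_ge hβ0 h (by linarith)).trans (le_max_right _ _)
  have hβmq : βm ≤ qm := by
    rw [hβm, hqm]
    refine max_le_max ?_ ?_
    · rw [show β ^ (2 : ℝ) = β ^ 2 by norm_cast]
      exact pow_le_pow_left₀ hβ0.le hβq 2
    · rw [Real.rpow_one]
      exact hβq
  have hβm0 : 0 ≤ βm := le_max_of_le_right (by positivity)
  have hα1' : 1 ≤ 1 / α := by
    rw [le_div_iff₀ hα]
    linarith
  have hα5 : 1 ≤ (1 / α) ^ 5 := one_le_pow₀ hα1'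
  have hB0n : ‖B0‖ ≤ Bq * (1 / α) ^ 5 := by
    rw [hB0, DRU_.norm_B0 A q θ α hq hα, hBq]
    have h1 : ‖A‖ * Real.exp (Real.pi * θ / 2) / (2 * Real.pi * α) =
        ‖A‖ * Real.exp (Real.pi * θ / 2) / (2 * Real.pi) * (1 / α) := by
      field_simp
    rw [h1]
    refine mul_le_mul_of_nonneg_left ?_ (by positivity)
    exact le_self_pow₀ hα1' (by norm_num)
  have hmain : ‖(G : ℂ) * (S1 - B0 * bb * S2)‖ ≤ K1 + ‖B0‖ * βm * K2 + |C'| * 4 := by
    have e : (G : ℂ) * (S1 - B0 * bb * S2) = (G * S1 - J1) + (J1 - B0 * (bb * J2)) +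
        B0 * bb * (J2 - G * S2) := by ring
    rw [e]
    refine (norm_add_le _ _).trans ?_
    refine (add_le_add_left (norm_add_le _ _) _).trans ?_
    have h1 : ‖(G : ℂ) * S1 - J1‖ ≤ K1 := by rw [norm_sub_rev]; exact hJ1
    have h2 : ‖B0 * bb * (J2 - G * S2)‖ ≤ ‖B0‖ * βm * K2 := by
      rw [norm_mul, norm_mul]
      gcongr
    linarith
  have hS2 : S2 = (starRingEnd ℂ) (SS (gth θ a) (1 / (q * α)) η) := by
    rw [← SS_tw, ← neg_div]
  have hfin : S1 - (q * A / (-(2 * Real.pi * I)) * (2 * Real.pi * I / q) ^ (-((θ : ℂ) * I))) *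
      (α : ℂ) ^ (1 + (θ : ℂ) * I) * (((q * α ^ 2) ^ η : ℝ) : ℂ) *
      (starRingEnd ℂ) (SS (gth θ a) (1 / (q * α)) η) = S1 - B0 * bb * S2 := by
    rw [← hS2, ← const_eq A θ η hq hα]
  rw [hfin]
  have hconst : K1 + ‖B0‖ * βm * K2 + |C'| * 4 ≤ (K1 + Bq * qm * K2 + Cp * 4) * (1 / α) ^ 5 := by
    have h1 : K1 ≤ K1 * (1 / α) ^ 5 := le_mul_of_one_le_right hK10 hα5
    have h2 : ‖B0‖ * βm * K2 ≤ (Bq * (1 / α) ^ 5) * qm * K2 :=
      mul_le_mul_of_nonneg_right (mul_le_mul hB0n hβmq hβm0 (by positivity)) hK20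
    have h3 : |C'| = Cp * (1 / α) ^ 5 := abs_of_nonneg hC'0
    rw [h3]
    nlinarith
  rw [div_mul_eq_mul_div, le_div_iff₀ (by positivity)]
  rw [norm_mul, Complex.norm_real, Real.norm_of_nonneg hG0.le] at hmain
  calc ‖S1 - B0 * bb * S2‖ * (m / (2 * Real.pi) ^ 2) ≤ ‖S1 - B0 * bb * S2‖ * G := by gcongr
    _ = G * ‖S1 - B0 * bb * S2‖ := mul_comm _ _
    _ ≤ _ := hmain
    _ ≤ _ := hconst

end Pool.Agent.SelQ
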