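import Pool.Agent.SelQ.TargetsD

/-!
# EBS: the probability that a given set occurs
-/

set_option autoImplicit false

open Finset

namespace Pool.Agent.SelQ

namespace EBS_

theorem term (π : ℕ → ℝ) (Q S : Finset ℕ) (hS : S ⊆ Q) (B : Finset ℕ) :
    (if S ⊆ B then (1 : ℝ) else 0) * ((∏ p ∈ B, π p) * ∏ p ∈ Q \ B, (1 - π p)) =
      (∏ p ∈ B, π p) * ∏ p ∈ Q \ B, (if p ∈ S then 0 else 1 - π p) := by
  by_cases h : S ⊆ B
  · rw [if_pos h, one_mul]
    congr 1
    apply Finset.prod_congr rfl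
    intro p hp
    rw [Finset.mem_sdiff] at hp
    rw [if_neg (fun hpS => hp.2 (h hpS))]
  · rw [if_neg h, zero_mul]
    obtain ⟨p, hpS, hpB⟩ := Finset.not_subset.mp h
    have h0 : ∏ q ∈ Q \ B, (if q ∈ S then (0 : ℝ) else 1 - π q) = 0 :=
      Finset.prod_eq_zero (i := p) (Finset.mem_sdiff.mpr ⟨hS hpS, hpB⟩) (if_pos hpS)
    rw [h0, mul_zero]

end EBS_

theorem p_EBS : T_EBS := by
  intro π Q S hS
  have h1 := Finset.prod_add (fun p => π p) (fun p => if p ∈ S then (0 : ℝ) else 1 - π p) Q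
  unfold EB
  rw [Finset.sum_congr rfl (fun B _ => EBS_.term π Q S hS B), ← h1]
  have h2 : ∀ p ∈ Q, (π p + if p ∈ S then (0 : ℝ) else 1 - π p) = if p ∈ S then π p else 1 := by
    intro p _
    by_cases h : p ∈ S
    · rw [if_pos h, if_pos h, add_zero]
    · rw [if_neg h, if_neg h]
      ring
  rw [Finset.prod_congr rfl h2, Finset.prod_ite_mem, Finset.inter_eq_right.mpr hS]

end Pool.Agent.SelQ
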