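import Pool.Agent.SelQ.TargetsC

/-! The local factor near `s = 1`, uniformly in the prime. -/

set_option autoImplicit false

open Finset

namespace Pool.Agent.SelQ

open Complex
open Pool.Agent.SelDeg2 (Br LpF HH)
open Pool.Agent.SelPole (IsSelberg)

noncomputable section

namespace EPU_

theorem cp {p : ℕ} (j : ℕ) (s : ℂ) : (p : ℂ) ^ (-((j : ℂ) * s)) = ((p : ℂ) ^ (-s)) ^ j := by
  rw [← Complex.cpow_nat_mul]
  congr 1
  ring

theorem norm_z {p : ℕ} (hp : p.Prime) {s : ℂ} (hs : 1 ≤ s.re) : ‖(p : ℂ) ^ (-s)‖ ≤ 1 / p := by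
  rw [Complex.norm_natCast_cpow_of_pos hp.pos, Complex.neg_re, one_div, ← Real.rpow_neg_one]
  exact Real.rpow_le_rpow_of_exponent_le (by exact_mod_cast hp.one_lt.le) (by linarith)

/-- the exponent of the local factor -/
def BB (b : ℕ → ℂ) (p : ℕ) (z : ℂ) : ℂ := ∑' j : ℕ, b (p ^ (j + 1)) * z ^ (j + 1)

/-- the rate of decay -/
def rho : ℝ := (2 : ℝ) ^ (-(1 / 4) : ℝ)

theorem rho_pos : 0 < rho := Real.rpow_pos_of_pos (by norm_num) _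

theorem rho_lt : rho < 1 := Real.rpow_lt_one_of_one_lt_of_neg (by norm_num) (by norm_num)

theorem quarter {p : ℕ} (hp : p.Prime) : (p : ℝ) ^ (-(1 / 4) : ℝ) ≤ rho := by
  have hp2 : (2 : ℝ) ≤ p := by exact_mod_cast hp.two_le
  exact Real.rpow_le_rpow_of_nonpos (by norm_num) hp2 (by norm_num)

theorem half {p : ℕ} (hp : p.Prime) : (p : ℝ) ^ (-(1 / 2) : ℝ) ≤ rho := by
  have hp2 : (2 : ℝ) ≤ p := by exact_mod_cast hp.two_le
  refine le_trans ?_ (quarter hp)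
  exact Real.rpow_le_rpow_of_exponent_le (by linarith) (by norm_num)

theorem coef {b : ℕ → ℂ} {C : ℝ} (hb : ∀ n : ℕ, 1 ≤ n → ‖b n‖ ≤ C * (n : ℝ) ^ (1 / 2 : ℝ))
    {p : ℕ} (hp : p.Prime) (n : ℕ) :
    ‖b (p ^ n)‖ * (1 / (p : ℝ)) ^ n ≤ C * ((p : ℝ) ^ (-(1 / 2) : ℝ)) ^ n := by
  have hp0 : (0 : ℝ) < p := by exact_mod_cast hp.pos
  have h1 := hb (p ^ n) (Nat.one_le_pow _ _ hp.pos)
  have h2 : (((p ^ n : ℕ) : ℝ)) ^ (1 / 2 : ℝ) * (1 / (p : ℝ)) ^ n =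
      ((p : ℝ) ^ (-(1 / 2) : ℝ)) ^ n := by
    rw [Nat.cast_pow, ← Real.rpow_natCast (p : ℝ) n, ← Real.rpow_mul hp0.le, one_div (p : ℝ),
      inv_pow, ← Real.rpow_natCast (p : ℝ) n, ← Real.rpow_neg hp0.le, ← Real.rpow_add hp0,
      ← Real.rpow_natCast ((p : ℝ) ^ (-(1 / 2) : ℝ)) n, ← Real.rpow_mul hp0.le]
    congr 1
    ring
  calc ‖b (p ^ n)‖ * (1 / (p : ℝ)) ^ n
      ≤ (C * ((p ^ n : ℕ) : ℝ) ^ (1 / 2 : ℝ)) * (1 / (p : ℝ)) ^ n :=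
        mul_le_mul_of_nonneg_right h1 (by positivity)
    _ = C * ((p : ℝ) ^ (-(1 / 2) : ℝ)) ^ n := by rw [mul_assoc, h2]

theorem BB_norm {b : ℕ → ℂ} {C : ℝ} (hC : 0 ≤ C)
    (hb : ∀ n : ℕ, 1 ≤ n → ‖b n‖ ≤ C * (n : ℝ) ^ (1 / 2 : ℝ))
    {p : ℕ} (hp : p.Prime) {z : ℂ} (hz : ‖z‖ ≤ 1 / p) :
    ‖BB b p z‖ ≤ ∑' j : ℕ, C * rho ^ (j + 1) := by
  have hp0 : (0 : ℝ) < p := by exact_mod_cast hp.pos
  have hs : Summable (fun j : ℕ => C * rho ^ (j + 1)) :=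
    ((summable_nat_add_iff 1).2 (summable_geometric_of_lt_one rho_pos.le rho_lt)).mul_left C
  have ht : ∀ j : ℕ, ‖b (p ^ (j + 1)) * z ^ (j + 1)‖ ≤ C * rho ^ (j + 1) := by
    intro j
    rw [norm_mul, norm_pow]
    calc ‖b (p ^ (j + 1))‖ * ‖z‖ ^ (j + 1) ≤ ‖b (p ^ (j + 1))‖ * (1 / (p : ℝ)) ^ (j + 1) :=
          mul_le_mul_of_nonneg_left (pow_le_pow_left₀ (norm_nonneg _) hz _) (norm_nonneg _)
      _ ≤ C * ((p : ℝ) ^ (-(1 / 2) : ℝ)) ^ (j + 1) := coef hb hp _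
      _ ≤ C * rho ^ (j + 1) := mul_le_mul_of_nonneg_left
          (pow_le_pow_left₀ (Real.rpow_nonneg hp0.le _) (half hp) _) hC
  have hs2 : Summable (fun j : ℕ => ‖b (p ^ (j + 1)) * z ^ (j + 1)‖) :=
    Summable.of_nonneg_of_le (fun j => norm_nonneg _) ht hs
  exact (norm_tsum_le_tsum_norm hs2).trans (hs2.tsum_le_tsum ht hs)

theorem summable_lin : Summable (fun j : ℕ => ((j : ℝ) + 1) * rho ^ (j + 1)) := by
  have h1 : Summable (fun n : ℕ => ((n : ℝ) ^ 1) * rho ^ n) :=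
    summable_pow_mul_geometric_of_norm_lt_one 1 (by
      rw [Real.norm_of_nonneg rho_pos.le]; exact rho_lt)
  have h2 := (summable_nat_add_iff 1).2 h1
  refine h2.congr fun j => ?_
  push_cast
  ring

theorem BB_diff {b : ℕ → ℂ} {C : ℝ} (hC : 0 ≤ C)
    (hb : ∀ n : ℕ, 1 ≤ n → ‖b n‖ ≤ C * (n : ℝ) ^ (1 / 2 : ℝ))
    {p : ℕ} (hp : p.Prime) {η : ℝ} (hη : 0 < η)
    (h1 : Summable (fun j : ℕ => ‖b (p ^ (j + 1)) * ((p : ℂ) ^ (-(1 + (η : ℂ)))) ^ (j + 1)‖))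
    (h2 : Summable (fun j : ℕ => ‖b (p ^ (j + 1)) * ((p : ℂ) ^ (-(1 : ℂ))) ^ (j + 1)‖)) :
    ‖BB b p ((p : ℂ) ^ (-(1 + (η : ℂ)))) - BB b p ((p : ℂ) ^ (-(1 : ℂ)))‖ ≤
      4 * C * η * ∑' j : ℕ, ((j : ℝ) + 1) * rho ^ (j + 1) := by
  have hp0 : (0 : ℝ) < p := by exact_mod_cast hp.pos
  have hp1 : (1 : ℝ) ≤ p := by exact_mod_cast hp.one_lt.le
  have hlog : 0 ≤ Real.log p := Real.log_nonneg hp1
  -- the number q = p^(-η)
  set q : ℝ := (p : ℝ) ^ (-η) with hq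
  have hq0 : 0 ≤ q := Real.rpow_nonneg hp0.le _
  have hq1 : q ≤ 1 := Real.rpow_le_one_of_one_le_of_nonpos hp1 (by linarith)
  have hqb : 1 - q ≤ η * Real.log p := by
    rw [hq, Real.rpow_def_of_pos hp0]
    have := Real.add_one_le_exp (Real.log p * -η)
    linarith
  have hz1 : (p : ℂ) ^ (-(1 : ℂ)) = ((1 / p : ℝ) : ℂ) := by
    rw [Complex.cpow_neg_one]; push_cast; rw [one_div]
  have hz2 : (p : ℂ) ^ (-(1 + (η : ℂ))) = ((1 / p * q : ℝ) : ℂ) := by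
    have e1 : (p : ℝ) ^ (-(1 + η)) = 1 / p * q := by
      rw [hq, neg_add, Real.rpow_add hp0, Real.rpow_neg_one, one_div]
    rw [← e1, Complex.ofReal_cpow hp0.le]
    push_cast
    rfl
  have hsub : BB b p ((p : ℂ) ^ (-(1 + (η : ℂ)))) - BB b p ((p : ℂ) ^ (-(1 : ℂ))) =
      ∑' j : ℕ, b (p ^ (j + 1)) * (((1 / p * q : ℝ) : ℂ) ^ (j + 1) -
        ((1 / p : ℝ) : ℂ) ^ (j + 1)) := by
    unfold BB
    rw [← h1.of_norm.tsum_sub h2.of_norm, hz1, hz2]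
    refine tsum_congr fun j => ?_
    ring
  have ht : ∀ j : ℕ, ‖b (p ^ (j + 1)) * (((1 / p * q : ℝ) : ℂ) ^ (j + 1) -
      ((1 / p : ℝ) : ℂ) ^ (j + 1))‖ ≤ 4 * C * η * (((j : ℝ) + 1) * rho ^ (j + 1)) := by
    intro j
    have e1 : ((1 / p * q : ℝ) : ℂ) ^ (j + 1) - ((1 / p : ℝ) : ℂ) ^ (j + 1) =
        (((1 / (p : ℝ)) ^ (j + 1) * (q ^ (j + 1) - 1) : ℝ) : ℂ) := by
      push_cast
      ring
    have hqn : q ^ (j + 1) ≤ 1 := pow_le_one₀ hq0 hq1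
    have hbern : 1 - q ^ (j + 1) ≤ ((j : ℝ) + 1) * (1 - q) := by
      have := one_add_mul_le_pow (a := q - 1) (by linarith) (j + 1)
      push_cast at this
      rw [show (1 : ℝ) + (q - 1) = q by ring] at this
      linarith
    rw [norm_mul, e1, Complex.norm_real, norm_mul, Real.norm_of_nonneg (by positivity),
      Real.norm_of_nonpos (by linarith), neg_sub]
    have hc := coef hb hp (j + 1)
    have hlg : Real.log p ≤ 4 * (p : ℝ) ^ (1 / 4 : ℝ) := by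
      have := Real.log_le_rpow_div hp0.le (show (0 : ℝ) < 1 / 4 by norm_num)
      linarith
    have hlg2 : ((p : ℝ) ^ (-(1 / 2) : ℝ)) ^ (j + 1) * Real.log p ≤ 4 * rho ^ (j + 1) := by
      have e2 : (p : ℝ) ^ (-(1 / 2) : ℝ) = (p : ℝ) ^ (-(1 / 4) : ℝ) * (p : ℝ) ^ (-(1 / 4) : ℝ) := by
        rw [← Real.rpow_add hp0]; norm_num
      have e3 : ((p : ℝ) ^ (-(1 / 4) : ℝ)) * (p : ℝ) ^ (1 / 4 : ℝ) = 1 := by
        rw [← Real.rpow_add hp0]; norm_num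
      have hpq : (0 : ℝ) ≤ (p : ℝ) ^ (-(1 / 4) : ℝ) := Real.rpow_nonneg hp0.le _
      have hpq1 : (p : ℝ) ^ (-(1 / 4) : ℝ) ≤ 1 :=
        Real.rpow_le_one_of_one_le_of_nonpos hp1 (by norm_num)
      have hq4 : (0 : ℝ) ≤ (p : ℝ) ^ (1 / 4 : ℝ) := Real.rpow_nonneg hp0.le _
      have e4 : ((p : ℝ) ^ (-(1 / 4) : ℝ)) ^ (j + 1) * (p : ℝ) ^ (1 / 4 : ℝ) ≤ 1 := by
        rw [pow_succ, mul_assoc, e3, mul_one]
        exact pow_le_one₀ hpq hpq1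
      calc ((p : ℝ) ^ (-(1 / 2) : ℝ)) ^ (j + 1) * Real.log p
          ≤ ((p : ℝ) ^ (-(1 / 2) : ℝ)) ^ (j + 1) * (4 * (p : ℝ) ^ (1 / 4 : ℝ)) :=
            mul_le_mul_of_nonneg_left hlg (by positivity)
        _ = 4 * ((p : ℝ) ^ (-(1 / 4) : ℝ)) ^ (j + 1) *
            (((p : ℝ) ^ (-(1 / 4) : ℝ)) ^ (j + 1) * (p : ℝ) ^ (1 / 4 : ℝ)) := by
            rw [e2, mul_pow]; ring
        _ ≤ 4 * ((p : ℝ) ^ (-(1 / 4) : ℝ)) ^ (j + 1) * 1 :=
            mul_le_mul_of_nonneg_left e4 (by positivity)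
        _ ≤ 4 * rho ^ (j + 1) := by
            rw [mul_one]
            exact mul_le_mul_of_nonneg_left (pow_le_pow_left₀ hpq (quarter hp) _) (by norm_num)
    have hj : (0 : ℝ) ≤ (j : ℝ) + 1 := by positivity
    calc ‖b (p ^ (j + 1))‖ * ((1 / (p : ℝ)) ^ (j + 1) * (1 - q ^ (j + 1)))
        = (‖b (p ^ (j + 1))‖ * (1 / (p : ℝ)) ^ (j + 1)) * (1 - q ^ (j + 1)) := by ring
      _ ≤ (C * ((p : ℝ) ^ (-(1 / 2) : ℝ)) ^ (j + 1)) * (((j : ℝ) + 1) * (η * Real.log p)) := by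
          refine mul_le_mul hc (hbern.trans (mul_le_mul_of_nonneg_left hqb hj)) (by linarith)
            (by positivity)
      _ = C * η * ((j : ℝ) + 1) * (((p : ℝ) ^ (-(1 / 2) : ℝ)) ^ (j + 1) * Real.log p) := by ring
      _ ≤ C * η * ((j : ℝ) + 1) * (4 * rho ^ (j + 1)) :=
          mul_le_mul_of_nonneg_left hlg2 (by positivity)
      _ = _ := by ring
  have hs := summable_lin.mul_left (4 * C * η)
  have hs2 : Summable (fun j : ℕ => ‖b (p ^ (j + 1)) * (((1 / p * q : ℝ) : ℂ) ^ (j + 1) -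
      ((1 / p : ℝ) : ℂ) ^ (j + 1))‖) :=
    Summable.of_nonneg_of_le (fun j => norm_nonneg _) ht hs
  rw [hsub, ← tsum_mul_left]
  exact (norm_tsum_le_tsum_norm hs2).trans (hs2.tsum_le_tsum ht hs)

theorem Br_eq {a : ℕ → ℂ} (ha1 : a 1 = 1) {p : ℕ} (hp : p.Prime) (s : ℂ)
    (hs : Summable (fun j : ℕ => a (p ^ j) * ((p : ℂ) ^ (-s)) ^ j)) :
    Br a p 1 s = LpF a p s - (p : ℂ) / ((p : ℂ) - 1) := by
  have hpc1 : (p : ℂ) - 1 ≠ 0 := by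
    rw [sub_ne_zero]
    exact_mod_cast hp.one_lt.ne'
  have h1 : LpF a p s = 1 + ∑' j : ℕ, a (p ^ (1 + j)) *
      (p : ℂ) ^ (-(((1 + j : ℕ) : ℂ) * s)) := by
    have h2 : LpF a p s = ∑' j : ℕ, a (p ^ j) * ((p : ℂ) ^ (-s)) ^ j := by
      unfold LpF
      refine tsum_congr fun j => ?_
      rw [cp]
    rw [h2, hs.tsum_eq_zero_add, pow_zero, pow_zero, ha1, mul_one]
    congr 1
    refine tsum_congr fun j => ?_
    rw [cp, add_comm 1 j]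
  unfold Br
  rw [h1]
  simp only [Nat.sub_self, pow_zero, ha1, Nat.cast_zero, zero_mul, neg_zero, cpow_zero, mul_one]
  have h3 : (p : ℂ) / ((p : ℂ) - 1) = 1 + 1 / ((p : ℂ) - 1) := by
    field_simp
    ring
  rw [h3]
  ring

end EPU_

open EPU_ in
/-- C9 EPU: the local factor near `s = 1`, uniformly -/
theorem p_EPU (hLOC : Pool.Agent.SelDeg2.T_LOC) : T_EPU := by
  intro F a b hF
  obtain ⟨t, C₀, ht, hC₀⟩ := hF.b_bound
  set C := max C₀ 0 with hC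
  have hCn : 0 ≤ C := le_max_right _ _
  have hb : ∀ n : ℕ, 1 ≤ n → ‖b n‖ ≤ C * (n : ℝ) ^ (1 / 2 : ℝ) := fun n hn => by
    have hn1 : (1 : ℝ) ≤ n := by exact_mod_cast hn
    calc ‖b n‖ ≤ C₀ * (n : ℝ) ^ t := hC₀ n hn
      _ ≤ C * (n : ℝ) ^ t := mul_le_mul_of_nonneg_right (le_max_left _ _) (by positivity)
      _ ≤ C * (n : ℝ) ^ (1 / 2 : ℝ) :=
        mul_le_mul_of_nonneg_left (Real.rpow_le_rpow_of_exponent_le hn1 ht.le) hCn
  set M : ℝ := ∑' j : ℕ, C * rho ^ (j + 1) with hM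
  set S : ℝ := ∑' j : ℕ, ((j : ℝ) + 1) * rho ^ (j + 1) with hS
  have hM0 : 0 ≤ M := tsum_nonneg fun j => mul_nonneg hCn (pow_nonneg rho_pos.le _)
  have hS0 : 0 ≤ S := tsum_nonneg fun j => mul_nonneg (by positivity) (pow_nonneg rho_pos.le _)
  refine ⟨2 * (Real.exp M * (4 * C * S * Real.exp (2 * M))), by positivity, ?_⟩
  intro p hp η hη hη1
  have h := hLOC F a b hF p hp
  have hp0 : (0 : ℝ) < p := by exact_mod_cast hp.pos
  have hp2 : (2 : ℝ) ≤ p := by exact_mod_cast hp.two_le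
  have hpc : (p : ℂ) ≠ 0 := by exact_mod_cast hp.ne_zero
  have hpc1 : (p : ℂ) - 1 ≠ 0 := by
    rw [sub_ne_zero]
    exact_mod_cast hp.one_lt.ne'
  have hre : 1 ≤ (1 + (η : ℂ)).re := by simp; linarith
  have hre1 : 1 ≤ (1 : ℂ).re := by simp
  have hz1 := norm_z hp hre
  have hz2 := norm_z hp hre1
  obtain ⟨ha1, hb1, he1⟩ := h _ hz1
  obtain ⟨ha2, hb2, he2⟩ := h _ hz2
  set z := (p : ℂ) ^ (-(1 + (η : ℂ))) with hz
  set y := (p : ℂ) ^ (-(1 : ℂ)) with hy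
  have hL1 : LpF a p (1 + (η : ℂ)) = exp (BB b p z) := by
    unfold BB
    rw [← he1]
    unfold LpF
    exact tsum_congr fun j => by rw [cp]
  have hL2 : LpF a p 1 = exp (BB b p y) := by
    unfold BB
    rw [← he2]
    unfold LpF
    exact tsum_congr fun j => by rw [cp]
  have hd := BB_diff hCn hb hp hη hb1 hb2
  have hn1 := BB_norm hCn hb hp hz1
  have hn2 := BB_norm hCn hb hp hz2
  set X := BB b p z with hX
  set Y := BB b p y with hY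
  have hB1 := Br_eq hF.a_one hp (1 + (η : ℂ)) ha1.of_norm
  have hB2 := Br_eq hF.a_one hp 1 ha2.of_norm
  unfold HH
  rw [hB1, hB2, hL1, hL2, pow_one]
  have hid : (p : ℂ) * ((exp X - (p : ℂ) / ((p : ℂ) - 1)) / exp X) -
      (p : ℂ) * ((exp Y - (p : ℂ) / ((p : ℂ) - 1)) / exp Y) =
      -((p : ℂ) * ((p : ℂ) / ((p : ℂ) - 1)) * (exp (-Y) * (exp (-(X - Y)) - 1))) := by
    have e1 : exp (-Y) * (exp (-(X - Y)) - 1) = (exp X)⁻¹ - (exp Y)⁻¹ := by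
      rw [mul_sub, mul_one, ← exp_add, ← exp_neg, ← exp_neg]
      congr 2
      ring
    rw [e1]
    have hX0 := exp_ne_zero X
    have hY0 := exp_ne_zero Y
    field_simp
    ring
  rw [hid, norm_neg, norm_mul, norm_mul, norm_mul]
  have hpn : ‖(p : ℂ)‖ = p := Complex.norm_natCast p
  have hpn1 : ‖(p : ℂ) / ((p : ℂ) - 1)‖ ≤ 2 := by
    have e1 : (p : ℂ) / ((p : ℂ) - 1) = (((p : ℝ) / ((p : ℝ) - 1) : ℝ) : ℂ) := by
      push_cast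
      rfl
    have hpos : (0 : ℝ) < (p : ℝ) - 1 := by linarith
    rw [e1, Complex.norm_real, Real.norm_of_nonneg (by positivity), div_le_iff₀ hpos]
    linarith
  have hE1 : ‖exp (-Y)‖ ≤ Real.exp M := by
    rw [Complex.norm_exp]
    refine Real.exp_le_exp.2 ?_
    calc (-Y).re ≤ ‖-Y‖ := Complex.re_le_norm _
      _ = ‖Y‖ := norm_neg _
      _ ≤ M := hn2
  have hXY : ‖-(X - Y)‖ ≤ 2 * M := by
    rw [norm_neg]
    calc ‖X - Y‖ ≤ ‖X‖ + ‖Y‖ := norm_sub_le _ _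
      _ ≤ 2 * M := by linarith
  have hE2 : ‖exp (-(X - Y)) - 1‖ ≤ 4 * C * S * Real.exp (2 * M) * η := by
    have h1 := Complex.norm_exp_sub_sum_le_norm_mul_exp (-(X - Y)) 1
    simp only [Finset.range_one, Finset.sum_singleton, pow_zero, Nat.factorial_zero,
      Nat.cast_one, div_one, pow_one] at h1
    calc ‖exp (-(X - Y)) - 1‖ ≤ ‖-(X - Y)‖ * Real.exp ‖-(X - Y)‖ := h1
      _ ≤ (4 * C * η * S) * Real.exp (2 * M) := by
          refine mul_le_mul ?_ (Real.exp_le_exp.2 hXY) (Real.exp_nonneg _) (by positivity)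
          rw [norm_neg]
          exact hd
      _ = _ := by ring
  rw [hpn]
  calc (p : ℝ) * ‖(p : ℂ) / ((p : ℂ) - 1)‖ * (‖exp (-Y)‖ * ‖exp (-(X - Y)) - 1‖)
      ≤ (p : ℝ) * 2 * (Real.exp M * (4 * C * S * Real.exp (2 * M) * η)) := by
        gcongr
    _ = _ := by ring

end

end Pool.Agent.SelQ
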