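import Pool.Agent.SelQ.TargetsU
import Pool.Agent.SelDeg2.ERR

/-!
# U2 ERU: the error term with a constant polynomial in `K`
-/

set_option autoImplicit false

namespace Pool.Agent.SelQ

open Complex Filter Topology MeasureTheory Set
open Pool.Agent.SelTwo
open Pool.Agent.SelDeg2

theorem p_ERU : T_ERU := by
  intro C₁ B hC₁ hB
  have hΓ0 : 0 < Real.Gamma (3 / 4) := Real.Gamma_pos_of_pos (by norm_num)
  refine ⟨(4 + 2 * Real.Gamma (3 / 4)) * (C₁ * B), by positivity, ?_⟩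
  intro K hK X hre him _ hXK E h hE hh hE1 hE2 hB'
  have hKpos : 0 < K := by linarith
  have hconst : (4 * K ^ (3 / 4 : ℝ) + 2 * (Real.Gamma (3 / 4) * K ^ (3 / 4 : ℝ))) *
      (C₁ * K ^ (1 / 4 : ℝ) * B) ≤ (4 + 2 * Real.Gamma (3 / 4)) * (C₁ * B) * K ^ 2 := by
    have e : (4 * K ^ (3 / 4 : ℝ) + 2 * (Real.Gamma (3 / 4) * K ^ (3 / 4 : ℝ))) *
        (C₁ * K ^ (1 / 4 : ℝ) * B) = (4 + 2 * Real.Gamma (3 / 4)) * (C₁ * B) *
        (K ^ (3 / 4 : ℝ) * K ^ (1 / 4 : ℝ)) := by ring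
    have e2 : K ^ (3 / 4 : ℝ) * K ^ (1 / 4 : ℝ) = K := by
      rw [← Real.rpow_add hKpos]
      norm_num
    rw [e, e2]
    refine mul_le_mul_of_nonneg_left ?_ (by positivity)
    nlinarith
  set D : ℝ := C₁ * K ^ (1 / 4 : ℝ) * B with hD
  have hD0 : 0 ≤ D := by positivity
  have hX0 : X ≠ 0 := by
    intro h0
    rw [h0] at hre
    simp at hre
  have hnX : 0 < ‖X‖ := norm_pos_iff.2 hX0
  have harg0 : arg X < 0 := arg_neg_iff.2 him
  have harg1 : -(Real.pi / 2) < arg X := by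
    have := (abs_arg_lt_pi_div_two_iff.2 (Or.inl hre))
    exact (abs_lt.1 this).1
  set δ : ℝ := Real.pi / 2 + arg X with hδ
  have hδ0 : 0 < δ := by linarith
  -- lower bound for `δ`
  have hδK : X.re / K ≤ δ := by
    have h1 : Real.sin δ = X.re / ‖X‖ := by
      rw [hδ, add_comm, Real.sin_add_pi_div_two, Complex.cos_arg hX0]
    have h2 : Real.sin δ ≤ δ := Real.sin_le hδ0.le
    have h3 : X.re / K ≤ X.re / ‖X‖ := by gcongr
    linarith
  have hreK : X.re ≤ K := (re_le_norm X).trans hXK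
  -- pointwise bound
  have hbound : ∀ τ : ℝ, ‖E τ * X ^ (vl (5 / 4) τ - 1) * h τ‖ ≤
      D * (Real.exp (-(1 / 2) * |τ|) + |τ| ^ (-(1 / 4) : ℝ) * Real.exp (-δ * |τ|)) := by
    intro τ
    have hw : ‖X ^ (vl (5 / 4) τ - 1)‖ = ‖X‖ ^ (1 / 4 : ℝ) * Real.exp (-(arg X * τ)) := by
      rw [norm_cpow_of_ne_zero hX0, Real.exp_neg]
      have h1 : (vl (5 / 4) τ - 1).re = 1 / 4 := by
        simp [vl]; norm_num
      have h2 : (vl (5 / 4) τ - 1).im = τ := by
        simp [vl]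
      rw [h1, h2]
      rfl
    have hpow : ‖X‖ ^ (1 / 4 : ℝ) ≤ K ^ (1 / 4 : ℝ) :=
      Real.rpow_le_rpow hnX.le hXK (by norm_num)
    have hpp : 0 ≤ |τ| ^ (-(1 / 4) : ℝ) := Real.rpow_nonneg (abs_nonneg _) _
    have hEX : ‖E τ‖ * Real.exp (-(arg X * τ)) ≤
        C₁ * (Real.exp (-(1 / 2) * |τ|) + |τ| ^ (-(1 / 4) : ℝ) * Real.exp (-δ * |τ|)) := by
      rcases le_total 0 τ with hτ | hτ
      · have h1 := hE1 τ hτ
        rcases eq_or_lt_of_le hτ with h0 | h0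
        · rw [← h0] at h1 ⊢
          simp only [add_zero, Real.one_rpow, mul_zero, zero_div, neg_zero, Real.exp_zero,
            mul_one, abs_zero] at h1 ⊢
          have : (0 : ℝ) ≤ 0 ^ (-(1 / 4) : ℝ) := Real.rpow_nonneg le_rfl _
          nlinarith
        rw [abs_of_nonneg hτ]
        have h2 : (1 + τ) ^ (-(1 / 4) : ℝ) ≤ τ ^ (-(1 / 4) : ℝ) :=
          Real.rpow_le_rpow_of_nonpos h0 (by linarith) (by norm_num)
        calc ‖E τ‖ * Real.exp (-(arg X * τ))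
            ≤ C₁ * (1 + τ) ^ (-(1 / 4) : ℝ) * Real.exp (-(Real.pi * τ / 2)) *
              Real.exp (-(arg X * τ)) := by gcongr
          _ = C₁ * ((1 + τ) ^ (-(1 / 4) : ℝ) * Real.exp (-δ * τ)) := by
              rw [mul_assoc, ← Real.exp_add, hδ, mul_assoc]; ring_nf
          _ ≤ C₁ * (τ ^ (-(1 / 4) : ℝ) * Real.exp (-δ * τ)) := by gcongr
          _ ≤ C₁ * (Real.exp (-(1 / 2) * τ) + τ ^ (-(1 / 4) : ℝ) * Real.exp (-δ * τ)) := by
              gcongr
              linarith [Real.exp_pos (-(1 / 2) * τ)]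
      · have h1 := hE2 τ hτ
        have h2 : 1 + |τ| ≤ Real.exp |τ| := by linarith [Real.add_one_le_exp |τ|]
        have h3 : Real.exp (-(arg X * τ)) ≤ 1 := by
          rw [Real.exp_le_one_iff]
          nlinarith
        calc ‖E τ‖ * Real.exp (-(arg X * τ))
            ≤ (C₁ * (1 + |τ|) * Real.exp (Real.pi * τ / 2)) * 1 := by gcongr
          _ ≤ C₁ * Real.exp |τ| * Real.exp (Real.pi * τ / 2) := by
              rw [mul_one]; gcongr
          _ = C₁ * Real.exp (|τ| + Real.pi * τ / 2) := by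
              rw [mul_assoc, ← Real.exp_add]
          _ ≤ C₁ * Real.exp (-(1 / 2) * |τ|) := by
              gcongr
              rw [abs_of_nonpos hτ]
              nlinarith [Real.pi_gt_three]
          _ ≤ C₁ * (Real.exp (-(1 / 2) * |τ|) + |τ| ^ (-(1 / 4) : ℝ) * Real.exp (-δ * |τ|)) := by
              gcongr
              have := mul_nonneg hpp (Real.exp_pos (-δ * |τ|)).le
              linarith
    calc ‖E τ * X ^ (vl (5 / 4) τ - 1) * h τ‖
        = (‖E τ‖ * Real.exp (-(arg X * τ))) * ‖X‖ ^ (1 / 4 : ℝ) * ‖h τ‖ := by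
          rw [norm_mul, norm_mul, hw]; ring
      _ ≤ (C₁ * (Real.exp (-(1 / 2) * |τ|) + |τ| ^ (-(1 / 4) : ℝ) * Real.exp (-δ * |τ|))) *
          K ^ (1 / 4 : ℝ) * B := by
          have := hB' τ
          gcongr
      _ = D * (Real.exp (-(1 / 2) * |τ|) + |τ| ^ (-(1 / 4) : ℝ) * Real.exp (-δ * |τ|)) := by
          rw [hD]; ring
  have hI1 := ERR_exp (δ := 1 / 2) (by norm_num)
  have hI2 := ERR_pow hδ0
  have hG : Integrable (fun τ : ℝ => D * (Real.exp (-(1 / 2) * |τ|) +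
      |τ| ^ (-(1 / 4) : ℝ) * Real.exp (-δ * |τ|))) :=
    (hI1.1.add hI2.1).const_mul D
  have hcont : Continuous (fun τ : ℝ => E τ * X ^ (vl (5 / 4) τ - 1) * h τ) := by
    have h1 : Continuous (fun τ : ℝ => vl (5 / 4) τ - 1) := by
      unfold vl
      fun_prop
    exact (hE.mul (h1.const_cpow (Or.inl hX0))).mul hh
  refine ⟨hG.mono' hcont.aestronglyMeasurable (Eventually.of_forall hbound), ?_⟩
  refine le_trans ?_ (mul_le_mul_of_nonneg_right hconst (Real.rpow_nonneg hre.le _))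
  have hΓ : 0 < Real.Gamma (3 / 4) := Real.Gamma_pos_of_pos (by norm_num)
  calc ‖∫ τ : ℝ, E τ * X ^ (vl (5 / 4) τ - 1) * h τ‖
      ≤ ∫ τ : ℝ, D * (Real.exp (-(1 / 2) * |τ|) + |τ| ^ (-(1 / 4) : ℝ) * Real.exp (-δ * |τ|)) :=
        norm_integral_le_of_norm_le hG (Eventually.of_forall hbound)
    _ = D * (4 + 2 * ((1 / δ) ^ (3 / 4 : ℝ) * Real.Gamma (3 / 4))) := by
        rw [integral_const_mul, integral_add hI1.1 hI2.1, hI1.2, hI2.2]
        norm_num
    _ ≤ (4 * K ^ (3 / 4 : ℝ) + 2 * (Real.Gamma (3 / 4) * K ^ (3 / 4 : ℝ))) * D *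
        X.re ^ (-(3 / 4) : ℝ) := by
        have h1 : 1 ≤ K / X.re := (one_le_div hre).2 hreK
        have h2 : 1 / δ ≤ K / X.re := by
          rw [div_le_div_iff₀ hδ0 hre]
          have := (div_le_iff₀ (by linarith : 0 < K)).1 hδK
          linarith
        have h3 : (K / X.re) ^ (3 / 4 : ℝ) = K ^ (3 / 4 : ℝ) * X.re ^ (-(3 / 4) : ℝ) := by
          rw [Real.div_rpow (by linarith) hre.le, Real.rpow_neg hre.le, div_eq_mul_inv]
        have h4 : 1 ≤ (K / X.re) ^ (3 / 4 : ℝ) := Real.one_le_rpow h1 (by norm_num)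
        have h5 : (1 / δ) ^ (3 / 4 : ℝ) ≤ (K / X.re) ^ (3 / 4 : ℝ) :=
          Real.rpow_le_rpow (by positivity) h2 (by norm_num)
        have h6 : (4 * K ^ (3 / 4 : ℝ) + 2 * (Real.Gamma (3 / 4) * K ^ (3 / 4 : ℝ))) * D *
            X.re ^ (-(3 / 4) : ℝ) = D * (4 * (K / X.re) ^ (3 / 4 : ℝ) +
            2 * ((K / X.re) ^ (3 / 4 : ℝ) * Real.Gamma (3 / 4))) := by
          rw [h3]; ring
        rw [h6]
        have h7 : (1 / δ) ^ (3 / 4 : ℝ) * Real.Gamma (3 / 4) ≤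
            (K / X.re) ^ (3 / 4 : ℝ) * Real.Gamma (3 / 4) :=
          mul_le_mul_of_nonneg_right h5 hΓ.le
        refine mul_le_mul_of_nonneg_left ?_ hD0
        linarith

end Pool.Agent.SelQ
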