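import Pool.Agent.SelQ.TargetsD

set_option autoImplicit false

open Finset

namespace Pool.Agent.SelQ

noncomputable section

theorem EXC_cs (f g : ℕ → ℝ) (hf : ∀ n, 0 ≤ f n) (hg : ∀ n, 0 ≤ g n)
    (sf : Summable fun n => f n ^ 2) (sg : Summable fun n => g n ^ 2) {A B : ℝ}
    (hA : 0 ≤ A) (hB : 0 ≤ B) (h1 : ∑' n, f n ^ 2 ≤ A ^ 2) (h2 : ∑' n, g n ^ 2 ≤ B ^ 2) :
    Summable (fun n => f n * g n) ∧ ∑' n, f n * g n ≤ A * B := by
  have hpq : (2 : ℝ).HolderConjugate 2 := by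
    rw [Real.holderConjugate_iff]; constructor <;> norm_num
  have e1 : (fun n => f n ^ (2 : ℝ)) = fun n => f n ^ 2 := by
    funext n; exact Real.rpow_natCast (f n) 2
  have e2 : (fun n => g n ^ (2 : ℝ)) = fun n => g n ^ 2 := by
    funext n; exact Real.rpow_natCast (g n) 2
  have key := Real.summable_and_inner_le_Lp_mul_Lq_tsum_of_nonneg hpq hf hg (by rw [e1]; exact sf)
    (by rw [e2]; exact sg)
  refine ⟨key.1, key.2.trans ?_⟩
  rw [e1, e2]
  have hx : 0 ≤ ∑' n, f n ^ 2 := tsum_nonneg fun n => sq_nonneg _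
  have hy : 0 ≤ ∑' n, g n ^ 2 := tsum_nonneg fun n => sq_nonneg _
  have ha : (∑' n, f n ^ 2) ^ (1 / (2 : ℝ)) ≤ A := by
    rw [← Real.sqrt_eq_rpow]; exact Real.sqrt_le_iff.mpr ⟨hA, h1⟩
  have hb : (∑' n, g n ^ 2) ^ (1 / (2 : ℝ)) ≤ B := by
    rw [← Real.sqrt_eq_rpow]; exact Real.sqrt_le_iff.mpr ⟨hB, h2⟩
  exact mul_le_mul ha hb (Real.rpow_nonneg hy _) hA

theorem EXC_wnn (c : ℕ → ℝ) (η : ℝ) (n : ℕ) : 0 ≤ wc c η n :=
  mul_nonneg (sq_nonneg _) (Real.rpow_nonneg (Nat.cast_nonneg n) _)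

theorem EXC_w0 (c : ℕ → ℝ) {η : ℝ} (hη : 0 < η) : wc c η 0 = 0 := by
  unfold wc
  rw [Nat.cast_zero, Real.zero_rpow (by linarith), mul_zero]

theorem EXC_sum (c : ℕ → ℝ) (hc : MF c) {η : ℝ} (hη : 0 < η) : Summable (wc c η) := by
  obtain ⟨C, hC⟩ := hc.small (η / 4) (by linarith)
  have hs : Summable (fun n : ℕ => C ^ 2 * (n : ℝ) ^ (-(1 + η / 2))) :=
    (Real.summable_nat_rpow.mpr (by linarith)).mul_left _
  refine Summable.of_nonneg_of_le (fun n => EXC_wnn c η n) (fun n => ?_) hs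
  rcases Nat.eq_zero_or_pos n with h | h
  · subst h
    rw [EXC_w0 c hη]
    exact mul_nonneg (sq_nonneg _) (Real.rpow_nonneg (Nat.cast_nonneg _) _)
  · have hn : (0 : ℝ) < n := by exact_mod_cast h
    unfold wc
    have h1 : c n ^ 2 ≤ (C * (n : ℝ) ^ (η / 4)) ^ 2 :=
      pow_le_pow_left₀ (hc.nn n) (hC n h) 2
    calc c n ^ 2 * (n : ℝ) ^ (-1 - η) ≤ (C * (n : ℝ) ^ (η / 4)) ^ 2 * (n : ℝ) ^ (-1 - η) :=
          mul_le_mul_of_nonneg_right h1 (Real.rpow_nonneg hn.le _)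
      _ = C ^ 2 * (((n : ℝ) ^ (η / 4)) ^ 2 * (n : ℝ) ^ (-1 - η)) := by ring
      _ = C ^ 2 * (n : ℝ) ^ (-(1 + η / 2)) := by
          rw [← Real.rpow_natCast ((n : ℝ) ^ (η / 4)) 2, ← Real.rpow_mul hn.le,
            ← Real.rpow_add hn]
          congr 2
          push_cast
          ring

theorem EXC_shift {η : ℝ} (hη : 0 < η) (hη1 : η ≤ 1) (k : ℕ) (n : ℕ) :
    (n : ℝ) ^ (-1 - η) ≤ (1 + k : ℝ) ^ 2 * ((n + k : ℕ) : ℝ) ^ (-1 - η) := by
  rcases Nat.eq_zero_or_pos n with h | h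
  · subst h
    rw [Nat.cast_zero, Real.zero_rpow (by linarith)]
    exact mul_nonneg (sq_nonneg _) (Real.rpow_nonneg (Nat.cast_nonneg _) _)
  · have hn : (1 : ℝ) ≤ n := by exact_mod_cast h
    have hn0 : (0 : ℝ) < n := by linarith
    have hk : (0 : ℝ) ≤ k := Nat.cast_nonneg k
    have h1 : ((n + k : ℕ) : ℝ) ≤ (1 + k) * n := by
      push_cast; nlinarith
    have hp : (0 : ℝ) < ((n + k : ℕ) : ℝ) := by push_cast; linarith
    have h2 : ((1 + k : ℝ) * n) ^ (-1 - η) ≤ ((n + k : ℕ) : ℝ) ^ (-1 - η) :=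
      Real.rpow_le_rpow_of_nonpos hp h1 (by linarith)
    have h3 : ((1 + k : ℝ) * n) ^ (-1 - η) = (1 + k : ℝ) ^ (-1 - η) * (n : ℝ) ^ (-1 - η) :=
      Real.mul_rpow (by linarith) hn0.le
    have h4 : (1 : ℝ) ≤ (1 + k : ℝ) ^ 2 * (1 + k : ℝ) ^ (-1 - η) := by
      rw [← Real.rpow_natCast, ← Real.rpow_add (by linarith)]
      exact Real.one_le_rpow (by linarith) (by push_cast; linarith)
    calc (n : ℝ) ^ (-1 - η) = 1 * (n : ℝ) ^ (-1 - η) := (one_mul _).symm
      _ ≤ ((1 + k : ℝ) ^ 2 * (1 + k : ℝ) ^ (-1 - η)) * (n : ℝ) ^ (-1 - η) :=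
          mul_le_mul_of_nonneg_right h4 (Real.rpow_nonneg hn0.le _)
      _ = (1 + k : ℝ) ^ 2 * ((1 + k : ℝ) * n) ^ (-1 - η) := by rw [h3]; ring
      _ ≤ _ := mul_le_mul_of_nonneg_left h2 (sq_nonneg _)

theorem EXC_tail (f : ℕ → ℝ) (hf : ∀ n, 0 ≤ f n) (sf : Summable f) (k : ℕ) :
    ∑' n, f (n + k) ≤ ∑' n, f n := by
  rw [← sf.sum_add_tsum_nat_add k]
  have := Finset.sum_nonneg (s := range k) (fun i _ => hf i)
  linarith

theorem p_EXC : T_EXC := by
  classical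
  intro c hc η hη hη1 bad δ hδ hbad k hk
  have hcl : ∀ n : ℕ, (open Classical in if bad n then wc c η n else 0) =
      if bad n then wc c η n else 0 := fun n => by congr
  have hw := EXC_sum c hc hη
  have hwn := EXC_wnn c η
  set D := DD c η with hD
  have hD0 : 0 ≤ D := tsum_nonneg hwn
  have hk0 : (0 : ℝ) ≤ 1 + k := by positivity
  set s : ℕ → ℝ := fun n => Real.sqrt ((n : ℝ) ^ (-1 - η)) with hs
  have hs0 : ∀ n, 0 ≤ s n := fun n => Real.sqrt_nonneg _
  have hs2 : ∀ n : ℕ, s n ^ 2 = (n : ℝ) ^ (-1 - η) := fun n =>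
    Real.sq_sqrt (Real.rpow_nonneg (Nat.cast_nonneg n) _)
  have hsD : Real.sqrt D ^ 2 = D := Real.sq_sqrt hD0
  -- the two auxiliary functions
  set wb : ℕ → ℝ := fun n => if bad n then wc c η n else 0 with hwb
  have hwb0 : ∀ n, 0 ≤ wb n := fun n => by
    simp only [hwb]; split_ifs; exacts [hwn n, le_refl _]
  have hwbs : Summable wb := Summable.of_nonneg_of_le hwb0
    (fun n => by simp only [hwb]; split_ifs; exacts [le_refl _, hwn n]) hw
  have hwbD : ∑' n, wb n ≤ δ ^ 2 * D := by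
    refine le_trans (le_of_eq (tsum_congr fun n => ?_)) hbad
    simp only [hwb]
  have hsh : ∀ n : ℕ, (c (n + k) * s n) ^ 2 ≤ (1 + k : ℝ) ^ 2 * wc c η (n + k) := by
    intro n
    rw [mul_pow, hs2]
    unfold wc
    have := EXC_shift hη hη1 k n
    nlinarith [sq_nonneg (c (n + k)), mul_le_mul_of_nonneg_left this (sq_nonneg (c (n + k)))]
  have hws : Summable (fun n => wc c η (n + k)) := (summable_nat_add_iff k).mpr hw
  have hwbss : Summable (fun n => wb (n + k)) := (summable_nat_add_iff k).mpr hwbs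
  -- first sum
  have A1 : Summable (fun n => (if bad n then c n * s n else 0) * (c (n + k) * s n)) ∧
      ∑' n, (if bad n then c n * s n else 0) * (c (n + k) * s n) ≤
        (δ * Real.sqrt D) * ((1 + k) * Real.sqrt D) := by
    have e1 : (fun n => (if bad n then c n * s n else 0) ^ 2) = wb := by
      funext n
      simp only [hwb]
      split_ifs
      · rw [mul_pow, hs2]; rfl
      · norm_num
    have sg : Summable (fun n => (c (n + k) * s n) ^ 2) :=
      Summable.of_nonneg_of_le (fun n => sq_nonneg _) hsh (hws.mul_left _)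
    refine EXC_cs _ _ (fun n => ?_) (fun n => mul_nonneg (hc.nn _) (hs0 n)) ?_ sg
      (mul_nonneg hδ (Real.sqrt_nonneg _)) (mul_nonneg hk0 (Real.sqrt_nonneg _)) ?_ ?_
    · split_ifs; exacts [mul_nonneg (hc.nn _) (hs0 n), le_refl _]
    · rw [e1]; exact hwbs
    · rw [e1, mul_pow, hsD]; exact hwbD
    · rw [mul_pow, hsD]
      calc ∑' n, (c (n + k) * s n) ^ 2 ≤ ∑' n, (1 + k : ℝ) ^ 2 * wc c η (n + k) :=
            sg.tsum_le_tsum hsh (hws.mul_left _)
        _ = (1 + k : ℝ) ^ 2 * ∑' n, wc c η (n + k) := tsum_mul_left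
        _ ≤ (1 + k : ℝ) ^ 2 * D :=
            mul_le_mul_of_nonneg_left (EXC_tail _ hwn hw k) (sq_nonneg _)
  -- second sum
  have A2 : Summable (fun n => (c n * s n) * (if bad (n + k) then c (n + k) * s n else 0)) ∧
      ∑' n, (c n * s n) * (if bad (n + k) then c (n + k) * s n else 0) ≤
        Real.sqrt D * ((1 + k) * δ * Real.sqrt D) := by
    have e1 : (fun n => (c n * s n) ^ 2) = wc c η := by
      funext n
      rw [mul_pow, hs2]; rfl
    have hle : ∀ n : ℕ, (if bad (n + k) then c (n + k) * s n else 0) ^ 2 ≤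
        (1 + k : ℝ) ^ 2 * wb (n + k) := by
      intro n
      simp only [hwb]
      split_ifs
      · exact hsh n
      · norm_num
    have sg : Summable (fun n => (if bad (n + k) then c (n + k) * s n else 0) ^ 2) :=
      Summable.of_nonneg_of_le (fun n => sq_nonneg _) hle (hwbss.mul_left _)
    refine EXC_cs _ _ (fun n => mul_nonneg (hc.nn _) (hs0 n)) (fun n => ?_) ?_ sg
      (Real.sqrt_nonneg _) (mul_nonneg (mul_nonneg hk0 hδ) (Real.sqrt_nonneg _)) ?_ ?_
    · split_ifs; exacts [mul_nonneg (hc.nn _) (hs0 n), le_refl _]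
    · rw [e1]; exact hw
    · rw [e1, hsD]; exact le_of_eq rfl
    · rw [mul_pow, hsD, mul_pow]
      calc ∑' n, (if bad (n + k) then c (n + k) * s n else 0) ^ 2
          ≤ ∑' n, (1 + k : ℝ) ^ 2 * wb (n + k) := sg.tsum_le_tsum hle (hwbss.mul_left _)
        _ = (1 + k : ℝ) ^ 2 * ∑' n, wb (n + k) := tsum_mul_left
        _ ≤ (1 + k : ℝ) ^ 2 * (δ ^ 2 * D) :=
            mul_le_mul_of_nonneg_left ((EXC_tail _ hwb0 hwbs k).trans hwbD) (sq_nonneg _)
        _ = _ := by ring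
  have hbound : ∀ n : ℕ, (open Classical in if bad n ∨ bad (n + k) then
      c n * c (n + k) * (n : ℝ) ^ (-1 - η) else 0) ≤
      (if bad n then c n * s n else 0) * (c (n + k) * s n) +
        (c n * s n) * (if bad (n + k) then c (n + k) * s n else 0) := by
    intro n
    have ht : c n * c (n + k) * (n : ℝ) ^ (-1 - η) = (c n * s n) * (c (n + k) * s n) := by
      rw [← hs2 n]; ring
    have h0 : 0 ≤ (c n * s n) * (c (n + k) * s n) :=
      mul_nonneg (mul_nonneg (hc.nn _) (hs0 n)) (mul_nonneg (hc.nn _) (hs0 n))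
    rw [ht]
    by_cases h1 : bad n <;> by_cases h2 : bad (n + k) <;> simp [h1, h2] <;> linarith
  have hnn : ∀ n : ℕ, 0 ≤ (open Classical in if bad n ∨ bad (n + k) then
      c n * c (n + k) * (n : ℝ) ^ (-1 - η) else 0) := by
    intro n
    split_ifs
    · exact mul_nonneg (mul_nonneg (hc.nn _) (hc.nn _))
        (Real.rpow_nonneg (Nat.cast_nonneg n) _)
    · exact le_refl _
  have hsum := A1.1.add A2.1
  have hS := Summable.of_nonneg_of_le hnn hbound hsum
  calc _ ≤ ∑' n, ((if bad n then c n * s n else 0) * (c (n + k) * s n) +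
        (c n * s n) * (if bad (n + k) then c (n + k) * s n else 0)) :=
        hS.tsum_le_tsum hbound hsum
    _ = _ := A1.1.tsum_add A2.1
    _ ≤ (δ * Real.sqrt D) * ((1 + k) * Real.sqrt D) +
        Real.sqrt D * ((1 + k) * δ * Real.sqrt D) := add_le_add A1.2 A2.2
    _ = 2 * (1 + k) * δ * (Real.sqrt D ^ 2) := by ring
    _ = 2 * (1 + k) * δ * D := by rw [hsD]

end

end Pool.Agent.SelQ
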