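import Pool.Agent.SelQ.TargetsE

/-!
# Degree 2 without the mean square bound: inversion and decorrelation give `D ≤ C T`
-/

set_option autoImplicit false

open Finset

namespace Pool.Agent.SelQ

open Pool.Agent.SelTwo (lam pX vl cj tw gP)
open Pool.Agent.SelDeg2 (ee gth)

namespace FINQ_

/-! ### Fubini on a rectangle, integrals with moving bounds -/

theorem swap (f : ℝ → ℝ → ℝ) {a b c d : ℝ} (hab : a ≤ b) (hcd : c ≤ d)
    (hf : ContinuousOn (Function.uncurry f) (Set.Icc a b ×ˢ Set.Icc c d)) :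
    ∫ x in a..b, ∫ y in c..d, f x y = ∫ y in c..d, ∫ x in a..b, f x y := by
  simp only [intervalIntegral.integral_of_le hab, intervalIntegral.integral_of_le hcd]
  apply MeasureTheory.integral_integral_swap
  rw [MeasureTheory.Measure.prod_restrict]
  have h1 : MeasureTheory.IntegrableOn (Function.uncurry f) (Set.Icc a b ×ˢ Set.Icc c d)
      (MeasureTheory.volume.prod MeasureTheory.volume) :=
    hf.integrableOn_compact (isCompact_Icc.prod isCompact_Icc)
  exact h1.mono_set (Set.prod_mono Set.Ioc_subset_Icc_self Set.Ioc_subset_Icc_self)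

/-- The positive half plane. -/
def HP : Set (ℝ × ℝ) := {p : ℝ × ℝ | 0 < p.2}

theorem contI (g : ℝ → ℝ → ℝ) (hg : ContinuousOn (Function.uncurry g) HP) {η : ℝ} (hη : 0 < η)
    (x : ℝ) : ContinuousOn (fun y : ℝ => y ^ η * g x y) (Set.Ioi 0) := by
  apply ContinuousOn.mul
  · exact (Real.continuous_rpow_const hη.le).continuousOn
  · exact hg.comp (f := fun y : ℝ => (x, y)) (by fun_prop) (fun y hy => hy)

theorem iiI (g : ℝ → ℝ → ℝ) (hg : ContinuousOn (Function.uncurry g) HP) {η : ℝ} (hη : 0 < η)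
    (x : ℝ) {c d : ℝ} (hc : 0 < c) (hd : 0 < d) :
    IntervalIntegrable (fun y : ℝ => y ^ η * g x y) MeasureTheory.volume c d := by
  apply ContinuousOn.intervalIntegrable
  apply (contI g hg hη x).mono
  intro y hy
  exact lt_of_lt_of_le (lt_min hc hd) hy.1

theorem fub (g : ℝ → ℝ → ℝ) (hg : ContinuousOn (Function.uncurry g) HP) {η α β δ Y : ℝ}
    (hη : 0 < η) (hαβ : α ≤ β) (hδ : 0 < δ) (hδY : δ ≤ Y) {W : ℝ → ℝ}
    (hW : ContinuousOn W (Set.Icc α β)) :
    ∫ x in α..β, W x * ∫ y in δ..Y, y ^ η * g x y =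
      ∫ y in δ..Y, y ^ η * ∫ x in α..β, W x * g x y := by
  have h1 : ∀ x, W x * ∫ y in δ..Y, y ^ η * g x y = ∫ y in δ..Y, W x * (y ^ η * g x y) := by
    intro x
    rw [intervalIntegral.integral_const_mul]
  have h2 : ∀ y : ℝ, y ^ η * ∫ x in α..β, W x * g x y = ∫ x in α..β, W x * (y ^ η * g x y) := by
    intro y
    rw [← intervalIntegral.integral_const_mul]
    congr 1
    ext x
    ring
  simp only [h1, h2]
  apply swap _ hαβ hδY
  have e : Function.uncurry (fun x y : ℝ => W x * (y ^ η * g x y)) =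
      fun p : ℝ × ℝ => W p.1 * (p.2 ^ η * Function.uncurry g p) := by
    ext p
    rfl
  rw [e]
  apply ContinuousOn.mul
  · exact hW.comp continuousOn_fst (fun p hp => hp.1)
  · apply ContinuousOn.mul
    · exact ((Real.continuous_rpow_const hη.le).comp continuous_snd).continuousOn
    · exact hg.mono (fun p hp => lt_of_lt_of_le hδ hp.2.1)

/-- The truncated function. -/
def tr (g : ℝ → ℝ → ℝ) (y₀ x y : ℝ) : ℝ := g x (max y y₀)

theorem cont_tr (g : ℝ → ℝ → ℝ) (hg : ContinuousOn (Function.uncurry g) HP) {y₀ : ℝ}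
    (h0 : 0 < y₀) : Continuous (fun p : ℝ × ℝ => tr g y₀ p.1 p.2) := by
  have e : (fun p : ℝ × ℝ => tr g y₀ p.1 p.2) =
      Function.uncurry g ∘ (fun p : ℝ × ℝ => (p.1, max p.2 y₀)) := rfl
  rw [e]
  apply hg.comp_continuous (by fun_prop)
  intro p
  exact lt_of_lt_of_le h0 (le_max_right _ _)

theorem contF (g : ℝ → ℝ → ℝ) (hg : ContinuousOn (Function.uncurry g) HP) {η y₀ : ℝ}
    (hη : 0 < η) (h0 : 0 < y₀) {s t : ℝ → ℝ} (hs : Continuous s) (ht : Continuous t) :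
    Continuous (fun x : ℝ => ∫ y in (s x)..(t x), y ^ η * tr g y₀ x y) := by
  have hc : Continuous (Function.uncurry (fun x y : ℝ => y ^ η * tr g y₀ x y)) := by
    have e : Function.uncurry (fun x y : ℝ => y ^ η * tr g y₀ x y) =
        fun p : ℝ × ℝ => p.2 ^ η * tr g y₀ p.1 p.2 := rfl
    rw [e]
    exact ((Real.continuous_rpow_const hη.le).comp continuous_snd).mul (cont_tr g hg h0)
  have h1 := intervalIntegral.continuous_parametric_intervalIntegral_of_continuous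
    (μ := MeasureTheory.volume) (a₀ := 0) hc hs
  have h2 := intervalIntegral.continuous_parametric_intervalIntegral_of_continuous
    (μ := MeasureTheory.volume) (a₀ := 0) hc ht
  have e : (fun x : ℝ => ∫ y in (s x)..(t x), y ^ η * tr g y₀ x y) =
      fun x => (∫ y in (0 : ℝ)..(t x), y ^ η * tr g y₀ x y) -
        ∫ y in (0 : ℝ)..(s x), y ^ η * tr g y₀ x y := by
    ext x
    have hx : Continuous (fun y : ℝ => y ^ η * tr g y₀ x y) :=
      hc.comp (by fun_prop : Continuous (fun y : ℝ => (x, y)))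
    rw [intervalIntegral.integral_interval_sub_left (hx.intervalIntegrable _ _)
      (hx.intervalIntegrable _ _)]
  rw [e]
  exact h2.sub h1

theorem iiF (g : ℝ → ℝ → ℝ) (hg : ContinuousOn (Function.uncurry g) HP) {η α β : ℝ}
    (hη : 0 < η) (hαβ : α ≤ β) {s t : ℝ → ℝ} (hs : Continuous s) (ht : Continuous t)
    (hst : ∃ y₀ : ℝ, 0 < y₀ ∧ ∀ x ∈ Set.Icc α β, y₀ ≤ s x ∧ y₀ ≤ t x) {W : ℝ → ℝ}
    (hW : ContinuousOn W (Set.Icc α β)) :
    IntervalIntegrable (fun x => W x * ∫ y in (s x)..(t x), y ^ η * g x y)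
      MeasureTheory.volume α β := by
  obtain ⟨y₀, h0, hy⟩ := hst
  apply ContinuousOn.intervalIntegrable
  rw [Set.uIcc_of_le hαβ]
  apply hW.mul
  apply ((contF g hg hη h0 hs ht).continuousOn (s := Set.Icc α β)).congr
  intro x hx
  apply intervalIntegral.integral_congr
  intro y hy'
  have h3 : y₀ ≤ y := (le_min (hy x hx).1 (hy x hx).2).trans hy'.1
  show y ^ η * g x y = y ^ η * tr g y₀ x y
  unfold tr
  rw [max_eq_left h3]

/-! ### Weights and correlations -/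

theorem sq_rpow {x : ℝ} (hx : 0 ≤ x) (η : ℝ) : (x ^ (-(1 + η) / 2)) ^ 2 = x ^ (-1 - η) := by
  rw [← Real.rpow_natCast, ← Real.rpow_mul hx]
  congr 1
  push_cast
  ring

theorem wsum {c : ℕ → ℝ} (hc : MF c) {η : ℝ} (hη : 0 < η) : Summable (wc c η) := by
  obtain ⟨C, hC⟩ := hc.small (η / 4) (by linarith)
  have h1 : Summable (fun n : ℕ => C ^ 2 * (n : ℝ) ^ (-1 - η / 2)) :=
    (Real.summable_nat_rpow.mpr (by linarith)).mul_left _
  refine Summable.of_nonneg_of_le (fun n => ?_) (fun n => ?_) h1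
  · unfold wc
    have := Real.rpow_nonneg (Nat.cast_nonneg (α := ℝ) n) (-1 - η)
    positivity
  · unfold wc
    rcases Nat.eq_zero_or_pos n with rfl | hn
    · rw [Nat.cast_zero, Real.zero_rpow (by linarith), Real.zero_rpow (by linarith)]
      simp
    · have hnp : (0 : ℝ) < n := by exact_mod_cast hn
      have h2 := hC n hn
      have h3 : c n ^ 2 ≤ (C * (n : ℝ) ^ (η / 4)) ^ 2 := pow_le_pow_left₀ (hc.nn n) h2 2
      calc c n ^ 2 * (n : ℝ) ^ (-1 - η) ≤ (C * (n : ℝ) ^ (η / 4)) ^ 2 * (n : ℝ) ^ (-1 - η) :=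
            mul_le_mul_of_nonneg_right h3 (Real.rpow_nonneg hnp.le _)
        _ = C ^ 2 * (((n : ℝ) ^ (η / 4)) ^ 2 * (n : ℝ) ^ (-1 - η)) := by ring
        _ = C ^ 2 * (n : ℝ) ^ (-1 - η / 2) := by
            have h4 : ((n : ℝ) ^ (η / 4)) ^ 2 = (n : ℝ) ^ (η / 2) := by
              rw [← Real.rpow_natCast, ← Real.rpow_mul hnp.le]
              congr 1
              push_cast
              ring
            rw [h4, ← Real.rpow_add hnp]
            congr 2
            ring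

theorem term_le {c : ℕ → ℝ} (η : ℝ) (k n : ℕ) :
    c n * c (n + k) * ((n : ℝ) * (n + k)) ^ (-(1 + η) / 2) ≤
      (wc c η n + wc c η (n + k)) / 2 := by
  have hx : (0 : ℝ) ≤ n := Nat.cast_nonneg n
  have hy : (0 : ℝ) ≤ (n : ℝ) + k := by positivity
  rw [Real.mul_rpow hx hy]
  have h1 := sq_rpow hx η
  have h2 := sq_rpow hy η
  unfold wc
  push_cast
  rw [← h1, ← h2]
  nlinarith [sq_nonneg (c n * (n : ℝ) ^ (-(1 + η) / 2) -
    c (n + k) * ((n : ℝ) + k) ^ (-(1 + η) / 2))]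

theorem term_nn {c : ℕ → ℝ} (hc : ∀ n, 0 ≤ c n) (η : ℝ) (k n : ℕ) :
    0 ≤ c n * c (n + k) * ((n : ℝ) * (n + k)) ^ (-(1 + η) / 2) :=
  mul_nonneg (mul_nonneg (hc _) (hc _)) (Real.rpow_nonneg (by positivity) _)

theorem shift_sum {w : ℕ → ℝ} (hw : Summable w) (k : ℕ) : Summable (fun n => w (n + k)) :=
  (summable_nat_add_iff k).mpr hw

theorem cor_sm {c : ℕ → ℝ} (hc : MF c) {η : ℝ} (hη : 0 < η) (k : ℕ) :
    Summable (fun n : ℕ => c n * c (n + k) * ((n : ℝ) * (n + k)) ^ (-(1 + η) / 2)) :=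
  Summable.of_nonneg_of_le (fun n => term_nn hc.nn η k n) (fun n => term_le η k n)
    (((wsum hc hη).add (shift_sum (wsum hc hη) k)).div_const 2)

theorem wc_nn (c : ℕ → ℝ) (η : ℝ) (n : ℕ) : 0 ≤ wc c η n := by
  unfold wc
  have := Real.rpow_nonneg (Nat.cast_nonneg (α := ℝ) n) (-1 - η)
  positivity

theorem DD_nn (c : ℕ → ℝ) (η : ℝ) : 0 ≤ DD c η := tsum_nonneg (fun n => wc_nn c η n)

theorem cor_nn {c : ℕ → ℝ} (hc : ∀ n, 0 ≤ c n) (η : ℝ) (k : ℕ) : 0 ≤ cor c η k :=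
  tsum_nonneg (fun n => term_nn hc η k n)

theorem cor_le {c : ℕ → ℝ} (hc : MF c) {η : ℝ} (hη : 0 < η) (k : ℕ) : cor c η k ≤ DD c η := by
  have hw := wsum hc hη
  have h1 : cor c η k ≤ ∑' n, (wc c η n + wc c η (n + k)) / 2 :=
    (cor_sm hc hη k).tsum_le_tsum (fun n => term_le η k n) ((hw.add (shift_sum hw k)).div_const 2)
  have h2 : ∑' n, (wc c η n + wc c η (n + k)) / 2 =
      (DD c η + ∑' n, wc c η (n + k)) / 2 := by
    rw [tsum_div_const, hw.tsum_add (shift_sum hw k)]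
    rfl
  have h3 : ∑ i ∈ range k, wc c η i + ∑' n, wc c η (n + k) = DD c η :=
    hw.sum_add_tsum_nat_add k
  have h4 : 0 ≤ ∑ i ∈ range k, wc c η i := Finset.sum_nonneg (fun i _ => wc_nn c η i)
  rw [h2] at h1
  linarith

theorem cor_congr {a as : ℕ → ℂ} (has : ∀ n : ℕ, 1 ≤ n → ‖as n‖ = ‖a n‖) {η : ℝ} (hη : 0 < η)
    (k : ℕ) (n : ℕ) : ‖as n‖ * ‖as (n + k)‖ * ((n : ℝ) * (n + k)) ^ (-(1 + η) / 2) =
      ‖a n‖ * ‖a (n + k)‖ * ((n : ℝ) * (n + k)) ^ (-(1 + η) / 2) := by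
  rcases Nat.eq_zero_or_pos n with rfl | hn
  · rw [Nat.cast_zero, zero_mul, Real.zero_rpow (by linarith)]
    simp
  · rw [has n hn, has (n + k) (by omega)]

/-! ### The two quantities -/

/-- The diagonal. -/
noncomputable def NN (a : ℕ → ℂ) (η δ : ℝ) : ℝ :=
  ∫ y in δ..1, y ^ η * ∑' n : ℕ, ‖a (n + 1)‖ ^ 2 * Real.exp (-(4 * Real.pi * (n + 1) * y))

/-- The sum over the shifts. -/
noncomputable def SS (a : ℕ → ℂ) (η : ℝ) : ℝ :=
  ∑' k : ℕ, cor (fun n => ‖a n‖) η (k + 1) / ((k : ℝ) + 1) ^ 2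

/-- Summability. -/
def OK (a : ℕ → ℂ) (η : ℝ) : Prop :=
  (∀ k : ℕ, 1 ≤ k → Summable (fun n : ℕ => ‖a n‖ * ‖a (n + k)‖ *
    ((n : ℝ) * (n + k)) ^ (-(1 + η) / 2))) ∧
  Summable (fun k : ℕ => cor (fun n => ‖a n‖) η (k + 1) / ((k : ℝ) + 1) ^ 2)

theorem NN_congr {a as : ℕ → ℂ} (has : ∀ n : ℕ, 1 ≤ n → ‖as n‖ = ‖a n‖) (η δ : ℝ) :
    NN as η δ = NN a η δ := by
  unfold NN
  have : ∀ n : ℕ, ‖as (n + 1)‖ = ‖a (n + 1)‖ := fun n => has _ (by omega)
  simp only [this]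

theorem corr {a as : ℕ → ℂ} (has : ∀ n : ℕ, 1 ≤ n → ‖as n‖ = ‖a n‖) {η : ℝ} (hη : 0 < η)
    (k : ℕ) : cor (fun n => ‖as n‖) η k = cor (fun n => ‖a n‖) η k := by
  unfold cor
  exact tsum_congr (fun n => cor_congr has hη k n)

theorem SS_congr {a as : ℕ → ℂ} (has : ∀ n : ℕ, 1 ≤ n → ‖as n‖ = ‖a n‖) {η : ℝ} (hη : 0 < η) :
    SS as η = SS a η := by
  unfold SS
  simp only [corr has hη]

theorem OK_congr {a as : ℕ → ℂ} (has : ∀ n : ℕ, 1 ≤ n → ‖as n‖ = ‖a n‖) {η : ℝ} (hη : 0 < η)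
    (h : OK a η) : OK as η := by
  constructor
  · intro k hk
    simp only [cor_congr has hη k]
    exact h.1 k hk
  · simp only [corr has hη]
    exact h.2

theorem NN_nn (a : ℕ → ℂ) {η δ : ℝ} (hδ : 0 < δ) (hδ1 : δ < 1) : 0 ≤ NN a η δ := by
  unfold NN
  apply intervalIntegral.integral_nonneg hδ1.le
  intro y hy
  apply mul_nonneg (Real.rpow_nonneg (hδ.le.trans hy.1) _)
  exact tsum_nonneg (fun n => by positivity)

theorem SS_nn (a : ℕ → ℂ) (η : ℝ) : 0 ≤ SS a η := by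
  unfold SS
  apply tsum_nonneg
  intro k
  have := cor_nn (c := fun n => ‖a n‖) (fun n => norm_nonneg _) η (k + 1)
  positivity

/-! ### Weights -/

theorem cont_W0 (u v : ℝ) : Continuous (W0 u v) := by
  unfold W0
  fun_prop

theorem W0_nn {u v x : ℝ} (h1 : u ≤ x) (h2 : x ≤ v) : 0 ≤ W0 u v x := by
  unfold W0
  exact mul_nonneg (by linarith) (by linarith)

theorem cont_W1 {κ η u v : ℝ} (hκ : 0 < κ) (hη : 0 < η) (hu : 0 < u) (huv : u < v) :
    ContinuousOn (W1 κ η u v) (Set.Icc (κ / v) (κ / u)) := by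
  have hv : 0 < v := hu.trans huv
  have hpos : ∀ x ∈ Set.Icc (κ / v) (κ / u), 0 < x := fun x hx =>
    lt_of_lt_of_le (by positivity) hx.1
  unfold W1 W0
  apply ContinuousOn.mul
  · apply ContinuousOn.mul
    · exact (continuousOn_const.div continuousOn_id (fun x hx => (hpos x hx).ne')).sub
        continuousOn_const
    · exact continuousOn_const.sub
        (continuousOn_const.div continuousOn_id (fun x hx => (hpos x hx).ne'))
  · apply ContinuousOn.rpow_const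
    · exact continuousOn_const.div (continuousOn_pow 2)
        (fun x hx => (pow_pos (hpos x hx) 2).ne')
    · intro x hx
      right
      linarith

theorem W1_nn {κ η u v x : ℝ} (hκ : 0 < κ) (hu : 0 < u) (huv : u < v)
    (h1 : κ / v ≤ x) (h2 : x ≤ κ / u) : 0 ≤ W1 κ η u v x := by
  have hv : 0 < v := hu.trans huv
  have hx : 0 < x := lt_of_lt_of_le (by positivity) h1
  unfold W1
  apply mul_nonneg
  · apply W0_nn
    · rw [le_div_iff₀ hx]
      rw [le_div_iff₀ hu] at h2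
      linarith
    · rw [div_le_iff₀ hx]
      rw [div_le_iff₀ hv] at h1
      linarith
  · exact Real.rpow_nonneg (by positivity) _

/-- The diagonal and the rest, with the order of the integrals as in `Inv`. -/
theorem off (hOFF : T_OFF) {c : ℕ → ℂ} {W : ℝ → ℝ} {η δ α β B : ℝ} (hη : 0 < η) (hη1 : η ≤ 1)
    (hδ : 0 < δ) (hδ1 : δ < 1) (hαβ : α < β) (hW : ContinuousOn W (Set.Icc α β))
    (hgr : ∃ C : ℝ, ∀ n : ℕ, 1 ≤ n → ‖c n‖ ≤ C * n) (hB : 0 ≤ B)
    (hF : ∀ k : ℤ, k ≠ 0 → ‖FW W α β k‖ ≤ B / (k : ℝ) ^ 2) (hOK : OK c η)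
    (hg : ContinuousOn (Function.uncurry (fun x y : ℝ => ‖lam c (pX x y)‖ ^ 2)) HP) :
    |(∫ x in α..β, W x * ∫ y in δ..1, y ^ η * ‖lam c (pX x y)‖ ^ 2) -
      (∫ x in α..β, W x) * NN c η δ| ≤ 2 * B * SS c η := by
  rw [fub (fun x y : ℝ => ‖lam c (pX x y)‖ ^ 2) hg hη hαβ.le hδ hδ1.le hW]
  exact hOFF c W η δ 1 α β B hη hη1 hδ hδ1 hαβ hW hgr hB hF hOK.1 hOK.2

/-- Both lemmas in one form: the second term of `Inv` by CHV, split at `1`. -/
theorem key1 (hWTS : T_WTS) (hOFF : T_OFF) (hCHV : T_CHV) (hMAS : T_MAS) (hLOC : T_LOC)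
    {a as : ℕ → ℂ} {κ lam0 : ℝ} (hgr : ∃ C : ℝ, ∀ n : ℕ, 1 ≤ n → ‖a n‖ ≤ C * n)
    (has : ∀ n : ℕ, 1 ≤ n → ‖as n‖ = ‖a n‖) (hκ : 0 < κ) (hl0 : 0 < lam0) (hl1 : lam0 ≤ 1)
    (hInv : Inv a as κ lam0) :
    ∃ c K δ₁ : ℝ, 0 < c ∧ 0 ≤ K ∧ 0 < δ₁ ∧ ∀ η : ℝ, 0 < η → η ≤ 1 → OK a η →
      ∀ δ : ℝ, 0 < δ → δ < δ₁ → δ < 1 → c * η * NN a η δ ≤ K * SS a η + K := by
  have hgrs : ∃ C : ℝ, ∀ n : ℕ, 1 ≤ n → ‖as n‖ ≤ C * n := by
    obtain ⟨C, hC⟩ := hgr
    exact ⟨C, fun n hn => by rw [has n hn]; exact hC n hn⟩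
  set v : ℝ := κ / (κ + 1) with hvdef
  set u : ℝ := v / 2 with hudef
  have hv : 0 < v := by positivity
  have hu : 0 < u := by positivity
  have huv : u < v := by rw [hudef]; linarith
  have hvκ : v ^ 2 < κ := by
    rw [hvdef, div_pow, div_lt_iff₀ (by positivity)]
    nlinarith [sq_nonneg κ, mul_pos hκ hκ, mul_pos (mul_pos hκ hκ) hκ]
  obtain ⟨B, hB0, hB⟩ := hWTS κ u v hκ hu huv
  obtain ⟨hM, hm1, _⟩ := hMAS κ u v hκ hu huv
  obtain ⟨c, hc, hcη⟩ := hm1 hvκ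
  obtain ⟨hga, _⟩ := hLOC a hgr
  obtain ⟨hgs, hbs⟩ := hLOC as hgrs
  obtain ⟨CL, hCL0, hCL⟩ := hbs 1 one_pos
  obtain ⟨C0, hC0⟩ := hInv u v hu huv
  set M : ℝ := ∫ x in u..v, W0 u v x with hMdef
  have hαβ : κ / v < κ / u := by
    rw [div_lt_div_iff_of_pos_left hκ hv hu]
    exact huv
  have hα : 0 < κ / v := by positivity
  set Y : ℝ := κ / u ^ 2 with hYdef
  have hY1 : 1 < Y := by
    rw [hYdef, lt_div_iff₀ (by positivity), one_mul]
    exact (pow_lt_pow_left₀ huv hu.le two_ne_zero).trans hvκ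
  have hCY : 0 ≤ Y * CL * (Y - 1) := mul_nonneg (mul_nonneg (by linarith) hCL0) (by linarith)
  have hC00 : 0 ≤ C0 := (abs_nonneg _).trans (hC0 1 (1 / 2) one_pos le_rfl (by norm_num)
    (by norm_num))
  refine ⟨c * M, 4 * B + (M * (Y * CL * (Y - 1)) + C0), 1, mul_pos hc hM, by positivity,
    one_pos, ?_⟩
  intro η hη hη1 hOK δ hδ _ hδ1
  have hOKs := OK_congr has hη hOK
  set gs : ℝ → ℝ → ℝ := fun x y => ‖lam as (pX x y)‖ ^ 2 with hgsdef
  have hgs' : ContinuousOn (Function.uncurry gs) HP := hgs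
  have hgs0 : ∀ x y, 0 ≤ gs x y := fun x y => by rw [hgsdef]; positivity
  set w : ℝ := ∫ x in (κ / v)..(κ / u), W1 κ η u v x with hwdef
  have hW1c := cont_W1 hκ hη hu huv
  have hW1n : ∀ x ∈ Set.Icc (κ / v) (κ / u), 0 ≤ W1 κ η u v x :=
    fun x hx => W1_nn hκ hu huv hx.1 hx.2
  have hw0 : 0 ≤ w := intervalIntegral.integral_nonneg hαβ.le hW1n
  have hwM : w ≤ (1 - c * η) * M := hcη η hη hη1
  have hN := NN_nn a (η := η) hδ hδ1
  have hS := SS_nn a η
  -- first term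
  have h1 := off hOFF (c := a) (W := W0 u v) hη hη1 hδ hδ1 huv (cont_W0 u v).continuousOn hgr hB0
    (fun k hk => (hB η hη hη1 k hk).1) hOK hga
  -- second term
  have h2 := off hOFF (c := as) (W := W1 κ η u v) hη hη1 hδ hδ1 hαβ hW1c hgrs hB0
    (fun k hk => (hB η hη hη1 k hk).2) hOKs hgs
  rw [NN_congr has, SS_congr has hη] at h2
  have h0 := hC0 η δ hη hη1 hδ hδ1
  have h3 := hCHV κ u v η δ gs hκ hu huv hδ hδ1 hη hη1 hgs'
  have h3' : (∫ x in u..v, W0 u v x * ∫ y in δ..1, y ^ η *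
      (κ / x ^ 2 * ‖lam as (pX (κ / x) (κ * y / x ^ 2))‖ ^ 2)) =
      ∫ x in (κ / v)..(κ / u), W1 κ η u v x * ∫ y in (δ * x ^ 2 / κ)..(x ^ 2 / κ),
        y ^ η * gs x y := h3
  -- enlarge
  have hmono : (∫ x in (κ / v)..(κ / u), W1 κ η u v x * ∫ y in (δ * x ^ 2 / κ)..(x ^ 2 / κ),
        y ^ η * gs x y) ≤
      ∫ x in (κ / v)..(κ / u), (W1 κ η u v x * (∫ y in δ..1, y ^ η * gs x y) +
        W1 κ η u v x * (Y * CL * (Y - 1))) := by
    apply intervalIntegral.integral_mono_on hαβ.le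
    · apply iiF gs hgs' hη hαβ.le (by fun_prop) (by fun_prop) _ hW1c
      refine ⟨δ * (κ / v) ^ 2 / κ, by positivity, fun x hx => ?_⟩
      have hx2 : (κ / v) ^ 2 ≤ x ^ 2 := pow_le_pow_left₀ hα.le hx.1 2
      constructor
      · gcongr
      · apply div_le_div_of_nonneg_right _ hκ.le
        nlinarith [sq_nonneg (κ / v)]
    · apply IntervalIntegrable.add
      · exact iiF gs hgs' hη hαβ.le continuous_const continuous_const
          ⟨δ, hδ, fun x _ => ⟨le_rfl, hδ1.le⟩⟩ hW1c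
      · apply ContinuousOn.intervalIntegrable
        rw [Set.uIcc_of_le hαβ.le]
        exact hW1c.mul continuousOn_const
    · intro x hx
      have hx0 : 0 < x := lt_of_lt_of_le hα hx.1
      rw [← mul_add]
      apply mul_le_mul_of_nonneg_left _ (hW1n x hx)
      have hxl : 1 ≤ x ^ 2 / κ := by
        rw [le_div_iff₀ hκ, one_mul]
        have : (κ / v) ^ 2 ≤ x ^ 2 := pow_le_pow_left₀ hα.le hx.1 2
        refine le_trans ?_ this
        rw [div_pow, le_div_iff₀ (by positivity)]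
        nlinarith
      have hxu : x ^ 2 / κ ≤ Y := by
        have : x ^ 2 ≤ (κ / u) ^ 2 := pow_le_pow_left₀ hx0.le hx.2 2
        calc x ^ 2 / κ ≤ (κ / u) ^ 2 / κ := by gcongr
          _ = Y := by rw [hYdef]; field_simp
      have hint : ∀ c d : ℝ, 0 < c → 0 < d →
          IntervalIntegrable (fun y : ℝ => y ^ η * gs x y) MeasureTheory.volume c d :=
        fun c d hc hd => iiI gs hgs' hη x hc hd
      have e1 : ∫ y in (δ * x ^ 2 / κ)..(x ^ 2 / κ), y ^ η * gs x y ≤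
          ∫ y in δ..Y, y ^ η * gs x y := by
        apply intervalIntegral.integral_mono_interval
        · calc δ = δ * 1 := (mul_one δ).symm
            _ ≤ δ * (x ^ 2 / κ) := by gcongr
            _ = δ * x ^ 2 / κ := by ring
        · calc δ * x ^ 2 / κ = δ * (x ^ 2 / κ) := by ring
            _ ≤ 1 * (x ^ 2 / κ) := by gcongr
            _ = x ^ 2 / κ := one_mul _
        · exact hxu
        · rw [Filter.EventuallyLE, MeasureTheory.ae_restrict_iff' measurableSet_Ioc]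
          refine Filter.Eventually.of_forall (fun y hy => ?_)
          exact mul_nonneg (Real.rpow_nonneg (hδ.le.trans hy.1.le) _) (hgs0 x y)
        · exact hint _ _ hδ (by linarith)
      have e2 : ∫ y in δ..Y, y ^ η * gs x y = (∫ y in δ..1, y ^ η * gs x y) +
          ∫ y in (1 : ℝ)..Y, y ^ η * gs x y :=
        (intervalIntegral.integral_add_adjacent_intervals (hint _ _ hδ one_pos)
          (hint _ _ one_pos (by linarith))).symm
      have e3 : ∫ y in (1 : ℝ)..Y, y ^ η * gs x y ≤ Y * CL * (Y - 1) := by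
        calc ∫ y in (1 : ℝ)..Y, y ^ η * gs x y ≤ ∫ y in (1 : ℝ)..Y, Y * CL := by
              apply intervalIntegral.integral_mono_on hY1.le (hint _ _ one_pos (by linarith))
                (by simp)
              intro y hy
              have hy0 : 0 < y := by linarith [hy.1]
              have hyη : y ^ η ≤ Y := by
                calc y ^ η ≤ y ^ (1 : ℝ) := Real.rpow_le_rpow_of_exponent_le hy.1 hη1
                  _ = y := Real.rpow_one y
                  _ ≤ Y := hy.2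
              exact mul_le_mul hyη (hCL x y hy.1) (hgs0 x y) (by linarith)
          _ = Y * CL * (Y - 1) := by
              rw [intervalIntegral.integral_const, smul_eq_mul]
              ring
      linarith
  have hsplit : (∫ x in (κ / v)..(κ / u), (W1 κ η u v x * (∫ y in δ..1, y ^ η * gs x y) +
        W1 κ η u v x * (Y * CL * (Y - 1)))) =
      (∫ x in (κ / v)..(κ / u), W1 κ η u v x * ∫ y in δ..1, y ^ η * gs x y) +
        w * (Y * CL * (Y - 1)) := by
    rw [intervalIntegral.integral_add, intervalIntegral.integral_mul_const]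
    · exact iiF gs hgs' hη hαβ.le continuous_const continuous_const
        ⟨δ, hδ, fun x _ => ⟨le_rfl, hδ1.le⟩⟩ hW1c
    · apply ContinuousOn.intervalIntegrable
      rw [Set.uIcc_of_le hαβ.le]
      exact hW1c.mul continuousOn_const
  rw [hsplit] at hmono
  rw [h3'] at h0
  generalize hI1 : (∫ x in u..v, W0 u v x * ∫ y in δ..1, y ^ η * ‖lam a (pX x y)‖ ^ 2) = I1
    at h0 h1
  generalize hI2 : (∫ x in (κ / v)..(κ / u), W1 κ η u v x *
    ∫ y in (δ * x ^ 2 / κ)..(x ^ 2 / κ), y ^ η * gs x y) = I2 at h0 hmono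
  have h2' : |(∫ x in (κ / v)..(κ / u), W1 κ η u v x * ∫ y in δ..1, y ^ η * gs x y) -
      w * NN a η δ| ≤ 2 * B * SS a η := h2
  generalize hI3 : (∫ x in (κ / v)..(κ / u), W1 κ η u v x *
    ∫ y in δ..1, y ^ η * gs x y) = I3 at h2' hmono
  generalize NN a η δ = N at *
  generalize SS a η = S at *
  rw [← hMdef] at h1
  rw [abs_le] at h0 h1 h2'
  have hq : 0 ≤ w * N + 2 * B * S + w * (Y * CL * (Y - 1)) := by positivity
  have h5 : lam0 * I2 ≤ w * N + 2 * B * S + w * (Y * CL * (Y - 1)) := by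
    calc lam0 * I2 ≤ lam0 * (w * N + 2 * B * S + w * (Y * CL * (Y - 1))) := by
          apply mul_le_mul_of_nonneg_left _ hl0.le
          linarith [h2'.2]
      _ ≤ 1 * (w * N + 2 * B * S + w * (Y * CL * (Y - 1))) :=
          mul_le_mul_of_nonneg_right hl1 hq
      _ = _ := one_mul _
  have h6 : w * (Y * CL * (Y - 1)) ≤ M * (Y * CL * (Y - 1)) := by
    apply mul_le_mul_of_nonneg_right _ hCY
    have : 0 ≤ c * η * M := by positivity
    linarith
  have h7 : w * N ≤ (1 - c * η) * M * N := mul_le_mul_of_nonneg_right hwM hN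
  have h8 : 0 ≤ (M * (Y * CL * (Y - 1)) + C0) * S := by positivity
  have h9 : 0 ≤ 4 * B := by positivity
  nlinarith [h0.2, h1.1]

theorem key2 (hWTS : T_WTS) (hOFF : T_OFF) (hCHV : T_CHV) (hMAS : T_MAS) (hLOC : T_LOC)
    {a as : ℕ → ℂ} {κ lam0 : ℝ} (hgr : ∃ C : ℝ, ∀ n : ℕ, 1 ≤ n → ‖a n‖ ≤ C * n)
    (has : ∀ n : ℕ, 1 ≤ n → ‖as n‖ = ‖a n‖) (hκ : 0 < κ) (hl1 : 1 ≤ lam0)
    (hInv : Inv a as κ lam0) :
    ∃ c K δ₁ : ℝ, 0 < c ∧ 0 ≤ K ∧ 0 < δ₁ ∧ ∀ η : ℝ, 0 < η → η ≤ 1 → OK a η →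
      ∀ δ : ℝ, 0 < δ → δ < δ₁ → δ < 1 → c * η * NN a η δ ≤ K * SS a η + K := by
  have hgrs : ∃ C : ℝ, ∀ n : ℕ, 1 ≤ n → ‖as n‖ ≤ C * n := by
    obtain ⟨C, hC⟩ := hgr
    exact ⟨C, fun n hn => by rw [has n hn]; exact hC n hn⟩
  have hl0 : 0 < lam0 := by linarith
  set u : ℝ := κ + 1 with hudef
  set v : ℝ := κ + 2 with hvdef
  have hu : 0 < u := by positivity
  have hv : 0 < v := by positivity
  have huv : u < v := by rw [hudef, hvdef]; linarith
  have huκ : κ < u ^ 2 := by rw [hudef]; nlinarith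
  obtain ⟨B, hB0, hB⟩ := hWTS κ u v hκ hu huv
  obtain ⟨hM, _, hm2⟩ := hMAS κ u v hκ hu huv
  obtain ⟨c, hc, hcη⟩ := hm2 huκ
  obtain ⟨hga, _⟩ := hLOC a hgr
  obtain ⟨hgs, hbs⟩ := hLOC as hgrs
  set Y : ℝ := κ / v ^ 2 with hYdef
  have hY0 : 0 < Y := by positivity
  have hY1 : Y < 1 := by
    rw [hYdef, div_lt_one (by positivity)]
    exact huκ.trans (pow_lt_pow_left₀ huv hu.le two_ne_zero)
  obtain ⟨CL, hCL0, hCL⟩ := hbs Y hY0
  obtain ⟨C0, hC0⟩ := hInv u v hu huv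
  set M : ℝ := ∫ x in u..v, W0 u v x with hMdef
  have hαβ : κ / v < κ / u := by
    rw [div_lt_div_iff_of_pos_left hκ hv hu]
    exact huv
  have hα : 0 < κ / v := by positivity
  have hC00 : 0 ≤ C0 := (abs_nonneg _).trans (hC0 1 (1 / 2) one_pos le_rfl (by norm_num)
    (by norm_num))
  refine ⟨c * M, (2 + 2 * lam0) * B + ((1 + c) * M * CL + C0), Y, mul_pos hc hM, by positivity,
    hY0, ?_⟩
  intro η hη hη1 hOK δ hδ hδY hδ1
  have hOKs := OK_congr has hη hOK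
  set gs : ℝ → ℝ → ℝ := fun x y => ‖lam as (pX x y)‖ ^ 2 with hgsdef
  have hgs' : ContinuousOn (Function.uncurry gs) HP := hgs
  have hgs0 : ∀ x y, 0 ≤ gs x y := fun x y => by rw [hgsdef]; positivity
  set w : ℝ := ∫ x in (κ / v)..(κ / u), W1 κ η u v x with hwdef
  have hW1c := cont_W1 hκ hη hu huv
  have hW1n : ∀ x ∈ Set.Icc (κ / v) (κ / u), 0 ≤ W1 κ η u v x :=
    fun x hx => W1_nn hκ hu huv hx.1 hx.2
  have hwM : (1 + c * η) * M ≤ w := hcη η hη hη1
  have hN := NN_nn a (η := η) hδ hδ1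
  have hS := SS_nn a η
  have h1 := off hOFF (c := a) (W := W0 u v) hη hη1 hδ hδ1 huv (cont_W0 u v).continuousOn hgr hB0
    (fun k hk => (hB η hη hη1 k hk).1) hOK hga
  have h2 := off hOFF (c := as) (W := W1 κ η u v) hη hη1 hδ hδ1 hαβ hW1c hgrs hB0
    (fun k hk => (hB η hη hη1 k hk).2) hOKs hgs
  rw [NN_congr has, SS_congr has hη] at h2
  have h0 := hC0 η δ hη hη1 hδ hδ1
  have h3 := hCHV κ u v η δ gs hκ hu huv hδ hδ1 hη hη1 hgs'
  have h3' : (∫ x in u..v, W0 u v x * ∫ y in δ..1, y ^ η *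
      (κ / x ^ 2 * ‖lam as (pX (κ / x) (κ * y / x ^ 2))‖ ^ 2)) =
      ∫ x in (κ / v)..(κ / u), W1 κ η u v x * ∫ y in (δ * x ^ 2 / κ)..(x ^ 2 / κ),
        y ^ η * gs x y := h3
  have hmono : (∫ x in (κ / v)..(κ / u), (W1 κ η u v x * (∫ y in δ..1, y ^ η * gs x y) -
        W1 κ η u v x * CL)) ≤
      ∫ x in (κ / v)..(κ / u), W1 κ η u v x * ∫ y in (δ * x ^ 2 / κ)..(x ^ 2 / κ),
        y ^ η * gs x y := by
    apply intervalIntegral.integral_mono_on hαβ.le
    · apply IntervalIntegrable.sub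
      · exact iiF gs hgs' hη hαβ.le continuous_const continuous_const
          ⟨δ, hδ, fun x _ => ⟨le_rfl, hδ1.le⟩⟩ hW1c
      · apply ContinuousOn.intervalIntegrable
        rw [Set.uIcc_of_le hαβ.le]
        exact hW1c.mul continuousOn_const
    · apply iiF gs hgs' hη hαβ.le (by fun_prop) (by fun_prop) _ hW1c
      refine ⟨δ * (κ / v) ^ 2 / κ, by positivity, fun x hx => ?_⟩
      have hx2 : (κ / v) ^ 2 ≤ x ^ 2 := pow_le_pow_left₀ hα.le hx.1 2
      constructor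
      · gcongr
      · apply div_le_div_of_nonneg_right _ hκ.le
        nlinarith [sq_nonneg (κ / v)]
    · intro x hx
      have hx0 : 0 < x := lt_of_lt_of_le hα hx.1
      rw [← mul_sub]
      apply mul_le_mul_of_nonneg_left _ (hW1n x hx)
      have hxl : Y ≤ x ^ 2 / κ := by
        have : (κ / v) ^ 2 ≤ x ^ 2 := pow_le_pow_left₀ hα.le hx.1 2
        calc Y = (κ / v) ^ 2 / κ := by rw [hYdef]; field_simp
          _ ≤ x ^ 2 / κ := by gcongr
      have hxu : x ^ 2 / κ ≤ 1 := by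
        rw [div_le_one hκ]
        have : x ^ 2 ≤ (κ / u) ^ 2 := pow_le_pow_left₀ hx0.le hx.2 2
        refine this.trans ?_
        rw [div_pow, div_le_iff₀ (by positivity)]
        nlinarith
      have hint : ∀ c d : ℝ, 0 < c → 0 < d →
          IntervalIntegrable (fun y : ℝ => y ^ η * gs x y) MeasureTheory.volume c d :=
        fun c d hc hd => iiI gs hgs' hη x hc hd
      have hδx : 0 < δ * x ^ 2 / κ := by positivity
      have hκx : 0 < x ^ 2 / κ := by positivity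
      have e1 : ∫ y in δ..Y, y ^ η * gs x y ≤
          ∫ y in (δ * x ^ 2 / κ)..(x ^ 2 / κ), y ^ η * gs x y := by
        apply intervalIntegral.integral_mono_interval
        · calc δ * x ^ 2 / κ = δ * (x ^ 2 / κ) := by ring
            _ ≤ δ * 1 := by gcongr
            _ = δ := mul_one δ
        · exact hδY.le
        · exact hxl
        · rw [Filter.EventuallyLE, MeasureTheory.ae_restrict_iff' measurableSet_Ioc]
          refine Filter.Eventually.of_forall (fun y hy => ?_)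
          exact mul_nonneg (Real.rpow_nonneg (hδx.le.trans hy.1.le) _) (hgs0 x y)
        · exact hint _ _ hδx hκx
      have e2 : ∫ y in δ..1, y ^ η * gs x y = (∫ y in δ..Y, y ^ η * gs x y) +
          ∫ y in Y..1, y ^ η * gs x y :=
        (intervalIntegral.integral_add_adjacent_intervals (hint _ _ hδ hY0)
          (hint _ _ hY0 one_pos)).symm
      have e3 : ∫ y in Y..1, y ^ η * gs x y ≤ CL := by
        calc ∫ y in Y..1, y ^ η * gs x y ≤ ∫ y in Y..1, CL := by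
              apply intervalIntegral.integral_mono_on hY1.le (hint _ _ hY0 one_pos)
                (by simp)
              intro y hy
              have hy0 : 0 < y := by linarith [hy.1]
              have hyη : y ^ η ≤ 1 := Real.rpow_le_one hy0.le hy.2 hη.le
              calc y ^ η * gs x y ≤ 1 * CL :=
                    mul_le_mul hyη (hCL x y hy.1) (hgs0 x y) zero_le_one
                _ = CL := one_mul _
          _ = (1 - Y) * CL := by
              rw [intervalIntegral.integral_const, smul_eq_mul]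
          _ ≤ 1 * CL := by
              apply mul_le_mul_of_nonneg_right _ hCL0
              linarith
          _ = CL := one_mul _
      linarith
  have hsplit : (∫ x in (κ / v)..(κ / u), (W1 κ η u v x * (∫ y in δ..1, y ^ η * gs x y) -
        W1 κ η u v x * CL)) =
      (∫ x in (κ / v)..(κ / u), W1 κ η u v x * ∫ y in δ..1, y ^ η * gs x y) - w * CL := by
    rw [intervalIntegral.integral_sub, intervalIntegral.integral_mul_const]
    · exact iiF gs hgs' hη hαβ.le continuous_const continuous_const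
        ⟨δ, hδ, fun x _ => ⟨le_rfl, hδ1.le⟩⟩ hW1c
    · apply ContinuousOn.intervalIntegrable
      rw [Set.uIcc_of_le hαβ.le]
      exact hW1c.mul continuousOn_const
  rw [hsplit] at hmono
  rw [h3'] at h0
  generalize hI1 : (∫ x in u..v, W0 u v x * ∫ y in δ..1, y ^ η * ‖lam a (pX x y)‖ ^ 2) = I1
    at h0 h1
  generalize hI2 : (∫ x in (κ / v)..(κ / u), W1 κ η u v x *
    ∫ y in (δ * x ^ 2 / κ)..(x ^ 2 / κ), y ^ η * gs x y) = I2 at h0 hmono
  have h2' : |(∫ x in (κ / v)..(κ / u), W1 κ η u v x * ∫ y in δ..1, y ^ η * gs x y) -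
      w * NN a η δ| ≤ 2 * B * SS a η := h2
  generalize hI3 : (∫ x in (κ / v)..(κ / u), W1 κ η u v x *
    ∫ y in δ..1, y ^ η * gs x y) = I3 at h2' hmono
  generalize NN a η δ = N at *
  generalize SS a η = S at *
  rw [← hMdef] at h1
  rw [abs_le] at h0 h1 h2'
  have h4 : lam0 * (w * (N - CL)) ≤ M * N + (2 + 2 * lam0) * B * S + C0 := by
    have h5 : lam0 * (w * N - 2 * B * S - w * CL) ≤ lam0 * I2 := by
      apply mul_le_mul_of_nonneg_left _ hl0.le
      linarith [h2'.1]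
    nlinarith [h0.1, h1.2]
  have hcM : 0 < c * M := mul_pos hc hM
  have h8 : 0 ≤ ((1 + c) * M * CL + C0) * S := by positivity
  have h9 : 0 ≤ (2 + 2 * lam0) * B := by positivity
  have h10 : 0 ≤ (2 + 2 * lam0) * B * S := by positivity
  have hη' : c * η ≤ c := by nlinarith
  have hMCL : 0 ≤ M * CL := by positivity
  rcases le_total N CL with hNC | hNC
  · have h11 : c * M * η * N ≤ c * M * 1 * CL := by gcongr
    nlinarith
  · have h12 : (1 + c * η) * M * (N - CL) ≤ lam0 * (w * (N - CL)) := by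
      have h13 : 0 ≤ N - CL := by linarith
      have h14 : 0 ≤ w := by
        have : 0 ≤ (1 + c * η) * M := by positivity
        linarith
      calc (1 + c * η) * M * (N - CL) ≤ w * (N - CL) :=
            mul_le_mul_of_nonneg_right hwM h13
        _ = 1 * (w * (N - CL)) := (one_mul _).symm
        _ ≤ lam0 * (w * (N - CL)) := mul_le_mul_of_nonneg_right hl1 (mul_nonneg h14 h13)
    have h15 : c * η * (M * CL) ≤ c * (M * CL) := mul_le_mul_of_nonneg_right hη' hMCL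
    nlinarith

/-- The final computation. -/
theorem fin_num {c₁ c K : ℝ} (hc₁ : 0 < c₁) (hc : 0 < c) (hK : 0 ≤ K) :
    ∃ C T₁ : ℝ, 1 ≤ T₁ ∧ ∀ T D N S : ℝ, T₁ ≤ T → 0 ≤ D → c₁ * D - 1 ≤ N →
      S ≤ 20 * T ^ (-(4 / 3) : ℝ) * D → c * (1 / T) * N ≤ K * S + K → D ≤ C * T := by
  refine ⟨2 * (K + c) / (c * c₁), max 1 ((40 * K / (c * c₁)) ^ 3), le_max_left _ _, ?_⟩
  intro T D N S hT hD hN hS h
  have hT1 : 1 ≤ T := (le_max_left _ _).trans hT
  have hT0 : 0 < T := by linarith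
  have hT3 : (40 * K / (c * c₁)) ^ 3 ≤ T := (le_max_right _ _).trans hT
  have hcc : 0 < c * c₁ := mul_pos hc hc₁
  -- T^(1/3) is large
  have h1 : 40 * K / (c * c₁) ≤ T ^ (1 / 3 : ℝ) := by
    have h2 : 0 ≤ 40 * K / (c * c₁) := by positivity
    calc 40 * K / (c * c₁) = ((40 * K / (c * c₁)) ^ 3) ^ (1 / 3 : ℝ) := by
          rw [← Real.rpow_natCast, ← Real.rpow_mul h2]
          norm_num
      _ ≤ T ^ (1 / 3 : ℝ) := Real.rpow_le_rpow (by positivity) hT3 (by norm_num)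
  have h2 : T * T ^ (-(4 / 3) : ℝ) * T ^ (1 / 3 : ℝ) = 1 := by
    nth_rewrite 1 [← Real.rpow_one T]
    rw [← Real.rpow_add hT0, ← Real.rpow_add hT0]
    norm_num
  have h3 : 0 < T * T ^ (-(4 / 3) : ℝ) := by positivity
  have h4 : 40 * K * (T * T ^ (-(4 / 3) : ℝ)) ≤ c * c₁ := by
    rw [div_le_iff₀ hcc] at h1
    calc 40 * K * (T * T ^ (-(4 / 3) : ℝ)) ≤
          T ^ (1 / 3 : ℝ) * (c * c₁) * (T * T ^ (-(4 / 3) : ℝ)) :=
          mul_le_mul_of_nonneg_right h1 h3.le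
      _ = c * c₁ * (T * T ^ (-(4 / 3) : ℝ) * T ^ (1 / 3 : ℝ)) := by ring
      _ = c * c₁ := by rw [h2, mul_one]
  have h5 : c * N ≤ T * (K * S) + T * K := by
    have : c * (1 / T) * N * T = c * N := by field_simp
    nlinarith [mul_le_mul_of_nonneg_right h hT0.le]
  have h6 : T * (K * S) ≤ c * c₁ * D / 2 := by
    calc T * (K * S) ≤ T * (K * (20 * T ^ (-(4 / 3) : ℝ) * D)) := by gcongr
      _ = (40 * K * (T * T ^ (-(4 / 3) : ℝ))) * D / 2 := by ring
      _ ≤ c * c₁ * D / 2 := by gcongr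
  have h7 : c * (c₁ * D - 1) ≤ c * N := mul_le_mul_of_nonneg_left hN hc.le
  have h8 : c * c₁ * D ≤ 2 * (K + c) * T := by nlinarith
  rw [div_mul_eq_mul_div, le_div_iff₀ hcc]
  linarith

end FINQ_

/-- The inversion relation and decorrelation give `D ≤ C T`. -/
theorem p_FINQ (hWTS : T_WTS) (hOFF : T_OFF) (hKSM : T_KSM) (hCHV : T_CHV) (hMAS : T_MAS)
    (hLOC : T_LOC) (hDIA : T_DIA) : T_FIN := by
  intro a as κ lam0 hMF has hκ hl0 hInv
  have hgr : ∃ C : ℝ, ∀ n : ℕ, 1 ≤ n → ‖a n‖ ≤ C * n := by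
    obtain ⟨C, hC⟩ := hMF.small 1 one_pos
    refine ⟨C, fun n hn => ?_⟩
    have := hC n hn
    rwa [Real.rpow_one] at this
  have hkey : ∃ c K δ₁ : ℝ, 0 < c ∧ 0 ≤ K ∧ 0 < δ₁ ∧ ∀ η : ℝ, 0 < η → η ≤ 1 → FINQ_.OK a η →
      ∀ δ : ℝ, 0 < δ → δ < δ₁ → δ < 1 →
        c * η * FINQ_.NN a η δ ≤ K * FINQ_.SS a η + K := by
    rcases le_total lam0 1 with h | h
    · exact FINQ_.key1 hWTS hOFF hCHV hMAS hLOC hgr has hκ hl0 h hInv
    · exact FINQ_.key2 hWTS hOFF hCHV hMAS hLOC hgr has hκ h hInv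
  obtain ⟨c, K, δ₁, hc, hK, hδ₁, hkey⟩ := hkey
  obtain ⟨c₁, hc₁, hDIA⟩ := hDIA
  obtain ⟨C, T₁, hT₁, hnum⟩ := FINQ_.fin_num hc₁ hc hK
  refine ⟨C, T₁, hT₁, ?_⟩
  intro T hT hcor
  have hT1 : 1 ≤ T := hT₁.trans hT
  have hT0 : 0 < T := by linarith
  have hη : 0 < 1 / T := by positivity
  have hη1 : 1 / T ≤ 1 := by rw [div_le_one hT0]; exact hT1
  have hD := FINQ_.DD_nn (fun n => ‖a n‖) (1 / T)
  have hks := hKSM (fun k => cor (fun n => ‖a n‖) (1 / T) k) (DD (fun n => ‖a n‖) (1 / T)) T hD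
    hT1 (fun k => FINQ_.cor_nn (fun n => norm_nonneg _) _ k)
    (fun k _ => FINQ_.cor_le hMF hη k) hcor
  have hOK : FINQ_.OK a (1 / T) := ⟨fun k _ => FINQ_.cor_sm hMF hη k, hks.1⟩
  obtain ⟨δ₀, hδ₀, hdia⟩ := hDIA a (1 / T) hη hη1 (FINQ_.wsum hMF hη) 1 one_pos
  obtain ⟨δ, hδ, hδm⟩ : ∃ δ : ℝ, 0 < δ ∧ δ < min (min δ₀ δ₁) 1 :=
    exists_between (by positivity)
  have hδ0' : δ < δ₀ := lt_of_lt_of_le hδm ((min_le_left _ _).trans (min_le_left _ _))
  have hδ1' : δ < δ₁ := lt_of_lt_of_le hδm ((min_le_left _ _).trans (min_le_right _ _))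
  have hδ1 : δ < 1 := lt_of_lt_of_le hδm (min_le_right _ _)
  exact hnum T (DD (fun n => ‖a n‖) (1 / T)) (FINQ_.NN a (1 / T) δ) (FINQ_.SS a (1 / T)) hT hD
    (hdia δ hδ hδ0') hks.2 (hkey (1 / T) hη hη1 hOK δ hδ hδ1' hδ1)

end Pool.Agent.SelQ
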