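import Pool.Agent.SelQ.TargetsE

/-!
# SelQ, target FOU: decay of trigonometric integrals
-/

set_option autoImplicit false

namespace Pool.Agent.SelQ

open Pool.Agent.SelDeg2 (ee)

namespace FOU_

open Complex MeasureTheory

theorem norm_ee (x : ℝ) : ‖ee x‖ = 1 := by
  unfold ee
  rw [Complex.norm_exp]
  simp

theorem ne {k : ℤ} (hk : k ≠ 0) : (2 * Real.pi * I * k : ℂ) ≠ 0 := by
  have h1 : (k : ℂ) ≠ 0 := by exact_mod_cast hk
  have h2 : (Real.pi : ℂ) ≠ 0 := by exact_mod_cast Real.pi_ne_zero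
  simp [h1, h2, I_ne_zero]

theorem deriv_ee {k : ℤ} (hk : k ≠ 0) (x : ℝ) :
    HasDerivAt (fun x : ℝ => ee (k * x) / (2 * Real.pi * I * k)) (ee (k * x)) x := by
  have h1 : HasDerivAt (fun x : ℝ => (2 * Real.pi * I * ((k * x : ℝ) : ℂ)))
      (2 * Real.pi * I * k) x := by
    have h2 : HasDerivAt (fun x : ℝ => ((k * x : ℝ) : ℂ)) ((k * 1 : ℝ) : ℂ) x :=
      ((hasDerivAt_id x).const_mul (k : ℝ)).ofReal_comp
    have h3 := h2.const_mul (2 * Real.pi * I : ℂ)
    refine h3.congr_deriv ?_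
    push_cast
    ring
  have h4 := h1.cexp.div_const (2 * Real.pi * I * k : ℂ)
  refine h4.congr_deriv ?_
  unfold ee
  rw [mul_div_assoc, div_self (ne hk), mul_one]

theorem cont_ee (k : ℤ) : Continuous fun x : ℝ => ee (k * x) := by
  unfold ee
  fun_prop

theorem parts {g g1 : ℝ → ℝ} {α β : ℝ} (hab : α < β)
    (hg : ∀ x ∈ Set.Icc α β, HasDerivAt g (g1 x) x) (hc : ContinuousOn g1 (Set.Icc α β))
    {k : ℤ} (hk : k ≠ 0) :
    FW g α β k = (g β : ℂ) * (ee (k * β) / (2 * Real.pi * I * k)) -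
      g α * (ee (k * α) / (2 * Real.pi * I * k)) -
      FW g1 α β k / (2 * Real.pi * I * k) := by
  unfold FW
  have hu : Set.uIcc α β = Set.Icc α β := Set.uIcc_of_le hab.le
  have h1 := intervalIntegral.integral_mul_deriv_eq_deriv_mul (a := α) (b := β)
    (u := fun x => (g x : ℂ)) (u' := fun x => (g1 x : ℂ))
    (v := fun x : ℝ => ee (k * x) / (2 * Real.pi * I * k)) (v' := fun x : ℝ => ee (k * x))
    (fun x hx => (hg x (hu ▸ hx)).ofReal_comp) (fun x _ => deriv_ee hk x)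
    (by
      apply ContinuousOn.intervalIntegrable
      rw [hu]
      exact Complex.continuous_ofReal.comp_continuousOn hc)
    ((cont_ee k).intervalIntegrable α β)
  rw [h1]
  congr 1
  rw [div_eq_mul_inv (∫ x in α..β, (g1 x : ℂ) * ee (k * x)), ← intervalIntegral.integral_mul_const]
  apply intervalIntegral.integral_congr
  intro x _
  show (g1 x : ℂ) * (ee (k * x) / (2 * Real.pi * I * k)) =
    (g1 x : ℂ) * ee (k * x) * (2 * Real.pi * I * k)⁻¹
  rw [div_eq_mul_inv]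
  ring

theorem norm_FW {g : ℝ → ℝ} {α β B : ℝ} (hab : α < β) (hB : ∀ x ∈ Set.Icc α β, |g x| ≤ B)
    (k : ℤ) : ‖FW g α β k‖ ≤ B * (β - α) := by
  unfold FW
  have h1 := intervalIntegral.norm_integral_le_of_norm_le_const (a := α) (b := β) (C := B)
    (f := fun x => (g x : ℂ) * ee (k * x)) (by
      intro x hx
      rw [Set.uIoc_of_le hab.le] at hx
      rw [norm_mul, norm_ee, mul_one, Complex.norm_real, Real.norm_eq_abs]
      exact hB x ⟨hx.1.le, hx.2⟩)
  rwa [abs_of_pos (sub_pos.2 hab)] at h1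

end FOU_

open FOU_ in
theorem p_FOU : T_FOU := by
  intro g g1 g2 α β B hab hg hg1 hc hB ha hb k hk
  have hc1 : ContinuousOn g1 (Set.Icc α β) :=
    fun x hx => (hg1 x hx).continuousAt.continuousWithinAt
  have hB0 : 0 ≤ B := (abs_nonneg _).trans (hB α ⟨le_rfl, hab.le⟩).1
  set D : ℂ := 2 * Real.pi * Complex.I * k with hD
  have hDn : ‖D‖ = 2 * Real.pi * |(k : ℝ)| := by
    rw [hD]
    simp only [norm_mul, Complex.norm_I, mul_one, Complex.norm_real, Complex.norm_intCast]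
    rw [Real.norm_of_nonneg Real.pi_pos.le]
    simp
  have hk1 : (1 : ℝ) ≤ |(k : ℝ)| := by
    have h1 : (1 : ℤ) ≤ |k| := Int.one_le_abs hk
    exact_mod_cast h1
  have hk0 : 0 < |(k : ℝ)| := by linarith
  have hpi : 1 ≤ Real.pi := by linarith [Real.pi_gt_three]
  have hDk : |(k : ℝ)| ≤ ‖D‖ := by
    rw [hDn]
    nlinarith
  have hD0 : 0 < ‖D‖ := hk0.trans_le hDk
  have e1 := parts hab hg hc1 hk
  have e2 := parts hab hg1 hc hk
  rw [ha, hb] at e1
  simp only [Complex.ofReal_zero, zero_mul, sub_zero, zero_sub] at e1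
  have h1 : ‖FW g1 α β k‖ ≤ (2 + (β - α)) * B / |(k : ℝ)| := by
    rw [e2]
    have n1 : ‖(g1 β : ℂ) * (ee (k * β) / D)‖ ≤ B / ‖D‖ := by
      rw [norm_mul, norm_div, norm_ee, Complex.norm_real, Real.norm_eq_abs, mul_one_div]
      gcongr
      exact (hB β ⟨hab.le, le_rfl⟩).1
    have n2 : ‖(g1 α : ℂ) * (ee (k * α) / D)‖ ≤ B / ‖D‖ := by
      rw [norm_mul, norm_div, norm_ee, Complex.norm_real, Real.norm_eq_abs, mul_one_div]
      gcongr
      exact (hB α ⟨le_rfl, hab.le⟩).1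
    have n3 : ‖FW g2 α β k / D‖ ≤ B * (β - α) / ‖D‖ := by
      rw [norm_div]
      gcongr
      exact norm_FW hab (fun x hx => (hB x hx).2) k
    calc ‖(g1 β : ℂ) * (ee (k * β) / D) - g1 α * (ee (k * α) / D) - FW g2 α β k / D‖
        ≤ ‖(g1 β : ℂ) * (ee (k * β) / D) - g1 α * (ee (k * α) / D)‖ + ‖FW g2 α β k / D‖ :=
          norm_sub_le _ _
      _ ≤ ‖(g1 β : ℂ) * (ee (k * β) / D)‖ + ‖(g1 α : ℂ) * (ee (k * α) / D)‖ +
            ‖FW g2 α β k / D‖ := by
          gcongr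
          exact norm_sub_le _ _
      _ ≤ B / ‖D‖ + B / ‖D‖ + B * (β - α) / ‖D‖ := by gcongr
      _ = (2 + (β - α)) * B / ‖D‖ := by ring
      _ ≤ (2 + (β - α)) * B / |(k : ℝ)| := by
          have h2 : 0 ≤ β - α := (sub_pos.2 hab).le
          gcongr
  rw [e1, norm_neg, norm_div]
  calc ‖FW g1 α β k‖ / ‖D‖ ≤ (2 + (β - α)) * B / |(k : ℝ)| / |(k : ℝ)| := by
        have h2 : 0 ≤ β - α := (sub_pos.2 hab).le
        gcongr
    _ = (2 + (β - α)) * B / (k : ℝ) ^ 2 := by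
        rw [div_div, ← sq, sq_abs]

end Pool.Agent.SelQ
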