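import Pool.Agent.SelQ.TargetsC

/-!
# Degree 2 without the mean square bound: C11 INA, inactive primes
-/

set_option autoImplicit false

open Finset

namespace Pool.Agent.SelQ

open Complex Filter Topology
open Pool.Agent.SelTwo (lam pX vl cj tw gP FEq DegreeTwo)
open Pool.Agent.SelDeg2 (ee gth SS Drel HasPole MeanSquare aX pser Lg Br LpF HH)
open Pool.Agent.SelPole (IsSelberg)

namespace INA_

theorem et_pos (N : ℕ) : 0 < et N := Real.exp_pos _

theorem et_le_one (N : ℕ) : et N ≤ 1 := by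
  unfold et
  rw [Real.exp_le_one_iff]
  have : (0 : ℝ) < (2 : ℝ) ^ N := by positivity
  linarith

theorem et_tendsto : Tendsto et atTop (𝓝 0) := by
  unfold et
  refine Real.tendsto_exp_neg_atTop_nhds_zero.comp ?_
  exact tendsto_pow_atTop_atTop_of_one_lt (by norm_num)

theorem ee_add_int (x : ℝ) (m : ℤ) : ee (x + m) = ee x := by
  unfold ee
  have h : (2 * Real.pi * I * ((x + m : ℝ) : ℂ) : ℂ) = 2 * Real.pi * I * x +
      m * (2 * Real.pi * I) := by
    push_cast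
    ring
  rw [h, Complex.exp_add, Complex.exp_int_mul_two_pi_mul_I, mul_one]

theorem SS_congr (a : ℕ → ℂ) {α β : ℝ} (m : ℤ) (h : α = β + m) (η : ℝ) :
    SS a α η = SS a β η := by
  unfold SS
  congr 1
  ext n
  congr 1
  have h1 : (n : ℝ) * α = (n : ℝ) * β + ((n * m : ℤ) : ℝ) := by
    rw [h]
    push_cast
    ring
  rw [h1, ee_add_int]

theorem cpow_inv_nat {p : ℕ} (hp : 0 < p) (θ : ℝ) :
    (p : ℂ) * (((1 / p : ℝ) : ℝ) : ℂ) ^ (1 + (θ : ℂ) * I) = (p : ℂ) ^ (-((θ : ℂ) * I)) := by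
  have hp' : (0 : ℝ) < p := by exact_mod_cast hp
  have hpc : (p : ℂ) ≠ 0 := by exact_mod_cast hp.ne'
  have h1 : (((1 / p : ℝ) : ℝ) : ℂ) ≠ 0 := by
    exact_mod_cast (by positivity : (0 : ℝ) < 1 / p).ne'
  rw [Complex.cpow_def_of_ne_zero h1, Complex.cpow_def_of_ne_zero hpc, ← Complex.ofReal_log
    (by positivity), ← Complex.natCast_log, Real.log_div one_ne_zero hp'.ne', Real.log_one]
  have h2 : ((0 - Real.log p : ℝ) : ℂ) * (1 + (θ : ℂ) * I) = -((Real.log p : ℝ) : ℂ) +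
      ((Real.log p : ℝ) : ℂ) * (-((θ : ℂ) * I)) := by
    push_cast
    ring
  rw [h2, Complex.exp_add, ← mul_assoc, Complex.exp_neg, ← Complex.ofReal_exp,
    Real.exp_log hp']
  rw [show ((p : ℝ) : ℂ) = (p : ℂ) by norm_cast, mul_inv_cancel₀ hpc, one_mul]

end INA_

open INA_

theorem p_INA (hEPU : T_EPU) (hKAP : T_KAP) : T_INA := by
  intro F a b' r R₀ A₁ κ θ u Q B hS hP hU hκ hQ hκe hB
  obtain ⟨CE, hCE0, hCE⟩ := hEPU F a b' hS
  obtain ⟨CU, K, hCU⟩ := hU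
  obtain ⟨hr, hR, hlim⟩ := hP
  have hRn : 0 < ‖R₀‖ := norm_pos_iff.2 hR
  have hser : ∀ N : ℕ, F (1 + (et N : ℂ)) = LSeries a (1 + (et N : ℂ)) := fun N =>
    hS.eq_series _ (by
      have := et_pos N
      simp [this])
  have hL : ∀ᶠ N in atTop, ‖R₀‖ / 2 < ‖(et N : ℂ) ^ r * LSeries a (1 + (et N : ℂ))‖ := by
    have h1 : Tendsto (fun N : ℕ => (1 : ℂ) + (et N : ℂ)) atTop (𝓝[≠] 1) := by
      rw [tendsto_nhdsWithin_iff]
      refine ⟨?_, Eventually.of_forall fun N => ?_⟩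
      · have h2 : Tendsto (fun N : ℕ => (et N : ℂ)) atTop (𝓝 0) := by
          have := (Complex.continuous_ofReal.tendsto 0).comp et_tendsto
          rw [Complex.ofReal_zero] at this
          exact this
        have h3 := h2.const_add (1 : ℂ)
        rwa [add_zero] at h3
      · intro h
        have h2 : (et N : ℂ) = 0 := by
          have h3 : (1 : ℂ) + (et N : ℂ) = 1 := h
          linear_combination h3
        exact (et_pos N).ne' (by exact_mod_cast h2)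
    have h2 := (hlim.comp h1).norm
    have h3 := h2.eventually (lt_mem_nhds (show ‖R₀‖ / 2 < ‖R₀‖ by linarith))
    refine h3.mono fun N hN => ?_
    simp only [Function.comp_apply] at hN
    rwa [hser, add_sub_cancel_left] at hN
  have hG : ∀ᶠ N : ℕ in atTop, ((K : ℝ) + 6) * (N : ℝ) ^ B ≤ 2 ^ N := by
    have h1 := tendsto_pow_const_div_const_pow_of_one_lt B (show (1 : ℝ) < 2 by norm_num)
    have h2 : (0 : ℝ) < 1 / (K + 6) := by positivity
    refine (h1.eventually (gt_mem_nhds h2)).mono fun N hN => ?_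
    rw [div_lt_div_iff₀ (by positivity) (by positivity)] at hN
    linarith
  obtain ⟨N₂, hN₂⟩ := eventually_atTop.1 (hL.and hG)
  set c := ‖R₀‖ / 2 with hc
  have hc0 : 0 < c := by positivity
  refine ⟨1 / c + |CU| / c + CE, N₂, by positivity, fun N hN p b hp hpY hact hpb => ?_⟩
  obtain ⟨hN1, hN2⟩ := hN₂ N hN
  have hη0 := et_pos N
  have hη1 := et_le_one N
  set η := et N with hη
  set Y := YY B N with hY
  have hY1 : 1 ≤ Y := by
    rw [hY]
    unfold YY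
    exact Real.one_le_exp (by positivity)
  have hY0 : 0 < Y := by linarith
  have hYη : Y ^ (K + 6) * η ≤ 1 := by
    rw [hY, hη]
    unfold YY et
    rw [← Real.exp_nat_mul, ← Real.exp_add, Real.exp_le_one_iff]
    push_cast
    linarith
  have hp0 : (0 : ℝ) < p := by exact_mod_cast hp.pos
  have hp1 : (1 : ℝ) ≤ p := by exact_mod_cast hp.one_le
  set L := LSeries a (1 + (η : ℂ)) with hLdef
  set Z := Br a p 1 (1 + (η : ℂ)) / LpF a p (1 + (η : ℂ)) with hZ
  set V := (1 / η) ^ r * (1 / Y) ^ 10 with hV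
  have hV0 : 0 ≤ V := by positivity
  have hD1 : ‖SS a (1 / p) η - Z * L‖ ≤ p * V := by
    refine hKAP F a b' hS p η V hp hη0 hV0 (fun χ hχ => ?_)
    by_contra hcon
    push Not at hcon
    exact hact ⟨χ, hχ, hcon⟩
  have hD2 := hCU (1 / p) η (by positivity) (by rw [div_le_one hp0]; exact hp1) hη0 hη1
  have hSS : SS (gth θ a) (κ / (1 / p)) η = SS (gth θ a) (κ * b) η := by
    have h1 : (Q : ℤ) ∣ (p : ℤ) - b := (Nat.modEq_iff_dvd.1 hpb.symm)
    obtain ⟨t, ht⟩ := h1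
    refine SS_congr _ (u * t) ?_ η
    have hQ0 : (Q : ℝ) ≠ 0 := by
      have : 0 < Q := hQ
      positivity
    have h2 : (p : ℝ) - b = Q * t := by exact_mod_cast ht
    rw [one_div, div_inv_eq_mul, hκe]
    push_cast
    have h3 : (p : ℝ) = b + Q * t := by linarith
    rw [h3]
    field_simp
  have hrp : (((1 / p : ℝ) ^ 2 / κ) ^ η : ℝ) = (p : ℝ) ^ (-2 * η) * κ ^ (-η) := by
    rw [Real.div_rpow (by positivity) hκ.le, Real.rpow_neg hκ.le, ← div_eq_mul_inv]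
    congr 1
    rw [one_div, inv_pow, Real.inv_rpow (by positivity), ← Real.rpow_natCast, ← Real.rpow_mul
      hp0.le, ← Real.rpow_neg hp0.le]
    congr 1
    push_cast
    ring
  rw [hSS, hrp] at hD2
  set W := (p : ℂ) ^ (-((θ : ℂ) * I)) * (((p : ℝ) ^ (-2 * η) : ℝ) : ℂ) *
    Xi a A₁ κ θ b η with hW
  have hLpos : c * (1 / η) ^ r ≤ ‖L‖ := by
    rw [norm_mul, norm_pow, Complex.norm_real, Real.norm_eq_abs, abs_of_pos hη0] at hN1
    rw [one_div, inv_pow, ← div_eq_mul_inv, div_le_iff₀ (by positivity)]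
    linarith
  have hL0 : 0 < ‖L‖ := lt_of_lt_of_le (by positivity) hLpos
  have hLne : L ≠ 0 := norm_pos_iff.1 hL0
  have hWL : W * L = (p : ℂ) * (A₁ * (((1 / p : ℝ) : ℝ) : ℂ) ^ (1 + (θ : ℂ) * I) *
      (((p : ℝ) ^ (-2 * η) * κ ^ (-η) : ℝ) : ℂ) *
      (starRingEnd ℂ) (SS (gth θ a) (κ * b) η)) := by
    rw [hW, ← cpow_inv_nat hp.pos θ]
    unfold Xi
    rw [← hLdef]
    push_cast
    field_simp
  have hmain : ‖(p : ℂ) * Z - W‖ * ‖L‖ ≤ p * (p * V) + p * (|CU| * (p : ℝ) ^ K) := by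
    rw [← norm_mul]
    have e1 : ((p : ℂ) * Z - W) * L = (p : ℂ) * (-(SS a (1 / p) η - Z * L)) +
        (p : ℂ) * (SS a (1 / p) η - A₁ * (((1 / p : ℝ) : ℝ) : ℂ) ^ (1 + (θ : ℂ) * I) *
      (((p : ℝ) ^ (-2 * η) * κ ^ (-η) : ℝ) : ℂ) *
      (starRingEnd ℂ) (SS (gth θ a) (κ * b) η)) := by
      rw [sub_mul, hWL]
      ring
    rw [e1]
    refine (norm_add_le _ _).trans ?_
    rw [norm_mul, norm_mul, norm_neg]
    have h1 : ‖(p : ℂ)‖ = (p : ℝ) := by simp
    rw [h1]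
    refine add_le_add (mul_le_mul_of_nonneg_left hD1 hp0.le)
      (mul_le_mul_of_nonneg_left ?_ hp0.le)
    refine hD2.trans ?_
    rw [one_div_one_div]
    exact mul_le_mul_of_nonneg_right (le_abs_self _) (by positivity)
  have hηr : η ^ r ≤ η := by
    calc η ^ r ≤ η ^ 1 := pow_le_pow_of_le_one hη0.le hη1 hr
      _ = η := pow_one _
  have hbound : ‖(p : ℂ) * Z - W‖ ≤ (1 / c + |CU| / c) * (1 / Y) ^ 5 := by
    have h1 : ‖(p : ℂ) * Z - W‖ * (c * (1 / η) ^ r) ≤ p * (p * V) + p * (|CU| * (p : ℝ) ^ K) :=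
      (mul_le_mul_of_nonneg_left hLpos (norm_nonneg _)).trans hmain
    have h2 : ‖(p : ℂ) * Z - W‖ * c ≤ (p * (p * V) + p * (|CU| * (p : ℝ) ^ K)) * η ^ r := by
      have h3 := mul_le_mul_of_nonneg_right h1 (by positivity : (0 : ℝ) ≤ η ^ r)
      have h4 : ‖(p : ℂ) * Z - W‖ * (c * (1 / η) ^ r) * η ^ r = ‖(p : ℂ) * Z - W‖ * c := by
        rw [one_div, inv_pow]
        field_simp
      rwa [h4] at h3
    have h3 : p * (p * V) * η ^ r ≤ (1 / Y) ^ 5 := by
      have h4 : p * (p * V) * η ^ r = (p : ℝ) ^ 2 * (1 / Y) ^ 10 := by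
        rw [hV, one_div η, inv_pow]
        field_simp
      rw [h4]
      have h5 : (p : ℝ) ^ 2 ≤ Y ^ 2 := pow_le_pow_left₀ hp0.le hpY 2
      calc (p : ℝ) ^ 2 * (1 / Y) ^ 10 ≤ Y ^ 2 * (1 / Y) ^ 10 :=
            mul_le_mul_of_nonneg_right h5 (by positivity)
        _ = (1 / Y) ^ 8 := by field_simp
        _ ≤ (1 / Y) ^ 5 := pow_le_pow_of_le_one (by positivity)
            ((div_le_one hY0).2 hY1) (by norm_num)
    have h4 : p * (|CU| * (p : ℝ) ^ K) * η ^ r ≤ |CU| * (1 / Y) ^ 5 := by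
      have h5 : (p : ℝ) ^ (K + 1) * η ^ r ≤ (1 / Y) ^ 5 := by
        calc (p : ℝ) ^ (K + 1) * η ^ r ≤ Y ^ (K + 1) * η :=
              mul_le_mul (pow_le_pow_left₀ hp0.le hpY _) hηr (by positivity) (by positivity)
          _ = (Y ^ (K + 6) * η) * (1 / Y) ^ 5 := by
              rw [one_div, inv_pow, show K + 6 = (K + 1) + 5 by omega, pow_add Y (K + 1) 5]
              field_simp
          _ ≤ 1 * (1 / Y) ^ 5 := mul_le_mul_of_nonneg_right hYη (by positivity)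
          _ = (1 / Y) ^ 5 := one_mul _
      calc p * (|CU| * (p : ℝ) ^ K) * η ^ r = |CU| * ((p : ℝ) ^ (K + 1) * η ^ r) := by ring
        _ ≤ |CU| * (1 / Y) ^ 5 := mul_le_mul_of_nonneg_left h5 (abs_nonneg _)
    have h5 : ‖(p : ℂ) * Z - W‖ * c ≤ (1 + |CU|) * (1 / Y) ^ 5 := by
      refine h2.trans ?_
      rw [add_mul, add_mul, one_mul]
      exact add_le_add h3 h4
    have h6 : (1 / c + |CU| / c) * (1 / Y) ^ 5 = (1 + |CU|) * (1 / Y) ^ 5 / c := by ring
    rw [h6, le_div_iff₀ hc0]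
    exact h5
  have hE : ‖(p : ℂ) * Z - HH a p 1‖ ≤ CE * (1 / Y) ^ 5 := by
    refine (hCE p hp η hη0 hη1).trans ?_
    rw [mul_assoc]
    refine mul_le_mul_of_nonneg_left ?_ hCE0
    calc (p : ℝ) * η ≤ Y * η := mul_le_mul_of_nonneg_right hpY hη0.le
      _ ≤ Y ^ (K + 1) * η := by
          refine mul_le_mul_of_nonneg_right ?_ hη0.le
          exact le_self_pow₀ hY1 (by omega)
      _ = (Y ^ (K + 6) * η) * (1 / Y) ^ 5 := by
          rw [one_div, inv_pow, show K + 6 = (K + 1) + 5 by omega, pow_add Y (K + 1) 5]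
          field_simp
      _ ≤ 1 * (1 / Y) ^ 5 := mul_le_mul_of_nonneg_right hYη (by positivity)
      _ = (1 / Y) ^ 5 := one_mul _
  have e1 : HH a p 1 - W = ((p : ℂ) * Z - W) - ((p : ℂ) * Z - HH a p 1) := by ring
  rw [e1]
  refine (norm_sub_le _ _).trans ?_
  rw [add_mul]
  exact add_le_add hbound hE

end Pool.Agent.SelQ
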