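import Pool.Agent.SelQ.TargetsD

/-!
# D4 IND: independence of disjoint classes
-/

set_option autoImplicit false

open Finset

namespace Pool.Agent.SelQ

theorem IND_two (π : ℕ → ℝ) (Q₁ Q₂ : Finset ℕ) (hd : Disjoint Q₁ Q₂) (F₁ F₂ : Finset ℕ → ℝ) :
    EB π (Q₁ ∪ Q₂) (fun B => F₁ (B ∩ Q₁) * F₂ (B ∩ Q₂)) = EB π Q₁ F₁ * EB π Q₂ F₂ := by
  unfold EB
  rw [Finset.sum_mul_sum, ← Finset.sum_product']
  symm
  refine Finset.sum_nbij' (fun x => x.1 ∪ x.2) (fun B => (B ∩ Q₁, B ∩ Q₂)) ?_ ?_ ?_ ?_ ?_
  · rintro ⟨B₁, B₂⟩ h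
    rw [mem_product, mem_powerset, mem_powerset] at h
    rw [mem_powerset]
    exact union_subset_union h.1 h.2
  · intro B hB
    rw [mem_product, mem_powerset, mem_powerset]
    exact ⟨inter_subset_right, inter_subset_right⟩
  · rintro ⟨B₁, B₂⟩ h
    rw [mem_product, mem_powerset, mem_powerset] at h
    obtain ⟨h1, h2⟩ := h
    simp only at h1 h2
    have e1 : B₂ ∩ Q₁ = ∅ := by
      rw [← disjoint_iff_inter_eq_empty]
      exact (hd.mono_right h2).symm
    have e2 : B₁ ∩ Q₂ = ∅ := by
      rw [← disjoint_iff_inter_eq_empty]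
      exact hd.mono_left h1
    simp only [Prod.mk.injEq]
    constructor
    · rw [union_inter_distrib_right, e1, union_empty, inter_eq_left.2 h1]
    · rw [union_inter_distrib_right, e2, empty_union, inter_eq_left.2 h2]
  · intro B hB
    rw [mem_powerset] at hB
    simp only
    rw [← inter_union_distrib_left, inter_eq_left.2 hB]
  · rintro ⟨B₁, B₂⟩ h
    rw [mem_product, mem_powerset, mem_powerset] at h
    obtain ⟨h1, h2⟩ := h
    simp only at h1 h2 ⊢
    have e1 : B₂ ∩ Q₁ = ∅ := by
      rw [← disjoint_iff_inter_eq_empty]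
      exact (hd.mono_right h2).symm
    have e2 : B₁ ∩ Q₂ = ∅ := by
      rw [← disjoint_iff_inter_eq_empty]
      exact hd.mono_left h1
    have f1 : (B₁ ∪ B₂) ∩ Q₁ = B₁ := by
      rw [union_inter_distrib_right, e1, union_empty, inter_eq_left.2 h1]
    have f2 : (B₁ ∪ B₂) ∩ Q₂ = B₂ := by
      rw [union_inter_distrib_right, e2, empty_union, inter_eq_left.2 h2]
    have hBd : Disjoint B₁ B₂ := disjoint_of_subset_left h1 (disjoint_of_subset_right h2 hd)
    have f3 : (Q₁ ∪ Q₂) \ (B₁ ∪ B₂) = (Q₁ \ B₁) ∪ (Q₂ \ B₂) := by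
      ext p
      simp only [mem_sdiff, mem_union, not_or]
      constructor
      · rintro ⟨h3 | h3, h4, h5⟩
        · exact Or.inl ⟨h3, h4⟩
        · exact Or.inr ⟨h3, h5⟩
      · rintro (⟨h3, h4⟩ | ⟨h3, h4⟩)
        · exact ⟨Or.inl h3, h4, fun h5 => disjoint_left.1 hd h3 (h2 h5)⟩
        · exact ⟨Or.inr h3, fun h5 => disjoint_left.1 hd (h1 h5) h3, h4⟩
    have hQd : Disjoint (Q₁ \ B₁) (Q₂ \ B₂) :=
      disjoint_of_subset_left sdiff_subset (disjoint_of_subset_right sdiff_subset hd)
    rw [f1, f2, f3, prod_union hBd, prod_union hQd]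
    ring

/-- D4 IND. -/
theorem p_IND : T_IND := by
  intro π G
  induction G with
  | zero =>
    intro P F _
    simp [EB]
  | succ G ih =>
    intro P F hd
    have hU : (range (G + 1)).biUnion P = (range G).biUnion P ∪ P G := by
      rw [range_add_one, biUnion_insert, union_comm]
    have hdis : Disjoint ((range G).biUnion P) (P G) := by
      rw [disjoint_biUnion_left]
      intro i hi
      have := mem_range.1 hi
      exact hd i (by omega) G (by omega) (by omega)
    have h1 : (fun B => ∏ i ∈ range (G + 1), F i (B ∩ P i)) =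
        fun B => (fun C => ∏ i ∈ range G, F i (C ∩ P i)) (B ∩ (range G).biUnion P) *
          F G (B ∩ P G) := by
      funext B
      rw [prod_range_succ]
      congr 1
      refine prod_congr rfl fun i hi => ?_
      have h2 : P i ⊆ (range G).biUnion P := subset_biUnion_of_mem P hi
      rw [inter_assoc, inter_eq_right.2 h2]
    rw [hU, h1, IND_two π _ _ hdis (fun C => ∏ i ∈ range G, F i (C ∩ P i)) (F G),
      ih P F (fun i hi j hj => hd i (by omega) j (by omega)), prod_range_succ]

end Pool.Agent.SelQ
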