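import Pool.Agent.SelQ.TargetsE

/-!
# Degree 2 without the mean square bound: F7 INV, the inversion relation
-/

set_option autoImplicit false

open Finset

namespace Pool.Agent.SelQ

open Pool.Agent.SelTwo (lam pX vl cj tw gP)
open Pool.Agent.SelDeg2 (ee gth)
open Pool.Agent.SelPole (IsSelberg)

namespace INV_

/-! ### the series `lam` -/

theorem lam_cont (a : ℕ → ℂ) (C : ℝ) (h : ∀ n : ℕ, 1 ≤ n → ‖a n‖ ≤ C * (n : ℝ) ^ (1 : ℝ)) :
    ContinuousOn (lam a) {X : ℂ | 0 < X.re} := by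
  intro X₀ hX₀
  have hX₀' : 0 < X₀.re := hX₀
  set δ := X₀.re / 2 with hδ
  have hδ0 : 0 < δ := by positivity
  have hopen : IsOpen {X : ℂ | δ < X.re} := isOpen_lt continuous_const Complex.continuous_re
  have hmem : X₀ ∈ {X : ℂ | δ < X.re} := by
    show δ < X₀.re
    rw [hδ]; linarith
  have hs : Summable (fun n : ℕ => C * (((n + 1 : ℕ) : ℝ) ^ 1 *
      Real.exp (-δ * ((n + 1 : ℕ) : ℝ)))) :=
    ((summable_nat_add_iff 1).2 (Real.summable_pow_mul_exp_neg_nat_mul 1 hδ0)).mul_left C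
  have hc : ContinuousOn (lam a) {X : ℂ | δ < X.re} := by
    unfold lam
    refine continuousOn_tsum (fun n => ?_) hs (fun n X hX => ?_)
    · exact Continuous.continuousOn (by fun_prop)
    · have hX' : δ < X.re := hX
      rw [norm_mul, Complex.norm_exp]
      have h1 := h (n + 1) (by omega)
      rw [Real.rpow_one] at h1
      have h2 : (-(((n : ℂ) + 1) * X)).re = -((n + 1 : ℕ) : ℝ) * X.re := by
        simp
        ring
      rw [h2, pow_one, ← mul_assoc]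
      refine mul_le_mul h1 (Real.exp_le_exp.2 ?_) (Real.exp_pos _).le
        ((norm_nonneg _).trans h1)
      have h3 : (0 : ℝ) < ((n + 1 : ℕ) : ℝ) := by positivity
      nlinarith
  exact (hc.continuousAt (hopen.mem_nhds hmem)).continuousWithinAt

theorem lam_conj (a : ℕ → ℂ) (X : ℂ) :
    (starRingEnd ℂ) (lam a X) = lam (cj a) ((starRingEnd ℂ) X) := by
  unfold lam cj
  rw [Complex.conj_tsum]
  congr 1
  ext n
  rw [map_mul, ← Complex.exp_conj]
  simp

theorem cj_gth (θ : ℝ) (a : ℕ → ℂ) (n : ℕ) : cj (gth θ a) (n + 1) = tw θ (cj a) (n + 1) := by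
  unfold cj gth tw
  rw [map_mul]
  congr 1
  have harg : ((n + 1 : ℕ) : ℂ).arg ≠ Real.pi := by
    rw [Complex.natCast_arg]
    exact Real.pi_pos.ne
  have h1 := Complex.cpow_conj ((n + 1 : ℕ) : ℂ) ((θ : ℂ) * Complex.I) harg
  rw [Complex.conj_natCast] at h1
  rw [← h1]
  congr 1
  simp

theorem lam_congr {a b : ℕ → ℂ} (h : ∀ n, a (n + 1) = b (n + 1)) (X : ℂ) : lam a X = lam b X := by
  unfold lam
  congr 1
  ext n
  rw [h n]

theorem pX_conj (x y : ℝ) : (starRingEnd ℂ) (pX x y) = pX (-x) y := by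
  unfold pX
  simp only [map_mul, map_sub, Complex.conj_ofReal, Complex.conj_I, map_ofNat]
  push_cast
  ring

theorem norm_lam_tw (θ : ℝ) (a : ℕ → ℂ) (x y : ℝ) :
    ‖lam (tw θ (cj a)) (pX (-x) y)‖ = ‖lam (gth θ a) (pX x y)‖ := by
  rw [← pX_conj, ← lam_congr (cj_gth θ a), ← lam_conj, Complex.norm_conj]

theorem pX_re (x y : ℝ) : (pX x y).re = 2 * Real.pi * y := by
  unfold pX
  simp

theorem pX_im (x y : ℝ) : (pX x y).im = -(2 * Real.pi * x) := by
  unfold pX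
  simp

theorem norm_gth (θ : ℝ) (a : ℕ → ℂ) (n : ℕ) (hn : 1 ≤ n) : ‖gth θ a n‖ = ‖a n‖ := by
  unfold gth
  rw [norm_mul, Complex.norm_natCast_cpow_of_pos (by omega)]
  simp

/-- the factor in front of the main term -/
theorem norm_factor (A : ℂ) (q θ x : ℝ) (hq : 0 < q) (hx : 0 < x) :
    ‖A / (-(2 * Real.pi * Complex.I * x)) *
      (2 * Real.pi * Complex.I / (q * x)) ^ (-((θ : ℂ) * Complex.I))‖ ^ 2 =
    ‖A‖ ^ 2 * Real.exp (Real.pi * θ) / (4 * Real.pi ^ 2 * x ^ 2) := by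
  have hpi := Real.pi_pos
  have e1 : (2 * Real.pi * Complex.I / (q * x) : ℂ) = ((2 * Real.pi / (q * x) : ℝ) : ℂ) *
      Complex.I := by
    push_cast
    ring
  have hpos : 0 < 2 * Real.pi / (q * x) := by positivity
  have hne : (((2 * Real.pi / (q * x) : ℝ) : ℂ) * Complex.I) ≠ 0 :=
    mul_ne_zero (by exact_mod_cast hpos.ne') Complex.I_ne_zero
  have harg : Complex.arg (((2 * Real.pi / (q * x) : ℝ) : ℂ) * Complex.I) = Real.pi / 2 := by
    rw [Complex.arg_real_mul _ hpos, Complex.arg_I]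
  rw [e1, norm_mul, norm_div, Complex.norm_cpow_of_ne_zero hne, harg]
  have h1 : (-((θ : ℂ) * Complex.I)).re = 0 := by simp
  have h2 : (-((θ : ℂ) * Complex.I)).im = -θ := by simp
  have h3 : ‖(-(2 * Real.pi * Complex.I * x) : ℂ)‖ = 2 * Real.pi * x := by
    rw [norm_neg, norm_mul, norm_mul, norm_mul, Complex.norm_I, Complex.norm_real,
      Complex.norm_real, Real.norm_eq_abs, Real.norm_eq_abs, abs_of_pos hpi, abs_of_pos hx]
    simp
  rw [h1, h2, h3, Real.rpow_zero]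
  have h4 : (1 / Real.exp (Real.pi / 2 * -θ)) = Real.exp (Real.pi * θ / 2) := by
    rw [one_div, ← Real.exp_neg]
    congr 1
    ring
  rw [h4, mul_pow, div_pow]
  have h5 : Real.exp (Real.pi * θ / 2) ^ 2 = Real.exp (Real.pi * θ) := by
    rw [← Real.exp_nat_mul]
    congr 1
    push_cast
    ring
  rw [h5]
  ring

/-! ### double integrals -/

/-- the double integral -/
noncomputable def DI (u v δ : ℝ) (G : ℝ × ℝ → ℝ) : ℝ := ∫ x in u..v, ∫ y in δ..1, G (x, y)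

section di

variable {u v δ : ℝ}

theorem inner_int (hδ : δ ≤ 1) {G : ℝ × ℝ → ℝ}
    (hG : ContinuousOn G (Set.Icc u v ×ˢ Set.Icc δ 1)) {x : ℝ} (hx : x ∈ Set.Icc u v) :
    IntervalIntegrable (fun y => G (x, y)) MeasureTheory.volume δ 1 := by
  refine ContinuousOn.intervalIntegrable_of_Icc hδ ?_
  exact hG.comp (Continuous.continuousOn (by fun_prop)) (fun y hy => ⟨hx, hy⟩)

theorem inner_cont (huv : u ≤ v) (hδ : δ ≤ 1) {G : ℝ × ℝ → ℝ}
    (hG : ContinuousOn G (Set.Icc u v ×ˢ Set.Icc δ 1)) :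
    ContinuousOn (fun x => ∫ y in δ..1, G (x, y)) (Set.Icc u v) := by
  have h1 : Continuous (fun p : ℝ × ℝ => G (max u (min v p.1), max δ (min 1 p.2))) := by
    refine hG.comp_continuous (by fun_prop) (fun p => ?_)
    exact ⟨⟨le_max_left _ _, max_le huv (min_le_left _ _)⟩,
      ⟨le_max_left _ _, max_le hδ (min_le_left _ _)⟩⟩
  have h2 : Continuous (fun x : ℝ => ∫ y in δ..1, G (max u (min v x), max δ (min 1 y))) :=
    intervalIntegral.continuous_parametric_intervalIntegral_of_continuous' (f := fun x y =>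
      G (max u (min v x), max δ (min 1 y))) h1 δ 1
  refine h2.continuousOn.congr (fun x hx => ?_)
  refine intervalIntegral.integral_congr (fun y hy => ?_)
  rw [Set.uIcc_of_le hδ] at hy
  show G (x, y) = G (max u (min v x), max δ (min 1 y))
  rw [min_eq_right hx.2, max_eq_right hx.1, min_eq_right hy.2, max_eq_right hy.1]

theorem DI_mono (huv : u ≤ v) (hδ : δ ≤ 1) {G H : ℝ × ℝ → ℝ}
    (hG : ContinuousOn G (Set.Icc u v ×ˢ Set.Icc δ 1))
    (hH : ContinuousOn H (Set.Icc u v ×ˢ Set.Icc δ 1))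
    (h : ∀ x ∈ Set.Icc u v, ∀ y ∈ Set.Icc δ 1, G (x, y) ≤ H (x, y)) :
    DI u v δ G ≤ DI u v δ H := by
  unfold DI
  refine intervalIntegral.integral_mono_on huv
    ((inner_cont huv hδ hG).intervalIntegrable_of_Icc huv)
    ((inner_cont huv hδ hH).intervalIntegrable_of_Icc huv) (fun x hx => ?_)
  exact intervalIntegral.integral_mono_on hδ (inner_int hδ hG hx) (inner_int hδ hH hx)
    (fun y hy => h x hx y hy)

theorem DI_add (huv : u ≤ v) (hδ : δ ≤ 1) {G H : ℝ × ℝ → ℝ}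
    (hG : ContinuousOn G (Set.Icc u v ×ˢ Set.Icc δ 1))
    (hH : ContinuousOn H (Set.Icc u v ×ˢ Set.Icc δ 1)) :
    DI u v δ (fun p => G p + H p) = DI u v δ G + DI u v δ H := by
  unfold DI
  rw [← intervalIntegral.integral_add ((inner_cont huv hδ hG).intervalIntegrable_of_Icc huv)
    ((inner_cont huv hδ hH).intervalIntegrable_of_Icc huv)]
  refine intervalIntegral.integral_congr (fun x hx => ?_)
  rw [Set.uIcc_of_le huv] at hx
  exact intervalIntegral.integral_add (inner_int hδ hG hx) (inner_int hδ hH hx)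

theorem DI_const_mul (c : ℝ) (G : ℝ × ℝ → ℝ) :
    DI u v δ (fun p => c * G p) = c * DI u v δ G := by
  unfold DI
  simp only [intervalIntegral.integral_const_mul]

end di

/-- comparison of squares of norms -/
theorem sq_diff (L M : ℂ) {t : ℝ} (ht : 0 < t) (ht1 : t ≤ 1) :
    |‖L‖ ^ 2 - ‖M‖ ^ 2| ≤ t * ‖M‖ ^ 2 + 2 * t⁻¹ * ‖L - M‖ ^ 2 := by
  have h1 : |‖L‖ - ‖M‖| ≤ ‖L - M‖ := abs_norm_sub_norm_le L M
  have h2 := norm_nonneg L
  have h3 := norm_nonneg M
  have h4 := norm_nonneg (L - M)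
  set n := ‖L‖
  set m := ‖M‖
  set d := ‖L - M‖
  have h5 : |n ^ 2 - m ^ 2| = |n - m| * (n + m) := by
    rw [show n ^ 2 - m ^ 2 = (n - m) * (n + m) by ring, abs_mul, abs_of_nonneg (add_nonneg h2 h3)]
  have h6 : n + m ≤ 2 * m + d := by
    have := (abs_le.1 h1).2
    linarith
  have h7 : |n ^ 2 - m ^ 2| ≤ d * (2 * m + d) := by
    rw [h5]
    exact mul_le_mul h1 h6 (add_nonneg h2 h3) h4
  refine h7.trans ?_
  have h8 : 1 ≤ t⁻¹ := (one_le_inv₀ ht).2 ht1
  have h9 : 2 * (m * d) ≤ t * m ^ 2 + t⁻¹ * d ^ 2 := by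
    have h10 : 0 ≤ t⁻¹ * (t * m - d) ^ 2 := by positivity
    have h11 : t⁻¹ * (t * m - d) ^ 2 = t * m ^ 2 - 2 * (m * d) + t⁻¹ * d ^ 2 := by
      field_simp
      ring
    linarith
  nlinarith [sq_nonneg d]

end INV_

open INV_

theorem p_INV (hREX : T_REX) (hLTI : T_LTI) (hPNT : T_PNT) (hMMS : T_MMS) : T_INV := by
  intro F a b Q k l m w hS hFE hl
  obtain ⟨M, hM⟩ := hS.continuation
  obtain ⟨A, q, E, h, C₁, hA, hq, hKB, hREL⟩ := hREX F M a Q k l m w hS.summable hS.eq_series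
    hM hFE hl
  have hpi := Real.pi_pos
  set θ : ℝ := 2 * ∑ j, (m j).im with hθ
  have hκ : 0 < 1 / q := by positivity
  have hAn : 0 < ‖A‖ := norm_pos_iff.2 hA
  set lam0 : ℝ := ‖A‖ ^ 2 * Real.exp (Real.pi * θ) / (4 * Real.pi ^ 2 * (1 / q)) with hlam0
  have hlam0p : 0 < lam0 := by positivity
  refine ⟨gth θ a, 1 / q, lam0, hκ, hlam0p, fun n hn => norm_gth θ a n hn, ?_⟩
  intro u v hu huv
  obtain ⟨Ca, hCa⟩ := hS.ramanujan 1 one_pos
  have hCas : ∀ n : ℕ, 1 ≤ n → ‖gth θ a n‖ ≤ Ca * (n : ℝ) ^ (1 : ℝ) := fun n hn => by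
    rw [norm_gth θ a n hn]; exact hCa n hn
  have hram : ∀ ε : ℝ, 0 < ε → ∃ C : ℝ, ∀ n : ℕ, 1 ≤ n → ‖gth θ a n‖ ≤ C * (n : ℝ) ^ ε := by
    intro ε hε
    obtain ⟨C, hC⟩ := hS.ramanujan ε hε
    exact ⟨C, fun n hn => by rw [norm_gth θ a n hn]; exact hC n hn⟩
  obtain ⟨hEc, CL, hCL0, hCL⟩ := hLTI E h C₁ u v hKB hu huv
  obtain ⟨CP, hCP⟩ := hPNT a A q θ u v hS.ramanujan hq hu huv
  obtain ⟨CM, hCM0, hCM⟩ := hMMS (gth θ a) (1 / q) u v hram hκ hu huv
  set K : ℝ := max (1 / u) (2 * Real.pi * (v + 1)) with hK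
  have hv0 : 0 < v := hu.trans huv
  have hK1 : 1 ≤ K := by
    refine le_trans ?_ (le_max_right _ _)
    nlinarith [Real.pi_gt_three]
  obtain ⟨C₂, hC₂⟩ := hREL K hK1
  set C₃ : ℝ := |C₂| + |CP| with hC₃
  have hC₃0 : 0 ≤ C₃ := by positivity
  refine ⟨(v - u) ^ 2 * (lam0 * (1 / q / u ^ 2) * CM + 4 * CL +
    4 * C₃ ^ 2 * ((v - u) * (8 / 5))), ?_⟩
  intro η δ hη hη1 hδ hδ1
  have huv' := huv.le
  have hδ1' := hδ1.le
  have lamc := lam_cont a Ca hCa
  have lamcs := lam_cont (gth θ a) Ca hCas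
  set S : Set (ℝ × ℝ) := Set.Icc u v ×ˢ Set.Icc δ 1 with hSdef
  have hpos : ∀ p ∈ S, 0 < p.1 ∧ 0 < p.2 := by
    rintro ⟨x, y⟩ ⟨h1, h2⟩
    exact ⟨hu.trans_le h1.1, hδ.trans_le h2.1⟩
  have pXc : Continuous (fun p : ℝ × ℝ => pX p.1 p.2) := by
    unfold pX
    fun_prop
  -- continuity
  have c1 : ContinuousOn (fun p : ℝ × ℝ => ‖lam a (pX p.1 p.2)‖ ^ 2) S := by
    refine ((lamc.comp pXc.continuousOn (fun p hp => ?_)).norm).pow 2
    show 0 < (pX p.1 p.2).re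
    rw [pX_re]
    have := (hpos p hp).2
    positivity
  have c2 : ContinuousOn (fun p : ℝ × ℝ =>
      ‖lam (gth θ a) (pX (1 / q / p.1) (1 / q * p.2 / p.1 ^ 2))‖ ^ 2) S := by
    have h1 : ContinuousOn (fun p : ℝ × ℝ => (1 / q / p.1, 1 / q * p.2 / p.1 ^ 2)) S := by
      refine ContinuousOn.prodMk ?_ ?_
      · exact continuousOn_const.div continuous_fst.continuousOn
          (fun p hp => (hpos p hp).1.ne')
      · exact (Continuous.continuousOn (by fun_prop)).div (Continuous.continuousOn (by fun_prop))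
          (fun p hp => pow_ne_zero 2 (hpos p hp).1.ne')
    refine ((lamcs.comp (pXc.comp_continuousOn h1) (fun p hp => ?_)).norm).pow 2
    show 0 < (pX (1 / q / p.1) (1 / q * p.2 / p.1 ^ 2)).re
    rw [pX_re]
    have h3 := (hpos p hp).2
    have h4 := (hpos p hp).1
    positivity
  have c3 : ContinuousOn (fun p : ℝ × ℝ => ‖eI E h (pX p.1 p.2)‖ ^ 2) S := by
    refine ((hEc.comp pXc.continuousOn (fun p hp => ?_)).norm).pow 2
    show 0 < (pX p.1 p.2).re ∧ (pX p.1 p.2).im < 0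
    rw [pX_re, pX_im]
    have h3 := (hpos p hp).2
    have h4 := (hpos p hp).1
    exact ⟨by positivity, neg_neg_of_pos (by positivity)⟩
  have cr : ∀ r : ℝ, ContinuousOn (fun p : ℝ × ℝ => p.2 ^ r) S := fun r =>
    continuous_snd.continuousOn.rpow_const (fun p hp => Or.inl (hpos p hp).2.ne')
  have cW : ContinuousOn (fun p : ℝ × ℝ => W0 u v p.1) S := by
    unfold W0
    exact Continuous.continuousOn (by fun_prop)
  have cκ : ContinuousOn (fun p : ℝ × ℝ => 1 / q / p.1 ^ 2) S :=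
    continuousOn_const.div (Continuous.continuousOn (by fun_prop))
      (fun p hp => pow_ne_zero 2 (hpos p hp).1.ne')
  -- the two integrands
  set G1 : ℝ × ℝ → ℝ := fun p => W0 u v p.1 * (p.2 ^ η * ‖lam a (pX p.1 p.2)‖ ^ 2) with hG1
  set G2 : ℝ × ℝ → ℝ := fun p => W0 u v p.1 * (p.2 ^ η * (lam0 * (1 / q / p.1 ^ 2 *
    ‖lam (gth θ a) (pX (1 / q / p.1) (1 / q * p.2 / p.1 ^ 2))‖ ^ 2))) with hG2
  have cG1 : ContinuousOn G1 S := cW.mul ((cr η).mul c1)
  have cG2 : ContinuousOn G2 S := cW.mul ((cr η).mul (continuousOn_const.mul (cκ.mul c2)))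
  have e1 : (∫ x in u..v, W0 u v x * ∫ y in δ..1, y ^ η * ‖lam a (pX x y)‖ ^ 2) =
      DI u v δ G1 := by
    unfold DI
    simp only [hG1, intervalIntegral.integral_const_mul]
  have e2 : lam0 * (∫ x in u..v, W0 u v x * ∫ y in δ..1, y ^ η * (1 / q / x ^ 2 *
      ‖lam (gth θ a) (pX (1 / q / x) (1 / q * y / x ^ 2))‖ ^ 2)) = DI u v δ G2 := by
    have h1 : G2 = fun p => lam0 * (W0 u v p.1 * (p.2 ^ η * (1 / q / p.1 ^ 2 *
        ‖lam (gth θ a) (pX (1 / q / p.1) (1 / q * p.2 / p.1 ^ 2))‖ ^ 2))) := by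
      rw [hG2]
      ext p
      ring
    rw [h1, DI_const_mul]
    unfold DI
    simp only [intervalIntegral.integral_const_mul]
  rw [e1, e2]
  -- the bound
  set B1 : ℝ × ℝ → ℝ := fun p => p.2 ^ (1 / 4 : ℝ) *
    ‖lam (gth θ a) (pX (1 / q / p.1) (1 / q * p.2 / p.1 ^ 2))‖ ^ 2 with hB1
  set B2 : ℝ × ℝ → ℝ := fun p => p.2 ^ (-(1 / 4) : ℝ) * ‖eI E h (pX p.1 p.2)‖ ^ 2 with hB2
  set B3 : ℝ × ℝ → ℝ := fun p => p.2 ^ (-(3 / 8) : ℝ) with hB3
  have cB1 : ContinuousOn B1 S := (cr _).mul c2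
  have cB2 : ContinuousOn B2 S := (cr _).mul c3
  have cB3 : ContinuousOn B3 S := cr _
  set Bd : ℝ × ℝ → ℝ := fun p => (v - u) ^ 2 * ((lam0 * (1 / q / u ^ 2)) * B1 p + 4 * B2 p +
    4 * C₃ ^ 2 * B3 p) with hBd
  have cBd : ContinuousOn Bd S := continuousOn_const.mul (((continuousOn_const.mul cB1).add
    (continuousOn_const.mul cB2)).add (continuousOn_const.mul cB3))
  have hDBd : DI u v δ Bd ≤ (v - u) ^ 2 * (lam0 * (1 / q / u ^ 2) * CM + 4 * CL +
      4 * C₃ ^ 2 * ((v - u) * (8 / 5))) := by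
    have cc1 : ContinuousOn (fun p => (lam0 * (1 / q / u ^ 2)) * B1 p) S :=
      continuousOn_const.mul cB1
    have cc2 : ContinuousOn (fun p => 4 * B2 p) S := continuousOn_const.mul cB2
    have cc3 : ContinuousOn (fun p => 4 * C₃ ^ 2 * B3 p) S := continuousOn_const.mul cB3
    rw [hBd, DI_const_mul, DI_add (G := fun p => (lam0 * (1 / q / u ^ 2)) * B1 p + 4 * B2 p)
      (H := fun p => 4 * C₃ ^ 2 * B3 p) huv' hδ1' (cc1.add cc2) cc3,
      DI_add (G := fun p => (lam0 * (1 / q / u ^ 2)) * B1 p) (H := fun p => 4 * B2 p)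
      huv' hδ1' cc1 cc2, DI_const_mul, DI_const_mul, DI_const_mul]
    have h1 : DI u v δ B1 ≤ CM := hCM δ hδ hδ1
    have h2 : DI u v δ B2 ≤ CL := hCL δ hδ hδ1
    have h3 : DI u v δ B3 ≤ (v - u) * (8 / 5) := by
      unfold DI
      rw [hB3]
      have h4 : ∫ y in δ..1, y ^ (-(3 / 8) : ℝ) ≤ 8 / 5 := by
        rw [integral_rpow (Or.inl (by norm_num))]
        have h5 : 0 ≤ δ ^ (-(3 / 8) + 1 : ℝ) := Real.rpow_nonneg hδ.le _
        rw [Real.one_rpow, div_le_iff₀ (by norm_num)]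
        norm_num
        norm_num at h5
        linarith
      simp only [intervalIntegral.integral_const, smul_eq_mul]
      exact mul_le_mul_of_nonneg_left h4 (by linarith)
    have h4 : 0 ≤ lam0 * (1 / q / u ^ 2) := by positivity
    have h5 : 0 ≤ 4 * C₃ ^ 2 := by positivity
    refine mul_le_mul_of_nonneg_left ?_ (sq_nonneg _)
    have h6 := mul_le_mul_of_nonneg_left h1 h4
    have h7 := mul_le_mul_of_nonneg_left h3 h5
    linarith
  have hpt : ∀ x ∈ Set.Icc u v, ∀ y ∈ Set.Icc δ 1, |G1 (x, y) - G2 (x, y)| ≤ Bd (x, y) := by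
    intro x hx y hy
    have hx0 : 0 < x := hu.trans_le hx.1
    have hy0 : 0 < y := hδ.trans_le hy.1
    set L := lam a (pX x y) with hL
    set M₀ := A / (-(2 * Real.pi * Complex.I * x)) *
      (2 * Real.pi * Complex.I / (q * x)) ^ (-((θ : ℂ) * Complex.I)) *
      lam (tw θ (cj a)) (pX (-(1 / q / x)) (1 / q * y / x ^ 2)) with hM₀
    have hM2 : ‖M₀‖ ^ 2 = lam0 * (1 / q / x ^ 2 *
        ‖lam (gth θ a) (pX (1 / q / x) (1 / q * y / x ^ 2))‖ ^ 2) := by
      rw [hM₀, norm_mul, mul_pow, norm_factor A q θ x hq hx0, norm_lam_tw, hlam0]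
      field_simp
    have hdiff : G1 (x, y) - G2 (x, y) = W0 u v x * y ^ η * (‖L‖ ^ 2 - ‖M₀‖ ^ 2) := by
      rw [hM2, hG1, hG2]
      ring
    have hW0 : 0 ≤ W0 u v x := mul_nonneg (by linarith [hx.1]) (by linarith [hx.2])
    have hW1 : W0 u v x ≤ (v - u) ^ 2 := by
      unfold W0
      have h1 := hx.1
      have h2 := hx.2
      nlinarith
    have hyη0 : 0 ≤ y ^ η := Real.rpow_nonneg hy0.le _
    have hyη1 : y ^ η ≤ 1 := Real.rpow_le_one hy0.le hy.2 hη.le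
    -- the error
    have herr : ‖L - M₀‖ ≤ ‖eI E h (pX x y)‖ + C₃ * y ^ (-(1 / 16) : ℝ) := by
      have hre : 0 < (pX x y).re := by rw [pX_re]; positivity
      have him : (pX x y).im < 0 := by rw [pX_im]; exact neg_neg_of_pos (by positivity)
      have hn1 : 1 / K ≤ ‖pX x y‖ := by
        have h1 : |(pX x y).im| ≤ ‖pX x y‖ := Complex.abs_im_le_norm _
        rw [pX_im, abs_neg, abs_of_pos (by positivity)] at h1
        have h2 : 1 / K ≤ u := by
          have h3 : 1 / u ≤ K := le_max_left _ _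
          rw [div_le_iff₀ (by linarith)]
          rw [div_le_iff₀ hu] at h3
          linarith
        have h4 : u ≤ 2 * Real.pi * x := by nlinarith [Real.pi_gt_three, hx.1]
        linarith
      have hn2 : ‖pX x y‖ ≤ K := by
        refine le_trans ?_ (le_max_right _ _)
        unfold pX
        rw [norm_mul, norm_mul, Complex.norm_real, Real.norm_eq_abs, abs_of_pos hpi]
        have h1 : ‖(2 : ℂ)‖ = 2 := by simp
        rw [h1]
        refine mul_le_mul_of_nonneg_left ?_ (by positivity)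
        refine (norm_sub_le _ _).trans ?_
        rw [norm_mul, Complex.norm_I, Complex.norm_real, Complex.norm_real, Real.norm_eq_abs,
          Real.norm_eq_abs, abs_of_pos hy0, abs_of_pos hx0]
        linarith [hx.2, hy.2]
      have h1 := hC₂ (pX x y) hre him hn1 hn2
      have h2 := hCP x y hx.1 hx.2 hy0 hy.2
      have h3 : (1 : ℝ) ≤ y ^ (-(1 / 16) : ℝ) :=
        Real.one_le_rpow_of_pos_of_le_one_of_nonpos hy0 hy.2 (by norm_num)
      set Mid := A / pX x y * (4 * Real.pi ^ 2 / (q * pX x y)) ^ (-((θ : ℂ) * Complex.I)) *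
        lam (tw θ (cj a)) (4 * Real.pi ^ 2 / (q * pX x y)) with hMid
      have h4 : L - M₀ = (L - Mid - eI E h (pX x y)) + (Mid - M₀) + eI E h (pX x y) := by ring
      rw [h4]
      refine (norm_add_le _ _).trans ?_
      have h5 : ‖(L - Mid - eI E h (pX x y)) + (Mid - M₀)‖ ≤ C₃ * y ^ (-(1 / 16) : ℝ) := by
        refine (norm_add_le _ _).trans ?_
        have h6 : ‖L - Mid - eI E h (pX x y)‖ ≤ |C₂| * y ^ (-(1 / 16) : ℝ) := by
          refine (h1.trans (le_abs_self _)).trans ?_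
          exact le_mul_of_one_le_right (abs_nonneg _) h3
        have h7 : ‖Mid - M₀‖ ≤ |CP| * y ^ (-(1 / 16) : ℝ) :=
          h2.trans (mul_le_mul_of_nonneg_right (le_abs_self _) (by linarith))
        rw [hC₃, add_mul]
        exact add_le_add h6 h7
      linarith
    set t := y ^ (1 / 4 : ℝ) with ht
    have ht0 : 0 < t := Real.rpow_pos_of_pos hy0 _
    have ht1 : t ≤ 1 := Real.rpow_le_one hy0.le hy.2 (by norm_num)
    have htinv : t⁻¹ = y ^ (-(1 / 4) : ℝ) := by rw [ht, Real.rpow_neg hy0.le]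
    have hsq := sq_diff L M₀ ht0 ht1
    have hsq2 : ‖L - M₀‖ ^ 2 ≤ 2 * ‖eI E h (pX x y)‖ ^ 2 + 2 * C₃ ^ 2 * y ^ (-(1 / 8) : ℝ) := by
      have h1 : (C₃ * y ^ (-(1 / 16) : ℝ)) ^ 2 = C₃ ^ 2 * y ^ (-(1 / 8) : ℝ) := by
        rw [mul_pow, ← Real.rpow_natCast (y ^ (-(1 / 16) : ℝ)), ← Real.rpow_mul hy0.le]
        norm_num
      have h2 := pow_le_pow_left₀ (norm_nonneg _) herr 2
      refine h2.trans ?_
      have h3 := sq_nonneg (‖eI E h (pX x y)‖ - C₃ * y ^ (-(1 / 16) : ℝ))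
      nlinarith
    have hM3 : ‖M₀‖ ^ 2 ≤ lam0 * (1 / q / u ^ 2) *
        ‖lam (gth θ a) (pX (1 / q / x) (1 / q * y / x ^ 2))‖ ^ 2 := by
      rw [hM2, ← mul_assoc]
      refine mul_le_mul_of_nonneg_right ?_ (sq_nonneg _)
      refine mul_le_mul_of_nonneg_left ?_ hlam0p.le
      refine div_le_div_of_nonneg_left hκ.le (by positivity) ?_
      exact pow_le_pow_left₀ hu.le hx.1 2
    rw [hdiff, abs_mul, abs_of_nonneg (mul_nonneg hW0 hyη0)]
    have h1 : W0 u v x * y ^ η ≤ (v - u) ^ 2 := by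
      calc W0 u v x * y ^ η ≤ (v - u) ^ 2 * 1 := mul_le_mul hW1 hyη1 hyη0 (sq_nonneg _)
        _ = _ := mul_one _
    refine (mul_le_mul h1 hsq (abs_nonneg _) (sq_nonneg _)).trans ?_
    rw [hBd]
    refine mul_le_mul_of_nonneg_left ?_ (sq_nonneg _)
    have h2 : t * ‖M₀‖ ^ 2 ≤ (lam0 * (1 / q / u ^ 2)) * B1 (x, y) := by
      refine (mul_le_mul_of_nonneg_left hM3 ht0.le).trans (le_of_eq ?_)
      rw [hB1]
      ring
    have h3 : 2 * t⁻¹ * ‖L - M₀‖ ^ 2 ≤ 4 * B2 (x, y) + 4 * C₃ ^ 2 * B3 (x, y) := by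
      have h4 : y ^ (-(3 / 8) : ℝ) = t⁻¹ * y ^ (-(1 / 8) : ℝ) := by
        rw [htinv, ← Real.rpow_add hy0]
        norm_num
      refine (mul_le_mul_of_nonneg_left hsq2 (by positivity)).trans (le_of_eq ?_)
      rw [hB2, hB3]
      simp only []
      rw [h4, ← htinv]
      ring
    linarith
  have hlow : DI u v δ G1 ≤ DI u v δ G2 + DI u v δ Bd := by
    rw [← DI_add huv' hδ1' cG2 cBd]
    refine DI_mono huv' hδ1' cG1 (cG2.add cBd) (fun x hx y hy => ?_)
    have := (abs_le.1 (hpt x hx y hy)).2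
    show G1 (x, y) ≤ G2 (x, y) + Bd (x, y)
    linarith
  have hup : DI u v δ G2 ≤ DI u v δ G1 + DI u v δ Bd := by
    rw [← DI_add huv' hδ1' cG1 cBd]
    refine DI_mono huv' hδ1' cG2 (cG1.add cBd) (fun x hx y hy => ?_)
    have := (abs_le.1 (hpt x hx y hy)).1
    show G2 (x, y) ≤ G1 (x, y) + Bd (x, y)
    linarith
  rw [abs_le]
  constructor <;> linarith

end Pool.Agent.SelQ
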