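import Pool.Agent.SelQ.TargetsC
import Pool.Agent.SelDeg2.TW
import Pool.Agent.SelDeg2.LOC
import Pool.Agent.SelDeg2.DEC
import Pool.Agent.SelDeg2.CS
import Pool.Agent.SelDeg2.PP

/-!
# C10 KAP: the additive twist at `1/p` and the nontrivial characters (MP_995735_nt)
-/

set_option autoImplicit false

open Finset

namespace Pool.Agent.SelQ

open Complex Filter Topology
open Pool.Agent.SelDeg2 (ee gth SS Drel HasPole MeanSquare aX pser Lg Br LpF HH cG kap)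
open Pool.Agent.SelPole (IsSelberg)

namespace KAP_

lemma norm_ee (x : ℝ) : ‖ee x‖ = 1 := by
  unfold ee
  have h : 2 * (Real.pi : ℂ) * I * (x : ℂ) = ((2 * Real.pi * x : ℝ) : ℂ) * I := by
    push_cast
    ring
  rw [h, Complex.norm_exp_ofReal_mul_I]

lemma sum_conj (q : ℕ) [NeZero q] (ξ : DirichletCharacter ℂ q) (hξ : ξ ≠ 1) :
    ∑ y : (ZMod q)ˣ, (starRingEnd ℂ) (ξ (y : ZMod q)) = 0 := by
  rw [← map_sum]
  obtain ⟨u, hu⟩ := MulChar.ne_one_iff.1 hξ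
  have h1 : ξ (u : ZMod q) * ∑ y : (ZMod q)ˣ, ξ (y : ZMod q) = ∑ y : (ZMod q)ˣ, ξ (y : ZMod q) := by
    rw [Finset.mul_sum]
    refine Fintype.sum_equiv (Equiv.mulLeft u) _ _ fun y => ?_
    rw [Equiv.coe_mulLeft, Units.val_mul, map_mul]
  have h2 : (ξ (u : ZMod q) - 1) * ∑ y : (ZMod q)ˣ, ξ (y : ZMod q) = 0 := by
    rw [sub_mul, h1, one_mul, sub_self]
  rw [(mul_eq_zero.1 h2).resolve_left (sub_ne_zero.2 hu), map_zero]

lemma cG_pow (p : ℕ) [NeZero (p ^ 1)] (hp : p.Prime) (ξ : DirichletCharacter ℂ (p ^ 1))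
    (hξ : ξ ≠ 1) (j : ℕ) (hj : 1 ≤ j) : cG (p ^ 1) ξ (p ^ j) = 0 := by
  have hp0 : (p : ℝ) ≠ 0 := by exact_mod_cast hp.ne_zero
  have h1 : ∀ y : (ZMod (p ^ 1))ˣ,
      ee (((p ^ j : ℕ) : ℝ) * (((y : ZMod (p ^ 1)).val : ℝ) / ((p ^ 1 : ℕ) : ℝ))) = 1 := by
    intro y
    obtain ⟨i, rfl⟩ := Nat.exists_eq_add_of_le hj
    have h2 : ((p ^ (1 + i) : ℕ) : ℝ) * (((y : ZMod (p ^ 1)).val : ℝ) / ((p ^ 1 : ℕ) : ℝ)) =
        ((p ^ i * (y : ZMod (p ^ 1)).val : ℕ) : ℝ) := by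
      push_cast
      field_simp
      ring
    rw [h2, Pool.Agent.SelDeg2.CS_.ee_nat]
  unfold cG
  simp only [h1, mul_one]
  rw [sum_conj (p ^ 1) ξ hξ, mul_zero]

lemma norm_cG (q : ℕ) [NeZero q] (ξ : DirichletCharacter ℂ q) (G : ℕ) : ‖cG q ξ G‖ ≤ 1 := by
  unfold cG
  have hφ : (0 : ℝ) < q.totient := by exact_mod_cast Nat.totient_pos.2 (NeZero.pos q)
  rw [norm_mul]
  have h1 : ‖∑ y : (ZMod q)ˣ, (starRingEnd ℂ) (ξ (y : ZMod q)) *
      ee ((G : ℝ) * (((y : ZMod q).val : ℝ) / q))‖ ≤ (q.totient : ℝ) := by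
    refine (norm_sum_le _ _).trans ?_
    have h2 : ∀ y ∈ (Finset.univ : Finset (ZMod q)ˣ), ‖(starRingEnd ℂ) (ξ (y : ZMod q)) *
      ee ((G : ℝ) * (((y : ZMod q).val : ℝ) / q))‖ ≤ 1 := by
      intro y _
      rw [norm_mul, norm_ee, mul_one, RCLike.norm_conj]
      exact DirichletCharacter.norm_le_one ξ _
    refine (Finset.sum_le_sum h2).trans ?_
    rw [Finset.sum_const, Finset.card_univ, ZMod.card_units_eq_totient, nsmul_eq_mul, mul_one]
  have h3 : ‖1 / (q.totient : ℂ)‖ = 1 / (q.totient : ℝ) := by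
    rw [norm_div, norm_one]
    simp
  rw [h3]
  calc 1 / (q.totient : ℝ) * _ ≤ 1 / (q.totient : ℝ) * (q.totient : ℝ) := by
        gcongr
    _ = 1 := by field_simp

/-- for a nontrivial character mod `p` only the integer `1` contributes -/
lemma kap_eq (a : ℕ → ℂ) (ha : a 1 = 1) (p : ℕ) [NeZero (p ^ 1)] (hp : p.Prime)
    (ξ : DirichletCharacter ℂ (p ^ 1)) (hξ : ξ ≠ 1) (s : ℂ) :
    kap a (p ^ 1) ξ s = cG (p ^ 1) ξ 1 := by
  classical
  unfold kap LSeries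
  rw [tsum_eq_single 1]
  · rw [LSeries.term_of_ne_zero one_ne_zero, if_pos (fun q hq h => absurd (Nat.dvd_one.1 h)
      hq.one_lt.ne'), ha, Nat.cast_one, Complex.one_cpow, div_one, one_mul]
  · intro n hn
    rcases Nat.eq_zero_or_pos n with h0 | h0
    · rw [h0, LSeries.term_zero]
    · rw [LSeries.term_of_ne_zero h0.ne']
      split_ifs with hc
      · have h1 : n = p ^ n.primeFactorsList.length := by
          refine Nat.eq_prime_pow_of_unique_prime_dvd h0.ne' fun {d} hd hdn => ?_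
          have h2 := hc d hd hdn
          rw [pow_one] at h2
          exact (Nat.prime_dvd_prime_iff_eq hd hp).1 h2
        have h3 : 1 ≤ n.primeFactorsList.length := by
          by_contra h4
          have h5 : n.primeFactorsList.length = 0 := by omega
          rw [h5, pow_zero] at h1
          exact hn h1
        rw [h1, cG_pow p hp ξ hξ _ h3, mul_zero, zero_div]
      · rw [zero_div]

theorem main (hPP : Pool.Agent.SelDeg2.T_PP) : T_KAP := by
  classical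
  intro F a b hF p η V hp hη hV hχ
  have : NeZero (p ^ 1) := ⟨pow_ne_zero _ hp.ne_zero⟩
  obtain ⟨-, h1⟩ := hPP F a b hF p 1 hp le_rfl (1 + (η : ℂ)) (by simpa using hη)
  have h2 : SS a (1 / p) η = LSeries (fun n => a n * ee (n * (1 / ((p ^ 1 : ℕ) : ℝ))))
      (1 + (η : ℂ)) := by
    unfold SS
    rw [pow_one]
  rw [h2, h1, add_sub_cancel_left]
  refine (norm_sum_le _ _).trans ?_
  have h3 : ∀ ξ ∈ Finset.univ.filter (fun ξ : DirichletCharacter ℂ (p ^ 1) => ξ ≠ 1),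
      ‖kap a (p ^ 1) ξ (1 + (η : ℂ)) * LSeries (aX a ξ) (1 + (η : ℂ))‖ ≤ V := by
    intro ξ hξ
    have hξ1 : ξ ≠ 1 := (Finset.mem_filter.1 hξ).2
    rw [norm_mul, kap_eq a hF.a_one p hp ξ hξ1]
    calc ‖cG (p ^ 1) ξ 1‖ * ‖LSeries (aX a ξ) (1 + (η : ℂ))‖ ≤ 1 * V :=
          mul_le_mul (norm_cG _ _ _) (hχ ξ hξ1) (norm_nonneg _) zero_le_one
      _ = V := one_mul V
  refine (Finset.sum_le_card_nsmul _ _ V (by convert h3)).trans ?_
  rw [nsmul_eq_mul]
  refine mul_le_mul_of_nonneg_right ?_ hV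
  have h4 : (Finset.univ.filter (fun ξ : DirichletCharacter ℂ (p ^ 1) => ξ ≠ 1)).card ≤ p := by
    refine (Finset.card_filter_le _ _).trans ?_
    rw [Finset.card_univ, ← Nat.card_eq_fintype_card,
      DirichletCharacter.card_eq_totient_of_hasEnoughRootsOfUnity ℂ (p ^ 1)]
    calc (p ^ 1).totient ≤ p ^ 1 := Nat.totient_le _
      _ = p := pow_one p
  exact_mod_cast (by convert h4)

end KAP_

open Pool.Agent.SelDeg2 in
/-- C10 KAP. -/
theorem p_KAP : T_KAP :=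
  KAP_.main (p_PP p_MUL (p_DEC p_MUL) p_CS (p_LOC p_TW p_MUL))

end Pool.Agent.SelQ
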