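import Pool.Agent.SelQ.TargetsK
import Pool.Agent.SelDeg2.MDG
import Pool.Agent.SelDeg2.TW

/-!
# SD2-KMD (MP_995735_nt): the twisted coefficients satisfy `MQ`
-/

set_option autoImplicit false

namespace Pool.Agent.SelQ

open Complex Filter Topology
open Pool.Agent.SelDeg2 (gth MDG_norm)

theorem p_KMD (hMUL : Pool.Agent.SelDeg2.T_MUL) : T_KMD := by
  intro F a b θ hF hqp
  have hmul := hMUL F a b hF
  refine ⟨?_, ?_, ?_, ?_⟩
  · simp [gth, hF.a_one]
  · intro m n hmn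
    simp only [gth]
    rw [hmul m n hmn, Nat.cast_mul, Complex.natCast_mul_natCast_cpow]
    ring
  · intro ε hε
    obtain ⟨C, hC⟩ := hF.ramanujan ε hε
    refine ⟨C, fun n hn => ?_⟩
    rw [MDG_norm θ a hn]
    exact hC n hn
  · obtain ⟨C, hC⟩ := hqp
    refine ⟨C, fun η h0 h1 => ?_⟩
    have e : (fun p : Nat.Primes => ‖gth θ a p‖ ^ 2 * ((p : ℕ) : ℝ) ^ (-1 - η)) =
        fun p : Nat.Primes => ‖a p‖ ^ 2 * ((p : ℕ) : ℝ) ^ (-1 - η) := by
      funext p
      rw [MDG_norm θ a p.2.one_lt.le]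
    rw [e]
    exact hC η h0 h1

end Pool.Agent.SelQ
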