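import Pool.Agent.SelQ.TargetsE

/-!
# SelQ: sum over the shifts (target KSM)
-/

set_option autoImplicit false

open Finset

namespace Pool.Agent.SelQ

namespace KSM_

/-- First range. -/
lemma low (R : ℕ → ℝ) (D c : ℝ) (K : ℕ) (hD : 0 ≤ D) (hc : 0 ≤ c)
    (h2 : ∀ k : ℕ, 1 ≤ k → R k ≤ (1 + k : ℝ) ^ 3 * c * D) :
    ∀ n ≤ K, ∑ k ∈ range n, R (k + 1) / ((k : ℝ) + 1) ^ 2 ≤ 8 * c * D * (n : ℝ) ^ 2 := by
  intro n
  induction n with
  | zero => intro _; simp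
  | succ n ih =>
    intro hn
    rw [sum_range_succ]
    have h3 := ih (by omega)
    have h4 : R (n + 1) / ((n : ℝ) + 1) ^ 2 ≤ 8 * c * D * ((n : ℝ) + 1) := by
      rw [div_le_iff₀ (by positivity)]
      have h5 := h2 (n + 1) (by omega)
      push_cast at h5
      have h6 : (1 + ((n : ℝ) + 1)) ^ 3 ≤ 8 * ((n : ℝ) + 1) ^ 3 := by
        have h7 : (1 + ((n : ℝ) + 1)) ^ 3 ≤ (2 * ((n : ℝ) + 1)) ^ 3 := by
          have h8 : (0 : ℝ) ≤ n := n.cast_nonneg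
          exact pow_le_pow_left₀ (by positivity) (by linarith) 3
        calc (1 + ((n : ℝ) + 1)) ^ 3 ≤ (2 * ((n : ℝ) + 1)) ^ 3 := h7
          _ = 8 * ((n : ℝ) + 1) ^ 3 := by ring
      calc R (n + 1) ≤ (1 + ((n : ℝ) + 1)) ^ 3 * c * D := h5
        _ ≤ 8 * ((n : ℝ) + 1) ^ 3 * c * D := by gcongr
        _ = 8 * c * D * ((n : ℝ) + 1) * ((n : ℝ) + 1) ^ 2 := by ring
    have h9 : 0 ≤ 8 * c * D * (n : ℝ) := by positivity
    push_cast
    nlinarith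

/-- Second range. -/
lemma high (R : ℕ → ℝ) (D B : ℝ) (K : ℕ) (hK : 1 ≤ K) (hD : 0 ≤ D)
    (h1 : ∀ k : ℕ, 1 ≤ k → R k ≤ D)
    (hB : ∑ k ∈ range K, R (k + 1) / ((k : ℝ) + 1) ^ 2 ≤ B) :
    ∀ m : ℕ, ∑ k ∈ range (K + m), R (k + 1) / ((k : ℝ) + 1) ^ 2 ≤
      B + D / K - D / ((K + m : ℕ) : ℝ) := by
  intro m
  have hKpos : (0 : ℝ) < K := by exact_mod_cast hK
  induction m with
  | zero => simpa using hB
  | succ m ih =>
    rw [← add_assoc, sum_range_succ]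
    have h3 : (0 : ℝ) < ((K + m : ℕ) : ℝ) := by
      push_cast
      positivity
    have h4 : R (K + m + 1) / (((K + m : ℕ) : ℝ) + 1) ^ 2 ≤
        D / ((K + m : ℕ) : ℝ) - D / (((K + m : ℕ) : ℝ) + 1) := by
      have h5 : D / ((K + m : ℕ) : ℝ) - D / (((K + m : ℕ) : ℝ) + 1) =
          D / (((K + m : ℕ) : ℝ) * (((K + m : ℕ) : ℝ) + 1)) := by
        field_simp
        ring
      rw [h5]
      calc R (K + m + 1) / (((K + m : ℕ) : ℝ) + 1) ^ 2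
          ≤ D / (((K + m : ℕ) : ℝ) + 1) ^ 2 := by
            gcongr
            exact h1 _ (by omega)
        _ ≤ D / (((K + m : ℕ) : ℝ) * (((K + m : ℕ) : ℝ) + 1)) := by
            apply div_le_div_of_nonneg_left hD (by positivity)
            nlinarith
    have h6 : (((K + m + 1 : ℕ)) : ℝ) = ((K + m : ℕ) : ℝ) + 1 := by push_cast; ring
    rw [h6]
    linarith

end KSM_

open KSM_ in
/-- KSM. -/
theorem p_KSM : T_KSM := by
  intro R D T hD hT hR h1 h2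
  have hT0 : 0 < T := by linarith
  set X : ℝ := T ^ ((4 / 3 : ℝ)) with hX
  have hX1 : 1 ≤ X := Real.one_le_rpow hT (by norm_num)
  have hX0 : 0 < X := by linarith
  set K : ℕ := ⌊X⌋₊ with hKdef
  have hK1 : 1 ≤ K := Nat.le_floor (by exact_mod_cast hX1)
  have hKX : (K : ℝ) ≤ X := Nat.floor_le hX0.le
  have hXK : X < K + 1 := Nat.lt_floor_add_one X
  have hK1' : (1 : ℝ) ≤ K := by exact_mod_cast hK1
  have hc : 0 ≤ T ^ (-4 : ℝ) := Real.rpow_nonneg hT0.le _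
  have hinv : T ^ (-(4 / 3) : ℝ) = X⁻¹ := by
    rw [hX, Real.rpow_neg hT0.le]
  have hprod : T ^ (-4 : ℝ) * X ^ 2 = X⁻¹ := by
    rw [hX, ← Real.rpow_natCast, ← Real.rpow_mul hT0.le, ← Real.rpow_add hT0,
      ← Real.rpow_neg hT0.le]
    congr 1
    norm_num
  have hb : ∀ n, ∑ k ∈ range n, R (k + 1) / ((k : ℝ) + 1) ^ 2 ≤
      20 * T ^ (-(4 / 3) : ℝ) * D := by
    intro n
    have hlow := low R D (T ^ (-4 : ℝ)) K hD hc h2
    have e1 : 8 * T ^ (-4 : ℝ) * D * (K : ℝ) ^ 2 ≤ 8 * X⁻¹ * D := by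
      calc 8 * T ^ (-4 : ℝ) * D * (K : ℝ) ^ 2 ≤ 8 * T ^ (-4 : ℝ) * D * X ^ 2 := by
            gcongr
        _ = 8 * (T ^ (-4 : ℝ) * X ^ 2) * D := by ring
        _ = 8 * X⁻¹ * D := by rw [hprod]
    have e2 : D / (K : ℝ) ≤ 2 * X⁻¹ * D := by
      have e3 : (K : ℝ)⁻¹ ≤ 2 * X⁻¹ := by
        rw [← div_eq_mul_inv, le_div_iff₀ hX0, inv_mul_le_iff₀ (by linarith)]
        linarith
      calc D / (K : ℝ) = (K : ℝ)⁻¹ * D := by rw [div_eq_mul_inv, mul_comm]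
        _ ≤ 2 * X⁻¹ * D := by gcongr
    have hX3 : 0 ≤ X⁻¹ * D := by positivity
    rw [hinv]
    rcases le_total n K with h | h
    · have e4 := hlow n h
      have e5 : 8 * T ^ (-4 : ℝ) * D * (n : ℝ) ^ 2 ≤ 8 * T ^ (-4 : ℝ) * D * (K : ℝ) ^ 2 := by
        have : (n : ℝ) ≤ K := by exact_mod_cast h
        gcongr
      nlinarith
    · obtain ⟨m, rfl⟩ := Nat.exists_eq_add_of_le h
      have e6 := high R D _ K hK1 hD h1 (hlow K le_rfl) m
      have e7 : 0 ≤ D / ((K + m : ℕ) : ℝ) := by positivity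
      nlinarith
  have h0 : ∀ k : ℕ, 0 ≤ R (k + 1) / ((k : ℝ) + 1) ^ 2 := fun k =>
    div_nonneg (hR _) (by positivity)
  exact ⟨summable_of_sum_range_le h0 hb, Real.tsum_le_of_sum_range_le h0 hb⟩

end Pool.Agent.SelQ

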