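import Pool.Agent.SelQ.TargetsD

/-!
# Degree 2 without the mean square bound (MP_995735_nt): the law of the exact prime divisors
-/

set_option autoImplicit false

open Finset

namespace Pool.Agent.SelQ

namespace LAW_

/-- the weight without the multiples of `p` -/
noncomputable def wp (w : ℕ → ℝ) (p m : ℕ) : ℝ := if p ∣ m then 0 else w m

theorem wf_wp {w : ℕ → ℝ} (hw : WF w) {p : ℕ} (hp : p.Prime) : WF (wp w p) where
  nn := fun n => by
    unfold wp
    split_ifs
    · exact le_rfl
    · exact hw.nn n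
  zero := by simp [wp]
  one := by
    unfold wp
    rw [if_neg (by rw [Nat.dvd_one]; exact hp.ne_one), hw.one]
  mul := fun m n h => by
    unfold wp
    by_cases h1 : p ∣ m
    · rw [if_pos (h1.mul_right n), if_pos h1, zero_mul]
    · by_cases h2 : p ∣ n
      · rw [if_pos (h2.mul_left m), if_pos h2, mul_zero]
      · rw [if_neg (by rw [hp.dvd_mul]; tauto), if_neg h1, if_neg h2, hw.mul m n h]
  sm := by
    refine Summable.of_nonneg_of_le (fun n => ?_) (fun n => ?_) hw.sm
    · unfold wp
      split_ifs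
      · exact le_rfl
      · exact hw.nn n
    · unfold wp
      split_ifs
      · exact hw.nn n
      · exact le_rfl

theorem not_dvd_pow {p q : ℕ} (hp : p.Prime) (hq : q.Prime) (hpq : q ≠ p) (j : ℕ) :
    ¬ p ∣ q ^ j := by
  intro h
  have := hp.dvd_of_dvd_pow h
  rw [Nat.prime_dvd_prime_iff_eq hp hq] at this
  exact hpq this.symm

theorem pr_wp {w : ℕ → ℝ} {p q : ℕ} (hp : p.Prime) (hq : q.Prime) (hpq : q ≠ p) :
    pr (wp w p) q = pr w q := by
  unfold pr
  have h1 : ∀ j, wp w p (q ^ j) = w (q ^ j) := fun j => by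
    unfold wp
    rw [if_neg (not_dvd_pow hp hq hpq j)]
  have h2 : wp w p q = w q := by
    have := h1 1
    rwa [pow_one] at this
  rw [h2]
  simp only [h1]

theorem EB_congr {π π' : ℕ → ℝ} {Q : Finset ℕ} (F : Finset ℕ → ℝ) (h : ∀ q ∈ Q, π q = π' q) :
    EB π Q F = EB π' Q F := by
  unfold EB
  refine sum_congr rfl fun B hB => ?_
  rw [mem_powerset] at hB
  have e1 : ∏ p ∈ B, π p = ∏ p ∈ B, π' p := prod_congr rfl (fun p hp => h p (hB hp))
  have e2 : ∏ p ∈ Q \ B, (1 - π p) = ∏ p ∈ Q \ B, (1 - π' p) :=
    prod_congr rfl (fun p hp => by rw [h p (mem_sdiff.1 hp).1])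
  rw [e1, e2]

theorem EB_insert (π : ℕ → ℝ) {Q : Finset ℕ} {p : ℕ} (hp : p ∉ Q) (F : Finset ℕ → ℝ) :
    EB π (insert p Q) F = π p * EB π Q (fun B => F (insert p B)) + (1 - π p) * EB π Q F := by
  unfold EB
  rw [sum_powerset_insert hp, mul_sum, mul_sum, add_comm]
  congr 1
  · refine sum_congr rfl fun B hB => ?_
    rw [mem_powerset] at hB
    have hpB : p ∉ B := fun h => hp (hB h)
    have e : insert p Q \ insert p B = Q \ B := by
      ext x
      simp only [mem_sdiff, mem_insert]
      constructor
      · rintro ⟨h1 | h1, h2⟩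
        · exact absurd (Or.inl h1) h2
        · exact ⟨h1, fun h3 => h2 (Or.inr h3)⟩
      · rintro ⟨h1, h2⟩
        refine ⟨Or.inr h1, ?_⟩
        rintro (h3 | h3)
        · exact hp (h3 ▸ h1)
        · exact h2 h3
    rw [prod_insert hpB, e]
    ring
  · refine sum_congr rfl fun B hB => ?_
    rw [mem_powerset] at hB
    have hpB : p ∉ B := fun h => hp (hB h)
    have e : insert p Q \ B = insert p (Q \ B) := by
      rw [insert_sdiff_of_notMem _ hpB]
    rw [e, prod_insert (fun h => hp (mem_sdiff.1 h).1)]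
    ring

theorem ex_eq {Q : Finset ℕ} (hQ : ∀ q ∈ Q, q.Prime) {p : ℕ} (hp : p.Prime) (hpQ : p ∉ Q) {n : ℕ}
    (hn : n ≠ 0) : ex (insert p Q) n =
      if n.factorization p = 1 then insert p (ex Q (n / p ^ n.factorization p))
      else ex Q (n / p ^ n.factorization p) := by
  classical
  set m := n / p ^ n.factorization p with hm
  have hnm : p ^ n.factorization p * m = n := Nat.ordProj_mul_ordCompl_eq_self n p
  have hmp : ¬ p ∣ m := Nat.not_dvd_ordCompl hp hn
  have h1 : ex Q n = ex Q m := by
    unfold ex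
    refine filter_congr fun q hq => ?_
    have hqp : q ≠ p := fun h => hpQ (h ▸ hq)
    have hc : ∀ i j, (q ^ i).Coprime (p ^ j) := fun i j =>
      Nat.Coprime.pow i j ((Nat.coprime_primes (hQ q hq) hp).2 hqp)
    have e0 : ∀ i, q ^ i ∣ n ↔ q ^ i ∣ m := fun i => by
      constructor
      · intro h3
        rw [← hnm] at h3
        exact (hc i (n.factorization p)).dvd_of_dvd_mul_left h3
      · intro h3
        rw [← hnm]
        exact h3.mul_left _
    have e1 : q ∣ n ↔ q ∣ m := by
      have := e0 1
      rwa [pow_one] at this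
    have e2 : q ^ 2 ∣ n ↔ q ^ 2 ∣ m := e0 2
    rw [e1, e2]
  have h2 : (p ∣ n ∧ ¬ p ^ 2 ∣ n) ↔ n.factorization p = 1 := by
    rw [← pow_one p, hp.pow_dvd_iff_le_factorization hn, ← pow_mul, one_mul,
      hp.pow_dvd_iff_le_factorization hn, pow_one]
    omega
  split_ifs with h
  · rw [ex, filter_insert, if_pos (h2.2 h)]
    congr 1
  · rw [ex, filter_insert, if_neg (fun h3 => h (h2.1 h3))]
    exact h1

end LAW_

open LAW_ in
theorem p_LAW (hONE : T_ONE) : T_LAW := by
  classical
  suffices H : ∀ Q : Finset ℕ, (∀ p ∈ Q, p.Prime) → ∀ w : ℕ → ℝ, WF w → ∀ F : Finset ℕ → ℝ,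
      ∑' n : ℕ, w n * F (ex Q n) = (∑' n : ℕ, w n) * EB (pr w) Q F from
    fun w hw Q hQ F => H Q hQ w hw F
  intro Q
  induction Q using Finset.induction_on with
  | empty =>
    intro _ w _ F
    have h1 : ∀ n, ex ∅ n = ∅ := fun n => by simp [ex]
    simp only [h1]
    rw [tsum_mul_right]
    simp [EB]
  | insert p Q hpQ ih =>
    intro hQ w hw F
    have hp : p.Prime := hQ p (mem_insert_self p Q)
    have hQ' : ∀ q ∈ Q, q.Prime := fun q hq => hQ q (mem_insert_of_mem hq)
    have hw' := wf_wp hw hp
    have hpr : ∀ q ∈ Q, pr (wp w p) q = pr w q := fun q hq =>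
      pr_wp hp (hQ' q hq) (fun h => hpQ (h ▸ hq))
    set A := EB (pr w) Q (fun B => F (insert p B)) with hA
    set B := EB (pr w) Q F with hB
    set W' := ∑' m : ℕ, wp w p m with hW'
    set E := ∑' j : ℕ, w (p ^ j) with hE
    have hinj : Function.Injective (fun j : ℕ => p ^ j) := Nat.pow_right_injective hp.two_le
    have hsE : Summable (fun j : ℕ => w (p ^ j)) := hw.sm.comp_injective hinj
    have hE1 : 1 ≤ E := by
      have h1 := hsE.le_tsum 0 (fun j _ => hw.nn _)
      rwa [pow_zero, hw.one] at h1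
    -- the sum over all `n`
    have h1 : ∑' n : ℕ, w n * F (ex (insert p Q) n) =
        ∑' j : ℕ, w (p ^ j) * ∑' m : ℕ, (if p ∣ m then 0 else w m) *
          F (if j = 1 then insert p (ex Q m) else ex Q m) := by
      rw [← hONE w hw p hp (fun j m => F (if j = 1 then insert p (ex Q m) else ex Q m)) ?_]
      · refine tsum_congr fun n => ?_
        by_cases hn : n = 0
        · rw [hn, hw.zero, zero_mul, zero_mul]
        · rw [ex_eq hQ' hp hpQ hn]
      · refine ⟨∑ S ∈ (insert p Q).powerset, |F S|, fun j m => ?_⟩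
        apply single_le_sum (f := fun S => |F S|) (fun S _ => abs_nonneg _)
        rw [mem_powerset]
        have h2 : ex Q m ⊆ insert p Q := (filter_subset _ _).trans (subset_insert p Q)
        split_ifs
        · exact insert_subset (mem_insert_self p Q) h2
        · exact h2
    have h2 : ∀ j : ℕ, ∑' m : ℕ, (if p ∣ m then 0 else w m) *
        F (if j = 1 then insert p (ex Q m) else ex Q m) = if j = 1 then W' * A else W' * B := by
      intro j
      have h3 : ∀ m, (if p ∣ m then 0 else w m) = wp w p m := fun m => rfl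
      split_ifs
      · have h4 := ih hQ' (wp w p) hw' (fun B => F (insert p B))
        rw [EB_congr _ hpr] at h4
        exact h4
      · have h4 := ih hQ' (wp w p) hw' F
        rw [EB_congr _ hpr] at h4
        exact h4
    have h3 : ∑' j : ℕ, w (p ^ j) * (if j = 1 then W' * A else W' * B) =
        W' * (w p * A + (E - w p) * B) := by
      have e1 : ∀ j : ℕ, w (p ^ j) * (if j = 1 then W' * A else W' * B) =
          w (p ^ j) * (W' * B) + (if j = 1 then w p * (W' * A - W' * B) else 0) := by
        intro j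
        split_ifs with h
        · rw [h, pow_one]
          ring
        · ring
      rw [tsum_congr e1, Summable.tsum_add (hsE.mul_right _) ?_, tsum_mul_right, tsum_ite_eq,
        ← hE]
      · ring
      · exact summable_of_ne_finset_zero (s := {1}) (fun j hj => by
          rw [mem_singleton] at hj
          rw [if_neg hj])
    have h4 : ∑' n : ℕ, w n = E * W' := by
      have h5 := hONE w hw p hp (fun _ _ => 1) ⟨1, fun _ _ => by norm_num⟩
      simp only [mul_one] at h5
      rw [h5, tsum_mul_right]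
      rfl
    rw [h1, tsum_congr (fun j => by rw [h2 j]), h3, h4, EB_insert _ hpQ, ← hA, ← hB]
    have h5 : pr w p = w p / E := rfl
    have hE0 : E ≠ 0 := by linarith
    rw [h5]
    field_simp

end Pool.Agent.SelQ
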