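import Pool.Agent.SelQ.TargetsC
import Pool.Agent.SelDeg2.MOM1

set_option autoImplicit false

open Finset

namespace Pool.Agent.SelQ

open Complex
open Pool.Agent.SelDeg2 (wt)
open Pool.Agent.SelDeg2.MOM1_ (wt_nonneg summable_wt tsum_wt_le)

noncomputable section

namespace LBC_

theorem triv (k : ℕ) {t : ℝ} (ht : 0 < t) :
    ‖LSeries (fun n => (1 : DirichletCharacter ℂ k) (n : ZMod k)) (1 + (t : ℂ))‖ ≤
      1 + 1 / t := by
  have hs : Summable (fun n : ℕ => wt t n) := summable_wt ht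
  have hb : ∀ n, ‖LSeries.term (fun n => (1 : DirichletCharacter ℂ k) (n : ZMod k))
      (1 + (t : ℂ)) n‖ ≤ wt t n := by
    intro n
    rcases Nat.eq_zero_or_pos n with rfl | hn
    · rw [LSeries.term_zero, norm_zero]; exact wt_nonneg t 0
    · rw [LSeries.norm_term_eq, if_neg hn.ne']
      have h1 : ‖(1 : DirichletCharacter ℂ k) (n : ZMod k)‖ ≤ 1 :=
        DirichletCharacter.norm_le_one _ _
      have hn0 : (0 : ℝ) < n := by exact_mod_cast hn
      have h2 : (1 + (t : ℂ)).re = 1 + t := by simp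
      rw [h2]
      unfold wt
      rw [show (-1 - t : ℝ) = -(1 + t) by ring, Real.rpow_neg hn0.le, ← one_div]
      gcongr
  have hs2 : Summable (fun n => ‖LSeries.term
      (fun n => (1 : DirichletCharacter ℂ k) (n : ZMod k)) (1 + (t : ℂ)) n‖) :=
    Summable.of_nonneg_of_le (fun n => norm_nonneg _) hb hs
  unfold LSeries
  exact (norm_tsum_le_tsum_norm hs2).trans ((hs2.tsum_le_tsum hb hs).trans (tsum_wt_le ht))

end LBC_

theorem p_LBC (hLIP : T_LIP) : T_LBC := by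
  intro k _ ψ hψ t ht ht1
  have hk : (0 : ℝ) < k := by exact_mod_cast Nat.pos_of_ne_zero (NeZero.ne k)
  have h1 := DirichletCharacter.norm_LSeries_product_ge_one ψ ht 0
  simp only [ofReal_zero, mul_zero, add_zero] at h1
  have h2 := LBC_.triv k ht
  have h3 := (hLIP k (ψ ^ 2) hψ t t ht ht).1
  rw [norm_mul, norm_mul, norm_pow, norm_pow] at h1
  have h4 : 1 + 1 / t ≤ 2 / t := by
    have h5 : 1 ≤ 1 / t := by rw [le_div_iff₀ ht]; linarith
    have h6 : 2 / t = 1 / t + 1 / t := by ring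
    linarith
  set x := ‖LSeries (fun n => ψ (n : ZMod k)) (1 + (t : ℂ))‖ with hx
  set u := ‖LSeries (fun n => (1 : DirichletCharacter ℂ k) (n : ZMod k)) (1 + (t : ℂ))‖ with hu
  set v := ‖LSeries (fun n => (ψ ^ 2) (n : ZMod k)) (1 + (t : ℂ))‖ with hv
  have hu0 : 0 ≤ u := norm_nonneg _
  have hx0 : 0 ≤ x := norm_nonneg _
  have hv0 : 0 ≤ v := norm_nonneg _
  have h7 : u ^ 3 ≤ (2 / t) ^ 3 := pow_le_pow_left₀ hu0 (h2.trans h4) 3
  have h8 : 1 ≤ (2 / t) ^ 3 * x ^ 4 * k := by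
    refine (ge_iff_le.mp h1).trans ?_
    gcongr
  rw [div_le_iff₀ (by positivity)]
  have h9 : (2 / t) ^ 3 * x ^ 4 * k = (8 * k * x ^ 4) / t ^ 3 := by
    field_simp
    ring
  rw [h9, le_div_iff₀ (by positivity)] at h8
  linarith

end

end Pool.Agent.SelQ
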