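import Pool.Agent.SelQ.TargetsD

/-!
# SelQ: lower bound for the total mass (D18 LBD)
-/

set_option autoImplicit false

open Finset

namespace Pool.Agent.SelQ

namespace LBD_

lemma cop {p : ℕ} {S : Finset ℕ} (hp : p.Prime) (hS : ∀ q ∈ S, q.Prime) (hpS : p ∉ S) :
    Nat.Coprime p (∏ q ∈ S, q) := by
  apply Nat.Coprime.prod_right
  intro q hq
  rw [Nat.coprime_primes hp (hS q hq)]
  rintro rfl
  exact hpS hq

lemma w_prod {w : ℕ → ℝ} (hw : WF w) (S : Finset ℕ) (hS : ∀ q ∈ S, q.Prime) :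
    w (∏ q ∈ S, q) = ∏ q ∈ S, w q := by
  induction S using Finset.induction_on with
  | empty => simpa using hw.one
  | insert p S hp ih =>
    rw [prod_insert hp, prod_insert hp,
      hw.mul _ _ (cop (hS p (mem_insert_self p S)) (fun q hq => hS q (mem_insert_of_mem hq)) hp),
      ih fun q hq => hS q (mem_insert_of_mem hq)]

lemma inj {Q : Finset ℕ} (hQ : ∀ p ∈ Q, p.Prime) :
    Set.InjOn (fun S : Finset ℕ => ∏ q ∈ S, q) (Q.powerset : Set (Finset ℕ)) := by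
  intro S hS T hT h
  have hS' : S ⊆ Q := mem_powerset.1 hS
  have hT' : T ⊆ Q := mem_powerset.1 hT
  have key : ∀ U : Finset ℕ, U ⊆ Q → (∏ q ∈ U, q).primeFactors = U := by
    intro U hU
    exact Nat.primeFactors_prod fun p hp => hQ p (hU hp)
  have h1 := key S hS'
  have h2 := key T hT'
  simp only at h
  rw [h, h2] at h1
  exact h1.symm

lemma exp_half {x : ℝ} (h0 : 0 ≤ x) (h1 : x ≤ 1) : Real.exp (x / 2) ≤ 1 + x := by
  have h2 := Real.add_one_le_exp (-(x / 2))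
  rw [Real.exp_neg] at h2
  have h3 := Real.exp_pos (x / 2)
  have h4 : (-(x / 2) + 1) * Real.exp (x / 2) ≤ 1 := by
    calc (-(x / 2) + 1) * Real.exp (x / 2)
        ≤ (Real.exp (x / 2))⁻¹ * Real.exp (x / 2) := mul_le_mul_of_nonneg_right h2 h3.le
      _ = 1 := inv_mul_cancel₀ h3.ne'
  have h5 : 0 < -(x / 2) + 1 := by linarith
  have h6 : 1 ≤ (-(x / 2) + 1) * (1 + x) := by nlinarith
  nlinarith

end LBD_

open LBD_ in
theorem p_LBD : T_LBD := by
  intro w hw Q hQ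
  have hQp : ∀ p ∈ Q, p.Prime := fun p hp => (hQ p hp).1
  have h1 : ∏ p ∈ Q, (1 + w p) = ∑ S ∈ Q.powerset, w (∏ q ∈ S, q) := by
    rw [prod_one_add]
    refine sum_congr rfl fun S hS => ?_
    rw [w_prod hw S fun q hq => hQp q (mem_powerset.1 hS hq)]
  have h2 : ∑ S ∈ Q.powerset, w (∏ q ∈ S, q) =
      ∑ n ∈ Q.powerset.image (fun S : Finset ℕ => ∏ q ∈ S, q), w n := by
    rw [sum_image (inj hQp)]
  have h3 : ∑ n ∈ Q.powerset.image (fun S : Finset ℕ => ∏ q ∈ S, q), w n ≤ ∑' n : ℕ, w n :=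
    hw.sm.sum_le_tsum _ fun n _ => hw.nn n
  have h4 : Real.exp ((∑ p ∈ Q, w p) / 2) = ∏ p ∈ Q, Real.exp (w p / 2) := by
    rw [sum_div, Real.exp_sum]
  rw [h4]
  refine le_trans ?_ (h1.trans h2 ▸ h3)
  exact prod_le_prod (fun p _ => (Real.exp_pos _).le) fun p hp =>
    exp_half (hw.nn p) (hQ p hp).2

end Pool.Agent.SelQ
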