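import Pool.Agent.SelQ.TargetsC

/-!
# SelQ, target LBR: lower bound for real characters
-/

set_option autoImplicit false

open Finset

namespace Pool.Agent.SelQ

open Complex Filter Topology

noncomputable section

namespace LBR_

/-- Abel summation -/
theorem abel (M : ℕ) (a : ℕ → ℂ) (b : ℕ → ℝ) {A V : ℝ}
    (hA : ∀ m, ‖∑ i ∈ range m, a i‖ ≤ A)
    (hb : |b (M - 1)| + ∑ i ∈ range (M - 1), |b (i + 1) - b i| ≤ V) :
    ‖∑ i ∈ range M, a i * (b i : ℂ)‖ ≤ A * V := by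
  have hA0 : 0 ≤ A := le_trans (norm_nonneg _) (hA 0)
  have h1 := Finset.sum_range_by_parts (fun i => (b i : ℂ)) a M
  simp only [smul_eq_mul] at h1
  have h2 : ∑ i ∈ range M, a i * (b i : ℂ) = ∑ i ∈ range M, (b i : ℂ) * a i :=
    Finset.sum_congr rfl fun i _ => by ring
  rw [h2, h1]
  refine le_trans (norm_sub_le _ _) ?_
  have e1 : ‖(b (M - 1) : ℂ) * ∑ i ∈ range M, a i‖ ≤ A * |b (M - 1)| := by
    rw [norm_mul, Complex.norm_real, Real.norm_eq_abs, mul_comm]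
    exact mul_le_mul_of_nonneg_right (hA M) (abs_nonneg _)
  have e2 : ‖∑ i ∈ range (M - 1), ((b (i + 1) : ℂ) - (b i : ℂ)) *
      ∑ j ∈ range (i + 1), a j‖ ≤ A * ∑ i ∈ range (M - 1), |b (i + 1) - b i| := by
    refine le_trans (norm_sum_le _ _) ?_
    rw [Finset.mul_sum]
    refine Finset.sum_le_sum fun i _ => ?_
    rw [norm_mul, ← Complex.ofReal_sub, Complex.norm_real, Real.norm_eq_abs, mul_comm]
    exact mul_le_mul_of_nonneg_right (hA (i + 1)) (abs_nonneg _)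
  calc _ ≤ A * |b (M - 1)| + A * ∑ i ∈ range (M - 1), |b (i + 1) - b i| := add_le_add e1 e2
    _ = A * (|b (M - 1)| + ∑ i ∈ range (M - 1), |b (i + 1) - b i|) := by ring
    _ ≤ A * V := mul_le_mul_of_nonneg_left hb hA0

/-- sums of a nonprincipal character -/
theorem psum (k : ℕ) [NeZero k] (ψ : DirichletCharacter ℂ k) (hψ : ψ ≠ 1) (m : ℕ) :
    ‖∑ i ∈ range m, ψ ((i + 1 : ℕ) : ZMod k)‖ ≤ k := by
  have hk : 0 < k := Nat.pos_of_ne_zero (NeZero.ne k)
  have h0 : ∀ i ∈ range k, ∀ j ∈ range k, ((i + 1 : ℕ) : ZMod k) = ((j + 1 : ℕ) : ZMod k) →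
      i = j := by
    intro i hi j hj h
    rw [ZMod.natCast_eq_natCast_iff'] at h
    have h1 : (i + 1) ≡ (j + 1) [MOD k] := h
    have h2 : i ≡ j [MOD k] := Nat.ModEq.add_right_cancel' 1 h1
    have h3 : i % k = j % k := h2
    rwa [Nat.mod_eq_of_lt (Finset.mem_range.mp hi), Nat.mod_eq_of_lt (Finset.mem_range.mp hj)]
      at h3
  have hper : ∑ i ∈ range k, ψ ((i + 1 : ℕ) : ZMod k) = 0 := by
    rw [← MulChar.sum_eq_zero_of_ne_one hψ]
    refine Finset.sum_bij (fun i _ => ((i + 1 : ℕ) : ZMod k)) (fun _ _ => Finset.mem_univ _)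
      (fun i hi j hj h => h0 i hi j hj h) ?_ (fun _ _ => rfl)
    intro x _
    have hinj : Function.Injective (fun i : Fin k => ((i.val + 1 : ℕ) : ZMod k)) := by
      intro i j h
      exact Fin.ext (h0 i (Finset.mem_range.mpr i.2) j (Finset.mem_range.mpr j.2) h)
    have hsur : Function.Bijective (fun i : Fin k => ((i.val + 1 : ℕ) : ZMod k)) := by
      rw [Fintype.bijective_iff_injective_and_card]
      exact ⟨hinj, by rw [Fintype.card_fin, ZMod.card]⟩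
    obtain ⟨i, hi⟩ := hsur.2 x
    exact ⟨i.val, Finset.mem_range.mpr i.2, hi⟩
  induction m using Nat.strong_induction_on with
  | _ m ih =>
    rcases lt_or_ge m k with h | h
    · refine le_trans (norm_sum_le _ _) ?_
      refine le_trans (Finset.sum_le_sum (g := fun _ => (1 : ℝ)) fun i _ => ψ.norm_le_one _) ?_
      rw [Finset.sum_const, Finset.card_range, nsmul_eq_mul, mul_one]
      exact_mod_cast h.le
    · obtain ⟨n, rfl⟩ := Nat.exists_eq_add_of_le h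
      rw [Finset.sum_range_add, hper, zero_add]
      have : ∑ x ∈ range n, ψ ((k + x + 1 : ℕ) : ZMod k) =
          ∑ x ∈ range n, ψ ((x + 1 : ℕ) : ZMod k) := by
        refine Finset.sum_congr rfl fun x _ => ?_
        congr 1
        push_cast
        rw [ZMod.natCast_self]
        ring
      rw [this]
      exact ih n (by omega)

/-- `1/(e^x - 1) - 1/x` -/
def hz (x : ℝ) : ℝ := 1 / (Real.exp x - 1) - 1 / x

theorem hz_nonpos {x : ℝ} (hx : 0 < x) : hz x ≤ 0 := by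
  unfold hz
  have h1 : x ≤ Real.exp x - 1 := by linarith [Real.add_one_le_exp x]
  have := one_div_le_one_div_of_le hx h1
  linarith

theorem hz_ge {x : ℝ} (hx : 0 < x) : -1 ≤ hz x := by
  unfold hz
  have h1 : 0 < Real.exp x - 1 := by linarith [Real.add_one_lt_exp hx.ne']
  have h2 : 1 - x ≤ Real.exp (-x) := by linarith [Real.add_one_le_exp (-x)]
  have h3 : Real.exp x * Real.exp (-x) = 1 := by rw [← Real.exp_add, add_neg_cancel, Real.exp_zero]
  have h4 : Real.exp x * (1 - x) ≤ 1 := by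
    calc Real.exp x * (1 - x) ≤ Real.exp x * Real.exp (-x) :=
          mul_le_mul_of_nonneg_left h2 (Real.exp_pos x).le
      _ = 1 := h3
  have h5 : (1 - x) / x ≤ 1 / (Real.exp x - 1) := by
    rw [div_le_div_iff₀ hx h1]
    nlinarith
  have h6 : (1 - x) / x = 1 / x - 1 := by field_simp
  linarith

theorem hz_mono {x y : ℝ} (hx : 0 < x) (hxy : x ≤ y) : hz x ≤ hz y := by
  have hd : ∀ z : ℝ, 0 < z → HasDerivAt hz (-(Real.exp z) / (Real.exp z - 1) ^ 2 -
      (-1 / z ^ 2)) z := by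
    intro z hz0
    have h1 : Real.exp z - 1 ≠ 0 := by
      have := Real.add_one_lt_exp hz0.ne'
      linarith
    have h2 : HasDerivAt (fun w : ℝ => 1 / (Real.exp w - 1)) (-(Real.exp z) /
        (Real.exp z - 1) ^ 2) z := by
      have h3 : HasDerivAt (fun w : ℝ => Real.exp w - 1) (Real.exp z) z :=
        (Real.hasDerivAt_exp z).sub_const 1
      have h4 := h3.inv h1
      simp only [one_div]
      exact h4
    have h5 : HasDerivAt (fun w : ℝ => 1 / w) (-1 / z ^ 2) z := by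
      have h6 := (hasDerivAt_id z).inv hz0.ne'
      simp only [one_div]
      exact h6
    exact h2.sub h5
  have hmon : MonotoneOn hz (Set.Ioi 0) := by
    apply monotoneOn_of_deriv_nonneg (convex_Ioi 0)
    · exact fun z hz0 => (hd z hz0).continuousAt.continuousWithinAt
    · intro z hz0
      rw [interior_Ioi] at hz0
      exact (hd z hz0).differentiableAt.differentiableWithinAt
    · intro z hz0
      rw [interior_Ioi] at hz0
      have hz1 : 0 < z := hz0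
      rw [(hd z hz1).deriv]
      have h1 : 0 < Real.exp z - 1 := by linarith [Real.add_one_lt_exp hz1.ne']
      have h2 : z / 2 ≤ Real.sinh (z / 2) := Real.self_le_sinh_iff.mpr (by linarith)
      have h3 : Real.exp z - 1 = Real.exp (z / 2) * (2 * Real.sinh (z / 2)) := by
        rw [Real.sinh_eq]
        have : Real.exp (z / 2) * (2 * ((Real.exp (z / 2) - Real.exp (-(z / 2))) / 2)) =
          Real.exp (z / 2) * Real.exp (z / 2) - Real.exp (z / 2) * Real.exp (-(z / 2)) := by ring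
        rw [this, ← Real.exp_add, ← Real.exp_add]
        norm_num
      have h4 : z ^ 2 * Real.exp z ≤ (Real.exp z - 1) ^ 2 := by
        have h5 : Real.exp z = Real.exp (z / 2) ^ 2 := by
          rw [← Real.exp_nat_mul]
          congr 1
          push_cast
          ring
        rw [h3, mul_pow, mul_comm, h5]
        refine mul_le_mul_of_nonneg_left ?_ (by positivity)
        exact pow_le_pow_left₀ hz1.le (by linarith) 2
      have h6 : Real.exp z / (Real.exp z - 1) ^ 2 ≤ 1 / z ^ 2 := by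
        rw [div_le_div_iff₀ (by positivity) (by positivity)]
        linarith
      have h7 : -(Real.exp z) / (Real.exp z - 1) ^ 2 - (-1 / z ^ 2) =
        1 / z ^ 2 - Real.exp z / (Real.exp z - 1) ^ 2 := by ring
      rw [h7]
      linarith
  exact hmon hx (lt_of_lt_of_le hx hxy) hxy

theorem var_hz (N : ℝ) (hN : 0 < N) (m : ℕ) : |hz (((m : ℝ) + 1) / N)| +
    ∑ i ∈ range m, |hz ((((i + 1 : ℕ) : ℝ) + 1) / N) - hz (((i : ℝ) + 1) / N)| ≤ 1 := by
  have hp : ∀ i : ℕ, 0 < ((i : ℝ) + 1) / N := fun i => by positivity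
  obtain ⟨g, hg⟩ : ∃ g : ℕ → ℝ, ∀ j : ℕ, g j = hz (((j : ℝ) + 1) / N) := ⟨_, fun _ => rfl⟩
  have h1 : ∀ i ∈ range m, |hz ((((i + 1 : ℕ) : ℝ) + 1) / N) - hz (((i : ℝ) + 1) / N)| =
      g (i + 1) - g i := by
    intro i _
    rw [hg, hg, abs_of_nonneg]
    have h2 : ((i : ℝ) + 1) / N ≤ (((i + 1 : ℕ) : ℝ) + 1) / N := by
      push_cast
      gcongr
      linarith
    linarith [hz_mono (hp i) h2]
  rw [Finset.sum_congr rfl h1, Finset.sum_range_sub, abs_of_nonpos (hz_nonpos (hp m)), hg, hg]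
  have h3 := hz_ge (hp 0)
  simp only [Nat.cast_zero] at h3 ⊢
  linarith

/-- `(1 - x^(-t)) / x` -/
def uu (t x : ℝ) : ℝ := (1 - x ^ (-t)) / x

theorem one_sub_rpow {x t : ℝ} (hx : 1 ≤ x) (ht : 0 ≤ t) :
    0 ≤ 1 - x ^ (-t) ∧ 1 - x ^ (-t) ≤ t * Real.log x := by
  have hx0 : 0 < x := by linarith
  constructor
  · have := Real.rpow_le_one_of_one_le_of_nonpos hx (by linarith : -t ≤ 0)
    linarith
  · rw [Real.rpow_def_of_pos hx0]
    have := Real.add_one_le_exp (Real.log x * -t)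
    linarith

theorem uu_abs {x t : ℝ} (hx : 1 ≤ x) (ht : 0 ≤ t) : |uu t x| ≤ t := by
  have hx0 : 0 < x := by linarith
  obtain ⟨h1, h2⟩ := one_sub_rpow hx ht
  unfold uu
  rw [abs_of_nonneg (by positivity), div_le_iff₀ hx0]
  have h3 : Real.log x ≤ x := by linarith [Real.log_le_sub_one_of_pos hx0]
  nlinarith

theorem uu_diff {x t : ℝ} (hx : 1 ≤ x) (ht : 0 ≤ t) :
    |uu t (x + 1) - uu t x| ≤ t * (3 * x ^ (-(3 / 2) : ℝ)) := by
  have hx0 : 0 < x := by linarith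
  obtain ⟨h1, h2⟩ := one_sub_rpow (show 1 ≤ x + 1 by linarith) ht
  have e1 : uu t (x + 1) - uu t x = -((1 - (x + 1) ^ (-t)) * (1 / (x * (x + 1)))) +
      (x ^ (-t) - (x + 1) ^ (-t)) * (1 / x) := by
    unfold uu
    field_simp
    ring
  have h3 : 0 ≤ x ^ (-t) - (x + 1) ^ (-t) := by
    have := Real.rpow_le_rpow_of_nonpos hx0 (by linarith : x ≤ x + 1) (by linarith : -t ≤ 0)
    linarith
  have h4 : x ^ (-t) - (x + 1) ^ (-t) ≤ t * (1 / x) := by
    have h5 : (x + 1) ^ (-t) = x ^ (-t) * (1 + 1 / x) ^ (-t) := by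
      rw [← Real.mul_rpow hx0.le (by positivity)]
      congr 1
      field_simp
    have h6 : 1 ≤ 1 + 1 / x := by
      have : 0 < 1 / x := by positivity
      linarith
    obtain ⟨h7, h8⟩ := one_sub_rpow h6 ht
    have h9 : Real.log (1 + 1 / x) ≤ 1 / x := by
      have := Real.log_le_sub_one_of_pos (by linarith : 0 < 1 + 1 / x)
      linarith
    have h10 : x ^ (-t) ≤ 1 := Real.rpow_le_one_of_one_le_of_nonpos hx (by linarith)
    have h11 : 0 ≤ x ^ (-t) := by positivity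
    rw [h5]
    calc x ^ (-t) - x ^ (-t) * (1 + 1 / x) ^ (-t) = x ^ (-t) * (1 - (1 + 1 / x) ^ (-t)) := by ring
      _ ≤ 1 * (1 - (1 + 1 / x) ^ (-t)) := mul_le_mul_of_nonneg_right h10 h7
      _ ≤ t * Real.log (1 + 1 / x) := by linarith
      _ ≤ t * (1 / x) := mul_le_mul_of_nonneg_left h9 ht
  have h12 : Real.log (x + 1) ≤ (x + 1) ^ (1 / 2 : ℝ) / (1 / 2) :=
    Real.log_le_rpow_div (by linarith) (by norm_num)
  have h13 : (x + 1) ^ (1 / 2 : ℝ) * (1 / (x * (x + 1))) ≤ x ^ (-(3 / 2) : ℝ) := by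
    have e2 : (x + 1) ^ (1 / 2 : ℝ) * (1 / (x * (x + 1))) =
        (x + 1) ^ (-(1 / 2) : ℝ) * (1 / x) := by
      have : (x + 1) ^ (1 / 2 : ℝ) = (x + 1) ^ (-(1 / 2) : ℝ) * (x + 1) := by
        rw [← Real.rpow_add_one (by positivity)]
        norm_num
      rw [this]
      field_simp
    have e3 : x ^ (-(3 / 2) : ℝ) = x ^ (-(1 / 2) : ℝ) * (1 / x) := by
      rw [mul_one_div, ← Real.rpow_sub_one hx0.ne']
      norm_num
    rw [e2, e3]
    exact mul_le_mul_of_nonneg_right (Real.rpow_le_rpow_of_nonpos hx0 (by linarith) (by norm_num))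
      (by positivity)
  have h14 : (1 / x) * (1 / x) ≤ x ^ (-(3 / 2) : ℝ) := by
    have e3 : x ^ (-(3 / 2) : ℝ) = x ^ (-(1 / 2) : ℝ) * (1 / x) := by
      rw [mul_one_div, ← Real.rpow_sub_one hx0.ne']
      norm_num
    rw [e3]
    refine mul_le_mul_of_nonneg_right ?_ (by positivity)
    rw [one_div, ← Real.rpow_neg_one]
    exact Real.rpow_le_rpow_of_exponent_le hx (by norm_num)
  have h15 : 0 ≤ (1 / (x * (x + 1))) := by positivity
  rw [e1]
  refine le_trans (abs_add_le _ _) ?_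
  rw [abs_neg, abs_of_nonneg (mul_nonneg h1 h15), abs_of_nonneg (mul_nonneg h3 (by positivity))]
  have h16 : (1 - (x + 1) ^ (-t)) * (1 / (x * (x + 1))) ≤ t * (2 * x ^ (-(3 / 2) : ℝ)) := by
    calc (1 - (x + 1) ^ (-t)) * (1 / (x * (x + 1)))
        ≤ (t * ((x + 1) ^ (1 / 2 : ℝ) / (1 / 2))) * (1 / (x * (x + 1))) := by
          refine mul_le_mul_of_nonneg_right (le_trans h2 ?_) h15
          exact mul_le_mul_of_nonneg_left h12 ht
      _ = t * (2 * ((x + 1) ^ (1 / 2 : ℝ) * (1 / (x * (x + 1))))) := by ring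
      _ ≤ t * (2 * x ^ (-(3 / 2) : ℝ)) := by gcongr
  have h17 : (x ^ (-t) - (x + 1) ^ (-t)) * (1 / x) ≤ t * x ^ (-(3 / 2) : ℝ) := by
    calc (x ^ (-t) - (x + 1) ^ (-t)) * (1 / x) ≤ (t * (1 / x)) * (1 / x) :=
          mul_le_mul_of_nonneg_right h4 (by positivity)
      _ = t * ((1 / x) * (1 / x)) := by ring
      _ ≤ t * x ^ (-(3 / 2) : ℝ) := by gcongr
  linarith

/-- the constant -/
def CC : ℝ := 1 + ∑' i : ℕ, 3 * ((i : ℝ) + 1) ^ (-(3 / 2) : ℝ)

theorem summ_CC : Summable (fun i : ℕ => 3 * ((i : ℝ) + 1) ^ (-(3 / 2) : ℝ)) := by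
  have h1 : Summable (fun n : ℕ => (n : ℝ) ^ (-(3 / 2) : ℝ)) :=
    Real.summable_nat_rpow.mpr (by norm_num)
  have h2 := (summable_nat_add_iff 1).mpr h1
  simp only [Nat.cast_add, Nat.cast_one] at h2
  exact h2.mul_left 3

theorem CC_ge : 1 ≤ CC := by
  unfold CC
  have : 0 ≤ ∑' i : ℕ, 3 * ((i : ℝ) + 1) ^ (-(3 / 2) : ℝ) := tsum_nonneg fun i => by positivity
  linarith

theorem var_uu {t : ℝ} (ht : 0 ≤ t) (m : ℕ) : |uu t ((m : ℝ) + 1)| +
    ∑ i ∈ range m, |uu t (((i + 1 : ℕ) : ℝ) + 1) - uu t ((i : ℝ) + 1)| ≤ t * CC := by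
  have h1 : |uu t ((m : ℝ) + 1)| ≤ t := uu_abs (by linarith [Nat.cast_nonneg (α := ℝ) m]) ht
  have h2 : ∑ i ∈ range m, |uu t (((i + 1 : ℕ) : ℝ) + 1) - uu t ((i : ℝ) + 1)| ≤
      ∑ i ∈ range m, t * (3 * ((i : ℝ) + 1) ^ (-(3 / 2) : ℝ)) := by
    refine Finset.sum_le_sum fun i _ => ?_
    have := uu_diff (x := (i : ℝ) + 1) (t := t) (by linarith [Nat.cast_nonneg (α := ℝ) i]) ht
    push_cast
    exact this
  rw [← Finset.mul_sum] at h2
  have h3 : ∑ i ∈ range m, (3 * ((i : ℝ) + 1) ^ (-(3 / 2) : ℝ)) ≤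
      ∑' i : ℕ, 3 * ((i : ℝ) + 1) ^ (-(3 / 2) : ℝ) :=
    summ_CC.sum_le_tsum _ (fun i _ => by positivity)
  have h4 := mul_le_mul_of_nonneg_left h3 ht
  unfold CC
  linarith

/-- the comparison function -/
def bb (N t : ℝ) (i : ℕ) : ℝ := hz (((i : ℝ) + 1) / N) + N * uu t ((i : ℝ) + 1)

theorem bb_eq {N t : ℝ} (i : ℕ) : bb N t i =
    1 / (Real.exp (((i : ℝ) + 1) / N) - 1) - N * ((i : ℝ) + 1) ^ (-1 - t) := by
  unfold bb hz uu
  have hi : (0 : ℝ) < (i : ℝ) + 1 := by positivity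
  have : ((i : ℝ) + 1) ^ (-1 - t) = ((i : ℝ) + 1) ^ (-t) / ((i : ℝ) + 1) := by
    rw [← Real.rpow_sub_one hi.ne']
    congr 1
    ring
  rw [this]
  field_simp
  ring

theorem var_bb {N t : ℝ} (hN : 0 < N) (ht : 0 ≤ t) (m : ℕ) : |bb N t m| +
    ∑ i ∈ range m, |bb N t (i + 1) - bb N t i| ≤ 1 + N * (t * CC) := by
  have h1 := var_hz N hN m
  have h2 := mul_le_mul_of_nonneg_left (var_uu ht m) hN.le
  have h3 : |bb N t m| ≤ |hz (((m : ℝ) + 1) / N)| + N * |uu t ((m : ℝ) + 1)| := by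
    unfold bb
    refine le_trans (abs_add_le _ _) ?_
    rw [abs_mul, abs_of_pos hN]
  have h4 : ∑ i ∈ range m, |bb N t (i + 1) - bb N t i| ≤
      ∑ i ∈ range m, |hz ((((i + 1 : ℕ) : ℝ) + 1) / N) - hz (((i : ℝ) + 1) / N)| +
      N * ∑ i ∈ range m, |uu t (((i + 1 : ℕ) : ℝ) + 1) - uu t ((i : ℝ) + 1)| := by
    rw [Finset.mul_sum, ← Finset.sum_add_distrib]
    refine Finset.sum_le_sum fun i _ => ?_
    have e : bb N t (i + 1) - bb N t i =
        (hz ((((i + 1 : ℕ) : ℝ) + 1) / N) - hz (((i : ℝ) + 1) / N)) +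
        N * (uu t (((i + 1 : ℕ) : ℝ) + 1) - uu t ((i : ℝ) + 1)) := by
      unfold bb
      ring
    rw [e]
    refine le_trans (abs_add_le _ _) ?_
    rw [abs_mul, abs_of_pos hN]
  rw [mul_add] at h2
  linarith

/-- comparison -/
theorem compare (k : ℕ) [NeZero k] (ψ : DirichletCharacter ℂ k) (hψ : ψ ≠ 1) {N t : ℝ}
    (hN : 0 < N) (ht : 0 < t) {Lam L : ℂ}
    (h1 : HasSum (fun i : ℕ => ψ ((i + 1 : ℕ) : ZMod k) *
      ((1 / (Real.exp (((i : ℝ) + 1) / N) - 1) : ℝ) : ℂ)) Lam)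
    (h2 : HasSum (fun i : ℕ => ψ ((i + 1 : ℕ) : ZMod k) *
      ((((i : ℝ) + 1) ^ (-1 - t) : ℝ) : ℂ)) L) :
    ‖Lam - N * L‖ ≤ k * (1 + N * (t * CC)) := by
  have h3 := h1.sub (h2.mul_left (N : ℂ))
  have h4 : HasSum (fun i : ℕ => ψ ((i + 1 : ℕ) : ZMod k) * (bb N t i : ℂ)) (Lam - N * L) := by
    have e : (fun i : ℕ => ψ ((i + 1 : ℕ) : ZMod k) * (bb N t i : ℂ)) = fun i : ℕ =>
        ψ ((i + 1 : ℕ) : ZMod k) * ((1 / (Real.exp (((i : ℝ) + 1) / N) - 1) : ℝ) : ℂ) -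
        (N : ℂ) * (ψ ((i + 1 : ℕ) : ZMod k) * ((((i : ℝ) + 1) ^ (-1 - t) : ℝ) : ℂ)) := by
      funext i
      rw [bb_eq]
      push_cast
      ring
    rw [e]
    exact h3
  refine le_of_tendsto h4.tendsto_sum_nat.norm (Filter.Eventually.of_forall fun M => ?_)
  exact abel M _ _ (psum k ψ hψ) (var_bb hN ht.le (M - 1))

section zm

open scoped ComplexOrder

theorem zm_eq {k : ℕ} (ψ : DirichletCharacter ℂ k) (n : ℕ) :
    ψ.zetaMul n = ∑ d ∈ n.divisors, ψ (d : ZMod k) := by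
  unfold DirichletCharacter.zetaMul
  rw [ArithmeticFunction.coe_zeta_mul_apply]
  refine Finset.sum_congr rfl fun d hd => ?_
  exact (ψ.apply_eq_toArithmeticFunction_apply (Nat.pos_of_mem_divisors hd).ne').symm

theorem zm_pow {k : ℕ} {ψ : DirichletCharacter ℂ k} (h2 : ψ ^ 2 = 1) {p : ℕ} (hp : p.Prime)
    (j : ℕ) : 1 ≤ ψ.zetaMul (p ^ (2 * j)) := by
  rw [zm_eq, Nat.sum_divisors_prime_pow hp]
  simp only [Nat.cast_pow, map_pow]
  rcases MulChar.isQuadratic_iff_sq_eq_one.mpr h2 (p : ZMod k) with h | h | h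
  · rw [h, Finset.sum_range_succ', pow_zero]
    simp
  · rw [h]
    simp only [one_pow, Finset.sum_const, Finset.card_range, nsmul_eq_mul, mul_one]
    push_cast
    have : (0 : ℂ) ≤ 2 * (j : ℂ) := by
      have h3 : ((2 * (j : ℝ) : ℝ) : ℂ) = 2 * (j : ℂ) := by push_cast; rfl
      rw [← h3]
      exact_mod_cast (by positivity : (0 : ℝ) ≤ 2 * (j : ℝ))
    simpa using this
  · rw [h, neg_one_geom_sum, if_neg]
    rw [Nat.not_even_iff_odd]
    exact ⟨j, rfl⟩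

theorem zm_sq {k : ℕ} {ψ : DirichletCharacter ℂ k} (h2 : ψ ^ 2 = 1) {m : ℕ} (hm : m ≠ 0) :
    1 ≤ ψ.zetaMul (m ^ 2) := by
  rw [ψ.isMultiplicative_zetaMul.multiplicative_factorization _ (pow_ne_zero 2 hm)]
  unfold Finsupp.prod
  have h3 : ∀ p ∈ (m ^ 2).factorization.support,
      1 ≤ ψ.zetaMul (p ^ (m ^ 2).factorization p) := by
    intro p hp
    have hpp : p.Prime := by
      rw [Nat.support_factorization] at hp
      exact Nat.prime_of_mem_primeFactors hp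
    rw [Nat.factorization_pow, Finsupp.smul_apply, smul_eq_mul]
    exact zm_pow h2 hpp _
  have h4 := Finset.prod_le_prod (s := (m ^ 2).factorization.support) (f := fun _ => (1 : ℂ))
    (fun _ _ => zero_le_one) h3
  simpa using h4

theorem zm_re_nonneg {k : ℕ} {ψ : DirichletCharacter ℂ k} (h2 : ψ ^ 2 = 1) (n : ℕ) :
    0 ≤ (ψ.zetaMul n).re := (Complex.le_def.mp (DirichletCharacter.zetaMul_nonneg h2 n)).1

theorem zm_re_sq {k : ℕ} {ψ : DirichletCharacter ℂ k} (h2 : ψ ^ 2 = 1) {m : ℕ} (hm : m ≠ 0) :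
    1 ≤ (ψ.zetaMul (m ^ 2)).re := (Complex.le_def.mp (zm_sq h2 hm)).1

end zm

/-- the double series -/
theorem dbl_summable {k : ℕ} (ψ : DirichletCharacter ℂ k) {r : ℝ} (h0 : 0 < r) (h1 : r < 1) :
    Summable (fun c : ℕ+ × ℕ+ => ψ ((c.1 : ℕ) : ZMod k) * ((r : ℂ)) ^ (c.1 * c.2 : ℕ)) := by
  have hr : ‖r‖ < 1 := by
    rw [Real.norm_eq_abs, abs_of_pos h0]
    exact h1
  have h2 := summable_prod_mul_pow 0 hr
  refine Summable.of_norm_bounded h2 fun c => ?_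
  rw [norm_mul, norm_pow, Complex.norm_real, Real.norm_eq_abs, abs_of_pos h0, pow_zero, one_mul]
  calc ‖ψ ((c.1 : ℕ) : ZMod k)‖ * r ^ (c.1 * c.2 : ℕ) ≤ 1 * r ^ (c.1 * c.2 : ℕ) :=
        mul_le_mul_of_nonneg_right (ψ.norm_le_one _) (by positivity)
    _ = r ^ (c.1 * c.2 : ℕ) := one_mul _

/-- the inner geometric series -/
theorem inner {N : ℝ} (hN : 0 < N) (d : ℕ+) :
    HasSum (fun m : ℕ+ => ((Real.exp (-1 / N) : ℝ) : ℂ) ^ (d * m : ℕ))
      ((1 / (Real.exp ((d : ℝ) / N) - 1) : ℝ) : ℂ) := by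
  have hd : (0 : ℝ) < (d : ℝ) := by exact_mod_cast d.pos
  set x : ℝ := (d : ℝ) / N with hx
  have hx0 : 0 < x := by positivity
  have e1 : ∀ m : ℕ, Real.exp (-1 / N) ^ ((d : ℕ) * m) = Real.exp (-x) ^ m := by
    intro m
    rw [pow_mul, ← Real.exp_nat_mul]
    congr 2
    rw [hx]
    ring
  have h1 : HasSum (fun m : ℕ => Real.exp (-x) * Real.exp (-x) ^ m)
      (Real.exp (-x) * (1 - Real.exp (-x))⁻¹) :=
    (hasSum_geometric_of_lt_one (Real.exp_pos _).le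
      (Real.exp_lt_one_iff.mpr (by linarith))).mul_left _
  have h2 : Real.exp (-x) * (1 - Real.exp (-x))⁻¹ = 1 / (Real.exp x - 1) := by
    have h3 : 0 < Real.exp x - 1 := by linarith [Real.add_one_lt_exp hx0.ne']
    rw [Real.exp_neg]
    have h4 : Real.exp x ≠ 0 := (Real.exp_pos x).ne'
    have h5 : 1 - (Real.exp x)⁻¹ ≠ 0 := by
      have : 1 - (Real.exp x)⁻¹ = (Real.exp x - 1) / Real.exp x := by field_simp
      rw [this]
      positivity
    field_simp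
  rw [h2] at h1
  have h3 := Complex.hasSum_ofReal.mpr h1
  rw [← Equiv.pnatEquivNat.symm.hasSum_iff]
  refine h3.congr_fun fun i => ?_
  simp only [Function.comp_apply, Equiv.pnatEquivNat_symm_apply, Nat.succPNat_coe]
  rw [← Complex.ofReal_pow, e1, pow_succ']

/-- the value of the double series -/
theorem dbl {k : ℕ} (ψ : DirichletCharacter ℂ k) {N : ℝ} (hN : 0 < N) :
    ∃ Lam : ℂ, HasSum (fun i : ℕ => ψ ((i + 1 : ℕ) : ZMod k) *
        ((1 / (Real.exp (((i : ℝ) + 1) / N) - 1) : ℝ) : ℂ)) Lam ∧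
      HasSum (fun n : ℕ+ => ψ.zetaMul n * ((Real.exp (-1 / N) : ℝ) : ℂ) ^ (n : ℕ)) Lam := by
  have hr1 : Real.exp (-1 / N) < 1 :=
    Real.exp_lt_one_iff.mpr (by
      have : 0 < 1 / N := by positivity
      rw [neg_div]
      linarith)
  obtain ⟨Lam, hs⟩ := dbl_summable ψ (Real.exp_pos (-1 / N)) hr1
  refine ⟨Lam, ?_, ?_⟩
  · have h1 := hs.prod_fiberwise (g := fun d : ℕ+ => ψ ((d : ℕ) : ZMod k) *
      ((1 / (Real.exp ((d : ℝ) / N) - 1) : ℝ) : ℂ)) (fun d => (inner hN d).mul_left _)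
    rw [← Equiv.pnatEquivNat.symm.hasSum_iff] at h1
    refine h1.congr_fun fun i => ?_
    simp only [Function.comp_apply, Equiv.pnatEquivNat_symm_apply, Nat.succPNat_coe]
    push_cast
    rfl
  · rw [← sigmaAntidiagonalEquivProd.hasSum_iff] at hs
    refine hs.sigma fun n => ?_
    have h1 := hasSum_fintype (fun c : Nat.divisorsAntidiagonal n =>
      ((fun c : ℕ+ × ℕ+ => ψ ((c.1 : ℕ) : ZMod k) *
        ((Real.exp (-1 / N) : ℝ) : ℂ) ^ (c.1 * c.2 : ℕ)) ∘ sigmaAntidiagonalEquivProd) ⟨n, c⟩)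
    convert h1 using 1
    have e2 : ∑ x ∈ Nat.divisorsAntidiagonal n,
        ψ (x.1 : ZMod k) * ((Real.exp (-1 / N) : ℝ) : ℂ) ^ (n : ℕ) =
        ∑ d ∈ Nat.divisors n, ψ (d : ZMod k) * ((Real.exp (-1 / N) : ℝ) : ℂ) ^ (n : ℕ) :=
      Nat.sum_divisorsAntidiagonal
        (fun d _ => ψ (d : ZMod k) * ((Real.exp (-1 / N) : ℝ) : ℂ) ^ (n : ℕ))
    rw [zm_eq, Finset.sum_mul, ← e2, ← Finset.sum_coe_sort]
    refine Finset.sum_congr rfl fun c _ => ?_
    simp only [Function.comp_apply, sigmaAntidiagonalEquivProd, Equiv.coe_fn_mk]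
    have e3 : ((divisorsAntidiagonalFactors n c).1 * (divisorsAntidiagonalFactors n c).2 : ℕ) =
        (n : ℕ) := divisorsAntidiagonalFactors_eq c
    rw [e3]
    rfl

/-- lower bound for the double series -/
theorem Lam_ge {k : ℕ} {ψ : DirichletCharacter ℂ k} (h2 : ψ ^ 2 = 1) {K : ℕ} (hK : 0 < K)
    {Lam : ℂ} (h : HasSum (fun n : ℕ+ => ψ.zetaMul n *
      ((Real.exp (-1 / (K : ℝ) ^ 2) : ℝ) : ℂ) ^ (n : ℕ)) Lam) :
    (K : ℝ) * Real.exp (-1) ≤ Lam.re := by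
  have h1 := Complex.hasSum_re h
  have e1 : ∀ n : ℕ+, (ψ.zetaMul n * ((Real.exp (-1 / (K : ℝ) ^ 2) : ℝ) : ℂ) ^ (n : ℕ)).re =
      (ψ.zetaMul n).re * Real.exp (-1 / (K : ℝ) ^ 2) ^ (n : ℕ) := by
    intro n
    rw [← Complex.ofReal_pow, Complex.re_mul_ofReal]
  simp only [e1] at h1
  obtain ⟨sq, hsq⟩ : ∃ sq : ℕ → ℕ+, ∀ m, ((sq m : ℕ+) : ℕ) = (m + 1) ^ 2 :=
    ⟨fun m => ⟨(m + 1) ^ 2, by positivity⟩, fun _ => rfl⟩
  have hinj : Set.InjOn sq (Finset.range K : Set ℕ) := by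
    intro a _ b _ hab
    have h3 : ((sq a : ℕ+) : ℕ) = ((sq b : ℕ+) : ℕ) := by rw [hab]
    rw [hsq, hsq] at h3
    have h4 := Nat.pow_left_injective (n := 2) (by norm_num) h3
    omega
  have h3 := sum_le_hasSum ((Finset.range K).image sq)
    (fun n _ => mul_nonneg (zm_re_nonneg h2 n) (by positivity)) h1
  rw [Finset.sum_image hinj] at h3
  refine le_trans ?_ h3
  have h4 : ∑ _i ∈ Finset.range K, Real.exp (-1) = (K : ℝ) * Real.exp (-1) := by
    rw [Finset.sum_const, Finset.card_range, nsmul_eq_mul]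
  rw [← h4]
  refine Finset.sum_le_sum fun m hm => ?_
  have hm' : m + 1 ≤ K := Finset.mem_range.mp hm
  have hKr : (0 : ℝ) < K := by exact_mod_cast hK
  have h5 : 1 ≤ (ψ.zetaMul ((sq m : ℕ+) : ℕ)).re := by
    rw [hsq]
    exact zm_re_sq h2 (by omega)
  have h6 : Real.exp (-1) ≤ Real.exp (-1 / (K : ℝ) ^ 2) ^ ((sq m : ℕ+) : ℕ) := by
    rw [← Real.exp_nat_mul, hsq]
    apply Real.exp_le_exp.mpr
    have h7 : ((m : ℝ) + 1) ^ 2 ≤ (K : ℝ) ^ 2 := by
      have : ((m : ℝ) + 1) ≤ K := by exact_mod_cast hm'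
      gcongr
    have h8 : ((m : ℝ) + 1) ^ 2 / (K : ℝ) ^ 2 ≤ 1 := by
      rw [div_le_one (by positivity)]
      exact h7
    push_cast
    have h9 : ((m : ℝ) + 1) ^ 2 * (-1 / (K : ℝ) ^ 2) = -(((m : ℝ) + 1) ^ 2 / (K : ℝ) ^ 2) := by
      ring
    rw [h9]
    linarith
  calc Real.exp (-1) = 1 * Real.exp (-1) := (one_mul _).symm
    _ ≤ (ψ.zetaMul ((sq m : ℕ+) : ℕ)).re * Real.exp (-1 / (K : ℝ) ^ 2) ^ ((sq m : ℕ+) : ℕ) :=
      mul_le_mul h5 h6 (Real.exp_pos _).le (by linarith)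

/-- the `L`-series as a sum -/
theorem L_sum (k : ℕ) (ψ : DirichletCharacter ℂ k) {t : ℝ} (ht : 0 < t) :
    HasSum (fun i : ℕ => ψ ((i + 1 : ℕ) : ZMod k) * ((((i : ℝ) + 1) ^ (-1 - t) : ℝ) : ℂ))
      (LSeries (fun n => ψ (n : ZMod k)) (1 + (t : ℂ))) := by
  have hs : 1 < (1 + (t : ℂ)).re := by simpa using ht
  have h1 := (DirichletCharacter.LSeriesSummable_of_one_lt_re ψ hs).hasSum
  rw [← hasSum_nat_add_iff' 1] at h1
  simp only [Finset.range_one, Finset.sum_singleton, LSeries.term_zero, sub_zero] at h1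
  refine h1.congr_fun fun i => ?_
  rw [LSeries.term_of_ne_zero (Nat.succ_ne_zero i), div_eq_mul_inv]
  congr 1
  have h2 : ((i + 1 : ℕ) : ℂ) = (((i : ℝ) + 1 : ℝ) : ℂ) := by push_cast; ring
  have h3 : (1 : ℂ) + (t : ℂ) = ((1 + t : ℝ) : ℂ) := by push_cast; ring
  have h4 : (0 : ℝ) ≤ (i : ℝ) + 1 := by positivity
  rw [h2, h3, ← Complex.ofReal_cpow h4, ← Complex.ofReal_inv, ← Real.rpow_neg h4]
  congr 2
  ring

/-- the trivial lower bound -/
theorem L_ge (k : ℕ) (ψ : DirichletCharacter ℂ k) (h2 : ψ ^ 2 = 1) {t : ℝ} (ht : 0 < t)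
    (ht1 : t ≤ 1) : t / 2 ≤ ‖LSeries (fun n => ψ (n : ZMod k)) (1 + (t : ℂ))‖ := by
  have hs : 1 < (1 + (t : ℂ)).re := by simpa using ht
  have hz : ‖riemannZeta (1 + (t : ℂ))‖ ≤ 2 / t := by
    rw [zeta_eq_tsum_one_div_nat_add_one_cpow hs]
    have e1 : ∀ n : ℕ, ‖1 / ((n : ℂ) + 1) ^ (1 + (t : ℂ))‖ = 1 / ((n : ℝ) + 1) ^ (1 + t) := by
      intro n
      have h3 : ((n : ℂ) + 1) = (((n : ℝ) + 1 : ℝ) : ℂ) := by push_cast; ring
      rw [norm_div, norm_one, h3, Complex.norm_cpow_eq_rpow_re_of_pos (by positivity)]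
      simp
    have h4 : Summable (fun n : ℕ => 1 / ((n : ℝ) + 1) ^ (1 + t)) := by
      have h5 := (summable_nat_add_iff 1).mpr
        (Real.summable_one_div_nat_rpow.mpr (by linarith : 1 < 1 + t))
      simpa using h5
    refine le_trans (norm_tsum_le_tsum_norm ?_) ?_
    · simp only [e1]
      exact h4
    · simp only [e1]
      have h6 := ZetaAsymptotics.zeta_limit_aux1 (s := 1 + t) (by linarith)
      have h7 : 0 ≤ ZetaAsymptotics.termTSum (1 + t) :=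
        tsum_nonneg fun n => ZetaAsymptotics.term_nonneg _ _
      have h8 : 1 ≤ 1 / t := by
        rw [le_div_iff₀ ht]
        linarith
      have h9 : 0 ≤ (1 + t) * ZetaAsymptotics.termTSum (1 + t) := by positivity
      have h10 : 1 + t - 1 = t := by ring
      rw [h10] at h6
      have h11 : 2 / t = 1 / t + 1 / t := by ring
      linarith
  have hρ : 1 ≤ ‖LSeries (ψ.zetaMul ·) (1 + (t : ℂ))‖ := by
    have h3 := (ψ.LSeriesSummable_zetaMul hs).hasSum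
    have h4 := Complex.hasSum_re h3
    have h5 : ∀ n, 0 ≤ (LSeries.term (ψ.zetaMul ·) (1 + (t : ℂ)) n).re := by
      intro n
      rcases eq_or_ne n 0 with rfl | hn
      · simp
      · rw [LSeries.term_of_ne_zero hn]
        have h6 : (1 : ℂ) + (t : ℂ) = ((1 + t : ℝ) : ℂ) := by push_cast; ring
        have h7 : ((n : ℕ) : ℂ) = ((n : ℝ) : ℂ) := by push_cast; ring
        rw [h6, h7, ← Complex.ofReal_cpow (by positivity), Complex.div_ofReal_re]
        exact div_nonneg (zm_re_nonneg h2 n) (by positivity)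
    have h6 := le_hasSum h4 1 (fun n _ => h5 n)
    have h7 : (LSeries.term (ψ.zetaMul ·) (1 + (t : ℂ)) 1).re = 1 := by
      rw [LSeries.term_of_ne_zero one_ne_zero, ψ.isMultiplicative_zetaMul.map_one]
      simp
    rw [h7] at h6
    exact h6.trans (Complex.re_le_norm _)
  have hprod : LSeries (ψ.zetaMul ·) (1 + (t : ℂ)) =
      riemannZeta (1 + (t : ℂ)) * LSeries (fun n => ψ (n : ZMod k)) (1 + (t : ℂ)) := by
    have h3 := DirichletCharacter.LSeriesSummable_of_one_lt_re ψ hs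
    rw [DirichletCharacter.zetaMul, ← ArithmeticFunction.coe_mul, LSeries_convolution']
    · congr 1
      · simp_rw [← ArithmeticFunction.LSeries_zeta_eq_riemannZeta hs,
          ← ArithmeticFunction.natCoe_apply]
      · exact (LSeries_congr ψ.apply_eq_toArithmeticFunction_apply _).symm
    · exact ArithmeticFunction.LSeriesSummable_zeta_iff.mpr hs
    · exact (LSeriesSummable_congr _ fun h =>
        (ψ.apply_eq_toArithmeticFunction_apply h).symm).mpr h3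
  rw [hprod, norm_mul] at hρ
  have h3 : ‖riemannZeta (1 + (t : ℂ))‖ *
      ‖LSeries (fun n => ψ (n : ZMod k)) (1 + (t : ℂ))‖ ≤
      2 / t * ‖LSeries (fun n => ψ (n : ZMod k)) (1 + (t : ℂ))‖ :=
    mul_le_mul_of_nonneg_right hz (norm_nonneg _)
  have h4 := hρ.trans h3
  rw [div_mul_eq_mul_div, le_div_iff₀ ht] at h4
  linarith

end LBR_

open LBR_ in
theorem p_LBR : T_LBR := by
  refine ⟨1 / (288 * CC), by have := CC_ge; positivity, ?_⟩
  intro k _ ψ hψ h2 t ht ht1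
  have hk : 0 < k := Nat.pos_of_ne_zero (NeZero.ne k)
  have hkr : (1 : ℝ) ≤ k := by exact_mod_cast hk
  have hC := CC_ge
  rcases le_total (1 / (144 * CC * (k : ℝ) ^ 2)) t with hle | hle
  · refine le_trans ?_ (L_ge k ψ h2 ht ht1)
    have e : 1 / (288 * CC) / (k : ℝ) ^ 2 = 1 / (144 * CC * (k : ℝ) ^ 2) / 2 := by
      field_simp
      norm_num
    rw [e]
    linarith
  · have hK : 0 < 12 * k := by omega
    have hN : (0 : ℝ) < ((12 * k : ℕ) : ℝ) ^ 2 := by positivity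
    obtain ⟨Lam, hL1, hL2⟩ := dbl ψ hN
    have h3 := Lam_ge h2 hK hL2
    have h4 := compare k ψ hψ hN ht hL1 (L_sum k ψ ht)
    set L := LSeries (fun n => ψ (n : ZMod k)) (1 + (t : ℂ)) with hLdef
    have h5 : ((12 * k : ℕ) : ℝ) ^ 2 * (t * CC) ≤ 1 := by
      have h6 : t * (144 * CC * (k : ℝ) ^ 2) ≤ 1 := by
        rw [← le_div_iff₀ (by positivity)]
        exact hle
      push_cast
      linarith
    have h6 : (1 : ℝ) / 3 ≤ Real.exp (-1) := by
      rw [Real.exp_neg, one_div]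
      exact inv_anti₀ (Real.exp_pos 1) (by linarith [Real.exp_one_lt_d9])
    have h7 : 4 * (k : ℝ) ≤ ‖Lam‖ := by
      refine le_trans ?_ (h3.trans (Complex.re_le_norm _))
      push_cast
      nlinarith
    have h8 : ‖Lam‖ ≤ ‖Lam - ((((12 * k : ℕ) : ℝ) ^ 2 : ℝ) : ℂ) * L‖ +
        ((12 * k : ℕ) : ℝ) ^ 2 * ‖L‖ := by
      have h9 : Lam = (Lam - ((((12 * k : ℕ) : ℝ) ^ 2 : ℝ) : ℂ) * L) +
        ((((12 * k : ℕ) : ℝ) ^ 2 : ℝ) : ℂ) * L := by ring
      have h10 : ‖((((12 * k : ℕ) : ℝ) ^ 2 : ℝ) : ℂ) * L‖ = ((12 * k : ℕ) : ℝ) ^ 2 * ‖L‖ := by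
        rw [norm_mul, Complex.norm_real, Real.norm_eq_abs, abs_of_pos hN]
      rw [← h10]
      conv_lhs => rw [h9]
      exact norm_add_le _ _
    have h9 : (k : ℝ) * (1 + ((12 * k : ℕ) : ℝ) ^ 2 * (t * CC)) ≤ k * 2 :=
      mul_le_mul_of_nonneg_left (by linarith) (by linarith)
    have h10 : 2 * (k : ℝ) ≤ ((12 * k : ℕ) : ℝ) ^ 2 * ‖L‖ := by linarith
    push_cast at h10
    have h11 : 1 ≤ 72 * (k : ℝ) * ‖L‖ := by
      have h12 : 2 * (k : ℝ) * 1 ≤ 2 * (k : ℝ) * (72 * (k : ℝ) * ‖L‖) := by linarith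
      exact le_of_mul_le_mul_left h12 (by positivity)
    have h12 : 0 ≤ ‖L‖ := norm_nonneg _
    rw [div_div, div_le_iff₀ (by positivity)]
    have h13 : 72 * (k : ℝ) ≤ 288 * CC * (k : ℝ) ^ 2 := by
      have : (k : ℝ) ≤ CC * (k : ℝ) ^ 2 := by nlinarith
      linarith
    have h14 := mul_le_mul_of_nonneg_right h13 h12
    linarith

end

end Pool.Agent.SelQ
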