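import Pool.Agent.SelQ.TargetsC

/-!
# C1 LIP: nonprincipal characters to the right of one
-/

set_option autoImplicit false

namespace Pool.Agent.SelQ

open Complex Filter Topology Set MeasureTheory

namespace LIP_

section

variable {k : ℕ} [NeZero k]

theorem range_le (g : ZMod k → ℂ) (hg : ∑ x, g x = 0) (hb : ∀ x, ‖g x‖ ≤ 1) (m : ℕ) :
    ‖∑ j ∈ Finset.range m, g (j : ZMod k)‖ ≤ (k : ℝ) / 2 := by
  have hk : 0 < k := Nat.pos_of_ne_zero (NeZero.ne k)
  have h1 : ∑ j ∈ Finset.range k, g (j : ZMod k) = 0 := by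
    rw [← hg]
    refine Finset.sum_nbij' (fun j => (j : ZMod k)) (fun x => x.val) ?_ ?_ ?_ ?_ ?_
    · intro j _; exact Finset.mem_univ _
    · intro x _; exact Finset.mem_range.2 (ZMod.val_lt x)
    · intro j hj; exact ZMod.val_cast_of_lt (Finset.mem_range.1 hj)
    · intro x _; exact ZMod.natCast_zmod_val x
    · intro j _; rfl
  have h2 : ∀ a : ℕ, ∑ j ∈ Finset.range (k * a), g (j : ZMod k) = 0 := by
    intro a
    induction a with
    | zero => simp
    | succ a ih =>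
      rw [Nat.mul_succ, Finset.sum_range_add, ih, zero_add, ← h1]
      refine Finset.sum_congr rfl (fun j _ => ?_)
      congr 1
      push_cast
      simp
  have hper : ∀ r : ℕ, r ≤ k → ‖∑ j ∈ Finset.range r, g (j : ZMod k)‖ ≤ (k : ℝ) / 2 := by
    intro r hr
    have e1 : ‖∑ j ∈ Finset.range r, g (j : ZMod k)‖ ≤ r := by
      calc ‖∑ j ∈ Finset.range r, g (j : ZMod k)‖
          ≤ ∑ j ∈ Finset.range r, ‖g (j : ZMod k)‖ := norm_sum_le _ _
        _ ≤ ∑ j ∈ Finset.range r, (1 : ℝ) := Finset.sum_le_sum (fun j _ => hb _)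
        _ = r := by simp
    have e2 : ∑ j ∈ Finset.range r, g (j : ZMod k) =
        -∑ j ∈ Finset.range (k - r), g ((r + j : ℕ) : ZMod k) := by
      have e3 : r + (k - r) = k := by omega
      have e4 : ∑ j ∈ Finset.range (r + (k - r)), g (j : ZMod k) = 0 := by
        have : Finset.range (r + (k - r)) = Finset.range k := by rw [e3]
        rw [this]
        exact h1
      rw [Finset.sum_range_add] at e4
      rw [eq_neg_iff_add_eq_zero]
      exact e4
    have e5 : ‖∑ j ∈ Finset.range r, g (j : ZMod k)‖ ≤ k - r := by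
      rw [e2, norm_neg]
      calc ‖∑ j ∈ Finset.range (k - r), g ((r + j : ℕ) : ZMod k)‖
          ≤ ∑ j ∈ Finset.range (k - r), ‖g ((r + j : ℕ) : ZMod k)‖ := norm_sum_le _ _
        _ ≤ ∑ j ∈ Finset.range (k - r), (1 : ℝ) := Finset.sum_le_sum (fun j _ => hb _)
        _ = ((k - r : ℕ) : ℝ) := by simp
        _ = k - r := by push_cast [Nat.cast_sub hr]; ring
    linarith
  have h3 : m = k * (m / k) + m % k := (Nat.div_add_mod m k).symm
  rw [h3, Finset.sum_range_add, h2, zero_add]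
  have h4 : ∑ j ∈ Finset.range (m % k), g ((k * (m / k) + j : ℕ) : ZMod k) =
      ∑ j ∈ Finset.range (m % k), g (j : ZMod k) := by
    refine Finset.sum_congr rfl (fun j _ => ?_)
    congr 1
    push_cast
    simp
  rw [h4]
  exact hper _ (Nat.mod_lt m hk).le

theorem Icc_le (χ : DirichletCharacter ℂ k) (hχ : χ ≠ 1) (n : ℕ) :
    ‖∑ j ∈ Finset.Icc 1 n, χ (j : ZMod k)‖ ≤ (k : ℝ) / 2 := by
  have hk1 : 1 < k := by
    have h0 : 0 < k := Nat.pos_of_ne_zero (NeZero.ne k)
    rcases Nat.lt_or_ge 1 k with h | h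
    · exact h
    · exfalso
      have : k = 1 := by omega
      subst this
      exact hχ (DirichletCharacter.level_one χ)
  have : Fact (1 < k) := ⟨hk1⟩
  have h1 : ∑ m ∈ Finset.range (n + 1), χ (m : ZMod k) =
      χ ((0 : ℕ) : ZMod k) + ∑ j ∈ Finset.Icc 1 n, χ (j : ZMod k) := by
    have : Finset.range (n + 1) = insert 0 (Finset.Icc 1 n) := by
      ext m
      simp only [Finset.mem_range, Finset.mem_insert, Finset.mem_Icc]
      omega
    rw [this, Finset.sum_insert (by simp)]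
  have h2 : χ ((0 : ℕ) : ZMod k) = 0 := by
    rw [Nat.cast_zero]
    exact MulChar.map_zero χ
  rw [h2, zero_add] at h1
  rw [← h1]
  exact range_le (fun x => χ x) (MulChar.sum_eq_zero_of_ne_one hχ)
    (fun x => DirichletCharacter.norm_le_one χ x) _

/-- the sums up to `x` -/
noncomputable def S (χ : DirichletCharacter ℂ k) (x : ℝ) : ℂ :=
  ∑ j ∈ Finset.Icc 1 ⌊x⌋₊, χ (j : ZMod k)

omit [NeZero k] in
theorem S_meas (χ : DirichletCharacter ℂ k) : Measurable (S χ) := by
  have h : Measurable (fun n : ℕ => ∑ j ∈ Finset.Icc 1 n, χ (j : ZMod k)) :=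
    measurable_from_nat
  exact h.comp Nat.measurable_floor

/-- the kernel -/
noncomputable def f (t x : ℝ) : ℝ := (1 + t) * x ^ (-(t + 2))

theorem f_int {t : ℝ} (ht : 0 < t) : IntegrableOn (f t) (Ioi 1) :=
  (integrableOn_Ioi_rpow_of_lt (by linarith) one_pos).const_mul _

theorem pow_integral {t : ℝ} (ht : 0 < t) :
    ∫ x in Ioi (1 : ℝ), x ^ (-(t + 2)) = 1 / (1 + t) := by
  rw [integral_Ioi_rpow_of_lt (by linarith) one_pos, Real.one_rpow]
  have e : -(t + 2) + 1 = -(1 + t) := by ring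
  rw [e, neg_div_neg_eq]

theorem rep (χ : DirichletCharacter ℂ k) (hχ : χ ≠ 1) {t : ℝ} (ht : 0 < t) :
    LSeries (fun n => χ (n : ZMod k)) (1 + (t : ℂ)) =
      ∫ x in Ioi (1 : ℝ), S χ x * ((f t x : ℝ) : ℂ) := by
  have hs : 1 < (1 + (t : ℂ)).re := by simp [ht]
  rw [LSeries_eq_mul_integral (fun n => χ (n : ZMod k)) le_rfl (by linarith)
      (DirichletCharacter.LSeriesSummable_of_one_lt_re χ hs) ?_, ← integral_const_mul]
  · refine setIntegral_congr_fun measurableSet_Ioi fun x hx => ?_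
    have hx0 : (0 : ℝ) ≤ x := le_trans zero_le_one (le_of_lt hx)
    have e : (x : ℂ) ^ (-(1 + (t : ℂ) + 1)) = ((x ^ (-(t + 2)) : ℝ) : ℂ) := by
      rw [Complex.ofReal_cpow hx0]
      congr 1
      push_cast
      ring
    rw [e]
    unfold f S
    push_cast
    ring
  · refine Asymptotics.IsBigO.of_bound ((k : ℝ) / 2) (Eventually.of_forall fun n => ?_)
    simp only [Real.rpow_zero, norm_one, mul_one]
    exact Icc_le χ hχ n

theorem f_nn {t x : ℝ} (ht : 0 < t) (hx : 1 < x) : 0 ≤ f t x := by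
  unfold f
  have : 0 ≤ x ^ (-(t + 2)) := Real.rpow_nonneg (by linarith) _
  exact mul_nonneg (by linarith) this

theorem bound_one (χ : DirichletCharacter ℂ k) (hχ : χ ≠ 1) {t : ℝ} (ht : 0 < t) :
    ‖LSeries (fun n => χ (n : ZMod k)) (1 + (t : ℂ))‖ ≤ (k : ℝ) / 2 := by
  rw [rep χ hχ ht]
  have h1 : ‖∫ x in Ioi (1 : ℝ), S χ x * ((f t x : ℝ) : ℂ)‖ ≤
      ∫ x in Ioi (1 : ℝ), (k : ℝ) / 2 * f t x := by
    refine norm_integral_le_of_norm_le ((f_int ht).const_mul _) ?_
    refine (ae_restrict_iff' measurableSet_Ioi).mpr (ae_of_all _ fun x hx => ?_)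
    rw [norm_mul, Complex.norm_real, Real.norm_of_nonneg (f_nn ht hx)]
    exact mul_le_mul_of_nonneg_right (Icc_le χ hχ _) (f_nn ht hx)
  refine h1.trans (le_of_eq ?_)
  unfold f
  rw [integral_const_mul, integral_const_mul, pow_integral ht]
  field_simp

theorem S_int (χ : DirichletCharacter ℂ k) (hχ : χ ≠ 1) {t : ℝ} (ht : 0 < t) :
    IntegrableOn (fun x => S χ x * ((f t x : ℝ) : ℂ)) (Ioi 1) := by
  refine Integrable.mono' ((f_int ht).const_mul ((k : ℝ) / 2)) ?_ ?_
  · apply Measurable.aestronglyMeasurable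
    apply (S_meas χ).mul
    apply Complex.measurable_ofReal.comp
    unfold f
    exact (measurable_id.pow_const _).const_mul _
  · refine (ae_restrict_iff' measurableSet_Ioi).mpr (ae_of_all _ fun x hx => ?_)
    rw [norm_mul, Complex.norm_real, Real.norm_of_nonneg (f_nn ht hx)]
    exact mul_le_mul_of_nonneg_right (Icc_le χ hχ _) (f_nn ht hx)

theorem f_sub {t t' x : ℝ} (ht : 0 < t) (htt : t ≤ t') (hx : 1 < x) :
    |f t x - f t' x| ≤ (1 + t) * (x ^ (-(t + 2)) - x ^ (-(t' + 2))) +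
      (t' - t) * x ^ (-(t' + 2)) := by
  have h1 : x ^ (-(t' + 2)) ≤ x ^ (-(t + 2)) :=
    Real.rpow_le_rpow_of_exponent_le hx.le (by linarith)
  have h2 : 0 ≤ x ^ (-(t' + 2)) := Real.rpow_nonneg (by linarith) _
  have h3 : 0 ≤ (1 + t) * (x ^ (-(t + 2)) - x ^ (-(t' + 2))) :=
    mul_nonneg (by linarith) (by linarith)
  have h4 : 0 ≤ (t' - t) * x ^ (-(t' + 2)) := mul_nonneg (by linarith) h2
  have h5 : f t x - f t' x = (1 + t) * (x ^ (-(t + 2)) - x ^ (-(t' + 2))) -
      (t' - t) * x ^ (-(t' + 2)) := by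
    unfold f
    ring
  rw [h5, abs_le]
  constructor <;> linarith

theorem bound_two (χ : DirichletCharacter ℂ k) (hχ : χ ≠ 1) {t t' : ℝ} (ht : 0 < t)
    (htt : t ≤ t') :
    ‖LSeries (fun n => χ (n : ZMod k)) (1 + (t : ℂ)) -
      LSeries (fun n => χ (n : ZMod k)) (1 + (t' : ℂ))‖ ≤ k * (t' - t) := by
  have ht' : 0 < t' := by linarith
  rw [rep χ hχ ht, rep χ hχ ht', ← integral_sub (S_int χ hχ ht) (S_int χ hχ ht')]
  have i1 : IntegrableOn (fun x : ℝ => x ^ (-(t + 2))) (Ioi 1) :=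
    integrableOn_Ioi_rpow_of_lt (by linarith) one_pos
  have i2 : IntegrableOn (fun x : ℝ => x ^ (-(t' + 2))) (Ioi 1) :=
    integrableOn_Ioi_rpow_of_lt (by linarith) one_pos
  have i3 : IntegrableOn (fun x : ℝ => (1 + t) * (x ^ (-(t + 2)) - x ^ (-(t' + 2)))) (Ioi 1) :=
    (i1.sub i2).const_mul _
  have i4 : IntegrableOn (fun x : ℝ => (t' - t) * x ^ (-(t' + 2))) (Ioi 1) := i2.const_mul _
  have h1 : ‖∫ x in Ioi (1 : ℝ), (S χ x * ((f t x : ℝ) : ℂ) - S χ x * ((f t' x : ℝ) : ℂ))‖ ≤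
      ∫ x in Ioi (1 : ℝ), (k : ℝ) / 2 * ((1 + t) * (x ^ (-(t + 2)) - x ^ (-(t' + 2))) +
      (t' - t) * x ^ (-(t' + 2))) := by
    refine norm_integral_le_of_norm_le ((i3.add i4).const_mul _) ?_
    refine (ae_restrict_iff' measurableSet_Ioi).mpr (ae_of_all _ fun x hx => ?_)
    rw [← mul_sub, ← Complex.ofReal_sub, norm_mul, Complex.norm_real, Real.norm_eq_abs]
    exact mul_le_mul (Icc_le χ hχ _) (f_sub ht htt hx) (abs_nonneg _) (by positivity)
  refine h1.trans ?_
  rw [integral_const_mul, integral_add i3 i4, integral_const_mul, integral_const_mul,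
    integral_sub i1 i2, pow_integral ht, pow_integral ht']
  have e : (k : ℝ) / 2 * ((1 + t) * (1 / (1 + t) - 1 / (1 + t')) + (t' - t) * (1 / (1 + t'))) =
      k * ((t' - t) / (1 + t')) := by
    have h2 : 1 + t ≠ 0 := by positivity
    have h3 : 1 + t' ≠ 0 := by positivity
    field_simp
    ring
  rw [e]
  apply mul_le_mul_of_nonneg_left _ (Nat.cast_nonneg k)
  apply div_le_self (by linarith) (by linarith)

end

end LIP_

open LIP_ in
/-- C1 LIP. -/
theorem p_LIP : T_LIP := by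
  intro k _ ψ hψ t t' ht ht'
  refine ⟨(bound_one ψ hψ ht).trans ?_, ?_⟩
  · have : (0 : ℝ) ≤ k := Nat.cast_nonneg k
    linarith
  · rcases le_total t t' with h | h
    · rw [abs_sub_comm, abs_of_nonneg (by linarith)]
      exact bound_two ψ hψ ht h
    · rw [abs_of_nonneg (by linarith), norm_sub_rev]
      exact bound_two ψ hψ ht' h

end Pool.Agent.SelQ
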