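import Pool.Agent.SelQ.TargetsE

/-!
# SelQ: bound and continuity off the real axis (target LOC)
-/

set_option autoImplicit false

open Finset

namespace Pool.Agent.SelQ

open Pool.Agent.SelTwo (lam pX)

namespace LOCQ_

/-- The size of a term. -/
lemma nterm (c : ℕ → ℂ) (n : ℕ) (x y : ℝ) :
    ‖c (n + 1) * Complex.exp (-(((n : ℂ) + 1) * pX x y))‖ =
      ‖c (n + 1)‖ * Real.exp (-(2 * Real.pi * ((n : ℝ) + 1) * y)) := by
  rw [norm_mul, Complex.norm_exp]
  congr 2
  simp only [pX]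
  simp [Complex.mul_re, Complex.mul_im]
  ring

lemma bterm (c : ℕ → ℂ) (C : ℝ) (hC : ∀ n : ℕ, 1 ≤ n → ‖c n‖ ≤ C * n) (n : ℕ) (x y y₀ : ℝ)
    (hy : y₀ ≤ y) : ‖c (n + 1) * Complex.exp (-(((n : ℂ) + 1) * pX x y))‖ ≤
      |C| * (((n : ℝ) + 1) * Real.exp (-(2 * Real.pi * y₀)) ^ (n + 1)) := by
  rw [nterm, ← mul_assoc]
  have h1 : ‖c (n + 1)‖ ≤ |C| * ((n : ℝ) + 1) := by
    refine (hC (n + 1) (by omega)).trans ?_
    push_cast
    gcongr
    exact le_abs_self C
  have h2 : Real.exp (-(2 * Real.pi * ((n : ℝ) + 1) * y)) ≤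
      Real.exp (-(2 * Real.pi * y₀)) ^ (n + 1) := by
    rw [← Real.exp_nat_mul]
    apply Real.exp_le_exp.2
    push_cast
    have h3 : 0 ≤ 2 * Real.pi * ((n : ℝ) + 1) := by positivity
    nlinarith [mul_le_mul_of_nonneg_left hy h3]
  exact mul_le_mul h1 h2 (Real.exp_pos _).le (by positivity)

lemma sumb (C y₀ : ℝ) (hy : 0 < y₀) :
    Summable fun n : ℕ => |C| * (((n : ℝ) + 1) * Real.exp (-(2 * Real.pi * y₀)) ^ (n + 1)) := by
  apply Summable.mul_left
  have hr : ‖Real.exp (-(2 * Real.pi * y₀))‖ < 1 := by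
    rw [Real.norm_eq_abs, abs_of_pos (Real.exp_pos _), Real.exp_lt_one_iff]
    have : 0 < 2 * Real.pi * y₀ := by positivity
    linarith
  have h1 := summable_pow_mul_geometric_of_norm_lt_one 1 hr
  have h2 := (summable_nat_add_iff 1).2 h1
  refine h2.congr fun n => ?_
  push_cast
  ring

end LOCQ_

open LOCQ_ in
/-- LOC. -/
theorem p_LOCQ : T_LOC := by
  intro c ⟨C, hC⟩
  constructor
  · have hcont : ContinuousOn (fun p : ℝ × ℝ => lam c (pX p.1 p.2)) {p : ℝ × ℝ | 0 < p.2} := by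
      intro p hp
      have hp' : 0 < p.2 := hp
      have hopen : IsOpen {q : ℝ × ℝ | p.2 / 2 < q.2} := isOpen_lt continuous_const continuous_snd
      have h1 : ContinuousOn (fun q : ℝ × ℝ => lam c (pX q.1 q.2))
          {q : ℝ × ℝ | p.2 / 2 < q.2} := by
        unfold lam
        refine continuousOn_tsum (u := fun n : ℕ =>
          |C| * (((n : ℝ) + 1) * Real.exp (-(2 * Real.pi * (p.2 / 2))) ^ (n + 1)))
          (fun n => Continuous.continuousOn ?_) (sumb C _ (by positivity))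
          (fun n q hq => bterm c C hC n q.1 q.2 _ (le_of_lt hq))
        unfold pX
        fun_prop
      exact (h1.continuousAt (hopen.mem_nhds (by
        change p.2 / 2 < p.2
        linarith))).continuousWithinAt
    exact (hcont.norm.pow 2)
  · intro y₀ hy₀
    refine ⟨(∑' n : ℕ, |C| * (((n : ℝ) + 1) *
      Real.exp (-(2 * Real.pi * y₀)) ^ (n + 1))) ^ 2, by positivity, ?_⟩
    intro x y hy
    have h1 : ‖lam c (pX x y)‖ ≤ ∑' n : ℕ, |C| * (((n : ℝ) + 1) *
        Real.exp (-(2 * Real.pi * y₀)) ^ (n + 1)) := by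
      unfold lam
      exact tsum_of_norm_bounded (sumb C y₀ hy₀).hasSum (fun n => bterm c C hC n x y y₀ hy)
    exact pow_le_pow_left₀ (norm_nonneg _) h1 2

end Pool.Agent.SelQ

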