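import Pool.Agent.SelQ.TargetsD

/-!
# D7 LOW: lower bound for the window sums by the pigeonhole principle
-/

set_option autoImplicit false

open Finset

namespace Pool.Agent.SelQ

namespace LOW_

/-- elementary symmetric sums -/
noncomputable def E (π : ℕ → ℝ) (Q : Finset ℕ) (j : ℕ) : ℝ :=
  ∑ S ∈ Q.powersetCard j, ∏ p ∈ S, π p

theorem double (π : ℕ → ℝ) (Q : Finset ℕ) (j : ℕ) :
    ((j : ℝ) + 1) * E π Q (j + 1) =
      ∑ S ∈ Q.powersetCard j, (∏ p ∈ S, π p) * ∑ p ∈ Q \ S, π p := by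
  have h1 : ((j : ℝ) + 1) * E π Q (j + 1) =
      ∑ S ∈ Q.powersetCard (j + 1), ∑ p ∈ S, ∏ q ∈ S, π q := by
    unfold E
    rw [Finset.mul_sum]
    refine Finset.sum_congr rfl fun S hS => ?_
    rw [Finset.sum_const, (mem_powersetCard.1 hS).2, nsmul_eq_mul]
    push_cast
    ring
  rw [h1]
  simp only [Finset.mul_sum]
  rw [Finset.sum_sigma', Finset.sum_sigma']
  refine Finset.sum_nbij' (fun x => ⟨x.1.erase x.2, x.2⟩) (fun x => ⟨insert x.2 x.1, x.2⟩)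
    ?_ ?_ ?_ ?_ ?_
  · rintro ⟨S, p⟩ h
    rw [mem_sigma, mem_powersetCard] at h
    obtain ⟨⟨h1, h2⟩, h3⟩ := h
    simp only at h1 h2 h3
    rw [mem_sigma, mem_powersetCard, mem_sdiff]
    refine ⟨⟨(erase_subset _ _).trans h1, ?_⟩, h1 h3, notMem_erase _ _⟩
    simp only
    rw [card_erase_of_mem h3, h2]
    rfl
  · rintro ⟨S, p⟩ h
    rw [mem_sigma, mem_powersetCard, mem_sdiff] at h
    obtain ⟨⟨h1, h2⟩, h3, h4⟩ := h
    simp only at h1 h2 h3 h4
    rw [mem_sigma, mem_powersetCard]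
    refine ⟨⟨insert_subset h3 h1, ?_⟩, mem_insert_self _ _⟩
    simp only
    rw [card_insert_of_notMem h4, h2]
  · rintro ⟨S, p⟩ h
    rw [mem_sigma, mem_powersetCard] at h
    obtain ⟨⟨h1, h2⟩, h3⟩ := h
    simp only at h3
    simp only [insert_erase h3]
  · rintro ⟨S, p⟩ h
    rw [mem_sigma, mem_powersetCard, mem_sdiff] at h
    obtain ⟨⟨h1, h2⟩, h3, h4⟩ := h
    simp only at h4
    simp only [erase_insert h4]
  · rintro ⟨S, p⟩ h
    rw [mem_sigma, mem_powersetCard] at h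
    obtain ⟨⟨h1, h2⟩, h3⟩ := h
    simp only at h3
    simp only
    exact (prod_erase_mul S π h3).symm

theorem step {π : ℕ → ℝ} (hπ : ∀ p, 0 ≤ π p ∧ π p ≤ 1) (Q : Finset ℕ) (j : ℕ) :
    (∑ p ∈ Q, π p - j) * E π Q j ≤ ((j : ℝ) + 1) * E π Q (j + 1) := by
  rw [double]
  unfold E
  rw [Finset.mul_sum]
  refine Finset.sum_le_sum fun S hS => ?_
  obtain ⟨h1, h2⟩ := mem_powersetCard.1 hS
  rw [mul_comm]
  apply mul_le_mul_of_nonneg_left
  · have h3 := Finset.sum_sdiff (f := π) h1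
    have h4 : ∑ p ∈ S, π p ≤ j := by
      calc ∑ p ∈ S, π p ≤ ∑ p ∈ S, (1 : ℝ) := Finset.sum_le_sum fun p _ => (hπ p).2
        _ = j := by simp [h2]
    linarith
  · exact prod_nonneg fun p _ => (hπ p).1

theorem lower {π : ℕ → ℝ} (hπ : ∀ p, 0 ≤ π p ∧ π p ≤ 1) (Q : Finset ℕ)
    (hM : 0 < ∑ p ∈ Q, π p) (j : ℕ) (hj : (j : ℝ) ≤ ∑ p ∈ Q, π p) :
    (∑ p ∈ Q, π p) ^ j / (j.factorial : ℝ) * (1 - (j : ℝ) ^ 2 / (2 * ∑ p ∈ Q, π p)) ≤
      E π Q j := by
  set M : ℝ := ∑ p ∈ Q, π p with hMd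
  induction j with
  | zero => simp [E]
  | succ j ih =>
    have hj' : (j : ℝ) ≤ M := by
      push_cast at hj
      linarith
    have h1 := ih hj'
    have h2 := step hπ Q j
    rw [← hMd] at h2
    have h3 : (M - j) * (M ^ j / (j.factorial : ℝ) * (1 - (j : ℝ) ^ 2 / (2 * M))) ≤
        ((j : ℝ) + 1) * E π Q (j + 1) :=
      (mul_le_mul_of_nonneg_left h1 (by linarith)).trans h2
    have hf : (0 : ℝ) < (j.factorial : ℝ) := by exact_mod_cast j.factorial_pos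
    have h4 : M ^ (j + 1) / ((j + 1).factorial : ℝ) *
        (1 - ((j + 1 : ℕ) : ℝ) ^ 2 / (2 * M)) * ((j : ℝ) + 1) ≤
        (M - j) * (M ^ j / (j.factorial : ℝ) * (1 - (j : ℝ) ^ 2 / (2 * M))) := by
      have e1 : M ^ (j + 1) / ((j + 1).factorial : ℝ) *
          (1 - ((j + 1 : ℕ) : ℝ) ^ 2 / (2 * M)) * ((j : ℝ) + 1) =
          M ^ j / (j.factorial : ℝ) * (M - ((j : ℝ) + 1) ^ 2 / 2) := by
        rw [Nat.factorial_succ]
        push_cast
        field_simp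
        ring
      have e2 : (M - j) * (M ^ j / (j.factorial : ℝ) * (1 - (j : ℝ) ^ 2 / (2 * M))) =
          M ^ j / (j.factorial : ℝ) * (M - j - (j : ℝ) ^ 2 / 2 + (j : ℝ) ^ 3 / (2 * M)) := by
        field_simp
        ring
      rw [e1, e2]
      apply mul_le_mul_of_nonneg_left _ (by positivity)
      have h5 : 0 ≤ (j : ℝ) ^ 3 / (2 * M) := by positivity
      nlinarith
    have h6 := h4.trans h3
    rw [mul_comm ((j : ℝ) + 1)] at h6
    exact le_of_mul_le_mul_right h6 (by positivity)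

theorem upper {π : ℕ → ℝ} (hπ : ∀ p, 0 ≤ π p ∧ π p ≤ 1) (Q : Finset ℕ) (j : ℕ) {T K : ℝ}
    (hT : 0 ≤ T) (hQ : ∀ p ∈ Q, 1 ≤ p ∧ Real.log p ≤ T) (hK : ∀ u : ℝ, KK π Q j u ≤ K) :
    E π Q j ≤ (j * T + 1) * K := by
  classical
  have hKK : 0 ≤ KK π Q j 0 := by
    unfold KK
    exact sum_nonneg fun S _ => prod_nonneg fun p _ => (hπ p).1
  have hK0 : 0 ≤ K := hKK.trans (hK 0)
  have hlog : ∀ S ∈ Q.powersetCard j, 0 ≤ Real.log (∏ p ∈ S, (p : ℝ)) ∧
      Real.log (∏ p ∈ S, (p : ℝ)) ≤ j * T := by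
    intro S hS
    obtain ⟨h1, h2⟩ := mem_powersetCard.1 hS
    have hne : ∀ p ∈ S, ((p : ℝ)) ≠ 0 := by
      intro p hp
      have := (hQ p (h1 hp)).1
      positivity
    rw [Real.log_prod hne]
    constructor
    · apply sum_nonneg
      intro p hp
      apply Real.log_nonneg
      exact_mod_cast (hQ p (h1 hp)).1
    · calc ∑ p ∈ S, Real.log p ≤ ∑ p ∈ S, T := sum_le_sum fun p hp => (hQ p (h1 hp)).2
        _ = j * T := by simp [h2]
  have hmap : ∀ S ∈ Q.powersetCard j,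
      ⌊Real.log (∏ p ∈ S, (p : ℝ))⌋₊ ∈ range (⌊(j : ℝ) * T⌋₊ + 1) := by
    intro S hS
    rw [mem_range, Nat.lt_add_one_iff]
    exact Nat.floor_le_floor (hlog S hS).2
  have hpart := Finset.sum_fiberwise_of_maps_to hmap (fun S => ∏ p ∈ S, π p)
  unfold E
  rw [← hpart]
  have hfib : ∀ m ∈ range (⌊(j : ℝ) * T⌋₊ + 1),
      ∑ S ∈ (Q.powersetCard j).filter
        (fun S : Finset ℕ => ⌊Real.log (∏ p ∈ S, (p : ℝ))⌋₊ = m), ∏ p ∈ S, π p ≤ K := by
    intro m _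
    refine le_trans ?_ (hK m)
    unfold KK win
    apply sum_le_sum_of_subset_of_nonneg
    · intro S hS
      rw [mem_filter] at hS
      obtain ⟨h1, h2⟩ := hS
      obtain ⟨h3, _⟩ := hlog S h1
      rw [mem_filter]
      refine ⟨h1, ?_, ?_⟩
      · rw [← h2]
        exact Nat.floor_le h3
      · rw [← h2]
        exact Nat.lt_floor_add_one _
    · intro S _ _
      exact prod_nonneg fun p _ => (hπ p).1
  calc _ ≤ ∑ m ∈ range (⌊(j : ℝ) * T⌋₊ + 1), K := sum_le_sum hfib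
    _ = ((⌊(j : ℝ) * T⌋₊ : ℝ) + 1) * K := by simp
    _ ≤ (j * T + 1) * K := by
        apply mul_le_mul_of_nonneg_right _ hK0
        have := Nat.floor_le (show 0 ≤ (j : ℝ) * T by positivity)
        linarith

end LOW_

open LOW_ in
/-- D7 LOW. -/
theorem p_LOW : T_LOW := by
  intro π Q j T K hT hπ hQ hM hj hK
  have hjM : (j : ℝ) ≤ ∑ p ∈ Q, π p := by
    refine le_trans ?_ hj
    rcases Nat.eq_zero_or_pos j with h | h
    · simp [h]
    · have : (1 : ℝ) ≤ j := by exact_mod_cast h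
      nlinarith
  have h1 := lower hπ Q hM j hjM
  have h2 := upper hπ Q j hT hQ hK
  have h3 : (1 : ℝ) / 2 ≤ 1 - (j : ℝ) ^ 2 / (2 * ∑ p ∈ Q, π p) := by
    have : (j : ℝ) ^ 2 / (2 * ∑ p ∈ Q, π p) ≤ 1 / 2 := by
      rw [div_le_div_iff₀ (by positivity) (by norm_num)]
      linarith
    linarith
  have h4 : 0 ≤ (∑ p ∈ Q, π p) ^ j / (j.factorial : ℝ) := by positivity
  nlinarith [mul_le_mul_of_nonneg_left h3 h4]

end Pool.Agent.SelQ
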