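import Pool.Agent.SelQ.TargetsE
import Pool.Agent.SelDeg2.ERR

/-!
# LTE: the error integral on a ray
-/

set_option autoImplicit false

open Finset

namespace Pool.Agent.SelQ

open Pool.Agent.SelTwo (lam pX vl cj tw gP)
open MeasureTheory

namespace LTE_

theorem pow_int {δ : ℝ} (hδ : 0 < δ) :
    Integrable (fun x : ℝ => |x| ^ (-(1 / 2) : ℝ) * Real.exp (-δ * |x|)) ∧
    ∫ x : ℝ, |x| ^ (-(1 / 2) : ℝ) * Real.exp (-δ * |x|) =
      2 * ((1 / δ) ^ (1 / 2 : ℝ) * Real.Gamma (1 / 2)) := by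
  have h0 : IntegrableOn (fun x : ℝ => x ^ (-(1 / 2) : ℝ) * Real.exp (-δ * x)) (Set.Ioi 0) := by
    have := integrableOn_rpow_mul_exp_neg_mul_rpow (s := -(1 / 2)) (p := 1) (b := δ)
      (by norm_num) one_pos hδ
    simpa using this
  constructor
  · exact Pool.Agent.SelDeg2.ERR_abs
      (f := fun x => x ^ (-(1 / 2) : ℝ) * Real.exp (-δ * x)) h0
  · rw [integral_comp_abs (f := fun x => x ^ (-(1 / 2) : ℝ) * Real.exp (-δ * x))]
    have h1 := Real.integral_rpow_mul_exp_neg_mul_Ioi (a := 1 / 2) (r := δ) (by norm_num) hδ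
    have e : (1 / 2 : ℝ) - 1 = -(1 / 2) := by norm_num
    rw [e] at h1
    rw [← h1]
    congr 1
    refine setIntegral_congr_fun measurableSet_Ioi fun t _ => ?_
    simp only [neg_mul]

theorem arg_eq {t : ℝ} (ht : 0 < t) :
    Complex.arg ((t : ℂ) - Complex.I) = -(Real.pi / 2 - Real.arctan t) := by
  set z : ℂ := (t : ℂ) - Complex.I with hz
  have hre : z.re = t := by simp [hz]
  have him : z.im = -1 := by simp [hz]
  have h1 : |Complex.arg z| < Real.pi / 2 :=
    Complex.abs_arg_lt_pi_div_two_iff.2 (Or.inl (by rw [hre]; exact ht))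
  rw [abs_lt] at h1
  have h2 := Real.arctan_tan h1.1 h1.2
  rw [Complex.tan_arg, hre, him] at h2
  rw [← h2, neg_div, Real.arctan_neg, one_div, Real.arctan_inv_of_pos ht]

theorem ne_zero {t : ℝ} (ht : 0 < t) : ((t : ℂ) - Complex.I) ≠ 0 := by
  intro h
  have := congrArg Complex.re h
  simp at this
  exact ht.ne' this

theorem arctan_ge {t t₁ : ℝ} (ht : 0 < t) (h : t ≤ t₁) :
    t / √(1 + t₁ ^ 2) ≤ Real.arctan t := by
  have h1 : Real.sin (Real.arctan t) ≤ Real.arctan t :=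
    Real.sin_le (Real.arctan_nonneg.2 ht.le)
  rw [Real.sin_arctan] at h1
  refine le_trans ?_ h1
  apply div_le_div_of_nonneg_left ht.le (Real.sqrt_pos.2 (by positivity))
  apply Real.sqrt_le_sqrt
  nlinarith

/-- the amplitude -/
noncomputable def G (E h : ℝ → ℂ) (t τ : ℝ) : ℂ :=
  E τ * Complex.exp (Complex.log ((t : ℂ) - Complex.I) * ((1 / 4 : ℂ) + τ * Complex.I)) * h τ

theorem cG {E h : ℝ → ℂ} (hE : Continuous E) (hh : Continuous h) (t : ℝ) :
    Continuous (G E h t) := by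
  unfold G
  fun_prop

theorem norm_mid {t : ℝ} (ht : 0 < t) (τ : ℝ) :
    ‖Complex.exp (Complex.log ((t : ℂ) - Complex.I) * ((1 / 4 : ℂ) + τ * Complex.I))‖ ≤
      Real.exp (t / 4) * Real.exp (τ * (Real.pi / 2 - Real.arctan t)) := by
  rw [Complex.norm_exp, ← Real.exp_add]
  apply Real.exp_le_exp.2
  have h1 : (Complex.log ((t : ℂ) - Complex.I) * ((1 / 4 : ℂ) + τ * Complex.I)).re =
      Real.log ‖(t : ℂ) - Complex.I‖ / 4 - Complex.arg ((t : ℂ) - Complex.I) * τ := by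
    rw [Complex.mul_re, Complex.log_re, Complex.log_im]
    have e1 : ((1 / 4 : ℂ) + τ * Complex.I).re = 1 / 4 := by
      simp
    have e2 : ((1 / 4 : ℂ) + τ * Complex.I).im = τ := by
      simp
    rw [e1, e2]
    ring
  rw [h1, arg_eq ht]
  have h2 : ‖(t : ℂ) - Complex.I‖ ≤ t + 1 := by
    refine (norm_sub_le _ _).trans ?_
    rw [Complex.norm_I, Complex.norm_real, Real.norm_eq_abs, abs_of_pos ht]
  have h3 := Real.log_le_sub_one_of_pos (norm_pos_iff.2 (ne_zero ht))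
  linarith

variable {E h : ℝ → ℂ} {C : ℝ}

theorem G_pos (hK : KB E h C) {t t₁ τ : ℝ} (ht : 0 < t) (h1 : t ≤ t₁) (hτ : 0 ≤ τ) :
    ‖G E h t τ‖ ≤ C * C * Real.exp (t₁ / 4) * ((1 + τ) ^ (-(1 / 4) : ℝ) *
      Real.exp (-(t / √(1 + t₁ ^ 2) * τ))) := by
  have h2 := hK.up τ hτ
  have h3 := norm_mid ht τ
  have h4 := hK.bh τ
  have hC := hK.C0
  have h5 : Real.exp (t / 4) ≤ Real.exp (t₁ / 4) := Real.exp_le_exp.2 (by linarith)
  have h6 : Real.exp (-(Real.pi * τ / 2)) * Real.exp (τ * (Real.pi / 2 - Real.arctan t)) ≤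
      Real.exp (-(t / √(1 + t₁ ^ 2) * τ)) := by
    rw [← Real.exp_add]
    apply Real.exp_le_exp.2
    have := mul_le_mul_of_nonneg_right (arctan_ge ht h1) hτ
    linarith
  have hp : 0 ≤ (1 + τ) ^ (-(1 / 4) : ℝ) := Real.rpow_nonneg (by linarith) _
  unfold G
  rw [norm_mul, norm_mul]
  calc ‖E τ‖ * ‖Complex.exp (Complex.log ((t : ℂ) - Complex.I) *
        ((1 / 4 : ℂ) + τ * Complex.I))‖ * ‖h τ‖
      ≤ (C * (1 + τ) ^ (-(1 / 4) : ℝ) * Real.exp (-(Real.pi * τ / 2))) *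
        (Real.exp (t₁ / 4) * Real.exp (τ * (Real.pi / 2 - Real.arctan t))) * C := by
        apply mul_le_mul _ h4 (norm_nonneg _) (by positivity)
        apply mul_le_mul h2 _ (norm_nonneg _) (by positivity)
        exact h3.trans (mul_le_mul_of_nonneg_right h5 (Real.exp_pos _).le)
    _ = C * C * Real.exp (t₁ / 4) * ((1 + τ) ^ (-(1 / 4) : ℝ) *
        (Real.exp (-(Real.pi * τ / 2)) * Real.exp (τ * (Real.pi / 2 - Real.arctan t)))) := by
        ring
    _ ≤ _ := by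
        apply mul_le_mul_of_nonneg_left _ (by positivity)
        exact mul_le_mul_of_nonneg_left h6 hp

theorem G_neg (hK : KB E h C) {t t₁ τ : ℝ} (ht : 0 < t) (h1 : t ≤ t₁) (hτ : τ ≤ 0) :
    ‖G E h t τ‖ ≤ C * C * Real.exp (t₁ / 4) * (2 * Real.exp (-|τ|)) := by
  have h2 := hK.dn τ hτ
  have h3 := norm_mid ht τ
  have h4 := hK.bh τ
  have hC := hK.C0
  have h5 : Real.exp (t / 4) ≤ Real.exp (t₁ / 4) := Real.exp_le_exp.2 (by linarith)
  have h6 : Real.exp (τ * (Real.pi / 2 - Real.arctan t)) ≤ 1 := by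
    rw [Real.exp_le_one_iff]
    have := Real.arctan_lt_pi_div_two t
    exact mul_nonpos_of_nonpos_of_nonneg hτ (by linarith)
  have h7 : (1 + |τ|) * Real.exp (Real.pi * τ / 2) ≤ 2 * Real.exp (-|τ|) := by
    rw [abs_of_nonpos hτ]
    have h8 := Real.add_one_le_exp (-τ / 2)
    have h9 : Real.exp (-τ / 2) * Real.exp (Real.pi * τ / 2) ≤ Real.exp (- -τ) := by
      rw [← Real.exp_add]
      apply Real.exp_le_exp.2
      have := Real.pi_gt_three
      nlinarith
    have h10 : 1 + -τ ≤ 2 * Real.exp (-τ / 2) := by linarith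
    have h11 := mul_le_mul_of_nonneg_right h10 (Real.exp_pos (Real.pi * τ / 2)).le
    linarith
  unfold G
  rw [norm_mul, norm_mul]
  calc ‖E τ‖ * ‖Complex.exp (Complex.log ((t : ℂ) - Complex.I) *
        ((1 / 4 : ℂ) + τ * Complex.I))‖ * ‖h τ‖
      ≤ (C * (1 + |τ|) * Real.exp (Real.pi * τ / 2)) * (Real.exp (t₁ / 4) * 1) * C := by
        apply mul_le_mul _ h4 (norm_nonneg _) (by positivity)
        apply mul_le_mul h2 _ (norm_nonneg _) (by positivity)
        exact h3.trans (mul_le_mul h5 h6 (Real.exp_pos _).le (Real.exp_pos _).le)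
    _ = C * C * Real.exp (t₁ / 4) * ((1 + |τ|) * Real.exp (Real.pi * τ / 2)) := by
        ring
    _ ≤ _ := mul_le_mul_of_nonneg_left h7 (by positivity)

theorem G_bd (hK : KB E h C) {t t₁ : ℝ} (ht : 0 < t) (h1 : t ≤ t₁) (τ : ℝ) :
    ‖G E h t τ‖ ≤ C * C * Real.exp (t₁ / 4) * (Real.exp (-(t / √(1 + t₁ ^ 2)) * |τ|) +
      2 * Real.exp (-1 * |τ|)) := by
  have hM : 0 ≤ C * C * Real.exp (t₁ / 4) := mul_nonneg (mul_self_nonneg C) (Real.exp_pos _).le
  rcases le_total 0 τ with hτ | hτ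
  · refine (G_pos hK ht h1 hτ).trans (mul_le_mul_of_nonneg_left ?_ hM)
    have h2 : (1 + τ) ^ (-(1 / 4) : ℝ) ≤ 1 :=
      Real.rpow_le_one_of_one_le_of_nonpos (by linarith) (by norm_num)
    have h3 := mul_le_mul_of_nonneg_right h2 (Real.exp_pos (-(t / √(1 + t₁ ^ 2) * τ))).le
    rw [abs_of_nonneg hτ]
    have h4 := Real.exp_pos (-1 * τ)
    rw [neg_mul]
    linarith
  · refine (G_neg hK ht h1 hτ).trans (mul_le_mul_of_nonneg_left ?_ hM)
    have h4 := Real.exp_pos (-(t / √(1 + t₁ ^ 2)) * |τ|)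
    rw [neg_one_mul]
    linarith

theorem G_sq (hK : KB E h C) {t t₁ : ℝ} (ht : 0 < t) (h1 : t ≤ t₁) (τ : ℝ) :
    ‖G E h t τ‖ ^ 2 ≤ (C * C * Real.exp (t₁ / 4)) ^ 2 *
      (|τ| ^ (-(1 / 2) : ℝ) * Real.exp (-(2 * (t / √(1 + t₁ ^ 2))) * |τ|) +
      4 * Real.exp (-2 * |τ|)) := by
  have hM : 0 ≤ C * C * Real.exp (t₁ / 4) := mul_nonneg (mul_self_nonneg C) (Real.exp_pos _).le
  have e2 : Real.exp (-|τ|) ^ 2 = Real.exp (-2 * |τ|) := by
    rw [← Real.exp_nat_mul]; congr 1; push_cast; ring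
  have hnn : 0 ≤ |τ| ^ (-(1 / 2) : ℝ) * Real.exp (-(2 * (t / √(1 + t₁ ^ 2))) * |τ|) := by
    positivity
  rcases lt_or_ge 0 τ with hτ | hτ
  · have h2 := pow_le_pow_left₀ (norm_nonneg _) (G_pos hK ht h1 hτ.le) 2
    refine h2.trans ?_
    rw [mul_pow]
    apply mul_le_mul_of_nonneg_left _ (by positivity)
    rw [mul_pow, abs_of_pos hτ]
    have h3 : ((1 + τ) ^ (-(1 / 4) : ℝ)) ^ 2 ≤ τ ^ (-(1 / 2) : ℝ) := by
      rw [← Real.rpow_natCast, ← Real.rpow_mul (by linarith)]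
      have e : (-(1 / 4) : ℝ) * ((2 : ℕ) : ℝ) = -(1 / 2) := by norm_num
      rw [e]
      exact Real.rpow_le_rpow_of_nonpos hτ (by linarith) (by norm_num)
    have h4 : Real.exp (-(t / √(1 + t₁ ^ 2) * τ)) ^ 2 =
        Real.exp (-(2 * (t / √(1 + t₁ ^ 2))) * τ) := by
      rw [← Real.exp_nat_mul]; congr 1; push_cast; ring
    rw [h4]
    have h5 := mul_le_mul_of_nonneg_right h3
      (Real.exp_pos (-(2 * (t / √(1 + t₁ ^ 2))) * τ)).le
    have h6 := Real.exp_pos (-2 * τ)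
    linarith
  · have h2 := pow_le_pow_left₀ (norm_nonneg _) (G_neg hK ht h1 hτ) 2
    refine h2.trans ?_
    rw [mul_pow]
    apply mul_le_mul_of_nonneg_left _ (by positivity)
    rw [mul_pow, e2]
    linarith

theorem eI_eq (E h : ℝ → ℂ) {x t : ℝ} (hx : 0 < x) (ht : 0 < t) :
    eI E h (pX x (t * x)) = Complex.exp ((Real.log (2 * Real.pi * x) / 4 : ℝ) : ℂ) *
      ∫ τ : ℝ, G E h t τ * Complex.exp (τ * (Real.log (2 * Real.pi * x) : ℝ) * Complex.I) := by
  have hr : 0 < 2 * Real.pi * x := by positivity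
  have h1 : pX x (t * x) = ((2 * Real.pi * x : ℝ) : ℂ) * ((t : ℂ) - Complex.I) := by
    unfold pX
    push_cast
    ring
  unfold eI
  rw [← integral_const_mul]
  refine integral_congr_ae (Filter.Eventually.of_forall fun τ => ?_)
  have h2 : vl (5 / 4) τ - 1 = (1 / 4 : ℂ) + τ * Complex.I := by
    unfold vl
    push_cast
    ring
  have h3 : (pX x (t * x)) ^ (vl (5 / 4) τ - 1) =
      Complex.exp ((Real.log (2 * Real.pi * x) / 4 : ℝ) : ℂ) *
      (Complex.exp (Complex.log ((t : ℂ) - Complex.I) * ((1 / 4 : ℂ) + τ * Complex.I)) *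
        Complex.exp (τ * (Real.log (2 * Real.pi * x) : ℝ) * Complex.I)) := by
    rw [h2, h1, Complex.cpow_def_of_ne_zero (mul_ne_zero
      (Complex.ofReal_ne_zero.2 hr.ne') (ne_zero ht)), Complex.log_ofReal_mul hr (ne_zero ht),
      ← Complex.exp_add, ← Complex.exp_add]
    congr 1
    push_cast
    ring
  show E τ * (pX x (t * x)) ^ (vl (5 / 4) τ - 1) * h τ = _
  rw [h3]
  unfold G
  ring

end LTE_

/-- **LTE** -/
theorem p_LTE (hLTW : T_LTW) : T_LTE := by
  intro E h C u v t₁ hK hu huv ht₁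
  set K : ℝ := √(1 + t₁ ^ 2) with hKd
  have hK0 : 0 < K := Real.sqrt_pos.2 (by positivity)
  set M : ℝ := C * C * Real.exp (t₁ / 4) with hM
  have hM0 : 0 ≤ M := mul_nonneg (mul_self_nonneg C) (Real.exp_pos _).le
  set s₁ : ℝ := Real.log (2 * Real.pi * u) with hs1
  set s₂ : ℝ := Real.log (2 * Real.pi * v) with hs2
  have hv : 0 < v := hu.trans huv
  have hs12 : s₁ ≤ s₂ := Real.log_le_log (by positivity)
    (mul_le_mul_of_nonneg_left huv.le (by positivity))
  have hGam : 0 < Real.Gamma (1 / 2) := Real.Gamma_pos_of_pos (by norm_num)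
  refine ⟨Real.exp (s₂ / 2) * v * (2 * Real.pi * Real.exp (max |s₁| |s₂| ^ 2) *
    (M ^ 2 * (2 * ((K / 2) ^ (1 / 2 : ℝ) * Real.Gamma (1 / 2)) + 4 * t₁ ^ (1 / 2 : ℝ)))),
    by positivity, ?_⟩
  intro t ht htt
  have hGc := LTE_.cG hK.cE hK.ch t
  have hc0 : 0 < t / K := div_pos ht hK0
  have he1 := Pool.Agent.SelDeg2.ERR_exp hc0
  have he2 := Pool.Agent.SelDeg2.ERR_exp (show (0 : ℝ) < 1 by norm_num)
  have he3 := Pool.Agent.SelDeg2.ERR_exp (show (0 : ℝ) < 2 by norm_num)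
  have he4 := LTE_.pow_int (show 0 < 2 * (t / K) by positivity)
  have hGi : Integrable (LTE_.G E h t) :=
    Integrable.mono' ((he1.1.add (he2.1.const_mul 2)).const_mul M) hGc.aestronglyMeasurable
      (Filter.Eventually.of_forall fun τ => LTE_.G_bd hK ht htt τ)
  have hbi : Integrable (fun τ : ℝ => M ^ 2 *
      (|τ| ^ (-(1 / 2) : ℝ) * Real.exp (-(2 * (t / K)) * |τ|) + 4 * Real.exp (-2 * |τ|))) :=
    (he4.1.add (he3.1.const_mul 4)).const_mul (M ^ 2)
  have hGs : Integrable (fun τ => ‖LTE_.G E h t τ‖ ^ 2) := by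
    refine Integrable.mono' hbi (hGc.norm.pow 2).aestronglyMeasurable
      (Filter.Eventually.of_forall fun τ => ?_)
    rw [Real.norm_of_nonneg (by positivity)]
    exact LTE_.G_sq hK ht htt τ
  have hL := hLTW (LTE_.G E h t) s₁ s₂ hGc hGi hGs hs12
  have hI : ∫ τ : ℝ, ‖LTE_.G E h t τ‖ ^ 2 ≤ M ^ 2 *
      (2 * ((K / 2) ^ (1 / 2 : ℝ) * Real.Gamma (1 / 2)) + 4 * t₁ ^ (1 / 2 : ℝ)) *
      t ^ (-(1 / 2) : ℝ) := by
    have h1 := integral_mono hGs hbi (fun τ => LTE_.G_sq hK ht htt τ)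
    refine h1.trans ?_
    rw [integral_const_mul, mul_assoc]
    apply mul_le_mul_of_nonneg_left _ (by positivity)
    rw [integral_add he4.1 (he3.1.const_mul 4), integral_const_mul, he4.2, he3.2, add_mul]
    have e1 : (1 / (2 * (t / K))) ^ (1 / 2 : ℝ) = (K / 2) ^ (1 / 2 : ℝ) * t ^ (-(1 / 2) : ℝ) := by
      rw [Real.rpow_neg ht.le, ← Real.inv_rpow ht.le, ← Real.mul_rpow (by positivity)
        (by positivity)]
      congr 1
      field_simp
    rw [e1]
    have e2 : (1 : ℝ) ≤ t₁ ^ (1 / 2 : ℝ) * t ^ (-(1 / 2) : ℝ) := by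
      rw [Real.rpow_neg ht.le, ← div_eq_mul_inv, one_le_div (by positivity)]
      exact Real.rpow_le_rpow ht.le htt (by norm_num)
    have e3 : 2 * ((K / 2) ^ (1 / 2 : ℝ) * t ^ (-(1 / 2) : ℝ) * Real.Gamma (1 / 2)) =
      2 * ((K / 2) ^ (1 / 2 : ℝ) * Real.Gamma (1 / 2)) * t ^ (-(1 / 2) : ℝ) := by ring
    rw [e3]
    linarith
  -- the change of variables
  set Φ : ℝ → ℝ := fun s => ‖∫ τ : ℝ, LTE_.G E h t τ *
    Complex.exp (τ * s * Complex.I)‖ ^ 2 with hΦ
  have hΦc : Continuous Φ := by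
    have : Continuous (fun s : ℝ => ∫ τ : ℝ, LTE_.G E h t τ *
        Complex.exp (τ * s * Complex.I)) := by
      refine continuous_of_dominated (bound := fun τ => ‖LTE_.G E h t τ‖) ?_ ?_ hGi.norm ?_
      · intro s
        exact (hGc.mul (by fun_prop)).aestronglyMeasurable
      · intro s
        refine Filter.Eventually.of_forall fun τ => ?_
        rw [norm_mul]
        have : ‖Complex.exp (τ * s * Complex.I)‖ = 1 := by
          rw [← Complex.ofReal_mul, Complex.norm_exp_ofReal_mul_I]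
        rw [this, mul_one]
      · refine Filter.Eventually.of_forall fun τ => ?_
        fun_prop
    exact this.norm.pow 2
  have hΦ0 : ∀ s, 0 ≤ Φ s := fun s => by positivity
  have hder : ∀ x ∈ Set.uIcc u v, HasDerivAt (fun x : ℝ => Real.log (2 * Real.pi * x)) x⁻¹ x := by
    intro x hx
    rw [Set.uIcc_of_le huv.le] at hx
    have hx0 : 0 < x := hu.trans_le hx.1
    have h1 : HasDerivAt (fun x : ℝ => 2 * Real.pi * x) (2 * Real.pi * 1) x :=
      (hasDerivAt_id x).const_mul (2 * Real.pi)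
    have h2 := h1.log (by positivity)
    convert h2 using 1
    field_simp
  have hcv := intervalIntegral.integral_comp_mul_deriv (a := u) (b := v) (g := Φ) hder
    (by
      refine ContinuousOn.inv₀ continuousOn_id ?_
      intro x hx
      rw [Set.uIcc_of_le huv.le] at hx
      exact (hu.trans_le hx.1).ne') hΦc
  have hcl : ContinuousOn (fun x : ℝ => Real.log (2 * Real.pi * x)) (Set.uIcc u v) :=
    fun x hx => (hder x hx).continuousAt.continuousWithinAt
  have hcΦ : ContinuousOn (fun x : ℝ => Φ (Real.log (2 * Real.pi * x))) (Set.uIcc u v) :=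
    hΦc.comp_continuousOn hcl
  have hcinv : ContinuousOn (fun x : ℝ => x⁻¹) (Set.uIcc u v) := by
    refine ContinuousOn.inv₀ continuousOn_id ?_
    intro x hx
    rw [Set.uIcc_of_le huv.le] at hx
    exact (hu.trans_le hx.1).ne'
  have hstep : ∫ x in u..v, ‖eI E h (pX x (t * x))‖ ^ 2 ≤
      Real.exp (s₂ / 2) * v * ∫ s in s₁..s₂, Φ s := by
    have h1 : ∫ x in u..v, ‖eI E h (pX x (t * x))‖ ^ 2 =
        ∫ x in u..v, Real.exp (Real.log (2 * Real.pi * x) / 2) *
          Φ (Real.log (2 * Real.pi * x)) := by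
      refine intervalIntegral.integral_congr fun x hx => ?_
      rw [Set.uIcc_of_le huv.le] at hx
      have hx0 : 0 < x := hu.trans_le hx.1
      show ‖eI E h (pX x (t * x))‖ ^ 2 = _
      rw [LTE_.eI_eq E h hx0 ht, norm_mul, mul_pow, Complex.norm_exp, Complex.ofReal_re,
        ← Real.exp_nat_mul]
      congr 2
      push_cast
      ring
    rw [h1, ← hcv, ← intervalIntegral.integral_const_mul]
    apply intervalIntegral.integral_mono_on huv.le
    · apply ContinuousOn.intervalIntegrable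
      exact (Real.continuous_exp.comp_continuousOn (hcl.div_const 2)).mul hcΦ
    · apply ContinuousOn.intervalIntegrable
      exact continuousOn_const.mul (hcΦ.mul hcinv)
    · intro x hx
      have hx0 : 0 < x := hu.trans_le hx.1
      have h2 : Real.exp (Real.log (2 * Real.pi * x) / 2) ≤ Real.exp (s₂ / 2) := by
        apply Real.exp_le_exp.2
        have : Real.log (2 * Real.pi * x) ≤ s₂ := Real.log_le_log (by positivity)
          (mul_le_mul_of_nonneg_left hx.2 (by positivity))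
        linarith
      have h3 : 1 ≤ v * x⁻¹ := by
        rw [← div_eq_mul_inv, one_le_div hx0]
        exact hx.2
      have h4 := hΦ0 (Real.log (2 * Real.pi * x))
      show Real.exp (Real.log (2 * Real.pi * x) / 2) * Φ (Real.log (2 * Real.pi * x)) ≤
        Real.exp (s₂ / 2) * v * (Φ (Real.log (2 * Real.pi * x)) * x⁻¹)
      calc Real.exp (Real.log (2 * Real.pi * x) / 2) * Φ (Real.log (2 * Real.pi * x))
          ≤ Real.exp (s₂ / 2) * Φ (Real.log (2 * Real.pi * x)) :=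
            mul_le_mul_of_nonneg_right h2 h4
        _ ≤ Real.exp (s₂ / 2) * Φ (Real.log (2 * Real.pi * x)) * (v * x⁻¹) :=
            le_mul_of_one_le_right (by positivity) h3
        _ = _ := by ring
  refine hstep.trans ?_
  have h9 : ∫ s in s₁..s₂, Φ s ≤ 2 * Real.pi * Real.exp (max |s₁| |s₂| ^ 2) *
      (M ^ 2 * (2 * ((K / 2) ^ (1 / 2 : ℝ) * Real.Gamma (1 / 2)) + 4 * t₁ ^ (1 / 2 : ℝ)) *
      t ^ (-(1 / 2) : ℝ)) :=
    hL.trans (mul_le_mul_of_nonneg_left hI (by positivity))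
  have h10 := mul_le_mul_of_nonneg_left h9 (show 0 ≤ Real.exp (s₂ / 2) * v by positivity)
  refine h10.trans (le_of_eq ?_)
  ring

end Pool.Agent.SelQ
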