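import Pool.Agent.SelQ.TargetsE
import Pool.Agent.SelDeg2.ERR

/-!
# F4 LTI: the error in the strip
-/

set_option autoImplicit false

open MeasureTheory Filter Topology Set Complex

namespace Pool.Agent.SelQ

open Pool.Agent.SelTwo (lam pX vl cj tw gP)

theorem LTI_bound (E h : ℝ → ℂ) (C K δ : ℝ) (hB : KB E h C) (X : ℂ) (hre : 0 < X.re)
    (him : X.im < 0) (hXK : ‖X‖ ≤ K) (hδ : δ ≤ Real.pi / 2 + arg X) (τ : ℝ) :
    ‖E τ * X ^ (vl (5 / 4) τ - 1) * h τ‖ ≤
      C * K ^ (1 / 4 : ℝ) * C * (Real.exp (-(1 / 2) * |τ|) + Real.exp (-δ * |τ|)) := by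
  have hC := hB.C0
  have hX0 : X ≠ 0 := by
    intro h0
    rw [h0] at hre
    simp at hre
  have hnX : 0 < ‖X‖ := norm_pos_iff.2 hX0
  have hK0 : 0 < K := hnX.trans_le hXK
  have harg0 : arg X < 0 := arg_neg_iff.2 him
  have hw : ‖X ^ (vl (5 / 4) τ - 1)‖ = ‖X‖ ^ (1 / 4 : ℝ) * Real.exp (-(arg X * τ)) := by
    rw [norm_cpow_of_ne_zero hX0, Real.exp_neg]
    have h1 : (vl (5 / 4) τ - 1).re = 1 / 4 := by
      simp [vl]; norm_num
    have h2 : (vl (5 / 4) τ - 1).im = τ := by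
      simp [vl]
    rw [h1, h2]
    rfl
  have hpow : ‖X‖ ^ (1 / 4 : ℝ) ≤ K ^ (1 / 4 : ℝ) :=
    Real.rpow_le_rpow hnX.le hXK (by norm_num)
  have hEX : ‖E τ‖ * Real.exp (-(arg X * τ)) ≤
      C * (Real.exp (-(1 / 2) * |τ|) + Real.exp (-δ * |τ|)) := by
    rcases le_total 0 τ with hτ | hτ
    · have h1 := hB.up τ hτ
      rw [abs_of_nonneg hτ]
      have h2 : (1 + τ) ^ (-(1 / 4) : ℝ) ≤ 1 :=
        Real.rpow_le_one_of_one_le_of_nonpos (by linarith) (by norm_num)
      calc ‖E τ‖ * Real.exp (-(arg X * τ))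
          ≤ C * (1 + τ) ^ (-(1 / 4) : ℝ) * Real.exp (-(Real.pi * τ / 2)) *
            Real.exp (-(arg X * τ)) := by gcongr
        _ = C * ((1 + τ) ^ (-(1 / 4) : ℝ) *
            Real.exp (-(Real.pi / 2 + arg X) * τ)) := by
            rw [mul_assoc, ← Real.exp_add, mul_assoc]; ring_nf
        _ ≤ C * (1 * Real.exp (-δ * τ)) := by
            gcongr
        _ ≤ C * (Real.exp (-(1 / 2) * τ) + Real.exp (-δ * τ)) := by
            gcongr
            linarith [Real.exp_pos (-(1 / 2) * τ)]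
    · have h1 := hB.dn τ hτ
      have h2 : 1 + |τ| ≤ Real.exp |τ| := by linarith [Real.add_one_le_exp |τ|]
      have h3 : Real.exp (-(arg X * τ)) ≤ 1 := by
        rw [Real.exp_le_one_iff]
        nlinarith
      calc ‖E τ‖ * Real.exp (-(arg X * τ))
          ≤ (C * (1 + |τ|) * Real.exp (Real.pi * τ / 2)) * 1 := by gcongr
        _ ≤ C * Real.exp |τ| * Real.exp (Real.pi * τ / 2) := by
            rw [mul_one]; gcongr
        _ = C * Real.exp (|τ| + Real.pi * τ / 2) := by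
            rw [mul_assoc, ← Real.exp_add]
        _ ≤ C * Real.exp (-(1 / 2) * |τ|) := by
            gcongr
            rw [abs_of_nonpos hτ]
            nlinarith [Real.pi_gt_three]
        _ ≤ C * (Real.exp (-(1 / 2) * |τ|) + Real.exp (-δ * |τ|)) := by
            gcongr
            linarith [Real.exp_pos (-δ * |τ|)]
  calc ‖E τ * X ^ (vl (5 / 4) τ - 1) * h τ‖
      = (‖E τ‖ * Real.exp (-(arg X * τ))) * ‖X‖ ^ (1 / 4 : ℝ) * ‖h τ‖ := by
        rw [norm_mul, norm_mul, hw]; ring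
    _ ≤ (C * (Real.exp (-(1 / 2) * |τ|) + Real.exp (-δ * |τ|))) * K ^ (1 / 4 : ℝ) * C := by
        have := hB.bh τ
        gcongr
    _ = C * K ^ (1 / 4 : ℝ) * C * (Real.exp (-(1 / 2) * |τ|) + Real.exp (-δ * |τ|)) := by
        ring

theorem LTI_cont (E h : ℝ → ℂ) (C : ℝ) (hB : KB E h C) :
    ContinuousOn (fun X : ℂ => eI E h X) {X : ℂ | 0 < X.re ∧ X.im < 0} := by
  rintro X₀ ⟨hre, him⟩
  apply ContinuousAt.continuousWithinAt
  have harg : ContinuousAt arg X₀ := continuousAt_arg (Or.inl hre)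
  have harg1 : -(Real.pi / 2) < arg X₀ :=
    (abs_lt.1 (abs_arg_lt_pi_div_two_iff.2 (Or.inl hre))).1
  have hδ0 : 0 < (Real.pi / 2 + arg X₀) / 2 := by linarith
  have e1 : ∀ᶠ X in 𝓝 X₀, 0 < X.re := continuous_re.continuousAt.eventually (lt_mem_nhds hre)
  have e2 : ∀ᶠ X in 𝓝 X₀, X.im < 0 := continuous_im.continuousAt.eventually (gt_mem_nhds him)
  have e3 : ∀ᶠ X in 𝓝 X₀, ‖X‖ < ‖X₀‖ + 1 :=
    continuous_norm.continuousAt.eventually (gt_mem_nhds (by linarith))
  have e4 : ∀ᶠ X in 𝓝 X₀, (Real.pi / 2 + arg X₀) / 2 < Real.pi / 2 + arg X :=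
    (continuousAt_const.add harg).eventually (lt_mem_nhds (by simp only [Pi.add_apply]; linarith))
  have hvc : Continuous (fun τ : ℝ => vl (5 / 4) τ - 1) := by
    unfold vl
    fun_prop
  unfold eI
  refine continuousAt_of_dominated (bound := fun τ => C * (‖X₀‖ + 1) ^ (1 / 4 : ℝ) * C *
    (Real.exp (-(1 / 2) * |τ|) + Real.exp (-((Real.pi / 2 + arg X₀) / 2) * |τ|))) ?_ ?_ ?_ ?_
  · filter_upwards [e1] with X hX
    have hX0 : X ≠ 0 := by
      intro h0
      rw [h0] at hX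
      simp at hX
    exact ((hB.cE.mul (hvc.const_cpow (Or.inl hX0))).mul hB.ch).aestronglyMeasurable
  · filter_upwards [e1, e2, e3, e4] with X h1 h2 h3 h4
    exact Eventually.of_forall fun τ => LTI_bound E h C _ _ hB X h1 h2 h3.le h4.le τ
  · exact ((Pool.Agent.SelDeg2.ERR_exp (δ := 1 / 2) (by norm_num)).1.add
      (Pool.Agent.SelDeg2.ERR_exp hδ0).1).const_mul _
  · refine Eventually.of_forall fun τ => ?_
    exact (continuousAt_const.mul (continuousAt_id.cpow continuousAt_const (Or.inl hre))).mul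
      continuousAt_const

theorem LTI_pX_re (x y : ℝ) : (pX x y).re = 2 * Real.pi * y := by
  simp [pX]

theorem LTI_pX_im (x y : ℝ) : (pX x y).im = -(2 * Real.pi * x) := by
  simp [pX]

theorem LTI_contf (E h : ℝ → ℂ) (C : ℝ) (hB : KB E h C) :
    ContinuousOn (fun p : ℝ × ℝ => ‖eI E h (pX p.1 p.2)‖ ^ 2)
      {p : ℝ × ℝ | 0 < p.1 ∧ 0 < p.2} := by
  have h1 := LTI_cont E h C hB
  have h2 : Continuous (fun p : ℝ × ℝ => pX p.1 p.2) := by
    unfold pX
    fun_prop
  refine ContinuousOn.pow (ContinuousOn.norm (h1.comp h2.continuousOn ?_)) 2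
  rintro ⟨x, y⟩ ⟨hx, hy⟩
  have := Real.pi_pos
  constructor
  · rw [LTI_pX_re]
    simp only at hy
    positivity
  · rw [LTI_pX_im]
    simp only at hx
    have : 0 < 2 * Real.pi * x := by positivity
    simpa using this

theorem p_LTI (hLTE : T_LTE) : T_LTI := by
  intro E h C u v hB hu huv
  refine ⟨LTI_cont E h C hB, ?_⟩
  obtain ⟨C', hC', hC1⟩ := hLTE E h C u v (1 / u) hB hu huv (by positivity)
  have hv : 0 < v := hu.trans huv
  refine ⟨v ^ (3 / 4 : ℝ) * (C' * (4 * (1 / u) ^ (1 / 4 : ℝ))), by positivity, ?_⟩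
  intro δ hδ hδ1
  have hδv : 0 < δ / v := by positivity
  have hδu : δ / v ≤ 1 / u := by
    rw [div_le_div_iff₀ hv hu]
    nlinarith
  have hf := LTI_contf E h C hB
  set f : ℝ × ℝ → ℝ := fun p => ‖eI E h (pX p.1 p.2)‖ ^ 2 with hfdef
  -- the substituted integrand
  have hg : ContinuousOn (fun p : ℝ × ℝ => p.2 ^ (-(1 / 4) : ℝ) * f (p.1, p.2 * p.1))
      (Icc u v ×ˢ Icc (δ / v) (1 / u)) := by
    refine ContinuousOn.mul ?_ ?_
    · refine ContinuousOn.rpow_const continuous_snd.continuousOn ?_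
      rintro ⟨x, t⟩ ⟨-, ht⟩
      left
      simp only at ht ⊢
      have := ht.1
      exact (hδv.trans_le this).ne'
    · refine hf.comp (Continuous.continuousOn (by fun_prop)) ?_
      rintro ⟨x, t⟩ ⟨hx, ht⟩
      simp only [mem_Icc] at hx ht
      constructor
      · exact hu.trans_le hx.1
      · exact mul_pos (hδv.trans_le ht.1) (hu.trans_le hx.1)
  have hgi : IntegrableOn (fun p : ℝ × ℝ => p.2 ^ (-(1 / 4) : ℝ) * f (p.1, p.2 * p.1))
      (Icc u v ×ˢ Icc (δ / v) (1 / u)) :=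
    hg.integrableOn_compact (isCompact_Icc.prod isCompact_Icc)
  have hsub : uIoc u v ×ˢ uIoc (δ / v) (1 / u) ⊆ Icc u v ×ˢ Icc (δ / v) (1 / u) := by
    rw [uIoc_of_le huv.le, uIoc_of_le hδu]
    exact prod_mono Ioc_subset_Icc_self Ioc_subset_Icc_self
  have hgi2 := hgi.mono_set hsub
  -- inner estimate
  have hinner : ∀ x ∈ Icc u v, ∫ y in δ..1, y ^ (-(1 / 4) : ℝ) * f (x, y) ≤
      v ^ (3 / 4 : ℝ) * ∫ t in (δ / v)..(1 / u), t ^ (-(1 / 4) : ℝ) * f (x, t * x) := by
    intro x hx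
    have hx0 : 0 < x := hu.trans_le hx.1
    have h1 : ∫ y in δ..1, y ^ (-(1 / 4) : ℝ) * f (x, y) =
        x * ∫ t in (δ / x)..(1 / x), (t * x) ^ (-(1 / 4) : ℝ) * f (x, t * x) := by
      rw [intervalIntegral.mul_integral_comp_mul_right
        (f := fun y => y ^ (-(1 / 4) : ℝ) * f (x, y))]
      rw [div_mul_cancel₀ _ hx0.ne', div_mul_cancel₀ _ hx0.ne']
    have hle : δ / x ≤ 1 / x := by gcongr
    have hδx : 0 < δ / x := by positivity
    have h2 : ∫ t in (δ / x)..(1 / x), (t * x) ^ (-(1 / 4) : ℝ) * f (x, t * x) =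
        x ^ (-(1 / 4) : ℝ) * ∫ t in (δ / x)..(1 / x), t ^ (-(1 / 4) : ℝ) * f (x, t * x) := by
      rw [← intervalIntegral.integral_const_mul]
      refine intervalIntegral.integral_congr fun t ht => ?_
      rw [uIcc_of_le hle] at ht
      have ht0 : 0 < t := hδx.trans_le ht.1
      rw [Real.mul_rpow ht0.le hx0.le]
      ring
    have hci : ContinuousOn (fun t => t ^ (-(1 / 4) : ℝ) * f (x, t * x))
        (Icc (δ / v) (1 / u)) := by
      have := hg.comp (f := fun t : ℝ => (x, t)) (s := Icc (δ / v) (1 / u))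
        (Continuous.continuousOn (by fun_prop)) (fun t ht => ⟨hx, ht⟩)
      exact this
    have h3 : ∫ t in (δ / x)..(1 / x), t ^ (-(1 / 4) : ℝ) * f (x, t * x) ≤
        ∫ t in (δ / v)..(1 / u), t ^ (-(1 / 4) : ℝ) * f (x, t * x) := by
      refine intervalIntegral.integral_mono_interval ?_ hle ?_ ?_ ?_
      · have := hx.2
        gcongr
      · have := hx.1
        gcongr
      · refine (ae_restrict_iff' measurableSet_Ioc).2 (Eventually.of_forall fun t ht => ?_)
        have ht0 : 0 < t := hδv.trans ht.1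
        change 0 ≤ t ^ (-(1 / 4) : ℝ) * ‖eI E h (pX x (t * x))‖ ^ 2
        positivity
      · exact hci.intervalIntegrable_of_Icc hδu
    have h4 : 0 ≤ ∫ t in (δ / v)..(1 / u), t ^ (-(1 / 4) : ℝ) * f (x, t * x) := by
      refine intervalIntegral.integral_nonneg hδu fun t ht => ?_
      have ht0 : 0 < t := hδv.trans_le ht.1
      simp only [hfdef]
      positivity
    have h5 : x * x ^ (-(1 / 4) : ℝ) = x ^ (3 / 4 : ℝ) := by
      nth_rewrite 1 [← Real.rpow_one x]
      rw [← Real.rpow_add hx0]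
      norm_num
    have h6 : x ^ (3 / 4 : ℝ) ≤ v ^ (3 / 4 : ℝ) :=
      Real.rpow_le_rpow hx0.le hx.2 (by norm_num)
    rw [h1, h2, ← mul_assoc, h5]
    have h7 : 0 ≤ x ^ (3 / 4 : ℝ) := by positivity
    calc x ^ (3 / 4 : ℝ) * ∫ t in (δ / x)..(1 / x), t ^ (-(1 / 4) : ℝ) * f (x, t * x)
        ≤ x ^ (3 / 4 : ℝ) * ∫ t in (δ / v)..(1 / u), t ^ (-(1 / 4) : ℝ) * f (x, t * x) := by
          gcongr
      _ ≤ _ := by gcongr
  -- Fubini
  have hswap := intervalIntegral_intervalIntegral_swap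
    (F := fun x t => t ^ (-(1 / 4) : ℝ) * f (x, t * x)) (a := u) (b := v)
    (c := δ / v) (d := 1 / u) hgi2
  have hint : IntervalIntegrable (fun x => ∫ t in (δ / v)..(1 / u),
      t ^ (-(1 / 4) : ℝ) * f (x, t * x)) volume u v := by
    rw [intervalIntegrable_iff]
    have h1 : Integrable (Function.uncurry fun x t => t ^ (-(1 / 4) : ℝ) * f (x, t * x))
        ((volume.restrict (uIoc u v)).prod (volume.restrict (uIoc (δ / v) (1 / u)))) := by
      rw [Measure.prod_restrict]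
      exact hgi2
    have h2 := h1.integral_prod_left
    refine h2.congr (Eventually.of_forall fun x => ?_)
    simp only [Function.uncurry_apply_pair]
    rw [intervalIntegral.integral_of_le hδu, uIoc_of_le hδu]
  have hint2 : IntervalIntegrable (fun t => ∫ x in u..v,
      t ^ (-(1 / 4) : ℝ) * f (x, t * x)) volume (δ / v) (1 / u) := by
    rw [intervalIntegrable_iff]
    have h1 : Integrable (Function.uncurry fun x t => t ^ (-(1 / 4) : ℝ) * f (x, t * x))
        ((volume.restrict (uIoc u v)).prod (volume.restrict (uIoc (δ / v) (1 / u)))) := by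
      rw [Measure.prod_restrict]
      exact hgi2
    have h2 := h1.integral_prod_right
    refine h2.congr (Eventually.of_forall fun t => ?_)
    simp only [Function.uncurry_apply_pair]
    rw [intervalIntegral.integral_of_le huv.le, uIoc_of_le huv.le]
  -- the outer integral
  have houter : ∫ x in u..v, ∫ y in δ..1, y ^ (-(1 / 4) : ℝ) * f (x, y) ≤
      v ^ (3 / 4 : ℝ) * ∫ x in u..v, ∫ t in (δ / v)..(1 / u),
        t ^ (-(1 / 4) : ℝ) * f (x, t * x) := by
    have hpos : ∀ x ∈ Icc u v, 0 ≤ ∫ t in (δ / v)..(1 / u),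
        t ^ (-(1 / 4) : ℝ) * f (x, t * x) := by
      intro x _
      refine intervalIntegral.integral_nonneg hδu fun t ht => ?_
      have ht0 : 0 < t := hδv.trans_le ht.1
      simp only [hfdef]
      positivity
    by_cases hi : IntervalIntegrable (fun x => ∫ y in δ..1, y ^ (-(1 / 4) : ℝ) * f (x, y))
        volume u v
    · rw [← intervalIntegral.integral_const_mul]
      exact intervalIntegral.integral_mono_on huv.le hi (hint.const_mul _) hinner
    · rw [intervalIntegral.integral_undef hi]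
      exact mul_nonneg (by positivity) (intervalIntegral.integral_nonneg huv.le hpos)
  have hin2 : ∀ t ∈ Icc (δ / v) (1 / u), ∫ x in u..v, t ^ (-(1 / 4) : ℝ) * f (x, t * x) ≤
      C' * t ^ (-(3 / 4) : ℝ) := by
    intro t ht
    have ht0 : 0 < t := hδv.trans_le ht.1
    rw [intervalIntegral.integral_const_mul]
    have h1 := hC1 t ht0 ht.2
    have h2 : t ^ (-(1 / 4) : ℝ) * t ^ (-(1 / 2) : ℝ) = t ^ (-(3 / 4) : ℝ) := by
      rw [← Real.rpow_add ht0]
      norm_num
    calc t ^ (-(1 / 4) : ℝ) * ∫ x in u..v, f (x, t * x)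
        ≤ t ^ (-(1 / 4) : ℝ) * (C' * t ^ (-(1 / 2) : ℝ)) := by
          gcongr
      _ = C' * (t ^ (-(1 / 4) : ℝ) * t ^ (-(1 / 2) : ℝ)) := by ring
      _ = C' * t ^ (-(3 / 4) : ℝ) := by rw [h2]
  have hfin : ∫ t in (δ / v)..(1 / u), C' * t ^ (-(3 / 4) : ℝ) ≤
      C' * (4 * (1 / u) ^ (1 / 4 : ℝ)) := by
    rw [intervalIntegral.integral_const_mul, integral_rpow (Or.inl (by norm_num))]
    have e : (-(3 / 4) + 1 : ℝ) = 1 / 4 := by norm_num
    rw [e]
    have : 0 ≤ (δ / v) ^ (1 / 4 : ℝ) := by positivity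
    refine mul_le_mul_of_nonneg_left ?_ hC'
    rw [div_eq_mul_inv]
    have e2 : ((1 / 4 : ℝ))⁻¹ = 4 := by norm_num
    rw [e2]
    linarith
  have hint3 : IntervalIntegrable (fun t : ℝ => C' * t ^ (-(3 / 4) : ℝ)) volume
      (δ / v) (1 / u) :=
    (intervalIntegral.intervalIntegrable_rpow' (by norm_num)).const_mul _
  calc ∫ x in u..v, ∫ y in δ..1, y ^ (-(1 / 4) : ℝ) * ‖eI E h (pX x y)‖ ^ 2
      ≤ v ^ (3 / 4 : ℝ) * ∫ x in u..v, ∫ t in (δ / v)..(1 / u),
        t ^ (-(1 / 4) : ℝ) * f (x, t * x) := houter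
    _ = v ^ (3 / 4 : ℝ) * ∫ t in (δ / v)..(1 / u), ∫ x in u..v,
        t ^ (-(1 / 4) : ℝ) * f (x, t * x) := by rw [hswap]
    _ ≤ v ^ (3 / 4 : ℝ) * ∫ t in (δ / v)..(1 / u), C' * t ^ (-(3 / 4) : ℝ) := by
        refine mul_le_mul_of_nonneg_left ?_ (by positivity)
        exact intervalIntegral.integral_mono_on hδu hint2 hint3 hin2
    _ ≤ v ^ (3 / 4 : ℝ) * (C' * (4 * (1 / u) ^ (1 / 4 : ℝ))) := by
        gcongr

end Pool.Agent.SelQ
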