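import Pool.Agent.SelQ.TargetsE

set_option autoImplicit false

/-! # Local mean square of a trigonometric integral (MP_995735_nt, target LTW) -/

namespace Pool.Agent.SelQ
namespace LTW_

open MeasureTheory Complex

lemma gauss_ft (r : ℝ) : ‖∫ s : ℝ, Complex.exp (-1 * (s : ℂ) ^ 2 + (r * I) * s + 0)‖ ≤
    Real.sqrt Real.pi * Real.exp (-(1 / 4) * r ^ 2) := by
  rw [integral_cexp_quadratic (by norm_num) (r * I) 0, norm_mul]
  apply le_of_eq
  congr 1
  · have e1 : ((Real.pi : ℂ) / -(-1)) = ((Real.pi : ℝ) : ℂ) := by norm_num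
    have e2 : (1 / 2 : ℂ) = (((1 / 2 : ℝ)) : ℂ) := by norm_num
    rw [e1, e2, ← ofReal_cpow Real.pi_pos.le, Complex.norm_real,
      Real.norm_of_nonneg (by positivity), Real.sqrt_eq_rpow]
  · have e1 : (0 - (r * I) ^ 2 / (4 * (-1)) : ℂ) = ((-(1 / 4) * r ^ 2 : ℝ) : ℂ) := by
      push_cast
      rw [mul_pow, I_sq]
      ring
    rw [e1, ← ofReal_exp, Complex.norm_real, Real.norm_of_nonneg (by positivity)]

/-- the integral transform -/
noncomputable def FT (G : ℝ → ℂ) (s : ℝ) : ℂ := ∫ τ : ℝ, G τ * Complex.exp (τ * s * I)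

lemma norm_e (τ s : ℝ) : ‖Complex.exp (τ * s * I)‖ = 1 := by
  have : (τ * s * I : ℂ) = ((τ * s : ℝ) : ℂ) * I := by push_cast; ring
  rw [this]
  exact Complex.norm_exp_ofReal_mul_I _

lemma FT_cont (G : ℝ → ℂ) (hG : Continuous G) (hi : Integrable G) : Continuous (FT G) := by
  unfold FT
  refine continuous_of_dominated (bound := fun τ => ‖G τ‖) (fun s => ?_) (fun s => ?_) hi.norm ?_
  · exact (by fun_prop : Continuous fun τ : ℝ => G τ * Complex.exp (τ * s * I)).aestronglyMeasurable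
  · refine Filter.Eventually.of_forall fun τ => ?_
    rw [norm_mul, norm_e, mul_one]
  · exact Filter.Eventually.of_forall fun τ => by fun_prop

lemma FT_bd (G : ℝ → ℂ) (s : ℝ) : ‖FT G s‖ ≤ ∫ τ : ℝ, ‖G τ‖ := by
  unfold FT
  refine (norm_integral_le_integral_norm _).trans (le_of_eq ?_)
  congr 1
  funext τ
  rw [norm_mul, norm_e, mul_one]

/-- the square as an integral over the plane -/
lemma FT_sq (G : ℝ → ℂ) (s : ℝ) : ((‖FT G s‖ ^ 2 : ℝ) : ℂ) =
    ∫ z : ℝ × ℝ, (G z.1 * Complex.exp (z.1 * s * I)) *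
      (starRingEnd ℂ) (G z.2 * Complex.exp (z.2 * s * I)) := by
  rw [show (volume : Measure (ℝ × ℝ)) = (volume : Measure ℝ).prod volume from rfl,
    integral_prod_mul (fun τ : ℝ => G τ * Complex.exp (τ * s * I))
      (fun τ : ℝ => (starRingEnd ℂ) (G τ * Complex.exp (τ * s * I))), integral_conj]
  have h := Complex.mul_conj (FT G s)
  unfold FT at h ⊢
  rw [h, Complex.normSq_eq_norm_sq]

lemma key (G : ℝ → ℂ) (hG : Continuous G) (hi : Integrable G)
    (h2 : Integrable (fun τ => ‖G τ‖ ^ 2)) :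
    ∫ s : ℝ, Real.exp (-1 * s ^ 2) * ‖FT G s‖ ^ 2 ≤ 2 * Real.pi * ∫ τ : ℝ, ‖G τ‖ ^ 2 := by
  have hge : Integrable (fun s : ℝ => Real.exp (-1 * s ^ 2)) :=
    integrable_exp_neg_mul_sq one_pos
  have hgq : Integrable (fun s : ℝ => Real.exp (-(1 / 4) * s ^ 2)) :=
    integrable_exp_neg_mul_sq (by norm_num)
  -- the triple integrand
  obtain ⟨H, hH⟩ : ∃ H : ℝ → ℝ × ℝ → ℂ, H = fun s z =>
      (Real.exp (-1 * s ^ 2) : ℂ) * ((G z.1 * Complex.exp (z.1 * s * I)) *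
      (starRingEnd ℂ) (G z.2 * Complex.exp (z.2 * s * I))) := ⟨_, rfl⟩
  have hHc : Continuous (Function.uncurry H) := by
    rw [hH]
    unfold Function.uncurry
    fun_prop
  have hHn : ∀ s z, ‖H s z‖ = Real.exp (-1 * s ^ 2) * (‖G z.1‖ * ‖G z.2‖) := by
    intro s z
    rw [hH]
    simp only [norm_mul, RCLike.norm_conj, norm_e, mul_one]
    rw [Complex.norm_real, Real.norm_of_nonneg (by positivity)]
  have hHi : Integrable (Function.uncurry H) ((volume : Measure ℝ).prod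
      (volume : Measure (ℝ × ℝ))) := by
    have h3 : Integrable (fun z : ℝ × ℝ => ‖G z.1‖ * ‖G z.2‖) := hi.norm.mul_prod hi.norm
    have h4 : Integrable (fun w : ℝ × (ℝ × ℝ) => Real.exp (-1 * w.1 ^ 2) *
      (‖G w.2.1‖ * ‖G w.2.2‖)) ((volume : Measure ℝ).prod (volume : Measure (ℝ × ℝ))) :=
      hge.mul_prod h3
    refine h4.mono' hHc.aestronglyMeasurable (Filter.Eventually.of_forall fun w => ?_)
    exact (hHn w.1 w.2).le
  -- left side
  have hL : ((∫ s : ℝ, Real.exp (-1 * s ^ 2) * ‖FT G s‖ ^ 2 : ℝ) : ℂ) = ∫ s : ℝ, ∫ z, H s z := by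
    rw [← integral_complex_ofReal]
    congr 1
    funext s
    rw [hH]
    dsimp only
    rw [integral_const_mul, ← FT_sq]
    push_cast
    rfl
  rw [integral_integral_swap hHi] at hL
  have hin : ∀ z : ℝ × ℝ, ‖∫ s, H s z‖ ≤
      Real.sqrt Real.pi * (‖G z.1‖ * ‖G z.2‖ * Real.exp (-(1 / 4) * (z.1 - z.2) ^ 2)) := by
    intro z
    have e1 : (fun s => H s z) = fun s : ℝ => (G z.1 * (starRingEnd ℂ) (G z.2)) *
        Complex.exp (-1 * (s : ℂ) ^ 2 + (((z.1 - z.2 : ℝ) : ℂ) * I) * s + 0) := by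
      funext s
      rw [hH]
      dsimp only
      rw [map_mul, ← Complex.exp_conj, map_mul, map_mul, conj_ofReal, conj_ofReal, conj_I,
        ofReal_exp]
      have e2 : (((-1 * s ^ 2 : ℝ) : ℂ)).exp * (G z.1 * (z.1 * s * I : ℂ).exp *
          ((starRingEnd ℂ) (G z.2) * (z.2 * s * -I : ℂ).exp)) =
          (G z.1 * (starRingEnd ℂ) (G z.2)) * ((((-1 * s ^ 2 : ℝ) : ℂ)).exp *
            (z.1 * s * I : ℂ).exp * (z.2 * s * -I : ℂ).exp) := by ring
      rw [e2, ← Complex.exp_add, ← Complex.exp_add]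
      congr 2
      push_cast
      ring
    rw [e1, integral_const_mul, norm_mul, norm_mul, RCLike.norm_conj]
    have := gauss_ft (z.1 - z.2)
    calc ‖G z.1‖ * ‖G z.2‖ * _ ≤ ‖G z.1‖ * ‖G z.2‖ *
        (Real.sqrt Real.pi * Real.exp (-(1 / 4) * (z.1 - z.2) ^ 2)) :=
          mul_le_mul_of_nonneg_left this (by positivity)
      _ = _ := by ring
  -- the double integrals
  have hc2 : Integrable (fun z : ℝ × ℝ => ‖G z.2‖ ^ 2 * Real.exp (-(1 / 4) * (z.1 - z.2) ^ 2)) :=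
    Integrable.convolution_integrand (ContinuousLinearMap.mul ℝ ℝ) h2 hgq
  have hc1 : Integrable (fun z : ℝ × ℝ => ‖G z.1‖ ^ 2 * Real.exp (-(1 / 4) * (z.1 - z.2) ^ 2)) := by
    have h5 := hc2.swap
    refine h5.congr (Filter.Eventually.of_forall fun z => ?_)
    show ‖G z.1‖ ^ 2 * Real.exp (-(1 / 4) * (z.2 - z.1) ^ 2) = _
    congr 3
    ring
  have hv : (∫ s : ℝ, Real.exp (-(1 / 4) * s ^ 2)) = 2 * Real.sqrt Real.pi := by
    rw [integral_gaussian]
    rw [show Real.pi / (1 / 4) = 2 ^ 2 * Real.pi by ring, Real.sqrt_mul (by norm_num),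
      Real.sqrt_sq (by norm_num)]
  have hi2 : (∫ z : ℝ × ℝ, ‖G z.2‖ ^ 2 * Real.exp (-(1 / 4) * (z.1 - z.2) ^ 2)) =
      (2 * Real.sqrt Real.pi) * ∫ τ : ℝ, ‖G τ‖ ^ 2 := by
    rw [show (volume : Measure (ℝ × ℝ)) = (volume : Measure ℝ).prod volume from rfl] at hc2 ⊢
    rw [integral_prod_symm _ hc2, ← integral_const_mul]
    congr 1
    funext y
    dsimp only
    rw [integral_const_mul, integral_sub_right_eq_self (fun x : ℝ => Real.exp (-(1 / 4) * x ^ 2)) y,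
      hv]
    ring
  have hi1 : (∫ z : ℝ × ℝ, ‖G z.1‖ ^ 2 * Real.exp (-(1 / 4) * (z.1 - z.2) ^ 2)) =
      (2 * Real.sqrt Real.pi) * ∫ τ : ℝ, ‖G τ‖ ^ 2 := by
    rw [← hi2, show (volume : Measure (ℝ × ℝ)) = (volume : Measure ℝ).prod volume from rfl,
      ← integral_prod_swap]
    congr 1
    funext z
    show ‖G z.2‖ ^ 2 * Real.exp (-(1 / 4) * (z.2 - z.1) ^ 2) = _
    congr 3
    ring
  have hbig : ‖∫ z, ∫ s, H s z‖ ≤ 2 * Real.pi * ∫ τ : ℝ, ‖G τ‖ ^ 2 := by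
    refine (norm_integral_le_of_norm_le (g := fun z : ℝ × ℝ => Real.sqrt Real.pi / 2 *
      (‖G z.1‖ ^ 2 * Real.exp (-(1 / 4) * (z.1 - z.2) ^ 2) +
        ‖G z.2‖ ^ 2 * Real.exp (-(1 / 4) * (z.1 - z.2) ^ 2))) ((hc1.add hc2).const_mul _)
      (Filter.Eventually.of_forall fun z => ?_)).trans (le_of_eq ?_)
    · refine (hin z).trans ?_
      have h6 : ‖G z.1‖ * ‖G z.2‖ ≤ (‖G z.1‖ ^ 2 + ‖G z.2‖ ^ 2) / 2 := by
        nlinarith [sq_nonneg (‖G z.1‖ - ‖G z.2‖)]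
      have h7 := mul_le_mul_of_nonneg_right h6
        (Real.exp_pos (-(1 / 4) * (z.1 - z.2) ^ 2)).le
      have h8 := mul_le_mul_of_nonneg_left h7 (Real.sqrt_nonneg Real.pi)
      refine h8.trans (le_of_eq ?_)
      ring
    · rw [integral_const_mul, integral_add hc1 hc2, hi1, hi2]
      have : Real.sqrt Real.pi * Real.sqrt Real.pi = Real.pi :=
        Real.mul_self_sqrt Real.pi_pos.le
      linear_combination (2 * ∫ τ : ℝ, ‖G τ‖ ^ 2) * this
  rw [← hL, Complex.norm_real] at hbig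
  exact (le_abs_self _).trans hbig

theorem main (G : ℝ → ℂ) (s₁ s₂ : ℝ) (hG : Continuous G)
    (hi : Integrable G) (h2 : Integrable (fun τ => ‖G τ‖ ^ 2)) (h12 : s₁ ≤ s₂) :
    ∫ s in s₁..s₂, ‖∫ τ : ℝ, G τ * Complex.exp (τ * s * Complex.I)‖ ^ 2 ≤
    2 * Real.pi * Real.exp (max |s₁| |s₂| ^ 2) * ∫ τ : ℝ, ‖G τ‖ ^ 2 := by
  obtain ⟨A, hA⟩ : ∃ A : ℝ, A = Real.exp (max |s₁| |s₂| ^ 2) := ⟨_, rfl⟩
  have hA0 : 0 < A := by rw [hA]; positivity
  have hFc := FT_cont G hG hi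
  have hint : Integrable (fun s : ℝ => Real.exp (-1 * s ^ 2) * ‖FT G s‖ ^ 2) := by
    have hge : Integrable (fun s : ℝ => Real.exp (-1 * s ^ 2)) :=
      integrable_exp_neg_mul_sq one_pos
    refine (hge.mul_const ((∫ τ : ℝ, ‖G τ‖) ^ 2)).mono' ?_ (Filter.Eventually.of_forall fun s => ?_)
    · exact (by fun_prop : Continuous fun s : ℝ =>
        Real.exp (-1 * s ^ 2) * ‖FT G s‖ ^ 2).aestronglyMeasurable
    · rw [Real.norm_of_nonneg (by positivity)]
      exact mul_le_mul_of_nonneg_left (pow_le_pow_left₀ (norm_nonneg _) (FT_bd G s) 2)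
        (by positivity)
  have h3 : ∫ s in s₁..s₂, ‖FT G s‖ ^ 2 ≤
      ∫ s in s₁..s₂, A * (Real.exp (-1 * s ^ 2) * ‖FT G s‖ ^ 2) := by
    apply intervalIntegral.integral_mono_on h12
    · exact (by fun_prop : Continuous fun s => ‖FT G s‖ ^ 2).intervalIntegrable _ _
    · exact (by fun_prop : Continuous fun s : ℝ =>
        A * (Real.exp (-1 * s ^ 2) * ‖FT G s‖ ^ 2)).intervalIntegrable _ _
    · intro s hs
      have h4 : |s| ≤ max |s₁| |s₂| := abs_le_max_abs_abs hs.1 hs.2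
      have h5 : s ^ 2 ≤ max |s₁| |s₂| ^ 2 := by
        rw [← sq_abs s]
        exact pow_le_pow_left₀ (abs_nonneg _) h4 2
      have h6 : 1 ≤ A * Real.exp (-1 * s ^ 2) := by
        rw [hA, ← Real.exp_add]
        exact Real.one_le_exp (by linarith)
      have := mul_le_mul_of_nonneg_right h6 (sq_nonneg ‖FT G s‖)
      linarith
  have h7 : ∫ s in s₁..s₂, A * (Real.exp (-1 * s ^ 2) * ‖FT G s‖ ^ 2) ≤
      A * ∫ s : ℝ, Real.exp (-1 * s ^ 2) * ‖FT G s‖ ^ 2 := by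
    rw [intervalIntegral.integral_const_mul, intervalIntegral.integral_of_le h12]
    apply mul_le_mul_of_nonneg_left _ hA0.le
    exact setIntegral_le_integral hint (Filter.Eventually.of_forall fun s => by positivity)
  have h8 := mul_le_mul_of_nonneg_left (key G hG hi h2) hA0.le
  have h9 : ∫ s in s₁..s₂, ‖∫ τ : ℝ, G τ * Complex.exp (τ * s * Complex.I)‖ ^ 2 =
      ∫ s in s₁..s₂, ‖FT G s‖ ^ 2 := rfl
  rw [h9, ← hA]
  linarith

end LTW_

theorem p_LTW : T_LTW := fun G s₁ s₂ hG hi h2 h12 => LTW_.main G s₁ s₂ hG hi h2 h12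

end Pool.Agent.SelQ
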