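import Pool.Agent.SelQ.TargetsU
import Pool.Agent.SelDeg2.MEL

/-!
# U-MLU (MP_995735_nt): the Mellin transform of `lam` over `(0, Y]`, uniformly
-/

set_option autoImplicit false

namespace Pool.Agent.SelQ

open Complex Filter Topology MeasureTheory
open Pool.Agent.SelTwo (lam pX)
open Pool.Agent.SelDeg2 (SS)
open Pool.Agent.SelDeg2.MEL_

/-- MLU. -/
theorem p_MLU : T_MLU := by
  intro c Y₀ hc hY₀
  have hc2 : LSeriesSummable c ((2 : ℝ) : ℂ) := hc _ (by rw [ofReal_re]; norm_num)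
  set KY : ℝ := ∑' n : ℕ, ‖c (n + 1)‖ * Real.exp (-(Real.pi * Y₀ * ((n : ℝ) + 1))) with hKY
  have hKY0 : 0 ≤ KY := tsum_nonneg fun n => by positivity
  have hnn : ∀ y ∈ Set.Ioi Y₀, 0 ≤ KY * ((1 + y) * Real.exp (-(Real.pi * y))) := by
    intro y hy
    have hy0 : 0 < y := hY₀.trans hy
    positivity
  refine ⟨∫ y in Set.Ioi Y₀, KY * ((1 + y) * Real.exp (-(Real.pi * y))),
    setIntegral_nonneg measurableSet_Ioi hnn, ?_⟩
  intro α Y η hYY h0 h1
  have hY : 0 < Y := hY₀.trans_le hYY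
  have hcη : LSeriesSummable c ((1 + η : ℝ) : ℂ) := hc _ (by rw [ofReal_re]; linarith)
  have hsum : ∀ᵐ y ∂(volume.restrict (Set.Ioi (0 : ℝ))),
      HasSum (fun n => FF c α η n y) (lam c (pX α y) * ((y ^ η : ℝ) : ℂ)) := by
    refine (ae_restrict_iff' measurableSet_Ioi).mpr (ae_of_all _ fun y hy => ?_)
    have h2 := (hasSum_lam hc2 α hy).mul_right ((y ^ η : ℝ) : ℂ)
    have h3 : (fun n => FF c α η n y) = fun n : ℕ =>
        bb c α n * ((Real.exp (-(2 * Real.pi * ((n : ℝ) + 1) * y)) : ℝ) : ℂ) *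
          ((y ^ η : ℝ) : ℂ) := by
      funext n
      rw [FF]
      push_cast
      ring
    rw [h3]
    exact h2
  have hint : IntegrableOn (fun y : ℝ => lam c (pX α y) * ((y ^ η : ℝ) : ℂ)) (Set.Ioi 0) := by
    refine integrable_of_hasSum (fun n => (int_FF c α h0 n).1) ?_ hsum
    simp_rw [(int_FF c α h0 _).2.2]
    exact summ_int hcη
  have hval : ∫ y in Set.Ioi (0 : ℝ), lam c (pX α y) * ((y ^ η : ℝ) : ℂ) =
      (((2 * Real.pi) ^ (-1 - η) * Real.Gamma (1 + η) : ℝ) : ℂ) * SS c α η := by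
    have h2 := hasSum_integral_of_summable_integral_norm (fun n => (int_FF c α h0 n).1)
      (by simp_rw [(int_FF c α h0 _).2.2]; exact summ_int hcη)
    rw [SS_eq α hcη]
    simp_rw [(int_FF c α h0 _).2.1] at h2
    rw [h2.tsum_eq]
    refine integral_congr_ae ?_
    filter_upwards [hsum] with y hy using hy.tsum_eq.symm
  refine ⟨hint.mono_set Set.Ioc_subset_Ioi_self, ?_⟩
  have hsplit : ∫ y in Set.Ioi (0 : ℝ), lam c (pX α y) * ((y ^ η : ℝ) : ℂ) =
      (∫ y in Set.Ioc (0 : ℝ) Y, lam c (pX α y) * ((y ^ η : ℝ) : ℂ)) +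
        ∫ y in Set.Ioi Y, lam c (pX α y) * ((y ^ η : ℝ) : ℂ) := by
    rw [← setIntegral_union (Set.Ioc_disjoint_Ioi le_rfl) measurableSet_Ioi
      (hint.mono_set Set.Ioc_subset_Ioi_self) (hint.mono_set (Set.Ioi_subset_Ioi hY.le)),
      Set.Ioc_union_Ioi_eq_Ioi hY.le]
  rw [← hval, hsplit, sub_add_cancel_left, norm_neg]
  have hi0 : IntegrableOn (fun y : ℝ => KY * ((1 + y) * Real.exp (-(Real.pi * y))))
      (Set.Ioi Y₀) := by
    refine Integrable.const_mul ?_ _
    have ha := integrableOn_rpow_mul_exp_neg_mul_rpow (s := 0) (p := 1) (b := Real.pi)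
      (by norm_num) one_pos Real.pi_pos
    have hb := integrableOn_rpow_mul_exp_neg_mul_rpow (s := 1) (p := 1) (b := Real.pi)
      (by norm_num) one_pos Real.pi_pos
    have hab : IntegrableOn (fun y : ℝ => (1 + y) * Real.exp (-(Real.pi * y))) (Set.Ioi 0) := by
      refine (ha.add hb).congr_fun (fun y _ => ?_) measurableSet_Ioi
      simp only [Pi.add_apply, Real.rpow_one, Real.rpow_zero, neg_mul]
      ring
    exact hab.mono_set (Set.Ioi_subset_Ioi hY₀.le)
  have hi1 := hi0.mono_set (Set.Ioi_subset_Ioi hYY)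
  have hmono : ∫ y in Set.Ioi Y, KY * ((1 + y) * Real.exp (-(Real.pi * y))) ≤
      ∫ y in Set.Ioi Y₀, KY * ((1 + y) * Real.exp (-(Real.pi * y))) := by
    refine setIntegral_mono_set hi0 ?_ (Set.Ioi_subset_Ioi hYY).eventuallyLE
    exact (ae_restrict_iff' measurableSet_Ioi).mpr (ae_of_all _ hnn)
  refine (norm_integral_le_of_norm_le hi1 ?_).trans hmono
  refine (ae_restrict_iff' measurableSet_Ioi).mpr (ae_of_all _ fun y hy => ?_)
  have hy0 : 0 < y := hY.trans hy
  have hyY : Y₀ ≤ y := hYY.trans (le_of_lt hy)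
  have h3 := norm_lam_le hc2 α hY₀ hyY
  have h4 : y ^ η ≤ 1 + y := by
    rcases le_total y 1 with h | h
    · have := Real.rpow_le_one hy0.le h h0.le
      linarith
    · have := Real.rpow_le_rpow_of_exponent_le h h1
      rw [Real.rpow_one] at this
      linarith
  rw [norm_mul, norm_real, Real.norm_eq_abs, abs_of_nonneg (Real.rpow_nonneg hy0.le _)]
  calc ‖lam c (pX α y)‖ * y ^ η ≤ (KY * Real.exp (-(Real.pi * y))) * (1 + y) := by
        gcongr
    _ = KY * ((1 + y) * Real.exp (-(Real.pi * y))) := by ring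

end Pool.Agent.SelQ
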