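import Pool.Agent.SelQ.TargetsE
import Pool.Agent.SelQ.P_CHV

/-!
# SD2-MMS: mean square of the main term
-/

set_option autoImplicit false

open Finset

namespace Pool.Agent.SelQ

open Pool.Agent.SelTwo (lam pX)

noncomputable section

namespace MMS_

/-- `e(x)` -/
def ex (x : ℝ) : ℂ := Complex.exp (2 * Real.pi * x * Complex.I)

theorem ex_add (x y : ℝ) : ex (x + y) = ex x * ex y := by
  unfold ex
  rw [← Complex.exp_add]
  congr 1
  push_cast
  ring

theorem ex_neg (x : ℝ) : ex (-x) = (starRingEnd ℂ) (ex x) := by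
  unfold ex
  rw [← Complex.exp_conj]
  congr 1
  simp only [map_mul, Complex.conj_ofReal, Complex.conj_I, map_ofNat]
  push_cast
  ring

theorem ex_sub (x y : ℝ) : ex (x - y) = ex x * (starRingEnd ℂ) (ex y) := by
  rw [sub_eq_add_neg, ex_add, ex_neg]

theorem norm_ex (x : ℝ) : ‖ex x‖ = 1 := by
  unfold ex
  have : (2 * (Real.pi : ℂ) * (x : ℂ) * Complex.I) = ((2 * Real.pi * x : ℝ) : ℂ) * Complex.I := by
    push_cast
    ring
  rw [this, Complex.norm_exp_ofReal_mul_I]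

theorem cont_ex (k : ℝ) : Continuous (fun α : ℝ => ex (α * k)) := by
  unfold ex
  fun_prop

theorem int_ex (k : ℤ) : (∫ α in (0 : ℝ)..1, ex (α * k)) = if k = 0 then 1 else 0 := by
  split_ifs with h
  · subst h
    simp [ex]
  · have hk : (2 * (Real.pi : ℂ) * (k : ℂ) * Complex.I) ≠ 0 := by
      have h1 : (Real.pi : ℂ) ≠ 0 := by exact_mod_cast Real.pi_ne_zero
      have h2 : (k : ℂ) ≠ 0 := by exact_mod_cast h
      have h3 := Complex.I_ne_zero
      simp [h1, h2, h3]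
    have h1 : ∀ α : ℝ, ex (α * k) =
        Complex.exp ((2 * (Real.pi : ℂ) * (k : ℂ) * Complex.I) * α) := by
      intro α
      unfold ex
      congr 1
      push_cast
      ring
    simp only [h1]
    rw [integral_exp_mul_complex hk]
    have h2 : Complex.exp ((2 * (Real.pi : ℂ) * (k : ℂ) * Complex.I) * ((1 : ℝ) : ℂ)) = 1 := by
      rw [Complex.exp_eq_one_iff]
      exact ⟨k, by push_cast; ring⟩
    rw [h2]
    simp

/-- Parseval. -/
theorem pars (c : ℕ → ℂ) (hc : Summable (fun n => ‖c n‖)) :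
    ∫ α in (0 : ℝ)..1, ‖∑' n : ℕ, c n * ex (α * (n + 1))‖ ^ 2 = ∑' n, ‖c n‖ ^ 2 := by
  have hprod : Summable (fun p : ℕ × ℕ => ‖c p.1‖ * ‖c p.2‖) :=
    hc.mul_of_nonneg hc (fun _ => norm_nonneg _) (fun _ => norm_nonneg _)
  let f : ℕ × ℕ → C(ℝ, ℂ) := fun p =>
    ⟨fun α => c p.1 * (starRingEnd ℂ) (c p.2) * ex (α * (((p.1 : ℤ) - (p.2 : ℤ) : ℤ) : ℝ)),
      continuous_const.mul (cont_ex _)⟩
  have hf : Summable fun p => ‖(f p).restrict
      (⟨Set.uIcc (0 : ℝ) 1, isCompact_uIcc⟩ : TopologicalSpace.Compacts ℝ)‖ := by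
    refine Summable.of_nonneg_of_le (fun _ => norm_nonneg _) (fun p => ?_) hprod
    rw [ContinuousMap.norm_le _ (by positivity)]
    intro x
    show ‖c p.1 * (starRingEnd ℂ) (c p.2) *
      ex ((x : ℝ) * (((p.1 : ℤ) - (p.2 : ℤ) : ℤ) : ℝ))‖ ≤ _
    rw [norm_mul, norm_mul, norm_ex, mul_one, RCLike.norm_conj]
  have h1 := intervalIntegral.hasSum_intervalIntegral_of_summable_norm hf
  have hF : ∀ α : ℝ, Summable (fun n : ℕ => ‖c n * ex (α * (n + 1))‖) := by
    intro α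
    simpa [norm_mul, norm_ex] using hc
  have h2 : ∀ α : ℝ, ∑' p, f p α = ((‖∑' n : ℕ, c n * ex (α * (n + 1))‖ ^ 2 : ℝ) : ℂ) := by
    intro α
    have hconj : Summable (fun n : ℕ => ‖(starRingEnd ℂ) (c n * ex (α * (n + 1)))‖) := by
      simpa only [RCLike.norm_conj] using hF α
    have h3 : ((‖∑' n : ℕ, c n * ex (α * (n + 1))‖ ^ 2 : ℝ) : ℂ) =
        (∑' n : ℕ, c n * ex (α * (n + 1))) *
          (∑' n : ℕ, (starRingEnd ℂ) (c n * ex (α * (n + 1)))) := by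
      rw [← Complex.conj_tsum, Complex.mul_conj, Complex.normSq_eq_norm_sq]
    rw [h3, tsum_mul_tsum_of_summable_norm (hF α) hconj]
    refine tsum_congr fun p => ?_
    show c p.1 * (starRingEnd ℂ) (c p.2) * ex (α * (((p.1 : ℤ) - (p.2 : ℤ) : ℤ) : ℝ)) = _
    have : α * (((p.1 : ℤ) - (p.2 : ℤ) : ℤ) : ℝ) = α * ((p.1 : ℝ) + 1) - α * ((p.2 : ℝ) + 1) := by
      push_cast; ring
    rw [this, ex_sub, map_mul]
    ring
  have h4 : ∀ p : ℕ × ℕ, (∫ α in (0 : ℝ)..1, f p α) =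
      if p.1 = p.2 then ((‖c p.1‖ ^ 2 : ℝ) : ℂ) else 0 := by
    intro p
    show (∫ α in (0 : ℝ)..1, c p.1 * (starRingEnd ℂ) (c p.2) *
      ex (α * (((p.1 : ℤ) - (p.2 : ℤ) : ℤ) : ℝ))) = _
    rw [intervalIntegral.integral_const_mul, int_ex]
    by_cases h : p.1 = p.2
    · rw [if_pos (by omega), if_pos h, mul_one, ← h, Complex.mul_conj, Complex.normSq_eq_norm_sq]
    · rw [if_neg (by omega), if_neg h, mul_zero]
  simp only [h4, h2] at h1
  rw [intervalIntegral.integral_ofReal] at h1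
  have hinj : Function.Injective (fun n : ℕ => (n, n)) := fun a b h => congrArg Prod.fst h
  have h5 := (hinj.hasSum_iff (f := fun p : ℕ × ℕ =>
    if p.1 = p.2 then ((‖c p.1‖ ^ 2 : ℝ) : ℂ) else 0)
    (a := (((∫ α in (0 : ℝ)..1, ‖∑' n : ℕ, c n * ex (α * (n + 1))‖ ^ 2) : ℝ) : ℂ)) (by
      intro x hx
      apply if_neg
      intro h
      exact hx ⟨x.1, Prod.ext rfl h⟩)).mpr h1
  have h6 : HasSum (fun n : ℕ => ((‖c n‖ ^ 2 : ℝ) : ℂ))
      (((∫ α in (0 : ℝ)..1, ‖∑' n : ℕ, c n * ex (α * (n + 1))‖ ^ 2) : ℝ) : ℂ) := by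
    convert h5 using 2 with n
    simp
  have h7 := Complex.hasSum_ofReal.mp h6
  exact h7.tsum_eq.symm

/-- the coefficients with the exponential factor -/
def cf (c : ℕ → ℂ) (y : ℝ) (n : ℕ) : ℂ :=
  c (n + 1) * (Real.exp (-(2 * Real.pi * (n + 1) * y)) : ℝ)

theorem norm_cf (c : ℕ → ℂ) (y : ℝ) (n : ℕ) :
    ‖cf c y n‖ = ‖c (n + 1)‖ * Real.exp (-(2 * Real.pi * (n + 1) * y)) := by
  unfold cf
  rw [norm_mul, Complex.norm_real, Real.norm_of_nonneg (Real.exp_pos _).le]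

theorem term_eq (c : ℕ → ℂ) (x y : ℝ) (n : ℕ) :
    c (n + 1) * Complex.exp (-(((n : ℂ) + 1) * pX x y)) = cf c y n * ex (x * (n + 1)) := by
  unfold cf ex pX
  rw [mul_assoc (c (n + 1)), Complex.ofReal_exp, ← Complex.exp_add]
  congr 2
  push_cast
  ring

theorem lam_eq (c : ℕ → ℂ) (x y : ℝ) :
    lam c (pX x y) = ∑' n : ℕ, cf c y n * ex (x * (n + 1)) := by
  unfold lam
  exact tsum_congr fun n => term_eq c x y n

theorem sumA {C y₀ : ℝ} (hy : 0 < y₀) :
    Summable fun n : ℕ => C * ((n : ℝ) + 1) * Real.exp (-(2 * Real.pi * (n + 1) * y₀)) := by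
  have h := Real.summable_pow_mul_exp_neg_nat_mul 1 (r := 2 * Real.pi * y₀) (by positivity)
  have h2 := ((summable_nat_add_iff 1).2 h).mul_left C
  refine h2.congr fun n => ?_
  push_cast
  rw [pow_one, ← mul_assoc]
  congr 2
  ring

theorem cf_le {c : ℕ → ℂ} {C : ℝ} (hc : ∀ n : ℕ, 1 ≤ n → ‖c n‖ ≤ C * n) {y₀ y : ℝ}
    (hyy : y₀ ≤ y) (n : ℕ) :
    ‖cf c y n‖ ≤ C * ((n : ℝ) + 1) * Real.exp (-(2 * Real.pi * (n + 1) * y₀)) := by
  rw [norm_cf]
  have h1 := hc (n + 1) (by omega)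
  push_cast at h1
  have h2 : Real.exp (-(2 * Real.pi * (n + 1) * y)) ≤
      Real.exp (-(2 * Real.pi * (n + 1) * y₀)) := by
    apply Real.exp_le_exp.2
    have : 2 * Real.pi * ((n : ℝ) + 1) * y₀ ≤ 2 * Real.pi * ((n : ℝ) + 1) * y :=
      mul_le_mul_of_nonneg_left hyy (by positivity)
    linarith
  exact mul_le_mul h1 h2 (Real.exp_pos _).le ((norm_nonneg _).trans h1)

theorem cf_summable {c : ℕ → ℂ} {C : ℝ} (hc : ∀ n : ℕ, 1 ≤ n → ‖c n‖ ≤ C * n) {y : ℝ}
    (hy : 0 < y) : Summable fun n => ‖cf c y n‖ :=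
  Summable.of_nonneg_of_le (fun _ => norm_nonneg _) (fun n => cf_le hc le_rfl n) (sumA hy)

theorem cont_lam {c : ℕ → ℂ} {C : ℝ} (hc : ∀ n : ℕ, 1 ≤ n → ‖c n‖ ≤ C * n) :
    ContinuousOn (Function.uncurry fun x y : ℝ => lam c (pX x y)) {p : ℝ × ℝ | 0 < p.2} := by
  intro p hp
  have hp' : 0 < p.2 := hp
  have hop : IsOpen {q : ℝ × ℝ | p.2 / 2 < q.2} := isOpen_lt continuous_const continuous_snd
  have hmem : p ∈ {q : ℝ × ℝ | p.2 / 2 < q.2} := by
    show p.2 / 2 < p.2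
    linarith
  have h1 : ContinuousOn (Function.uncurry fun x y : ℝ => lam c (pX x y))
      {q : ℝ × ℝ | p.2 / 2 < q.2} := by
    have h2 : ContinuousOn (fun q : ℝ × ℝ => ∑' n : ℕ, cf c q.2 n * ex (q.1 * (n + 1)))
        {q : ℝ × ℝ | p.2 / 2 < q.2} := by
      refine continuousOn_tsum (u := fun n : ℕ => C * ((n : ℝ) + 1) *
        Real.exp (-(2 * Real.pi * (n + 1) * (p.2 / 2)))) ?_ (sumA (by linarith)) ?_
      · intro n
        apply Continuous.continuousOn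
        unfold cf ex
        fun_prop
      · intro n q hq
        rw [norm_mul, norm_ex, mul_one]
        exact cf_le hc (le_of_lt hq) n
    refine h2.congr fun q _ => ?_
    exact lam_eq c q.1 q.2
  exact (h1.continuousAt (hop.mem_nhds hmem)).continuousWithinAt

theorem per (c : ℕ → ℂ) (x y : ℝ) : lam c (pX (x + 1) y) = lam c (pX x y) := by
  rw [lam_eq, lam_eq]
  refine tsum_congr fun n => ?_
  congr 1
  have h1 : (x + 1) * ((n : ℝ) + 1) = x * (n + 1) + ((n + 1 : ℕ) : ℝ) := by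
    push_cast
    ring
  rw [h1, ex_add]
  have h2 : ex (((n + 1 : ℕ) : ℝ)) = 1 := by
    unfold ex
    rw [Complex.exp_eq_one_iff]
    exact ⟨(n + 1 : ℕ), by push_cast; ring⟩
  rw [h2, mul_one]

theorem par {c : ℕ → ℂ} {C : ℝ} (hc : ∀ n : ℕ, 1 ≤ n → ‖c n‖ ≤ C * n) {y : ℝ} (hy : 0 < y) :
    ∫ x in (0 : ℝ)..1, ‖lam c (pX x y)‖ ^ 2 = ∑' n, ‖cf c y n‖ ^ 2 := by
  rw [← pars _ (cf_summable hc hy)]
  refine intervalIntegral.integral_congr fun x _ => ?_
  show ‖lam c (pX x y)‖ ^ 2 = _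
  rw [lam_eq]

theorem rpow_le_exp {t : ℝ} (ht : 0 ≤ t) : t ^ (1 / 32 : ℝ) ≤ Real.exp (2 * Real.pi * t) := by
  have h1 : t ^ (1 / 32 : ℝ) ≤ 1 + t := by
    rcases le_total t 1 with h | h
    · have := Real.rpow_le_one ht h (by norm_num : (0 : ℝ) ≤ 1 / 32)
      linarith
    · have := Real.rpow_le_rpow_of_exponent_le h (by norm_num : (1 / 32 : ℝ) ≤ 1)
      rw [Real.rpow_one] at this
      linarith
  have h2 := Real.add_one_le_exp (2 * Real.pi * t)
  have h3 : t ≤ 2 * Real.pi * t := by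
    have : (1 : ℝ) ≤ 2 * Real.pi := by linarith [Real.two_le_pi]
    nlinarith
  linarith

theorem geo {y : ℝ} (hy : 0 < y) :
    Summable (fun n : ℕ => Real.exp (-(2 * Real.pi * (n + 1) * y))) ∧
    ∑' n : ℕ, Real.exp (-(2 * Real.pi * (n + 1) * y)) ≤ 1 / y := by
  set r : ℝ := Real.exp (-(2 * Real.pi * y)) with hr
  have hr0 : 0 < r := Real.exp_pos _
  have hpos : 0 < 2 * Real.pi * y := by positivity
  have hr1 : r < 1 := by
    rw [hr, ← Real.exp_zero]
    exact Real.exp_lt_exp.2 (by linarith)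
  have e : (fun n : ℕ => Real.exp (-(2 * Real.pi * (n + 1) * y))) = fun n : ℕ => r * r ^ n := by
    funext n
    rw [hr, ← Real.exp_nat_mul, ← Real.exp_add]
    congr 1
    ring
  rw [e]
  have hg := summable_geometric_of_lt_one hr0.le hr1
  refine ⟨hg.mul_left r, ?_⟩
  rw [tsum_mul_left, tsum_geometric_of_lt_one hr0.le hr1]
  have h1 : 1 + 2 * Real.pi * y ≤ Real.exp (2 * Real.pi * y) := by
    linarith [Real.add_one_le_exp (2 * Real.pi * y)]
  have h2 : r * Real.exp (2 * Real.pi * y) = 1 := by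
    rw [hr, ← Real.exp_add]
    simp
  have h3 : r * (1 + 2 * Real.pi * y) ≤ 1 :=
    (mul_le_mul_of_nonneg_left h1 hr0.le).trans h2.le
  rw [← div_eq_mul_inv, div_le_div_iff₀ (by linarith) hy]
  have h4 : r * y ≤ r * (2 * Real.pi * y) := by
    apply mul_le_mul_of_nonneg_left _ hr0.le
    have : (1 : ℝ) ≤ 2 * Real.pi := by linarith [Real.two_le_pi]
    nlinarith
  linarith

theorem series_le {c : ℕ → ℂ} {C : ℝ}
    (hc : ∀ n : ℕ, 1 ≤ n → ‖c n‖ ≤ C * (n : ℝ) ^ (1 / 64 : ℝ)) {y : ℝ} (hy : 0 < y) :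
    ∑' n, ‖cf c y n‖ ^ 2 ≤ C ^ 2 * y ^ (-(33 / 32) : ℝ) := by
  obtain ⟨g1, g2⟩ := geo hy
  have hb : ∀ n : ℕ, ‖cf c y n‖ ^ 2 ≤
      C ^ 2 * y ^ (-(1 / 32) : ℝ) * Real.exp (-(2 * Real.pi * (n + 1) * y)) := by
    intro n
    rw [norm_cf]
    have hn : (0 : ℝ) < (n : ℝ) + 1 := by positivity
    have h1 := hc (n + 1) (by omega)
    push_cast at h1
    have h2 : ‖c (n + 1)‖ ^ 2 ≤ C ^ 2 * ((n : ℝ) + 1) ^ (1 / 32 : ℝ) := by
      have h3 := pow_le_pow_left₀ (norm_nonneg _) h1 2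
      rw [mul_pow, ← Real.rpow_natCast (((n : ℝ) + 1) ^ (1 / 64 : ℝ)) 2,
        ← Real.rpow_mul hn.le] at h3
      norm_num at h3 ⊢
      exact h3
    have h4 := rpow_le_exp (t := ((n : ℝ) + 1) * y) (by positivity)
    rw [Real.mul_rpow hn.le hy.le] at h4
    have hyp : 0 < y ^ (1 / 32 : ℝ) := Real.rpow_pos_of_pos hy _
    have h5 : y ^ (-(1 / 32) : ℝ) * y ^ (1 / 32 : ℝ) = 1 := by
      rw [← Real.rpow_add hy]
      norm_num
    have hyn : 0 < y ^ (-(1 / 32) : ℝ) := Real.rpow_pos_of_pos hy _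
    have h6 : ((n : ℝ) + 1) ^ (1 / 32 : ℝ) ≤
        y ^ (-(1 / 32) : ℝ) * Real.exp (2 * Real.pi * (((n : ℝ) + 1) * y)) := by
      calc ((n : ℝ) + 1) ^ (1 / 32 : ℝ) =
          y ^ (-(1 / 32) : ℝ) * (((n : ℝ) + 1) ^ (1 / 32 : ℝ) * y ^ (1 / 32 : ℝ)) := by
            rw [mul_comm (((n : ℝ) + 1) ^ (1 / 32 : ℝ)), ← mul_assoc, h5, one_mul]
        _ ≤ _ := mul_le_mul_of_nonneg_left h4 hyn.le
    have h7 : Real.exp (-(2 * Real.pi * (n + 1) * y)) ^ 2 *
        Real.exp (2 * Real.pi * (((n : ℝ) + 1) * y)) =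
        Real.exp (-(2 * Real.pi * (n + 1) * y)) := by
      rw [sq, ← Real.exp_add, ← Real.exp_add]
      congr 1
      ring
    rw [mul_pow]
    calc ‖c (n + 1)‖ ^ 2 * Real.exp (-(2 * Real.pi * (n + 1) * y)) ^ 2 ≤
        C ^ 2 * (y ^ (-(1 / 32) : ℝ) * Real.exp (2 * Real.pi * (((n : ℝ) + 1) * y))) *
          Real.exp (-(2 * Real.pi * (n + 1) * y)) ^ 2 := by
          apply mul_le_mul_of_nonneg_right _ (by positivity)
          exact h2.trans (mul_le_mul_of_nonneg_left h6 (by positivity))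
      _ = C ^ 2 * y ^ (-(1 / 32) : ℝ) * (Real.exp (-(2 * Real.pi * (n + 1) * y)) ^ 2 *
          Real.exp (2 * Real.pi * (((n : ℝ) + 1) * y))) := by ring
      _ = _ := by rw [h7]
  have hs := g1.mul_left (C ^ 2 * y ^ (-(1 / 32) : ℝ))
  have hs2 : Summable fun n => ‖cf c y n‖ ^ 2 :=
    Summable.of_nonneg_of_le (fun _ => by positivity) hb hs
  refine (hs2.tsum_le_tsum hb hs).trans ?_
  rw [tsum_mul_left]
  have hyn : 0 ≤ y ^ (-(1 / 32) : ℝ) := Real.rpow_nonneg hy.le _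
  refine (mul_le_mul_of_nonneg_left g2 (by positivity)).trans (le_of_eq ?_)
  have h8 : y ^ (-(33 / 32) : ℝ) = y ^ (-(1 / 32) : ℝ) * (1 / y) := by
    have h9 : 1 / y = y ^ (-1 : ℝ) := by rw [Real.rpow_neg_one, one_div]
    rw [h9, ← Real.rpow_add hy]
    norm_num
  rw [h8]
  ring

/-- the main integral over `y`, as a function of `x` -/
def HH (c : ℕ → ℂ) (a b x : ℝ) : ℝ := ∫ y in a..b, y ^ (1 / 4 : ℝ) * ‖lam c (pX x y)‖ ^ 2

theorem cont_clamp {c : ℕ → ℂ} {C : ℝ} (hc : ∀ n : ℕ, 1 ≤ n → ‖c n‖ ≤ C * n) {a : ℝ}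
    (ha : 0 < a) : Continuous (Function.uncurry fun x y : ℝ =>
      y ^ (1 / 4 : ℝ) * ‖lam c (pX x (max y a))‖ ^ 2) := by
  have h1 : Continuous (fun p : ℝ × ℝ => (p.1, max p.2 a)) :=
    continuous_fst.prodMk (continuous_snd.max continuous_const)
  have h2 := (cont_lam hc).comp_continuous h1 (fun p => by
    show 0 < max p.2 a
    exact lt_max_of_lt_right ha)
  have h3 : Continuous (fun p : ℝ × ℝ => p.2 ^ (1 / 4 : ℝ)) :=
    continuous_snd.rpow_const (fun _ => Or.inr (by norm_num))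
  exact h3.mul (h2.norm.pow 2)

theorem HH_eq (c : ℕ → ℂ) {a b : ℝ} (hab : a ≤ b) (x : ℝ) :
    HH c a b x = ∫ y in a..b, y ^ (1 / 4 : ℝ) * ‖lam c (pX x (max y a))‖ ^ 2 := by
  unfold HH
  refine intervalIntegral.integral_congr fun y hy => ?_
  rw [Set.uIcc_of_le hab] at hy
  show _ = y ^ (1 / 4 : ℝ) * ‖lam c (pX x (max y a))‖ ^ 2
  rw [max_eq_left hy.1]

theorem HH_cont {c : ℕ → ℂ} {C : ℝ} (hc : ∀ n : ℕ, 1 ≤ n → ‖c n‖ ≤ C * n) {a b : ℝ}
    (ha : 0 < a) (hab : a ≤ b) : Continuous (HH c a b) := by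
  have h1 := intervalIntegral.continuous_parametric_intervalIntegral_of_continuous'
    (μ := MeasureTheory.volume) (cont_clamp hc ha) a b
  have e : HH c a b = fun x => ∫ y in a..b, y ^ (1 / 4 : ℝ) * ‖lam c (pX x (max y a))‖ ^ 2 :=
    funext fun x => HH_eq c hab x
  rw [e]
  exact h1

theorem HH_nonneg (c : ℕ → ℂ) {a b : ℝ} (ha : 0 < a) (hab : a ≤ b) (x : ℝ) :
    0 ≤ HH c a b x := by
  refine intervalIntegral.integral_nonneg hab fun y hy => ?_
  have : 0 ≤ y := ha.le.trans hy.1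
  positivity

theorem HH_per (c : ℕ → ℂ) (a b : ℝ) : Function.Periodic (HH c a b) 1 := by
  intro x
  unfold HH
  simp only [per]

theorem HH_int {c : ℕ → ℂ} {C : ℝ}
    (hc : ∀ n : ℕ, 1 ≤ n → ‖c n‖ ≤ C * (n : ℝ) ^ (1 / 64 : ℝ))
    (hc' : ∀ n : ℕ, 1 ≤ n → ‖c n‖ ≤ C * n) {a b : ℝ} (ha : 0 < a) (hab : a ≤ b) :
    ∫ x in (0 : ℝ)..1, HH c a b x ≤ C ^ 2 * (32 / 7 * b ^ (7 / 32 : ℝ)) := by
  have hcl := cont_clamp hc' ha
  have hsw : ∫ x in (0 : ℝ)..1, HH c a b x = ∫ y in a..b, ∫ x in (0 : ℝ)..1,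
      y ^ (1 / 4 : ℝ) * ‖lam c (pX x (max y a))‖ ^ 2 := by
    rw [← MeasureTheory.intervalIntegral_intervalIntegral_swap (F := fun x y : ℝ =>
      y ^ (1 / 4 : ℝ) * ‖lam c (pX x (max y a))‖ ^ 2)]
    · exact intervalIntegral.integral_congr fun x _ => HH_eq c hab x
    · have hcomp : IsCompact (Set.uIcc (0 : ℝ) 1 ×ˢ Set.uIcc a b) :=
        isCompact_uIcc.prod isCompact_uIcc
      refine (hcl.continuousOn.integrableOn_compact hcomp).mono_set ?_
      exact Set.prod_mono Set.uIoc_subset_uIcc Set.uIoc_subset_uIcc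
  rw [hsw]
  have hb : 0 < b := lt_of_lt_of_le ha hab
  have h1 : ∀ y ∈ Set.Icc a b, ∫ x in (0 : ℝ)..1,
      y ^ (1 / 4 : ℝ) * ‖lam c (pX x (max y a))‖ ^ 2 ≤ C ^ 2 * y ^ (-(25 / 32) : ℝ) := by
    intro y hy
    have hy0 : 0 < y := lt_of_lt_of_le ha hy.1
    rw [intervalIntegral.integral_const_mul, max_eq_left hy.1, par hc' hy0]
    have h2 := series_le hc hy0
    have h3 : 0 ≤ y ^ (1 / 4 : ℝ) := Real.rpow_nonneg hy0.le _
    refine (mul_le_mul_of_nonneg_left h2 h3).trans (le_of_eq ?_)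
    have h4 : y ^ (-(25 / 32) : ℝ) = y ^ (1 / 4 : ℝ) * y ^ (-(33 / 32) : ℝ) := by
      rw [← Real.rpow_add hy0]
      norm_num
    rw [h4]
    ring
  have h5 : ∫ y in a..b, C ^ 2 * y ^ (-(25 / 32) : ℝ) =
      C ^ 2 * ((b ^ (7 / 32 : ℝ) - a ^ (7 / 32 : ℝ)) / (7 / 32)) := by
    rw [intervalIntegral.integral_const_mul, integral_rpow (Or.inl (by norm_num))]
    norm_num
  have h6 : ContinuousOn (fun y : ℝ => C ^ 2 * y ^ (-(25 / 32) : ℝ)) (Set.uIcc a b) := by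
    rw [Set.uIcc_of_le hab]
    refine continuousOn_const.mul (ContinuousOn.rpow_const continuousOn_id fun y hy => ?_)
    exact Or.inl (lt_of_lt_of_le ha hy.1).ne'
  have h7 : Continuous (fun y : ℝ => ∫ x in (0 : ℝ)..1,
      y ^ (1 / 4 : ℝ) * ‖lam c (pX x (max y a))‖ ^ 2) := by
    refine intervalIntegral.continuous_parametric_intervalIntegral_of_continuous'
      (μ := MeasureTheory.volume) ?_ 0 1
    exact hcl.comp continuous_swap
  refine (intervalIntegral.integral_mono_on hab (h7.intervalIntegrable _ _)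
    h6.intervalIntegrable h1).trans ?_
  rw [h5]
  apply mul_le_mul_of_nonneg_left _ (by positivity)
  have h8 : 0 ≤ a ^ (7 / 32 : ℝ) := Real.rpow_nonneg ha.le _
  rw [div_le_iff₀ (by norm_num)]
  linarith

/-- number of periods -/
theorem HH_periods {H : ℝ → ℝ} (hH : Continuous H) (h0 : ∀ x, 0 ≤ H x)
    (hp : Function.Periodic H 1) {α β : ℝ} (hαβ : α ≤ β) :
    ∫ x in α..β, H x ≤ (⌈β - α⌉₊ : ℝ) * ∫ x in (0 : ℝ)..1, H x := by
  set N : ℕ := ⌈β - α⌉₊ with hN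
  have h1 : β ≤ α + N := by linarith [Nat.le_ceil (β - α)]
  have hint : ∀ s t, IntervalIntegrable H MeasureTheory.volume s t :=
    fun s t => hH.intervalIntegrable s t
  have h2 := hp.intervalIntegral_add_zsmul_eq (N : ℤ) α hint
  have h3 := hp.intervalIntegral_add_eq α 0
  rw [zero_add] at h3
  rw [h3] at h2
  have h4 : ((N : ℤ) • (1 : ℝ)) = N := by simp
  rw [h4] at h2
  have h5 : ((N : ℤ) • ∫ x in (0 : ℝ)..1, H x) = (N : ℝ) * ∫ x in (0 : ℝ)..1, H x := by simp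
  rw [h5] at h2
  rw [← h2]
  exact intervalIntegral.integral_mono_interval le_rfl hαβ h1
    (Filter.Eventually.of_forall h0) (hint _ _)

end MMS_

open MMS_ in
/-- Target MMS. -/
theorem p_MMS : T_MMS := by
  intro c κ u v hsm hκ hu huv
  have hv : 0 < v := hu.trans huv
  obtain ⟨C, hC1⟩ := hsm (1 / 64) (by norm_num)
  have hC : 0 ≤ C := by
    have := hC1 1 le_rfl
    rw [Nat.cast_one, Real.one_rpow, mul_one] at this
    exact (norm_nonneg _).trans this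
  have hC2 : ∀ n : ℕ, 1 ≤ n → ‖c n‖ ≤ C * n := by
    intro n hn
    refine (hC1 n hn).trans (mul_le_mul_of_nonneg_left ?_ hC)
    have h1 : (1 : ℝ) ≤ n := by exact_mod_cast hn
    calc (n : ℝ) ^ (1 / 64 : ℝ) ≤ (n : ℝ) ^ (1 : ℝ) :=
          Real.rpow_le_rpow_of_exponent_le h1 (by norm_num)
      _ = n := Real.rpow_one _
  set b : ℝ := κ / u ^ 2 with hb
  have hb0 : 0 < b := by positivity
  set K : ℝ := v ^ 2 / κ * (κ / v ^ 2) ^ (-(1 / 4) : ℝ) with hK
  have hK0 : 0 ≤ K := by positivity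
  refine ⟨K * (v ^ 2 / κ * ((⌈κ / u - κ / v⌉₊ : ℝ) * (C ^ 2 * (32 / 7 * b ^ (7 / 32 : ℝ))))),
    by positivity, ?_⟩
  intro δ hδ hδ1
  set a : ℝ := κ * δ / v ^ 2 with ha
  have ha0 : 0 < a := by positivity
  have hab : a ≤ b := by
    rw [ha, hb]
    have h1 : κ * δ ≤ κ * 1 := mul_le_mul_of_nonneg_left hδ1.le hκ.le
    rw [mul_one] at h1
    exact div_le_div₀ hκ.le h1 (by positivity) (pow_le_pow_left₀ hu.le huv.le 2)
  have hHc := HH_cont hC2 ha0 hab
  have hH0 := HH_nonneg c ha0 hab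
  have hle : κ / v ≤ κ / u := div_le_div_of_nonneg_left hκ.le hu huv.le
  -- the inner integral
  have hin : ∀ x ∈ Set.Icc u v, ∫ y in δ..1, y ^ (1 / 4 : ℝ) *
      ‖lam c (pX (κ / x) (κ * y / x ^ 2))‖ ^ 2 ≤ K * HH c a b (κ / x) := by
    intro x hx
    have hx0 : 0 < x := lt_of_lt_of_le hu hx.1
    have hcc : 0 < κ / x ^ 2 := by positivity
    have h1 : ∫ y in δ..1, y ^ (1 / 4 : ℝ) * ‖lam c (pX (κ / x) (κ * y / x ^ 2))‖ ^ 2 =
        (κ / x ^ 2)⁻¹ * ∫ y in δ..1, y ^ (1 / 4 : ℝ) * (κ / x ^ 2 *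
          (fun y' => ‖lam c (pX (κ / x) y')‖ ^ 2) (κ / x ^ 2 * y)) := by
      rw [← intervalIntegral.integral_const_mul]
      refine intervalIntegral.integral_congr fun y _ => ?_
      show y ^ (1 / 4 : ℝ) * ‖lam c (pX (κ / x) (κ * y / x ^ 2))‖ ^ 2 =
        (κ / x ^ 2)⁻¹ * (y ^ (1 / 4 : ℝ) * (κ / x ^ 2 *
          ‖lam c (pX (κ / x) (κ / x ^ 2 * y))‖ ^ 2))
      have e : κ / x ^ 2 * y = κ * y / x ^ 2 := by ring
      rw [e]
      field_simp
    rw [h1, CHV_.inner_subst (η := 1 / 4) hcc hδ hδ1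
      (fun y' => ‖lam c (pX (κ / x) y')‖ ^ 2)]
    have hxv : κ / v ^ 2 ≤ κ / x ^ 2 :=
      div_le_div_of_nonneg_left hκ.le (by positivity) (pow_le_pow_left₀ hx0.le hx.2 2)
    have hxu : κ / x ^ 2 ≤ b :=
      div_le_div_of_nonneg_left hκ.le (by positivity) (pow_le_pow_left₀ hu.le hx.1 2)
    have hax : a ≤ κ / x ^ 2 * δ := by
      have e : a = κ / v ^ 2 * δ := by rw [ha]; ring
      rw [e]
      exact mul_le_mul_of_nonneg_right hxv hδ.le
    have h2 : ∫ y in (κ / x ^ 2 * δ)..(κ / x ^ 2), y ^ (1 / 4 : ℝ) *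
        ‖lam c (pX (κ / x) y)‖ ^ 2 ≤ HH c a b (κ / x) := by
      unfold HH
      refine intervalIntegral.integral_mono_interval hax ?_ hxu ?_ ?_
      · calc κ / x ^ 2 * δ ≤ κ / x ^ 2 * 1 := mul_le_mul_of_nonneg_left hδ1.le hcc.le
          _ = κ / x ^ 2 := mul_one _
      · rw [Filter.EventuallyLE, MeasureTheory.ae_restrict_iff' measurableSet_Ioc]
        refine Filter.Eventually.of_forall fun y hy => ?_
        have hy0 : 0 ≤ y := ha0.le.trans hy.1.le
        show 0 ≤ y ^ (1 / 4 : ℝ) * ‖lam c (pX (κ / x) y)‖ ^ 2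
        positivity
      · have h3 : Continuous (fun y : ℝ => y ^ (1 / 4 : ℝ) *
            ‖lam c (pX (κ / x) (max y a))‖ ^ 2) :=
          (cont_clamp hC2 ha0).comp (Continuous.prodMk continuous_const continuous_id)
        refine (h3.intervalIntegrable a b).congr ?_
        intro y hy
        rw [Set.uIoc_of_le hab] at hy
        show y ^ (1 / 4 : ℝ) * ‖lam c (pX (κ / x) (max y a))‖ ^ 2 =
          y ^ (1 / 4 : ℝ) * ‖lam c (pX (κ / x) y)‖ ^ 2
        rw [max_eq_left hy.1.le]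
    have h4 : (κ / x ^ 2)⁻¹ ≤ v ^ 2 / κ := by
      have : (κ / v ^ 2)⁻¹ = v ^ 2 / κ := by rw [inv_div]
      rw [← this]
      exact inv_anti₀ (by positivity) hxv
    have h5 : (κ / x ^ 2) ^ (-(1 / 4) : ℝ) ≤ (κ / v ^ 2) ^ (-(1 / 4) : ℝ) :=
      Real.rpow_le_rpow_of_nonpos (by positivity) hxv (by norm_num)
    have h6 : 0 ≤ (κ / x ^ 2) ^ (-(1 / 4) : ℝ) := Real.rpow_nonneg hcc.le _
    rw [← mul_assoc]
    have h7 : (κ / x ^ 2)⁻¹ * (κ / x ^ 2) ^ (-(1 / 4) : ℝ) ≤ K :=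
      mul_le_mul h4 h5 h6 (by positivity)
    exact mul_le_mul h7 h2 (by
      refine intervalIntegral.integral_nonneg ?_ fun y hy => ?_
      · calc κ / x ^ 2 * δ ≤ κ / x ^ 2 * 1 := mul_le_mul_of_nonneg_left hδ1.le hcc.le
          _ = κ / x ^ 2 := mul_one _
      · have hy0 : 0 ≤ y := le_trans (by positivity) hy.1
        positivity) hK0
  -- the outer integral
  have hcd : ContinuousOn (fun x : ℝ => K * HH c a b (κ / x)) (Set.Icc u v) := by
    refine continuousOn_const.mul (hHc.comp_continuousOn ?_)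
    refine continuousOn_const.div continuousOn_id fun x hx => ?_
    exact (lt_of_lt_of_le hu hx.1).ne'
  have h1 : ∫ x in u..v, ∫ y in δ..1, y ^ (1 / 4 : ℝ) *
      ‖lam c (pX (κ / x) (κ * y / x ^ 2))‖ ^ 2 ≤ ∫ x in u..v, K * HH c a b (κ / x) := by
    rw [intervalIntegral.integral_of_le huv.le, intervalIntegral.integral_of_le huv.le]
    refine MeasureTheory.integral_mono_of_nonneg ?_ ?_ ?_
    · refine Filter.Eventually.of_forall fun x => ?_
      refine intervalIntegral.integral_nonneg hδ1.le fun y hy => ?_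
      have hy0 : 0 ≤ y := hδ.le.trans hy.1
      positivity
    · exact (hcd.integrableOn_compact isCompact_Icc).mono_set Set.Ioc_subset_Icc_self
    · rw [Filter.EventuallyLE, MeasureTheory.ae_restrict_iff' measurableSet_Ioc]
      exact Filter.Eventually.of_forall fun x hx => hin x (Set.Ioc_subset_Icc_self hx)
  have h2 : ∫ x in u..v, HH c a b (κ / x) ≤ v ^ 2 / κ * ∫ x in (κ / v)..(κ / u), HH c a b x := by
    rw [← intervalIntegral.integral_const_mul, intervalIntegral.integral_of_le huv.le,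
      intervalIntegral.integral_of_le hle, ← MeasureTheory.integral_Icc_eq_integral_Ioc,
      ← MeasureTheory.integral_Icc_eq_integral_Ioc]
    conv_lhs => rw [← CHV_.image_div hκ hu huv]
    rw [MeasureTheory.integral_image_eq_integral_abs_deriv_smul (f' := fun x => -κ / x ^ 2)
      measurableSet_Icc]
    · have hcr : ContinuousOn (fun x : ℝ => v ^ 2 / κ * HH c a b x)
          (Set.Icc (κ / v) (κ / u)) := (continuous_const.mul hHc).continuousOn
      refine MeasureTheory.integral_mono_of_nonneg ?_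
        (hcr.integrableOn_compact isCompact_Icc) ?_
      · refine Filter.Eventually.of_forall fun x => ?_
        show 0 ≤ |-κ / x ^ 2| • HH c a b (κ / (κ / x))
        rw [smul_eq_mul]
        exact mul_nonneg (abs_nonneg _) (hH0 _)
      · rw [Filter.EventuallyLE, MeasureTheory.ae_restrict_iff' measurableSet_Icc]
        refine Filter.Eventually.of_forall fun x hx => ?_
        have hx0 : 0 < x := lt_of_lt_of_le (by positivity) hx.1
        have e1 : κ / (κ / x) = x := by field_simp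
        have e3 : |-κ / x ^ 2| = κ / x ^ 2 := by
          rw [neg_div, abs_neg, abs_of_pos (by positivity)]
        show |-κ / x ^ 2| • HH c a b (κ / (κ / x)) ≤ v ^ 2 / κ * HH c a b x
        rw [e1, e3, smul_eq_mul]
        refine mul_le_mul_of_nonneg_right ?_ (hH0 x)
        have h3 : (κ / v) ^ 2 ≤ x ^ 2 := pow_le_pow_left₀ (by positivity) hx.1 2
        have h4 : κ / x ^ 2 ≤ κ / (κ / v) ^ 2 :=
          div_le_div_of_nonneg_left hκ.le (by positivity) h3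
        refine h4.trans (le_of_eq ?_)
        field_simp
    · intro x hx
      have hx0 : 0 < x := lt_of_lt_of_le (by positivity) hx.1
      have h1 := (hasDerivAt_inv hx0.ne').const_mul κ
      have h2 : κ * -(x ^ 2)⁻¹ = -κ / x ^ 2 := by ring
      rw [h2] at h1
      exact h1.hasDerivWithinAt
    · intro x hx y hy hxy
      have hx0 : 0 < x := lt_of_lt_of_le (by positivity) hx.1
      have hy0 : 0 < y := lt_of_lt_of_le (by positivity) hy.1
      have h1 : κ / x = κ / y := hxy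
      rw [div_eq_div_iff hx0.ne' hy0.ne'] at h1
      exact (mul_left_cancel₀ hκ.ne' h1).symm
  have h3 := HH_periods hHc hH0 (HH_per c a b) hle
  have h4 := HH_int hC1 hC2 ha0 hab
  refine h1.trans ?_
  rw [intervalIntegral.integral_const_mul]
  refine mul_le_mul_of_nonneg_left (h2.trans ?_) hK0
  refine mul_le_mul_of_nonneg_left (h3.trans ?_) (by positivity)
  exact mul_le_mul_of_nonneg_left h4 (Nat.cast_nonneg _)

end

end Pool.Agent.SelQ
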