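import Pool.Agent.SelQ.TargetsI
import Pool.Agent.SelDeg2.MER

/-!
# Degree 2 without the mean square bound (MP_995735_nt): the mean square bound as a theorem
-/

set_option autoImplicit false

namespace Pool.Agent.SelQ

open Complex Filter Topology
open Pool.Agent.SelTwo (DegreeTwo FEq)
open Pool.Agent.SelDeg2 (MeanSquare)
open Pool.Agent.SelPole (IsSelberg)

theorem p_MSF (hTHQ : T_THQ) (hUDR : T_UDR) (hKRQ : T_KRQ) (hCQ : T_CQ) : T_MSF := by
  intro F a b r hF hdeg hr hpole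
  have hQ : QP a := hTHQ F a b hF hdeg
  obtain ⟨R₀, hR⟩ := Pool.Agent.SelDeg2.p_MER F a b r hF hr hpole
  obtain ⟨Q, k, l, m, w, hfe, hsum⟩ := hdeg
  have hsum1 : ∑ j, l j = 1 := by linarith
  obtain ⟨A, κ, hD, hU⟩ := hUDR F a b Q k l m w hF hfe hsum1
  exact hCQ F a b r R₀ A κ _ hF hR hQ hD hU (hKRQ F a b r R₀ A κ _ hF hR hQ hD)

end Pool.Agent.SelQ
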