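import Pool.Agent.SelQ.TargetsE

set_option autoImplicit false

/-!
# The diagonal and the rest (MP_995735_nt)

`∫ y^η ∫ W ‖lam‖²` is the sum over all pairs `(n, m)`; the pairs with `n = m` give the diagonal,
the other ones are bounded by the correlations.
-/

open Finset

namespace Pool.Agent.SelQ

open Pool.Agent.SelTwo (lam pX)
open Pool.Agent.SelDeg2 (ee)

noncomputable section

namespace OFF_

/-- the decay factor -/
def dk (n : ℕ) (y : ℝ) : ℝ := Real.exp (-(2 * Real.pi * (n + 1) * y))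

lemma dk_pos (n : ℕ) (y : ℝ) : 0 < dk n y := Real.exp_pos _

lemma dk_le (n : ℕ) {y δ : ℝ} (h : δ ≤ y) : dk n y ≤ dk n δ := by
  unfold dk
  apply Real.exp_le_exp.2
  have h1 : 0 ≤ 2 * Real.pi * ((n : ℝ) + 1) := by positivity
  have := mul_le_mul_of_nonneg_left h h1
  linarith

lemma dk_cont (n : ℕ) : Continuous (dk n) := by
  unfold dk
  fun_prop

lemma summ (c : ℕ → ℂ) (hc : ∃ C : ℝ, ∀ n : ℕ, 1 ≤ n → ‖c n‖ ≤ C * n) {y : ℝ} (hy : 0 < y) :
    Summable fun n : ℕ => ‖c (n + 1)‖ * dk n y := by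
  obtain ⟨C, hC⟩ := hc
  have hr0 : 0 < Real.exp (-(2 * Real.pi * y)) := Real.exp_pos _
  have hr : ‖Real.exp (-(2 * Real.pi * y))‖ < 1 := by
    rw [Real.norm_eq_abs, abs_of_pos hr0, Real.exp_lt_one_iff]
    have : 0 < 2 * Real.pi * y := by positivity
    linarith
  have h1 := summable_pow_mul_geometric_of_norm_lt_one 1 hr
  have h2 := (summable_nat_add_iff 1).2 h1
  refine Summable.of_nonneg_of_le (fun n => mul_nonneg (norm_nonneg _) (dk_pos n y).le)
    (fun n => ?_) (h2.mul_left C)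
  have h3 : dk n y = Real.exp (-(2 * Real.pi * y)) ^ (n + 1) := by
    unfold dk
    rw [← Real.exp_nat_mul]
    congr 1
    push_cast
    ring
  rw [h3, pow_one, ← mul_assoc]
  exact mul_le_mul_of_nonneg_right (hC (n + 1) (by omega)) (pow_pos hr0 _).le

/-- all pairs -/
lemma summ2 (c : ℕ → ℂ) (hc : ∃ C : ℝ, ∀ n : ℕ, 1 ≤ n → ‖c n‖ ≤ C * n) {y : ℝ} (hy : 0 < y) :
    Summable fun p : ℕ × ℕ => (‖c (p.1 + 1)‖ * dk p.1 y) * (‖c (p.2 + 1)‖ * dk p.2 y) := by
  have h := summ c hc hy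
  have h1 : Summable fun n : ℕ => ‖‖c (n + 1)‖ * dk n y‖ := by
    refine h.congr fun n => ?_
    rw [Real.norm_eq_abs, abs_of_nonneg (mul_nonneg (norm_nonneg _) (dk_pos n y).le)]
  exact summable_mul_of_summable_norm h1 h1

lemma ee_cont (k : ℝ) : Continuous fun x : ℝ => ee (k * x) := by
  unfold ee
  fun_prop

lemma norm_ee (x : ℝ) : ‖ee x‖ = 1 := by
  unfold ee
  rw [Complex.norm_exp]
  simp

lemma hs_congr {ι E : Type} [AddCommMonoid E] [TopologicalSpace E] {f g : ι → E} {a : E}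
    (h : ∀ b, f b = g b) (hf : HasSum f a) : HasSum g a := by
  rw [← funext h]
  exact hf

lemma prod_sum {f : ℕ → ℂ} {s : ℂ} (h1 : Summable fun n => ‖f n‖) (h2 : HasSum f s) :
    HasSum (fun p : ℕ × ℕ => f p.1 * (starRingEnd ℂ) (f p.2)) ((‖s‖ ^ 2 : ℝ) : ℂ) := by
  have h3 : HasSum (fun n => (starRingEnd ℂ) (f n)) ((starRingEnd ℂ) s) := h2.star
  have h5 : Summable fun n => ‖(starRingEnd ℂ) (f n)‖ :=
    h1.congr fun n => (Complex.norm_conj (f n)).symm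
  have h6 : Summable fun p : ℕ × ℕ => f p.1 * (starRingEnd ℂ) (f p.2) :=
    summable_mul_of_summable_norm (f := f) (g := fun n => (starRingEnd ℂ) (f n)) h1 h5
  have h4 := HasSum.mul (f := f) (g := fun n => (starRingEnd ℂ) (f n)) h2 h3 h6
  have e1 : s * (starRingEnd ℂ) s = ((‖s‖ ^ 2 : ℝ) : ℂ) := by
    rw [Complex.ofReal_pow]
    exact Complex.mul_conj' s
  rw [← e1]
  exact h4

/-- the coefficient of a pair -/
def cc (c : ℕ → ℂ) (p : ℕ × ℕ) : ℂ := c (p.1 + 1) * (starRingEnd ℂ) (c (p.2 + 1))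

lemma norm_cc (c : ℕ → ℂ) (p : ℕ × ℕ) : ‖cc c p‖ = ‖c (p.1 + 1)‖ * ‖c (p.2 + 1)‖ := by
  unfold cc
  rw [norm_mul, Complex.norm_conj]

/-- the decay factor of a pair -/
def dp (p : ℕ × ℕ) (y : ℝ) : ℝ := dk p.1 y * dk p.2 y

lemma dp_pos (p : ℕ × ℕ) (y : ℝ) : 0 < dp p y := mul_pos (dk_pos _ _) (dk_pos _ _)

lemma dp_le (p : ℕ × ℕ) {y δ : ℝ} (h : δ ≤ y) : dp p y ≤ dp p δ :=
  mul_le_mul (dk_le _ h) (dk_le _ h) (dk_pos _ _).le (dk_pos _ _).le

lemma dp_cont (p : ℕ × ℕ) : Continuous (dp p) := (dk_cont _).mul (dk_cont _)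

/-- the difference of a pair -/
def df (p : ℕ × ℕ) : ℤ := (p.1 : ℤ) - p.2

lemma summ3 (c : ℕ → ℂ) (hc : ∃ C : ℝ, ∀ n : ℕ, 1 ≤ n → ‖c n‖ ≤ C * n) {y : ℝ} (hy : 0 < y) :
    Summable fun p : ℕ × ℕ => ‖cc c p‖ * dp p y := by
  refine (summ2 c hc hy).congr fun p => ?_
  rw [norm_cc]
  unfold dp
  ring

/-- the square as a double series -/
lemma lam_sq (c : ℕ → ℂ) (hc : ∃ C : ℝ, ∀ n : ℕ, 1 ≤ n → ‖c n‖ ≤ C * n) (x : ℝ) {y : ℝ}
    (hy : 0 < y) :
    HasSum (fun p : ℕ × ℕ => cc c p * (dp p y : ℂ) * ee ((df p : ℝ) * x))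
      ((‖lam c (pX x y)‖ ^ 2 : ℝ) : ℂ) := by
  have hs := summ c hc hy
  have hn : ∀ n : ℕ, ‖c (n + 1) * Complex.exp (-(((n : ℂ) + 1) * pX x y))‖ =
      ‖c (n + 1)‖ * dk n y := by
    intro n
    rw [norm_mul, Complex.norm_exp]
    unfold dk pX
    congr 2
    simp
    ring
  have h1 : Summable fun n : ℕ => ‖c (n + 1) * Complex.exp (-(((n : ℂ) + 1) * pX x y))‖ := by
    simpa only [hn] using hs
  have h2 : HasSum (fun n : ℕ => c (n + 1) * Complex.exp (-(((n : ℂ) + 1) * pX x y)))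
      (lam c (pX x y)) := h1.of_norm.hasSum
  refine hs_congr (fun p => ?_) (prod_sum h1 h2)
  have e2 : (starRingEnd ℂ) (c (p.2 + 1) * Complex.exp (-(((p.2 : ℂ) + 1) * pX x y))) =
      (starRingEnd ℂ) (c (p.2 + 1)) *
        Complex.exp (-(((p.2 : ℂ) + 1) * (2 * Real.pi * ((y : ℂ) + Complex.I * x)))) := by
    rw [map_mul, ← Complex.exp_conj]
    congr 2
    unfold pX
    simp only [map_neg, map_mul, map_add, map_sub, map_one, Complex.conj_ofReal, Complex.conj_I,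
      Complex.conj_natCast, map_ofNat]
    ring
  have e3 : ((dp p y : ℝ) : ℂ) * ee ((df p : ℝ) * x) =
      Complex.exp (-(((p.1 : ℂ) + 1) * pX x y)) *
        Complex.exp (-(((p.2 : ℂ) + 1) * (2 * Real.pi * ((y : ℂ) + Complex.I * x)))) := by
    unfold dp dk ee pX df
    rw [Complex.ofReal_mul, Complex.ofReal_exp, Complex.ofReal_exp, ← Complex.exp_add,
      ← Complex.exp_add, ← Complex.exp_add]
    congr 1
    push_cast
    ring
  rw [e2, mul_assoc _ _ (ee _), e3]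
  unfold cc
  ring

/-- the integral over `x` -/
lemma int_x (c : ℕ → ℂ) (hc : ∃ C : ℝ, ∀ n : ℕ, 1 ≤ n → ‖c n‖ ≤ C * n) (W : ℝ → ℝ) {α β : ℝ}
    (hαβ : α < β) (hW : ContinuousOn W (Set.Icc α β)) {y : ℝ} (hy : 0 < y) :
    HasSum (fun p : ℕ × ℕ => cc c p * (dp p y : ℂ) * FW W α β (df p))
      ((∫ x in α..β, W x * ‖lam c (pX x y)‖ ^ 2 : ℝ) : ℂ) := by
  obtain ⟨K, hK⟩ := isCompact_Icc.exists_bound_of_continuousOn hW
  have hsub : Set.uIoc α β ⊆ Set.Icc α β := by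
    rw [Set.uIoc_of_le hαβ.le]
    exact Set.Ioc_subset_Icc_self
  have hWm : MeasureTheory.AEStronglyMeasurable W
      (MeasureTheory.volume.restrict (Set.uIoc α β)) :=
    (hW.mono hsub).aestronglyMeasurable measurableSet_uIoc
  have hWc : MeasureTheory.AEStronglyMeasurable (fun x => (W x : ℂ))
      (MeasureTheory.volume.restrict (Set.uIoc α β)) :=
    Complex.continuous_ofReal.comp_aestronglyMeasurable hWm
  have h := intervalIntegral.hasSum_integral_of_dominated_convergence (a := α) (b := β)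
    (μ := MeasureTheory.volume)
    (F := fun (p : ℕ × ℕ) x => (W x : ℂ) * (cc c p * (dp p y : ℂ) * ee ((df p : ℝ) * x)))
    (f := fun x => (W x : ℂ) * ((‖lam c (pX x y)‖ ^ 2 : ℝ) : ℂ))
    (fun p _ => K * (‖cc c p‖ * dp p y))
    (fun p => hWc.mul (by
      refine Continuous.aestronglyMeasurable ?_
      exact continuous_const.mul (ee_cont _)))
    (fun p => Filter.Eventually.of_forall fun x hx => by
      rw [norm_mul, norm_mul, norm_mul, norm_ee, mul_one, Complex.norm_real, Complex.norm_real,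
        Real.norm_of_nonneg (dp_pos p y).le]
      exact mul_le_mul_of_nonneg_right (hK x (hsub hx))
        (mul_nonneg (norm_nonneg _) (dp_pos p y).le))
    (Filter.Eventually.of_forall fun x _ => (summ3 c hc hy).mul_left K)
    intervalIntegrable_const
    (Filter.Eventually.of_forall fun x _ => (lam_sq c hc x hy).mul_left _)
  have e1 : (∫ x in α..β, (W x : ℂ) * ((‖lam c (pX x y)‖ ^ 2 : ℝ) : ℂ)) =
      ((∫ x in α..β, W x * ‖lam c (pX x y)‖ ^ 2 : ℝ) : ℂ) := by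
    rw [← intervalIntegral.integral_ofReal]
    refine intervalIntegral.integral_congr fun x _ => ?_
    push_cast
    ring
  rw [← e1]
  refine hs_congr (fun p => ?_) h
  unfold FW
  rw [← intervalIntegral.integral_const_mul]
  refine intervalIntegral.integral_congr fun x _ => ?_
  ring

lemma FW_bound (W : ℝ → ℝ) {α β : ℝ} (hαβ : α < β) (hW : ContinuousOn W (Set.Icc α β)) :
    ∃ K : ℝ, 0 ≤ K ∧ ∀ k : ℤ, ‖FW W α β k‖ ≤ K := by
  obtain ⟨K, hK⟩ := isCompact_Icc.exists_bound_of_continuousOn hW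
  have hsub : Set.uIoc α β ⊆ Set.Icc α β := by
    rw [Set.uIoc_of_le hαβ.le]
    exact Set.Ioc_subset_Icc_self
  have h1 : ∀ k : ℤ, ‖FW W α β k‖ ≤ K * |β - α| := by
    intro k
    unfold FW
    refine intervalIntegral.norm_integral_le_of_norm_le_const fun x hx => ?_
    rw [norm_mul, norm_ee, mul_one, Complex.norm_real]
    exact hK x (hsub hx)
  exact ⟨K * |β - α|, (norm_nonneg _).trans (h1 0), h1⟩

/-- the integral over `y` of the decay factor -/
def JJ (η δ Y : ℝ) (p : ℕ × ℕ) : ℝ := ∫ y in δ..Y, y ^ η * dp p y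

/-- the integral over `y` -/
lemma int_y (c : ℕ → ℂ) (hc : ∃ C : ℝ, ∀ n : ℕ, 1 ≤ n → ‖c n‖ ≤ C * n) (W : ℝ → ℝ)
    {α β η δ Y : ℝ} (hη : 0 < η) (hδ : 0 < δ) (hδY : δ < Y)
    (hαβ : α < β) (hW : ContinuousOn W (Set.Icc α β)) :
    HasSum (fun p : ℕ × ℕ => cc c p * FW W α β (df p) * (JJ η δ Y p : ℂ))
      ((∫ y in δ..Y, y ^ η * ∫ x in α..β, W x * ‖lam c (pX x y)‖ ^ 2 : ℝ) : ℂ) := by
  obtain ⟨K, hK0, hK⟩ := FW_bound W hαβ hW
  have hyc : Continuous fun y : ℝ => y ^ η := Real.continuous_rpow_const hη.le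
  have h := intervalIntegral.hasSum_integral_of_dominated_convergence (a := δ) (b := Y)
    (μ := MeasureTheory.volume)
    (F := fun (p : ℕ × ℕ) y => cc c p * FW W α β (df p) * ((y ^ η * dp p y : ℝ) : ℂ))
    (f := fun y => ((y ^ η * ∫ x in α..β, W x * ‖lam c (pX x y)‖ ^ 2 : ℝ) : ℂ))
    (fun p _ => (K * Y ^ η) * (‖cc c p‖ * dp p δ))
    (fun p => by
      refine Continuous.aestronglyMeasurable ?_
      exact continuous_const.mul (Complex.continuous_ofReal.comp (hyc.mul (dp_cont p))))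
    (fun p => Filter.Eventually.of_forall fun y hy => by
      rw [Set.uIoc_of_le hδY.le] at hy
      have hy0 : 0 < y := hδ.trans hy.1
      have h1 : 0 ≤ y ^ η := Real.rpow_nonneg hy0.le η
      have h2 : y ^ η ≤ Y ^ η := Real.rpow_le_rpow hy0.le hy.2 hη.le
      rw [norm_mul, norm_mul, Complex.norm_real,
        Real.norm_of_nonneg (mul_nonneg h1 (dp_pos p y).le)]
      have h3 : y ^ η * dp p y ≤ Y ^ η * dp p δ :=
        mul_le_mul h2 (dp_le p hy.1.le) (dp_pos p y).le (h1.trans h2)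
      have h4 : ‖cc c p‖ * ‖FW W α β (df p)‖ ≤ ‖cc c p‖ * K :=
        mul_le_mul_of_nonneg_left (hK _) (norm_nonneg _)
      calc ‖cc c p‖ * ‖FW W α β (df p)‖ * (y ^ η * dp p y) ≤
          (‖cc c p‖ * K) * (Y ^ η * dp p δ) :=
            mul_le_mul h4 h3 (mul_nonneg h1 (dp_pos p y).le)
              (mul_nonneg (norm_nonneg _) hK0)
        _ = _ := by ring)
    (Filter.Eventually.of_forall fun y _ => (summ3 c hc hδ).mul_left _)
    intervalIntegrable_const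
    (Filter.Eventually.of_forall fun y hy => by
      rw [Set.uIoc_of_le hδY.le] at hy
      have hy0 : 0 < y := hδ.trans hy.1
      have h1 := (int_x c hc W hαβ hW hy0).mul_left ((y ^ η : ℝ) : ℂ)
      rw [Complex.ofReal_mul]
      refine hs_congr (fun p => ?_) h1
      rw [Complex.ofReal_mul]
      ring)
  rw [← intervalIntegral.integral_ofReal]
  refine hs_congr (fun p => ?_) h
  rw [intervalIntegral.integral_const_mul, intervalIntegral.integral_ofReal]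
  rfl

/-- the diagonal -/
lemma int_d (c : ℕ → ℂ) (hc : ∃ C : ℝ, ∀ n : ℕ, 1 ≤ n → ‖c n‖ ≤ C * n)
    {η δ Y : ℝ} (hη : 0 < η) (hδ : 0 < δ) (hδY : δ < Y) :
    HasSum (fun n : ℕ => ‖c (n + 1)‖ ^ 2 * JJ η δ Y (n, n))
      (∫ y in δ..Y, y ^ η * ∑' n : ℕ, ‖c (n + 1)‖ ^ 2 *
        Real.exp (-(4 * Real.pi * (n + 1) * y))) := by
  have hyc : Continuous fun y : ℝ => y ^ η := Real.continuous_rpow_const hη.le
  have hdiag : Function.Injective fun n : ℕ => (n, n) := fun a b h => (Prod.mk.inj h).1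
  have hsd : ∀ y, 0 < y → Summable fun n : ℕ => ‖c (n + 1)‖ ^ 2 * dp (n, n) y := by
    intro y hy
    have h1 := (summ3 c hc hy).comp_injective hdiag
    refine h1.congr fun n => ?_
    simp only [Function.comp]
    rw [norm_cc]
    ring
  have he : ∀ (n : ℕ) (y : ℝ), Real.exp (-(4 * Real.pi * (n + 1) * y)) = dp (n, n) y := by
    intro n y
    unfold dp dk
    rw [← Real.exp_add]
    congr 1
    ring
  have h := intervalIntegral.hasSum_integral_of_dominated_convergence (a := δ) (b := Y)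
    (μ := MeasureTheory.volume)
    (F := fun (n : ℕ) y => ‖c (n + 1)‖ ^ 2 * (y ^ η * dp (n, n) y))
    (f := fun y => y ^ η * ∑' n : ℕ, ‖c (n + 1)‖ ^ 2 * dp (n, n) y)
    (fun n _ => Y ^ η * (‖c (n + 1)‖ ^ 2 * dp (n, n) δ))
    (fun n => by
      refine Continuous.aestronglyMeasurable ?_
      exact continuous_const.mul (hyc.mul (dp_cont _)))
    (fun n => Filter.Eventually.of_forall fun y hy => by
      rw [Set.uIoc_of_le hδY.le] at hy
      have hy0 : 0 < y := hδ.trans hy.1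
      have h1 : 0 ≤ y ^ η := Real.rpow_nonneg hy0.le η
      have h2 : y ^ η ≤ Y ^ η := Real.rpow_le_rpow hy0.le hy.2 hη.le
      have h5 := dp_pos (n, n) y
      rw [Real.norm_of_nonneg (by positivity)]
      have h3 : y ^ η * dp (n, n) y ≤ Y ^ η * dp (n, n) δ :=
        mul_le_mul h2 (dp_le _ hy.1.le) h5.le (h1.trans h2)
      have h4 := mul_le_mul_of_nonneg_left h3 (sq_nonneg ‖c (n + 1)‖)
      linarith)
    (Filter.Eventually.of_forall fun y _ => (hsd δ hδ).mul_left _)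
    intervalIntegrable_const
    (Filter.Eventually.of_forall fun y hy => by
      rw [Set.uIoc_of_le hδY.le] at hy
      have hy0 : 0 < y := hδ.trans hy.1
      refine hs_congr (fun n => ?_) ((hsd y hy0).hasSum.mul_left (y ^ η))
      ring)
  simp only [he]
  refine hs_congr (fun n => ?_) h
  rw [intervalIntegral.integral_const_mul]
  rfl

/-- the decay in `n`, `m` -/
lemma JJ_le {η δ Y : ℝ} (h0 : 0 < η) (h1 : η ≤ 1) (hδ : 0 < δ) (hδY : δ < Y) (p : ℕ × ℕ) :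
    JJ η δ Y p ≤ (((p.1 : ℝ) + 1) * (p.2 + 1)) ^ (-(1 + η) / 2) := by
  set a : ℝ := (p.1 : ℝ) + 1 with ha
  set b : ℝ := (p.2 : ℝ) + 1 with hb
  have ha1 : 1 ≤ a := by rw [ha]; have : (0 : ℝ) ≤ p.1 := Nat.cast_nonneg _; linarith
  have hb1 : 1 ≤ b := by rw [hb]; have : (0 : ℝ) ≤ p.2 := Nat.cast_nonneg _; linarith
  set N : ℝ := a + b with hN
  have hN0 : 0 < N := by linarith
  have hpt : ∀ y ∈ Set.Icc δ Y, y ^ η * dp p y ≤ N ^ (-η) * Real.exp (-(N * y)) := by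
    intro y hy
    have hy0 : 0 < y := hδ.trans_le hy.1
    have hNy : 0 < N * y := mul_pos hN0 hy0
    have e1 : y ^ η = N ^ (-η) * (N * y) ^ η := by
      rw [Real.mul_rpow hN0.le hy0.le, ← mul_assoc, ← Real.rpow_add hN0]
      simp
    have e2 : dp p y = Real.exp (-(2 * Real.pi * (N * y))) := by
      unfold dp dk
      rw [← Real.exp_add]
      congr 1
      rw [hN, ha, hb]
      ring
    have h2 : (N * y) ^ η ≤ Real.exp (N * y) := by
      have h3 : (N * y) ^ η ≤ 1 + N * y := by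
        rcases le_total (N * y) 1 with h | h
        · have := Real.rpow_le_one hNy.le h h0.le
          linarith
        · have := Real.rpow_le_rpow_of_exponent_le h h1
          rw [Real.rpow_one] at this
          linarith
      have := Real.add_one_le_exp (N * y)
      linarith
    have h3 : Real.exp (N * y) * Real.exp (-(2 * Real.pi * (N * y))) ≤ Real.exp (-(N * y)) := by
      rw [← Real.exp_add]
      apply Real.exp_le_exp.2
      have : 3 < Real.pi := Real.pi_gt_three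
      nlinarith
    rw [e1, e2, mul_assoc]
    refine mul_le_mul_of_nonneg_left ?_ (Real.rpow_nonneg hN0.le _)
    exact (mul_le_mul_of_nonneg_right h2 (Real.exp_pos _).le).trans h3
  have hyc : Continuous fun y : ℝ => y ^ η := Real.continuous_rpow_const h0.le
  have hi1 : IntervalIntegrable (fun y => y ^ η * dp p y) MeasureTheory.volume δ Y :=
    (hyc.mul (dp_cont p)).intervalIntegrable _ _
  have hi2 : IntervalIntegrable (fun y => N ^ (-η) * Real.exp (-(N * y)))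
      MeasureTheory.volume δ Y :=
    (continuous_const.mul (by fun_prop)).intervalIntegrable _ _
  have h2 : JJ η δ Y p ≤ ∫ y in δ..Y, N ^ (-η) * Real.exp (-(N * y)) :=
    intervalIntegral.integral_mono_on hδY.le hi1 hi2 hpt
  have h3 : ∫ y in δ..Y, Real.exp (-(N * y)) ≤ N⁻¹ := by
    have hd : ∀ y ∈ Set.uIcc δ Y, HasDerivAt (fun y => -(N⁻¹ * Real.exp (-(N * y))))
        (Real.exp (-(N * y))) y := by
      intro y _
      have h4 : HasDerivAt (fun y => -(N * y)) (-N) y := by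
        have := (hasDerivAt_id y).const_mul (-N)
        simpa [neg_mul] using this
      have h5 := (h4.exp).const_mul (-N⁻¹)
      have h6 : HasDerivAt (fun y => -(N⁻¹ * Real.exp (-(N * y))))
          (-N⁻¹ * (Real.exp (-(N * y)) * -N)) y := by
        simpa only [neg_mul] using h5
      refine h6.congr_deriv ?_
      field_simp
    rw [intervalIntegral.integral_eq_sub_of_hasDerivAt hd
      (Continuous.intervalIntegrable (by fun_prop) _ _)]
    have h6 : Real.exp (-(N * δ)) ≤ 1 := by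
      rw [Real.exp_le_one_iff]
      have := mul_pos hN0 hδ
      linarith
    have h7 : 0 ≤ N⁻¹ * Real.exp (-(N * Y)) := by positivity
    have h8 : N⁻¹ * Real.exp (-(N * δ)) ≤ N⁻¹ * 1 :=
      mul_le_mul_of_nonneg_left h6 (inv_nonneg.2 hN0.le)
    linarith
  have h4 : JJ η δ Y p ≤ N ^ (-(1 + η)) := by
    refine h2.trans ?_
    rw [intervalIntegral.integral_const_mul]
    refine (mul_le_mul_of_nonneg_left h3 (Real.rpow_nonneg hN0.le _)).trans (le_of_eq ?_)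
    rw [← Real.rpow_neg_one, ← Real.rpow_add hN0]
    congr 1
    ring
  refine h4.trans ?_
  have h5 : N ^ (-(1 + η)) = (N ^ 2) ^ (-(1 + η) / 2) := by
    rw [← Real.rpow_natCast N 2, ← Real.rpow_mul hN0.le]
    congr 1
    push_cast
    ring
  rw [h5]
  refine Real.rpow_le_rpow_of_nonpos (by positivity) ?_ (by linarith)
  rw [hN]
  nlinarith

lemma JJ_nonneg {η δ Y : ℝ} (hδ : 0 < δ) (hδY : δ < Y) (p : ℕ × ℕ) : 0 ≤ JJ η δ Y p := by
  unfold JJ
  refine intervalIntegral.integral_nonneg hδY.le fun y hy => ?_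
  exact mul_nonneg (Real.rpow_nonneg (hδ.le.trans hy.1) _) (dp_pos p y).le

/-- a double series is the diagonal and the two triangles -/
lemma tsum_tri {f : ℕ × ℕ → ℂ} (hf : Summable f) :
    ∑' p, f p = ∑' n, f (n, n) + (∑' q : ℕ × ℕ, f (q.2, q.2 + (q.1 + 1)) +
      ∑' q : ℕ × ℕ, f (q.2 + (q.1 + 1), q.2)) := by
  have h1 : ∀ (P : ℕ × ℕ → Prop) [DecidablePred P],
      Summable fun p => if P p then f p else 0 := by
    intro P _
    have := hf.indicator {p | P p}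
    refine this.congr fun p => ?_
    by_cases h : P p
    · rw [Set.indicator_of_mem (show p ∈ {p | P p} from h), if_pos h]
    · rw [Set.indicator_of_notMem (show p ∉ {p | P p} from h), if_neg h]
  have h2 : ∀ p, f p = (if p.1 = p.2 then f p else 0) +
      ((if p.1 < p.2 then f p else 0) + (if p.2 < p.1 then f p else 0)) := by
    intro p
    rcases lt_trichotomy p.1 p.2 with h | h | h
    · rw [if_neg (by omega), if_pos h, if_neg (by omega)]; ring
    · rw [if_pos h, if_neg (by omega), if_neg (by omega)]; ring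
    · rw [if_neg (by omega), if_neg (by omega), if_pos h]; ring
  have e0 : ∑' p, f p = ∑' p, ((if p.1 = p.2 then f p else 0) +
      ((if p.1 < p.2 then f p else 0) + (if p.2 < p.1 then f p else 0))) := tsum_congr h2
  rw [e0, (h1 fun p => p.1 = p.2).tsum_add ((h1 fun p => p.1 < p.2).add
    (h1 fun p => p.2 < p.1)), (h1 fun p => p.1 < p.2).tsum_add (h1 fun p => p.2 < p.1)]
  congr 1
  · have hinj : Function.Injective fun n : ℕ => (n, n) := fun a b h => (Prod.mk.inj h).1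
    rw [← hinj.tsum_eq]
    · refine tsum_congr fun n => ?_
      rw [if_pos rfl]
    · intro p hp
      rw [Function.mem_support] at hp
      by_cases h : p.1 = p.2
      · exact ⟨p.1, by rw [Prod.ext_iff]; exact ⟨rfl, h⟩⟩
      · rw [if_neg h] at hp
        exact absurd rfl hp
  · congr 1
    · have hinj : Function.Injective fun q : ℕ × ℕ => (q.2, q.2 + (q.1 + 1)) := by
        rintro ⟨a, b⟩ ⟨a', b'⟩ h
        rw [Prod.mk.injEq] at h ⊢
        simp only at h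
        omega
      rw [← hinj.tsum_eq]
      · refine tsum_congr fun q => ?_
        rw [if_pos]
        simp only
        omega
      · intro p hp
        rw [Function.mem_support] at hp
        by_cases h : p.1 < p.2
        · refine ⟨(p.2 - p.1 - 1, p.1), ?_⟩
          rw [Prod.ext_iff]
          refine ⟨rfl, ?_⟩
          simp only
          omega
        · rw [if_neg h] at hp
          exact absurd rfl hp
    · have hinj : Function.Injective fun q : ℕ × ℕ => (q.2 + (q.1 + 1), q.2) := by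
        rintro ⟨a, b⟩ ⟨a', b'⟩ h
        rw [Prod.mk.injEq] at h ⊢
        simp only at h
        omega
      rw [← hinj.tsum_eq]
      · refine tsum_congr fun q => ?_
        rw [if_pos]
        simp only
        omega
      · intro p hp
        rw [Function.mem_support] at hp
        by_cases h : p.2 < p.1
        · refine ⟨(p.1 - p.2 - 1, p.2), ?_⟩
          rw [Prod.ext_iff]
          refine ⟨?_, rfl⟩
          simp only
          omega
        · rw [if_neg h] at hp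
          exact absurd rfl hp

/-- one off-diagonal term -/
lemma off_le {c : ℕ → ℂ} {W : ℝ → ℝ} {η δ Y α β B : ℝ} (h0 : 0 < η) (h1 : η ≤ 1) (hδ : 0 < δ)
    (hδY : δ < Y) (hB : 0 ≤ B) (hFW : ∀ k : ℤ, k ≠ 0 → ‖FW W α β k‖ ≤ B / (k : ℝ) ^ 2)
    (p : ℕ × ℕ) (hp : df p ≠ 0) :
    ‖cc c p * FW W α β (df p) * (JJ η δ Y p : ℂ)‖ ≤
      B * (‖c (p.1 + 1)‖ * ‖c (p.2 + 1)‖ * (((p.1 : ℝ) + 1) * (p.2 + 1)) ^ (-(1 + η) / 2) /
        (df p : ℝ) ^ 2) := by
  rw [norm_mul, norm_mul, norm_cc, Complex.norm_real, Real.norm_of_nonneg (JJ_nonneg hδ hδY p)]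
  have h2 := hFW _ hp
  have h3 := JJ_le h0 h1 hδ hδY p
  have h4 := JJ_nonneg (η := η) hδ hδY p
  have h5 : 0 ≤ ‖c (p.1 + 1)‖ * ‖c (p.2 + 1)‖ := mul_nonneg (norm_nonneg _) (norm_nonneg _)
  have h6 : 0 ≤ B / (df p : ℝ) ^ 2 := div_nonneg hB (sq_nonneg _)
  calc ‖c (p.1 + 1)‖ * ‖c (p.2 + 1)‖ * ‖FW W α β (df p)‖ * JJ η δ Y p ≤
      ‖c (p.1 + 1)‖ * ‖c (p.2 + 1)‖ * (B / (df p : ℝ) ^ 2) *
        (((p.1 : ℝ) + 1) * (p.2 + 1)) ^ (-(1 + η) / 2) :=
        mul_le_mul (mul_le_mul_of_nonneg_left h2 h5) h3 h4 (mul_nonneg h5 h6)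
    _ = _ := by ring

lemma FW_zero (W : ℝ → ℝ) (α β : ℝ) : FW W α β 0 = ((∫ x in α..β, W x : ℝ) : ℂ) := by
  unfold FW ee
  rw [← intervalIntegral.integral_ofReal]
  refine intervalIntegral.integral_congr fun x _ => ?_
  simp

/-- one term of the correlation -/
def tt (c : ℕ → ℂ) (η : ℝ) (k n : ℕ) : ℝ :=
  ‖c n‖ * ‖c (n + (k + 1))‖ * ((n : ℝ) * (n + ((k + 1 : ℕ) : ℝ))) ^ (-(1 + η) / 2)

lemma tt_nonneg (c : ℕ → ℂ) (η : ℝ) (k n : ℕ) : 0 ≤ tt c η k n :=
  mul_nonneg (mul_nonneg (norm_nonneg _) (norm_nonneg _)) (Real.rpow_nonneg (by positivity) _)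

/-- the bound of a pair -/
def GG (c : ℕ → ℂ) (η : ℝ) (q : ℕ × ℕ) : ℝ := tt c η q.1 (q.2 + 1) / ((q.1 : ℝ) + 1) ^ 2

lemma GG_nonneg (c : ℕ → ℂ) (η : ℝ) : 0 ≤ GG c η := fun _ =>
  div_nonneg (tt_nonneg _ _ _ _) (by positivity)

lemma cor_eq {c : ℕ → ℂ} {η : ℝ} (h0 : 0 < η) (k : ℕ) (hs : Summable (tt c η k)) :
    cor (fun n => ‖c n‖) η (k + 1) = ∑' n, tt c η k (n + 1) := by
  have hr0 : -(1 + η) / 2 ≠ 0 := by
    have : -(1 + η) / 2 < 0 := by linarith
    exact this.ne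
  have e2 : tt c η k 0 = 0 := by
    unfold tt
    rw [Nat.cast_zero, zero_mul, Real.zero_rpow hr0, mul_zero]
  have e1 : cor (fun n => ‖c n‖) η (k + 1) = ∑' n, tt c η k n := by
    unfold cor tt
    rfl
  rw [e1, hs.tsum_eq_zero_add, e2, zero_add]

lemma GG_row {c : ℕ → ℂ} {η : ℝ} (hs : ∀ k, Summable (tt c η k)) (k : ℕ) :
    Summable fun n => GG c η (k, n) := by
  have h := (summable_nat_add_iff 1).2 (hs k)
  exact h.div_const (((k : ℝ) + 1) ^ 2)

lemma GG_row_sum {c : ℕ → ℂ} {η : ℝ} (h0 : 0 < η) (hs : ∀ k, Summable (tt c η k)) (k : ℕ) :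
    ∑' n, GG c η (k, n) = cor (fun n => ‖c n‖) η (k + 1) / ((k : ℝ) + 1) ^ 2 := by
  rw [cor_eq h0 k (hs k), ← tsum_div_const]
  rfl

lemma GG_sum {c : ℕ → ℂ} {η : ℝ} (h0 : 0 < η) (hs : ∀ k, Summable (tt c η k))
    (hS2 : Summable (fun k : ℕ => cor (fun n => ‖c n‖) η (k + 1) / ((k : ℝ) + 1) ^ 2)) :
    HasSum (GG c η) (∑' k : ℕ, cor (fun n => ‖c n‖) η (k + 1) / ((k : ℝ) + 1) ^ 2) := by
  have h1 : Summable fun k : ℕ => ∑' n, GG c η (k, n) :=
    hS2.congr fun k => (GG_row_sum h0 hs k).symm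
  have h2 : Summable (GG c η) := (summable_prod_of_nonneg (GG_nonneg c η)).2 ⟨GG_row hs, h1⟩
  have h3 : ∑' q, GG c η q = ∑' k : ℕ, cor (fun n => ‖c n‖) η (k + 1) / ((k : ℝ) + 1) ^ 2 := by
    rw [h2.tsum_prod' (GG_row hs)]
    exact tsum_congr (GG_row_sum h0 hs)
  rw [← h3]
  exact h2.hasSum

/-- one term -/
def ff (c : ℕ → ℂ) (W : ℝ → ℝ) (η δ Y α β : ℝ) (p : ℕ × ℕ) : ℂ :=
  cc c p * FW W α β (df p) * (JJ η δ Y p : ℂ)

lemma ff_one {c : ℕ → ℂ} {W : ℝ → ℝ} {η δ Y α β B : ℝ} (h0 : 0 < η) (h1 : η ≤ 1) (hδ : 0 < δ)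
    (hδY : δ < Y) (hB : 0 ≤ B) (hFW : ∀ k : ℤ, k ≠ 0 → ‖FW W α β k‖ ≤ B / (k : ℝ) ^ 2)
    (q : ℕ × ℕ) : ‖ff c W η δ Y α β (q.2, q.2 + (q.1 + 1))‖ ≤ B * GG c η q := by
  have e1 : df (q.2, q.2 + (q.1 + 1)) = -((q.1 : ℤ) + 1) := by unfold df; push_cast; ring
  have h2 := off_le (c := c) h0 h1 hδ hδY hB hFW (q.2, q.2 + (q.1 + 1)) (by rw [e1]; omega)
  refine h2.trans (le_of_eq ?_)
  rw [e1]
  unfold GG tt
  have e2 : q.2 + (q.1 + 1) + 1 = q.2 + 1 + (q.1 + 1) := by omega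
  have e3 : (((q.2 : ℕ) : ℝ) + 1) * (((q.2 + (q.1 + 1) : ℕ) : ℝ) + 1) =
      ((q.2 + 1 : ℕ) : ℝ) * (((q.2 + 1 : ℕ) : ℝ) + ((q.1 + 1 : ℕ) : ℝ)) := by
    push_cast
    ring
  have e4 : ((-((q.1 : ℤ) + 1) : ℤ) : ℝ) ^ 2 = ((q.1 : ℝ) + 1) ^ 2 := by
    push_cast
    ring
  simp only
  rw [e2, e3, e4]

lemma ff_two {c : ℕ → ℂ} {W : ℝ → ℝ} {η δ Y α β B : ℝ} (h0 : 0 < η) (h1 : η ≤ 1) (hδ : 0 < δ)
    (hδY : δ < Y) (hB : 0 ≤ B) (hFW : ∀ k : ℤ, k ≠ 0 → ‖FW W α β k‖ ≤ B / (k : ℝ) ^ 2)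
    (q : ℕ × ℕ) : ‖ff c W η δ Y α β (q.2 + (q.1 + 1), q.2)‖ ≤ B * GG c η q := by
  have e1 : df (q.2 + (q.1 + 1), q.2) = (q.1 : ℤ) + 1 := by unfold df; push_cast; ring
  have h2 := off_le (c := c) h0 h1 hδ hδY hB hFW (q.2 + (q.1 + 1), q.2) (by rw [e1]; omega)
  refine h2.trans (le_of_eq ?_)
  rw [e1]
  unfold GG tt
  have e2 : q.2 + (q.1 + 1) + 1 = q.2 + 1 + (q.1 + 1) := by omega
  have e3 : (((q.2 + (q.1 + 1) : ℕ) : ℝ) + 1) * (((q.2 : ℕ) : ℝ) + 1) =
      ((q.2 + 1 : ℕ) : ℝ) * (((q.2 + 1 : ℕ) : ℝ) + ((q.1 + 1 : ℕ) : ℝ)) := by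
    push_cast
    ring
  have e4 : ((((q.1 : ℤ) + 1) : ℤ) : ℝ) ^ 2 = ((q.1 : ℝ) + 1) ^ 2 := by
    push_cast
    ring
  simp only
  rw [e2, e3, e4, mul_comm ‖c (q.2 + 1 + (q.1 + 1))‖]

lemma ff_diag {c : ℕ → ℂ} {W : ℝ → ℝ} {η δ Y α β D : ℝ}
    (hd : HasSum (fun n : ℕ => ‖c (n + 1)‖ ^ 2 * JJ η δ Y (n, n)) D) :
    ∑' n : ℕ, ff c W η δ Y α β (n, n) = (((∫ x in α..β, W x) * D : ℝ) : ℂ) := by
  have e : ∀ n : ℕ, ff c W η δ Y α β (n, n) =
      ((∫ x in α..β, W x : ℝ) : ℂ) * ((‖c (n + 1)‖ ^ 2 * JJ η δ Y (n, n) : ℝ) : ℂ) := by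
    intro n
    have e1 : df (n, n) = 0 := by unfold df; simp
    have e2 : cc c (n, n) = ((‖c (n + 1)‖ ^ 2 : ℝ) : ℂ) := by
      unfold cc
      rw [Complex.ofReal_pow]
      exact Complex.mul_conj' _
    unfold ff
    rw [e1, FW_zero, e2, Complex.ofReal_mul]
    ring
  rw [tsum_congr e, tsum_mul_left, ← Complex.ofReal_tsum, hd.tsum_eq, Complex.ofReal_mul]

/-- the assembly -/
lemma fin {c : ℕ → ℂ} {W : ℝ → ℝ} {η δ Y α β B A D S : ℝ} (h0 : 0 < η) (h1 : η ≤ 1) (hδ : 0 < δ)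
    (hδY : δ < Y) (hB : 0 ≤ B) (hFW : ∀ k : ℤ, k ≠ 0 → ‖FW W α β k‖ ≤ B / (k : ℝ) ^ 2)
    (hd : HasSum (fun n : ℕ => ‖c (n + 1)‖ ^ 2 * JJ η δ Y (n, n)) D)
    (hf : HasSum (ff c W η δ Y α β) (A : ℂ)) (hG : HasSum (GG c η) S) :
    |A - (∫ x in α..β, W x) * D| ≤ 2 * B * S := by
  have htri := tsum_tri hf.summable
  rw [hf.tsum_eq, ff_diag hd] at htri
  have hb1 : ‖∑' q : ℕ × ℕ, ff c W η δ Y α β (q.2, q.2 + (q.1 + 1))‖ ≤ B * S :=
    tsum_of_norm_bounded (hG.mul_left B) (ff_one h0 h1 hδ hδY hB hFW)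
  have hb2 : ‖∑' q : ℕ × ℕ, ff c W η δ Y α β (q.2 + (q.1 + 1), q.2)‖ ≤ B * S :=
    tsum_of_norm_bounded (hG.mul_left B) (ff_two h0 h1 hδ hδY hB hFW)
  have hmain : ((A - (∫ x in α..β, W x) * D : ℝ) : ℂ) =
      (∑' q : ℕ × ℕ, ff c W η δ Y α β (q.2, q.2 + (q.1 + 1))) +
        ∑' q : ℕ × ℕ, ff c W η δ Y α β (q.2 + (q.1 + 1), q.2) := by
    rw [Complex.ofReal_sub, htri]
    ring
  rw [← Real.norm_eq_abs, ← Complex.norm_real, hmain]
  refine (norm_add_le _ _).trans ((add_le_add hb1 hb2).trans (le_of_eq ?_))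
  ring

end OFF_

open OFF_ in
/-- **the diagonal and the rest** -/
theorem p_OFF : T_OFF := by
  intro c W η δ Y α β B h0 h1 hδ hδY hαβ hW hc hB hFW hS1 hS2
  exact fin h0 h1 hδ hδY hB hFW (int_d c hc h0 hδ hδY) (int_y c hc W h0 hδ hδY hαβ hW)
    (GG_sum h0 (fun k => hS1 (k + 1) (by omega)) hS2)

end

end Pool.Agent.SelQ
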