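import Pool.Agent.SelQ.TargetsD

/-!
# Degree 2 without the mean square bound: removing one prime
-/

set_option autoImplicit false

open Finset

namespace Pool.Agent.SelQ

namespace ONE_

theorem fact_eq {p : ℕ} (hp : p.Prime) {j m : ℕ} (hm : ¬ p ∣ m) :
    (p ^ j * m).factorization p = j := by
  have hm0 : m ≠ 0 := by
    rintro rfl
    exact hm (dvd_zero p)
  rw [Nat.factorization_mul (pow_ne_zero _ hp.ne_zero) hm0, Finsupp.add_apply,
    hp.factorization_pow, Finsupp.single_eq_same, Nat.factorization_eq_zero_of_not_dvd hm,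
    add_zero]

theorem summable_pow {w : ℕ → ℝ} (hw : WF w) {p : ℕ} (hp : p.Prime) :
    Summable (fun j : ℕ => w (p ^ j)) :=
  hw.sm.comp_injective (Nat.pow_right_injective hp.two_le)

theorem summable_if {w : ℕ → ℝ} (hw : WF w) (p : ℕ) :
    Summable (fun m : ℕ => if p ∣ m then 0 else w m) := by
  refine Summable.of_nonneg_of_le (fun m => ?_) (fun m => ?_) hw.sm
  · split_ifs
    · exact le_rfl
    · exact hw.nn m
  · split_ifs
    · exact hw.nn m
    · exact le_rfl

end ONE_

open ONE_ in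
theorem p_ONE : T_ONE := by
  intro w hw p hp Φ hΦ
  obtain ⟨C, hC⟩ := hΦ
  set b : ℕ → ℝ := fun m => if p ∣ m then 0 else w m with hb
  have hb0 : ∀ m, 0 ≤ b m := by
    intro m
    simp only [hb]
    split_ifs
    · exact le_rfl
    · exact hw.nn m
  set G : ℕ × ℕ → ℝ := fun x => w (p ^ x.1) * (b x.2 * Φ x.1 x.2) with hG
  have hC0 : 0 ≤ C := (abs_nonneg _).trans (hC 0 0)
  have hsumG : Summable G := by
    have h1 : Summable (fun x : ℕ × ℕ => w (p ^ x.1) * b x.2) :=
      (summable_pow hw hp).mul_of_nonneg (summable_if hw p) (fun j => hw.nn _) hb0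
    refine Summable.of_norm_bounded (h1.mul_left C) fun x => ?_
    simp only [hG, norm_mul, Real.norm_eq_abs, abs_of_nonneg (hw.nn _), abs_of_nonneg (hb0 _)]
    have h2 : 0 ≤ w (p ^ x.1) * b x.2 := mul_nonneg (hw.nn _) (hb0 _)
    have h3 := mul_le_mul_of_nonneg_left (hC x.1 x.2) h2
    calc w (p ^ x.1) * (b x.2 * |Φ x.1 x.2|) = w (p ^ x.1) * b x.2 * |Φ x.1 x.2| := by ring
      _ ≤ w (p ^ x.1) * b x.2 * C := h3
      _ = C * (w (p ^ x.1) * b x.2) := by ring
  -- the pairs
  let g : {x : ℕ × ℕ // ¬ p ∣ x.2} → ℕ := fun x => p ^ x.1.1 * x.1.2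
  have hg : Function.Injective g := by
    rintro ⟨⟨j, m⟩, hm⟩ ⟨⟨j', m'⟩, hm'⟩ h
    simp only [g] at h hm hm'
    have h1 : j = j' := by
      have := congrArg (fun n => n.factorization p) h
      simp only [fact_eq hp hm, fact_eq hp hm'] at this
      exact this
    subst h1
    have h2 : m = m' := Nat.eq_of_mul_eq_mul_left (pow_pos hp.pos j) h
    subst h2
    rfl
  set f : ℕ → ℝ := fun n => w n * Φ (n.factorization p) (n / p ^ n.factorization p) with hf
  have hfs : Function.support f ⊆ Set.range g := by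
    intro n hn
    have hn0 : n ≠ 0 := by
      rintro rfl
      rw [Function.mem_support] at hn
      exact hn (by simp [hf, hw.zero])
    refine ⟨⟨(n.factorization p, n / p ^ n.factorization p), ?_⟩, ?_⟩
    · exact Nat.not_dvd_ordCompl hp hn0
    · exact Nat.ordProj_mul_ordCompl_eq_self n p
  have hGs : Function.support G ⊆
      Set.range (Subtype.val : {x : ℕ × ℕ // ¬ p ∣ x.2} → ℕ × ℕ) := by
    intro x hx
    rw [Subtype.range_coe_subtype]
    show ¬ p ∣ x.2
    intro hd
    rw [Function.mem_support] at hx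
    exact hx (by simp [hG, hb, hd])
  have h1 : ∑' n, f n = ∑' x, G x := by
    rw [← hg.tsum_eq hfs, ← Subtype.val_injective.tsum_eq hGs]
    refine tsum_congr fun x => ?_
    obtain ⟨⟨j, m⟩, hm⟩ := x
    have hm' : ¬ p ∣ m := hm
    simp only [hf, hG, g, hb, if_neg hm', fact_eq hp hm']
    rw [Nat.mul_div_cancel_left m (pow_pos hp.pos j),
      hw.mul _ _ (Nat.Coprime.pow_left j ((Nat.Prime.coprime_iff_not_dvd hp).2 hm'))]
    ring
  rw [h1, hsumG.tsum_prod]
  refine tsum_congr fun j => ?_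
  simp only [hG]
  rw [tsum_mul_left]

end Pool.Agent.SelQ
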