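import Pool.Agent.SelQ.TargetsD

/-!
# Target PAI: pairs with many divisors in the same window
-/

set_option autoImplicit false

open Finset

namespace Pool.Agent.SelQ

namespace PAI_

theorem wc_nonneg (c : ℕ → ℝ) (η : ℝ) (n : ℕ) : 0 ≤ wc c η n := by
  unfold wc; positivity

theorem wc_summable (c : ℕ → ℝ) (hc : MF c) (η : ℝ) (h : 0 < η) : Summable (wc c η) := by
  obtain ⟨C, hC⟩ := hc.small (η / 4) (by positivity)
  have hs : Summable (fun n : ℕ => C ^ 2 * (n : ℝ) ^ (-1 - η / 2)) :=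
    (Real.summable_nat_rpow.2 (by linarith)).mul_left _
  refine Summable.of_nonneg_of_le (wc_nonneg c η) (fun n => ?_) hs
  rcases Nat.eq_zero_or_pos n with rfl | hn
  · unfold wc
    have h1 : ((0 : ℕ) : ℝ) ^ (-1 - η) = 0 := by
      rw [Nat.cast_zero]; exact Real.zero_rpow (by linarith)
    rw [h1, mul_zero]; positivity
  · have hn' : (0 : ℝ) < n := by exact_mod_cast hn
    have h1 : c n ^ 2 ≤ (C * (n : ℝ) ^ (η / 4)) ^ 2 :=
      pow_le_pow_left₀ (hc.nn n) (hC n hn) 2
    have h2 : (C * (n : ℝ) ^ (η / 4)) ^ 2 * (n : ℝ) ^ (-1 - η) =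
        C ^ 2 * (n : ℝ) ^ (-1 - η / 2) := by
      rw [mul_pow, ← Real.rpow_natCast ((n : ℝ) ^ (η / 4)) 2, ← Real.rpow_mul hn'.le, mul_assoc,
        ← Real.rpow_add hn']
      congr 2
      push_cast; ring
    unfold wc
    calc c n ^ 2 * (n : ℝ) ^ (-1 - η) ≤ (C * (n : ℝ) ^ (η / 4)) ^ 2 * (n : ℝ) ^ (-1 - η) :=
          mul_le_mul_of_nonneg_right h1 (by positivity)
      _ = _ := h2

theorem sum_wc_le (c : ℕ → ℝ) (hc : MF c) (η : ℝ) (h : 0 < η) (s : Finset ℕ) :
    ∑ m ∈ s, wc c η m ≤ DD c η :=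
  (wc_summable c hc η h).sum_le_tsum s (fun n _ => wc_nonneg c η n)

/-- Elements of a window in one residue class. -/
theorem count_class (S : Finset ℕ) (x y : ℝ) (hS : ∀ d ∈ S, x ≤ d ∧ (d : ℝ) < y) (hxy : x ≤ y)
    (g : ℕ) (hg : 1 ≤ g) (hcl : ∀ a ∈ S, ∀ b ∈ S, (g : ℤ) ∣ (a : ℤ) - b) :
    (S.card : ℝ) ≤ (y - x) / g + 1 := by
  have hg' : (0 : ℝ) < g := by exact_mod_cast hg
  rcases S.eq_empty_or_nonempty with rfl | hne
  · simp only [Finset.card_empty, Nat.cast_zero]
    have : 0 ≤ (y - x) / g := div_nonneg (by linarith) hg'.le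
    linarith
  · set s0 := S.min' hne with hs0
    set s1 := S.max' hne with hs1
    have h0 : s0 ∈ S := S.min'_mem hne
    have h1 : s1 ∈ S := S.max'_mem hne
    have h01 : s0 ≤ s1 := S.min'_le _ h1
    have hsub : S.image (fun d => (d - s0) / g) ⊆ range ((s1 - s0) / g + 1) := by
      intro j hj
      obtain ⟨d, hd, rfl⟩ := Finset.mem_image.1 hj
      rw [Finset.mem_range]
      have : d - s0 ≤ s1 - s0 := Nat.sub_le_sub_right (S.le_max' _ hd) _
      exact Nat.lt_succ_of_le (Nat.div_le_div_right this)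
    have hinj : Set.InjOn (fun d => (d - s0) / g) (S : Set ℕ) := by
      intro a ha b hb hab
      have ha0 : s0 ≤ a := S.min'_le _ ha
      have hb0 : s0 ≤ b := S.min'_le _ hb
      have da : g ∣ a - s0 := by
        have := hcl a ha s0 h0
        have h3 : ((a - s0 : ℕ) : ℤ) = (a : ℤ) - s0 := by push_cast [ha0]; ring
        exact Int.natCast_dvd_natCast.1 (h3 ▸ this)
      have db : g ∣ b - s0 := by
        have := hcl b hb s0 h0
        have h3 : ((b - s0 : ℕ) : ℤ) = (b : ℤ) - s0 := by push_cast [hb0]; ring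
        exact Int.natCast_dvd_natCast.1 (h3 ▸ this)
      have hab' : (a - s0) / g = (b - s0) / g := hab
      have e1 := Nat.div_mul_cancel da
      have e2 := Nat.div_mul_cancel db
      rw [hab', e2] at e1
      omega
    have hc1 : S.card ≤ (s1 - s0) / g + 1 := by
      have := Finset.card_le_card hsub
      rwa [Finset.card_image_of_injOn hinj, Finset.card_range] at this
    have hc2 : (S.card : ℝ) ≤ (((s1 - s0) / g + 1 : ℕ) : ℝ) := by exact_mod_cast hc1
    have hc3 : (((s1 - s0) / g : ℕ) : ℝ) ≤ ((s1 - s0 : ℕ) : ℝ) / g := Nat.cast_div_le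
    have hc4 : ((s1 - s0 : ℕ) : ℝ) ≤ y - x := by
      rw [Nat.cast_sub h01]
      have := (hS s1 h1).2
      have := (hS s0 h0).1
      linarith
    have hc5 : ((s1 - s0 : ℕ) : ℝ) / g ≤ (y - x) / g := div_le_div_of_nonneg_right hc4 hg'.le
    push_cast at hc2
    linarith

/-- The number of the elements of the window with `d ∣ x m + κ`. -/
theorem count (Δ : Finset ℕ) (u : ℝ) (hΔ : ∀ d ∈ Δ, Real.exp u ≤ d ∧ (d : ℝ) < Real.exp (u + 1))
    (m d : ℕ) (hm : 1 ≤ m) (hd : Real.exp u ≤ d) (κ : ℤ) (hκ : κ ≠ 0) :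
    ((Δ.filter (fun x : ℕ => (d : ℤ) ∣ (x : ℤ) * m + κ)).card : ℝ) ≤ 3 * |(κ : ℝ)| := by
  have hκ1 : (1 : ℝ) ≤ |(κ : ℝ)| := by
    have : (1 : ℤ) ≤ |κ| := Int.one_le_abs hκ
    exact_mod_cast this
  set S := Δ.filter (fun x : ℕ => (d : ℤ) ∣ (x : ℤ) * m + κ) with hSdef
  rcases S.eq_empty_or_nonempty with he | hne
  · rw [he]; simp only [Finset.card_empty, Nat.cast_zero]; linarith
  · have hd0 : (0 : ℝ) < d := lt_of_lt_of_le (Real.exp_pos u) hd
    have hd1 : 0 < d := by exact_mod_cast hd0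
    set q := Nat.gcd m d with hq
    have hq0 : 0 < q := Nat.gcd_pos_of_pos_left _ hm
    have hqd : q ∣ d := Nat.gcd_dvd_right m d
    have hqm : q ∣ m := Nat.gcd_dvd_left m d
    obtain ⟨x0, hx0⟩ := hne
    have hx0' := (Finset.mem_filter.1 hx0).2
    have hqκ : (q : ℤ) ∣ κ := by
      have h1 : (q : ℤ) ∣ (x0 : ℤ) * m + κ := (Int.natCast_dvd_natCast.2 hqd).trans hx0'
      have h2 : (q : ℤ) ∣ (x0 : ℤ) * m := (Int.natCast_dvd_natCast.2 hqm).mul_left _
      exact (dvd_add_right h2).1 h1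
    have hqle : (q : ℝ) ≤ |(κ : ℝ)| := by
      have h3 : (q : ℤ) ∣ |κ| := (dvd_abs _ _).2 hqκ
      have h4 : (q : ℤ) ≤ |κ| := Int.le_of_dvd (abs_pos.2 hκ) h3
      exact_mod_cast h4
    have hgpos : 1 ≤ d / q := Nat.div_pos (Nat.le_of_dvd hd1 hqd) hq0
    have hcl : ∀ a ∈ S, ∀ b ∈ S, ((d / q : ℕ) : ℤ) ∣ (a : ℤ) - b := by
      intro a ha b hb
      have h1 := (Finset.mem_filter.1 ha).2
      have h2 := (Finset.mem_filter.1 hb).2
      have h3 : (d : ℤ) ∣ ((a : ℤ) - b) * m := by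
        have := dvd_sub h1 h2
        have e : ((a : ℤ) * m + κ) - ((b : ℤ) * m + κ) = ((a : ℤ) - b) * m := by ring
        rwa [e] at this
      have e1 : (d : ℤ) = (q : ℤ) * ((d / q : ℕ) : ℤ) := by
        exact_mod_cast (Nat.mul_div_cancel' hqd).symm
      have e2 : (m : ℤ) = (q : ℤ) * ((m / q : ℕ) : ℤ) := by
        exact_mod_cast (Nat.mul_div_cancel' hqm).symm
      have hq' : (q : ℤ) ≠ 0 := by exact_mod_cast hq0.ne'
      have h4 : ((d / q : ℕ) : ℤ) ∣ ((a : ℤ) - b) * ((m / q : ℕ) : ℤ) := by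
        rw [e1, e2] at h3
        have e3 : ((a : ℤ) - b) * ((q : ℤ) * ((m / q : ℕ) : ℤ)) =
            (q : ℤ) * (((a : ℤ) - b) * ((m / q : ℕ) : ℤ)) := by ring
        rw [e3] at h3
        exact (mul_dvd_mul_iff_left hq').1 h3
      have hcop : IsCoprime ((d / q : ℕ) : ℤ) ((m / q : ℕ) : ℤ) := by
        rw [Nat.isCoprime_iff_coprime]
        exact (Nat.coprime_div_gcd_div_gcd hq0).symm
      exact hcop.dvd_of_dvd_mul_right h4
    have hexp : Real.exp (u + 1) = Real.exp u * Real.exp 1 := Real.exp_add u 1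
    have he3 : Real.exp 1 < 3 := lt_trans Real.exp_one_lt_d9 (by norm_num)
    have he1 : 1 ≤ Real.exp 1 := by linarith [Real.add_one_le_exp (1 : ℝ)]
    have hup : 0 < Real.exp u := Real.exp_pos u
    have hxy : Real.exp u ≤ Real.exp (u + 1) := Real.exp_le_exp.2 (by linarith)
    have hc := count_class S (Real.exp u) (Real.exp (u + 1))
      (fun a ha => hΔ a (Finset.mem_filter.1 ha).1) hxy (d / q) hgpos hcl
    have hdq : ((d / q : ℕ) : ℝ) = (d : ℝ) / q := by
      rw [Nat.cast_div hqd (by exact_mod_cast hq0.ne')]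
    have hq1 : (1 : ℝ) ≤ q := by exact_mod_cast hq0
    have hbd : (Real.exp (u + 1) - Real.exp u) / ((d / q : ℕ) : ℝ) ≤ 2 * q := by
      rw [hdq, hexp, div_div_eq_mul_div, div_le_iff₀ hd0]
      have h5 : Real.exp u * Real.exp 1 - Real.exp u ≤ 2 * d := by nlinarith
      nlinarith
    nlinarith

/-- Comparison of the weights in a window. -/
theorem rpow_cmp (η : ℝ) (hη : 0 < η) (h1 : η ≤ 1) (u : ℝ) (x y : ℕ) (hx : Real.exp u ≤ x)
    (hy0 : Real.exp u ≤ y) (hy : (y : ℝ) < Real.exp (u + 1)) :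
    (x : ℝ) ^ (-1 - η) ≤ Real.exp 2 * (y : ℝ) ^ (-1 - η) := by
  have hup : 0 < Real.exp u := Real.exp_pos u
  have hy1 : (0 : ℝ) < y := lt_of_lt_of_le hup hy0
  have hle : (y : ℝ) * Real.exp (-1) ≤ x := by
    have e : Real.exp (u + 1) * Real.exp (-1) = Real.exp u := by
      rw [← Real.exp_add]; congr 1; ring
    have := mul_le_mul_of_nonneg_right hy.le (Real.exp_pos (-1)).le
    rw [e] at this
    exact this.trans hx
  have h2 : (x : ℝ) ^ (-1 - η) ≤ ((y : ℝ) * Real.exp (-1)) ^ (-1 - η) :=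
    Real.rpow_le_rpow_of_nonpos (by positivity) hle (by linarith)
  have h3 : ((y : ℝ) * Real.exp (-1)) ^ (-1 - η) = (y : ℝ) ^ (-1 - η) * Real.exp (1 + η) := by
    rw [Real.mul_rpow hy1.le (Real.exp_pos _).le, ← Real.exp_mul]
    congr 2; ring
  have h4 : Real.exp (1 + η) ≤ Real.exp 2 := Real.exp_le_exp.2 (by linarith)
  rw [h3] at h2
  have h5 : 0 ≤ (y : ℝ) ^ (-1 - η) := by positivity
  nlinarith

/-- Resummation over the multiples of `d`. -/
theorem resum (f : ℕ → ℝ) (hf : ∀ m, 0 ≤ f m) (d : ℕ) (hd : 1 ≤ d) (N : ℕ) :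
    ∑ n ∈ range N, (if d ∣ n then f (n / d) else 0) ≤ ∑ m ∈ range N, f m := by
  rw [← Finset.sum_filter]
  have hinj : Set.InjOn (fun n => n / d)
      (((range N).filter (fun n => d ∣ n) : Finset ℕ) : Set ℕ) := by
    intro a ha b hb hab
    have ha' := (Finset.mem_filter.1 (Finset.mem_coe.1 ha)).2
    have hb' := (Finset.mem_filter.1 (Finset.mem_coe.1 hb)).2
    have hab' : a / d = b / d := hab
    have e1 := Nat.div_mul_cancel ha'
    have e2 := Nat.div_mul_cancel hb'
    rw [hab', e2] at e1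
    exact e1.symm
  rw [← Finset.sum_image (f := f) hinj]
  refine Finset.sum_le_sum_of_subset_of_nonneg ?_ (fun m _ _ => hf m)
  intro j hj
  obtain ⟨n, hn, rfl⟩ := Finset.mem_image.1 hj
  have hn' := Finset.mem_range.1 (Finset.mem_filter.1 hn).1
  exact Finset.mem_range.2 (lt_of_le_of_lt (Nat.div_le_self n d) hn')

/-- The main term of the resummed series. -/
noncomputable def ft (c : ℕ → ℝ) (η : ℝ) (κ : ℤ) (x y m : ℕ) : ℝ :=
  if 1 ≤ m ∧ (y : ℤ) ∣ (x : ℤ) * m + κ then
    c m ^ 2 * c y ^ 2 * ((x * m : ℕ) : ℝ) ^ (-1 - η) else 0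

theorem ft_nonneg (c : ℕ → ℝ) (η : ℝ) (κ : ℤ) (x y m : ℕ) : 0 ≤ ft c η κ x y m := by
  unfold ft; split_ifs <;> positivity

theorem ft_sum (c : ℕ → ℝ) (hc : MF c) (η : ℝ) (hη : 0 < η) (h1 : η ≤ 1) (Δ : Finset ℕ) (u : ℝ)
    (hΔ : ∀ d ∈ Δ, Real.exp u ≤ d ∧ (d : ℝ) < Real.exp (u + 1)) (κ : ℤ) (hκ : κ ≠ 0) (N : ℕ) :
    ∑ x ∈ Δ, ∑ y ∈ Δ, ∑ m ∈ range N, ft c η κ x y m ≤
      3 * |(κ : ℝ)| * Real.exp 2 * (∑ d ∈ Δ, wc c η d) * DD c η := by
  have hterm : ∀ x ∈ Δ, ∀ y ∈ Δ, ∀ m, ft c η κ x y m ≤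
      (if 1 ≤ m ∧ (y : ℤ) ∣ (x : ℤ) * m + κ then 1 else 0) *
        (Real.exp 2 * (wc c η y * wc c η m)) := by
    intro x hx y hy m
    unfold ft
    split_ifs with h
    · rw [one_mul]
      unfold wc
      have hm : (0 : ℝ) ≤ m := Nat.cast_nonneg m
      have hx' : (0 : ℝ) ≤ x := Nat.cast_nonneg x
      have e : ((x * m : ℕ) : ℝ) ^ (-1 - η) = (x : ℝ) ^ (-1 - η) * (m : ℝ) ^ (-1 - η) := by
        rw [Nat.cast_mul, Real.mul_rpow hx' hm]
      rw [e]
      have hcmp := rpow_cmp η hη h1 u x y (hΔ x hx).1 (hΔ y hy).1 (hΔ y hy).2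
      have hnn : 0 ≤ c m ^ 2 * c y ^ 2 * (m : ℝ) ^ (-1 - η) := by positivity
      calc c m ^ 2 * c y ^ 2 * ((x : ℝ) ^ (-1 - η) * (m : ℝ) ^ (-1 - η))
          = (c m ^ 2 * c y ^ 2 * (m : ℝ) ^ (-1 - η)) * (x : ℝ) ^ (-1 - η) := by ring
        _ ≤ (c m ^ 2 * c y ^ 2 * (m : ℝ) ^ (-1 - η)) * (Real.exp 2 * (y : ℝ) ^ (-1 - η)) :=
            mul_le_mul_of_nonneg_left hcmp hnn
        _ = _ := by ring
    · rw [zero_mul]
  calc ∑ x ∈ Δ, ∑ y ∈ Δ, ∑ m ∈ range N, ft c η κ x y m
      ≤ ∑ x ∈ Δ, ∑ y ∈ Δ, ∑ m ∈ range N,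
        (if 1 ≤ m ∧ (y : ℤ) ∣ (x : ℤ) * m + κ then 1 else 0) *
        (Real.exp 2 * (wc c η y * wc c η m)) :=
        Finset.sum_le_sum (fun x hx => Finset.sum_le_sum (fun y hy =>
          Finset.sum_le_sum (fun m _ => hterm x hx y hy m)))
    _ = ∑ y ∈ Δ, ∑ m ∈ range N, (∑ x ∈ Δ,
        (if 1 ≤ m ∧ (y : ℤ) ∣ (x : ℤ) * m + κ then (1 : ℝ) else 0)) *
        (Real.exp 2 * (wc c η y * wc c η m)) := by
        rw [Finset.sum_comm]
        refine Finset.sum_congr rfl (fun y _ => ?_)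
        rw [Finset.sum_comm]
        refine Finset.sum_congr rfl (fun m _ => ?_)
        rw [Finset.sum_mul]
    _ ≤ ∑ y ∈ Δ, ∑ m ∈ range N, (3 * |(κ : ℝ)|) * (Real.exp 2 * (wc c η y * wc c η m)) := by
        refine Finset.sum_le_sum (fun y hy => Finset.sum_le_sum (fun m _ => ?_))
        refine mul_le_mul_of_nonneg_right ?_ (mul_nonneg (Real.exp_pos _).le
          (mul_nonneg (wc_nonneg c η y) (wc_nonneg c η m)))
        by_cases hm : 1 ≤ m
        · have hcnt := count Δ u hΔ m y hm (hΔ y hy).1 κ hκ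
          have e : (∑ x ∈ Δ, (if 1 ≤ m ∧ (y : ℤ) ∣ (x : ℤ) * m + κ then (1 : ℝ) else 0)) =
              ((Δ.filter (fun x : ℕ => (y : ℤ) ∣ (x : ℤ) * m + κ)).card : ℝ) := by
            rw [Finset.card_filter]
            push_cast
            refine Finset.sum_congr rfl (fun x _ => ?_)
            by_cases h : (y : ℤ) ∣ (x : ℤ) * m + κ <;> simp [h, hm]
          rw [e]; exact hcnt
        · have e : (∑ x ∈ Δ, (if 1 ≤ m ∧ (y : ℤ) ∣ (x : ℤ) * m + κ then (1 : ℝ) else 0)) = 0 :=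
            Finset.sum_eq_zero (fun x _ => by simp [hm])
          rw [e]; positivity
    _ = 3 * |(κ : ℝ)| * Real.exp 2 * (∑ d ∈ Δ, wc c η d) * ∑ m ∈ range N, wc c η m := by
        rw [mul_assoc _ (∑ d ∈ Δ, wc c η d), Finset.sum_mul_sum, Finset.mul_sum]
        refine Finset.sum_congr rfl (fun y _ => ?_)
        rw [Finset.mul_sum]
        refine Finset.sum_congr rfl (fun m _ => ?_)
        ring
    _ ≤ _ := by
        refine mul_le_mul_of_nonneg_left (sum_wc_le c hc η hη _) ?_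
        have : 0 ≤ ∑ d ∈ Δ, wc c η d := Finset.sum_nonneg (fun d _ => wc_nonneg c η d)
        positivity

end PAI_

open PAI_ in
theorem p_PAI : T_PAI := by
  intro c hc η hη h1 Δ u hΔ τ k hτ hk
  have hW : 0 ≤ ∑ d ∈ Δ, wc c η d := Finset.sum_nonneg (fun d _ => wc_nonneg c η d)
  have hD : 0 ≤ DD c η := tsum_nonneg (fun n => wc_nonneg c η n)
  have hk0 : (1 : ℝ) ≤ k := by exact_mod_cast hk
  have hΔ1 : ∀ d ∈ Δ, 1 ≤ d := by
    intro d hd
    have : (0 : ℝ) < d := lt_of_lt_of_le (Real.exp_pos u) (hΔ d hd).1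
    exact_mod_cast this
  refine Real.tsum_le_of_sum_range_le (fun n => ?_) (fun N => ?_)
  · split_ifs
    · have := hc.nn n
      have := hc.nn (n + k)
      positivity
    · exact le_rfl
  -- pointwise bound
  have hpt : ∀ n : ℕ, (open Classical in if τ ≤ fd Δ n ∧ τ ≤ fd Δ (n + k) then
      c n * c (n + k) * (n : ℝ) ^ (-1 - η) else 0) ≤
      (1 / (2 * τ ^ 2)) * ∑ x ∈ Δ, ∑ y ∈ Δ, (
        (if x ∣ n then ft c η k x y (n / x) else 0) +
        (1 + k : ℝ) ^ 2 * (if y ∣ n + k then ft c η (-k) y x ((n + k) / y) else 0)) := by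
    intro n
    have hRn : 0 ≤ (1 / (2 * τ ^ 2)) * ∑ x ∈ Δ, ∑ y ∈ Δ, (
        (if x ∣ n then ft c η k x y (n / x) else 0) +
        (1 + k : ℝ) ^ 2 * (if y ∣ n + k then ft c η (-k) y x ((n + k) / y) else 0)) := by
      refine mul_nonneg (by positivity) (Finset.sum_nonneg (fun x _ =>
        Finset.sum_nonneg (fun y _ => add_nonneg ?_ (mul_nonneg (by positivity) ?_))))
      · split_ifs
        · exact ft_nonneg _ _ _ _ _ _
        · exact le_rfl
      · split_ifs
        · exact ft_nonneg _ _ _ _ _ _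
        · exact le_rfl
    split_ifs with h
    · rcases Nat.eq_zero_or_pos n with rfl | hn
      · have h0 : ((0 : ℕ) : ℝ) ^ (-1 - η) = 0 := by
          rw [Nat.cast_zero]; exact Real.zero_rpow (by linarith)
        rw [h0, mul_zero]; exact hRn
      · -- main case
        have hn0 : (0 : ℝ) < n := by exact_mod_cast hn
        set A := Δ.filter (fun d => d ∣ n ∧ d.Coprime (n / d)) with hA
        set B := Δ.filter (fun d => d ∣ n + k ∧ d.Coprime ((n + k) / d)) with hB
        have hcA : τ ≤ (A.card : ℝ) := h.1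
        have hcB : τ ≤ (B.card : ℝ) := h.2
        set t := c n * c (n + k) * (n : ℝ) ^ (-1 - η) with ht
        have ht0 : 0 ≤ t := by
          have := hc.nn n
          have := hc.nn (n + k)
          positivity
        have hkey : τ ^ 2 * t ≤ ∑ x ∈ A, ∑ y ∈ B, t := by
          rw [Finset.sum_const, Finset.sum_const, nsmul_eq_mul, nsmul_eq_mul]
          have h6 : τ ^ 2 ≤ (A.card : ℝ) * (B.card : ℝ) := by
            rw [sq]; exact mul_le_mul hcA hcB hτ.le (hτ.le.trans hcA)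
          have := mul_le_mul_of_nonneg_right h6 ht0
          linarith
        have hxy : ∀ x ∈ A, ∀ y ∈ B, t ≤ (1 / 2) * (
            (if x ∣ n then ft c η k x y (n / x) else 0) +
            (1 + k : ℝ) ^ 2 * (if y ∣ n + k then ft c η (-k) y x ((n + k) / y) else 0)) := by
          intro x hx y hy
          have hx' := (Finset.mem_filter.1 hx)
          have hy' := (Finset.mem_filter.1 hy)
          obtain ⟨m, hm⟩ := hx'.2.1
          obtain ⟨m', hm'⟩ := hy'.2.1
          have hx1 := hΔ1 x hx'.1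
          have hy1 := hΔ1 y hy'.1
          have hnx : n / x = m := by rw [hm]; exact Nat.mul_div_cancel_left m hx1
          have hny : (n + k) / y = m' := by rw [hm']; exact Nat.mul_div_cancel_left m' hy1
          have hcn : c n = c x * c m := by
            conv_lhs => rw [hm]
            exact hc.mul x m (hnx ▸ hx'.2.2)
          have hcnk : c (n + k) = c y * c m' := by
            conv_lhs => rw [hm']
            exact hc.mul y m' (hny ▸ hy'.2.2)
          have hm1 : 1 ≤ m := by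
            rcases Nat.eq_zero_or_pos m with h0 | h0
            · rw [h0, mul_zero] at hm; omega
            · exact h0
          have hm'1 : 1 ≤ m' := by
            rcases Nat.eq_zero_or_pos m' with h0 | h0
            · rw [h0, mul_zero] at hm'; omega
            · exact h0
          rw [if_pos hx'.2.1, if_pos hy'.2.1, hnx, hny]
          have d1 : (y : ℤ) ∣ (x : ℤ) * m + k := by
            have : ((x * m + k : ℕ) : ℤ) = (x : ℤ) * m + k := by push_cast; ring
            rw [← this, ← hm]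
            exact Int.natCast_dvd_natCast.2 hy'.2.1
          have d2 : (x : ℤ) ∣ (y : ℤ) * m' + (-k : ℤ) := by
            have : (y : ℤ) * m' + (-k : ℤ) = (n : ℤ) := by
              have : ((n + k : ℕ) : ℤ) = ((y * m' : ℕ) : ℤ) := by rw [← hm']
              push_cast at this
              linarith
            rw [this]
            exact Int.natCast_dvd_natCast.2 hx'.2.1
          have f1 : ft c η k x y m = c m ^ 2 * c y ^ 2 * (n : ℝ) ^ (-1 - η) := by
            unfold ft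
            rw [if_pos ⟨hm1, d1⟩, ← hm]
          have f2 : ft c η (-k) y x m' = c m' ^ 2 * c x ^ 2 * ((n + k : ℕ) : ℝ) ^ (-1 - η) := by
            unfold ft
            rw [if_pos ⟨hm'1, d2⟩, ← hm']
          rw [f1, f2]
          have hcmp : (n : ℝ) ^ (-1 - η) ≤ (1 + k : ℝ) ^ 2 * ((n + k : ℕ) : ℝ) ^ (-1 - η) := by
            have hnk : (0 : ℝ) < ((n + k : ℕ) : ℝ) := by positivity
            have hle : ((n + k : ℕ) : ℝ) / (1 + k) ≤ n := by
              rw [div_le_iff₀ (by positivity)]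
              push_cast
              have : (1 : ℝ) ≤ n := by exact_mod_cast hn
              nlinarith
            have h7 : (n : ℝ) ^ (-1 - η) ≤ (((n + k : ℕ) : ℝ) / (1 + k)) ^ (-1 - η) :=
              Real.rpow_le_rpow_of_nonpos (by positivity) hle (by linarith)
            have h8 : (((n + k : ℕ) : ℝ) / (1 + k)) ^ (-1 - η) =
                ((n + k : ℕ) : ℝ) ^ (-1 - η) * (1 + k : ℝ) ^ (1 + η) := by
              rw [Real.div_rpow hnk.le (by positivity), div_eq_mul_inv,
                ← Real.rpow_neg (by positivity)]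
              congr 2; ring
            have h9 : (1 + k : ℝ) ^ (1 + η) ≤ (1 + k : ℝ) ^ (2 : ℝ) :=
              Real.rpow_le_rpow_of_exponent_le (by linarith) (by linarith)
            have h10 : (1 + k : ℝ) ^ (2 : ℝ) = (1 + k : ℝ) ^ 2 := by
              rw [← Real.rpow_natCast]; norm_num
            rw [h8] at h7
            have h11 : 0 ≤ ((n + k : ℕ) : ℝ) ^ (-1 - η) := by positivity
            rw [h10] at h9
            nlinarith
          have hP0 : 0 ≤ (n : ℝ) ^ (-1 - η) := by positivity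
          have e1 : t = (c x * c m) * (c y * c m') * (n : ℝ) ^ (-1 - η) := by
            rw [ht, hcn, hcnk]
          have e2 : (c x * c m) * (c y * c m') ≤
              (1 / 2) * (c m ^ 2 * c y ^ 2 + c m' ^ 2 * c x ^ 2) := by
            nlinarith [sq_nonneg (c m * c y - c m' * c x)]
          have e3 : c m' ^ 2 * c x ^ 2 * (n : ℝ) ^ (-1 - η) ≤
              (1 + k : ℝ) ^ 2 * (c m' ^ 2 * c x ^ 2 * ((n + k : ℕ) : ℝ) ^ (-1 - η)) := by
            have := mul_le_mul_of_nonneg_left hcmp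
              (show 0 ≤ c m' ^ 2 * c x ^ 2 by positivity)
            linarith
          rw [e1]
          have := mul_le_mul_of_nonneg_right e2 hP0
          linarith
        have hsub : ∑ x ∈ A, ∑ y ∈ B, t ≤ (1 / 2) * ∑ x ∈ Δ, ∑ y ∈ Δ, (
            (if x ∣ n then ft c η k x y (n / x) else 0) +
            (1 + k : ℝ) ^ 2 * (if y ∣ n + k then ft c η (-k) y x ((n + k) / y) else 0)) := by
          have hnn : ∀ x y, 0 ≤ ((if x ∣ n then ft c η k x y (n / x) else 0) +
              (1 + k : ℝ) ^ 2 * (if y ∣ n + k then ft c η (-k) y x ((n + k) / y) else 0)) := by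
            intro x y
            refine add_nonneg ?_ (mul_nonneg (by positivity) ?_)
            · split_ifs
              · exact ft_nonneg _ _ _ _ _ _
              · exact le_rfl
            · split_ifs
              · exact ft_nonneg _ _ _ _ _ _
              · exact le_rfl
          calc ∑ x ∈ A, ∑ y ∈ B, t ≤ ∑ x ∈ A, ∑ y ∈ B, (1 / 2) * (
              (if x ∣ n then ft c η k x y (n / x) else 0) +
              (1 + k : ℝ) ^ 2 * (if y ∣ n + k then ft c η (-k) y x ((n + k) / y) else 0)) :=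
              Finset.sum_le_sum (fun x hx => Finset.sum_le_sum (fun y hy => hxy x hx y hy))
            _ = (1 / 2) * ∑ x ∈ A, ∑ y ∈ B, (
              (if x ∣ n then ft c η k x y (n / x) else 0) +
              (1 + k : ℝ) ^ 2 * (if y ∣ n + k then ft c η (-k) y x ((n + k) / y) else 0)) := by
              rw [Finset.mul_sum]
              refine Finset.sum_congr rfl (fun x _ => ?_)
              rw [Finset.mul_sum]
            _ ≤ _ := by
              refine mul_le_mul_of_nonneg_left ?_ (by norm_num)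
              calc _ ≤ ∑ x ∈ A, ∑ y ∈ Δ, (
                (if x ∣ n then ft c η k x y (n / x) else 0) +
                (1 + k : ℝ) ^ 2 * (if y ∣ n + k then ft c η (-k) y x ((n + k) / y) else 0)) :=
                    Finset.sum_le_sum (fun x _ => Finset.sum_le_sum_of_subset_of_nonneg
                      (Finset.filter_subset _ _) (fun y _ _ => hnn x y))
                _ ≤ _ := Finset.sum_le_sum_of_subset_of_nonneg (Finset.filter_subset _ _)
                      (fun x _ _ => Finset.sum_nonneg (fun y _ => hnn x y))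
        have hfin := hkey.trans hsub
        rw [one_div, mul_inv, mul_assoc]
        rw [inv_eq_one_div, inv_eq_one_div]
        have hτ2 : 0 < τ ^ 2 := by positivity
        have : t ≤ (1 / τ ^ 2) * ((1 / 2) * ∑ x ∈ Δ, ∑ y ∈ Δ, (
            (if x ∣ n then ft c η k x y (n / x) else 0) +
            (1 + k : ℝ) ^ 2 * (if y ∣ n + k then ft c η (-k) y x ((n + k) / y) else 0))) := by
          rw [one_div, ← div_eq_inv_mul, le_div_iff₀ hτ2]
          linarith
        linarith
    · exact hRn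
  have hS1 : ∑ n ∈ range N, ∑ x ∈ Δ, ∑ y ∈ Δ, (if x ∣ n then ft c η k x y (n / x) else 0) ≤
      3 * (k : ℝ) * Real.exp 2 * (∑ d ∈ Δ, wc c η d) * DD c η := by
    have := ft_sum c hc η hη h1 Δ u hΔ (k : ℤ) (by exact_mod_cast (by omega : k ≠ 0)) N
    have hab : |((k : ℤ) : ℝ)| = k := by
      rw [Int.cast_natCast]; exact abs_of_nonneg (by positivity)
    rw [hab] at this
    refine le_trans ?_ this
    rw [Finset.sum_comm]
    refine Finset.sum_le_sum (fun x hx => ?_)
    rw [Finset.sum_comm]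
    refine Finset.sum_le_sum (fun y _ => ?_)
    exact resum (fun m => ft c η k x y m) (fun m => ft_nonneg _ _ _ _ _ _) x (hΔ1 x hx) N
  have hS2 : ∑ n ∈ range N, ∑ x ∈ Δ, ∑ y ∈ Δ,
      (if y ∣ n + k then ft c η (-k) y x ((n + k) / y) else 0) ≤
      3 * (k : ℝ) * Real.exp 2 * (∑ d ∈ Δ, wc c η d) * DD c η := by
    have := ft_sum c hc η hη h1 Δ u hΔ (-(k : ℤ))
      (neg_ne_zero.2 (by exact_mod_cast (by omega : k ≠ 0))) (N + k)
    have hab : |((-(k : ℤ) : ℤ) : ℝ)| = k := by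
      rw [Int.cast_neg, Int.cast_natCast, abs_neg]; exact abs_of_nonneg (by positivity)
    rw [hab] at this
    refine le_trans ?_ this
    rw [Finset.sum_comm, Finset.sum_comm (s := Δ) (t := Δ)]
    have hsw : ∑ x ∈ Δ, ∑ n ∈ range N, ∑ y ∈ Δ,
        (if y ∣ n + k then ft c η (-k) y x ((n + k) / y) else 0) =
        ∑ x ∈ Δ, ∑ y ∈ Δ, ∑ n ∈ range N,
        (if y ∣ n + k then ft c η (-k) y x ((n + k) / y) else 0) :=
      Finset.sum_congr rfl (fun x _ => Finset.sum_comm)
    rw [hsw]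
    refine Finset.sum_le_sum (fun x _ => Finset.sum_le_sum (fun y hy => ?_))
    have h2 := resum (fun m => ft c η (-k) y x m) (fun m => ft_nonneg _ _ _ _ _ _) y
      (hΔ1 y hy) (N + k)
    refine le_trans ?_ h2
    have h3 : ∑ n ∈ range N, (if y ∣ n + k then ft c η (-k) y x ((n + k) / y) else 0) =
        ∑ j ∈ (range N).image (fun n => n + k),
          (if y ∣ j then ft c η (-k) y x (j / y) else 0) := by
      rw [Finset.sum_image]
      intro a _ b _ hab
      have : a + k = b + k := hab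
      omega
    rw [h3]
    refine Finset.sum_le_sum_of_subset_of_nonneg ?_ (fun j _ _ => ?_)
    · intro j hj
      obtain ⟨n, hn, rfl⟩ := Finset.mem_image.1 hj
      have := Finset.mem_range.1 hn
      exact Finset.mem_range.2 (by omega)
    · split_ifs
      · exact ft_nonneg _ _ _ _ _ _
      · exact le_rfl
  calc _ ≤ ∑ n ∈ range N, (1 / (2 * τ ^ 2)) * ∑ x ∈ Δ, ∑ y ∈ Δ, (
        (if x ∣ n then ft c η k x y (n / x) else 0) +
        (1 + k : ℝ) ^ 2 * (if y ∣ n + k then ft c η (-k) y x ((n + k) / y) else 0)) :=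
        Finset.sum_le_sum (fun n _ => hpt n)
    _ = (1 / (2 * τ ^ 2)) * ((∑ n ∈ range N, ∑ x ∈ Δ, ∑ y ∈ Δ,
        (if x ∣ n then ft c η k x y (n / x) else 0)) + (1 + k : ℝ) ^ 2 *
        ∑ n ∈ range N, ∑ x ∈ Δ, ∑ y ∈ Δ,
        (if y ∣ n + k then ft c η (-k) y x ((n + k) / y) else 0)) := by
        rw [← Finset.mul_sum]
        congr 1
        rw [Finset.mul_sum, ← Finset.sum_add_distrib]
        refine Finset.sum_congr rfl (fun n _ => ?_)
        rw [Finset.mul_sum, ← Finset.sum_add_distrib]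
        refine Finset.sum_congr rfl (fun x _ => ?_)
        rw [Finset.mul_sum, ← Finset.sum_add_distrib]
    _ ≤ (1 / (2 * τ ^ 2)) * (3 * (k : ℝ) * Real.exp 2 * (∑ d ∈ Δ, wc c η d) * DD c η +
        (1 + k : ℝ) ^ 2 * (3 * (k : ℝ) * Real.exp 2 * (∑ d ∈ Δ, wc c η d) * DD c η)) := by
        refine mul_le_mul_of_nonneg_left ?_ (by positivity)
        have := mul_le_mul_of_nonneg_left hS2 (show (0 : ℝ) ≤ (1 + k : ℝ) ^ 2 by positivity)
        linarith
    _ = ((1 + (1 + k : ℝ) ^ 2) / 2 * (3 * k * Real.exp 2)) *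
        ((∑ d ∈ Δ, wc c η d) * DD c η / τ ^ 2) := by
        field_simp
    _ ≤ (24 * (1 + k : ℝ) ^ 3) * ((∑ d ∈ Δ, wc c η d) * DD c η / τ ^ 2) := by
        refine mul_le_mul_of_nonneg_right ?_ (by positivity)
        have he : Real.exp 2 ≤ 8 := by
          have e : Real.exp 2 = Real.exp 1 ^ 2 := by rw [← Real.exp_nat_mul]; norm_num
          rw [e]
          have h3 : Real.exp 1 < 2.7182818286 := Real.exp_one_lt_d9
          have h4 : 0 < Real.exp 1 := Real.exp_pos 1
          nlinarith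
        have h5 : (1 + (1 + k : ℝ) ^ 2) / 2 ≤ (1 + k : ℝ) ^ 2 := by nlinarith
        have h6 : 3 * (k : ℝ) * Real.exp 2 ≤ 24 * (1 + k) := by nlinarith
        calc (1 + (1 + k : ℝ) ^ 2) / 2 * (3 * k * Real.exp 2)
            ≤ (1 + k : ℝ) ^ 2 * (24 * (1 + k)) :=
              mul_le_mul h5 h6 (by positivity) (by positivity)
          _ = _ := by ring
    _ = _ := by ring

end Pool.Agent.SelQ
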