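import Pool.Agent.SelQ.TargetsC

set_option autoImplicit false

open Finset

namespace Pool.Agent.SelQ

noncomputable section

namespace PAP_

open ArithmeticFunction ArithmeticFunction.vonMangoldt

lemma zeta_le (e : ℝ) (he : 0 < e) (he1 : e ≤ 1) :
    Summable (fun n : ℕ => (n : ℝ) ^ (-(1 + e))) ∧ ∑' n : ℕ, (n : ℝ) ^ (-(1 + e)) ≤ 2 / e := by
  have hsum : Summable fun n : ℕ => (n : ℝ) ^ (-(1 + e)) :=
    Real.summable_nat_rpow.2 (by linarith)
  refine ⟨hsum, ?_⟩
  have h3 : ∑' n : ℕ, (n : ℝ) ^ (-(1 + e)) = ∑' n : ℕ, 1 / ((n : ℝ) + 1) ^ (1 + e) := by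
    rw [hsum.tsum_eq_zero_add]
    rw [Nat.cast_zero, Real.zero_rpow (by linarith), zero_add]
    apply tsum_congr
    intro n
    push_cast
    rw [Real.rpow_neg (by positivity), one_div]
  have h := ZetaAsymptotics.zeta_limit_aux1 (s := 1 + e) (by linarith)
  have h2 : 0 ≤ ZetaAsymptotics.termTSum (1 + e) :=
    tsum_nonneg fun n => ZetaAsymptotics.term_nonneg _ _
  have h3' : 0 ≤ (1 + e) * ZetaAsymptotics.termTSum (1 + e) := mul_nonneg (by linarith) h2
  have h4 : (1 : ℝ) + e - 1 = e := by ring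
  rw [h4] at h
  have h12 : 1 + 1 / e ≤ 2 / e := by
    rw [add_div' _ _ _ he.ne', div_le_div_iff_of_pos_right he]
    linarith
  rw [h3]
  linarith

/-- The terms above `exp (N^4)`. -/
lemma tail (N : ℕ) (hN : 1 ≤ N) (n : ℕ) (hn : Real.exp ((N : ℝ) ^ 4) ≤ n) :
    Real.log n / (n : ℝ) ^ (1 + 1 / (N : ℝ) ^ 3) ≤
      4 * (N : ℝ) ^ 3 * Real.exp (-(N / 2)) * (n : ℝ) ^ (-(1 + 1 / (4 * (N : ℝ) ^ 3))) := by
  have hN0 : (0 : ℝ) < N := by exact_mod_cast hN
  have hn0 : (0 : ℝ) < n := lt_of_lt_of_le (Real.exp_pos _) hn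
  set e : ℝ := 1 / (4 * (N : ℝ) ^ 3) with he
  have he0 : 0 < e := by positivity
  have h1 : 1 / (N : ℝ) ^ 3 = 4 * e := by
    rw [he]
    field_simp
  have h2 : Real.log n ≤ (n : ℝ) ^ e / e := Real.log_le_rpow_div hn0.le he0
  have h3 : (N : ℝ) ^ 4 ≤ Real.log n := (Real.le_log_iff_exp_le hn0).2 hn
  have h4 : (n : ℝ) ^ (-(2 * e)) ≤ Real.exp (-(N / 2)) := by
    rw [Real.rpow_def_of_pos hn0]
    refine Real.exp_le_exp.2 ?_
    have h5 : (N : ℝ) ^ 4 * (2 * e) = N / 2 := by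
      rw [he]
      field_simp
      ring
    nlinarith
  rw [h1]
  calc Real.log n / (n : ℝ) ^ (1 + 4 * e) ≤ ((n : ℝ) ^ e / e) / (n : ℝ) ^ (1 + 4 * e) :=
        div_le_div_of_nonneg_right h2 (Real.rpow_nonneg hn0.le _)
    _ = 1 / e * (n : ℝ) ^ (-(2 * e)) * (n : ℝ) ^ (-(1 + e)) := by
        have h6 : (n : ℝ) ^ e = (n : ℝ) ^ (1 + 4 * e) * ((n : ℝ) ^ (-(2 * e)) *
            (n : ℝ) ^ (-(1 + e))) := by
          rw [← Real.rpow_add hn0, ← Real.rpow_add hn0]
          congr 1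
          ring
        rw [h6]
        have h7 : (n : ℝ) ^ (1 + 4 * e) ≠ 0 := (Real.rpow_pos_of_pos hn0 _).ne'
        field_simp
    _ ≤ 1 / e * Real.exp (-(N / 2)) * (n : ℝ) ^ (-(1 + e)) := by
        gcongr
    _ = 4 * (N : ℝ) ^ 3 * Real.exp (-(N / 2)) * (n : ℝ) ^ (-(1 + e)) := by
        have h8 : 1 / e = 4 * (N : ℝ) ^ 3 := by rw [he, one_div_one_div]
        rw [h8]

/-- A small set of integers. -/
lemma first (N : ℕ) (P : Finset ℕ) (hP : ∀ n ∈ P, 1 ≤ n)
    (hc : (P.card : ℝ) ≤ Real.exp (2 * N)) :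
    ∑ n ∈ P, Real.log n / n ≤ 16 * (N : ℝ) ^ 2 + 4 * N + 2 := by
  classical
  have hN0 : (0 : ℝ) ≤ N := Nat.cast_nonneg N
  rw [← Finset.sum_filter_add_sum_filter_not P (fun n : ℕ => (n : ℝ) ≤ Real.exp (4 * N))]
  have hA : ∑ n ∈ P.filter (fun n : ℕ => (n : ℝ) ≤ Real.exp (4 * N)), Real.log n / n ≤
      4 * N * (1 + 4 * N) := by
    have h1 : ∑ n ∈ P.filter (fun n : ℕ => (n : ℝ) ≤ Real.exp (4 * N)), Real.log n / n ≤
        ∑ n ∈ Finset.Icc 1 ⌊Real.exp (4 * N)⌋₊, 4 * N * ((n : ℝ)⁻¹) := by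
      refine le_trans (Finset.sum_le_sum (g := fun n : ℕ => 4 * N * ((n : ℝ)⁻¹)) ?_)
        (Finset.sum_le_sum_of_subset_of_nonneg ?_ ?_)
      · intro n hn
        rw [Finset.mem_filter] at hn
        have h0 : (0 : ℝ) < n := by exact_mod_cast hP n hn.1
        rw [div_eq_mul_inv]
        refine mul_le_mul_of_nonneg_right ?_ (by positivity)
        rw [Real.log_le_iff_le_exp h0]
        exact hn.2
      · intro n hn
        rw [Finset.mem_filter] at hn
        rw [Finset.mem_Icc]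
        exact ⟨hP n hn.1, Nat.le_floor hn.2⟩
      · intro n _ _
        positivity
    refine le_trans h1 ?_
    rw [← Finset.mul_sum]
    refine mul_le_mul_of_nonneg_left ?_ (by positivity)
    have h2 := harmonic_le_one_add_log ⌊Real.exp (4 * N)⌋₊
    rw [harmonic_eq_sum_Icc] at h2
    push_cast at h2
    refine le_trans h2 ?_
    have h3 : (0 : ℝ) < ⌊Real.exp (4 * N)⌋₊ := by
      have : 1 ≤ ⌊Real.exp (4 * N)⌋₊ := Nat.le_floor (by
        rw [Nat.cast_one]
        exact Real.one_le_exp (by positivity))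
      exact_mod_cast this
    have h4 : Real.log ⌊Real.exp (4 * N)⌋₊ ≤ 4 * N := by
      rw [Real.log_le_iff_le_exp h3]
      exact Nat.floor_le (Real.exp_pos _).le
    linarith
  have hB : ∑ n ∈ P.filter (fun n : ℕ => ¬ (n : ℝ) ≤ Real.exp (4 * N)), Real.log n / n ≤ 2 := by
    have h1 : ∀ n ∈ P.filter (fun n : ℕ => ¬ (n : ℝ) ≤ Real.exp (4 * N)),
        Real.log n / n ≤ 2 * Real.exp (-(2 * N)) := by
      intro n hn
      rw [Finset.mem_filter, not_le] at hn
      have h0 : (0 : ℝ) < n := lt_trans (Real.exp_pos _) hn.2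
      have h2 : Real.log n ≤ (n : ℝ) ^ (1 / 2 : ℝ) / (1 / 2) :=
        Real.log_le_rpow_div h0.le (by norm_num)
      have h3 : 4 * (N : ℝ) ≤ Real.log n := (Real.le_log_iff_exp_le h0).2 hn.2.le
      have h4 : (n : ℝ) ^ (-(1 / 2) : ℝ) ≤ Real.exp (-(2 * N)) := by
        rw [Real.rpow_def_of_pos h0]
        refine Real.exp_le_exp.2 ?_
        linarith
      calc Real.log n / n ≤ ((n : ℝ) ^ (1 / 2 : ℝ) / (1 / 2)) / n :=
            div_le_div_of_nonneg_right h2 h0.le
        _ = 2 * (n : ℝ) ^ (-(1 / 2) : ℝ) := by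
            have h6 : (n : ℝ) ^ (1 / 2 : ℝ) = n * (n : ℝ) ^ (-(1 / 2) : ℝ) := by
              nth_rewrite 2 [← Real.rpow_one (n : ℝ)]
              rw [← Real.rpow_add h0]
              norm_num
            rw [h6]
            field_simp
        _ ≤ 2 * Real.exp (-(2 * N)) := by linarith
    refine le_trans (Finset.sum_le_card_nsmul _ _ _ h1) ?_
    rw [nsmul_eq_mul]
    have h5 : ((P.filter (fun n : ℕ => ¬ (n : ℝ) ≤ Real.exp (4 * N))).card : ℝ) ≤
        Real.exp (2 * N) :=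
      le_trans (by exact_mod_cast Finset.card_le_card (Finset.filter_subset _ _)) hc
    calc ((P.filter (fun n : ℕ => ¬ (n : ℝ) ≤ Real.exp (4 * N))).card : ℝ) *
          (2 * Real.exp (-(2 * N))) ≤ Real.exp (2 * N) * (2 * Real.exp (-(2 * N))) :=
          mul_le_mul_of_nonneg_right h5 (by positivity)
      _ = 2 * (Real.exp (2 * N) * Real.exp (-(2 * N))) := by ring
      _ = 2 := by
          rw [← Real.exp_add]
          simp
  nlinarith

lemma decay (N : ℕ) : (N : ℝ) ^ 6 * Real.exp (-(N / 2)) ≤ 46080 := by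
  have hN0 : (0 : ℝ) ≤ N := Nat.cast_nonneg N
  have h := Real.pow_div_factorial_le_exp ((N : ℝ) / 2) (by positivity) 6
  have h2 : (Nat.factorial 6 : ℝ) = 720 := by norm_num [Nat.factorial]
  rw [h2] at h
  have h3 : (N : ℝ) ^ 6 ≤ 46080 * Real.exp (N / 2) := by
    have h4 : ((N : ℝ) / 2) ^ 6 = (N : ℝ) ^ 6 / 64 := by
      rw [div_pow]
      norm_num
    rw [h4] at h
    linarith
  calc (N : ℝ) ^ 6 * Real.exp (-(N / 2)) ≤ 46080 * Real.exp (N / 2) * Real.exp (-(N / 2)) :=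
        mul_le_mul_of_nonneg_right h3 (Real.exp_pos _).le
    _ = 46080 := by
        rw [mul_assoc, ← Real.exp_add]
        simp

lemma core (Q : ℕ) [NeZero Q] (a : ZMod Q) (ha : IsUnit a) : ∃ K : ℝ, 0 ≤ K ∧
    ∀ N : ℕ, 1 ≤ N → ∀ P : Finset ℕ,
    (∀ n : ℕ, n.Prime → (n : ℝ) ≤ Real.exp ((N : ℝ) ^ 4) → (n : ZMod Q) = a → n ∈ P) →
    (∀ n ∈ P, 1 ≤ n) → (P.card : ℝ) ≤ Real.exp (2 * N) →
    (N : ℝ) ≤ Q.totient * (20 + K) := by
  classical
  obtain ⟨C, hC⟩ := LSeries_residueClass_lower_bound ha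
  have hS2 := summable_residueClass_non_primes_div a
  set K₂ : ℝ := ∑' n : ℕ, (if n.Prime then 0 else residueClass a n) / n with hK₂
  have hK₂0 : 0 ≤ K₂ := tsum_nonneg (fun n => by
    refine div_nonneg ?_ (Nat.cast_nonneg n)
    split_ifs
    · exact le_rfl
    · exact residueClass_nonneg a n)
  refine ⟨|C| + K₂ + 1474562, by positivity, ?_⟩
  intro N hN P hP hP1 hcard
  have hN0 : (0 : ℝ) < N := by exact_mod_cast hN
  have hN1 : (1 : ℝ) ≤ N := by exact_mod_cast hN
  set δ : ℝ := 1 / (N : ℝ) ^ 3 with hδ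
  have hδ0 : 0 < δ := by positivity
  have hδ1 : δ ≤ 1 := by
    rw [hδ, div_le_one (by positivity)]
    exact one_le_pow₀ hN1
  have hx := hC (x := 1 + δ) ⟨by linarith, by linarith⟩
  have hx2 : (Q.totient : ℝ)⁻¹ / (1 + δ - 1) = (N : ℝ) ^ 3 / Q.totient := by
    rw [add_sub_cancel_left, hδ, one_div, div_inv_eq_mul]
    ring
  rw [hx2] at hx
  set e : ℝ := 1 / (4 * (N : ℝ) ^ 3) with he
  have he0 : 0 < e := by positivity
  have he1 : e ≤ 1 := by
    rw [he, div_le_one (by positivity)]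
    have : (1 : ℝ) ≤ (N : ℝ) ^ 3 := one_le_pow₀ hN1
    linarith
  obtain ⟨hS3, hS3b⟩ := zeta_le e he0 he1
  set E : ℝ := 4 * (N : ℝ) ^ 3 * Real.exp (-(N / 2)) with hE
  have hE0 : 0 ≤ E := by positivity
  set g1 : ℕ → ℝ := fun n => if n ∈ P then Real.log n / n else 0 with hg1
  set g2 : ℕ → ℝ := fun n => (if n.Prime then 0 else residueClass a n) / n with hg2
  set g3 : ℕ → ℝ := fun n => E * (n : ℝ) ^ (-(1 + e)) with hg3
  have hg1s : HasSum g1 (∑ n ∈ P, Real.log n / n) := by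
    have h : HasSum g1 (∑ n ∈ P, g1 n) := hasSum_sum_of_ne_finset_zero (fun n hn => by
      simp only [hg1]
      rw [if_neg hn])
    have h2 : ∑ n ∈ P, g1 n = ∑ n ∈ P, Real.log n / n :=
      Finset.sum_congr rfl (fun n hn => by
        simp only [hg1]
        rw [if_pos hn])
    rwa [h2] at h
  have hg3s : Summable g3 := hS3.mul_left E
  have hg1n : ∀ n, 0 ≤ g1 n := by
    intro n
    simp only [hg1]
    split_ifs
    · exact div_nonneg (Real.log_natCast_nonneg n) (Nat.cast_nonneg n)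
    · exact le_rfl
  have hg2n : ∀ n, 0 ≤ g2 n := by
    intro n
    simp only [hg2]
    refine div_nonneg ?_ (Nat.cast_nonneg n)
    split_ifs
    · exact le_rfl
    · exact residueClass_nonneg a n
  have hg3n : ∀ n, 0 ≤ g3 n := fun n => by positivity
  have hpt : ∀ n : ℕ, residueClass a n / (n : ℝ) ^ (1 + δ) ≤ g1 n + g2 n + g3 n := by
    intro n
    have a1 := hg1n n
    have a2 := hg2n n
    have a3 := hg3n n
    rcases Nat.eq_zero_or_pos n with hn | hn
    · subst hn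
      rw [residueClass_apply_zero, zero_div]
      linarith
    · have hn0 : (0 : ℝ) < n := by exact_mod_cast hn
      have hn1 : (1 : ℝ) ≤ n := by exact_mod_cast hn
      have hpow : (n : ℝ) ≤ (n : ℝ) ^ (1 + δ) := by
        calc (n : ℝ) = (n : ℝ) ^ (1 : ℝ) := (Real.rpow_one _).symm
          _ ≤ _ := Real.rpow_le_rpow_of_exponent_le hn1 (by linarith)
      by_cases hp : n.Prime
      · by_cases hna : (n : ZMod Q) = a
        · have hval : residueClass a n = Real.log n := by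
            have : residueClass a n = vonMangoldt n :=
              Set.indicator_of_mem (s := {n : ℕ | (n : ZMod Q) = a}) hna _
            rw [this, vonMangoldt_apply_prime hp]
          rw [hval]
          by_cases hY : (n : ℝ) ≤ Real.exp ((N : ℝ) ^ 4)
          · have h1 : g1 n = Real.log n / n := by
              simp only [hg1]
              rw [if_pos (hP n hp hY hna)]
            have h2 : Real.log n / (n : ℝ) ^ (1 + δ) ≤ Real.log n / n :=
              div_le_div_of_nonneg_left (Real.log_natCast_nonneg n) hn0 hpow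
            linarith
          · have h1 := tail N hN n (not_le.1 hY).le
            have h2 : g3 n = 4 * (N : ℝ) ^ 3 * Real.exp (-(N / 2)) *
              (n : ℝ) ^ (-(1 + 1 / (4 * (N : ℝ) ^ 3))) := rfl
            rw [← h2] at h1
            linarith
        · have hval : residueClass a n = 0 :=
            Set.indicator_of_notMem (s := {n : ℕ | (n : ZMod Q) = a}) hna _
          rw [hval, zero_div]
          linarith
      · have h1 : g2 n = residueClass a n / n := by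
          simp only [hg2]
          rw [if_neg hp]
        have h2 : residueClass a n / (n : ℝ) ^ (1 + δ) ≤ residueClass a n / n :=
          div_le_div_of_nonneg_left (residueClass_nonneg a n) hn0 hpow
        linarith
  have hg : Summable (fun n => g1 n + g2 n + g3 n) := (hg1s.summable.add hS2).add hg3s
  have hRs : Summable (fun n : ℕ => residueClass a n / (n : ℝ) ^ (1 + δ)) :=
    Summable.of_nonneg_of_le (fun n => div_nonneg (residueClass_nonneg a n)
      (Real.rpow_nonneg (Nat.cast_nonneg n) _)) hpt hg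
  have hle := Summable.tsum_le_tsum hpt hRs hg
  have heq : ∑' n, (g1 n + g2 n + g3 n) = ∑ n ∈ P, Real.log n / n + K₂ + ∑' n, g3 n := by
    rw [(hg1s.summable.add hS2).tsum_add hg3s, hg1s.summable.tsum_add hS2, hg1s.tsum_eq]
  have hg3b : ∑' n, g3 n ≤ 1474560 := by
    have h1 : ∑' n, g3 n ≤ E * (2 / e) := by
      simp only [hg3]
      rw [tsum_mul_left]
      exact mul_le_mul_of_nonneg_left hS3b hE0
    refine le_trans h1 ?_
    have h2 : E * (2 / e) = 32 * ((N : ℝ) ^ 6 * Real.exp (-(N / 2))) := by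
      have h3 : 2 / e = 8 * (N : ℝ) ^ 3 := by
        rw [he]
        field_simp
        norm_num
      rw [h3, hE]
      ring
    rw [h2]
    have := decay N
    linarith
  have hfin := first N P hP1 hcard
  rw [heq] at hle
  have hCa : C ≤ |C| := le_abs_self C
  have hφ : (0 : ℝ) < Q.totient := by
    exact_mod_cast Nat.totient_pos.2 (Nat.pos_of_ne_zero (NeZero.ne Q))
  have h1 : (N : ℝ) ^ 3 / Q.totient ≤ 16 * (N : ℝ) ^ 2 + 4 * N + (|C| + K₂ + 1474562) := by
    linarith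
  have hK : 0 ≤ |C| + K₂ + 1474562 := by positivity
  have h2 : (N : ℝ) ^ 3 / Q.totient ≤ (20 + (|C| + K₂ + 1474562)) * (N : ℝ) ^ 2 := by
    have h3 : (N : ℝ) ≤ (N : ℝ) ^ 2 := by nlinarith
    have h4 : (1 : ℝ) ≤ (N : ℝ) ^ 2 := one_le_pow₀ hN1
    nlinarith
  rw [div_le_iff₀ hφ] at h2
  have h5 : (N : ℝ) ^ 2 * N ≤ (N : ℝ) ^ 2 * (Q.totient * (20 + (|C| + K₂ + 1474562))) := by
    calc (N : ℝ) ^ 2 * N = (N : ℝ) ^ 3 := by ring
      _ ≤ _ := h2
      _ = _ := by ring
  exact le_of_mul_le_mul_left h5 (by positivity)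

end PAP_

open PAP_ in
theorem p_PAP : T_PAP := by
  classical
  intro Q _
  refine ⟨4, by norm_num, ?_⟩
  have hK : ∀ a : ZMod Q, ∃ K : ℝ, 0 ≤ K ∧ (IsUnit a →
    ∀ N : ℕ, 1 ≤ N → ∀ P : Finset ℕ,
    (∀ n : ℕ, n.Prime → (n : ℝ) ≤ Real.exp ((N : ℝ) ^ 4) → (n : ZMod Q) = a → n ∈ P) →
    (∀ n ∈ P, 1 ≤ n) → (P.card : ℝ) ≤ Real.exp (2 * N) →
    (N : ℝ) ≤ Q.totient * (20 + K)) := by
    intro a
    by_cases ha : IsUnit a
    · obtain ⟨K, h1, h2⟩ := core Q a ha
      exact ⟨K, h1, fun _ => h2⟩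
    · exact ⟨0, le_rfl, fun h => absurd h ha⟩
  choose K hK0 hK1 using hK
  intro C
  set S : ℝ := ∑ a : ZMod Q, K a with hS
  set N₁ : ℕ := ⌊(Q.totient : ℝ) * (20 + S)⌋₊ + ⌈2 * |C|⌉₊ + 1 with hN₁
  refine ⟨N₁, ?_⟩
  intro N hN b hb
  have hN1 : 1 ≤ N := by omega
  set P : Finset ℕ := (Finset.range (⌊Real.exp ((N : ℝ) ^ 4)⌋₊ + 1)).filter
    (fun n => n.Prime ∧ (n : ZMod Q) = (b : ZMod Q)) with hP
  refine ⟨P, ?_, ?_⟩
  · intro p hp
    rw [hP, Finset.mem_filter, Finset.mem_range] at hp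
    refine ⟨hp.2.1, ?_, (ZMod.natCast_eq_natCast_iff _ _ _).1 hp.2.2⟩
    unfold YY
    exact (Nat.le_floor_iff (Real.exp_pos _).le).1 (by omega)
  · by_contra hcon
    rw [not_lt] at hcon
    have hC4 : C * 4 ^ N ≤ Real.exp (2 * N) := by
      have h1 : Real.exp (2 * N) = Real.exp 2 ^ N := by
        rw [← Real.exp_nat_mul]
        congr 1
        ring
      have h2 : (7 : ℝ) ≤ Real.exp 2 := by
        have h3 : Real.exp 2 = Real.exp 1 ^ 2 := by
          rw [← Real.exp_nat_mul]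
          norm_num
        have h4 := Real.exp_one_gt_d9
        rw [h3]
        nlinarith
      have h5 : C ≤ (7 / 4 : ℝ) ^ N := by
        have h6 := one_add_mul_le_pow (a := (3 / 4 : ℝ)) (by norm_num) N
        have h7 : (1 + 3 / 4 : ℝ) = 7 / 4 := by norm_num
        rw [h7] at h6
        have h8 : 2 * |C| ≤ N := by
          have h9 : 2 * |C| ≤ (⌈2 * |C|⌉₊ : ℝ) := Nat.le_ceil _
          have h10 : (⌈2 * |C|⌉₊ : ℝ) ≤ N := by exact_mod_cast (by omega)
          linarith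
        have h11 := le_abs_self C
        have h12 := abs_nonneg C
        linarith
      rw [h1]
      calc C * 4 ^ N ≤ (7 / 4 : ℝ) ^ N * 4 ^ N :=
            mul_le_mul_of_nonneg_right h5 (by positivity)
        _ = 7 ^ N := by
            rw [← mul_pow]
            norm_num
        _ ≤ Real.exp 2 ^ N := pow_le_pow_left₀ (by norm_num) h2 N
    have hu : IsUnit (b : ZMod Q) := (ZMod.isUnit_iff_coprime b Q).2 hb
    have h := hK1 (b : ZMod Q) hu N hN1 P (by
      intro n hp hn hna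
      rw [hP, Finset.mem_filter, Finset.mem_range]
      exact ⟨Nat.lt_succ_of_le (Nat.le_floor hn), hp, hna⟩) (by
      intro n hn
      rw [hP, Finset.mem_filter] at hn
      exact hn.2.1.one_lt.le) (le_trans hcon hC4)
    have hKS : K (b : ZMod Q) ≤ S :=
      Finset.single_le_sum (fun a _ => hK0 a) (Finset.mem_univ _)
    have hφ : (0 : ℝ) ≤ Q.totient := Nat.cast_nonneg _
    have h2 : (N : ℝ) ≤ Q.totient * (20 + S) := by
      refine le_trans h (mul_le_mul_of_nonneg_left (by linarith) hφ)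
    have h3 : N ≤ ⌊(Q.totient : ℝ) * (20 + S)⌋₊ := Nat.le_floor h2
    omega

end

end Pool.Agent.SelQ
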