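import Pool.Agent.SelQ.TargetsE
import Pool.Agent.SelDeg2.PT

/-!
# Degree 2 without the mean square bound (MP_995735_nt), F5 PNT: moving the base point
-/

set_option autoImplicit false

namespace Pool.Agent.SelQ

open Complex
open Pool.Agent.SelTwo (lam pX vl cj tw gP near_geom)

noncomputable section

namespace PNT_

theorem lam_bound {c : ℕ → ℂ} {A e : ℝ} (hA : 0 ≤ A) (he : 0 ≤ e) (he1 : e ≤ 1)
    (hc : ∀ n : ℕ, 1 ≤ n → ‖c n‖ ≤ A * (n : ℝ) ^ e) {y : ℝ} (hy : 0 < y) (u : ℂ)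
    (hu : 2 * Real.pi * y ≤ u.re) :
    Summable (fun n : ℕ => c (n + 1) * exp (-(((n : ℂ) + 1) * u))) ∧
      ‖lam c u‖ ≤ A * y ^ (-e) * (1 / y) := by
  obtain ⟨hgs, hgl⟩ := near_geom hy
  have hyy : 0 < y ^ (-e) := Real.rpow_pos_of_pos hy _
  have hterm : ∀ n : ℕ, ‖c (n + 1) * exp (-(((n : ℂ) + 1) * u))‖ ≤
      (A * y ^ (-e)) * Real.exp (-y) ^ (n + 1) := by
    intro n
    have h1 := hc (n + 1) (by omega)
    push_cast at h1
    rw [norm_mul]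
    calc ‖c (n + 1)‖ * ‖exp (-(((n : ℂ) + 1) * u))‖
        ≤ (A * ((n : ℝ) + 1) ^ e) *
            Real.exp (-(((n : ℝ) + 1) * (2 * Real.pi * y))) := by
          apply mul_le_mul h1 (Pool.Agent.SelDeg2.PT_.norm_exp_le u y n hu) (norm_nonneg _)
          positivity
      _ = A * (((n : ℝ) + 1) ^ e *
            Real.exp (-(((n : ℝ) + 1) * (2 * Real.pi * y)))) := by ring
      _ ≤ A * (y ^ (-e) * Real.exp (-y) ^ (n + 1)) :=
          mul_le_mul_of_nonneg_left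
            (Pool.Agent.SelDeg2.PT_.term hy he (by linarith) n) hA
      _ = _ := by ring
  have hbs := hgs.mul_left (A * y ^ (-e))
  refine ⟨Summable.of_norm_bounded hbs hterm, ?_⟩
  unfold lam
  calc ‖∑' n : ℕ, c (n + 1) * exp (-(((n : ℂ) + 1) * u))‖
      ≤ ∑' n : ℕ, (A * y ^ (-e)) * Real.exp (-y) ^ (n + 1) :=
        tsum_of_norm_bounded hbs.hasSum hterm
    _ = (A * y ^ (-e)) * ∑' n : ℕ, Real.exp (-y) ^ (n + 1) := tsum_mul_left
    _ ≤ _ := mul_le_mul_of_nonneg_left hgl (by positivity)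

theorem lam_diff {c : ℕ → ℂ} {A e : ℝ} (hA : 0 ≤ A) (he : 0 ≤ e) (he1 : e ≤ 1)
    (hc : ∀ n : ℕ, 1 ≤ n → ‖c n‖ ≤ A * (n : ℝ) ^ e) {y : ℝ} (hy : 0 < y) (u v : ℂ)
    (hu : 2 * Real.pi * y ≤ u.re) (hv : 2 * Real.pi * y ≤ v.re) :
    ‖lam c u - lam c v‖ ≤ A * ‖u - v‖ * y ^ (-(e + 1)) * (1 / y) := by
  obtain ⟨hgs, hgl⟩ := near_geom hy
  have hyy : 0 < y ^ (-(e + 1)) := Real.rpow_pos_of_pos hy _
  have hs1 := (lam_bound hA he he1 hc hy u hu).1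
  have hs2 := (lam_bound hA he he1 hc hy v hv).1
  have hpp : ∀ n : ℕ, ((n : ℝ) + 1) ^ e * ((n : ℝ) + 1) = ((n : ℝ) + 1) ^ (e + 1) := by
    intro n
    have hn : (0 : ℝ) < (n : ℝ) + 1 := by positivity
    rw [Real.rpow_add hn, Real.rpow_one]
  have hterm : ∀ n : ℕ, ‖c (n + 1) * exp (-(((n : ℂ) + 1) * u)) -
      c (n + 1) * exp (-(((n : ℂ) + 1) * v))‖ ≤
      (A * ‖u - v‖ * y ^ (-(e + 1))) * Real.exp (-y) ^ (n + 1) := by
    intro n
    have h1 := hc (n + 1) (by omega)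
    push_cast at h1
    have hn : (0 : ℝ) < (n : ℝ) + 1 := by positivity
    have e1 : (((n : ℂ) + 1) * u).re = ((n : ℝ) + 1) * u.re := by simp
    have e2 : (((n : ℂ) + 1) * v).re = ((n : ℝ) + 1) * v.re := by simp
    have h2 := Pool.Agent.SelDeg2.PT_.exp_diff (((n : ℂ) + 1) * u) (((n : ℂ) + 1) * v)
      (((n : ℝ) + 1) * (2 * Real.pi * y))
      (by rw [e1]; exact mul_le_mul_of_nonneg_left hu hn.le)
      (by rw [e2]; exact mul_le_mul_of_nonneg_left hv hn.le)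
    have h3 : ‖((n : ℂ) + 1) * u - ((n : ℂ) + 1) * v‖ = ((n : ℝ) + 1) * ‖u - v‖ := by
      rw [← mul_sub, norm_mul]
      congr 1
      have : ((n : ℂ) + 1) = (((n : ℝ) + 1 : ℝ) : ℂ) := by push_cast; rfl
      rw [this, Complex.norm_real, Real.norm_of_nonneg hn.le]
    rw [h3] at h2
    rw [← mul_sub, norm_mul]
    calc ‖c (n + 1)‖ * ‖exp (-(((n : ℂ) + 1) * u)) - exp (-(((n : ℂ) + 1) * v))‖
        ≤ (A * ((n : ℝ) + 1) ^ e) *
            (Real.exp (-(((n : ℝ) + 1) * (2 * Real.pi * y))) * (((n : ℝ) + 1) * ‖u - v‖)) := by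
          apply mul_le_mul h1 h2 (norm_nonneg _)
          positivity
      _ = (A * ‖u - v‖) * ((((n : ℝ) + 1) ^ e * ((n : ℝ) + 1)) *
            Real.exp (-(((n : ℝ) + 1) * (2 * Real.pi * y)))) := by ring
      _ = (A * ‖u - v‖) * (((n : ℝ) + 1) ^ (e + 1) *
            Real.exp (-(((n : ℝ) + 1) * (2 * Real.pi * y)))) := by rw [hpp]
      _ ≤ (A * ‖u - v‖) * (y ^ (-(e + 1)) * Real.exp (-y) ^ (n + 1)) :=
          mul_le_mul_of_nonneg_left
            (Pool.Agent.SelDeg2.PT_.term hy (by linarith) (by linarith) n) (by positivity)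
      _ = _ := by ring
  have hbs := hgs.mul_left (A * ‖u - v‖ * y ^ (-(e + 1)))
  unfold lam
  rw [← hs1.tsum_sub hs2]
  calc ‖∑' n : ℕ, (c (n + 1) * exp (-(((n : ℂ) + 1) * u)) -
        c (n + 1) * exp (-(((n : ℂ) + 1) * v)))‖
      ≤ ∑' n : ℕ, (A * ‖u - v‖ * y ^ (-(e + 1))) * Real.exp (-y) ^ (n + 1) :=
        tsum_of_norm_bounded hbs.hasSum hterm
    _ = (A * ‖u - v‖ * y ^ (-(e + 1))) * ∑' n : ℕ, Real.exp (-y) ^ (n + 1) := tsum_mul_left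
    _ ≤ _ := mul_le_mul_of_nonneg_left hgl (by positivity)

theorem pX_norm {x : ℝ} (hx : 0 < x) (y : ℝ) : 2 * Real.pi * x ≤ ‖pX x y‖ := by
  have h1 := Complex.abs_im_le_norm (pX x y)
  rw [Pool.Agent.SelDeg2.PT_.pX_im, abs_neg, abs_of_nonneg (by positivity)] at h1
  exact h1

/-- the size of the factor -/
theorem W_norm (A : ℂ) {q θ x u : ℝ} (hu : 0 < u) (hux : u ≤ x) (y : ℝ) :
    ‖A / pX x y * (4 * (Real.pi : ℂ) ^ 2 / (q * pX x y)) ^ (-((θ : ℂ) * I))‖ ≤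
      ‖A‖ / (2 * Real.pi * u) * Real.exp (Real.pi * |θ|) := by
  have hpi := Real.pi_pos
  have hx : 0 < x := lt_of_lt_of_le hu hux
  rw [norm_mul, norm_div]
  have h1 : ‖A‖ / ‖pX x y‖ ≤ ‖A‖ / (2 * Real.pi * u) := by
    apply div_le_div_of_nonneg_left (norm_nonneg _) (by positivity)
    exact le_trans (by gcongr) (pX_norm hx y)
  have h2 : ‖(4 * (Real.pi : ℂ) ^ 2 / (q * pX x y)) ^ (-((θ : ℂ) * I))‖ ≤
      Real.exp (Real.pi * |θ|) := by
    refine (Complex.norm_cpow_le _ _).trans ?_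
    have e1 : (-((θ : ℂ) * I)).re = 0 := by simp
    have e2 : (-((θ : ℂ) * I)).im = -θ := by simp
    rw [e1, e2, Real.rpow_zero, one_div, ← Real.exp_neg]
    apply Real.exp_le_exp.2
    have h3 := Complex.abs_arg_le_pi (4 * (Real.pi : ℂ) ^ 2 / (q * pX x y))
    calc -(arg (4 * (Real.pi : ℂ) ^ 2 / (q * pX x y)) * -θ)
        = arg (4 * (Real.pi : ℂ) ^ 2 / (q * pX x y)) * θ := by ring
      _ ≤ |arg (4 * (Real.pi : ℂ) ^ 2 / (q * pX x y)) * θ| := le_abs_self _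
      _ = |arg (4 * (Real.pi : ℂ) ^ 2 / (q * pX x y))| * |θ| := abs_mul _ _
      _ ≤ Real.pi * |θ| := mul_le_mul_of_nonneg_right h3 (abs_nonneg _)
  exact mul_le_mul h1 h2 (norm_nonneg _) (by positivity)

/-- the derivative of the factor with respect to the height -/
theorem W_deriv (A : ℂ) {q θ x : ℝ} (hq : 0 < q) (hx : 0 < x) (y : ℝ) :
    HasDerivAt (fun y : ℝ => A / pX x y * (4 * (Real.pi : ℂ) ^ 2 / (q * pX x y)) ^
      (-((θ : ℂ) * I)))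
      (2 * Real.pi * (-1 + (θ : ℂ) * I) / pX x y * (A / pX x y *
        (4 * (Real.pi : ℂ) ^ 2 / (q * pX x y)) ^ (-((θ : ℂ) * I)))) y := by
  have hX0 := Pool.Agent.SelDeg2.PT_.pX_ne hx y
  have hsl := Pool.Agent.SelDeg2.PT_.slit hq hx y
  have hq0 : (q : ℂ) ≠ 0 := by exact_mod_cast hq.ne'
  have hpi0 : (Real.pi : ℂ) ≠ 0 := by exact_mod_cast Real.pi_pos.ne'
  have hM0 : 4 * (Real.pi : ℂ) ^ 2 / (q * pX x y) ≠ 0 := by
    apply div_ne_zero
    · exact mul_ne_zero (by norm_num) (pow_ne_zero _ hpi0)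
    · exact mul_ne_zero hq0 hX0
  have h1 : HasDerivAt (fun y : ℝ => pX x y) (2 * Real.pi : ℂ) y := by
    have h2 : HasDerivAt (fun z : ℂ => 2 * (Real.pi : ℂ) * (z - I * x)) (2 * Real.pi : ℂ)
        (y : ℂ) := by
      have h3 : HasDerivAt (fun z : ℂ => z - I * x) 1 (y : ℂ) := (hasDerivAt_id _).sub_const _
      have h4 := h3.const_mul (2 * (Real.pi : ℂ))
      rwa [mul_one] at h4
    exact h2.comp_ofReal
  have h2 : HasDerivAt (fun y : ℝ => A / pX x y) (-(A * (2 * Real.pi)) / pX x y ^ 2) y := by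
    have h3 := (hasDerivAt_const y A).div h1 hX0
    refine h3.congr_deriv ?_
    ring
  have h3 : HasDerivAt (fun y : ℝ => 4 * (Real.pi : ℂ) ^ 2 / (q * pX x y))
      (-(4 * (Real.pi : ℂ) ^ 2 * (2 * Real.pi)) / (q * pX x y ^ 2)) y := by
    have h4 := (hasDerivAt_const y (4 * (Real.pi : ℂ) ^ 2)).div (h1.const_mul (q : ℂ))
      (mul_ne_zero hq0 hX0)
    refine h4.congr_deriv ?_
    field_simp
    ring
  have h4 : HasDerivAt (fun y : ℝ => (4 * (Real.pi : ℂ) ^ 2 / (q * pX x y)) ^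
      (-((θ : ℂ) * I)))
      ((-((θ : ℂ) * I)) * (4 * (Real.pi : ℂ) ^ 2 / (q * pX x y)) ^ (-((θ : ℂ) * I) - 1) *
        (-(4 * (Real.pi : ℂ) ^ 2 * (2 * Real.pi)) / (q * pX x y ^ 2))) y := by
    have h5 := (hasStrictDerivAt_cpow_const (c := -((θ : ℂ) * I)) hsl).hasDerivAt
    exact h5.comp y h3
  have h5 := h2.mul h4
  refine h5.congr_deriv ?_
  rw [Complex.cpow_sub _ _ hM0, Complex.cpow_one]
  field_simp

/-- the Lipschitz bound for the factor -/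
theorem W_lip (A : ℂ) {q θ x u : ℝ} (hq : 0 < q) (hu : 0 < u) (hux : u ≤ x) {y : ℝ}
    (hy : 0 < y) :
    ‖A / pX x y * (4 * (Real.pi : ℂ) ^ 2 / (q * pX x y)) ^ (-((θ : ℂ) * I)) -
      A / pX x 0 * (4 * (Real.pi : ℂ) ^ 2 / (q * pX x 0)) ^ (-((θ : ℂ) * I))‖ ≤
      (1 + |θ|) / u * (‖A‖ / (2 * Real.pi * u) * Real.exp (Real.pi * |θ|)) * y := by
  have hpi := Real.pi_pos
  have hx : 0 < x := lt_of_lt_of_le hu hux
  have h := Convex.norm_image_sub_le_of_norm_hasDerivWithin_le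
    (f := fun y : ℝ => A / pX x y * (4 * (Real.pi : ℂ) ^ 2 / (q * pX x y)) ^
      (-((θ : ℂ) * I)))
    (f' := fun y : ℝ => 2 * Real.pi * (-1 + (θ : ℂ) * I) / pX x y * (A / pX x y *
        (4 * (Real.pi : ℂ) ^ 2 / (q * pX x y)) ^ (-((θ : ℂ) * I))))
    (C := (1 + |θ|) / u * (‖A‖ / (2 * Real.pi * u) * Real.exp (Real.pi * |θ|)))
    (s := Set.univ) (x := 0) (y := y)
    (fun t _ => (W_deriv A hq hx t).hasDerivWithinAt) (fun t _ => ?_) convex_univ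
    (Set.mem_univ _) (Set.mem_univ _)
  · rw [sub_zero, Real.norm_of_nonneg hy.le] at h
    exact h
  · rw [norm_mul]
    apply mul_le_mul _ (W_norm A hu hux t) (norm_nonneg _) (by positivity)
    rw [norm_div, norm_mul]
    have h1 : ‖(-1 + (θ : ℂ) * I)‖ ≤ 1 + |θ| := by
      refine (norm_add_le _ _).trans ?_
      rw [norm_neg, norm_one, norm_mul, Complex.norm_I, mul_one, Complex.norm_real,
        Real.norm_eq_abs]
    have h2 : ‖(2 * (Real.pi : ℂ))‖ = 2 * Real.pi := by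
      rw [norm_mul, Complex.norm_real, Real.norm_of_nonneg hpi.le]
      norm_num
    rw [h2]
    calc 2 * Real.pi * ‖(-1 + (θ : ℂ) * I)‖ / ‖pX x t‖
        ≤ 2 * Real.pi * (1 + |θ|) / (2 * Real.pi * u) := by
          apply div_le_div₀ (by positivity) (by gcongr) (by positivity)
          exact le_trans (by gcongr) (pX_norm hx t)
      _ = (1 + |θ|) / u := by field_simp

end PNT_

theorem p_PNT : T_PNT := by
  intro a A q θ u v ha hq hu huv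
  have hpi := Real.pi_pos
  obtain ⟨A₁, hA₁b⟩ := ha (1 / 16) (by norm_num)
  have hA₁ : 0 ≤ A₁ := by
    have := hA₁b 1 le_rfl
    simp only [Nat.cast_one, Real.one_rpow, mul_one] at this
    exact (norm_nonneg _).trans this
  set c : ℕ → ℂ := tw θ (cj a) with hc
  have hcb : ∀ n : ℕ, 1 ≤ n → ‖c n‖ ≤ A₁ * (n : ℝ) ^ (1 / 16 : ℝ) := by
    intro n hn
    rw [hc, Pool.Agent.SelDeg2.PT_.tw_cj_norm a θ n hn]
    exact hA₁b n hn
  set K : ℝ := ‖A‖ / (2 * Real.pi * u) * Real.exp (Real.pi * |θ|) with hK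
  have hK0 : 0 ≤ K := by positivity
  set K' : ℝ := (1 + |θ|) / u * K with hK'
  have hK'0 : 0 ≤ K' := by positivity
  have hq0 : (q : ℂ) ≠ 0 := by exact_mod_cast hq.ne'
  have hpi0 : (Real.pi : ℂ) ≠ 0 := by exact_mod_cast hpi.ne'
  set ρ : ℝ := 1 / (q * (1 + v ^ 2)) with hρ
  have hρ0 : 0 < ρ := by positivity
  set D : ℝ := 2 * Real.pi / (q * u ^ 3) with hD
  have hD0 : 0 < D := by positivity
  refine ⟨K * (A₁ * D * ρ ^ (-(1 / 16 + 1) : ℝ) * (1 / ρ)) +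
    K' * (A₁ * ρ ^ (-(1 / 16) : ℝ) * (1 / ρ)), ?_⟩
  intro x y hux hxv hy hy1
  have hx : 0 < x := lt_of_lt_of_le hu hux
  have hx0 : (x : ℂ) ≠ 0 := by exact_mod_cast hx.ne'
  set X : ℂ := pX x y with hX
  set X1 : ℂ := 4 * Real.pi ^ 2 / (q * X) with hX1
  set X2 : ℂ := pX (-(1 / q / x)) (1 / q * y / x ^ 2) with hX2
  have hXne : X ≠ 0 := Pool.Agent.SelDeg2.PT_.pX_ne hx y
  have hz : 0 < ρ * y := by positivity
  -- the value at zero
  have hW0 : A / pX x 0 * (4 * (Real.pi : ℂ) ^ 2 / (q * pX x 0)) ^ (-((θ : ℂ) * I)) =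
      A / (-(2 * Real.pi * I * x)) * (2 * Real.pi * I / (q * x)) ^ (-((θ : ℂ) * I)) := by
    have e1 : pX x 0 = -(2 * Real.pi * I * x) := by
      unfold pX
      push_cast
      ring
    have e2 : 4 * (Real.pi : ℂ) ^ 2 / (q * -(2 * Real.pi * I * x)) =
        2 * Real.pi * I / (q * x) := by
      have hI : I ≠ 0 := Complex.I_ne_zero
      rw [div_eq_div_iff (by
        apply mul_ne_zero hq0
        rw [neg_ne_zero]
        exact mul_ne_zero (mul_ne_zero (mul_ne_zero two_ne_zero hpi0) hI) hx0)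
        (mul_ne_zero hq0 hx0)]
      have hII : I * I = -1 := Complex.I_mul_I
      linear_combination (4 * (Real.pi : ℂ) ^ 2 * q * x) * hII
    rw [e1, e2]
  -- real parts
  have hX1' : X1 = ((2 * Real.pi / (q * (y ^ 2 + x ^ 2)) : ℝ) : ℂ) * ((y : ℂ) + I * x) := by
    have hs : ((y ^ 2 + x ^ 2 : ℝ) : ℂ) ≠ 0 := by
      have : (0 : ℝ) < y ^ 2 + x ^ 2 := by positivity
      exact_mod_cast this.ne'
    push_cast at hs
    have hy2 : ((y : ℂ) - I * x) * ((y : ℂ) + I * x) = (y : ℂ) ^ 2 + (x : ℂ) ^ 2 := by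
      have hII : I * I = -1 := Complex.I_mul_I
      linear_combination (-(x : ℂ) ^ 2) * hII
    have hXe : X = 2 * Real.pi * ((y : ℂ) - I * x) := rfl
    rw [hX1, div_eq_iff (mul_ne_zero hq0 hXne), hXe]
    push_cast
    have : 2 * (Real.pi : ℂ) / (q * ((y : ℂ) ^ 2 + (x : ℂ) ^ 2)) * ((y : ℂ) + I * x) *
        (q * (2 * Real.pi * ((y : ℂ) - I * x))) = 4 * (Real.pi : ℂ) ^ 2 *
        ((((y : ℂ) - I * x) * ((y : ℂ) + I * x)) / ((y : ℂ) ^ 2 + (x : ℂ) ^ 2)) := by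
      field_simp
      ring
    rw [this, hy2, div_self hs, mul_one]
  have hX2' : X2 = ((2 * Real.pi / (q * x ^ 2) : ℝ) : ℂ) * ((y : ℂ) + I * x) := by
    rw [hX2]
    unfold pX
    push_cast
    field_simp
    ring
  have hre : ((y : ℂ) + I * x).re = y := by simp
  have hxv2 : x ^ 2 ≤ v ^ 2 := by nlinarith
  have hX1re : 2 * Real.pi * (ρ * y) ≤ X1.re := by
    rw [hX1', Complex.re_ofReal_mul, hre, hρ]
    have h1 : 2 * Real.pi * (1 / (q * (1 + v ^ 2)) * y) = 2 * Real.pi / (q * (1 + v ^ 2)) * y := by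
      ring
    rw [h1]
    apply mul_le_mul_of_nonneg_right _ hy.le
    apply div_le_div_of_nonneg_left (by positivity) (by positivity)
    apply mul_le_mul_of_nonneg_left _ hq.le
    nlinarith
  have hX2re : 2 * Real.pi * (ρ * y) ≤ X2.re := by
    rw [hX2', Complex.re_ofReal_mul, hre, hρ]
    have h1 : 2 * Real.pi * (1 / (q * (1 + v ^ 2)) * y) = 2 * Real.pi / (q * (1 + v ^ 2)) * y := by
      ring
    rw [h1]
    apply mul_le_mul_of_nonneg_right _ hy.le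
    apply div_le_div_of_nonneg_left (by positivity) (by positivity)
    apply mul_le_mul_of_nonneg_left _ hq.le
    linarith
  have hdiff : ‖X1 - X2‖ ≤ D * y ^ 2 := by
    have hs : (0 : ℝ) < y ^ 2 + x ^ 2 := by positivity
    have e : X1 - X2 = ((-(2 * Real.pi * y ^ 2 / (q * x ^ 2 * (y ^ 2 + x ^ 2))) : ℝ) : ℂ) *
        ((y : ℂ) + I * x) := by
      rw [hX1', hX2', ← sub_mul, ← Complex.ofReal_sub]
      congr 2
      field_simp
      ring
    have hn : ‖(y : ℂ) + I * x‖ = Real.sqrt (y ^ 2 + x ^ 2) := by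
      rw [mul_comm I, Complex.norm_add_mul_I]
    rw [e, norm_mul, Complex.norm_real, Real.norm_eq_abs, abs_neg, abs_of_nonneg (by positivity),
      hn, hD]
    have h1 : Real.sqrt (y ^ 2 + x ^ 2) * x ≤ y ^ 2 + x ^ 2 := by
      have h2 : x ≤ Real.sqrt (y ^ 2 + x ^ 2) := by
        apply Real.le_sqrt_of_sq_le
        nlinarith [sq_nonneg y]
      calc Real.sqrt (y ^ 2 + x ^ 2) * x
          ≤ Real.sqrt (y ^ 2 + x ^ 2) * Real.sqrt (y ^ 2 + x ^ 2) :=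
            mul_le_mul_of_nonneg_left h2 (Real.sqrt_nonneg _)
        _ = y ^ 2 + x ^ 2 := Real.mul_self_sqrt hs.le
    have h3 : 2 * Real.pi * y ^ 2 / (q * x ^ 2 * (y ^ 2 + x ^ 2)) * Real.sqrt (y ^ 2 + x ^ 2) =
        (2 * Real.pi * y ^ 2 / (q * x ^ 3)) *
          ((Real.sqrt (y ^ 2 + x ^ 2) * x) / (y ^ 2 + x ^ 2)) := by
      field_simp
    rw [h3]
    have h4 : (Real.sqrt (y ^ 2 + x ^ 2) * x) / (y ^ 2 + x ^ 2) ≤ 1 := by
      rw [div_le_one hs]; exact h1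
    calc (2 * Real.pi * y ^ 2 / (q * x ^ 3)) * ((Real.sqrt (y ^ 2 + x ^ 2) * x) / (y ^ 2 + x ^ 2))
        ≤ (2 * Real.pi * y ^ 2 / (q * x ^ 3)) * 1 :=
          mul_le_mul_of_nonneg_left h4 (by positivity)
      _ = 2 * Real.pi / (q * x ^ 3) * y ^ 2 := by ring
      _ ≤ 2 * Real.pi / (q * u ^ 3) * y ^ 2 := by gcongr
  have hL1 := PNT_.lam_diff hA₁ (by norm_num) (by norm_num) hcb hz X1 X2 hX1re hX2re
  have hL2 := (PNT_.lam_bound hA₁ (by norm_num) (by norm_num) hcb hz X2 hX2re).2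
  have hKy : ‖A / X * X1 ^ (-((θ : ℂ) * I))‖ ≤ K := PNT_.W_norm A hu hux y
  have hKd : ‖A / X * X1 ^ (-((θ : ℂ) * I)) -
      A / pX x 0 * (4 * (Real.pi : ℂ) ^ 2 / (q * pX x 0)) ^ (-((θ : ℂ) * I))‖ ≤ K' * y :=
    PNT_.W_lip A hq hu hux hy
  have hsplit : A / X * X1 ^ (-((θ : ℂ) * I)) * lam c X1 - A / (-(2 * Real.pi * I * x)) *
      (2 * Real.pi * I / (q * x)) ^ (-((θ : ℂ) * I)) * lam c X2 =
      A / X * X1 ^ (-((θ : ℂ) * I)) * (lam c X1 - lam c X2) +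
      (A / X * X1 ^ (-((θ : ℂ) * I)) -
        A / pX x 0 * (4 * (Real.pi : ℂ) ^ 2 / (q * pX x 0)) ^ (-((θ : ℂ) * I))) * lam c X2 := by
    rw [hW0]
    ring
  rw [hsplit]
  have hyp : 0 < y ^ (-(1 / 16) : ℝ) := Real.rpow_pos_of_pos hy _
  have hρ3 : 0 < ρ ^ (-(1 / 16 + 1) : ℝ) := Real.rpow_pos_of_pos hρ0 _
  have hρ1 : 0 < ρ ^ (-(1 / 16) : ℝ) := Real.rpow_pos_of_pos hρ0 _
  have hz3 : 0 < (ρ * y) ^ (-(1 / 16 + 1) : ℝ) := Real.rpow_pos_of_pos hz _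
  have h2 : ‖A / X * X1 ^ (-((θ : ℂ) * I)) * (lam c X1 - lam c X2)‖ ≤
      K * (A₁ * D * ρ ^ (-(1 / 16 + 1) : ℝ) * (1 / ρ)) * y ^ (-(1 / 16) : ℝ) := by
    rw [norm_mul]
    calc ‖A / X * X1 ^ (-((θ : ℂ) * I))‖ * ‖lam c X1 - lam c X2‖
        ≤ K * (A₁ * ‖X1 - X2‖ * (ρ * y) ^ (-(1 / 16 + 1) : ℝ) * (1 / (ρ * y))) :=
          mul_le_mul hKy hL1 (norm_nonneg _) hK0
      _ ≤ K * (A₁ * (D * y ^ 2) * (ρ * y) ^ (-(1 / 16 + 1) : ℝ) * (1 / (ρ * y))) := by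
          gcongr
      _ = K * (A₁ * D * ρ ^ (-(1 / 16 + 1) : ℝ) * (1 / ρ)) * y ^ (-(1 / 16) : ℝ) := by
          rw [Real.mul_rpow hρ0.le hy.le]
          have e1 : y ^ (-(1 / 16) : ℝ) = y ^ 2 * y ^ (-(1 / 16 + 1) : ℝ) * (1 / y) := by
            have e2 : y ^ 2 * y ^ (-(1 / 16 + 1) : ℝ) = y ^ (15 / 16 : ℝ) := by
              rw [← Real.rpow_natCast y 2, ← Real.rpow_add hy]
              norm_num
            rw [e2, mul_one_div, eq_div_iff hy.ne']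
            nth_rewrite 2 [← Real.rpow_one y]
            rw [← Real.rpow_add hy]
            norm_num
          rw [e1]
          field_simp
  have h3 : ‖(A / X * X1 ^ (-((θ : ℂ) * I)) -
      A / pX x 0 * (4 * (Real.pi : ℂ) ^ 2 / (q * pX x 0)) ^ (-((θ : ℂ) * I))) * lam c X2‖ ≤
      K' * (A₁ * ρ ^ (-(1 / 16) : ℝ) * (1 / ρ)) * y ^ (-(1 / 16) : ℝ) := by
    rw [norm_mul]
    calc ‖A / X * X1 ^ (-((θ : ℂ) * I)) -
          A / pX x 0 * (4 * (Real.pi : ℂ) ^ 2 / (q * pX x 0)) ^ (-((θ : ℂ) * I))‖ * ‖lam c X2‖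
        ≤ (K' * y) * (A₁ * (ρ * y) ^ (-(1 / 16) : ℝ) * (1 / (ρ * y))) :=
          mul_le_mul hKd hL2 (norm_nonneg _) (by positivity)
      _ = K' * (A₁ * ρ ^ (-(1 / 16) : ℝ) * (1 / ρ)) * y ^ (-(1 / 16) : ℝ) := by
          rw [Real.mul_rpow hρ0.le hy.le]
          field_simp
  calc ‖A / X * X1 ^ (-((θ : ℂ) * I)) * (lam c X1 - lam c X2) +
      (A / X * X1 ^ (-((θ : ℂ) * I)) -
        A / pX x 0 * (4 * (Real.pi : ℂ) ^ 2 / (q * pX x 0)) ^ (-((θ : ℂ) * I))) * lam c X2‖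
      ≤ K * (A₁ * D * ρ ^ (-(1 / 16 + 1) : ℝ) * (1 / ρ)) * y ^ (-(1 / 16) : ℝ) +
        K' * (A₁ * ρ ^ (-(1 / 16) : ℝ) * (1 / ρ)) * y ^ (-(1 / 16) : ℝ) :=
        (norm_add_le _ _).trans (add_le_add h2 h3)
    _ = _ := by ring

end

end Pool.Agent.SelQ
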