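import Pool.Agent.SelQ.TargetsU
import Pool.Agent.SelDeg2.PT

/-!
# U5 PTU: the relation with the base point and the height moved, uniformly in `α ≤ 1`
-/

set_option autoImplicit false

namespace Pool.Agent.SelQ

open Complex Filter Topology MeasureTheory
open Pool.Agent.SelTwo (lam pX vl cj tw gP FEq)
open Pool.Agent.SelDeg2 (PT_.lam_bound PT_.lam_diff PT_.Wc PT_.pX_ne PT_.tw_cj_norm)

noncomputable section

namespace PTU_

/-- the value of the factor at height zero -/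
theorem W0 (A : ℂ) (q θ α : ℝ) (hq : 0 < q) (hα : 0 < α) :
    PT_.Wc A q θ α ((0 : ℝ) : ℂ) = A / (-(2 * Real.pi * I * α)) *
      (2 * Real.pi * I / (q * α)) ^ (-((θ : ℂ) * I)) := by
  have hpi := Real.pi_pos
  have hq0 : (q : ℂ) ≠ 0 := by exact_mod_cast hq.ne'
  have hα0 : (α : ℂ) ≠ 0 := by exact_mod_cast hα.ne'
  have hpi0 : (Real.pi : ℂ) ≠ 0 := by exact_mod_cast hpi.ne'
  unfold PT_.Wc
  have e1 : 2 * (Real.pi : ℂ) * (((0 : ℝ) : ℂ) - I * α) = -(2 * Real.pi * I * α) := by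
    push_cast
    ring
  have e2 : 4 * (Real.pi : ℂ) ^ 2 / (q * -(2 * Real.pi * I * α)) =
      2 * Real.pi * I / (q * α) := by
    have hI : I ≠ 0 := Complex.I_ne_zero
    rw [div_eq_div_iff (by
      apply mul_ne_zero hq0
      rw [neg_ne_zero]
      exact mul_ne_zero (mul_ne_zero (mul_ne_zero two_ne_zero hpi0) hI) hα0)
      (mul_ne_zero hq0 hα0)]
    have hII : I * I = -1 := Complex.I_mul_I
    linear_combination (4 * (Real.pi : ℂ) ^ 2 * q * α) * hII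
  rw [e1, e2]

/-- the moved argument in closed form -/
theorem X1_eq {q α : ℝ} (hq : 0 < q) (hα : 0 < α) (y : ℝ) :
    4 * (Real.pi : ℂ) ^ 2 / (q * pX α y) =
      ((2 * Real.pi / (q * (y ^ 2 + α ^ 2)) : ℝ) : ℂ) * ((y : ℂ) + I * α) := by
  have hpi := Real.pi_pos
  have hq0 : (q : ℂ) ≠ 0 := by exact_mod_cast hq.ne'
  have hpi0 : (Real.pi : ℂ) ≠ 0 := by exact_mod_cast hpi.ne'
  have hXne : pX α y ≠ 0 := PT_.pX_ne hα y
  have hs : ((y ^ 2 + α ^ 2 : ℝ) : ℂ) ≠ 0 := by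
    have : (0 : ℝ) < y ^ 2 + α ^ 2 := by positivity
    exact_mod_cast this.ne'
  push_cast at hs
  have hy2 : ((y : ℂ) - I * α) * ((y : ℂ) + I * α) = (y : ℂ) ^ 2 + (α : ℂ) ^ 2 := by
    have hII : I * I = -1 := Complex.I_mul_I
    linear_combination (-(α : ℂ) ^ 2) * hII
  have hXe : pX α y = 2 * Real.pi * ((y : ℂ) - I * α) := rfl
  rw [div_eq_iff (mul_ne_zero hq0 hXne), hXe]
  push_cast
  have : 2 * (Real.pi : ℂ) / (q * ((y : ℂ) ^ 2 + (α : ℂ) ^ 2)) * ((y : ℂ) + I * α) *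
      (q * (2 * Real.pi * ((y : ℂ) - I * α))) = 4 * (Real.pi : ℂ) ^ 2 *
      ((((y : ℂ) - I * α) * ((y : ℂ) + I * α)) / ((y : ℂ) ^ 2 + (α : ℂ) ^ 2)) := by
    field_simp
    ring
  rw [this, hy2, div_self hs, mul_one]

theorem X2_eq {q α : ℝ} (hq : 0 < q) (hα : 0 < α) (y : ℝ) :
    pX (-1 / (q * α)) (y / (q * α ^ 2)) =
      ((2 * Real.pi / (q * α ^ 2) : ℝ) : ℂ) * ((y : ℂ) + I * α) := by
  have hq0 : (q : ℂ) ≠ 0 := by exact_mod_cast hq.ne'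
  have hα0 : (α : ℂ) ≠ 0 := by exact_mod_cast hα.ne'
  unfold pX
  push_cast
  field_simp
  ring

/-- the two arguments are close -/
theorem diff_le {q α : ℝ} (hq : 0 < q) (hα : 0 < α) {y : ℝ} (hy : 0 < y) :
    ‖4 * (Real.pi : ℂ) ^ 2 / (q * pX α y) - pX (-1 / (q * α)) (y / (q * α ^ 2))‖ ≤
      2 * Real.pi / (q * α ^ 3) * y ^ 2 := by
  have hpi := Real.pi_pos
  have hs : (0 : ℝ) < y ^ 2 + α ^ 2 := by positivity
  have e : 4 * (Real.pi : ℂ) ^ 2 / (q * pX α y) - pX (-1 / (q * α)) (y / (q * α ^ 2)) =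
      ((-(2 * Real.pi * y ^ 2 / (q * α ^ 2 * (y ^ 2 + α ^ 2))) : ℝ) : ℂ) *
      ((y : ℂ) + I * α) := by
    rw [X1_eq hq hα, X2_eq hq hα, ← sub_mul, ← Complex.ofReal_sub]
    congr 2
    field_simp
    ring
  have hn : ‖(y : ℂ) + I * α‖ = Real.sqrt (y ^ 2 + α ^ 2) := by
    rw [mul_comm I, Complex.norm_add_mul_I]
  rw [e, norm_mul, Complex.norm_real, Real.norm_eq_abs, abs_neg, abs_of_nonneg (by positivity),
    hn]
  have h1 : Real.sqrt (y ^ 2 + α ^ 2) * α ≤ y ^ 2 + α ^ 2 := by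
    have h2 : α ≤ Real.sqrt (y ^ 2 + α ^ 2) := by
      apply Real.le_sqrt_of_sq_le
      nlinarith [sq_nonneg y]
    calc Real.sqrt (y ^ 2 + α ^ 2) * α
        ≤ Real.sqrt (y ^ 2 + α ^ 2) * Real.sqrt (y ^ 2 + α ^ 2) :=
          mul_le_mul_of_nonneg_left h2 (Real.sqrt_nonneg _)
      _ = y ^ 2 + α ^ 2 := Real.mul_self_sqrt hs.le
  have h3 : 2 * Real.pi * y ^ 2 / (q * α ^ 2 * (y ^ 2 + α ^ 2)) * Real.sqrt (y ^ 2 + α ^ 2) =
      (2 * Real.pi * y ^ 2 / (q * α ^ 3)) *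
        ((Real.sqrt (y ^ 2 + α ^ 2) * α) / (y ^ 2 + α ^ 2)) := by
    field_simp
  rw [h3]
  have h4 : (Real.sqrt (y ^ 2 + α ^ 2) * α) / (y ^ 2 + α ^ 2) ≤ 1 := by
    rw [div_le_one hs]; exact h1
  calc (2 * Real.pi * y ^ 2 / (q * α ^ 3)) * ((Real.sqrt (y ^ 2 + α ^ 2) * α) / (y ^ 2 + α ^ 2))
      ≤ (2 * Real.pi * y ^ 2 / (q * α ^ 3)) * 1 :=
        mul_le_mul_of_nonneg_left h4 (by positivity)
    _ = 2 * Real.pi / (q * α ^ 3) * y ^ 2 := by ring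

end PTU_

theorem p_PTU (hWBU : T_WBU) : T_PTU := by
  intro a A₁ A q θ C ha hq hC hrel
  have hpi := Real.pi_pos
  have hA₁ : 0 ≤ A₁ := by
    have := ha 1 le_rfl
    simp only [Nat.cast_one, Real.one_rpow, mul_one] at this
    exact (norm_nonneg _).trans this
  set c : ℕ → ℂ := tw θ (cj a) with hc
  have hcb : ∀ n : ℕ, 1 ≤ n → ‖c n‖ ≤ A₁ * (n : ℝ) ^ (1 / 2 : ℝ) := by
    intro n hn
    rw [hc, PT_.tw_cj_norm a θ n hn]
    exact ha n hn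
  obtain ⟨K, hK0, hK⟩ := hWBU A q θ hq
  set ρ : ℝ := 1 / (2 * q) with hρ
  have hρ0 : 0 < ρ := by positivity
  have hρ3 : 0 < ρ ^ (-(3 / 2) : ℝ) := Real.rpow_pos_of_pos hρ0 _
  have hρ1 : 0 < ρ ^ (-(1 / 2) : ℝ) := Real.rpow_pos_of_pos hρ0 _
  refine ⟨C + K * (A₁ * (2 * Real.pi / q) * ρ ^ (-(3 / 2) : ℝ) * (1 / ρ)) +
    K * (A₁ * ρ ^ (-(1 / 2) : ℝ) * (1 / ρ)), by positivity, ?_⟩
  intro α hα hα1 y hy hy1
  have hr := hrel α hα hα1 y hy hy1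
  obtain ⟨hKy, hKd⟩ := hK α hα hα1 y hy hy1
  set b : ℝ := 1 / α with hb
  have hb0 : 0 < b := by positivity
  have hb1 : 1 ≤ b := by rw [hb, le_div_iff₀ hα]; linarith
  set D : ℝ := 2 * Real.pi / (q * α ^ 3) with hD
  have hD0 : 0 < D := by positivity
  have hDb : D = 2 * Real.pi / q * b ^ 3 := by
    rw [hD, hb]
    field_simp
  have hX1' := PTU_.X1_eq hq hα y
  have hX2' := PTU_.X2_eq hq hα y
  have hdiff := PTU_.diff_le hq hα hy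
  rw [← hD] at hdiff
  set X : ℂ := pX α y with hX
  set X1 : ℂ := 4 * Real.pi ^ 2 / (q * X) with hX1
  set X2 : ℂ := pX (-1 / (q * α)) (y / (q * α ^ 2)) with hX2
  have hz : 0 < ρ * y := by positivity
  have hre : ((y : ℂ) + I * α).re = y := by simp
  have hα2 : α ^ 2 ≤ 1 := by nlinarith
  have hy2 : y ^ 2 ≤ 1 := by nlinarith
  have hX1re : 2 * Real.pi * (ρ * y) ≤ X1.re := by
    rw [hX1', Complex.re_ofReal_mul, hre, hρ]
    have h1 : 2 * Real.pi * (1 / (2 * q) * y) = 2 * Real.pi / (q * 2) * y := by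
      field_simp
    rw [h1]
    apply mul_le_mul_of_nonneg_right _ hy.le
    apply div_le_div_of_nonneg_left (by positivity) (by positivity)
    apply mul_le_mul_of_nonneg_left _ hq.le
    linarith
  have hX2re : 2 * Real.pi * (ρ * y) ≤ X2.re := by
    rw [hX2', Complex.re_ofReal_mul, hre, hρ]
    have h1 : 2 * Real.pi * (1 / (2 * q) * y) = 2 * Real.pi / (q * 2) * y := by
      field_simp
    rw [h1]
    apply mul_le_mul_of_nonneg_right _ hy.le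
    apply div_le_div_of_nonneg_left (by positivity) (by positivity)
    apply mul_le_mul_of_nonneg_left _ hq.le
    linarith
  have hL1 := PT_.lam_diff hA₁ hcb hz X1 X2 hX1re hX2re
  have hL2 := (PT_.lam_bound hA₁ hcb hz X2 hX2re).2
  set W : ℂ := A / X * X1 ^ (-((θ : ℂ) * I)) with hW
  set W0 : ℂ := A / (-(2 * Real.pi * I * α)) *
      (2 * Real.pi * I / (q * α)) ^ (-((θ : ℂ) * I)) with hW0
  have hsplit : lam a X - W0 * lam c X2 =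
      (lam a X - W * lam c X1) + W * (lam c X1 - lam c X2) + (W - W0) * lam c X2 := by
    ring
  rw [hsplit]
  have hyp : 0 < y ^ (-(1 / 2) : ℝ) := Real.rpow_pos_of_pos hy _
  have hyq : 0 < y ^ (-(3 / 4) : ℝ) := Real.rpow_pos_of_pos hy _
  have hcmp : y ^ (-(1 / 2) : ℝ) ≤ y ^ (-(3 / 4) : ℝ) :=
    Real.rpow_le_rpow_of_exponent_ge hy hy1 (by norm_num)
  have h2 : ‖W * (lam c X1 - lam c X2)‖ ≤
      (K * b ^ 2) * (A₁ * D * ρ ^ (-(3 / 2) : ℝ) * (1 / ρ)) * y ^ (-(3 / 4) : ℝ) := by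
    rw [norm_mul]
    calc ‖W‖ * ‖lam c X1 - lam c X2‖
        ≤ (K * b ^ 2) * (A₁ * ‖X1 - X2‖ * (ρ * y) ^ (-(3 / 2) : ℝ) * (1 / (ρ * y))) :=
          mul_le_mul hKy hL1 (norm_nonneg _) (by positivity)
      _ ≤ (K * b ^ 2) * (A₁ * (D * y ^ 2) * (ρ * y) ^ (-(3 / 2) : ℝ) * (1 / (ρ * y))) := by
          gcongr
      _ = (K * b ^ 2) * (A₁ * D * ρ ^ (-(3 / 2) : ℝ) * (1 / ρ)) * y ^ (-(1 / 2) : ℝ) := by
          rw [Real.mul_rpow hρ0.le hy.le]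
          have e1 : y ^ (-(1 / 2) : ℝ) = y ^ 2 * y ^ (-(3 / 2) : ℝ) * (1 / y) := by
            have e2 : y ^ 2 * y ^ (-(3 / 2) : ℝ) = y ^ (1 / 2 : ℝ) := by
              rw [← Real.rpow_natCast y 2, ← Real.rpow_add hy]
              norm_num
            rw [e2, mul_one_div, eq_div_iff hy.ne']
            nth_rewrite 2 [← Real.rpow_one y]
            rw [← Real.rpow_add hy]
            norm_num
          rw [e1]
          field_simp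
      _ ≤ _ := mul_le_mul_of_nonneg_left hcmp (by positivity)
  have h3 : ‖(W - W0) * lam c X2‖ ≤
      (K * b ^ 2) * (A₁ * ρ ^ (-(1 / 2) : ℝ) * (1 / ρ)) * y ^ (-(3 / 4) : ℝ) := by
    rw [norm_mul]
    calc ‖W - W0‖ * ‖lam c X2‖
        ≤ ((K * b ^ 2) * y) * (A₁ * (ρ * y) ^ (-(1 / 2) : ℝ) * (1 / (ρ * y))) :=
          mul_le_mul hKd hL2 (norm_nonneg _) (by positivity)
      _ = (K * b ^ 2) * (A₁ * ρ ^ (-(1 / 2) : ℝ) * (1 / ρ)) * y ^ (-(1 / 2) : ℝ) := by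
          rw [Real.mul_rpow hρ0.le hy.le]
          field_simp
      _ ≤ _ := mul_le_mul_of_nonneg_left hcmp (by positivity)
  have hb25 : b ^ 2 ≤ b ^ 5 := pow_le_pow_right₀ hb1 (by norm_num)
  have g1 : C * b ^ 2 * y ^ (-(3 / 4) : ℝ) ≤ C * b ^ 5 * y ^ (-(3 / 4) : ℝ) := by
    gcongr
  have g2 : (K * b ^ 2) * (A₁ * D * ρ ^ (-(3 / 2) : ℝ) * (1 / ρ)) * y ^ (-(3 / 4) : ℝ) =
      K * (A₁ * (2 * Real.pi / q) * ρ ^ (-(3 / 2) : ℝ) * (1 / ρ)) * b ^ 5 *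
        y ^ (-(3 / 4) : ℝ) := by
    rw [hDb]
    ring
  have g3 : (K * b ^ 2) * (A₁ * ρ ^ (-(1 / 2) : ℝ) * (1 / ρ)) * y ^ (-(3 / 4) : ℝ) ≤
      K * (A₁ * ρ ^ (-(1 / 2) : ℝ) * (1 / ρ)) * b ^ 5 * y ^ (-(3 / 4) : ℝ) := by
    have e : (K * b ^ 2) * (A₁ * ρ ^ (-(1 / 2) : ℝ) * (1 / ρ)) =
        K * (A₁ * ρ ^ (-(1 / 2) : ℝ) * (1 / ρ)) * b ^ 2 := by ring
    rw [e]
    gcongr
  calc ‖(lam a X - W * lam c X1) + W * (lam c X1 - lam c X2) + (W - W0) * lam c X2‖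
      ≤ C * b ^ 2 * y ^ (-(3 / 4) : ℝ) +
        (K * b ^ 2) * (A₁ * D * ρ ^ (-(3 / 2) : ℝ) * (1 / ρ)) * y ^ (-(3 / 4) : ℝ) +
        (K * b ^ 2) * (A₁ * ρ ^ (-(1 / 2) : ℝ) * (1 / ρ)) * y ^ (-(3 / 4) : ℝ) :=
        norm_add₃_le.trans (add_le_add (add_le_add hr h2) h3)
    _ ≤ C * b ^ 5 * y ^ (-(3 / 4) : ℝ) +
        K * (A₁ * (2 * Real.pi / q) * ρ ^ (-(3 / 2) : ℝ) * (1 / ρ)) * b ^ 5 *
          y ^ (-(3 / 4) : ℝ) +
        K * (A₁ * ρ ^ (-(1 / 2) : ℝ) * (1 / ρ)) * b ^ 5 * y ^ (-(3 / 4) : ℝ) :=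
        add_le_add (add_le_add g1 g2.le) g3
    _ = _ := by ring

end

end Pool.Agent.SelQ
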