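import Pool.Agent.SelQ.DefsD

/-!
# Degree 2 without the mean square bound (MP_995735_nt): decorrelation, exact targets

Exact targets of the decorrelation lemma `T_DEC`; the docstrings contain the proofs. One file per
target, `Pool/Agent/SelQ/P_X.lean`, theorem `Pool.Agent.SelQ.p_X (other targets) : T_X`.
-/

set_option autoImplicit false

open Finset

namespace Pool.Agent.SelQ

noncomputable section

/-- D1 ONE: removing one prime. Proof: the map `(j, m) ↦ p ^ j * m` from the pairs with `¬ p ∣ m`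
(so `m ≠ 0`) to the `n ≠ 0` is a bijection, with inverse
`n ↦ (n.factorization p, n / p ^ n.factorization p)` (`Nat.ordProj`, `Nat.ordCompl`), and
`w (p ^ j * m) = w (p ^ j) * w m` (`WF.mul`, coprime); `w 0 = 0`. All series converge absolutely:
`∑ w n < ∞`, `Φ` bounded; sub-series `j ↦ w (p ^ j)` by injectivity. Use `tsum` over `ℕ × ℕ`
(product of summable families) and `Summable.tsum_prod`. -/
def T_ONE : Prop := ∀ w : ℕ → ℝ, WF w → ∀ p : ℕ, p.Prime → ∀ Φ : ℕ → ℕ → ℝ,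
  (∃ C : ℝ, ∀ j m, |Φ j m| ≤ C) →
  ∑' n : ℕ, w n * Φ (n.factorization p) (n / p ^ n.factorization p) =
    ∑' j : ℕ, w (p ^ j) * ∑' m : ℕ, (if p ∣ m then 0 else w m) * Φ j m

/-- D2 LAW (from ONE): the law of `ex Q n`. Proof: induction on `Q` for all `w` at once. `Q = ∅`:
`EB` is `F ∅`. `Q = insert p Q'`: `w' m = if p ∣ m then 0 else w m` is again `WF`, and
`pr w' q = pr w q` for primes `q ≠ p` (`w' (q ^ j) = w (q ^ j)`). For `n = p ^ j * m`, `¬ p ∣ m`: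
`ex Q n = ex Q' m` if `j ≠ 1` and `insert p (ex Q' m)` if `j = 1` (`q ∣ p ^ j m ↔ q ∣ m`,
`q ^ 2 ∣ p ^ j m ↔ q ^ 2 ∣ m` for a prime `q ≠ p`). By ONE with
`Φ j m = F (if j = 1 then insert p (ex Q' m) else ex Q' m)` (bounded: finitely many subsets) the left
side is `∑' j, w (p ^ j) * (∑' m, w' m * F (..))`, by induction
`= (∑' m, w' m) * (w p * EB Q' (F (insert p ·)) + (E - w p) * EB Q' F)`, `E = ∑' j, w (p ^ j) ≥ 1`.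
ONE with `Φ = 1` gives `∑' n, w n = E * ∑' m, w' m`. `EB π (insert p Q') F =
π p * EB π Q' (F (insert p ·)) + (1 - π p) * EB π Q' F` (`Finset.sum_powerset_insert`). -/
def T_LAW : Prop := ∀ w : ℕ → ℝ, WF w → ∀ Q : Finset ℕ, (∀ p ∈ Q, p.Prime) →
  ∀ F : Finset ℕ → ℝ, ∑' n : ℕ, w n * F (ex Q n) = (∑' n : ℕ, w n) * EB (pr w) Q F

/-- D3 EBS: the probability that a given set occurs, and total mass one. Proof: the sum over the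
`B` with `S ⊆ B ⊆ Q`, `B = S ∪ B'`, `B' ⊆ Q \ S`, is `∏ p ∈ S, π p` times
`∑ B' ⊆ Q \ S, (∏ B', π) (∏ (Q \ S) \ B', (1 - π)) = ∏ (π + (1 - π)) = 1` (`Finset.prod_add`). -/
def T_EBS : Prop := ∀ (π : ℕ → ℝ) (Q S : Finset ℕ), S ⊆ Q →
  EB π Q (fun B => if S ⊆ B then 1 else 0) = ∏ p ∈ S, π p

/-- D4 IND (from EBS with `S = ∅` for empty classes): independence of disjoint classes. Proof:
induction on `G`; for disjoint `Q₁, Q₂` the subsets of `Q₁ ∪ Q₂` are the `B₁ ∪ B₂`, and the weight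
and the function factorize (`(B₁ ∪ B₂) ∩ Q₁ = B₁`). -/
def T_IND : Prop := ∀ (π : ℕ → ℝ) (G : ℕ) (P : ℕ → Finset ℕ) (F : ℕ → Finset ℕ → ℝ),
  (∀ i < G, ∀ j < G, i ≠ j → Disjoint (P i) (P j)) →
  EB π ((range G).biUnion P) (fun B => ∏ i ∈ range G, F i (B ∩ P i)) =
    ∏ i ∈ range G, EB π (P i) (F i)

/-- D5 FAI (from EBS, IND): half of the classes fail with probability at most `4^(-G)`. Proof: the
indicator is at most `∑ S ⊆ range G, 2 |S| ≥ G, ∏ i ∈ range G, (if i ∈ S then bad i else 1)` (take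
for `S` the set of the failing classes), `EB` is monotone and additive in `F` (the weights are
nonnegative), by IND each term has expectation at most `(1/64)^|S| ≤ (1/8)^G`
(`EB π (P i) 1 = 1` by EBS with `S = ∅`), and there are `2^G` sets `S`. -/
def T_FAI : Prop := ∀ (π : ℕ → ℝ) (G : ℕ) (P : ℕ → Finset ℕ) (bad : ℕ → Finset ℕ → Prop),
  (∀ p, 0 ≤ π p ∧ π p ≤ 1) → (∀ i < G, ∀ j < G, i ≠ j → Disjoint (P i) (P j)) →
  (∀ i < G, EB π (P i) (fun B => open Classical in if bad i B then 1 else 0) ≤ 1 / 64) →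
  EB π ((range G).biUnion P) (fun B => open Classical in
    if G ≤ 2 * ((range G).filter (fun i => bad i (B ∩ P i))).card then 1 else 0) ≤ (1 / 4) ^ G

/-- D6 UPP: upper recursion for the window sums. Proof: `(j + 1) * ∑_{S ∈ win (j+1) u Q} ∏_S π =
∑_{p ∈ Q} π p * ∑_{S ∈ win (j + 1) u Q, p ∈ S} ∏_{S \ {p}} π` and for fixed `p` the sets
`S \ {p}` are different elements of `win j (u - log p) Q` (`log` of the product is additive,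
`p ≥ 1`), so the inner sum is at most `KK π Q j (u - log p) ≤ K`. -/
def T_UPP : Prop := ∀ (π : ℕ → ℝ) (Q : Finset ℕ) (j : ℕ) (K : ℝ), (∀ p, 0 ≤ π p) →
  (∀ p ∈ Q, 1 ≤ p) → (∀ u : ℝ, KK π Q j u ≤ K) →
  ∀ u : ℝ, (j + 1 : ℝ) * KK π Q (j + 1) u ≤ (∑ p ∈ Q, π p) * K

/-- D7 LOW: lower bound by the pigeonhole principle. Proof: with `e_j = ∑_{|S| = j} ∏_S π`,
`(j + 1) e_{j+1} = ∑_{|S| = j} (∏_S π) ∑_{p ∈ Q \ S} π p ≥ e_j (M - j)` since `π p ≤ 1`, so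
`e_j ≥ M^j / j! * (1 - j^2 / (2 M)) ≥ M^j / (2 j!)` (induction: `e_j ≥ M^j/j! (1 - j^2/(2M))`; or
`∏_{i<j} (1 - i/M) ≥ 1 - ∑ i/M`). Every `S` with `|S| = j` has `0 ≤ log ∏ S ≤ j T`, so it lies in
one of the windows `u = 0, 1, .., ⌊j T⌋`: `e_j ≤ (j T + 1) K`. -/
def T_LOW : Prop := ∀ (π : ℕ → ℝ) (Q : Finset ℕ) (j : ℕ) (T K : ℝ), 0 ≤ T →
  (∀ p, 0 ≤ π p ∧ π p ≤ 1) → (∀ p ∈ Q, 1 ≤ p ∧ Real.log p ≤ T) → 0 < ∑ p ∈ Q, π p →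
  (j : ℝ) ^ 2 ≤ ∑ p ∈ Q, π p → (∀ u : ℝ, KK π Q j u ≤ K) →
  (∑ p ∈ Q, π p) ^ j / (j.factorial : ℝ) ≤ 2 * (j * T + 1) * K

/-- D8 SEL: choice of the number of primes. Proof: `L j = K j * j! / M^j` satisfies
`L (j+1) ≤ L j`, `L 0 ≤ 1`, `1 ≤ V * L N`. Let `R ≤ N` maximize `2^j * L j`. Then
`2^N / V ≤ 2^N L N ≤ 2^R L R ≤ 2^R`; `L R ≥ L N ≥ 1 / V` (monotone); for `s ≤ R`:
`2^(R-s) L (R-s) ≤ 2^R L R`, so `K (R-s) = L (R-s) M^(R-s)/(R-s)! ≤ 2^s L R M^(R-s)/(R-s)! =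
2^s K R R!/((R-s)! M^s) ≤ K R (2 R / M)^s` (`Nat.factorial` quotient at most `R^s`). -/
def T_SEL : Prop := ∀ (K : ℕ → ℝ) (M V : ℝ) (N : ℕ), 0 < M → 0 < V → (∀ j, 0 ≤ K j) → K 0 ≤ 1 →
  (∀ j : ℕ, (j + 1 : ℝ) * K (j + 1) ≤ M * K j) → M ^ N / (N.factorial : ℝ) ≤ V * K N →
  ∃ R : ℕ, R ≤ N ∧ (2 : ℝ) ^ N ≤ V * 2 ^ R ∧ M ^ R / (R.factorial : ℝ) ≤ V * K R ∧
    ∀ s ≤ R, K (R - s) ≤ K R * (2 * R / M) ^ s

/-- D9 SEC (from EBS): first and second moment. Proof: `(win R u B).card` is the number of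
`S ∈ win R u Q` with `S ⊆ B` (for `B ⊆ Q`), so the first moment is `∑_S ∏_S π` by EBS. The second
moment is `∑_{S, S'} ∏_{S ∪ S'} π`. For fixed `S` group the `S'` by `e = S ∩ S'`, `|e| = s ≤ R`:
`∏_{S ∪ S'} π = ∏_S π * ∏_{S' \ e} π`, and the sets `S' \ e` are different elements of
`win (R - s) (u - log ∏ e) Q`, so the sum is at most `∑_S ∏_S π * ∑_s C(R, s) K (R - s)`. -/
def T_SEC : Prop := ∀ (π : ℕ → ℝ) (Q : Finset ℕ) (R : ℕ) (u : ℝ) (K : ℕ → ℝ),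
  (∀ p, 0 ≤ π p ∧ π p ≤ 1) → (∀ p ∈ Q, 1 ≤ p) → (∀ (j : ℕ) (x : ℝ), KK π Q j x ≤ K j) →
  EB π Q (fun B => ((win R u B).card : ℝ)) = KK π Q R u ∧
  EB π Q (fun B => ((win R u B).card : ℝ) ^ 2) ≤
    KK π Q R u * ∑ s ∈ range (R + 1), (R.choose s : ℝ) * K (R - s)

/-- D10 CHB (from EBS): the inequality of Chebyshev. Proof: `κ = KK > 0`, `f = card`:
`[f < κ / 2] ≤ 4 (f - κ)^2 / κ^2`, so the expectation is at most
`4 (E f^2 - κ^2) / κ^2 ≤ 4 (exp (1/512) - 1) ≤ 1 / 64`. -/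
def T_CHB : Prop := ∀ (π : ℕ → ℝ) (Q : Finset ℕ) (f : Finset ℕ → ℝ) (κ : ℝ),
  (∀ p, 0 ≤ π p ∧ π p ≤ 1) → 0 < κ → EB π Q f = κ →
  EB π Q (fun B => f B ^ 2) ≤ κ ^ 2 * Real.exp (1 / 512) →
  EB π Q (fun B => open Classical in if f B < κ / 2 then 1 else 0) ≤ 1 / 64

/-- D11 CLS (from UPP, LOW, SEL, SEC, CHB): a good window in every class. Proof: for each `j` let
`K j` be the maximum of `KK π Q j u` over `u` (it is attained: `KK` depends only on the subset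
`win j u Q` of a finite set). `K 0 ≤ 1`, UPP gives the recursion, LOW with `j = N = Rm T`
(`N^2 ≤ M`) gives `M^N/N! ≤ V K N`, `V = 2 (N T + 1)`. Take `R` from SEL and `u` with
`KK π Q R u = K R`. For large `T`: `V ≤ T^2`, `2^N ≥ T^8`, so `2^R ≥ T^6`; `R ≥ 1`, `R ≤ N`,
`M ≥ 1024 N^2 ≥ 1024 R^2`, so `K R ≥ M^R/(V R!) ≥ (M/R)^R / V ≥ 2^(10 R) / T^2 ≥ 2^R T^10`.
`∑_s C(R,s) K (R-s) ≤ K R (1 + 2R/M)^R ≤ K R exp (2 R^2/M) ≤ K R exp (1/512)`: SEC, CHB. -/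
def T_CLS : Prop := ∃ T₀ : ℝ, 2 ≤ T₀ ∧ ∀ T : ℝ, T₀ ≤ T → ∀ (π : ℕ → ℝ) (Q : Finset ℕ),
  (∀ p, 0 ≤ π p ∧ π p ≤ 1) → (∀ p ∈ Q, 1 ≤ p ∧ Real.log p ≤ T) →
  1024 * (Rm T : ℝ) ^ 2 ≤ ∑ p ∈ Q, π p →
  ∃ (R : ℕ) (u : ℝ), 2 ^ R * T ^ 10 ≤ KK π Q R u ∧
    EB π Q (fun B => open Classical in
      if ((win R u B).card : ℝ) < KK π Q R u / 2 then 1 else 0) ≤ 1 / 64

/-- D12 UNI: sets of primes and unitary divisors. Proof: `S ↦ ∏ S` is injective on sets of primes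
(`Finset.prod` of distinct primes, `primeFactors`), for a set `S` of primes `∏ S` divides `n` with
`gcd (∏ S, n / ∏ S) = 1` if and only if every `p ∈ S` divides `n` exactly once (`n ≠ 0`), i.e.
`S ⊆ ex Q n`. The weight: `w` is multiplicative. The last claim: `log`/`exp`. -/
def T_UNI : Prop := ∀ (Q : Finset ℕ) (R : ℕ) (u : ℝ), (∀ p ∈ Q, p.Prime) → ∃ Δ : Finset ℕ,
  (∀ n : ℕ, n ≠ 0 → fd Δ n = (win R u (ex Q n)).card) ∧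
  (∀ w : ℕ → ℝ, WF w → ∑ d ∈ Δ, w d = ∑ S ∈ win R u Q, ∏ p ∈ S, w p) ∧
  ∀ d ∈ Δ, Real.exp u ≤ d ∧ (d : ℝ) < Real.exp (u + 1)

/-- D13 PAI: pairs with many divisors in the same window. Proof: `τ^2 c(n) c(n+k)` is at most the
sum of `c(n) c(n+k) = c(d) c(m) c(d') c(m')` over the unitary divisors `d ∈ Δ` of `n = d m` and
`d' ∈ Δ` of `n + k = d' m'`, at most half of `c(m)^2 c(d')^2 + c(d)^2 c(m')^2`.
First sum: for given `m ≥ 1` and `d'` the number of integers `d ∈ [e^u, e^(u+1))` with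
`d' ∣ d m + k` is at most `3 k`: `q = gcd (m, d')` divides `k`, so `q ≤ k`, and `d` lies in one
residue class mod `d' / q`, so the number is at most `(e^(u+1) - e^u) q / d' + 1 ≤ 2 q + 1 ≤ 3 k`
(`d' ≥ e^u`). And `(d m)^(-1-η) ≤ e^(1+η) d'^(-1-η) m^(-1-η)` (`d ≥ e^u`, `d' < e^(u+1)`). So the
first sum is at most `3 k e^2 ∑_{d'} c(d')^2 d'^(-1-η) ∑_m c(m)^2 m^(-1-η)`. Second sum: the same
with the roles exchanged (`d' m' ≡ k mod d`), with the factor `(1 + k)^2` from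
`n^(-1-η) ≤ (1+k)^2 (n+k)^(-1-η)`, `n ≥ 1`. Total `≤ (1/2) (1 + (1+k)^2) 3 k e^2 ≤ 24 (1+k)^3`.
The series converge since `c(n) ≤ C n^(η/4)` (`wc` is summable, and
`c(n) c(n+k) n^(-1-η) ≤ (1+k)^2 (wc n + wc (n+k))`). -/
def T_PAI : Prop := ∀ c : ℕ → ℝ, MF c → ∀ η : ℝ, 0 < η → η ≤ 1 → ∀ (Δ : Finset ℕ) (u : ℝ),
  (∀ d ∈ Δ, Real.exp u ≤ d ∧ (d : ℝ) < Real.exp (u + 1)) → ∀ (τ : ℝ) (k : ℕ), 0 < τ → 1 ≤ k →
  ∑' n : ℕ, (open Classical in if τ ≤ fd Δ n ∧ τ ≤ fd Δ (n + k) then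
    c n * c (n + k) * (n : ℝ) ^ (-1 - η) else 0) ≤
    24 * (1 + k : ℝ) ^ 3 / τ ^ 2 * (∑ d ∈ Δ, wc c η d) * DD c η

/-- D14 EXC: the exceptional pairs. Proof: Cauchy and Schwarz, for the pairs with `bad n`:
`∑ c(n) c(n+k) n^(-1-η) ≤ (∑_{bad n} wc n)^(1/2) (∑ c(n+k)^2 n^(-1-η))^(1/2)`,
`n^(-1-η) ≤ (1+k)^2 (n+k)^(-1-η)` for `n ≥ 1`: at most `(δ^2 D)^(1/2) ((1+k)^2 D)^(1/2)`; the pairs
with `bad (n + k)` in the same way (the term `n = 0` vanishes). -/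
def T_EXC : Prop := ∀ c : ℕ → ℝ, MF c → ∀ η : ℝ, 0 < η → η ≤ 1 → ∀ (bad : ℕ → Prop) (δ : ℝ),
  0 ≤ δ → ∑' n : ℕ, (open Classical in if bad n then wc c η n else 0) ≤ δ ^ 2 * DD c η →
  ∀ k : ℕ, 1 ≤ k → ∑' n : ℕ, (open Classical in if bad n ∨ bad (n + k) then
    c n * c (n + k) * (n : ℝ) ^ (-1 - η) else 0) ≤ 2 * (1 + k) * δ * DD c η

/-- D15 SPL: splitting into classes. Proof: induction on `G`: take a subset `P G` with mass at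
least `M` of minimal cardinality, its mass is at most `M + 1`; the rest has mass at least
`(G - 1) (M + 1)`. -/
def T_SPL : Prop := ∀ (Q : Finset ℕ) (π : ℕ → ℝ) (G : ℕ) (M : ℝ), 0 ≤ M →
  (∀ p, 0 ≤ π p ∧ π p ≤ 1) → (G : ℝ) * (M + 1) ≤ ∑ p ∈ Q, π p → ∃ P : ℕ → Finset ℕ,
  (∀ i < G, P i ⊆ Q) ∧ (∀ i < G, ∀ j < G, i ≠ j → Disjoint (P i) (P j)) ∧
  ∀ i < G, M ≤ ∑ p ∈ P i, π p

/-- D16 WCP: properties of the weights. Proof: `WF`: `c(n)^2 ≤ C n^(η/2)`, multiplicativity of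
`n^(-1-η)`. Uniform bound: `c(p^j) ≤ C p^(j/8)`, so `∑_{j ≥ 1} wc (p^j) ≤ C^2 ∑_{j≥1} p^(-3j/4) ≤ 1`
for `p ≥ p₀` (uniformly in `0 < η`). -/
def T_WCP : Prop := ∀ c : ℕ → ℝ, MF c → (∀ η : ℝ, 0 < η → WF (wc c η)) ∧
  (∀ η : ℝ, 0 < η → ∀ k : ℕ, Summable (fun n : ℕ => c n * c (n + k) * (n : ℝ) ^ (-1 - η))) ∧
  ∃ p₀ : ℕ, ∀ η : ℝ, 0 < η → ∀ p : ℕ, p.Prime → p₀ ≤ p → wc c η p ≤ 1 ∧
    1 ≤ ∑' j : ℕ, wc c η (p ^ j) ∧ ∑' j : ℕ, wc c η (p ^ j) ≤ 2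

/-- D17 DEC, the decorrelation lemma (from LAW, FAI, CLS, UNI, PAI, EXC, SPL, WCP). Proof:
`η = 1/T`, `w = wc c η`, `π p = pr w p` for the primes `p ≥ p₀`, `0` otherwise, so
`w p / 2 ≤ π p ≤ w p ≤ 1`; `Q = PT p₀ T`, `log p ≤ T` for `p ∈ Q`. `N = G = Rm T ≤ 13 log T`
(large `T`), `M = 1024 N^2`. `∑_Q π ≥ (C₀/2) (log T)^3 ≥ G (M + 1)` (`C₀ = 10^7`). SPL: classes
`P i`, `i < G`; CLS: `R i`, `u i`, `κ i = KK π (P i) (R i) (u i)`. Say that `n` fails in `i` if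
`(win (R i) (u i) (ex (P i) n)).card < κ i / 2`, and `bad n` if it fails in at least half of the
classes. By LAW for `⋃ P i` (`ex (⋃ P) n ∩ P i = ex (P i) n`; `EB` with `pr w` and with `π` agree)
and FAI `∑_{bad n} w n ≤ 4^(-G) D`, `2^(-G) ≤ T^(-8)`: EXC with `δ = 2^(-G)`. If neither `n` nor
`n + k` is bad there is a class in which both do not fail: UNI gives `Δ i` with
`fd (Δ i) n ≥ κ i / 2` and `fd (Δ i) (n + k) ≥ κ i / 2`: PAI with `τ = κ i / 2`, and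
`∑_{Δ i} w d = ∑_S ∏_S w p ≤ 2^(R i) κ i` (`w p ≤ 2 π p`), so the pairs of the class `i` give at
most `96 (1+k)^3 2^(R i)/κ i D ≤ 96 (1+k)^3 T^(-10) D`. Sum over the `G` classes. -/
def T_DEC : Prop := ∀ c : ℕ → ℝ, MF c → ∃ (p₀ : ℕ) (T₀ C₀ : ℝ), 2 ≤ T₀ ∧ 1 ≤ C₀ ∧
  ∀ T : ℝ, T₀ ≤ T → C₀ * Real.log T ^ 3 ≤ ∑ p ∈ PT p₀ T, wc c (1 / T) p → ∀ k : ℕ, 1 ≤ k →
  ∑' n : ℕ, c n * c (n + k) * (n : ℝ) ^ (-1 - 1 / T) ≤ (1 + k : ℝ) ^ 3 * T ^ (-4 : ℝ) *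
    DD c (1 / T)

/-- D18 LBD: lower bound for the total mass. Proof: the products `∏_S p`, `S ⊆ Q`, are different
numbers, so `∏_{p ∈ Q} (1 + w p) = ∑_{S ⊆ Q} w (∏ S) ≤ ∑' n, w n`; `1 + x ≥ exp (x/2)` for
`0 ≤ x ≤ 1`. -/
def T_LBD : Prop := ∀ w : ℕ → ℝ, WF w → ∀ Q : Finset ℕ, (∀ p ∈ Q, p.Prime ∧ w p ≤ 1) →
  Real.exp ((∑ p ∈ Q, w p) / 2) ≤ ∑' n : ℕ, w n

end

end Pool.Agent.SelQ
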