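import Pool.Agent.SelQ.TargetsE
import Pool.Agent.SelQ.TargetsD

/-!
# SD2-QTS (MP_995735_nt): theorem Q, assembly
-/

set_option autoImplicit false

open Finset

namespace Pool.Agent.SelQ

noncomputable section

namespace QTS_

theorem wc_nonneg (c : ℕ → ℝ) (η : ℝ) (n : ℕ) : 0 ≤ wc c η n := by
  unfold wc
  positivity

theorem PT_mono {p₀ p₁ : ℕ} (h : p₁ ≤ p₀) (T : ℝ) : PT p₀ T ⊆ PT p₁ T := by
  intro p hp
  simp only [PT, mem_filter] at hp ⊢
  exact ⟨hp.1, hp.2.1, h.trans hp.2.2⟩

theorem mem_PT {p₀ p : ℕ} {T : ℝ} (hp : p.Prime) (h0 : p₀ ≤ p) (hT : Real.log p ≤ T) :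
    p ∈ PT p₀ T := by
  simp only [PT, mem_filter, mem_range]
  refine ⟨?_, hp, h0⟩
  have h1 : (0 : ℝ) < p := by exact_mod_cast hp.pos
  have h2 : (p : ℝ) ≤ Real.exp T := by
    rw [← Real.exp_log h1]
    exact Real.exp_le_exp.2 hT
  exact Nat.lt_succ_of_le (Nat.le_floor h2)

/-- the comparison of the two correlations -/
theorem cor_le {c : ℕ → ℝ} (hc : ∀ n, 0 ≤ c n) {η : ℝ} (hη : 0 < η) (k : ℕ)
    (hs : Summable (fun n : ℕ => c n * c (n + k) * (n : ℝ) ^ (-1 - η))) :
    cor c η k ≤ ∑' n : ℕ, c n * c (n + k) * (n : ℝ) ^ (-1 - η) := by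
  have hle : ∀ n : ℕ, c n * c (n + k) * ((n : ℝ) * (n + k)) ^ (-(1 + η) / 2) ≤
      c n * c (n + k) * (n : ℝ) ^ (-1 - η) := by
    intro n
    refine mul_le_mul_of_nonneg_left ?_ (mul_nonneg (hc _) (hc _))
    rcases Nat.eq_zero_or_pos n with rfl | hn
    · rw [Nat.cast_zero, zero_mul, Real.zero_rpow (by linarith), Real.zero_rpow (by linarith)]
    · have hn' : (0 : ℝ) < n := by exact_mod_cast hn
      have h1 : (n : ℝ) * n ≤ (n : ℝ) * (n + k) := by
        have : (0 : ℝ) ≤ k := Nat.cast_nonneg k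
        nlinarith
      calc ((n : ℝ) * (n + k)) ^ (-(1 + η) / 2) ≤ ((n : ℝ) * n) ^ (-(1 + η) / 2) :=
            Real.rpow_le_rpow_of_nonpos (by positivity) h1 (by linarith)
        _ = (n : ℝ) ^ (-1 - η) := by
            rw [Real.mul_rpow hn'.le hn'.le, ← Real.rpow_add hn']
            congr 1
            ring
  refine Summable.tsum_le_tsum hle (Summable.of_nonneg_of_le (fun n => ?_) hle hs) hs
  have := Nat.cast_nonneg (α := ℝ) k
  have := Nat.cast_nonneg (α := ℝ) n
  exact mul_nonneg (mul_nonneg (hc _) (hc _)) (Real.rpow_nonneg (by positivity) _)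

theorem summ_S : Summable (fun j : ℕ => ((j : ℝ) + 1) ^ 3 * Real.exp (1 - j)) := by
  have h1 : Summable (fun n : ℕ => (n : ℝ) ^ 3 * Real.exp (-1) ^ n) :=
    summable_pow_mul_geometric_of_norm_lt_one 3 (by
      rw [Real.norm_of_nonneg (Real.exp_pos _).le]
      rw [← Real.exp_zero]
      exact Real.exp_lt_exp.2 (by norm_num))
  have h2 := (summable_nat_add_iff 1).2 h1
  refine (h2.mul_left (Real.exp 2)).congr fun j => ?_
  have h3 : Real.exp (1 - (j : ℝ)) = Real.exp 2 * Real.exp (-1) ^ (j + 1) := by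
    rw [← Real.exp_nat_mul, ← Real.exp_add]
    congr 1
    push_cast
    ring
  rw [h3]
  push_cast
  ring

end QTS_

open QTS_ in
theorem p_QTS (hDEC : T_DEC) (hFIN : T_FIN) (hLBD : T_LBD) (hWCP : T_WCP) : T_QTS := by
  intro a as κ lam0 hMF has hκ hlam hInv
  set c : ℕ → ℝ := fun n => ‖a n‖ with hc
  obtain ⟨p₁, T₀, C₀, hT₀, hC₀, hdec⟩ := hDEC c hMF
  obtain ⟨C, T₁, hT₁, hfin⟩ := hFIN a as κ lam0 hMF has hκ hlam hInv
  obtain ⟨hWF, hsum, p₂, hp₂⟩ := hWCP c hMF
  set p₀ := max p₁ p₂ with hp₀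
  have hcnn : ∀ n, 0 ≤ c n := fun n => norm_nonneg _
  set T₂ : ℝ := max (max T₀ T₁) (Real.exp (2 + |Real.log C|)) with hT₂
  -- step 1
  have key : ∀ T : ℝ, T₂ ≤ T → ∑ p ∈ PT p₀ T, wc c (1 / T) p ≤ C₀ * Real.log T ^ 3 := by
    intro T hT
    by_contra hcon
    push Not at hcon
    have hTT₀ : T₀ ≤ T := ((le_max_left _ _).trans (le_max_left _ _)).trans hT
    have hTT₁ : T₁ ≤ T := ((le_max_right _ _).trans (le_max_left _ _)).trans hT
    have hTe : Real.exp (2 + |Real.log C|) ≤ T := (le_max_right _ _).trans hT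
    have hT0 : 0 < T := by linarith
    have hη0 : 0 < 1 / T := by positivity
    have h1 : C₀ * Real.log T ^ 3 ≤ ∑ p ∈ PT p₁ T, wc c (1 / T) p :=
      hcon.le.trans (sum_le_sum_of_subset_of_nonneg (PT_mono (le_max_left _ _) T)
        fun p _ _ => wc_nonneg c _ p)
    have h2 : DD c (1 / T) ≤ C * T := by
      refine hfin T hTT₁ fun k hk => ?_
      exact (cor_le hcnn hη0 k (hsum _ hη0 k)).trans (hdec T hTT₀ h1 k hk)
    have h3 : Real.exp ((∑ p ∈ PT p₀ T, wc c (1 / T) p) / 2) ≤ DD c (1 / T) := by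
      refine hLBD _ (hWF _ hη0) _ fun p hp => ?_
      simp only [PT, mem_filter] at hp
      exact ⟨hp.2.1, (hp₂ _ hη0 p hp.2.1 ((le_max_right _ _).trans hp.2.2)).1⟩
    have h4 : Real.exp ((∑ p ∈ PT p₀ T, wc c (1 / T) p) / 2) ≤ C * T := h3.trans h2
    have hCT : 0 < C * T := (Real.exp_pos _).trans_le h4
    have hC : 0 < C := by
      by_contra hn
      push Not at hn
      nlinarith
    have h5 : (∑ p ∈ PT p₀ T, wc c (1 / T) p) / 2 ≤ Real.log C + Real.log T := by
      rw [← Real.log_mul hC.ne' hT0.ne', Real.le_log_iff_exp_le hCT]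
      exact h4
    set x := Real.log T with hx
    have hx2 : 2 + |Real.log C| ≤ x := by
      rw [hx, Real.le_log_iff_exp_le hT0]
      exact hTe
    have h6 := le_abs_self (Real.log C)
    have h7 := abs_nonneg (Real.log C)
    have hx2' : 2 ≤ x := by linarith
    have h8 : 4 * x ≤ x ^ 3 := by nlinarith [mul_nonneg (by linarith : (0 : ℝ) ≤ x) (sq_nonneg x)]
    have h9 : x ^ 3 ≤ C₀ * x ^ 3 := le_mul_of_one_le_left (by positivity) hC₀
    linarith
  have hT₂2 : 2 ≤ T₂ := hT₀.trans ((le_max_left _ _).trans (le_max_left _ _))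
  have hT₂0 : 0 < T₂ := by linarith
  -- summability over the primes
  have hsp : ∀ η : ℝ, 0 < η →
      Summable (fun p : Nat.Primes => ‖a p‖ ^ 2 * ((p : ℕ) : ℝ) ^ (-1 - η)) := fun η hη =>
    (hWF η hη).sm.comp_injective Nat.Primes.coe_nat_injective
  set B₀ : ℝ := ∑ p ∈ range p₀, c p ^ 2 with hB₀
  have hB₀0 : 0 ≤ B₀ := sum_nonneg fun p _ => sq_nonneg _
  set S₀ : ℝ := ∑' j : ℕ, ((j : ℝ) + 1) ^ 3 * Real.exp (1 - j) with hS₀
  have hS₀0 : 0 ≤ S₀ := tsum_nonneg fun j => by positivity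
  set B₂ : ℝ := ∑' p : Nat.Primes, ‖a p‖ ^ 2 * ((p : ℕ) : ℝ) ^ (-1 - 1 / T₂) with hB₂
  have hB₂0 : 0 ≤ B₂ := tsum_nonneg fun p => by positivity
  refine ⟨B₀ + C₀ * S₀ + B₂, fun η hη hη1 => ⟨hsp η hη, ?_⟩⟩
  have hL : 0 ≤ Real.log (1 / η) := Real.log_nonneg (by rw [le_div_iff₀ hη]; linarith)
  have hL3 : 1 ≤ (1 + Real.log (1 / η)) ^ 3 := one_le_pow₀ (by linarith)
  rcases le_or_gt T₂ (1 / η) with hcase | hcase
  · -- small eta
    set T : ℝ := 1 / η with hTdef
    have hT0 : 0 < T := by positivity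
    have hηT : η = 1 / T := by rw [hTdef, one_div_one_div]
    have hLT : 0 ≤ Real.log T := hL
    have hmain : ∑' p : Nat.Primes, ‖a p‖ ^ 2 * ((p : ℕ) : ℝ) ^ (-1 - η) ≤
        B₀ + C₀ * S₀ * (1 + Real.log T) ^ 3 := by
      refine Real.tsum_le_of_sum_le (fun p => by positivity) fun s => ?_
      -- to a finite set of natural numbers
      classical
      set F : Finset ℕ := s.map ⟨fun p : Nat.Primes => (p : ℕ), Nat.Primes.coe_nat_injective⟩ with hF
      have hFp : ∀ p ∈ F, p.Prime := by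
        intro p hp
        simp only [hF, mem_map, Function.Embedding.coeFn_mk] at hp
        obtain ⟨q, _, rfl⟩ := hp
        exact q.2
      have e1 : ∑ p ∈ s, ‖a p‖ ^ 2 * ((p : ℕ) : ℝ) ^ (-1 - η) = ∑ p ∈ F, wc c η p := by
        rw [hF, sum_map]
        rfl
      rw [e1, ← sum_filter_add_sum_filter_not F (fun p => p < p₀)]
      have hlow : ∑ p ∈ F with p < p₀, wc c η p ≤ B₀ := by
        have h1 : ∑ p ∈ F with p < p₀, wc c η p ≤ ∑ p ∈ F with p < p₀, c p ^ 2 := by
          refine sum_le_sum fun p hp => ?_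
          have hpp := hFp p (mem_filter.1 hp).1
          have h2 : (1 : ℝ) ≤ p := by exact_mod_cast hpp.one_lt.le
          unfold wc
          refine mul_le_of_le_one_right (sq_nonneg _) ?_
          exact Real.rpow_le_one_of_one_le_of_nonpos h2 (by linarith)
        refine h1.trans (sum_le_sum_of_subset_of_nonneg ?_ fun p _ _ => sq_nonneg _)
        intro p hp
        exact mem_range.2 (mem_filter.1 hp).2
      have hhigh : ∑ p ∈ F with ¬ p < p₀, wc c η p ≤ C₀ * S₀ * (1 + Real.log T) ^ 3 := by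
        set F' := F.filter (fun p => ¬ p < p₀) with hF'
        set J : ℕ → ℕ := fun p => ⌊Real.log p / T⌋₊ with hJ
        have hmaps : ∀ p ∈ F', J p ∈ F'.image J := fun p hp => mem_image_of_mem J hp
        rw [← sum_fiberwise_of_maps_to hmaps]
        have hterm : ∀ j ∈ F'.image J, ∑ p ∈ F' with J p = j, wc c η p ≤
            C₀ * (1 + Real.log T) ^ 3 * (((j : ℝ) + 1) ^ 3 * Real.exp (1 - j)) := by
          intro j _
          have hj0 : (0 : ℝ) ≤ j := Nat.cast_nonneg j
          set Tj : ℝ := (j + 1) * T with hTj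
          have hTTj : T ≤ Tj := by rw [hTj]; nlinarith
          have hTj0 : 0 < Tj := by positivity
          have hk := key Tj (hcase.trans hTTj)
          have h1 : ∑ p ∈ F' with J p = j, wc c η p ≤
              Real.exp (1 - j) * ∑ p ∈ F' with J p = j, wc c (1 / Tj) p := by
            rw [mul_sum]
            refine sum_le_sum fun p hp => ?_
            obtain ⟨hp1, hp2⟩ := mem_filter.1 hp
            have hpp := hFp p (mem_filter.1 hp1).1
            have hp0 : (0 : ℝ) < p := by exact_mod_cast hpp.pos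
            have hlp : 0 ≤ Real.log p := Real.log_nonneg (by exact_mod_cast hpp.one_lt.le)
            have h2 : (j : ℝ) * T ≤ Real.log p := by
              have h3 : ((⌊Real.log p / T⌋₊ : ℕ) : ℝ) ≤ Real.log p / T :=
                Nat.floor_le (by positivity)
              have h4 : ((⌊Real.log p / T⌋₊ : ℕ) : ℝ) = j := by
                exact_mod_cast congrArg (fun n : ℕ => (n : ℝ)) hp2
              rw [h4, le_div_iff₀ hT0] at h3
              exact h3
            unfold wc
            have h5 : (p : ℝ) ^ (-1 - η) ≤ Real.exp (1 - j) * (p : ℝ) ^ (-1 - 1 / Tj) := by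
              rw [Real.rpow_def_of_pos hp0, Real.rpow_def_of_pos hp0, ← Real.exp_add]
              refine Real.exp_le_exp.2 ?_
              have h6 : Real.log p * (η - 1 / Tj) ≥ j * T * (η - 1 / Tj) := by
                refine mul_le_mul_of_nonneg_right h2 ?_
                rw [hηT, sub_nonneg]
                exact one_div_le_one_div_of_le hT0 hTTj
              have h7 : (j : ℝ) * T * (η - 1 / Tj) ≥ j - 1 := by
                have h8 : (j : ℝ) * T * (η - 1 / Tj) = j * j / (j + 1) := by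
                  rw [hηT, hTj]
                  field_simp
                  ring
                rw [h8, ge_iff_le, le_div_iff₀ (by positivity)]
                nlinarith
              nlinarith
            calc c p ^ 2 * (p : ℝ) ^ (-1 - η) ≤
                c p ^ 2 * (Real.exp (1 - j) * (p : ℝ) ^ (-1 - 1 / Tj)) :=
                  mul_le_mul_of_nonneg_left h5 (sq_nonneg _)
              _ = _ := by ring
          have h2 : ∑ p ∈ F' with J p = j, wc c (1 / Tj) p ≤ ∑ p ∈ PT p₀ Tj, wc c (1 / Tj) p := by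
            refine sum_le_sum_of_subset_of_nonneg ?_ fun p _ _ => wc_nonneg c _ p
            intro p hp
            obtain ⟨hp1, hp2⟩ := mem_filter.1 hp
            obtain ⟨hp3, hp4⟩ := mem_filter.1 hp1
            have hpp := hFp p hp3
            refine mem_PT hpp (not_lt.1 hp4) ?_
            have h3 : Real.log p / T < j + 1 := by
              have h4 := Nat.lt_floor_add_one (Real.log p / T)
              have h5 : ((⌊Real.log p / T⌋₊ : ℕ) : ℝ) = j := by
                exact_mod_cast congrArg (fun n : ℕ => (n : ℝ)) hp2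
              rw [h5] at h4
              exact h4
            rw [div_lt_iff₀ hT0] at h3
            exact h3.le
          have h3 : Real.log Tj ≤ (j + 1) * (1 + Real.log T) := by
            rw [hTj, Real.log_mul (by positivity) hT0.ne']
            have h4 : Real.log ((j : ℝ) + 1) ≤ j := by
              have := Real.log_le_sub_one_of_pos (show (0 : ℝ) < j + 1 by positivity)
              linarith
            nlinarith
          have h30 : 0 ≤ Real.log Tj := hLT.trans (Real.log_le_log hT0 hTTj)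
          have h4 : Real.log Tj ^ 3 ≤ ((j : ℝ) + 1) ^ 3 * (1 + Real.log T) ^ 3 := by
            rw [← mul_pow]
            exact pow_le_pow_left₀ h30 h3 3
          calc ∑ p ∈ F' with J p = j, wc c η p ≤
              Real.exp (1 - j) * (C₀ * Real.log Tj ^ 3) :=
                h1.trans (mul_le_mul_of_nonneg_left (h2.trans hk) (Real.exp_pos _).le)
            _ ≤ Real.exp (1 - j) * (C₀ * (((j : ℝ) + 1) ^ 3 * (1 + Real.log T) ^ 3)) := by
                gcongr
            _ = _ := by ring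
        refine (sum_le_sum hterm).trans ?_
        rw [← mul_sum]
        have h5 : ∑ j ∈ F'.image J, ((j : ℝ) + 1) ^ 3 * Real.exp (1 - j) ≤ S₀ :=
          summ_S.sum_le_tsum _ fun j _ => by positivity
        calc C₀ * (1 + Real.log T) ^ 3 * ∑ j ∈ F'.image J, ((j : ℝ) + 1) ^ 3 * Real.exp (1 - j) ≤
            C₀ * (1 + Real.log T) ^ 3 * S₀ := by gcongr
          _ = _ := by ring
      exact add_le_add hlow hhigh
    refine hmain.trans ?_
    have h1 : B₀ ≤ B₀ * (1 + Real.log T) ^ 3 := le_mul_of_one_le_right hB₀0 hL3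
    have h2 : 0 ≤ B₂ * (1 + Real.log T) ^ 3 := by positivity
    have h3 : (B₀ + C₀ * S₀ + B₂) * (1 + Real.log T) ^ 3 = B₀ * (1 + Real.log T) ^ 3 +
      C₀ * S₀ * (1 + Real.log T) ^ 3 + B₂ * (1 + Real.log T) ^ 3 := by ring
    rw [h3]
    linarith
  · -- large eta
    have h1 : ∑' p : Nat.Primes, ‖a p‖ ^ 2 * ((p : ℕ) : ℝ) ^ (-1 - η) ≤ B₂ := by
      refine Summable.tsum_le_tsum (fun p => ?_) (hsp η hη) (hsp _ (by positivity))
      refine mul_le_mul_of_nonneg_left ?_ (sq_nonneg _)
      have hp1 : (1 : ℝ) ≤ (p : ℕ) := by exact_mod_cast p.2.one_lt.le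
      refine Real.rpow_le_rpow_of_exponent_le hp1 ?_
      have h2 : 1 / T₂ ≤ η := by
        rw [div_le_iff₀ hT₂0]
        rw [div_lt_iff₀ hη] at hcase
        linarith
      linarith
    have h2 : B₂ ≤ B₂ * (1 + Real.log (1 / η)) ^ 3 := le_mul_of_one_le_right hB₂0 hL3
    have h3 : 0 ≤ (B₀ + C₀ * S₀) * (1 + Real.log (1 / η)) ^ 3 := by positivity
    nlinarith

end

end Pool.Agent.SelQ
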