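import Pool.Agent.SelQ.TargetsC
import Pool.Agent.SelDeg2.PRX

/-!
# C4 RTO: real parts of the sums over primes for `χ conj χ'`
-/

set_option autoImplicit false

namespace Pool.Agent.SelQ

open Complex Filter Topology
open Pool.Agent.SelDeg2 (pser)

noncomputable section

namespace RTO_

/-- the logarithm of an Euler factor without its main term -/
def g (z : ℂ) : ℂ := -log (1 - z) - z

theorem g_lip {r : ℝ} (hr : r ≤ 1 / 2) {z w : ℂ} (hz : ‖z‖ ≤ r) (hw : ‖w‖ ≤ r) :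
    ‖g z - g w‖ ≤ 2 * r * ‖z - w‖ := by
  have hr0 : 0 ≤ r := (norm_nonneg z).trans hz
  have hre : ∀ u : ℂ, ‖u‖ ≤ r → 1 / 2 ≤ (1 - u).re := by
    intro u hu
    have h1 := Complex.re_le_norm u
    rw [sub_re, one_re]
    linarith
  refine Convex.norm_image_sub_le_of_norm_hasDerivWithin_le (f := g)
    (f' := fun u => u / (1 - u)) (s := Metric.closedBall 0 r) ?_ ?_
    (convex_closedBall _ _) ?_ ?_
  · intro u hu
    rw [mem_closedBall_zero_iff] at hu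
    have h1 := hre u hu
    have h2 : (1 : ℂ) - u ∈ slitPlane := Or.inl (by linarith)
    have h3 : (1 : ℂ) - u ≠ 0 := slitPlane_ne_zero h2
    have h4 : HasDerivAt (fun v : ℂ => 1 - v) (-1) u := by
      simpa using (hasDerivAt_id u).const_sub 1
    have h5 : HasDerivAt (fun v : ℂ => -log (1 - v) - v) (-(-1 / (1 - u)) - 1) u :=
      (h4.clog h2).neg.sub (hasDerivAt_id u)
    have h6 : -(-1 / (1 - u)) - 1 = u / (1 - u) := by
      field_simp
      ring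
    rw [h6] at h5
    exact h5.hasDerivWithinAt
  · intro u hu
    rw [mem_closedBall_zero_iff] at hu
    have h1 := hre u hu
    have h2 : 1 / 2 ≤ ‖1 - u‖ := h1.trans (Complex.re_le_norm _)
    rw [norm_div, div_le_iff₀ (by linarith)]
    nlinarith [norm_nonneg u]
  · rwa [mem_closedBall_zero_iff]
  · rwa [mem_closedBall_zero_iff]

/-- `q^(-1-t)` -/
def W (q : ℕ) (t : ℝ) : ℝ := (q : ℝ) ^ (-(1 + t))

theorem W_cast (q : ℕ) (t : ℝ) : (q : ℂ) ^ (-(1 + (t : ℂ))) = ((W q t : ℝ) : ℂ) := by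
  unfold W
  rw [Complex.ofReal_cpow (Nat.cast_nonneg q)]
  push_cast
  rfl

theorem W_pos {q : ℕ} (hq : 2 ≤ q) (t : ℝ) : 0 < W q t := by
  unfold W
  have : (0 : ℝ) < q := by
    have : 0 < q := by omega
    exact_mod_cast this
  positivity

theorem W_le {q : ℕ} (hq : 2 ≤ q) {t : ℝ} (ht : 0 ≤ t) : W q t ≤ 1 / q := by
  unfold W
  have h1 : (1 : ℝ) ≤ q := by
    have : 1 ≤ q := by omega
    exact_mod_cast this
  calc (q : ℝ) ^ (-(1 + t)) ≤ (q : ℝ) ^ (-1 : ℝ) :=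
        Real.rpow_le_rpow_of_exponent_le h1 (by linarith)
    _ = 1 / q := by rw [Real.rpow_neg_one, one_div]

theorem W_diff {q : ℕ} (hq : 2 ≤ q) {η x : ℝ} (hη : 0 < η) (hx : η ≤ x) :
    |W q η - W q x| ≤ 2 * x * (q : ℝ) ^ (-(1 / 2) : ℝ) := by
  have hq1 : (1 : ℝ) ≤ q := by
    have : 1 ≤ q := by omega
    exact_mod_cast this
  have hq0 : (0 : ℝ) < q := by linarith
  have e1 : W q x = W q η * (q : ℝ) ^ (-(x - η)) := by
    unfold W
    rw [← Real.rpow_add hq0]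
    congr 1
    ring
  have h2 : 1 - (x - η) * Real.log q ≤ (q : ℝ) ^ (-(x - η)) := by
    rw [Real.rpow_def_of_pos hq0]
    have := Real.add_one_le_exp (Real.log q * -(x - η))
    linarith
  have h3 : (q : ℝ) ^ (-(x - η)) ≤ 1 :=
    Real.rpow_le_one_of_one_le_of_nonpos hq1 (by linarith)
  have h4 := W_le hq hη.le
  have h5 := W_pos hq η
  have h6 : 0 ≤ W q η - W q x := by
    rw [e1]
    nlinarith
  rw [abs_of_nonneg h6, e1]
  have h7 : Real.log q ≤ 2 * (q : ℝ) ^ (1 / 2 : ℝ) := by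
    have := Real.log_le_rpow_div hq0.le (show (0 : ℝ) < 1 / 2 by norm_num)
    linarith
  have h8 : 0 ≤ Real.log q := Real.log_nonneg hq1
  have h9 : W q η - W q η * (q : ℝ) ^ (-(x - η)) ≤ W q η * (x * Real.log q) := by
    have : 1 - (q : ℝ) ^ (-(x - η)) ≤ x * Real.log q := by nlinarith
    nlinarith
  have h10 : W q η * (x * Real.log q) ≤ 1 / q * (x * (2 * (q : ℝ) ^ (1 / 2 : ℝ))) := by
    have hx0 : 0 ≤ x := by linarith
    have a1 : x * Real.log q ≤ x * (2 * (q : ℝ) ^ (1 / 2 : ℝ)) :=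
      mul_le_mul_of_nonneg_left h7 hx0
    exact mul_le_mul h4 a1 (mul_nonneg hx0 h8) (by positivity)
  have h11 : 1 / (q : ℝ) * (x * (2 * (q : ℝ) ^ (1 / 2 : ℝ))) =
      2 * x * (q : ℝ) ^ (-(1 / 2) : ℝ) := by
    have : (q : ℝ) ^ (-(1 / 2) : ℝ) = (q : ℝ)⁻¹ * (q : ℝ) ^ (1 / 2 : ℝ) := by
      rw [show (-(1 / 2) : ℝ) = -1 + 1 / 2 by norm_num, Real.rpow_add hq0, Real.rpow_neg_one]
    rw [this]
    ring
  linarith

/-- the sum over primes which bounds the higher terms -/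
def Ce : ℝ := ∑' q : Nat.Primes, 4 * ((q : ℕ) : ℝ) ^ (-(3 / 2) : ℝ)

theorem Ce_summable : Summable fun q : Nat.Primes => 4 * ((q : ℕ) : ℝ) ^ (-(3 / 2) : ℝ) :=
  (Nat.Primes.summable_rpow.2 (by norm_num)).mul_left 4

theorem Ce_nonneg : 0 ≤ Ce := tsum_nonneg fun q => by positivity

/-- the higher terms -/
def ep {k : ℕ} (ψ : DirichletCharacter ℂ k) (t : ℝ) (q : Nat.Primes) : ℂ :=
  g (ψ ((q : ℕ) : ZMod k) * ((q : ℕ) : ℂ) ^ (-(1 + (t : ℂ))))

theorem term_norm {k : ℕ} (ψ : DirichletCharacter ℂ k) {t : ℝ} (ht : 0 ≤ t) (q : Nat.Primes) :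
    ‖ψ ((q : ℕ) : ZMod k) * ((q : ℕ) : ℂ) ^ (-(1 + (t : ℂ)))‖ ≤ 1 / ((q : ℕ) : ℝ) := by
  rw [norm_mul, W_cast, Complex.norm_real, Real.norm_of_nonneg (W_pos q.2.two_le t).le]
  exact (mul_le_of_le_one_left (W_pos q.2.two_le t).le (ψ.norm_le_one _)).trans
    (W_le q.2.two_le ht)

theorem ep_diff {k : ℕ} (ψ : DirichletCharacter ℂ k) {η x : ℝ} (hη : 0 < η) (hx : η ≤ x)
    (q : Nat.Primes) :
    ‖ep ψ η q - ep ψ x q‖ ≤ x * (4 * ((q : ℕ) : ℝ) ^ (-(3 / 2) : ℝ)) := by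
  have hq2 := q.2.two_le
  have hq2' : (2 : ℝ) ≤ ((q : ℕ) : ℝ) := by exact_mod_cast hq2
  have hq0 : (0 : ℝ) < ((q : ℕ) : ℝ) := by linarith
  have hr : 1 / ((q : ℕ) : ℝ) ≤ 1 / 2 := one_div_le_one_div_of_le (by norm_num) hq2'
  have h1 := g_lip hr (term_norm ψ hη.le q) (term_norm ψ (hη.le.trans hx) q)
  have h2 : ‖ψ ((q : ℕ) : ZMod k) * ((q : ℕ) : ℂ) ^ (-(1 + (η : ℂ))) -
      ψ ((q : ℕ) : ZMod k) * ((q : ℕ) : ℂ) ^ (-(1 + (x : ℂ)))‖ ≤
      2 * x * ((q : ℕ) : ℝ) ^ (-(1 / 2) : ℝ) := by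
    rw [← mul_sub, norm_mul, W_cast, W_cast, ← Complex.ofReal_sub, Complex.norm_real,
      Real.norm_eq_abs]
    exact (mul_le_of_le_one_left (abs_nonneg _) (ψ.norm_le_one _)).trans (W_diff hq2 hη hx)
  have h3 : 2 * (1 / ((q : ℕ) : ℝ)) * (2 * x * ((q : ℕ) : ℝ) ^ (-(1 / 2) : ℝ)) =
      x * (4 * ((q : ℕ) : ℝ) ^ (-(3 / 2) : ℝ)) := by
    have : ((q : ℕ) : ℝ) ^ (-(3 / 2) : ℝ) =
        ((q : ℕ) : ℝ)⁻¹ * ((q : ℕ) : ℝ) ^ (-(1 / 2) : ℝ) := by
      rw [show (-(3 / 2) : ℝ) = -1 + -(1 / 2) by norm_num, Real.rpow_add hq0,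
        Real.rpow_neg_one]
    rw [this]
    ring
  unfold ep
  refine h1.trans ?_
  rw [← h3]
  exact mul_le_mul_of_nonneg_left h2 (by positivity)

theorem one_lt {t : ℝ} (ht : 0 < t) : 1 < (1 + (t : ℂ)).re := by
  simp [ht]

theorem sum_main {k : ℕ} (ψ : DirichletCharacter ℂ k) {t : ℝ} (ht : 0 < t) :
    Summable fun q : Nat.Primes =>
      ψ ((q : ℕ) : ZMod k) * ((q : ℕ) : ℂ) ^ (-(1 + (t : ℂ))) := by
  refine Summable.of_norm_bounded (g := fun q : Nat.Primes => ((q : ℕ) : ℝ) ^ (-(1 + t)))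
    (Nat.Primes.summable_rpow.2 (by linarith)) fun q => ?_
  rw [norm_mul, W_cast, Complex.norm_real, Real.norm_of_nonneg (W_pos q.2.two_le t).le]
  exact mul_le_of_le_one_left (W_pos q.2.two_le t).le (ψ.norm_le_one _)

theorem sum_log {k : ℕ} [NeZero k] (ψ : DirichletCharacter ℂ k) {t : ℝ} (ht : 0 < t) :
    Summable fun q : Nat.Primes =>
      -log (1 - ψ ((q : ℕ) : ZMod k) * ((q : ℕ) : ℂ) ^ (-(1 + (t : ℂ)))) :=
  DirichletCharacter.summable_neg_log_one_sub_mul_prime_cpow ψ (one_lt ht)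

theorem sum_ep {k : ℕ} [NeZero k] (ψ : DirichletCharacter ℂ k) {t : ℝ} (ht : 0 < t) :
    Summable (ep ψ t) := (sum_log ψ ht).sub (sum_main ψ ht)

theorem log_norm {k : ℕ} [NeZero k] (ψ : DirichletCharacter ℂ k) {t : ℝ} (ht : 0 < t) :
    Real.log ‖LSeries (fun n => ψ (n : ZMod k)) (1 + (t : ℂ))‖ =
      (pser (fun n => ψ (n : ZMod k)) (1 + (t : ℂ))).re + (∑' q, ep ψ t q).re := by
  have h1 := DirichletCharacter.LSeries_eulerProduct_exp_log ψ (one_lt ht)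
  rw [← h1, Complex.norm_exp, Real.log_exp, ← add_re]
  congr 1
  unfold pser
  rw [← (sum_main ψ ht).tsum_add (sum_ep ψ ht)]
  refine tsum_congr fun q => ?_
  unfold ep g
  ring

theorem norm_pos {k : ℕ} [NeZero k] (ψ : DirichletCharacter ℂ k) {t : ℝ} (ht : 0 < t) :
    0 < ‖LSeries (fun n => ψ (n : ZMod k)) (1 + (t : ℂ))‖ := by
  have h1 := DirichletCharacter.LSeries_eulerProduct_exp_log ψ (one_lt ht)
  rw [← h1, Complex.norm_exp]
  exact Real.exp_pos _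

theorem ep_tsum {k : ℕ} [NeZero k] (ψ : DirichletCharacter ℂ k) {η x : ℝ} (hη : 0 < η)
    (hx : η ≤ x) : |(∑' q, ep ψ η q).re - (∑' q, ep ψ x q).re| ≤ x * Ce := by
  have hx0 : 0 < x := hη.trans_le hx
  rw [← sub_re, ← (sum_ep ψ hη).tsum_sub (sum_ep ψ hx0)]
  refine (Complex.abs_re_le_norm _).trans ?_
  unfold Ce
  rw [← tsum_mul_left]
  exact tsum_of_norm_bounded (Ce_summable.mul_left x).hasSum fun q => ep_diff ψ hη hx q

theorem main (hLIP : T_LIP) (hLBC : T_LBC) {c : ℝ} (hc : 0 < c)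
    (hcb : ∀ (k : ℕ) [NeZero k] (ψ : DirichletCharacter ℂ k), ψ ≠ 1 →
      ψ ^ 2 = 1 → ∀ t : ℝ, 0 < t → t ≤ 1 →
      c / (k : ℝ) ^ 2 ≤ ‖LSeries (fun n => ψ (n : ZMod k)) (1 + (t : ℂ))‖)
    {k : ℕ} [NeZero k] (ψ : DirichletCharacter ℂ k) (hψ1 : ψ ≠ 1) {η x : ℝ} (hη : 0 < η)
    (hηx : η ≤ x) (hx1 : x ≤ 1) :
    (pser (fun n => ψ (n : ZMod k)) (1 + (η : ℂ)) -
      pser (fun n => ψ (n : ZMod k)) (1 + (x : ℂ))).re ≤
      (2 + 1 / c + Ce) * x ^ (1 / 4 : ℝ) * (k : ℝ) ^ 3 := by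
  have hx0 : 0 < x := hη.trans_le hηx
  have hk1 : (1 : ℝ) ≤ k := by
    have : 1 ≤ k := Nat.one_le_iff_ne_zero.2 (NeZero.ne k)
    exact_mod_cast this
  rw [sub_re]
  have e1 := log_norm ψ hη
  have e2 := log_norm ψ hx0
  have e3 := ep_tsum ψ hη hηx
  have hLη := norm_pos ψ hη
  have hLx := norm_pos ψ hx0
  set a := ‖LSeries (fun n => ψ (n : ZMod k)) (1 + (η : ℂ))‖ with ha
  set b := ‖LSeries (fun n => ψ (n : ZMod k)) (1 + (x : ℂ))‖ with hb
  have hab : a - b ≤ k * x := by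
    have h1 := (hLIP k ψ hψ1 η x hη hx0).2
    have h2 := norm_sub_norm_le (LSeries (fun n => ψ (n : ZMod k)) (1 + (η : ℂ)))
      (LSeries (fun n => ψ (n : ZMod k)) (1 + (x : ℂ)))
    have h3 : |η - x| ≤ x := by
      rw [abs_le]
      constructor <;> linarith
    have h4 : (k : ℝ) * |η - x| ≤ k * x := mul_le_mul_of_nonneg_left h3 (by linarith)
    linarith
  have hlog : Real.log a - Real.log b ≤ k * x / b := by
    have h1 : Real.log (a / b) ≤ a / b - 1 := Real.log_le_sub_one_of_pos (div_pos hLη hLx)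
    rw [Real.log_div hLη.ne' hLx.ne'] at h1
    have h2 : a / b - 1 = (a - b) / b := by
      field_simp
    rw [h2] at h1
    exact h1.trans (div_le_div_of_nonneg_right hab hLx.le)
  -- powers of `x`
  set y : ℝ := x ^ (1 / 4 : ℝ) with hy
  have hy0 : 0 < y := Real.rpow_pos_of_pos hx0 _
  have hy4 : y ^ 4 = x := by
    rw [hy, ← Real.rpow_natCast, ← Real.rpow_mul hx0.le]
    norm_num
  have hy1 : y ≤ 1 := Real.rpow_le_one hx0.le hx1 (by norm_num)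
  have hxy : x ≤ y := by
    rw [← hy4]
    calc y ^ 4 ≤ y ^ 1 := pow_le_pow_of_le_one hy0.le hy1 (by norm_num)
      _ = y := pow_one y
  have hk3 : (1 : ℝ) ≤ (k : ℝ) ^ 3 := one_le_pow₀ hk1
  have hmain : k * x / b ≤ (2 + 1 / c) * y * (k : ℝ) ^ 3 := by
    by_cases h2 : ψ ^ 2 = 1
    · have h3 := hcb k ψ hψ1 h2 x hx0 hx1
      rw [← hb] at h3
      have hk2 : 0 < c / (k : ℝ) ^ 2 := by positivity
      have h4 : k * x / b ≤ k * x / (c / (k : ℝ) ^ 2) :=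
        div_le_div_of_nonneg_left (by positivity) hk2 h3
      have h5 : k * x / (c / (k : ℝ) ^ 2) = 1 / c * x * (k : ℝ) ^ 3 := by
        field_simp
      rw [h5] at h4
      have h6 : 1 / c * x * (k : ℝ) ^ 3 ≤ 1 / c * y * (k : ℝ) ^ 3 := by
        have : 1 / c * x ≤ 1 / c * y := mul_le_mul_of_nonneg_left hxy (by positivity)
        exact mul_le_mul_of_nonneg_right this (by positivity)
      have h7 : 0 ≤ 2 * y * (k : ℝ) ^ 3 := by positivity
      nlinarith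
    · have h3 := hLBC k ψ h2 x hx0 hx1
      rw [← hb] at h3
      -- `b ≥ y ^ 3 / (2 k)`
      have h4 : (y ^ 3 / (2 * k)) ^ 4 ≤ b ^ 4 := by
        refine le_trans ?_ h3
        have h5 : (y ^ 3 / (2 * k)) ^ 4 = x ^ 3 / (16 * (k : ℝ) ^ 4) := by
          rw [div_pow, mul_pow, ← pow_mul]
          norm_num
          rw [← hy4, ← pow_mul]
        rw [h5]
        have h6 : 8 * (k : ℝ) ≤ 16 * (k : ℝ) ^ 4 := by
          have : (k : ℝ) ≤ (k : ℝ) ^ 4 := by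
            calc (k : ℝ) = (k : ℝ) ^ 1 := (pow_one _).symm
              _ ≤ (k : ℝ) ^ 4 := pow_le_pow_right₀ hk1 (by norm_num)
          nlinarith
        exact div_le_div_of_nonneg_left (by positivity) (by positivity) h6
      have h5 : y ^ 3 / (2 * k) ≤ b := by
        exact le_of_pow_le_pow_left₀ (by norm_num) hLx.le h4
      have h6 : k * x / b ≤ k * x / (y ^ 3 / (2 * k)) :=
        div_le_div_of_nonneg_left (by positivity) (by positivity) h5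
      have h7 : k * x / (y ^ 3 / (2 * k)) = 2 * y * (k : ℝ) ^ 2 := by
        rw [← hy4]
        field_simp
      rw [h7] at h6
      have h8 : 2 * y * (k : ℝ) ^ 2 ≤ 2 * y * (k : ℝ) ^ 3 :=
        mul_le_mul_of_nonneg_left (pow_le_pow_right₀ hk1 (by norm_num)) (by positivity)
      have h9 : 0 ≤ 1 / c * y * (k : ℝ) ^ 3 := by positivity
      nlinarith
  have hCe : x * Ce ≤ Ce * y * (k : ℝ) ^ 3 := by
    have h1 := Ce_nonneg
    have h2 : x * Ce ≤ Ce * y := by nlinarith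
    have h3 : Ce * y ≤ Ce * y * (k : ℝ) ^ 3 := le_mul_of_one_le_right (by positivity) hk3
    linarith
  have h10 := (abs_le.1 e3).1
  have h11 := (abs_le.1 e3).2
  have h12 : (2 + 1 / c + Ce) * y * (k : ℝ) ^ 3 =
      (2 + 1 / c) * y * (k : ℝ) ^ 3 + Ce * y * (k : ℝ) ^ 3 := by ring
  linarith

end RTO_

open RTO_ in
theorem p_RTO (hLIP : T_LIP) (hLBC : T_LBC) (hLBR : T_LBR) : T_RTO := by
  obtain ⟨c, hc, hcb⟩ := hLBR
  refine ⟨2 + 1 / c + Ce, by have := Ce_nonneg; positivity, ?_⟩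
  intro p p' χ χ' hp hp' hne hχ η x hη hηx hx1
  haveI : NeZero (p ^ 1) := ⟨by simpa using hp.ne_zero⟩
  haveI : NeZero (p' ^ 1) := ⟨by simpa using hp'.ne_zero⟩
  haveI hk0 : NeZero (p ^ 1 * p' ^ 1) := ⟨mul_ne_zero (NeZero.ne _) (NeZero.ne _)⟩
  have hco : (p ^ 1).Coprime (p' ^ 1) := by
    rw [pow_one, pow_one]
    exact (Nat.coprime_primes hp hp').2 hne
  set ψ : DirichletCharacter ℂ (p ^ 1 * p' ^ 1) :=
    DirichletCharacter.changeLevel (Dvd.intro (p' ^ 1) rfl : p ^ 1 ∣ p ^ 1 * p' ^ 1) χ *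
      DirichletCharacter.changeLevel
        (Dvd.intro_left (p ^ 1) rfl : p' ^ 1 ∣ p ^ 1 * p' ^ 1) χ'⁻¹ with hψ
  have hψ1 : ψ ≠ 1 := Pool.Agent.SelDeg2.PRX_.prod_ne_one (p ^ 1) (p' ^ 1) hco χ χ'⁻¹ hχ
  have hf : (fun n : ℕ => ψ (n : ZMod (p ^ 1 * p' ^ 1))) = cc χ χ' := by
    funext n
    rw [hψ, Pool.Agent.SelDeg2.PRX_.prod_eval]
    unfold cc
    congr 1
    have := MulChar.star_apply' χ' (n : ZMod (p' ^ 1))
    rw [← this]
    rfl
  have h := main hLIP hLBC hc hcb ψ hψ1 hη hηx hx1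
  rw [hf] at h
  have hkr : ((p ^ 1 * p' ^ 1 : ℕ) : ℝ) = (p : ℝ) * p' := by
    push_cast
    ring
  rw [hkr] at h
  exact h

end

end Pool.Agent.SelQ
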