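import Pool.Agent.SelQ.TargetsD

/-!
# SEC: first and second moment of the number of sets in a window
-/

set_option autoImplicit false

open Finset

namespace Pool.Agent.SelQ

namespace SEC_

theorem mem_win {R : ℕ} {u : ℝ} {B S : Finset ℕ} :
    S ∈ win R u B ↔ S ⊆ B ∧ S.card = R ∧ u ≤ Real.log (∏ p ∈ S, (p : ℝ)) ∧
      Real.log (∏ p ∈ S, (p : ℝ)) < u + 1 := by
  unfold win
  rw [Finset.mem_filter, Finset.mem_powersetCard]
  tauto

theorem EB_congr {π : ℕ → ℝ} {Q : Finset ℕ} {F G : Finset ℕ → ℝ} (h : ∀ B, B ⊆ Q → F B = G B) :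
    EB π Q F = EB π Q G := by
  unfold EB
  apply Finset.sum_congr rfl
  intro B hB
  rw [h B (Finset.mem_powerset.mp hB)]

theorem EB_sum {ι : Type} (π : ℕ → ℝ) (Q : Finset ℕ) (I : Finset ι) (F : ι → Finset ℕ → ℝ) :
    EB π Q (fun B => ∑ i ∈ I, F i B) = ∑ i ∈ I, EB π Q (F i) := by
  unfold EB
  rw [Finset.sum_comm]
  apply Finset.sum_congr rfl
  intro B _
  rw [Finset.sum_mul]

theorem win_eq {R : ℕ} {u : ℝ} {B Q : Finset ℕ} (h : B ⊆ Q) :
    win R u B = (win R u Q).filter (fun S => S ⊆ B) := by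
  ext S
  rw [Finset.mem_filter, mem_win, mem_win]
  constructor
  · rintro ⟨h1, h2⟩
    exact ⟨⟨h1.trans h, h2⟩, h1⟩
  · rintro ⟨⟨_, h2⟩, h1⟩
    exact ⟨h1, h2⟩

theorem card_win {R : ℕ} {u : ℝ} {B Q : Finset ℕ} (h : B ⊆ Q) :
    ((win R u B).card : ℝ) = ∑ S ∈ win R u Q, (if S ⊆ B then (1 : ℝ) else 0) := by
  rw [win_eq h, Finset.card_filter]
  push_cast
  rfl

theorem card_win_sq {R : ℕ} {u : ℝ} {B Q : Finset ℕ} (h : B ⊆ Q) :
    ((win R u B).card : ℝ) ^ 2 =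
      ∑ S ∈ win R u Q, ∑ S' ∈ win R u Q, (if S ∪ S' ⊆ B then (1 : ℝ) else 0) := by
  rw [card_win h, sq, Finset.sum_mul_sum]
  apply Finset.sum_congr rfl
  intro S _
  apply Finset.sum_congr rfl
  intro S' _
  by_cases h1 : S ⊆ B
  · by_cases h2 : S' ⊆ B
    · rw [if_pos h1, if_pos h2, if_pos (Finset.union_subset h1 h2), mul_one]
    · rw [if_pos h1, if_neg h2, if_neg (fun h3 => h2 (Finset.subset_union_right.trans h3)),
        mul_zero]
  · rw [if_neg h1, if_neg (fun h3 => h1 (Finset.subset_union_left.trans h3)), zero_mul]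

theorem prod_pos' {Q e : Finset ℕ} (hQ : ∀ p ∈ Q, 1 ≤ p) (he : e ⊆ Q) :
    0 < ∏ p ∈ e, (p : ℝ) := by
  apply Finset.prod_pos
  intro p hp
  have := hQ p (he hp)
  exact_mod_cast this

theorem fibre (π : ℕ → ℝ) (Q : Finset ℕ) (R : ℕ) (u : ℝ) (K : ℕ → ℝ)
    (hπ : ∀ p, 0 ≤ π p ∧ π p ≤ 1) (hQ : ∀ p ∈ Q, 1 ≤ p)
    (hK : ∀ (j : ℕ) (x : ℝ), KK π Q j x ≤ K j) (S e : Finset ℕ) (heS : e ⊆ S) (hS : S ⊆ Q) :
    ∑ S' ∈ (win R u Q).filter (fun S' => S ∩ S' = e), ∏ p ∈ S' \ S, π p ≤ K (R - e.card) := by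
  have heQ : e ⊆ Q := heS.trans hS
  refine le_trans ?_ (hK (R - e.card) (u - Real.log (∏ p ∈ e, (p : ℝ))))
  unfold KK
  have hinj : Set.InjOn (fun S' : Finset ℕ => S' \ e)
      ((win R u Q).filter (fun S' => S ∩ S' = e) : Finset (Finset ℕ)) := by
    intro A hA B hB hAB
    rw [Finset.mem_coe, Finset.mem_filter] at hA hB
    have h1 : e ⊆ A := by
      rw [← hA.2]
      exact Finset.inter_subset_right
    have h2 : e ⊆ B := by
      rw [← hB.2]
      exact Finset.inter_subset_right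
    have h3 : A \ e = B \ e := hAB
    rw [← Finset.sdiff_union_of_subset h1, ← Finset.sdiff_union_of_subset h2, h3]
  have h1 : ∑ S' ∈ (win R u Q).filter (fun S' => S ∩ S' = e), ∏ p ∈ S' \ S, π p =
      ∑ A ∈ ((win R u Q).filter (fun S' => S ∩ S' = e)).image (fun S' => S' \ e),
        ∏ p ∈ A, π p := by
    rw [Finset.sum_image hinj]
    apply Finset.sum_congr rfl
    intro S' hS'
    rw [Finset.mem_filter] at hS'
    have : S' \ S = S' \ e := by
      rw [← hS'.2]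
      ext p
      simp only [Finset.mem_sdiff, Finset.mem_inter]
      tauto
    rw [this]
  rw [h1]
  apply Finset.sum_le_sum_of_subset_of_nonneg
  · intro A hA
    rw [Finset.mem_image] at hA
    obtain ⟨S', hS', rfl⟩ := hA
    rw [Finset.mem_filter, mem_win] at hS'
    obtain ⟨⟨h2, h3, h4, h5⟩, h6⟩ := hS'
    have heS' : e ⊆ S' := by
      rw [← h6]
      exact Finset.inter_subset_right
    have hprod : Real.log (∏ p ∈ S', (p : ℝ)) =
        Real.log (∏ p ∈ S' \ e, (p : ℝ)) + Real.log (∏ p ∈ e, (p : ℝ)) := by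
      rw [← Finset.prod_sdiff heS', Real.log_mul
        (prod_pos' hQ (Finset.sdiff_subset.trans h2)).ne' (prod_pos' hQ heQ).ne']
    rw [mem_win]
    refine ⟨Finset.sdiff_subset.trans h2, ?_, ?_, ?_⟩
    · rw [Finset.card_sdiff_of_subset heS', h3]
    · linarith
    · linarith
  · intro A _ _
    exact Finset.prod_nonneg (fun p _ => (hπ p).1)

theorem inner (π : ℕ → ℝ) (Q : Finset ℕ) (R : ℕ) (u : ℝ) (K : ℕ → ℝ)
    (hπ : ∀ p, 0 ≤ π p ∧ π p ≤ 1) (hQ : ∀ p ∈ Q, 1 ≤ p)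
    (hK : ∀ (j : ℕ) (x : ℝ), KK π Q j x ≤ K j) (S : Finset ℕ) (hS : S ∈ win R u Q) :
    ∑ S' ∈ win R u Q, ∏ p ∈ S ∪ S', π p ≤
      (∏ p ∈ S, π p) * ∑ s ∈ range (R + 1), (R.choose s : ℝ) * K (R - s) := by
  rw [mem_win] at hS
  have h1 : ∀ S' ∈ win R u Q, ∏ p ∈ S ∪ S', π p = (∏ p ∈ S, π p) * ∏ p ∈ S' \ S, π p := by
    intro S' _
    rw [← Finset.union_sdiff_self_eq_union, Finset.prod_union Finset.disjoint_sdiff]
  rw [Finset.sum_congr rfl h1, ← Finset.mul_sum]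
  apply mul_le_mul_of_nonneg_left _ (Finset.prod_nonneg (fun p _ => (hπ p).1))
  have h2 := Finset.sum_fiberwise_of_maps_to (s := win R u Q) (t := S.powerset)
    (g := fun S' => S ∩ S') (fun S' _ => Finset.mem_powerset.mpr Finset.inter_subset_left)
    (fun S' => ∏ p ∈ S' \ S, π p)
  rw [← h2]
  have h3 : ∑ s ∈ range (R + 1), (R.choose s : ℝ) * K (R - s) =
      ∑ e ∈ S.powerset, K (R - e.card) := by
    rw [Finset.sum_powerset_apply_card (fun j => K (R - j)) (x := S), hS.2.1]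
    apply Finset.sum_congr rfl
    intro s _
    rw [nsmul_eq_mul]
  rw [h3]
  apply Finset.sum_le_sum
  intro e he
  exact fibre π Q R u K hπ hQ hK S e (Finset.mem_powerset.mp he) hS.1

end SEC_

theorem p_SEC (hEBS : T_EBS) : T_SEC := by
  intro π Q R u K hπ hQ hK
  constructor
  · rw [SEC_.EB_congr (fun B hB => SEC_.card_win hB), SEC_.EB_sum]
    unfold KK
    apply Finset.sum_congr rfl
    intro S hS
    exact hEBS π Q S (SEC_.mem_win.mp hS).1
  · rw [SEC_.EB_congr (fun B hB => SEC_.card_win_sq hB), SEC_.EB_sum]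
    have h1 : ∀ S ∈ win R u Q, EB π Q (fun B => ∑ S' ∈ win R u Q,
        (if S ∪ S' ⊆ B then (1 : ℝ) else 0)) = ∑ S' ∈ win R u Q, ∏ p ∈ S ∪ S', π p := by
      intro S hS
      rw [SEC_.EB_sum]
      apply Finset.sum_congr rfl
      intro S' hS'
      exact hEBS π Q (S ∪ S')
        (Finset.union_subset (SEC_.mem_win.mp hS).1 (SEC_.mem_win.mp hS').1)
    rw [Finset.sum_congr rfl h1]
    unfold KK
    rw [Finset.sum_mul]
    exact Finset.sum_le_sum (fun S hS => SEC_.inner π Q R u K hπ hQ hK S hS)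

end Pool.Agent.SelQ
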