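import Pool.Agent.SelQ.TargetsU
import Pool.Agent.SelDeg2.SHIFT

/-!
# U1 SHU: the shift of the line with a constant polynomial in `K`
-/

set_option autoImplicit false

namespace Pool.Agent.SelQ

open Complex Filter Topology MeasureTheory
open Pool.Agent.SelTwo
open Pool.Agent.SelDeg2

open Pool.Agent.SelDeg2.SHIFT_ in
theorem p_SHU (h : Pool.Agent.SelTwo.T_GAM) : T_SHU := by
  intro F N hF hpoly
  obtain ⟨C₀, hC₀⟩ := hpoly
  have hC₀0 : 0 ≤ C₀ := by
    have := hC₀ (vl 0 1) (by norm_num [vl]) (by norm_num [vl]) (by norm_num [vl])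
    have h2 := (norm_nonneg _).trans this
    by_contra hn
    push Not at hn
    have h3 : 0 < (1 + |(vl 0 1).im|) ^ N := by positivity
    nlinarith
  -- bound of Gamma on `[1/2, 5/2]`
  obtain ⟨G, hG⟩ : ∃ G : ℝ, ∀ σ ∈ Set.Icc (1 / 2 : ℝ) (5 / 2), Real.Gamma σ ≤ G := by
    have hc : ContinuousOn Real.Gamma (Set.Icc (1 / 2 : ℝ) (5 / 2)) := by
      intro σ hσ
      refine (Real.differentiableAt_Gamma fun m => ?_).continuousAt.continuousWithinAt
      have : (0 : ℝ) ≤ m := Nat.cast_nonneg m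
      linarith [hσ.1]
    obtain ⟨G, hG⟩ := isCompact_Icc.exists_bound_of_continuousOn hc
    exact ⟨G, fun σ hσ => (le_abs_self _).trans (hG σ hσ)⟩
  have hG0 : 0 ≤ G := (Real.Gamma_pos_of_pos (by norm_num : (0 : ℝ) < 1)).le.trans
    (hG 1 ⟨by norm_num, by norm_num⟩)
  -- differentiability
  have hGd : ∀ s : ℂ, -1 / 4 ≤ s.re → s.im ≠ 0 → DifferentiableAt ℂ Gamma s := by
    intro s _ hs
    refine Complex.differentiableAt_Gamma s fun m hm => hs ?_
    rw [hm]; simp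
  have hGl : ∀ σ : ℝ, (σ = 5 / 4 ∨ σ = -1 / 4) → ∀ t : ℝ, DifferentiableAt ℂ Gamma (vl σ t) := by
    intro σ hσ t
    refine Complex.differentiableAt_Gamma _ fun m hm => ?_
    have h1 := congrArg Complex.re hm
    simp [vl] at h1
    rcases hσ with rfl | rfl
    · have : (0 : ℝ) ≤ m := Nat.cast_nonneg m
      linarith
    · have h2 : (m : ℝ) * 4 = 1 := by linarith
      have h3 : m * 4 = 1 := by exact_mod_cast h2
      omega
  have hFl : ∀ σ : ℝ, (σ = 5 / 4 ∨ σ = -1 / 4) → ∀ t : ℝ, DifferentiableAt ℂ F (vl σ t) := by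
    intro σ hσ t
    refine hF _ fun hm => ?_
    have h1 := congrArg Complex.re hm
    simp [vl] at h1
    rcases hσ with rfl | rfl <;> norm_num at h1
  -- middle bounds
  have hmid : ∀ σ : ℝ, (σ = 5 / 4 ∨ σ = -1 / 4) → ∃ D : ℝ, ∀ t ∈ Set.Icc (-1 : ℝ) 1,
      ‖Gamma (vl σ t) * F (vl σ t)‖ ≤ D := by
    intro σ hσ
    refine isCompact_Icc.exists_bound_of_continuousOn ?_
    intro t _
    have h1 : ContinuousAt (fun t : ℝ => Gamma (vl σ t)) t :=
      ContinuousAt.comp (g := Gamma) (hGl σ hσ t).continuousAt (cont_vl σ).continuousAt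
    have h2 : ContinuousAt (fun t : ℝ => F (vl σ t)) t :=
      ContinuousAt.comp (g := F) (hFl σ hσ t).continuousAt (cont_vl σ).continuousAt
    exact (h1.mul h2).continuousWithinAt
  obtain ⟨D1, hD1⟩ := hmid (5 / 4) (Or.inl rfl)
  obtain ⟨D2, hD2⟩ := hmid (-1 / 4) (Or.inr rfl)
  have hD10 : 0 ≤ D1 := (norm_nonneg _).trans (hD1 0 (by constructor <;> norm_num))
  have hD20 : 0 ≤ D2 := (norm_nonneg _).trans (hD2 0 (by constructor <;> norm_num))
  set M₀ : ℝ := G * Real.exp (Real.pi / 2) * (C₀ * 2 ^ N) with hM₀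
  have hM₀0 : 0 ≤ M₀ := by positivity
  refine ⟨2 * M₀ + 2 * M₀ + 2 * (D1 * Real.exp (Real.pi / 2)) +
    2 * (D2 * Real.exp (Real.pi / 2)), by positivity, ?_⟩
  intro K hK
  have hK0 : 0 < K := by linarith
  set KX : ℝ := K ^ (5 / 4 : ℝ) * Real.exp (Real.pi / 2) with hKX
  have hKX0 : 0 ≤ KX := by positivity
  set M : ℝ := G * KX * (C₀ * 2 ^ N) with hM
  have hKK : K ^ (5 / 4 : ℝ) ≤ K ^ 2 := by
    rw [← Real.rpow_natCast K 2]
    exact Real.rpow_le_rpow_of_exponent_le hK (by norm_num)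
  have hconst : 2 * M + 2 * M + 2 * (D1 * KX) + 2 * (D2 * KX) ≤
      (2 * M₀ + 2 * M₀ + 2 * (D1 * Real.exp (Real.pi / 2)) +
        2 * (D2 * Real.exp (Real.pi / 2))) * K ^ 2 := by
    have e : 2 * M + 2 * M + 2 * (D1 * KX) + 2 * (D2 * KX) =
        (2 * M₀ + 2 * M₀ + 2 * (D1 * Real.exp (Real.pi / 2)) +
          2 * (D2 * Real.exp (Real.pi / 2))) * K ^ (5 / 4 : ℝ) := by
      rw [hM, hM₀, hKX]
      ring
    rw [e]
    exact mul_le_mul_of_nonneg_left hKK (by positivity)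
  intro X hX hX1 hX2
  have hX0 : X ≠ 0 := by rintro rfl; simp at hX
  have harg : |arg X| < Real.pi / 2 := Complex.abs_arg_lt_pi_div_two_iff.2 (Or.inl hX)
  set f : ℂ → ℂ := fun s => Gamma s * X ^ (-s) * F s with hf
  -- the angle
  obtain ⟨φ, hφ1, hφ2⟩ := exists_between harg
  have hφ0 : 0 ≤ φ := (abs_nonneg _).trans hφ1.le
  have hε : 0 < φ - |arg X| := by linarith
  set ε : ℝ := φ - |arg X| with hεdef
  have hcos : 0 < Real.cos φ := Real.cos_pos_of_mem_Ioo ⟨by linarith [Real.pi_pos], hφ2⟩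
  set B : ℝ := G * Real.cos φ ^ (-(5 / 2) : ℝ) * K ^ (5 / 4 : ℝ) * C₀ *
    (Nat.factorial (N + 2) * Real.exp ε / ε ^ (N + 2)) with hBdef
  have hB0 : 0 ≤ B := by positivity
  have hbound : ∀ s : ℂ, -1 / 4 ≤ s.re → s.re ≤ 5 / 4 → 1 ≤ |s.im| →
      ‖f s‖ ≤ B * (1 + |s.im|) ^ (-2 : ℝ) := by
    intro s h3 h4 h5
    have g1 := norm_G h hG hφ0 hφ2 h3 h4 h5
    have g2 := norm_X hX0 hK hX1 hX2 h3 h4
    have g3 := hC₀ s h3 h4 h5
    have g4 := poly_exp N hε (abs_nonneg s.im)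
    calc ‖f s‖ = ‖Gamma s‖ * ‖X ^ (-s)‖ * ‖F s‖ := by
          simp only [hf]; rw [norm_mul, norm_mul]
      _ ≤ (G * Real.cos φ ^ (-(5 / 2) : ℝ) * Real.exp (-φ * |s.im|)) *
          (K ^ (5 / 4 : ℝ) * Real.exp (|arg X| * |s.im|)) * (C₀ * (1 + |s.im|) ^ N) := by
          refine mul_le_mul (mul_le_mul g1 g2 (norm_nonneg _) (by positivity)) g3
            (norm_nonneg _) (by positivity)
      _ = (G * Real.cos φ ^ (-(5 / 2) : ℝ) * K ^ (5 / 4 : ℝ) * C₀) *
          ((1 + |s.im|) ^ N * (Real.exp (-φ * |s.im|) * Real.exp (|arg X| * |s.im|))) := by ring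
      _ = (G * Real.cos φ ^ (-(5 / 2) : ℝ) * K ^ (5 / 4 : ℝ) * C₀) *
          ((1 + |s.im|) ^ N * Real.exp (-ε * |s.im|)) := by
          rw [← Real.exp_add]
          congr 3
          rw [hεdef]; ring
      _ ≤ (G * Real.cos φ ^ (-(5 / 2) : ℝ) * K ^ (5 / 4 : ℝ) * C₀) *
          ((Nat.factorial (N + 2) * Real.exp ε / ε ^ (N + 2)) * (1 + |s.im|) ^ (-2 : ℝ)) :=
          mul_le_mul_of_nonneg_left g4 (by positivity)
      _ = B * (1 + |s.im|) ^ (-2 : ℝ) := by rw [hBdef]; ring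
  have hfd : ∀ s : ℂ, -1 / 4 ≤ s.re → 1 ≤ |s.im| → DifferentiableAt ℂ f s := by
    intro s h3 h5
    have him : s.im ≠ 0 := by
      intro h0
      rw [h0, abs_zero] at h5
      linarith
    have hs1 : s ≠ 1 := by
      rintro rfl
      simp at him
    have hp : DifferentiableAt ℂ (fun s : ℂ => X ^ (-s)) s := by
      have : DifferentiableAt ℂ (fun s : ℂ => -s) s := differentiableAt_id.neg
      exact this.const_cpow (Or.inl hX0)
    exact ((hGd s h3 him).mul hp).mul (hF s hs1)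
  have hcont : ∀ σ : ℝ, (σ = 5 / 4 ∨ σ = -1 / 4) → Continuous (fun t : ℝ => f (vl σ t)) := by
    intro σ hσ
    refine continuous_iff_continuousAt.2 fun t => ?_
    have hp : DifferentiableAt ℂ (fun s : ℂ => X ^ (-s)) (vl σ t) := by
      have : DifferentiableAt ℂ (fun s : ℂ => -s) (vl σ t) := differentiableAt_id.neg
      exact this.const_cpow (Or.inl hX0)
    have hfa : DifferentiableAt ℂ f (vl σ t) := ((hGl σ hσ t).mul hp).mul (hFl σ hσ t)
    exact ContinuousAt.comp (g := f) hfa.continuousAt (cont_vl σ).continuousAt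
  have hre : ∀ σ t : ℝ, (vl σ t).re = σ := fun σ t => by simp [vl]
  have him : ∀ σ t : ℝ, (vl σ t).im = t := fun σ t => by simp [vl]
  have hint : ∀ σ : ℝ, (σ = 5 / 4 ∨ σ = -1 / 4) → Integrable (fun t : ℝ => f (vl σ t)) := by
    intro σ hσ
    refine integ (hcont σ hσ) (B := B) fun t ht => ?_
    have := hbound (vl σ t) (by rw [hre]; rcases hσ with rfl | rfl <;> norm_num)
      (by rw [hre]; rcases hσ with rfl | rfl <;> norm_num) (by rw [him]; exact ht)
    rwa [him] at this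
  have hi1 := hint (5 / 4) (Or.inl rfl)
  have hi2 := hint (-1 / 4) (Or.inr rfl)
  refine ⟨hi1, hi2, le_trans ?_ hconst⟩
  change ‖(∫ t : ℝ, f (vl (5 / 4) t)) - ∫ t : ℝ, f (vl (-1 / 4) t)‖ ≤ _
  -- bound at height one
  have hheight : ∀ s : ℂ, -1 / 4 ≤ s.re → s.re ≤ 5 / 4 → |s.im| = 1 → ‖f s‖ ≤ M := by
    intro s h3 h4 h5
    have g1 := norm_G h hG le_rfl (by positivity) h3 h4 h5.ge
    have g2 := norm_X hX0 hK hX1 hX2 h3 h4
    have g3 := hC₀ s h3 h4 h5.ge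
    rw [Real.cos_zero, Real.one_rpow, mul_one, neg_zero, zero_mul, Real.exp_zero, mul_one] at g1
    rw [h5, mul_one] at g2
    rw [h5] at g3
    have g4 : Real.exp |arg X| ≤ Real.exp (Real.pi / 2) := Real.exp_le_exp.2 harg.le
    have g5 : ‖X ^ (-s)‖ ≤ KX := g2.trans (mul_le_mul_of_nonneg_left g4 (by positivity))
    have g6 : ‖F s‖ ≤ C₀ * 2 ^ N := g3.trans (by norm_num)
    calc ‖f s‖ = ‖Gamma s‖ * ‖X ^ (-s)‖ * ‖F s‖ := by
          simp only [hf]; rw [norm_mul, norm_mul]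
      _ ≤ G * KX * (C₀ * 2 ^ N) :=
        mul_le_mul (mul_le_mul g1 g5 (norm_nonneg _) hG0) g6 (norm_nonneg _) (by positivity)
  -- upper half
  have hup := half f B M (fun s h3 h4 h5 => hfd s h3 (h5.trans (le_abs_self _)))
    (fun s h3 h4 h5 => by
      have := hbound s h3 h4 (h5.trans (le_abs_self _))
      rwa [abs_of_nonneg (by linarith : 0 ≤ s.im)] at this)
    (fun x h3 h4 => hheight _ (by rw [hre]; exact h3) (by rw [hre]; exact h4)
      (by rw [him]; norm_num)) hi1.integrableOn hi2.integrableOn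
  -- lower half
  have hv1 : ∀ t : ℝ, 1 - vl (5 / 4) t = vl (-1 / 4) (-t) := by
    intro t
    apply Complex.ext <;> simp [vl]
    norm_num
  have hv2 : ∀ t : ℝ, 1 - vl (-1 / 4) t = vl (5 / 4) (-t) := by
    intro t
    apply Complex.ext <;> simp [vl]
    norm_num
  have hdown := half (fun s => f (1 - s)) B M
    (fun s h3 h4 h5 => by
      have h6 : DifferentiableAt ℂ f (1 - s) := hfd (1 - s) (by simp; linarith)
        (by simp; exact h5.trans (le_abs_self _))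
      exact h6.comp s (by fun_prop))
    (fun s h3 h4 h5 => by
      have := hbound (1 - s) (by simp; linarith) (by simp; linarith)
        (by simp; exact h5.trans (le_abs_self _))
      have e : |(1 - s).im| = s.im := by
        simp only [Complex.sub_im, Complex.one_im, zero_sub, abs_neg]
        exact abs_of_nonneg (by linarith)
      rwa [e] at this)
    (fun x h3 h4 => hheight _ (by simp [vl]; linarith) (by simp [vl]; linarith)
      (by simp [vl]))
    (by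
      have : (fun t : ℝ => f (1 - vl (5 / 4) t)) = fun t : ℝ => f (vl (-1 / 4) (-t)) := by
        funext t; rw [hv1]
      change IntegrableOn (fun t : ℝ => f (1 - vl (5 / 4) t)) _
      rw [this]
      exact (hi2.comp_neg).integrableOn)
    (by
      have : (fun t : ℝ => f (1 - vl (-1 / 4) t)) = fun t : ℝ => f (vl (5 / 4) (-t)) := by
        funext t; rw [hv2]
      change IntegrableOn (fun t : ℝ => f (1 - vl (-1 / 4) t)) _
      rw [this]
      exact (hi1.comp_neg).integrableOn)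
  have ed1 : (∫ t in Set.Ioi (1 : ℝ), f (1 - vl (5 / 4) t)) =
      ∫ t in Set.Iic (-1 : ℝ), f (vl (-1 / 4) t) := by
    have := integral_comp_neg_Ioi 1 (fun t : ℝ => f (vl (-1 / 4) t))
    rw [← this]
    refine setIntegral_congr_fun measurableSet_Ioi fun t _ => ?_
    simp only [hv1]
  have ed2 : (∫ t in Set.Ioi (1 : ℝ), f (1 - vl (-1 / 4) t)) =
      ∫ t in Set.Iic (-1 : ℝ), f (vl (5 / 4) t) := by
    have := integral_comp_neg_Ioi 1 (fun t : ℝ => f (vl (5 / 4) t))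
    rw [← this]
    refine setIntegral_congr_fun measurableSet_Ioi fun t _ => ?_
    simp only [hv2]
  rw [ed1, ed2, norm_sub_rev] at hdown
  -- middle
  have hmidb : ∀ σ : ℝ, (σ = 5 / 4 ∨ σ = -1 / 4) → ∀ D : ℝ,
      (∀ t ∈ Set.Icc (-1 : ℝ) 1, ‖Gamma (vl σ t) * F (vl σ t)‖ ≤ D) →
      ‖∫ t in (-1 : ℝ)..1, f (vl σ t)‖ ≤ 2 * (D * KX) := by
    intro σ hσ D hD
    have h1 : ‖∫ t in (-1 : ℝ)..1, f (vl σ t)‖ ≤ (D * KX) * |1 - (-1 : ℝ)| := by
      refine intervalIntegral.norm_integral_le_of_norm_le_const fun t ht => ?_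
      rw [Set.uIoc_of_le (by norm_num)] at ht
      have g1 := hD t ⟨ht.1.le, ht.2⟩
      have g2 := norm_X hX0 hK hX1 hX2 (s := vl σ t)
        (by rw [hre]; rcases hσ with rfl | rfl <;> norm_num)
        (by rw [hre]; rcases hσ with rfl | rfl <;> norm_num)
      rw [him] at g2
      have g3 : |arg X| * |t| ≤ Real.pi / 2 := by
        have : |t| ≤ 1 := abs_le.2 ⟨ht.1.le, ht.2⟩
        calc |arg X| * |t| ≤ |arg X| * 1 := mul_le_mul_of_nonneg_left this (abs_nonneg _)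
          _ ≤ Real.pi / 2 := by linarith
      have g4 : ‖X ^ (-vl σ t)‖ ≤ KX := g2.trans
        (mul_le_mul_of_nonneg_left (Real.exp_le_exp.2 g3) (by positivity))
      calc ‖f (vl σ t)‖ = ‖Gamma (vl σ t) * F (vl σ t)‖ * ‖X ^ (-vl σ t)‖ := by
            simp only [hf]; rw [norm_mul, norm_mul, norm_mul]; ring
        _ ≤ D * KX := mul_le_mul g1 g4 (norm_nonneg _) ((norm_nonneg _).trans g1)
    have e : |1 - (-1 : ℝ)| = 2 := by norm_num
    rw [e] at h1
    linarith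
  have m1 := hmidb (5 / 4) (Or.inl rfl) D1 hD1
  have m2 := hmidb (-1 / 4) (Or.inr rfl) D2 hD2
  rw [split _ hi1, split _ hi2]
  have e : ((∫ t in Set.Iic (-1 : ℝ), f (vl (5 / 4) t)) + (∫ t in (-1 : ℝ)..1, f (vl (5 / 4) t)) +
      ∫ t in Set.Ioi (1 : ℝ), f (vl (5 / 4) t)) -
      ((∫ t in Set.Iic (-1 : ℝ), f (vl (-1 / 4) t)) + (∫ t in (-1 : ℝ)..1, f (vl (-1 / 4) t)) +
      ∫ t in Set.Ioi (1 : ℝ), f (vl (-1 / 4) t)) =
      ((∫ t in Set.Iic (-1 : ℝ), f (vl (5 / 4) t)) - ∫ t in Set.Iic (-1 : ℝ), f (vl (-1 / 4) t)) +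
      ((∫ t in Set.Ioi (1 : ℝ), f (vl (5 / 4) t)) - ∫ t in Set.Ioi (1 : ℝ), f (vl (-1 / 4) t)) +
      (∫ t in (-1 : ℝ)..1, f (vl (5 / 4) t)) - ∫ t in (-1 : ℝ)..1, f (vl (-1 / 4) t) := by ring
  rw [e]
  refine (norm_sub_le _ _).trans ?_
  have s1 := norm_add_le
    (((∫ t in Set.Iic (-1 : ℝ), f (vl (5 / 4) t)) - ∫ t in Set.Iic (-1 : ℝ), f (vl (-1 / 4) t)) +
      ((∫ t in Set.Ioi (1 : ℝ), f (vl (5 / 4) t)) - ∫ t in Set.Ioi (1 : ℝ), f (vl (-1 / 4) t)))
    (∫ t in (-1 : ℝ)..1, f (vl (5 / 4) t))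
  have s2 := norm_add_le
    ((∫ t in Set.Iic (-1 : ℝ), f (vl (5 / 4) t)) - ∫ t in Set.Iic (-1 : ℝ), f (vl (-1 / 4) t))
    ((∫ t in Set.Ioi (1 : ℝ), f (vl (5 / 4) t)) - ∫ t in Set.Ioi (1 : ℝ), f (vl (-1 / 4) t))
  linarith

end Pool.Agent.SelQ
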