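import Pool.Agent.SelQ.TargetsD

/-!
# Degree 2 without the mean square bound: block SPL
-/

set_option autoImplicit false

open Finset

namespace Pool.Agent.SelQ

namespace SPL_

/-- A subset with mass between `M` and `M + 1`. -/
lemma exists_sub (π : ℕ → ℝ) (M : ℝ) (hM : 0 ≤ M) (hπ : ∀ p, 0 ≤ π p ∧ π p ≤ 1)
    (Q : Finset ℕ) : M ≤ ∑ p ∈ Q, π p →
    ∃ S : Finset ℕ, S ⊆ Q ∧ M ≤ ∑ p ∈ S, π p ∧ ∑ p ∈ S, π p ≤ M + 1 := by
  classical
  induction Q using Finset.induction_on with
  | empty =>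
    intro h
    refine ⟨∅, subset_refl _, h, ?_⟩
    rw [Finset.sum_empty]
    linarith
  | insert a Q ha ih =>
    intro h
    by_cases hQ : M ≤ ∑ p ∈ Q, π p
    · obtain ⟨S, hS, h1, h2⟩ := ih hQ
      exact ⟨S, hS.trans (Finset.subset_insert _ _), h1, h2⟩
    · refine ⟨insert a Q, subset_refl _, h, ?_⟩
      rw [Finset.sum_insert ha]
      have := (hπ a).2
      push Not at hQ
      linarith

lemma main (π : ℕ → ℝ) (M : ℝ) (hM : 0 ≤ M) (hπ : ∀ p, 0 ≤ π p ∧ π p ≤ 1) (G : ℕ) :
    ∀ Q : Finset ℕ, (G : ℝ) * (M + 1) ≤ ∑ p ∈ Q, π p → ∃ P : ℕ → Finset ℕ,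
      (∀ i < G, P i ⊆ Q) ∧ (∀ i < G, ∀ j < G, i ≠ j → Disjoint (P i) (P j)) ∧
      ∀ i < G, M ≤ ∑ p ∈ P i, π p := by
  classical
  induction G with
  | zero =>
    intro Q _
    exact ⟨fun _ => ∅, fun i hi => absurd hi (Nat.not_lt_zero _),
      fun i hi => absurd hi (Nat.not_lt_zero _), fun i hi => absurd hi (Nat.not_lt_zero _)⟩
  | succ G ih =>
    intro Q hQ
    push_cast at hQ
    have hG : (0 : ℝ) ≤ G := Nat.cast_nonneg G
    have hGM : 0 ≤ (G : ℝ) * (M + 1) := mul_nonneg hG (by linarith)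
    obtain ⟨S, hS, h1, h2⟩ := exists_sub π M hM hπ Q (by nlinarith)
    have h3 : ∑ p ∈ Q \ S, π p + ∑ p ∈ S, π p = ∑ p ∈ Q, π p := Finset.sum_sdiff hS
    obtain ⟨P, hP1, hP2, hP3⟩ := ih (Q \ S) (by nlinarith)
    have hdis : ∀ i < G, Disjoint (P i) S := fun i hi =>
      Finset.disjoint_of_subset_left (hP1 i hi) Finset.sdiff_disjoint
    refine ⟨fun i => if i = G then S else P i, ?_, ?_, ?_⟩
    · intro i hi
      by_cases hiG : i = G
      · simp only [hiG, if_true]
        exact hS
      · simp only [hiG, if_false]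
        exact (hP1 i (by omega)).trans Finset.sdiff_subset
    · intro i hi j hj hij
      by_cases hiG : i = G
      · have hjG : j ≠ G := fun h => hij (hiG.trans h.symm)
        simp only [hiG, if_true, hjG, if_false]
        exact (hdis j (by omega)).symm
      · by_cases hjG : j = G
        · simp only [hiG, if_false, hjG, if_true]
          exact hdis i (by omega)
        · simp only [hiG, if_false, hjG]
          exact hP2 i (by omega) j (by omega) hij
    · intro i hi
      by_cases hiG : i = G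
      · simp only [hiG, if_true]
        exact h1
      · simp only [hiG, if_false]
        exact hP3 i (by omega)

end SPL_

/-- Splitting into classes. -/
theorem p_SPL : T_SPL := by
  intro Q π G M hM hπ hQ
  exact SPL_.main π M hM hπ G Q hQ

end Pool.Agent.SelQ
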