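import Pool.Agent.SelQ.TargetsC
import Pool.Agent.SelDeg2.PR

/-!
# T_SQ1: first moments over the primes
-/

set_option autoImplicit false

open Finset

namespace Pool.Agent.SelQ

open Complex Filter Topology
open Pool.Agent.SelDeg2 (pser Lg)

noncomputable section

theorem SQ1_sm (x : ℝ) (hx : 0 < x) :
    Summable (fun q : Nat.Primes => ((q : ℕ) : ℝ) ^ (-1 - x)) := by
  have h : Summable (fun n : ℕ => (n : ℝ) ^ (-1 - x)) :=
    Real.summable_nat_rpow.mpr (by linarith)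
  exact h.comp_injective (fun a b hab => Subtype.ext hab)

theorem SQ1_pr : ∃ C : ℝ, 0 ≤ C ∧ ∀ x : ℝ, 0 < x → x ≤ 1 →
    ∑' q : Nat.Primes, ((q : ℕ) : ℝ) ^ (-1 - x) ≤ C * (1 + Lg x) := by
  obtain ⟨C, hC⟩ := Pool.Agent.SelDeg2.p_PR 1 (1 : DirichletCharacter ℂ 1) 0
  refine ⟨max C 1, by positivity, ?_⟩
  intro x hx hx1
  have h := hC x hx hx1
  simp only [true_and, if_true, ofReal_zero, zero_mul, add_zero] at h
  have hL : 0 ≤ Lg x := by
    unfold Pool.Agent.SelDeg2.Lg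
    apply Real.log_nonneg
    rw [le_div_iff₀ hx]; linarith
  have he : pser (fun n => (1 : DirichletCharacter ℂ 1) (n : ZMod 1)) (1 + (x : ℂ)) =
      ((∑' q : Nat.Primes, ((q : ℕ) : ℝ) ^ (-1 - x) : ℝ) : ℂ) := by
    unfold Pool.Agent.SelDeg2.pser
    rw [ofReal_tsum]
    apply tsum_congr
    intro q
    have h1 : (1 : DirichletCharacter ℂ 1) ((q : ℕ) : ZMod 1) = 1 := by
      apply MulChar.one_apply
      exact isUnit_of_subsingleton _
    show (1 : DirichletCharacter ℂ 1) ((q : ℕ) : ZMod 1) * ((q : ℕ) : ℂ) ^ (-(1 + (x : ℂ))) = _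
    rw [h1, one_mul, ofReal_cpow (by positivity)]
    congr 1
    push_cast
    ring
  rw [he, ← ofReal_sub, norm_real, Real.norm_eq_abs] at h
  have h2 := (abs_le.mp h).2
  have h3 : C ≤ max C 1 := le_max_left _ _
  have h4 : 1 ≤ max C 1 := le_max_right _ _
  nlinarith

/-- first moments over the primes -/
theorem p_SQ1 : T_SQ1 := by
  intro a ha
  obtain ⟨C, hC⟩ := ha
  obtain ⟨D, hD0, hD⟩ := SQ1_pr
  refine ⟨max C D, le_max_of_le_right hD0, ?_⟩
  intro x hx hx1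
  obtain ⟨hs, hb⟩ := hC x hx hx1
  have hL : 0 ≤ Lg x := by
    unfold Pool.Agent.SelDeg2.Lg
    apply Real.log_nonneg
    rw [le_div_iff₀ hx]; linarith
  set L : ℝ := 1 + Lg x with hLd
  have hL1 : 1 ≤ L := by linarith
  have hL0 : 0 < L := by linarith
  have hm1 : C ≤ max C D := le_max_left _ _
  have hm2 : D ≤ max C D := le_max_right _ _
  have hsp := SQ1_sm x hx
  have hdp := hD x hx hx1
  have hb' : ∑' p : Nat.Primes, ‖a p‖ ^ 2 * ((p : ℕ) : ℝ) ^ (-1 - x) ≤ C * L ^ 3 := hb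
  have hmaj : Summable (fun q : Nat.Primes =>
      (1 / (2 * L)) * (‖a q‖ ^ 2 * ((q : ℕ) : ℝ) ^ (-1 - x)) +
        (L / 2) * ((q : ℕ) : ℝ) ^ (-1 - x)) :=
    (hs.mul_left _).add (hsp.mul_left _)
  have hle : ∀ q : Nat.Primes, ‖a q‖ * ((q : ℕ) : ℝ) ^ (-1 - x) ≤
      (1 / (2 * L)) * (‖a q‖ ^ 2 * ((q : ℕ) : ℝ) ^ (-1 - x)) +
        (L / 2) * ((q : ℕ) : ℝ) ^ (-1 - x) := by
    intro q
    have hw : 0 ≤ ((q : ℕ) : ℝ) ^ (-1 - x) := by positivity
    have h1 : ‖a q‖ ≤ (1 / (2 * L)) * ‖a q‖ ^ 2 + L / 2 := by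
      have h2 : (1 / (2 * L)) * ‖a q‖ ^ 2 + L / 2 - ‖a q‖ = (‖a q‖ - L) ^ 2 / (2 * L) := by
        field_simp
        ring
      have h3 : 0 ≤ (‖a q‖ - L) ^ 2 / (2 * L) := by positivity
      linarith
    calc ‖a q‖ * ((q : ℕ) : ℝ) ^ (-1 - x)
        ≤ ((1 / (2 * L)) * ‖a q‖ ^ 2 + L / 2) * ((q : ℕ) : ℝ) ^ (-1 - x) :=
          mul_le_mul_of_nonneg_right h1 hw
      _ = _ := by ring
  have hsum : Summable (fun q : Nat.Primes => ‖a q‖ * ((q : ℕ) : ℝ) ^ (-1 - x)) :=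
    Summable.of_nonneg_of_le (fun q => by positivity) hle hmaj
  refine ⟨hsum, ?_, ?_⟩
  · have h1 := hsum.tsum_le_tsum hle hmaj
    rw [(hs.mul_left _).tsum_add (hsp.mul_left _), tsum_mul_left, tsum_mul_left] at h1
    have h2 : (1 / (2 * L)) * ∑' p : Nat.Primes, ‖a p‖ ^ 2 * ((p : ℕ) : ℝ) ^ (-1 - x) ≤
        (1 / (2 * L)) * (max C D * L ^ 3) := by
      apply mul_le_mul_of_nonneg_left _ (by positivity)
      exact hb'.trans (mul_le_mul_of_nonneg_right hm1 (by positivity))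
    have h3 : (L / 2) * ∑' q : Nat.Primes, ((q : ℕ) : ℝ) ^ (-1 - x) ≤
        (L / 2) * (max C D * L) := by
      apply mul_le_mul_of_nonneg_left _ (by positivity)
      exact hdp.trans (mul_le_mul_of_nonneg_right hm2 (by positivity))
    have h4 : (1 / (2 * L)) * (max C D * L ^ 3) + (L / 2) * (max C D * L) =
        max C D * L ^ 2 := by
      field_simp
      ring
    linarith
  · exact hdp.trans (mul_le_mul_of_nonneg_right hm2 (by positivity))

end

end Pool.Agent.SelQ
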