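import Pool.Agent.SelQ.TargetsC

/-!
# C13 THI: the exceptional set is thin
-/

set_option autoImplicit false

namespace Pool.Agent.SelQ

namespace THI_

/-- the weight of the block with number `N` -/
noncomputable def w (N₃ N : ℕ) : ℝ :=
  Real.exp (((N₃ : ℝ) ^ 2 + 1) / 2) * Real.exp (-((N : ℝ) - 1) ^ 2 / 2)

theorem w_pos (N₃ N : ℕ) : 0 < w N₃ N := by
  unfold w
  positivity

theorem w_sum (N₃ : ℕ) (C : ℝ) : Summable (fun N : ℕ => |C| * 4 ^ N * w N₃ N) := by
  have h1 : Summable (fun N : ℕ =>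
      |C| * Real.exp (((N₃ : ℝ) ^ 2 + 1) / 2) * Real.exp (15 / 2) * Real.exp (-(N : ℝ))) := by
    have := Real.summable_exp_neg_nat
    exact this.mul_left _
  refine Summable.of_nonneg_of_le (fun N => ?_) (fun N => ?_) h1
  · have := w_pos N₃ N
    positivity
  · unfold w
    have e4 : (4 : ℝ) ^ N ≤ Real.exp (2 * N) := by
      have h4 : (4 : ℝ) ≤ Real.exp 2 := by
        have h2 : Real.exp 2 = Real.exp 1 * Real.exp 1 := by
          rw [← Real.exp_add]
          norm_num
        have h3 : (2 : ℝ) ≤ Real.exp 1 := by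
          have := Real.add_one_le_exp (1 : ℝ)
          linarith
        rw [h2]
        nlinarith
      calc (4 : ℝ) ^ N ≤ (Real.exp 2) ^ N := pow_le_pow_left₀ (by norm_num) h4 N
        _ = Real.exp (2 * N) := by
            rw [← Real.exp_nat_mul]
            congr 1
            ring
    have e5 : Real.exp (2 * N) * Real.exp (-((N : ℝ) - 1) ^ 2 / 2) ≤
        Real.exp (15 / 2) * Real.exp (-(N : ℝ)) := by
      rw [← Real.exp_add, ← Real.exp_add]
      apply Real.exp_le_exp.2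
      have := sq_nonneg ((N : ℝ) - 4)
      nlinarith
    have e6 : (4 : ℝ) ^ N * Real.exp (-((N : ℝ) - 1) ^ 2 / 2) ≤
        Real.exp (15 / 2) * Real.exp (-(N : ℝ)) :=
      (mul_le_mul_of_nonneg_right e4 (Real.exp_pos _).le).trans e5
    calc |C| * 4 ^ N * (Real.exp (((N₃ : ℝ) ^ 2 + 1) / 2) * Real.exp (-((N : ℝ) - 1) ^ 2 / 2))
        = |C| * Real.exp (((N₃ : ℝ) ^ 2 + 1) / 2) *
          ((4 : ℝ) ^ N * Real.exp (-((N : ℝ) - 1) ^ 2 / 2)) := by ring
      _ ≤ |C| * Real.exp (((N₃ : ℝ) ^ 2 + 1) / 2) *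
          (Real.exp (15 / 2) * Real.exp (-(N : ℝ))) :=
          mul_le_mul_of_nonneg_left e6 (by positivity)
      _ = _ := by ring

theorem exN {B : ℕ} (hB : 2 ≤ B) (N₃ n : ℕ) : ∃ N : ℕ, N₃ ≤ N ∧ (n : ℝ) ≤ YY B N := by
  refine ⟨max N₃ n, le_max_left _ _, ?_⟩
  unfold YY
  have h1 : (n : ℝ) ≤ ((max N₃ n : ℕ) : ℝ) := by exact_mod_cast le_max_right N₃ n
  have h2 : ((max N₃ n : ℕ) : ℝ) ≤ ((max N₃ n : ℕ) : ℝ) ^ B := by
    have : max N₃ n ≤ (max N₃ n) ^ B := Nat.le_self_pow (by omega) _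
    exact_mod_cast this
  have h3 := Real.add_one_le_exp (((max N₃ n : ℕ) : ℝ) ^ B)
  linarith

end THI_

open THI_ in
/-- C13 THI. -/
theorem p_THI : T_THI := by
  classical
  intro B N₃ C act E hB hcard hE
  refine ⟨1 / 2, by norm_num, ?_⟩
  have hg : ∀ n : ℕ, ∃ N : ℕ, N₃ ≤ N ∧ (n : ℝ) ≤ YY B N := fun n => exN hB N₃ n
  set g : ℕ → ℕ := fun n => Nat.find (hg n) with hgd
  have hg1 : ∀ n, N₃ ≤ g n ∧ (n : ℝ) ≤ YY B (g n) := fun n => Nat.find_spec (hg n)
  have hle : ∀ n ∈ E, (n : ℝ) ^ (-(1 / 2 : ℝ)) ≤ w N₃ (g n) := by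
    intro n hn
    have hp := (hE n hn).1
    have hn1 : (1 : ℝ) ≤ n := by exact_mod_cast hp.one_le
    have hn0 : (0 : ℝ) < n := by linarith
    rcases Nat.eq_or_lt_of_le (hg1 n).1 with h | h
    · have h1 : (n : ℝ) ^ (-(1 / 2 : ℝ)) ≤ 1 :=
        Real.rpow_le_one_of_one_le_of_nonpos hn1 (by norm_num)
      refine h1.trans ?_
      rw [← h]
      unfold w
      rw [← Real.exp_add]
      apply Real.one_le_exp
      have : (0 : ℝ) ≤ N₃ := Nat.cast_nonneg _
      nlinarith
    · obtain ⟨M, hM⟩ : ∃ M, g n = M + 1 := ⟨g n - 1, by omega⟩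
      have hnot : ¬ (N₃ ≤ M ∧ (n : ℝ) ≤ YY B M) := by
        apply Nat.find_min (hg n)
        change M < g n
        omega
      have hlt : YY B M < n := by
        by_contra hc
        exact hnot ⟨by omega, not_lt.1 hc⟩
      have hM2 : (M : ℝ) ^ 2 ≤ (M : ℝ) ^ B := by
        have : M ^ 2 ≤ M ^ B := by
          rcases Nat.eq_zero_or_pos M with h0 | h0
          · subst h0
            simp
          · exact Nat.pow_le_pow_right h0 hB
        exact_mod_cast this
      have hexp : Real.exp ((M : ℝ) ^ 2) ≤ n := by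
        refine le_trans (Real.exp_le_exp.2 hM2) ?_
        unfold YY at hlt
        exact hlt.le
      have h2 : (n : ℝ) ^ (-(1 / 2 : ℝ)) ≤ Real.exp (-(M : ℝ) ^ 2 / 2) := by
        calc (n : ℝ) ^ (-(1 / 2 : ℝ)) ≤ (Real.exp ((M : ℝ) ^ 2)) ^ (-(1 / 2 : ℝ)) :=
              Real.rpow_le_rpow_of_nonpos (Real.exp_pos _) hexp (by norm_num)
          _ = Real.exp (-(M : ℝ) ^ 2 / 2) := by
              rw [← Real.exp_mul]
              congr 1
              ring
      refine h2.trans ?_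
      rw [hM]
      unfold w
      rw [← Real.exp_add]
      apply Real.exp_le_exp.2
      push_cast
      have : (0 : ℝ) ≤ (N₃ : ℝ) ^ 2 := by positivity
      have e : ((M : ℝ) + 1 - 1) = M := by ring
      rw [e]
      linarith
  have hsum := w_sum N₃ C
  refine summable_of_sum_le (c := ∑' N : ℕ, |C| * 4 ^ N * w N₃ N) ?_ ?_
  · intro n
    apply Set.indicator_nonneg
    intro n _
    positivity
  · intro u
    set u' : Finset ℕ := u.filter (fun n => n ∈ E) with hu'
    have h1 : ∑ n ∈ u, E.indicator (fun n : ℕ => (n : ℝ) ^ (-(1 / 2 : ℝ))) n =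
        ∑ n ∈ u', (n : ℝ) ^ (-(1 / 2 : ℝ)) := by
      rw [hu', Finset.sum_filter]
      refine Finset.sum_congr rfl fun n _ => ?_
      by_cases hn : n ∈ E
      · rw [Set.indicator_of_mem hn, if_pos hn]
      · rw [Set.indicator_of_notMem hn, if_neg hn]
    rw [h1]
    calc ∑ n ∈ u', (n : ℝ) ^ (-(1 / 2 : ℝ)) ≤ ∑ n ∈ u', w N₃ (g n) := by
          refine Finset.sum_le_sum fun n hn => ?_
          rw [hu', Finset.mem_filter] at hn
          exact hle n hn.2
      _ = ∑ N ∈ u'.image g, (u'.filter (fun n => g n = N)).card • w N₃ N :=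
          Finset.sum_comp _ _
      _ ≤ ∑ N ∈ u'.image g, |C| * 4 ^ N * w N₃ N := by
          refine Finset.sum_le_sum fun N hN => ?_
          rw [nsmul_eq_mul]
          apply mul_le_mul_of_nonneg_right _ (w_pos _ _).le
          obtain ⟨m, _, hm⟩ := Finset.mem_image.1 hN
          have hN3 : N₃ ≤ N := by
            rw [← hm]
            exact (hg1 m).1
          refine (hcard N hN3 _ ?_).trans ?_
          · intro p hp
            rw [Finset.mem_filter, hu', Finset.mem_filter] at hp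
            obtain ⟨⟨_, hpE⟩, hgp⟩ := hp
            have hle2 : (p : ℝ) ≤ YY B N := by
              rw [← hgp]
              exact (hg1 p).2
            exact ⟨(hE p hpE).1, hle2, (hE p hpE).2 N hN3 hle2⟩
          · apply mul_le_mul_of_nonneg_right (le_abs_self C) (by positivity)
      _ ≤ ∑' N : ℕ, |C| * 4 ^ N * w N₃ N := by
          apply hsum.sum_le_tsum
          intro N _
          have := w_pos N₃ N
          positivity

end Pool.Agent.SelQ
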