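import Pool.Agent.SelQ.TargetsI
import Pool.Agent.SelDeg2.TW

/-!
# Degree 2 without the mean square bound: THQ, theorem Q (assembly)
-/

set_option autoImplicit false

open Finset

namespace Pool.Agent.SelQ

open Pool.Agent.SelTwo (DegreeTwo)
open Pool.Agent.SelPole (IsSelberg)

theorem p_THQ (hINV : T_INV) (hQTS : T_QTS) : T_THQ := by
  intro F a b hS hD
  obtain ⟨Q, k, l, m, w, hFE, hl⟩ := hD
  have hl' : ∑ j, l j = 1 := by linarith
  obtain ⟨as, κ, lam0, hκ, hlam0, has, hInv⟩ := hINV F a b Q k l m w hS hFE hl'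
  have hMF : MF (fun n => ‖a n‖) := by
    refine ⟨fun n => norm_nonneg _, ?_, fun m n hmn => ?_, fun ε hε => ?_⟩
    · simp only [hS.a_one, norm_one]
    · simp only [Pool.Agent.SelDeg2.p_MUL F a b hS m n hmn, norm_mul]
    · exact hS.ramanujan ε hε
  exact hQTS a as κ lam0 hMF has hκ hlam0 hInv

end Pool.Agent.SelQ
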