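import Pool.Agent.SelQ.TargetsU
import Pool.Agent.SelDeg2.DREL

/-! The modular relation of Dirichlet series, uniformly: assembly (UDF). -/

set_option autoImplicit false

namespace Pool.Agent.SelQ

open Complex Filter Topology MeasureTheory
open Pool.Agent.SelTwo (lam pX vl cj tw gP FEq)
open Pool.Agent.SelDeg2 (ee gth SS Drel ContM)
open Pool.Agent.SelPole (IsSelberg)

noncomputable section

namespace UDF_

theorem alpha_le {α : ℝ} (hα : 0 < α) (hα1 : α ≤ 1) :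
    (1 + α + 1 / α) ^ 2 ≤ 9 * (1 / α) ^ 2 := by
  have h1 : 1 ≤ 1 / α := by
    rw [le_div_iff₀ hα]
    linarith
  have h2 : 1 + α + 1 / α ≤ 3 * (1 / α) := by linarith
  calc (1 + α + 1 / α) ^ 2 ≤ (3 * (1 / α)) ^ 2 := by
        have h0 : 0 ≤ 1 + α + 1 / α := by positivity
        gcongr
    _ = 9 * (1 / α) ^ 2 := by ring

end UDF_

open UDF_ in
theorem p_UDF (hRLU : T_RLU) (hD1 : Pool.Agent.SelDeg2.T_DREL1) (hDRU : T_DRU) : T_UDF := by
  intro F a b Q k l m w hS hFE hl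
  obtain ⟨M, g, hg, hgo, hgF⟩ := hS.continuation
  obtain ⟨A, q, C, hA, hq, hC0, hrel⟩ := hRLU F M a Q k l m w hS.summable hS.eq_series
    ⟨g, hg, hgo, hgF⟩ hFE hl
  obtain ⟨A₁, hA₁⟩ := hS.ramanujan (1 / 2) (by norm_num)
  set θ : ℝ := 2 * ∑ j, (m j).im with hθ
  have hpi : (Real.pi : ℂ) ≠ 0 := by exact_mod_cast Real.pi_ne_zero
  have hq0 : (q : ℂ) ≠ 0 := by exact_mod_cast hq.ne'
  refine ⟨q * A / (-(2 * Real.pi * I)) * (2 * Real.pi * I / q) ^ (-((θ : ℂ) * I)), 1 / q,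
    ⟨?_, by positivity, ?_⟩, ?_⟩
  · refine mul_ne_zero (div_ne_zero (mul_ne_zero hq0 hA) (neg_ne_zero.2
      (mul_ne_zero (mul_ne_zero two_ne_zero hpi) I_ne_zero))) ?_
    have h2 : (2 * Real.pi * I / q : ℂ) ≠ 0 :=
      div_ne_zero (mul_ne_zero (mul_ne_zero two_ne_zero hpi) I_ne_zero) hq0
    rw [Complex.cpow_def_of_ne_zero h2]
    exact Complex.exp_ne_zero _
  · intro α hα
    obtain ⟨C', hC'⟩ := hD1 a A₁ A q θ α (C * (1 + α + 1 / α) ^ 2) hA₁ hS.summable hq hα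
      (hrel α hα)
    refine ⟨C', fun η hη hη1 => ?_⟩
    have h3 := hC' η hη hη1
    have e1 : α ^ 2 / (1 / q) = q * α ^ 2 := by field_simp
    have e2 : 1 / q / α = 1 / (q * α) := by field_simp
    rw [e1, e2]
    exact h3
  · obtain ⟨C', hC'⟩ := hDRU a A₁ A q θ (9 * C) hA₁ hS.summable hq (by positivity)
      (by
        intro α hα hα1 y hy hy1
        refine (hrel α hα y hy hy1).trans ?_
        have h1 := alpha_le hα hα1
        have h2 : 0 ≤ y ^ (-(3 / 4) : ℝ) := Real.rpow_nonneg hy.le _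
        have h3 : C * (1 + α + 1 / α) ^ 2 ≤ 9 * C * (1 / α) ^ 2 := by
          calc C * (1 + α + 1 / α) ^ 2 ≤ C * (9 * (1 / α) ^ 2) := by gcongr
            _ = 9 * C * (1 / α) ^ 2 := by ring
        exact mul_le_mul_of_nonneg_right h3 h2)
    refine ⟨C', 5, fun α η hα hα1 hη hη1 => ?_⟩
    have h3 := hC' α η hα hα1 hη hη1
    have e1 : α ^ 2 / (1 / q) = q * α ^ 2 := by field_simp
    have e2 : 1 / q / α = 1 / (q * α) := by field_simp
    rw [e1, e2]
    exact h3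

end

end Pool.Agent.SelQ
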