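import Pool.Agent.SelQ.TargetsD

/-!
# UNI: sets of primes and unitary divisors
-/

set_option autoImplicit false

open Finset

namespace Pool.Agent.SelQ

namespace UNI_

theorem mem_win {R : ℕ} {u : ℝ} {B S : Finset ℕ} :
    S ∈ win R u B ↔ S ⊆ B ∧ S.card = R ∧ u ≤ Real.log (∏ p ∈ S, (p : ℝ)) ∧
      Real.log (∏ p ∈ S, (p : ℝ)) < u + 1 := by
  unfold win
  rw [Finset.mem_filter, Finset.mem_powersetCard]
  tauto

theorem win_eq {R : ℕ} {u : ℝ} {B Q : Finset ℕ} (h : B ⊆ Q) :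
    win R u B = (win R u Q).filter (fun S => S ⊆ B) := by
  ext S
  rw [Finset.mem_filter, mem_win, mem_win]
  constructor
  · rintro ⟨h1, h2⟩
    exact ⟨⟨h1.trans h, h2⟩, h1⟩
  · rintro ⟨⟨_, h2⟩, h1⟩
    exact ⟨h1, h2⟩

/-- a prime which divides a product of primes is one of them -/
theorem mem_of_dvd {S : Finset ℕ} (hS : ∀ p ∈ S, p.Prime) {q : ℕ} (hq : q.Prime)
    (h : q ∣ ∏ p ∈ S, p) : q ∈ S := by
  rw [hq.prime.dvd_finsetProd_iff] at h
  obtain ⟨p, hp, hqp⟩ := h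
  rwa [(Nat.prime_dvd_prime_iff_eq hq (hS p hp)).mp hqp]

theorem unitary_iff {S Q : Finset ℕ} (hQ : ∀ p ∈ Q, p.Prime) (hS : S ⊆ Q) (n : ℕ) :
    ((∏ p ∈ S, p) ∣ n ∧ (∏ p ∈ S, p).Coprime (n / ∏ p ∈ S, p)) ↔ S ⊆ ex Q n := by
  have hSp : ∀ p ∈ S, p.Prime := fun p hp => hQ p (hS hp)
  constructor
  · rintro ⟨h1, h2⟩ p hp
    unfold ex
    rw [Finset.mem_filter]
    have hpS : p ∣ ∏ q ∈ S, q := Finset.dvd_prod_of_mem (fun q => q) hp
    refine ⟨hS hp, hpS.trans h1, ?_⟩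
    intro h3
    obtain ⟨m, hm⟩ := h1
    have hpos : 0 < ∏ q ∈ S, q := Finset.prod_pos (fun q hq => (hSp q hq).pos)
    rw [hm, Nat.mul_div_cancel_left _ hpos] at h2
    have h4 : ∏ q ∈ S, q = p * ∏ q ∈ S.erase p, q := (Finset.mul_prod_erase S _ hp).symm
    rw [hm, h4, sq, mul_assoc] at h3
    have h5 : p ∣ (∏ q ∈ S.erase p, q) * m := Nat.dvd_of_mul_dvd_mul_left (hSp p hp).pos h3
    rcases (hSp p hp).dvd_mul.mp h5 with h6 | h6
    · have := mem_of_dvd (fun q hq => hSp q (Finset.mem_of_mem_erase hq)) (hSp p hp) h6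
      exact absurd this (Finset.notMem_erase p S)
    · have := Nat.Coprime.eq_one_of_dvd (Nat.Coprime.coprime_dvd_left hpS h2) h6
      exact (hSp p hp).one_lt.ne' this
  · intro h
    have h1 : ∀ p ∈ S, p ∣ n ∧ ¬ p ^ 2 ∣ n := by
      intro p hp
      have := h hp
      unfold ex at this
      rw [Finset.mem_filter] at this
      exact this.2
    have hdvd : (∏ p ∈ S, p) ∣ n :=
      Finset.prod_primes_dvd n (fun p hp => (hSp p hp).prime) (fun p hp => (h1 p hp).1)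
    refine ⟨hdvd, ?_⟩
    by_contra hcop
    rw [Nat.Prime.not_coprime_iff_dvd] at hcop
    obtain ⟨q, hq, hq1, hq2⟩ := hcop
    have hqS := mem_of_dvd hSp hq hq1
    apply (h1 q hqS).2
    have h3 : q * q ∣ (∏ p ∈ S, p) * (n / ∏ p ∈ S, p) := Nat.mul_dvd_mul hq1 hq2
    rw [Nat.mul_div_cancel' hdvd] at h3
    rwa [sq]

theorem w_prod {w : ℕ → ℝ} (hw : WF w) : ∀ S : Finset ℕ, (∀ p ∈ S, p.Prime) →
    w (∏ p ∈ S, p) = ∏ p ∈ S, w p := by
  intro S
  induction S using Finset.induction_on with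
  | empty =>
    intro _
    simpa using hw.one
  | insert p S hp ih =>
    intro hS
    have hS' : ∀ q ∈ S, q.Prime := fun q hq => hS q (Finset.mem_insert_of_mem hq)
    have hpp := hS p (Finset.mem_insert_self p S)
    rw [Finset.prod_insert hp, Finset.prod_insert hp, hw.mul, ih hS']
    rw [Nat.Prime.coprime_iff_not_dvd hpp]
    intro h
    exact hp (mem_of_dvd hS' hpp h)

end UNI_

theorem p_UNI : T_UNI := by
  intro Q R u hQ
  have hprime : ∀ S ∈ win R u Q, ∀ p ∈ S, p.Prime :=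
    fun S hS p hp => hQ p ((UNI_.mem_win.mp hS).1 hp)
  have hinj : Set.InjOn (fun S : Finset ℕ => ∏ p ∈ S, p) (win R u Q : Set (Finset ℕ)) := by
    intro A hA B hB hAB
    have h1 := Nat.primeFactors_prod (hprime A hA)
    have h2 := Nat.primeFactors_prod (hprime B hB)
    have h3 : ∏ p ∈ A, p = ∏ p ∈ B, p := hAB
    rw [← h1, ← h2, h3]
  refine ⟨(win R u Q).image (fun S => ∏ p ∈ S, p), ?_, ?_, ?_⟩
  · intro n _
    unfold fd
    rw [Finset.filter_image, Finset.card_image_of_injOn (hinj.mono (fun S hS => by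
      rw [Finset.mem_coe] at hS ⊢
      exact (Finset.mem_filter.mp hS).1)),
      UNI_.win_eq (B := ex Q n) (Q := Q) (Finset.filter_subset _ _)]
    congr 1
    apply Finset.filter_congr
    intro S hS
    exact UNI_.unitary_iff hQ (UNI_.mem_win.mp hS).1 n
  · intro w hw
    rw [Finset.sum_image hinj]
    apply Finset.sum_congr rfl
    intro S hS
    exact UNI_.w_prod hw S (hprime S hS)
  · intro d hd
    rw [Finset.mem_image] at hd
    obtain ⟨S, hS, rfl⟩ := hd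
    have h1 := UNI_.mem_win.mp hS
    have hpos : 0 < ∏ p ∈ S, (p : ℝ) := by
      apply Finset.prod_pos
      intro p hp
      exact_mod_cast (hprime S hS p hp).pos
    push_cast
    exact ⟨(Real.le_log_iff_exp_le hpos).mp h1.2.2.1, (Real.log_lt_iff_lt_exp hpos).mp h1.2.2.2⟩

end Pool.Agent.SelQ
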