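import Pool.Agent.SelQ.TargetsD

/-!
# Decorrelation (MP_995735_nt): upper recursion for the window sums
-/

set_option autoImplicit false

open Finset

namespace Pool.Agent.SelQ

namespace UPP_

theorem mem_win {R : ℕ} {u : ℝ} {B S : Finset ℕ} :
    S ∈ win R u B ↔ (S ⊆ B ∧ S.card = R) ∧ (u ≤ Real.log (∏ p ∈ S, (p : ℝ)) ∧
      Real.log (∏ p ∈ S, (p : ℝ)) < u + 1) := by
  unfold win
  rw [mem_filter, mem_powersetCard]

theorem inner (π : ℕ → ℝ) (Q : Finset ℕ) (j : ℕ) (hπ : ∀ p, 0 ≤ π p)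
    (hQ : ∀ p ∈ Q, 1 ≤ p) (u : ℝ) (p : ℕ) :
    ∑ S ∈ (win (j + 1) u Q).filter (fun S => p ∈ S), ∏ x ∈ S.erase p, π x ≤
      KK π Q j (u - Real.log p) := by
  have hinj : Set.InjOn (fun S : Finset ℕ => S.erase p)
      ((win (j + 1) u Q).filter (fun S => p ∈ S) : Set (Finset ℕ)) := by
    intro S hS S' hS' h
    rw [mem_coe, mem_filter] at hS hS'
    have h1 : insert p (S.erase p) = insert p (S'.erase p) := by
      change S.erase p = S'.erase p at h
      rw [h]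
    rwa [insert_erase hS.2, insert_erase hS'.2] at h1
  have h1 : ∑ S ∈ (win (j + 1) u Q).filter (fun S => p ∈ S), ∏ x ∈ S.erase p, π x =
      ∑ S ∈ ((win (j + 1) u Q).filter (fun S => p ∈ S)).image (fun S => S.erase p),
        ∏ x ∈ S, π x := by
    rw [sum_image hinj]
  rw [h1, KK]
  apply sum_le_sum_of_subset_of_nonneg
  · intro S' hS'
    rw [mem_image] at hS'
    obtain ⟨S, hS, rfl⟩ := hS'
    rw [mem_filter, mem_win] at hS
    obtain ⟨⟨⟨hsub, hcard⟩, hlo, hhi⟩, hp⟩ := hS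
    have hpos : ∀ x ∈ S, (0 : ℝ) < (x : ℝ) := by
      intro x hx
      have := hQ x (hsub hx)
      exact_mod_cast this
    have hprod : (p : ℝ) * ∏ x ∈ S.erase p, (x : ℝ) = ∏ x ∈ S, (x : ℝ) :=
      mul_prod_erase S (fun x => (x : ℝ)) hp
    have hpe : (0 : ℝ) < ∏ x ∈ S.erase p, (x : ℝ) :=
      prod_pos (fun x hx => hpos x (mem_of_mem_erase hx))
    have hlog : Real.log (∏ x ∈ S, (x : ℝ)) =
        Real.log p + Real.log (∏ x ∈ S.erase p, (x : ℝ)) := by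
      rw [← hprod, Real.log_mul (hpos p hp).ne' hpe.ne']
    rw [mem_win]
    refine ⟨⟨(erase_subset p S).trans hsub, ?_⟩, ?_, ?_⟩
    · rw [card_erase_of_mem hp, hcard]
      rfl
    · linarith
    · linarith
  · intro S _ _
    exact prod_nonneg (fun x _ => hπ x)

end UPP_

theorem p_UPP : T_UPP := by
  intro π Q j K hπ hQ hK u
  have h1 : (j + 1 : ℝ) * KK π Q (j + 1) u =
      ∑ S ∈ win (j + 1) u Q, ∑ p ∈ S, π p * ∏ x ∈ S.erase p, π x := by
    rw [KK, mul_sum]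
    refine sum_congr rfl (fun S hS => ?_)
    have hc : S.card = j + 1 := (UPP_.mem_win.1 hS).1.2
    rw [sum_congr rfl (fun p hp => mul_prod_erase S π hp), sum_const, hc, nsmul_eq_mul]
    push_cast
    ring
  have h2 : ∑ S ∈ win (j + 1) u Q, ∑ p ∈ S, π p * ∏ x ∈ S.erase p, π x =
      ∑ p ∈ Q, ∑ S ∈ (win (j + 1) u Q).filter (fun S => p ∈ S),
        π p * ∏ x ∈ S.erase p, π x := by
    apply sum_comm'
    intro S p
    rw [mem_filter]
    constructor
    · rintro ⟨hS, hp⟩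
      exact ⟨⟨hS, hp⟩, (UPP_.mem_win.1 hS).1.1 hp⟩
    · rintro ⟨⟨hS, hp⟩, _⟩
      exact ⟨hS, hp⟩
  rw [h1, h2, sum_mul]
  refine sum_le_sum (fun p _ => ?_)
  rw [← mul_sum]
  exact mul_le_mul_of_nonneg_left ((UPP_.inner π Q j hπ hQ u p).trans (hK _)) (hπ p)

end Pool.Agent.SelQ
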