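import Pool.Agent.SelQ.TargetsU
import Pool.Agent.SelDeg2.PT

set_option autoImplicit false

open Finset

namespace Pool.Agent.SelQ

open Complex
open Pool.Agent.SelTwo (lam pX vl cj tw gP FEq)
open Pool.Agent.SelDeg2

noncomputable section

namespace WBU_

lemma cpow_norm (z : ℂ) (hz : z ≠ 0) (θ : ℝ) :
    ‖z ^ (-((θ : ℂ) * I))‖ ≤ Real.exp (Real.pi * |θ|) := by
  rw [Complex.norm_cpow_of_ne_zero hz]
  have h1 : (-((θ : ℂ) * I)).re = 0 := by simp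
  have h2 : (-((θ : ℂ) * I)).im = -θ := by simp
  rw [h1, h2, Real.rpow_zero, one_div, ← Real.exp_neg]
  refine Real.exp_le_exp.2 ?_
  have h3 := Complex.abs_arg_le_pi z
  calc -(z.arg * -θ) = z.arg * θ := by ring
    _ ≤ |z.arg * θ| := le_abs_self _
    _ = |z.arg| * |θ| := abs_mul _ _
    _ ≤ Real.pi * |θ| := mul_le_mul_of_nonneg_right h3 (abs_nonneg _)

lemma W1_norm (A : ℂ) (q θ t : ℝ) (hq : 0 < q) :
    ‖PT_.Wc A q θ 1 (t : ℂ)‖ ≤ ‖A‖ * Real.exp (Real.pi * |θ|) := by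
  have hX0 := PT_.pX_ne (α := 1) one_pos t
  have hsl := PT_.slit hq (α := 1) one_pos t
  have hz : 4 * (Real.pi : ℂ) ^ 2 / (q * pX 1 t) ≠ 0 := Complex.slitPlane_ne_zero hsl
  have hW : PT_.Wc A q θ 1 (t : ℂ) = A / pX 1 t * (4 * (Real.pi : ℂ) ^ 2 / (q * pX 1 t)) ^
      (-((θ : ℂ) * I)) := rfl
  rw [hW, norm_mul, norm_div]
  have h1 : 1 ≤ ‖pX 1 t‖ := by
    have h2 := Complex.abs_im_le_norm (pX 1 t)
    rw [PT_.pX_im, abs_neg, mul_one, abs_of_pos (by positivity)] at h2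
    have := Real.pi_gt_three
    linarith
  have h3 := cpow_norm _ hz θ
  have h4 : ‖A‖ / ‖pX 1 t‖ ≤ ‖A‖ := div_le_self (norm_nonneg _) h1
  exact mul_le_mul h4 h3 (norm_nonneg _) (norm_nonneg _)

lemma scale (A : ℂ) (q θ α y : ℝ) (hq : 0 < q) (hα : 0 < α) :
    PT_.Wc A q θ α (y : ℂ) = ((1 / α : ℝ) : ℂ) * ((1 / α : ℝ) : ℂ) ^ (-((θ : ℂ) * I)) *
      PT_.Wc A q θ 1 ((y / α : ℝ) : ℂ) := by
  have hsl := PT_.slit hq (α := 1) one_pos (y / α)
  have hz : 4 * (Real.pi : ℂ) ^ 2 / (q * pX 1 (y / α)) ≠ 0 := Complex.slitPlane_ne_zero hsl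
  have hX1 := PT_.pX_ne (α := 1) one_pos (y / α)
  have hX2 := PT_.pX_ne hα y
  have hq0 : (q : ℂ) ≠ 0 := by exact_mod_cast hq.ne'
  have hα0 : (α : ℂ) ≠ 0 := by exact_mod_cast hα.ne'
  have hpi0 : (Real.pi : ℂ) ≠ 0 := by exact_mod_cast Real.pi_ne_zero
  have e1 : pX α y = α * pX 1 (y / α) := by
    unfold pX
    push_cast
    field_simp
  have e2 : 4 * (Real.pi : ℂ) ^ 2 / (q * pX α y) =
      ((1 / α : ℝ) : ℂ) * (4 * (Real.pi : ℂ) ^ 2 / (q * pX 1 (y / α))) := by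
    rw [e1]
    push_cast
    field_simp
  have hW : PT_.Wc A q θ α (y : ℂ) = A / pX α y * (4 * (Real.pi : ℂ) ^ 2 / (q * pX α y)) ^
      (-((θ : ℂ) * I)) := rfl
  have hW1 : PT_.Wc A q θ 1 ((y / α : ℝ) : ℂ) = A / pX 1 (y / α) *
      (4 * (Real.pi : ℂ) ^ 2 / (q * pX 1 (y / α))) ^ (-((θ : ℂ) * I)) := rfl
  have hr : 0 < 1 / α := by positivity
  have hr0 : ((1 / α : ℝ) : ℂ) ≠ 0 := by exact_mod_cast hr.ne'
  have e3 : (4 * (Real.pi : ℂ) ^ 2 / (q * pX α y)) ^ (-((θ : ℂ) * I)) =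
      ((1 / α : ℝ) : ℂ) ^ (-((θ : ℂ) * I)) *
      (4 * (Real.pi : ℂ) ^ 2 / (q * pX 1 (y / α))) ^ (-((θ : ℂ) * I)) := by
    rw [e2, Complex.cpow_def_of_ne_zero (mul_ne_zero hr0 hz),
      Complex.cpow_def_of_ne_zero hr0, Complex.cpow_def_of_ne_zero hz,
      Complex.log_ofReal_mul hr hz, ← Complex.exp_add, Complex.ofReal_log hr.le]
    congr 1
    ring
  rw [hW, hW1, e3, e1]
  push_cast
  field_simp

lemma Wzero (A : ℂ) (q θ α : ℝ) (hq : 0 < q) (hα : 0 < α) :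
    PT_.Wc A q θ α ((0 : ℝ) : ℂ) = A / (-(2 * Real.pi * I * α)) *
      (2 * Real.pi * I / (q * α)) ^ (-((θ : ℂ) * I)) := by
  have hq0 : (q : ℂ) ≠ 0 := by exact_mod_cast hq.ne'
  have hα0 : (α : ℂ) ≠ 0 := by exact_mod_cast hα.ne'
  have hpi0 : (Real.pi : ℂ) ≠ 0 := by exact_mod_cast Real.pi_ne_zero
  unfold PT_.Wc
  have e1 : 2 * (Real.pi : ℂ) * (((0 : ℝ) : ℂ) - I * α) = -(2 * Real.pi * I * α) := by
    push_cast
    ring
  have e2 : 4 * (Real.pi : ℂ) ^ 2 / (q * -(2 * Real.pi * I * α)) =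
      2 * Real.pi * I / (q * α) := by
    have hI : I ≠ 0 := Complex.I_ne_zero
    rw [div_eq_div_iff (by
      apply mul_ne_zero hq0
      rw [neg_ne_zero]
      exact mul_ne_zero (mul_ne_zero (mul_ne_zero two_ne_zero hpi0) hI) hα0)
      (mul_ne_zero hq0 hα0)]
    have hII : I * I = -1 := Complex.I_mul_I
    linear_combination (4 * (Real.pi : ℂ) ^ 2 * q * α) * hII
  rw [e1, e2]

end WBU_

open WBU_ in
theorem p_WBU : T_WBU := by
  intro A q θ hq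
  obtain ⟨K, hK0, hK⟩ := PT_.W_bounds A q θ 1 hq one_pos
  set B : ℝ := ‖A‖ * Real.exp (Real.pi * |θ|) with hB
  have hB0 : 0 ≤ B := by positivity
  have hdiff : ∀ t : ℝ, 0 < t →
      ‖PT_.Wc A q θ 1 (t : ℂ) - PT_.Wc A q θ 1 ((0 : ℝ) : ℂ)‖ ≤ (K + 2 * B) * t := by
    intro t ht
    by_cases h1 : t ≤ 1
    · refine le_trans (hK t ht h1).2 ?_
      nlinarith
    · have h2 := W1_norm A q θ t hq
      have h3 := W1_norm A q θ 0 hq
      refine le_trans (norm_sub_le _ _) ?_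
      push Not at h1
      nlinarith
  set U : ℝ := Real.exp (Real.pi * |θ|) with hU
  have hU0 : 0 ≤ U := by positivity
  refine ⟨U * (K + 3 * B), by positivity, ?_⟩
  intro α hα hα1 y hy hy1
  have hr : 0 < 1 / α := by positivity
  have hr1 : 1 ≤ 1 / α := by rw [le_div_iff₀ hα]; linarith
  have hr0 : ((1 / α : ℝ) : ℂ) ≠ 0 := by exact_mod_cast hr.ne'
  have hn : ‖((1 / α : ℝ) : ℂ) * ((1 / α : ℝ) : ℂ) ^ (-((θ : ℂ) * I))‖ ≤ 1 / α * U := by
    rw [norm_mul, Complex.norm_real, Real.norm_of_nonneg hr.le]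
    exact mul_le_mul_of_nonneg_left (cpow_norm _ hr0 θ) hr.le
  have hWy : A / pX α y * (4 * (Real.pi : ℂ) ^ 2 / (q * pX α y)) ^ (-((θ : ℂ) * I)) =
      PT_.Wc A q θ α (y : ℂ) := rfl
  rw [hWy, ← Wzero A q θ α hq hα, scale A q θ α y hq hα, scale A q θ α 0 hq hα, zero_div,
    ← mul_sub]
  have hr2 : 1 / α ≤ (1 / α) ^ 2 := by nlinarith
  constructor
  · rw [norm_mul]
    calc _ ≤ (1 / α * U) * B :=
          mul_le_mul hn (W1_norm A q θ _ hq) (norm_nonneg _) (by positivity)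
      _ = (U * B) * (1 / α) := by ring
      _ ≤ (U * B) * (1 / α) ^ 2 := mul_le_mul_of_nonneg_left hr2 (by positivity)
      _ ≤ U * (K + 3 * B) * (1 / α) ^ 2 := by
          refine mul_le_mul_of_nonneg_right ?_ (by positivity)
          refine mul_le_mul_of_nonneg_left ?_ hU0
          linarith
  · rw [norm_mul]
    calc _ ≤ (1 / α * U) * ((K + 2 * B) * (y / α)) :=
          mul_le_mul hn (hdiff _ (by positivity)) (norm_nonneg _) (by positivity)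
      _ = U * (K + 2 * B) * (1 / α) ^ 2 * y := by ring
      _ ≤ U * (K + 3 * B) * (1 / α) ^ 2 * y := by
          refine mul_le_mul_of_nonneg_right (mul_le_mul_of_nonneg_right ?_ (by positivity)) hy.le
          refine mul_le_mul_of_nonneg_left ?_ hU0
          linarith

end

end Pool.Agent.SelQ
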