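import Pool.Agent.SelQ.TargetsD

/-!
# D16 WCP: properties of the weights
-/

set_option autoImplicit false

open Finset

namespace Pool.Agent.SelQ

namespace WCP_

theorem C_ge {c : ℕ → ℝ} (hc : MF c) {C ε : ℝ} (hC : ∀ n : ℕ, 1 ≤ n → c n ≤ C * (n : ℝ) ^ ε) :
    1 ≤ C := by
  have := hC 1 le_rfl
  rw [hc.one] at this
  simpa using this

theorem wc_nn {c : ℕ → ℝ} (η : ℝ) (n : ℕ) : 0 ≤ wc c η n := by
  unfold wc
  have : 0 ≤ (n : ℝ) ^ (-1 - η) := Real.rpow_nonneg (Nat.cast_nonneg n) _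
  positivity

theorem wc_one {c : ℕ → ℝ} (hc : MF c) (η : ℝ) : wc c η 1 = 1 := by
  unfold wc
  rw [hc.one]
  simp

theorem summ {c : ℕ → ℝ} (hc : MF c) {η : ℝ} (hη : 0 < η) (k : ℕ) :
    Summable (fun n : ℕ => c n * c (n + k) * (n : ℝ) ^ (-1 - η)) := by
  obtain ⟨C, hC⟩ := hc.small (η / 4) (by positivity)
  have hC1 := C_ge hc hC
  have hs : Summable (fun n : ℕ => C * (C * (1 + k : ℝ) ^ (η / 4)) *
      (n : ℝ) ^ (-1 - η / 2)) :=
    (Real.summable_nat_rpow.2 (by linarith)).mul_left _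
  refine Summable.of_nonneg_of_le (fun n => ?_) (fun n => ?_) hs
  · have h1 := hc.nn n
    have h2 := hc.nn (n + k)
    have : 0 ≤ (n : ℝ) ^ (-1 - η) := Real.rpow_nonneg (Nat.cast_nonneg n) _
    positivity
  · rcases Nat.eq_zero_or_pos n with hn | hn
    · subst hn
      rw [Nat.cast_zero, Real.zero_rpow (by linarith), mul_zero]
      have : 0 ≤ (0 : ℝ) ^ (-1 - η / 2) := Real.rpow_nonneg le_rfl _
      positivity
    · have hn1 : (1 : ℝ) ≤ n := by exact_mod_cast hn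
      have hn0 : (0 : ℝ) < n := by linarith
      have h1 := hC n hn
      have h2 := hC (n + k) (by omega)
      have h3 : ((n + k : ℕ) : ℝ) ^ (η / 4) ≤ (1 + k : ℝ) ^ (η / 4) * (n : ℝ) ^ (η / 4) := by
        rw [← Real.mul_rpow (by positivity) hn0.le]
        apply Real.rpow_le_rpow (by positivity) _ (by positivity)
        push_cast
        have : (0 : ℝ) ≤ k := Nat.cast_nonneg k
        nlinarith
      have h4 : c (n + k) ≤ C * ((1 + k : ℝ) ^ (η / 4) * (n : ℝ) ^ (η / 4)) :=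
        h2.trans (mul_le_mul_of_nonneg_left h3 (by linarith))
      have h5 : c n * c (n + k) ≤ (C * (n : ℝ) ^ (η / 4)) *
          (C * ((1 + k : ℝ) ^ (η / 4) * (n : ℝ) ^ (η / 4))) :=
        mul_le_mul h1 h4 (hc.nn _) (by positivity)
      calc c n * c (n + k) * (n : ℝ) ^ (-1 - η)
          ≤ (C * (n : ℝ) ^ (η / 4)) *
          (C * ((1 + k : ℝ) ^ (η / 4) * (n : ℝ) ^ (η / 4))) * (n : ℝ) ^ (-1 - η) :=
            mul_le_mul_of_nonneg_right h5 (by positivity)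
        _ = C * (C * (1 + k : ℝ) ^ (η / 4)) *
          ((n : ℝ) ^ (η / 4) * (n : ℝ) ^ (η / 4) * (n : ℝ) ^ (-1 - η)) := by ring
        _ = C * (C * (1 + k : ℝ) ^ (η / 4)) * (n : ℝ) ^ (-1 - η / 2) := by
            rw [← Real.rpow_add hn0, ← Real.rpow_add hn0]
            congr 2
            ring

theorem wf {c : ℕ → ℝ} (hc : MF c) {η : ℝ} (hη : 0 < η) : WF (wc c η) where
  nn := wc_nn η
  zero := by
    unfold wc
    rw [Nat.cast_zero, Real.zero_rpow (by linarith), mul_zero]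
  one := wc_one hc η
  mul := by
    intro m n h
    unfold wc
    rw [hc.mul m n h, Nat.cast_mul, Real.mul_rpow (Nat.cast_nonneg m) (Nat.cast_nonneg n)]
    ring
  sm := by
    have := summ hc hη 0
    refine this.congr fun n => ?_
    unfold wc
    rw [add_zero]
    ring

theorem pow_bd {c : ℕ → ℝ} (hc : MF c) {C : ℝ}
    (hC : ∀ n : ℕ, 1 ≤ n → c n ≤ C * (n : ℝ) ^ (1 / 8 : ℝ)) {η : ℝ} (hη : 0 < η) {p : ℕ}
    (hp : 1 ≤ p) (j : ℕ) : wc c η (p ^ j) ≤ C ^ 2 * ((p : ℝ) ^ (-(3 / 4) : ℝ)) ^ j := by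
  have hC1 := C_ge hc hC
  have hp1 : (1 : ℝ) ≤ p := by exact_mod_cast hp
  have hpj : 1 ≤ p ^ j := Nat.one_le_pow _ _ hp
  have hx : (1 : ℝ) ≤ ((p ^ j : ℕ) : ℝ) := by exact_mod_cast hpj
  have hx0 : (0 : ℝ) < ((p ^ j : ℕ) : ℝ) := by linarith
  have h1 := hC (p ^ j) hpj
  have h2 : c (p ^ j) ^ 2 ≤ (C * ((p ^ j : ℕ) : ℝ) ^ (1 / 8 : ℝ)) ^ 2 :=
    pow_le_pow_left₀ (hc.nn _) h1 2
  have h3 : ((p ^ j : ℕ) : ℝ) ^ (-(3 / 4) : ℝ) = ((p : ℝ) ^ (-(3 / 4) : ℝ)) ^ j := by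
    rw [Nat.cast_pow, ← Real.rpow_natCast, ← Real.rpow_natCast, ← Real.rpow_mul (by positivity),
      ← Real.rpow_mul (by positivity), mul_comm]
  calc wc c η (p ^ j) = c (p ^ j) ^ 2 * ((p ^ j : ℕ) : ℝ) ^ (-1 - η) := rfl
    _ ≤ (C * ((p ^ j : ℕ) : ℝ) ^ (1 / 8 : ℝ)) ^ 2 * ((p ^ j : ℕ) : ℝ) ^ (-1 - η) :=
        mul_le_mul_of_nonneg_right h2 (by positivity)
    _ = C ^ 2 * (((p ^ j : ℕ) : ℝ) ^ (1 / 8 : ℝ) * ((p ^ j : ℕ) : ℝ) ^ (1 / 8 : ℝ) *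
        ((p ^ j : ℕ) : ℝ) ^ (-1 - η)) := by ring
    _ = C ^ 2 * ((p ^ j : ℕ) : ℝ) ^ (1 / 8 + 1 / 8 + (-1 - η)) := by
        rw [← Real.rpow_add hx0, ← Real.rpow_add hx0]
    _ ≤ C ^ 2 * ((p ^ j : ℕ) : ℝ) ^ (-(3 / 4) : ℝ) := by
        apply mul_le_mul_of_nonneg_left _ (by positivity)
        apply Real.rpow_le_rpow_of_exponent_le hx
        linarith
    _ = C ^ 2 * ((p : ℝ) ^ (-(3 / 4) : ℝ)) ^ j := by rw [h3]

end WCP_

open WCP_ in
/-- D16 WCP. -/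
theorem p_WCP : T_WCP := by
  intro c hc
  refine ⟨fun η hη => wf hc hη, fun η hη k => summ hc hη k, ?_⟩
  obtain ⟨C, hC⟩ := hc.small (1 / 8) (by norm_num)
  have hC1 := C_ge hc hC
  refine ⟨⌈(2 * C ^ 2) ^ 2⌉₊ + 1, fun η hη p _ hp => ?_⟩
  have hp1 : 1 ≤ p := by omega
  have hpr : (1 : ℝ) ≤ p := by exact_mod_cast hp1
  have hp0 : (0 : ℝ) < p := by linarith
  set q : ℝ := (p : ℝ) ^ (-(3 / 4) : ℝ) with hq
  have hq0 : 0 < q := Real.rpow_pos_of_pos hp0 _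
  have hbig : (2 * C ^ 2) ^ 2 ≤ (p : ℝ) := by
    refine (Nat.le_ceil _).trans ?_
    have : ⌈(2 * C ^ 2) ^ 2⌉₊ ≤ p := by omega
    exact_mod_cast this
  have hsq : 2 * C ^ 2 ≤ (p : ℝ) ^ (3 / 4 : ℝ) := by
    have h1 : 2 * C ^ 2 ≤ √(p : ℝ) := Real.le_sqrt_of_sq_le hbig
    rw [Real.sqrt_eq_rpow] at h1
    exact h1.trans (Real.rpow_le_rpow_of_exponent_le hpr (by norm_num))
  have hqp : q * (p : ℝ) ^ (3 / 4 : ℝ) = 1 := by
    rw [hq, ← Real.rpow_add hp0]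
    norm_num
  have hCq : 2 * C ^ 2 * q ≤ 1 := by
    have := mul_le_mul_of_nonneg_left hsq hq0.le
    rw [hqp] at this
    linarith
  have hC2 : 1 ≤ C ^ 2 := by nlinarith
  have hqhalf : q ≤ 1 / 2 := by nlinarith
  have hbd : ∀ j : ℕ, wc c η (p ^ j) ≤ C ^ 2 * q ^ j := fun j => pow_bd hc hC hη hp1 j
  have hgeo : Summable (fun j : ℕ => C ^ 2 * q ^ j) :=
    (summable_geometric_of_lt_one hq0.le (by linarith)).mul_left _
  have hsum : Summable (fun j : ℕ => wc c η (p ^ j)) :=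
    Summable.of_nonneg_of_le (fun j => wc_nn η _) hbd hgeo
  refine ⟨?_, ?_, ?_⟩
  · have h1 := hbd 1
    rw [pow_one, pow_one] at h1
    linarith
  · have h1 := hsum.le_tsum 0 (fun j _ => wc_nn η _)
    rw [pow_zero, wc_one hc] at h1
    exact h1
  · rw [hsum.tsum_eq_zero_add, pow_zero, wc_one hc]
    have hgeo' : Summable (fun j : ℕ => C ^ 2 * q * q ^ j) :=
      (summable_geometric_of_lt_one hq0.le (by linarith)).mul_left _
    have h1 : ∑' j : ℕ, wc c η (p ^ (j + 1)) ≤ ∑' j : ℕ, C ^ 2 * q * q ^ j := by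
      apply Summable.tsum_le_tsum _ ((summable_nat_add_iff 1).2 hsum) hgeo'
      intro j
      refine (hbd (j + 1)).trans (le_of_eq ?_)
      ring
    rw [tsum_mul_left, tsum_geometric_of_lt_one hq0.le (by linarith)] at h1
    have h2 : (1 - q)⁻¹ ≤ 2 := by
      rw [inv_le_comm₀ (by linarith) (by norm_num)]
      linarith
    have h3 : C ^ 2 * q * (1 - q)⁻¹ ≤ C ^ 2 * q * 2 :=
      mul_le_mul_of_nonneg_left h2 (by positivity)
    linarith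

end Pool.Agent.SelQ
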