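import Pool.Agent.SelQ.TargetsE

/-!
# SelQ, WTS: Fourier bounds of the weights
-/

set_option autoImplicit false

open Finset

namespace Pool.Agent.SelQ

namespace WTS_

lemma dA {κ u v x : ℝ} (hx : x ≠ 0) : HasDerivAt (fun y : ℝ => (κ / y - u) * (v - κ / y))
    (κ / x ^ 2 * (2 * κ / x - (u + v))) x := by
  have h1 : HasDerivAt (fun y : ℝ => κ / y) (-(κ / x ^ 2)) x := by
    have h := (hasDerivAt_inv hx).const_mul κ
    refine (h.congr_deriv ?_).congr_of_eventuallyEq (Filter.Eventually.of_forall (fun y => ?_))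
    · ring
    · exact div_eq_mul_inv κ y
  have h2 := (h1.sub_const u).mul (h1.const_sub v)
  refine h2.congr_deriv ?_
  field_simp
  ring

lemma dA1 {κ u v x : ℝ} (hx : x ≠ 0) :
    HasDerivAt (fun y : ℝ => κ / y ^ 2 * (2 * κ / y - (u + v)))
    (-(6 * κ ^ 2 / x ^ 4) + 2 * κ * (u + v) / x ^ 3) x := by
  have h1 : HasDerivAt (fun y : ℝ => 2 * κ / y) (-(2 * κ / x ^ 2)) x := by
    have h := (hasDerivAt_inv hx).const_mul (2 * κ)
    refine (h.congr_deriv ?_).congr_of_eventuallyEq (Filter.Eventually.of_forall (fun y => ?_))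
    · ring
    · exact div_eq_mul_inv _ y
  have h2 : HasDerivAt (fun y : ℝ => κ / y ^ 2) (-(2 * κ / x ^ 3)) x := by
    have h := ((hasDerivAt_pow 2 x).fun_inv (pow_ne_zero 2 hx)).const_mul κ
    refine (h.congr_deriv ?_).congr_of_eventuallyEq (Filter.Eventually.of_forall (fun y => ?_))
    · field_simp
      norm_num
      ring
    · exact div_eq_mul_inv _ _
  have h3 := h2.mul (h1.sub_const (u + v))
  refine h3.congr_deriv ?_
  field_simp
  ring

lemma dP {κ η x : ℝ} (hκ : 0 < κ) (hx : 0 < x) :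
    HasDerivAt (fun y : ℝ => (κ / y ^ 2) ^ (1 + η))
    ((κ / x ^ 2) ^ (1 + η) * (-(2 + 2 * η) / x)) x := by
  have hx0 := hx.ne'
  have h2 : HasDerivAt (fun y : ℝ => κ / y ^ 2) (-(2 * κ / x ^ 3)) x := by
    have h := ((hasDerivAt_pow 2 x).fun_inv (pow_ne_zero 2 hx0)).const_mul κ
    refine (h.congr_deriv ?_).congr_of_eventuallyEq (Filter.Eventually.of_forall (fun y => ?_))
    · field_simp
      norm_num
      ring
    · exact div_eq_mul_inv _ _
  have hc : κ / x ^ 2 ≠ 0 := by positivity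
  have h3 := h2.rpow_const (p := 1 + η) (Or.inl hc)
  refine h3.congr_deriv ?_
  have h4 : (κ / x ^ 2) ^ (1 + η) = (κ / x ^ 2) ^ (1 + η - 1) * (κ / x ^ 2) := by
    have h5 := Real.rpow_add_one hc (1 + η - 1)
    rw [← h5]
    congr 1
    ring
  rw [h4]
  field_simp

lemma dP1 {κ η x : ℝ} (hκ : 0 < κ) (hx : 0 < x) :
    HasDerivAt (fun y : ℝ => (κ / y ^ 2) ^ (1 + η) * (-(2 + 2 * η) / y))
    ((κ / x ^ 2) ^ (1 + η) * ((2 + 2 * η) * (3 + 2 * η) / x ^ 2)) x := by
  have hx0 := hx.ne'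
  have h1 : HasDerivAt (fun y : ℝ => -(2 + 2 * η) / y) ((2 + 2 * η) / x ^ 2) x := by
    have h := (hasDerivAt_inv hx0).const_mul (-(2 + 2 * η))
    refine (h.congr_deriv ?_).congr_of_eventuallyEq (Filter.Eventually.of_forall (fun y => ?_))
    · ring
    · exact div_eq_mul_inv _ y
  have h2 := (dP (η := η) hκ hx).mul h1
  refine h2.congr_deriv ?_
  field_simp
  ring

lemma pBound {κ η x α : ℝ} (hκ : 0 < κ) (hα : 0 < α) (hx : α ≤ x) (h0 : 0 < η) (h1 : η ≤ 1) :
    |(κ / x ^ 2) ^ (1 + η)| ≤ (max 1 (κ / α ^ 2)) ^ 2 := by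
  have hx0 : 0 < x := lt_of_lt_of_le hα hx
  have h2 : 0 ≤ κ / x ^ 2 := by positivity
  rw [abs_of_nonneg (Real.rpow_nonneg h2 _)]
  have h3 : κ / x ^ 2 ≤ κ / α ^ 2 := by
    apply div_le_div_of_nonneg_left hκ.le (by positivity)
    exact pow_le_pow_left₀ hα.le hx 2
  have h4 : κ / x ^ 2 ≤ max 1 (κ / α ^ 2) := h3.trans (le_max_right _ _)
  calc (κ / x ^ 2) ^ (1 + η) ≤ (max 1 (κ / α ^ 2)) ^ (1 + η) :=
        Real.rpow_le_rpow h2 h4 (by linarith)
    _ ≤ (max 1 (κ / α ^ 2)) ^ (2 : ℝ) :=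
        Real.rpow_le_rpow_of_exponent_le (le_max_left _ _) (by linarith)
    _ = _ := by
        rw [← Real.rpow_natCast]
        norm_num

end WTS_

open WTS_ in
theorem p_WTS (hFOU : T_FOU) : T_WTS := by
  intro κ u v hκ hu huv
  have hv : 0 < v := hu.trans huv
  set α := κ / v with hα
  set β := κ / u with hβ
  have hα0 : 0 < α := div_pos hκ hv
  have hβ0 : 0 < β := div_pos hκ hu
  have hαβ : α < β := div_lt_div_of_pos_left hκ hu huv
  -- the constants of the rational functions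
  have hne : ∀ x ∈ Set.Icc α β, x ≠ 0 := fun x hx => (lt_of_lt_of_le hα0 hx.1).ne'
  have cA : ContinuousOn (fun y : ℝ => (κ / y - u) * (v - κ / y)) (Set.Icc α β) :=
    fun x hx => (dA (hne x hx)).continuousAt.continuousWithinAt
  have cA1 : ContinuousOn (fun y : ℝ => κ / y ^ 2 * (2 * κ / y - (u + v))) (Set.Icc α β) :=
    fun x hx => (dA1 (hne x hx)).continuousAt.continuousWithinAt
  have cA2 : ContinuousOn (fun x : ℝ => -(6 * κ ^ 2 / x ^ 4) + 2 * κ * (u + v) / x ^ 3)
      (Set.Icc α β) := by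
    refine ContinuousOn.add (ContinuousOn.neg ?_) ?_
    · exact continuousOn_const.div (continuousOn_id.pow 4) (fun x hx => pow_ne_zero 4 (hne x hx))
    · exact continuousOn_const.div (continuousOn_id.pow 3) (fun x hx => pow_ne_zero 3 (hne x hx))
  obtain ⟨K0, hK0⟩ := isCompact_Icc.exists_bound_of_continuousOn cA
  obtain ⟨K1, hK1⟩ := isCompact_Icc.exists_bound_of_continuousOn cA1
  obtain ⟨K2, hK2⟩ := isCompact_Icc.exists_bound_of_continuousOn cA2
  have hmem : α ∈ Set.Icc α β := ⟨le_refl _, hαβ.le⟩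
  have hK0' : 0 ≤ K0 := (norm_nonneg _).trans (hK0 α hmem)
  have hK1' : 0 ≤ K1 := (norm_nonneg _).trans (hK1 α hmem)
  have hK2' : 0 ≤ K2 := (norm_nonneg _).trans (hK2 α hmem)
  set M := (max 1 (κ / α ^ 2)) ^ 2 with hM
  have hM0 : 0 ≤ M := by positivity
  set B1 := (2 + (β - α)) * (K1 * M + K0 * (M * (4 / α)) +
    (K2 * M + 2 * (K1 * (M * (4 / α))) + K0 * (M * (20 / α ^ 2)))) with hB1
  set B0 := (2 + (v - u)) * ((v - u) + 2) with hB0
  have hB0' : 0 ≤ B0 := mul_nonneg (by linarith) (by linarith)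
  have hB1' : 0 ≤ B1 := by
    refine mul_nonneg (by linarith) ?_
    positivity
  refine ⟨B0 + B1, add_nonneg hB0' hB1', ?_⟩
  intro η h0 h1 k hk
  have hk2 : 0 < (k : ℝ) ^ 2 := by
    have : (k : ℝ) ≠ 0 := by exact_mod_cast hk
    positivity
  constructor
  · -- the polynomial weight
    have h := hFOU (W0 u v) (fun x => (u + v) - 2 * x) (fun _ => -2) u v ((v - u) + 2) huv
      ?_ ?_ continuousOn_const ?_ ?_ ?_ k hk
    · refine h.trans ?_
      exact div_le_div_of_nonneg_right (by linarith) hk2.le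
    · intro x _
      have h2 := ((hasDerivAt_id x).sub_const u).mul ((hasDerivAt_id x).const_sub v)
      refine h2.congr_deriv ?_
      simp only [id_eq]
      ring
    · intro x _
      have h2 := ((hasDerivAt_id x).const_mul 2).const_sub (u + v)
      refine h2.congr_deriv ?_
      ring
    · intro x hx
      constructor
      · rw [abs_le]
        constructor
        · linarith [hx.1, hx.2]
        · linarith [hx.1, hx.2]
      · rw [abs_neg, abs_two]
        linarith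
    · simp [W0]
    · simp [W0]
  · -- the transported weight
    have hgP := fun x (hx : x ∈ Set.Icc α β) =>
      dP (κ := κ) (η := η) hκ (lt_of_lt_of_le hα0 hx.1)
    have hgP1 := fun x (hx : x ∈ Set.Icc α β) =>
      dP1 (κ := κ) (η := η) hκ (lt_of_lt_of_le hα0 hx.1)
    have cP : ContinuousOn (fun y : ℝ => (κ / y ^ 2) ^ (1 + η)) (Set.Icc α β) :=
      fun x hx => (hgP x hx).continuousAt.continuousWithinAt
    have cP1 : ContinuousOn (fun y : ℝ => (κ / y ^ 2) ^ (1 + η) * (-(2 + 2 * η) / y))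
        (Set.Icc α β) := fun x hx => (hgP1 x hx).continuousAt.continuousWithinAt
    have cP2 : ContinuousOn (fun y : ℝ => (κ / y ^ 2) ^ (1 + η) *
        ((2 + 2 * η) * (3 + 2 * η) / y ^ 2)) (Set.Icc α β) := by
      refine cP.mul ?_
      exact continuousOn_const.div (continuousOn_id.pow 2) (fun x hx => pow_ne_zero 2 (hne x hx))
    have h := hFOU (W1 κ η u v)
      (fun x => κ / x ^ 2 * (2 * κ / x - (u + v)) * (κ / x ^ 2) ^ (1 + η) +
        (κ / x - u) * (v - κ / x) * ((κ / x ^ 2) ^ (1 + η) * (-(2 + 2 * η) / x)))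
      (fun x => ((-(6 * κ ^ 2 / x ^ 4) + 2 * κ * (u + v) / x ^ 3) * (κ / x ^ 2) ^ (1 + η) +
        κ / x ^ 2 * (2 * κ / x - (u + v)) * ((κ / x ^ 2) ^ (1 + η) * (-(2 + 2 * η) / x))) +
        (κ / x ^ 2 * (2 * κ / x - (u + v)) * ((κ / x ^ 2) ^ (1 + η) * (-(2 + 2 * η) / x)) +
        (κ / x - u) * (v - κ / x) * ((κ / x ^ 2) ^ (1 + η) *
          ((2 + 2 * η) * (3 + 2 * η) / x ^ 2))))
      α β (K1 * M + K0 * (M * (4 / α)) +
        (K2 * M + 2 * (K1 * (M * (4 / α))) + K0 * (M * (20 / α ^ 2)))) hαβ ?_ ?_ ?_ ?_ ?_ ?_ k hk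
    · refine h.trans ?_
      exact div_le_div_of_nonneg_right (by linarith) hk2.le
    · intro x hx
      exact (dA (hne x hx)).mul (hgP x hx)
    · intro x hx
      exact ((dA1 (hne x hx)).mul (hgP x hx)).add ((dA (hne x hx)).mul (hgP1 x hx))
    · exact ((cA2.mul cP).add (cA1.mul cP1)).add ((cA1.mul cP1).add (cA.mul cP2))
    · intro x hx
      have hx0 : 0 < x := lt_of_lt_of_le hα0 hx.1
      have k0 := hK0 x hx
      have k1 := hK1 x hx
      have k2 := hK2 x hx
      rw [Real.norm_eq_abs] at k0 k1 k2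
      have p0 := pBound (η := η) hκ hα0 hx.1 h0 h1
      have hinv : 1 / x ≤ 1 / α := one_div_le_one_div_of_le hα0 hx.1
      have p1 : |(κ / x ^ 2) ^ (1 + η) * (-(2 + 2 * η) / x)| ≤ M * (4 / α) := by
        rw [abs_mul]
        refine mul_le_mul p0 ?_ (abs_nonneg _) hM0
        rw [abs_div, abs_neg, abs_of_pos (by linarith : 0 < 2 + 2 * η), abs_of_pos hx0]
        exact div_le_div₀ (by norm_num) (by linarith) hα0 hx.1
      have p2 : |(κ / x ^ 2) ^ (1 + η) * ((2 + 2 * η) * (3 + 2 * η) / x ^ 2)| ≤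
          M * (20 / α ^ 2) := by
        rw [abs_mul]
        refine mul_le_mul p0 ?_ (abs_nonneg _) hM0
        rw [abs_of_nonneg (by positivity)]
        refine div_le_div₀ (by norm_num) (by nlinarith) (by positivity) ?_
        exact pow_le_pow_left₀ hα0.le hx.1 2
      have q10 : |κ / x ^ 2 * (2 * κ / x - (u + v)) * (κ / x ^ 2) ^ (1 + η)| ≤ K1 * M := by
        rw [abs_mul]
        exact mul_le_mul k1 p0 (abs_nonneg _) hK1'
      have q01 : |(κ / x - u) * (v - κ / x) * ((κ / x ^ 2) ^ (1 + η) * (-(2 + 2 * η) / x))| ≤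
          K0 * (M * (4 / α)) := by
        rw [abs_mul]
        exact mul_le_mul k0 p1 (abs_nonneg _) hK0'
      have q20 : |(-(6 * κ ^ 2 / x ^ 4) + 2 * κ * (u + v) / x ^ 3) * (κ / x ^ 2) ^ (1 + η)| ≤
          K2 * M := by
        rw [abs_mul]
        exact mul_le_mul k2 p0 (abs_nonneg _) hK2'
      have q11 : |κ / x ^ 2 * (2 * κ / x - (u + v)) *
          ((κ / x ^ 2) ^ (1 + η) * (-(2 + 2 * η) / x))| ≤ K1 * (M * (4 / α)) := by
        rw [abs_mul]
        exact mul_le_mul k1 p1 (abs_nonneg _) hK1'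
      have q02 : |(κ / x - u) * (v - κ / x) * ((κ / x ^ 2) ^ (1 + η) *
          ((2 + 2 * η) * (3 + 2 * η) / x ^ 2))| ≤ K0 * (M * (20 / α ^ 2)) := by
        rw [abs_mul]
        exact mul_le_mul k0 p2 (abs_nonneg _) hK0'
      have n1 : 0 ≤ K1 * M := mul_nonneg hK1' hM0
      have n2 : 0 ≤ K0 * (M * (4 / α)) := by positivity
      have n3 : 0 ≤ K2 * M := mul_nonneg hK2' hM0
      have n4 : 0 ≤ K1 * (M * (4 / α)) := by positivity
      have n5 : 0 ≤ K0 * (M * (20 / α ^ 2)) := by positivity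
      constructor
      · refine (abs_add_le _ _).trans ?_
        linarith
      · refine (abs_add_le _ _).trans ?_
        have r1 := abs_add_le ((-(6 * κ ^ 2 / x ^ 4) + 2 * κ * (u + v) / x ^ 3) *
          (κ / x ^ 2) ^ (1 + η)) (κ / x ^ 2 * (2 * κ / x - (u + v)) *
          ((κ / x ^ 2) ^ (1 + η) * (-(2 + 2 * η) / x)))
        have r2 := abs_add_le (κ / x ^ 2 * (2 * κ / x - (u + v)) *
          ((κ / x ^ 2) ^ (1 + η) * (-(2 + 2 * η) / x))) ((κ / x - u) * (v - κ / x) *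
          ((κ / x ^ 2) ^ (1 + η) * ((2 + 2 * η) * (3 + 2 * η) / x ^ 2)))
        linarith
    · have h5 : κ / α = v := by
        rw [hα]
        field_simp
      simp [W1, W0, h5]
    · have h5 : κ / β = u := by
        rw [hβ]
        field_simp
      simp [W1, W0, h5]

end Pool.Agent.SelQ
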