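import Pool.Agent.SelQ.P_ACN
import Pool.Agent.SelQ.P_BES
import Pool.Agent.SelQ.P_CHB
import Pool.Agent.SelQ.P_CHN
import Pool.Agent.SelQ.P_CHV
import Pool.Agent.SelQ.P_CLS
import Pool.Agent.SelQ.P_CQA
import Pool.Agent.SelQ.P_DEC
import Pool.Agent.SelQ.P_DIA
import Pool.Agent.SelQ.P_DRU
import Pool.Agent.SelQ.P_EBS
import Pool.Agent.SelQ.P_EPU
import Pool.Agent.SelQ.P_ERU
import Pool.Agent.SelQ.P_EXC
import Pool.Agent.SelQ.P_FAI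
import Pool.Agent.SelQ.P_FINQ
import Pool.Agent.SelQ.P_FOU
import Pool.Agent.SelQ.P_INA
import Pool.Agent.SelQ.P_IND
import Pool.Agent.SelQ.P_INV
import Pool.Agent.SelQ.P_KAP
import Pool.Agent.SelQ.P_KDV
import Pool.Agent.SelQ.P_KEE
import Pool.Agent.SelQ.P_KHA
import Pool.Agent.SelQ.P_KIR
import Pool.Agent.SelQ.P_KM1
import Pool.Agent.SelQ.P_KM2
import Pool.Agent.SelQ.P_KMD
import Pool.Agent.SelQ.P_KP1
import Pool.Agent.SelQ.P_KRA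
import Pool.Agent.SelQ.P_KRI
import Pool.Agent.SelQ.P_KRT
import Pool.Agent.SelQ.P_KSM
import Pool.Agent.SelQ.P_KSO
import Pool.Agent.SelQ.P_LAW
import Pool.Agent.SelQ.P_LBC
import Pool.Agent.SelQ.P_LBD
import Pool.Agent.SelQ.P_LBR
import Pool.Agent.SelQ.P_LIP
import Pool.Agent.SelQ.P_LOCQ
import Pool.Agent.SelQ.P_LOW
import Pool.Agent.SelQ.P_LTE
import Pool.Agent.SelQ.P_LTI
import Pool.Agent.SelQ.P_LTW
import Pool.Agent.SelQ.P_MAS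
import Pool.Agent.SelQ.P_MLU
import Pool.Agent.SelQ.P_MMS
import Pool.Agent.SelQ.P_MSF
import Pool.Agent.SelQ.P_OFF
import Pool.Agent.SelQ.P_ONE
import Pool.Agent.SelQ.P_PAI
import Pool.Agent.SelQ.P_PAP
import Pool.Agent.SelQ.P_PNT
import Pool.Agent.SelQ.P_PTU
import Pool.Agent.SelQ.P_QTS
import Pool.Agent.SelQ.P_REX
import Pool.Agent.SelQ.P_RLU
import Pool.Agent.SelQ.P_RTO
import Pool.Agent.SelQ.P_SEC
import Pool.Agent.SelQ.P_SEL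
import Pool.Agent.SelQ.P_SHU
import Pool.Agent.SelQ.P_SPL
import Pool.Agent.SelQ.P_SQ1
import Pool.Agent.SelQ.P_THI
import Pool.Agent.SelQ.P_THQ
import Pool.Agent.SelQ.P_UDF
import Pool.Agent.SelQ.P_UNI
import Pool.Agent.SelQ.P_UPP
import Pool.Agent.SelQ.P_WBU
import Pool.Agent.SelQ.P_WCP
import Pool.Agent.SelQ.P_WTS
import Pool.Agent.SelDeg2.Final

/-!
# Degree 2 without the mean square bound (MP_995735_nt): the result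
-/

set_option autoImplicit false

namespace Pool.Agent.SelQ

open Pool.Agent.SelTwo (DegreeTwo)
open Pool.Agent.SelPole (IsSelberg)

theorem a_DEC : T_DEC :=
  p_DEC (p_LAW p_ONE) (p_FAI p_EBS p_IND) (p_CLS p_UPP p_LOW p_SEL (p_SEC p_EBS) (p_CHB p_EBS))
    p_UNI p_PAI p_EXC p_SPL p_WCP

theorem a_FIN : T_FIN :=
  p_FINQ (p_WTS p_FOU) p_OFF p_KSM p_CHV p_MAS p_LOCQ p_DIA

theorem a_INV : T_INV :=
  have hG1 := Pool.Agent.SelTwo.p_G1 Pool.Agent.SelTwo.p_STIR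
  have hGAM := Pool.Agent.SelTwo.p_GAM Pool.Agent.SelTwo.p_MELX
  p_INV (p_REX (Pool.Agent.SelDeg2.p_LAM (Pool.Agent.SelTwo.p_INV Pool.Agent.SelTwo.p_MELX hGAM))
    (Pool.Agent.SelDeg2.p_RAT hG1) (Pool.Agent.SelDeg2.p_KER hG1) Pool.Agent.SelDeg2.p_FE
    Pool.Agent.SelDeg2.p_PL (Pool.Agent.SelDeg2.p_SHIFT hGAM) Pool.Agent.SelDeg2.p_ERR)
    (p_LTI (p_LTE p_LTW)) p_PNT p_MMS

theorem a_UDR : T_UDR :=
  have hG1 := Pool.Agent.SelTwo.p_G1 Pool.Agent.SelTwo.p_STIR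
  have hGAM := Pool.Agent.SelTwo.p_GAM Pool.Agent.SelTwo.p_MELX
  p_UDF (p_RLU (Pool.Agent.SelDeg2.p_LAM (Pool.Agent.SelTwo.p_INV Pool.Agent.SelTwo.p_MELX hGAM))
    (Pool.Agent.SelDeg2.p_RAT hG1) (Pool.Agent.SelDeg2.p_KER hG1) Pool.Agent.SelDeg2.p_FE
    Pool.Agent.SelDeg2.p_PL (p_SHU hGAM) p_ERU)
    (Pool.Agent.SelDeg2.p_DREL1 Pool.Agent.SelDeg2.p_MEL Pool.Agent.SelDeg2.p_PT)
    (p_DRU (p_PTU p_WBU) p_MLU)

theorem a_KM1 : T_KM1 := p_KM1 p_KM2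

theorem a_KRQ : T_KRQ :=
  p_KRT (p_KMD Pool.Agent.SelDeg2.p_MUL) (p_KIR (p_KRA p_KM2 a_KM1 p_KP1 (p_KHA a_KM1)
    (p_KSO p_KP1) p_KRI (p_KEE p_KDV a_KM1)))

theorem a_CQ : T_CQ :=
  have hLBR : T_LBR := p_LBR
  p_CQA (p_ACN (p_RTO p_LIP (p_LBC p_LIP) hLBR) p_BES p_SQ1) p_PAP
    (p_INA (p_EPU (Pool.Agent.SelDeg2.p_LOC Pool.Agent.SelDeg2.p_TW Pool.Agent.SelDeg2.p_MUL))
      p_KAP) p_CHN p_THI

/-- Theorem Q. -/
theorem a_THQ : T_THQ :=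
  p_THQ a_INV (p_QTS a_DEC a_FIN p_LBD p_WCP)

/-- Every function of degree 2 with a pole satisfies the mean square bound. -/
theorem a_MSF : T_MSF :=
  p_MSF (a_THQ ) a_UDR a_KRQ (a_CQ )

theorem degree_two_pole  {F : ℂ → ℂ} {a b : ℕ → ℂ} {r : ℕ} (hF : IsSelberg F a b)
    (hdeg : DegreeTwo F) (hr : 1 ≤ r)
    (hpole : meromorphicOrderAt F 1 = ((-(r : ℤ) : ℤ) : WithTop ℤ)) :
    ∃ L₁ : ℂ → ℂ, Differentiable ℂ L₁ ∧ (∀ s : ℂ, s ≠ 1 → F s = riemannZeta s ^ r * L₁ s) ∧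
      ((r = 2 ∧ ∀ s : ℂ, L₁ s = 1) ∨
        (r = 1 ∧ ∃ (q : ℕ) (_ : NeZero q) (χ : DirichletCharacter ℂ q) (θ : ℝ),
          χ.IsPrimitive ∧ χ ≠ 1 ∧
            ∀ s : ℂ, L₁ s = DirichletCharacter.LFunction χ (s + θ * Complex.I))) :=
  Pool.Agent.SelDeg2.degree_two_pole hF hdeg (a_MSF  F a b r hF hdeg hr hpole) hr hpole

end Pool.Agent.SelQ
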