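import Pool.Agent.SelPole.Landau
import Pool.Agent.SelPole.Defs
import Pool.Agent.SelTwo.G1
import Pool.Agent.SelTwo.STIR
import Pool.Agent.SelDeg2.KER
import Pool.Agent.SelDeg2.FE

/-!
# Functions of degree two with nonnegative coefficients have a pole
-/

set_option autoImplicit false

namespace Pool.Agent.SelQ

open Complex Filter Topology Set
open Pool.Agent.SelPole Pool.Agent.SelTwo Pool.Agent.SelDeg2

namespace NN_

/-- Stirling's formula for the absolute value on the line `Re s = σ`, `Re m = 0`, upper and lower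
bounds. -/
theorem gam_bounds (hG1 : T_G1) (σ y : ℝ) : ∃ C T₀ : ℝ, 1 ≤ T₀ ∧ 0 < C ∧ ∀ t : ℝ, T₀ ≤ t →
    ‖Gamma (vl σ t + y * I)‖ ≤ C * t ^ (σ - 1 / 2) * Real.exp (-(Real.pi * t / 2)) ∧
    C⁻¹ * t ^ (σ - 1 / 2) * Real.exp (-(Real.pi * t / 2)) ≤ ‖Gamma (vl σ t + y * I)‖ := by
  obtain ⟨C, T₀, hT, h⟩ := hG1 1 σ (y * I) one_pos
  have hC0 : ∀ t : ℝ, T₀ ≤ t → ∃ r : ℝ, |r| ≤ |C| + |Real.log (2 * Real.pi) / 2| +
      |Real.pi * y / 2| ∧
      ‖Gamma (vl σ t + y * I)‖ = Real.exp r * (t ^ (σ - 1 / 2) *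
        Real.exp (-(Real.pi * t / 2))) := by
    intro t ht
    obtain ⟨e, he, hG⟩ := h t ht
    have ht1 : 1 ≤ t := hT.trans ht
    have ht0 : 0 < t := by linarith
    have hG' : Gamma (vl σ t + y * I) = exp ((Real.log (2 * Real.pi) / 2 : ℝ) +
        (vl σ t + y * I - 1 / 2) * ((Real.log t : ℂ) + (Real.pi / 2 : ℝ) * I) - t * I + e) := by
      have h1 := hG
      simp only [Real.log_one, ofReal_one, ofReal_zero, add_zero, one_mul] at h1
      exact h1
    refine ⟨Real.log (2 * Real.pi) / 2 - Real.pi * y / 2 + e.re, ?_, ?_⟩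
    · have h2 : |e.re| ≤ |C| := by
        refine (abs_re_le_norm e).trans (he.trans ?_)
        rw [div_le_iff₀ ht0]
        nlinarith [le_abs_self C, abs_nonneg C]
      calc |Real.log (2 * Real.pi) / 2 - Real.pi * y / 2 + e.re|
          ≤ |Real.log (2 * Real.pi) / 2 - Real.pi * y / 2| + |e.re| := abs_add_le _ _
        _ ≤ (|Real.log (2 * Real.pi) / 2| + |Real.pi * y / 2|) + |e.re| := by
            gcongr
            exact abs_sub _ _
        _ ≤ _ := by linarith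
    · rw [hG', Complex.norm_exp]
      have h3 : ((Real.log (2 * Real.pi) / 2 : ℝ) +
          (vl σ t + y * I - 1 / 2) * ((Real.log t : ℂ) + (Real.pi / 2 : ℝ) * I) -
          t * I + e : ℂ).re =
          (Real.log (2 * Real.pi) / 2 - Real.pi * y / 2 + e.re) +
            (Real.log t * (σ - 1 / 2) + -(Real.pi * t / 2)) := by
        simp [vl]
        ring
      rw [h3, Real.exp_add, Real.exp_add (Real.log t * (σ - 1 / 2)), Real.rpow_def_of_pos ht0]
  obtain ⟨D, hD⟩ : ∃ D : ℝ, D = |C| + |Real.log (2 * Real.pi) / 2| + |Real.pi * y / 2| :=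
    ⟨_, rfl⟩
  refine ⟨Real.exp D, T₀, hT, Real.exp_pos _, fun t ht => ?_⟩
  have ht0 : 0 < t := by linarith
  obtain ⟨r, hr, hG⟩ := hC0 t ht
  rw [← hD] at hr
  have hp : 0 ≤ t ^ (σ - 1 / 2) * Real.exp (-(Real.pi * t / 2)) := by positivity
  rw [hG, ← Real.exp_neg, mul_assoc, mul_assoc]
  exact ⟨mul_le_mul_of_nonneg_right (Real.exp_le_exp.2 (abs_le.1 hr).2) hp,
    mul_le_mul_of_nonneg_right (Real.exp_le_exp.2 (abs_le.1 hr).1) hp⟩

/-- In degree two the quotient of the gamma factors is unbounded on the line `Re s = 5/4`. -/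
theorem gP_unbounded (hG1 : T_G1) (hKER : Pool.Agent.SelDeg2.T_KER) (k : ℕ) (l : Fin k → ℝ)
    (m : Fin k → ℂ) (hl : ∀ j, 0 < l j) (hm : ∀ j, 0 ≤ (m j).re) (hs : ∑ j, l j = 1) (B : ℝ) :
    ∃ τ : ℝ, B < ‖gP k l m (vl (5 / 4) τ)‖ := by
  by_contra hcon
  push Not at hcon
  obtain ⟨A, R, C, hA, hR, h1, -⟩ := hKER k l m hl hm hs
  obtain ⟨θ, hθ⟩ : ∃ θ : ℝ, θ = 2 * ∑ j, (m j).im := ⟨_, rfl⟩
  obtain ⟨C₁, T₁, hT₁, hC₁, g1⟩ := gam_bounds hG1 (5 / 4) (-θ)
  obtain ⟨C₂, T₂, hT₂, hC₂, g2⟩ := gam_bounds hG1 (-1 / 4) 0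
  have hB0 : 0 ≤ B := (norm_nonneg _).trans (hcon 0)
  -- the inequality for all large `t`
  have key : ∀ t : ℝ, max T₁ T₂ ≤ t →
      ‖A‖ * R ^ (5 / 4 : ℝ) * C₁⁻¹ * t ^ (3 / 4 : ℝ) ≤ |C| + C₂ * B := by
    intro t ht
    have ht1 : T₁ ≤ t := (le_max_left _ _).trans ht
    have ht2 : T₂ ≤ t := (le_max_right _ _).trans ht
    have ht0 : 1 ≤ t := hT₁.trans ht1
    have e1 := (g1 t ht1).2
    have e2 := (g2 t ht2).1
    have e3 := h1 t (by linarith)
    have n1 : ‖Gamma (1 - vl (5 / 4) t)‖ = ‖Gamma (vl (-1 / 4) t + (0 : ℝ) * I)‖ := by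
      have : (1 - vl (5 / 4) t) = (starRingEnd ℂ) (vl (-1 / 4) t + (0 : ℝ) * I) := by
        unfold vl
        rw [map_add, map_add, map_mul, map_mul, conj_ofReal, conj_ofReal, conj_ofReal, conj_I]
        push_cast
        ring
      rw [this, Complex.Gamma_conj, Complex.norm_conj]
    have n2 : ‖(R : ℂ) ^ (vl (5 / 4) t)‖ = R ^ (5 / 4 : ℝ) := by
      rw [Complex.norm_cpow_eq_rpow_re_of_pos hR]
      simp [vl]
    have n3 : (vl (5 / 4) t - (2 * ∑ j, (m j).im : ℝ) * I) = vl (5 / 4) t + ((-θ : ℝ) : ℂ) * I := by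
      rw [← hθ]
      push_cast
      ring
    rw [n3] at e3
    have e4 : ‖A * (R : ℂ) ^ (vl (5 / 4) t) * Gamma (vl (5 / 4) t + ((-θ : ℝ) : ℂ) * I)‖ ≤
        ‖Gamma (1 - vl (5 / 4) t) * gP k l m (vl (5 / 4) t)‖ +
          C * (1 + t) ^ (-(1 / 4) : ℝ) * Real.exp (-(Real.pi * t / 2)) := by
      have := norm_sub_norm_le (A * (R : ℂ) ^ (vl (5 / 4) t) *
        Gamma (vl (5 / 4) t + ((-θ : ℝ) : ℂ) * I)) (Gamma (1 - vl (5 / 4) t) *
          gP k l m (vl (5 / 4) t))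
      rw [norm_sub_rev] at this
      linarith
    rw [norm_mul, norm_mul, n2, norm_mul (Gamma _) (gP _ _ _ _), n1] at e4
    have hE : 0 < Real.exp (-(Real.pi * t / 2)) := Real.exp_pos _
    have hg := hcon t
    have e5 : C * (1 + t) ^ (-(1 / 4) : ℝ) ≤ |C| := by
      have h5 : (1 + t) ^ (-(1 / 4) : ℝ) ≤ 1 :=
        Real.rpow_le_one_of_one_le_of_nonpos (by linarith) (by norm_num)
      have h6 : 0 ≤ (1 + t) ^ (-(1 / 4) : ℝ) := by positivity
      calc C * (1 + t) ^ (-(1 / 4) : ℝ) ≤ |C| * (1 + t) ^ (-(1 / 4) : ℝ) :=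
            mul_le_mul_of_nonneg_right (le_abs_self C) h6
        _ ≤ |C| * 1 := mul_le_mul_of_nonneg_left h5 (abs_nonneg _)
        _ = |C| := mul_one _
    have e6 : t ^ ((-1 / 4 : ℝ) - 1 / 2) ≤ 1 :=
      Real.rpow_le_one_of_one_le_of_nonpos ht0 (by norm_num)
    have e7 : ‖Gamma (vl (-1 / 4) t + (0 : ℝ) * I)‖ * ‖gP k l m (vl (5 / 4) t)‖ ≤
        C₂ * B * Real.exp (-(Real.pi * t / 2)) := by
      calc ‖Gamma (vl (-1 / 4) t + (0 : ℝ) * I)‖ * ‖gP k l m (vl (5 / 4) t)‖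
          ≤ (C₂ * t ^ ((-1 / 4 : ℝ) - 1 / 2) * Real.exp (-(Real.pi * t / 2))) * B :=
            mul_le_mul e2 hg (norm_nonneg _) (by positivity)
        _ ≤ (C₂ * 1 * Real.exp (-(Real.pi * t / 2))) * B := by gcongr
        _ = _ := by ring
    have e8 : ‖A‖ * R ^ (5 / 4 : ℝ) * (C₁⁻¹ * t ^ ((5 / 4 : ℝ) - 1 / 2) *
        Real.exp (-(Real.pi * t / 2))) ≤ ‖A‖ * R ^ (5 / 4 : ℝ) *
          ‖Gamma (vl (5 / 4) t + ((-θ : ℝ) : ℂ) * I)‖ := by
      gcongr
    have e9 : (‖A‖ * R ^ (5 / 4 : ℝ) * C₁⁻¹ * t ^ (3 / 4 : ℝ)) *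
        Real.exp (-(Real.pi * t / 2)) ≤ (|C| + C₂ * B) * Real.exp (-(Real.pi * t / 2)) := by
      have h7 : ((5 / 4 : ℝ) - 1 / 2) = 3 / 4 := by norm_num
      rw [h7] at e8
      have h8 : C * (1 + t) ^ (-(1 / 4) : ℝ) * Real.exp (-(Real.pi * t / 2)) ≤
          |C| * Real.exp (-(Real.pi * t / 2)) := mul_le_mul_of_nonneg_right e5 hE.le
      nlinarith [e4, e7, e8, h8]
    exact le_of_mul_le_mul_right e9 hE
  -- contradiction
  have hc : 0 < ‖A‖ * R ^ (5 / 4 : ℝ) * C₁⁻¹ := by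
    have := norm_pos_iff.2 hA
    positivity
  have hlim : Tendsto (fun t : ℝ => ‖A‖ * R ^ (5 / 4 : ℝ) * C₁⁻¹ * t ^ (3 / 4 : ℝ)) atTop
      atTop := (tendsto_rpow_atTop (by norm_num)).const_mul_atTop hc
  obtain ⟨t, h2, h3⟩ := ((hlim.eventually (eventually_gt_atTop (|C| + C₂ * B))).and
    (eventually_ge_atTop (max T₁ T₂))).exists
  exact absurd (key t h3) (not_le.2 h2)

/-! ### Landau -/

open LSeries in
theorem eq_of_abs {a : ℕ → ℂ} {E : ℂ → ℂ} (hE : Differentiable ℂ E)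
    (heq : ∀ s : ℂ, 1 < s.re → E s = LSeries a s) {x : ℝ} (hx : abscissaOfAbsConv a ≤ x)
    {s : ℂ} (hs : x < s.re) : E s = LSeries a s := by
  have hU : IsOpen {z : ℂ | x < z.re} := isOpen_lt continuous_const continuous_re
  have hpre : IsPreconnected {z : ℂ | x < z.re} := (convex_halfSpace_re_gt x).isPreconnected
  have h1 : AnalyticOnNhd ℂ E {z : ℂ | x < z.re} := fun z _ => hE.analyticAt z
  have h2 : AnalyticOnNhd ℂ (LSeries a) {z : ℂ | x < z.re} := fun z hz =>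
    LSeries_analyticOnNhd a z (lt_of_le_of_lt hx (by exact_mod_cast hz))
  have hz0 : (((max x 1 + 1 : ℝ)) : ℂ) ∈ {z : ℂ | x < z.re} := by
    show x < (((max x 1 + 1 : ℝ)) : ℂ).re
    rw [ofReal_re]
    linarith [le_max_left x 1]
  have hev : E =ᶠ[𝓝 (((max x 1 + 1 : ℝ)) : ℂ)] LSeries a := by
    have hV : IsOpen {z : ℂ | 1 < z.re} := isOpen_lt continuous_const continuous_re
    refine Filter.eventually_of_mem (hV.mem_nhds ?_) fun z hz => heq z hz
    show 1 < (((max x 1 + 1 : ℝ)) : ℂ).re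
    rw [ofReal_re]
    linarith [le_max_right x 1]
  exact h1.eqOn_of_preconnected_of_eventuallyEq h2 hpre hz0 hev hs

open LSeries in
/-- Landau: if the coefficients are nonnegative and the sum extends to an entire function then the
series converges everywhere. -/
theorem abs_bot {c : ℕ → ℝ} (hc : ∀ n, 0 ≤ c n) {E : ℂ → ℂ} (hE : Differentiable ℂ E)
    (hs : ∀ s : ℂ, 1 < s.re → LSeriesSummable (fun n => (c n : ℂ)) s)
    (heq : ∀ s : ℂ, 1 < s.re → E s = LSeries (fun n => (c n : ℂ)) s) :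
    abscissaOfAbsConv (fun n => (c n : ℂ)) = ⊥ := by
  have h1 : abscissaOfAbsConv (fun n => (c n : ℂ)) ≤ (1 : ℝ) := by
    refine abscissaOfAbsConv_le_of_forall_lt_LSeriesSummable fun y hy => hs _ ?_
    simpa using hy
  by_contra hne
  obtain ⟨x, hx⟩ : ∃ x : ℝ, abscissaOfAbsConv (fun n => (c n : ℂ)) = (x : EReal) := by
    induction h : abscissaOfAbsConv (fun n => (c n : ℂ)) with
    | bot => exact absurd h hne
    | top => rw [h] at h1; exact absurd h1 (not_le.2 (EReal.coe_lt_top 1))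
    | coe x => exact ⟨x, rfl⟩
  obtain ⟨δ, hδ, h2⟩ := landau hc one_pos (h := E) hx.le hE.differentiableOn
    (fun s _ hs' => eq_of_abs hE heq hx.le hs')
  have h3 := h2.abscissaOfAbsConv_le
  rw [hx] at h3
  have h4 : x ≤ x - δ := by
    have h5 : (x : EReal) ≤ ((x - δ : ℝ) : EReal) := by simpa using h3
    exact_mod_cast h5
  linarith

/-! ### No entire function of degree two has nonnegative coefficients -/

theorem lower {F : ℂ → ℂ} {a b : ℕ → ℂ} (hF : IsSelberg F a b) :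
    ∃ c : ℝ, 0 < c ∧ ∀ t : ℝ, c ≤ ‖F (vl (5 / 4) t)‖ := by
  have hb := hF.log_summable (5 / 4 : ℝ) (by simp; norm_num)
  refine ⟨Real.exp (-∑' n, ‖LSeries.term b (5 / 4 : ℝ) n‖), Real.exp_pos _, fun t => ?_⟩
  have hre : (vl (5 / 4) t).re = 5 / 4 := by simp [vl]
  have hn : ∀ n, ‖LSeries.term b (vl (5 / 4) t) n‖ = ‖LSeries.term b (5 / 4 : ℝ) n‖ := by
    intro n
    rw [LSeries.norm_term_eq, LSeries.norm_term_eq, hre, ofReal_re]
  rw [hF.log_series _ (by rw [hre]; norm_num), Complex.norm_exp]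
  apply Real.exp_le_exp.2
  have h1 : ‖LSeries b (vl (5 / 4) t)‖ ≤ ∑' n, ‖LSeries.term b (5 / 4 : ℝ) n‖ := by
    have h2 : Summable fun n => ‖LSeries.term b (vl (5 / 4) t) n‖ := by
      simp only [hn]
      exact hb.norm
    calc ‖LSeries b (vl (5 / 4) t)‖ ≤ ∑' n, ‖LSeries.term b (vl (5 / 4) t) n‖ :=
          norm_tsum_le_tsum_norm h2
      _ = _ := tsum_congr hn
  have h3 := (abs_le.1 (abs_re_le_norm (LSeries b (vl (5 / 4) t)))).1
  linarith

theorem no_entire (hG1 : T_G1) (hKER : Pool.Agent.SelDeg2.T_KER)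
    (hFE : Pool.Agent.SelDeg2.T_FE) {F : ℂ → ℂ} {a b : ℕ → ℂ} (hF : IsSelberg F a b)
    (hdeg : DegreeTwo F) (ha : ∀ n : ℕ, 1 ≤ n → 0 ≤ (a n).re ∧ (a n).im = 0) {E : ℂ → ℂ}
    (hE : Differentiable ℂ E) (hFE' : ∀ s : ℂ, s ≠ 1 → F s = E s) : False := by
  obtain ⟨Q, k, l, m, w, hfe, hl⟩ := hdeg
  have hl1 : ∑ j, l j = 1 := by linarith
  obtain ⟨M, g, hg, hfo, hgF⟩ := hF.continuation
  have hrel := hFE F M Q k l m w ⟨g, hg, hfo, hgF⟩ hfe
  obtain ⟨hQ, hlp, hmp, hw, -⟩ := hfe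
  obtain ⟨c₀, hc₀, hlow⟩ := lower hF
  -- the coefficients
  obtain ⟨c, hc⟩ : ∃ c : ℕ → ℝ, ∀ n, c n = if n = 0 then 0 else (a n).re := ⟨_, fun _ => rfl⟩
  have hc0 : ∀ n, 0 ≤ c n := by
    intro n
    rw [hc]
    split_ifs with h
    · exact le_rfl
    · exact (ha n (by omega)).1
  have hac : ∀ {n : ℕ}, n ≠ 0 → a n = (c n : ℂ) := by
    intro n hn
    rw [hc, if_neg hn]
    apply Complex.ext
    · simp
    · simp [(ha n (by omega)).2]
  have hLs : ∀ s : ℂ, LSeries a s = LSeries (fun n => (c n : ℂ)) s := fun s =>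
    LSeries_congr (fun {n} hn => hac hn) s
  have hSs : ∀ s : ℂ, 1 < s.re → LSeriesSummable (fun n => (c n : ℂ)) s := fun s hs =>
    (LSeriesSummable_congr s (fun {n} hn => hac hn)).1 (hF.summable s hs)
  have hEs : ∀ s : ℂ, 1 < s.re → E s = LSeries (fun n => (c n : ℂ)) s := by
    intro s hs
    have hs1 : s ≠ 1 := by
      rintro rfl
      simp at hs
    rw [← hFE' s hs1, hF.eq_series s hs, hLs]
  have hbot := abs_bot hc0 hE hSs hEs
  -- `F` is bounded on the line `-1/4`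
  have hsum : LSeriesSummable (fun n => (c n : ℂ)) ((-1 / 4 : ℝ) : ℂ) :=
    LSeriesSummable_of_abscissaOfAbsConv_lt_re (by rw [hbot]; exact EReal.bot_lt_coe _)
  have hup : ∀ t : ℝ, ‖F (vl (-1 / 4) t)‖ ≤
      ∑' n, ‖LSeries.term (fun n => (c n : ℂ)) ((-1 / 4 : ℝ) : ℂ) n‖ := by
    intro t
    have hre : (vl (-1 / 4) t).re = -1 / 4 := by simp [vl]
    have hn : ∀ n, ‖LSeries.term (fun n => (c n : ℂ)) (vl (-1 / 4) t) n‖ =
        ‖LSeries.term (fun n => (c n : ℂ)) ((-1 / 4 : ℝ) : ℂ) n‖ := by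
      intro n
      rw [LSeries.norm_term_eq, LSeries.norm_term_eq, hre, ofReal_re]
    have hne : vl (-1 / 4) t ≠ 1 := by
      intro h
      rw [h] at hre
      norm_num at hre
    rw [hFE' _ hne, eq_of_abs hE hEs (x := -1) (by rw [hbot]; exact bot_le)
      (by rw [hre]; norm_num)]
    have h2 : Summable fun n => ‖LSeries.term (fun n => (c n : ℂ)) (vl (-1 / 4) t) n‖ := by
      simp only [hn]
      exact hsum.norm
    calc ‖LSeries (fun n => (c n : ℂ)) (vl (-1 / 4) t)‖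
        ≤ ∑' n, ‖LSeries.term (fun n => (c n : ℂ)) (vl (-1 / 4) t) n‖ :=
          norm_tsum_le_tsum_norm h2
      _ = _ := tsum_congr hn
  obtain ⟨B, hB⟩ : ∃ B : ℝ, B = ∑' n, ‖LSeries.term (fun n => (c n : ℂ))
      ((-1 / 4 : ℝ) : ℂ) n‖ := ⟨_, rfl⟩
  rw [← hB] at hup
  have hB0 : 0 ≤ B := (norm_nonneg _).trans (hup 0)
  obtain ⟨τ, hτ⟩ := gP_unbounded hG1 hKER k l m hlp hmp hl1 (B / (Q ^ (3 / 2 : ℝ) * c₀))
  have h1 := congrArg norm (hrel (-τ))
  rw [norm_mul, norm_mul, norm_mul, hw, one_mul, neg_neg, Complex.norm_conj,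
    Complex.norm_cpow_eq_rpow_re_of_pos hQ] at h1
  have h2 : (1 - 2 * vl (-1 / 4) (-τ)).re = 3 / 2 := by
    simp [vl]
    norm_num
  rw [h2] at h1
  have h3 := hup (-τ)
  rw [h1] at h3
  have h4 := hlow (-τ)
  have hQp : 0 < Q ^ (3 / 2 : ℝ) := Real.rpow_pos_of_pos hQ _
  rw [div_lt_iff₀ (by positivity)] at hτ
  have h5 : Q ^ (3 / 2 : ℝ) * ‖gP k l m (vl (5 / 4) τ)‖ * c₀ ≤
      Q ^ (3 / 2 : ℝ) * ‖gP k l m (vl (5 / 4) τ)‖ * ‖F (vl (5 / 4) (-τ))‖ :=
    mul_le_mul_of_nonneg_left h4 (by positivity)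
  nlinarith

/-! ### Real coefficients -/

theorem term_tw (θ : ℝ) (f : ℕ → ℂ) (s : ℂ) (n : ℕ) :
    LSeries.term (tw θ f) s n = LSeries.term f (s + θ * I) n := by
  rcases eq_or_ne n 0 with rfl | hn
  · simp
  · rw [LSeries.term_of_ne_zero hn, LSeries.term_of_ne_zero hn]
    unfold tw
    have hn' : (n : ℂ) ≠ 0 := by exact_mod_cast hn
    rw [Complex.cpow_neg, Complex.cpow_add _ _ hn', ← div_eq_mul_inv, div_div, mul_comm (_ ^ _)]

open LSeries in
/-- The coefficients of the second factor are real. -/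
theorem real_coeff {a c : ℕ → ℂ} (ha : ∀ n : ℕ, 1 ≤ n → (a n).im = 0)
    (hs : ∀ s : ℂ, 1 < s.re → LSeriesSummable a s)
    (hc : ∀ s : ℂ, 1 < s.re → LSeriesSummable c s)
    (h : ∀ s : ℂ, 1 < s.re → LSeries a s = riemannZeta s * LSeries c s) :
    ∀ n : ℕ, 1 ≤ n → (c n).im = 0 := by
  intro n hn
  have h2 : (1 : ℝ) < (2 : ℂ).re := by norm_num
  obtain ⟨μ, hμ⟩ : ∃ μ : ℕ → ℂ, μ = fun n => ((ArithmeticFunction.moebius n : ℤ) : ℂ) :=
    ⟨_, rfl⟩
  have hμs : ∀ s : ℂ, 1 < s.re → LSeriesSummable μ s := fun s hs' => by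
    rw [hμ]
    exact ArithmeticFunction.LSeriesSummable_moebius_iff.2 hs'
  have e : c n = LSeries.convolution a μ n := by
    refine LSeries.eq_of_LSeries_eventually_eq (lt_of_le_of_lt (hc 2 h2).abscissaOfAbsConv_le
      (EReal.coe_lt_top _)) (lt_of_le_of_lt
        ((hs 2 h2).convolution (hμs 2 h2)).abscissaOfAbsConv_le (EReal.coe_lt_top _)) ?_
        (by omega)
    filter_upwards [eventually_gt_atTop 1] with x hx
    have hx' : 1 < (x : ℂ).re := by simpa using hx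
    rw [LSeries_convolution' (hs _ hx') (hμs _ hx'), h _ hx']
    have h3 : riemannZeta x * LSeries μ x = 1 := by
      rw [hμ, ← ArithmeticFunction.LSeries_zeta_eq_riemannZeta hx']
      exact ArithmeticFunction.LSeries_zeta_mul_Lseries_moebius hx'
    rw [mul_right_comm, h3, one_mul]
  rw [e, LSeries.convolution_def, Complex.im_sum]
  refine Finset.sum_eq_zero fun p hp => ?_
  have hp1 : 1 ≤ p.1 := by
    have h4 := (Nat.mem_divisorsAntidiagonal.1 hp).1
    rcases Nat.eq_zero_or_pos p.1 with h5 | h5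
    · rw [h5, zero_mul] at h4
      omega
    · exact h5
  rw [Complex.mul_im, ha p.1 hp1, hμ]
  simp

/-- If the coefficients are real then the shift is zero and the character is real. -/
theorem real_case {a : ℕ → ℂ} {q : ℕ} [NeZero q] {χ : DirichletCharacter ℂ q} {θ : ℝ}
    (ha : ∀ n : ℕ, 1 ≤ n → (a n).im = 0)
    (hs : ∀ s : ℂ, 1 < s.re → LSeriesSummable a s)
    (h : ∀ s : ℂ, 1 < s.re →
      LSeries a s = riemannZeta s * DirichletCharacter.LFunction χ (s + θ * I)) :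
    θ = 0 ∧ χ ^ 2 = 1 := by
  have hre : ∀ s : ℂ, (s + θ * I).re = s.re := fun s => by simp
  have hc := real_coeff (c := tw θ (fun n => χ n)) ha hs
    (fun s hs' => by
      have h1 := DirichletCharacter.LSeriesSummable_of_one_lt_re χ
        (s := s + θ * I) (by rw [hre]; exact hs')
      exact h1.congr fun n => (term_tw θ _ s n).symm)
    (fun s hs' => by
      rw [h s hs', DirichletCharacter.LFunction_eq_LSeries χ (by rw [hre]; exact hs')]
      congr 1
      exact tsum_congr fun n => (term_tw θ _ s n).symm)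
  -- the squares
  have hsq : ∀ n : ℕ, 1 ≤ n → IsUnit (n : ZMod q) →
      χ (n : ZMod q) ^ 2 = exp (2 * θ * Real.log n * I) := by
    intro n hn hu
    have h1 := hc n hn
    have hn0 : (n : ℂ) ≠ 0 := by exact_mod_cast (by omega : n ≠ 0)
    have e1 : (tw θ (fun n : ℕ => χ n)) n = χ (n : ZMod q) * exp (-(θ * Real.log n * I)) := by
      unfold tw
      rw [Complex.cpow_def_of_ne_zero hn0, Complex.natCast_log]
      congr 2
      ring
    have e2 : ‖(tw θ (fun n : ℕ => χ n)) n‖ = 1 := by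
      rw [e1, norm_mul, Complex.norm_exp]
      have e3 : (-((θ : ℂ) * Real.log n * I)).re = 0 := by
        rw [← Complex.ofReal_mul, neg_re, Complex.re_ofReal_mul, I_re, mul_zero, neg_zero]
      rw [e3, Real.exp_zero, mul_one]
      obtain ⟨u, hu'⟩ := hu
      rw [← hu']
      exact χ.unit_norm_eq_one u
    obtain ⟨z, hz⟩ : ∃ z : ℂ, z = (tw θ (fun n : ℕ => χ n)) n := ⟨_, rfl⟩
    rw [← hz] at h1 e1 e2
    have e4 : z ^ 2 = 1 := by
      have e5 : z = (z.re : ℂ) := by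
        apply Complex.ext
        · simp
        · simp [h1]
      have e6 : z.re ^ 2 = 1 := by
        rw [e5, Complex.norm_real, Real.norm_eq_abs] at e2
        rw [← sq_abs, e2, one_pow]
      rw [e5]
      exact_mod_cast e6
    have e7 : χ (n : ZMod q) = z * exp (θ * Real.log n * I) := by
      rw [e1, mul_assoc, ← Complex.exp_add]
      simp
    rw [e7, mul_pow, e4, one_mul, ← Complex.exp_nat_mul]
    congr 1
    push_cast
    ring
  have hθ : θ = 0 := by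
    by_contra hne
    have hq0 : 0 < q := Nat.pos_of_ne_zero (NeZero.ne q)
    have h1 : ∀ j : ℕ, ∃ i : ℤ, θ * Real.log ((1 + q * j : ℕ) : ℝ) = i * Real.pi := by
      intro j
      have h2 : ((1 + q * j : ℕ) : ZMod q) = 1 := by push_cast; simp
      have h3 := hsq (1 + q * j) (by omega) (by rw [h2]; exact isUnit_one)
      rw [h2, map_one, one_pow] at h3
      obtain ⟨i, hi⟩ := Complex.exp_eq_one_iff.1 h3.symm
      refine ⟨i, ?_⟩
      have h4 := congrArg Complex.im hi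
      simp only [mul_im, mul_re, ofReal_re, ofReal_im, I_re, I_im, re_ofNat, im_ofNat,
        intCast_re, intCast_im, mul_zero, mul_one, zero_mul, sub_zero, add_zero] at h4
      linarith
    obtain ⟨J, hJ⟩ := exists_nat_gt (|θ| / Real.pi)
    obtain ⟨i1, h5⟩ := h1 J
    obtain ⟨i2, h6⟩ := h1 (J + 1)
    have hx : (0 : ℝ) < ((1 + q * J : ℕ) : ℝ) := by positivity
    have hy : ((1 + q * J : ℕ) : ℝ) < ((1 + q * (J + 1) : ℕ) : ℝ) := by
      exact_mod_cast (by nlinarith)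
    have hlog : Real.log ((1 + q * J : ℕ) : ℝ) < Real.log ((1 + q * (J + 1) : ℕ) : ℝ) :=
      Real.log_lt_log hx hy
    have hd : Real.log ((1 + q * (J + 1) : ℕ) : ℝ) - Real.log ((1 + q * J : ℕ) : ℝ) ≤
        (q : ℝ) / ((1 + q * J : ℕ) : ℝ) := by
      rw [← Real.log_div (hx.trans hy).ne' hx.ne']
      refine (Real.log_le_sub_one_of_pos (div_pos (hx.trans hy) hx)).trans ?_
      rw [div_sub_one hx.ne']
      apply div_le_div_of_nonneg_right _ hx.le
      push_cast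
      ring_nf
      exact le_rfl
    have hi : i1 ≠ i2 := by
      rintro rfl
      have h7 : θ * (Real.log ((1 + q * (J + 1) : ℕ) : ℝ) -
          Real.log ((1 + q * J : ℕ) : ℝ)) = 0 := by
        rw [mul_sub, h5, h6, sub_self]
      rcases mul_eq_zero.1 h7 with h8 | h8
      · exact hne h8
      · linarith
    have h9 : Real.pi ≤ |θ| * ((q : ℝ) / ((1 + q * J : ℕ) : ℝ)) := by
      have h10 : (1 : ℝ) ≤ |((i2 - i1 : ℤ) : ℝ)| := by
        have : (1 : ℤ) ≤ |i2 - i1| := Int.one_le_abs (sub_ne_zero.2 (Ne.symm hi))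
        exact_mod_cast this
      calc Real.pi ≤ |((i2 - i1 : ℤ) : ℝ)| * Real.pi := by
            nlinarith [Real.pi_pos]
        _ = |θ * (Real.log ((1 + q * (J + 1) : ℕ) : ℝ) -
              Real.log ((1 + q * J : ℕ) : ℝ))| := by
            rw [mul_sub, h5, h6, ← sub_mul, abs_mul, abs_of_pos Real.pi_pos]
            push_cast
            rfl
        _ = |θ| * (Real.log ((1 + q * (J + 1) : ℕ) : ℝ) -
              Real.log ((1 + q * J : ℕ) : ℝ)) := by
            rw [abs_mul, abs_of_pos (sub_pos.2 hlog)]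
        _ ≤ _ := mul_le_mul_of_nonneg_left hd (abs_nonneg _)
    have h11 : |θ| * ((q : ℝ) / ((1 + q * J : ℕ) : ℝ)) < Real.pi := by
      rw [div_lt_iff₀ Real.pi_pos] at hJ
      rw [← mul_div_assoc, div_lt_iff₀ hx]
      push_cast
      have hq1 : (0 : ℝ) < q := by exact_mod_cast hq0
      have h12 : |θ| * q < J * Real.pi * q := mul_lt_mul_of_pos_right hJ hq1
      nlinarith [Real.pi_pos]
    linarith
  refine ⟨hθ, ?_⟩
  refine MulChar.ext fun u => ?_
  have h1 : (((u : ZMod q).val + q : ℕ) : ZMod q) = u := by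
    push_cast
    simp
  have h2 := hsq ((u : ZMod q).val + q) (by have := Nat.pos_of_ne_zero (NeZero.ne q); omega)
    (by rw [h1]; exact u.isUnit)
  rw [h1, hθ] at h2
  rw [MulChar.pow_apply_coe, h2]
  simp

end NN_

end Pool.Agent.SelQ
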