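import Pool.Agent.SelQ.Final
import Pool.Agent.SelQ.Nonneg

/-!
# Degree two: a pole or nonnegative coefficients
-/

set_option autoImplicit false

namespace Pool.Agent.SelQ

open Complex Filter Topology Set
open Pool.Agent.SelPole Pool.Agent.SelTwo Pool.Agent.SelDeg2

/-- A negative order is `-r` with `r ≥ 1`. -/
theorem order_of_neg {F : ℂ → ℂ} (h : meromorphicOrderAt F 1 < 0) :
    ∃ r : ℕ, 1 ≤ r ∧ meromorphicOrderAt F 1 = ((-(r : ℤ) : ℤ) : WithTop ℤ) := by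
  obtain ⟨e, he⟩ : ∃ e : ℤ, meromorphicOrderAt F 1 = (e : WithTop ℤ) := by
    cases h' : meromorphicOrderAt F 1 with
    | top => rw [h'] at h; simp at h
    | coe e => exact ⟨e, rfl⟩
  have he0 : e < 0 := by
    rw [he] at h
    exact_mod_cast h
  refine ⟨e.natAbs, by omega, ?_⟩
  rw [he]
  congr 1
  omega

/-- Nonnegative coefficients force a pole. -/
theorem pole_of_nonneg {F : ℂ → ℂ} {a b : ℕ → ℂ} (hF : IsSelberg F a b) (hdeg : DegreeTwo F)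
    (ha : ∀ n : ℕ, 1 ≤ n → 0 ≤ (a n).re ∧ (a n).im = 0) : meromorphicOrderAt F 1 < 0 := by
  have hG1 := p_G1 p_STIR
  rw [← not_le]
  intro ho
  obtain ⟨m, g, hg, -, hgF⟩ := hF.continuation
  obtain ⟨E, hE, hFE⟩ := ext_of_nonneg hg hgF ho
  exact NN_.no_entire hG1 (Pool.Agent.SelDeg2.p_KER hG1) Pool.Agent.SelDeg2.p_FE hF hdeg ha
    hE hFE

/-- Members of the Selberg class of degree two with a pole or with nonnegative coefficients. -/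
theorem degree_two_nonneg {F : ℂ → ℂ} {a b : ℕ → ℂ} (hF : IsSelberg F a b)
    (hdeg : DegreeTwo F)
    (h : meromorphicOrderAt F 1 < 0 ∨ ∀ n : ℕ, 1 ≤ n → 0 ≤ (a n).re ∧ (a n).im = 0) :
    ∃ (r : ℕ) (L₁ : ℂ → ℂ), 1 ≤ r ∧
      meromorphicOrderAt F 1 = ((-(r : ℤ) : ℤ) : WithTop ℤ) ∧ Differentiable ℂ L₁ ∧
      (∀ s : ℂ, s ≠ 1 → F s = riemannZeta s ^ r * L₁ s) ∧
      ((r = 2 ∧ ∀ s : ℂ, L₁ s = 1) ∨
        (r = 1 ∧ ∃ (q : ℕ) (_ : NeZero q) (χ : DirichletCharacter ℂ q) (θ : ℝ),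
          χ.IsPrimitive ∧ χ ≠ 1 ∧
          ((∀ n : ℕ, 1 ≤ n → (a n).im = 0) → θ = 0 ∧ χ ^ 2 = 1) ∧
          ∀ s : ℂ, L₁ s = DirichletCharacter.LFunction χ (s + θ * I))) := by
  have hneg : meromorphicOrderAt F 1 < 0 := h.elim id (pole_of_nonneg hF hdeg)
  obtain ⟨r, hr, hpole⟩ := order_of_neg hneg
  obtain ⟨L₁, hL, hFL, hcase⟩ := degree_two_pole hF hdeg hr hpole
  refine ⟨r, L₁, hr, hpole, hL, hFL, hcase.imp id ?_⟩
  rintro ⟨hr1, q, hq, χ, θ, hprim, hne, h1⟩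
  refine ⟨hr1, q, hq, χ, θ, hprim, hne, fun ha => ?_, h1⟩
  refine NN_.real_case ha hF.summable fun s hs => ?_
  have hs1 : s ≠ 1 := by
    rintro rfl
    simp at hs
  rw [← hF.eq_series s hs, hFL s hs1, hr1, pow_one, h1 s]

end Pool.Agent.SelQ
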