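import Pool.Agent.SelQ.TargetsC
import Pool.Agent.SelDeg2.TW
import Pool.Agent.SelDeg2.EXPB

/-!
# Target ACN: the number of active primes
-/

set_option autoImplicit false

open Finset

namespace Pool.Agent.SelQ

open Complex Filter Topology
open Pool.Agent.SelDeg2 (ee gth SS Drel HasPole MeanSquare aX pser Lg Br LpF HH)
open Pool.Agent.SelPole (IsSelberg)

noncomputable section

namespace ACN_

theorem norm_cpow (q : Nat.Primes) (x : ℝ) :
    ‖((q : ℕ) : ℂ) ^ (-(1 + (x : ℂ)))‖ = ((q : ℕ) : ℝ) ^ (-1 - x) := by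
  have hq : 0 < (q : ℕ) := q.2.pos
  rw [Complex.norm_natCast_cpow_of_pos hq]
  congr 1
  simp [Complex.add_re]
  ring

theorem pser_le (f : ℕ → ℂ) (g : ℕ → ℝ) (x : ℝ) (h : ∀ q : Nat.Primes, ‖f q‖ ≤ g q)
    (hs : Summable (fun q : Nat.Primes => g q * ((q : ℕ) : ℝ) ^ (-1 - x))) :
    ‖pser f (1 + (x : ℂ))‖ ≤ ∑' q : Nat.Primes, g q * ((q : ℕ) : ℝ) ^ (-1 - x) := by
  unfold pser
  refine tsum_of_norm_bounded hs.hasSum (fun q => ?_)
  rw [norm_mul, norm_cpow]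
  exact mul_le_mul_of_nonneg_right (h q) (by positivity)

theorem cc_le {M M' : ℕ} (χ : DirichletCharacter ℂ M) (χ' : DirichletCharacter ℂ M') (n : ℕ) :
    ‖cc χ χ' n‖ ≤ 1 := by
  unfold cc
  rw [norm_mul, RCLike.norm_conj]
  have h1 := DirichletCharacter.norm_le_one χ (n : ZMod M)
  have h2 := DirichletCharacter.norm_le_one χ' (n : ZMod M')
  have h3 := norm_nonneg (χ (n : ZMod M))
  have h4 := norm_nonneg (χ' (n : ZMod M'))
  nlinarith

theorem prime_summable (x : ℝ) (hx : 0 < x) :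
    Summable (fun q : Nat.Primes => ((q : ℕ) : ℝ) ^ (-1 - x)) :=
  Nat.Primes.summable_rpow.2 (by linarith)

/-- Large `N`. -/
theorem large (B : ℕ) (K M : ℝ) (hB : 1 ≤ B) : ∃ N₀ : ℕ, 1 ≤ N₀ ∧
    ∀ N : ℕ, N₀ ≤ N → K * (N : ℝ) ^ (2 * B) ≤ 2 ^ N ∧
      M * 2 ^ N ≤ Real.exp (4 * (N : ℝ) ^ B) := by
  have h1 := tendsto_pow_const_div_const_pow_of_one_lt (2 * B) (show (1 : ℝ) < 2 by norm_num)
  have h2 : ∀ᶠ N : ℕ in atTop, (N : ℝ) ^ (2 * B) / 2 ^ N < 1 / (|K| + 1) :=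
    h1.eventually (gt_mem_nhds (by positivity))
  obtain ⟨N₁, hN₁⟩ := eventually_atTop.1 h2
  refine ⟨max 1 (max N₁ ⌈M⌉₊), le_max_left _ _, fun N hN => ?_⟩
  have hN1 : 1 ≤ N := (le_max_left _ _).trans hN
  have hN2 : N₁ ≤ N := ((le_max_left _ _).trans (le_max_right _ _)).trans hN
  have hN3 : ⌈M⌉₊ ≤ N := ((le_max_right _ _).trans (le_max_right _ _)).trans hN
  have hNM : M ≤ N := (Nat.le_ceil M).trans (by exact_mod_cast hN3)
  have hN1' : (1 : ℝ) ≤ N := by exact_mod_cast hN1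
  constructor
  · have h3 := hN₁ N hN2
    rw [div_lt_div_iff₀ (by positivity) (by positivity)] at h3
    have h4 : K ≤ |K| := le_abs_self K
    have h5 : 0 ≤ (N : ℝ) ^ (2 * B) := by positivity
    nlinarith
  · have h6 : (N : ℝ) ≤ (N : ℝ) ^ B := by
      calc (N : ℝ) = (N : ℝ) ^ 1 := (pow_one _).symm
        _ ≤ (N : ℝ) ^ B := pow_le_pow_right₀ hN1' hB
    have h7 : (2 : ℝ) ^ N ≤ Real.exp N := by
      have h8 : (2 : ℝ) ≤ Real.exp 1 := by
        have := Real.add_one_le_exp (1 : ℝ); linarith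
      calc (2 : ℝ) ^ N ≤ Real.exp 1 ^ N := pow_le_pow_left₀ (by norm_num) h8 N
        _ = Real.exp N := by rw [← Real.exp_nat_mul]; ring_nf
    have h9 : M ≤ Real.exp (3 * N) := by
      have := Real.add_one_le_exp (3 * (N : ℝ)); linarith
    calc M * 2 ^ N ≤ Real.exp (3 * N) * Real.exp N :=
          mul_le_mul h9 h7 (by positivity) (by positivity)
      _ = Real.exp (4 * N) := by rw [← Real.exp_add]; ring_nf
      _ ≤ _ := Real.exp_le_exp.2 (by linarith)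

theorem Lg_et (N : ℕ) : Lg (et N) = 2 ^ N := by
  unfold Lg et
  rw [one_div, ← Real.exp_neg, neg_neg, Real.log_exp]

end ACN_

open ACN_ in
theorem p_ACN (hRTO : T_RTO) (hBES : T_BES) (hSQ1 : T_SQ1) : T_ACN := by
  classical
  intro F a b r B hF hQP hr hB
  obtain ⟨C₃, hC₃, hR⟩ := hRTO
  obtain ⟨C₁, hC₁, hS⟩ := hSQ1 a hQP
  obtain ⟨C₂, hC₂, hE⟩ := (Pool.Agent.SelDeg2.p_EXPB Pool.Agent.SelDeg2.p_TW) F a b hF
  obtain ⟨Cq, hq⟩ := hQP
  obtain ⟨N₀, hN₀, hlarge⟩ := large B (40 + 2 * (10 + C₂ + 1681 * C₁)) (64 * |Cq| * C₃) hB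
  refine ⟨256 * |Cq| * C₁, N₀, by positivity, fun N hN P hP => ?_⟩
  have hN1 : 1 ≤ N := hN₀.trans hN
  have hN1' : (1 : ℝ) ≤ N := by exact_mod_cast hN1
  obtain ⟨hA, hBd⟩ := hlarge N hN
  set l : ℝ := 2 ^ N with hl
  set nb : ℝ := (N : ℝ) ^ B with hnb
  have hnb1 : 1 ≤ nb := one_le_pow₀ hN1'
  have hnb2 : (N : ℝ) ^ (2 * B) = nb ^ 2 := by rw [hnb, ← pow_mul, mul_comm]
  rw [hnb2] at hA
  have hl1 : 1 ≤ l := one_le_pow₀ (by norm_num)
  set η : ℝ := et N with hη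
  set x : ℝ := Real.exp (-(40 * nb)) with hx
  have hη0 : 0 < η := Real.exp_pos _
  have hx0 : 0 < x := Real.exp_pos _
  have hx1 : x ≤ 1 := by rw [hx, Real.exp_le_one_iff]; linarith
  have hnbsq : nb ≤ nb ^ 2 := le_self_pow₀ hnb1 (by norm_num)
  have h40 : 40 * nb ≤ l := by
    have h0 : 0 ≤ (2 * (10 + C₂ + 1681 * C₁)) * nb ^ 2 := by positivity
    have h1 : (40 + 2 * (10 + C₂ + 1681 * C₁)) * nb ^ 2 =
      40 * nb ^ 2 + (2 * (10 + C₂ + 1681 * C₁)) * nb ^ 2 := by ring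
    rw [h1] at hA
    linarith
  have hηx : η ≤ x := by
    rw [hη, hx]; unfold et
    refine Real.exp_le_exp.2 ?_
    rw [← hl]
    linarith
  have hη1 : η ≤ 1 := hηx.trans hx1
  have hLη : Lg η = l := Lg_et N
  have hLη' : Real.log (1 / η) = l := hLη
  have hLx : Lg x = 40 * nb := by
    unfold Lg; rw [hx, one_div, ← Real.exp_neg, neg_neg, Real.log_exp]
  -- the choice of the characters
  have hch : ∀ p : ℕ, ∃ χ : DirichletCharacter ℂ (p ^ 1), p ∈ P → χ ≠ 1 ∧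
      (1 / et N) ^ r * (1 / YY B N) ^ 10 < ‖LSeries (aX a χ) (1 + (et N : ℂ))‖ := by
    intro p
    by_cases hp : p ∈ P
    · obtain ⟨χ, h1, h2⟩ := (hP p hp).2.2
      exact ⟨χ, fun _ => ⟨h1, h2⟩⟩
    · exact ⟨1, fun h => absurd h hp⟩
  choose χ hχ using hch
  obtain ⟨hsη, hbη⟩ := hq η hη0 hη1
  obtain ⟨hs1x, hs2x, hs3x⟩ := hS x hx0 hx1
  obtain ⟨_, _, hs3η⟩ := hS η hη0 hη1
  rw [hLx] at hs2x hs3x
  rw [hLη] at hs3η
  set H : ℝ := |Cq| * (1 + l) ^ 3 with hH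
  have hbH : ∑' q : Nat.Primes, ‖a q‖ ^ 2 * ((q : ℕ) : ℝ) ^ (-1 - η) ≤ H := by
    refine hbη.trans ?_
    rw [hLη', hH]
    exact mul_le_mul_of_nonneg_right (le_abs_self _) (by positivity)
  have hmain := hBES a η x H hη0 hηx hx1 hsη hbH P χ
  -- lower bound of the terms on the left
  have hleft : ∀ p ∈ P, l / 2 ≤ (pser (aX a (χ p)) (1 + (η : ℂ)) -
      pser (aX a (χ p)) (1 + (x : ℂ))).re := by
    intro p hp
    obtain ⟨hp1, hp2, _⟩ := hP p hp
    have : NeZero (p ^ 1) := ⟨by rw [pow_one]; exact hp1.ne_zero⟩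
    obtain ⟨_, hbig⟩ := hχ p hp
    obtain ⟨_, e, he, hexp⟩ := hE (p ^ 1) (χ p) (1 + (η : ℂ)) (by simp [hη0])
    rw [← hη, hexp, Complex.norm_exp] at hbig
    have h1 : (1 / η) ^ r * (1 / YY B N) ^ 10 = Real.exp (r * l - 10 * nb) := by
      rw [hη]; unfold et YY
      rw [one_div, one_div, ← Real.exp_neg, ← Real.exp_neg, neg_neg, ← Real.exp_nat_mul,
        ← Real.exp_nat_mul, ← Real.exp_add, ← hl, ← hnb]
      congr 1
      push_cast; ring
    rw [h1, Real.exp_lt_exp, Complex.add_re] at hbig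
    have h2 : e.re ≤ C₂ := (Complex.re_le_norm e).trans he
    have h3 : ‖pser (aX a (χ p)) (1 + (x : ℂ))‖ ≤ C₁ * (1 + 40 * nb) ^ 2 := by
      refine (pser_le (aX a (χ p)) (fun n => ‖a n‖) x (fun q => ?_) hs1x).trans hs2x
      unfold aX
      rw [norm_mul]
      exact mul_le_of_le_one_right (norm_nonneg _) (DirichletCharacter.norm_le_one _ _)
    have h4 : (pser (aX a (χ p)) (1 + (x : ℂ))).re ≤ C₁ * (1 + 40 * nb) ^ 2 :=
      (Complex.re_le_norm _).trans h3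
    have h5 : l ≤ r * l := by
      have : (1 : ℝ) ≤ r := by exact_mod_cast hr
      exact le_mul_of_one_le_left (by linarith) this
    have h6 : C₁ * (1 + 40 * nb) ^ 2 ≤ C₁ * (1681 * nb ^ 2) := by
      refine mul_le_mul_of_nonneg_left ?_ hC₁
      calc (1 + 40 * nb) ^ 2 ≤ (41 * nb) ^ 2 :=
            pow_le_pow_left₀ (by positivity) (by linarith) 2
        _ = 1681 * nb ^ 2 := by ring
    have h7 : C₂ ≤ C₂ * nb ^ 2 := le_mul_of_one_le_right hC₂ (one_le_pow₀ hnb1)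
    have h8 : 10 * nb ^ 2 + C₂ * nb ^ 2 + 1681 * (C₁ * nb ^ 2) ≤ l / 2 := by
      have h9 : 0 ≤ nb ^ 2 := sq_nonneg nb
      linarith
    have h10 : C₁ * (1681 * nb ^ 2) = 1681 * (C₁ * nb ^ 2) := by ring
    rw [h10] at h6
    rw [Complex.sub_re]
    linarith
  -- upper bound of the terms on the right
  have hsum1 : ∀ y : ℝ, 0 < y → ∀ p p' : ℕ, ‖pser (cc (χ p) (χ p')) (1 + (y : ℂ))‖ ≤
      ∑' q : Nat.Primes, ((q : ℕ) : ℝ) ^ (-1 - y) := by
    intro y hy p p'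
    have h1 := pser_le (cc (χ p) (χ p')) (fun _ => 1) y (fun q => cc_le _ _ _)
      (by simpa using prime_summable y hy)
    simpa using h1
  have hY : YY B N = Real.exp nb := rfl
  have hdiag : ∀ p ∈ P, (pser (cc (χ p) (χ p)) (1 + (η : ℂ)) -
      pser (cc (χ p) (χ p)) (1 + (x : ℂ))).re ≤ 2 * C₁ * (1 + l) := by
    intro p _
    have h1 := hsum1 η hη0 p p
    have h2 := hsum1 x hx0 p p
    have h4 : C₁ * (1 + 40 * nb) ≤ C₁ * (1 + l) := mul_le_mul_of_nonneg_left (by linarith) hC₁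
    calc _ ≤ ‖pser (cc (χ p) (χ p)) (1 + (η : ℂ)) - pser (cc (χ p) (χ p)) (1 + (x : ℂ))‖ :=
          Complex.re_le_norm _
      _ ≤ ‖pser (cc (χ p) (χ p)) (1 + (η : ℂ))‖ + ‖pser (cc (χ p) (χ p)) (1 + (x : ℂ))‖ :=
          norm_sub_le _ _
      _ ≤ _ := by linarith
  have hoff : ∀ p ∈ P, ∀ p' ∈ P, p ≠ p' → (pser (cc (χ p) (χ p')) (1 + (η : ℂ)) -
      pser (cc (χ p) (χ p')) (1 + (x : ℂ))).re ≤ C₃ * Real.exp (-(4 * nb)) := by
    intro p hp p' hp' hne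
    obtain ⟨hp1, hp2, _⟩ := hP p hp
    obtain ⟨hp1', hp2', _⟩ := hP p' hp'
    have h1 := hR p p' (χ p) (χ p') hp1 hp1' hne (hχ p hp).1 η x hη0 hηx hx1
    refine h1.trans ?_
    rw [mul_assoc]
    refine mul_le_mul_of_nonneg_left ?_ hC₃
    have h2 : x ^ (1 / 4 : ℝ) = Real.exp (-(10 * nb)) := by
      rw [hx, ← Real.exp_mul]; congr 1; ring
    have h3 : ((p : ℝ) * p') ^ 3 ≤ (Real.exp nb * Real.exp nb) ^ 3 := by
      refine pow_le_pow_left₀ (by positivity) ?_ 3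
      exact mul_le_mul (hY ▸ hp2) (hY ▸ hp2') (by positivity) (by positivity)
    have h4 : (Real.exp nb * Real.exp nb) ^ 3 = Real.exp (6 * nb) := by
      rw [← Real.exp_add, ← Real.exp_nat_mul]; congr 1; push_cast; ring
    rw [h2]
    calc Real.exp (-(10 * nb)) * ((p : ℝ) * p') ^ 3
        ≤ Real.exp (-(10 * nb)) * Real.exp (6 * nb) :=
          mul_le_mul_of_nonneg_left (h4 ▸ h3) (Real.exp_pos _).le
      _ = Real.exp (-(4 * nb)) := by rw [← Real.exp_add]; congr 1; ring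
  set J : ℝ := (P.card : ℝ) with hJ
  have hJ0 : 0 ≤ J := Nat.cast_nonneg _
  set S : ℝ := J * (2 * C₁ * (1 + l) + J * (C₃ * Real.exp (-(4 * nb)))) with hSdef
  have hSum : ∑ p ∈ P, ∑ p' ∈ P, (pser (cc (χ p) (χ p')) (1 + (η : ℂ)) -
      pser (cc (χ p) (χ p')) (1 + (x : ℂ))).re ≤ S := by
    have h1 : ∀ p ∈ P, ∑ p' ∈ P, (pser (cc (χ p) (χ p')) (1 + (η : ℂ)) -
        pser (cc (χ p) (χ p')) (1 + (x : ℂ))).re ≤
        2 * C₁ * (1 + l) + J * (C₃ * Real.exp (-(4 * nb))) := by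
      intro p hp
      have h2 : ∀ p' ∈ P, (pser (cc (χ p) (χ p')) (1 + (η : ℂ)) -
        pser (cc (χ p) (χ p')) (1 + (x : ℂ))).re ≤
        (if p' = p then 2 * C₁ * (1 + l) else 0) + C₃ * Real.exp (-(4 * nb)) := by
        intro p' hp'
        have h0 : 0 ≤ C₃ * Real.exp (-(4 * nb)) := by positivity
        split_ifs with h
        · subst h
          have := hdiag p' hp'
          linarith
        · have := hoff p hp p' hp' (Ne.symm h)
          linarith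
      refine (Finset.sum_le_sum h2).trans ?_
      rw [Finset.sum_add_distrib, Finset.sum_ite_eq' P p, if_pos hp, Finset.sum_const,
        nsmul_eq_mul]
    refine (Finset.sum_le_sum h1).trans ?_
    rw [Finset.sum_const, nsmul_eq_mul]
  have hH0 : 0 ≤ H := by positivity
  have hS0 : 0 ≤ S := by positivity
  have hJl : J * (l / 2) ≤ Real.sqrt (H * S) := by
    have h1 : J * (l / 2) ≤ ∑ p ∈ P, (pser (aX a (χ p)) (1 + (η : ℂ)) -
        pser (aX a (χ p)) (1 + (x : ℂ))).re := by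
      have := Finset.sum_le_sum hleft
      rwa [Finset.sum_const, nsmul_eq_mul] at this
    refine (h1.trans hmain).trans (Real.sqrt_le_sqrt ?_)
    exact mul_le_mul_of_nonneg_left hSum hH0
  have hsq : (J * (l / 2)) ^ 2 ≤ H * S := by
    have h1 := pow_le_pow_left₀ (by positivity) hJl 2
    rwa [Real.sq_sqrt (by positivity)] at h1
  rcases hJ0.eq_or_lt with h0 | h0
  · rw [← h0]; positivity
  · have hHl : H ≤ 8 * |Cq| * l ^ 3 := by
      rw [hH]
      have : (1 + l) ^ 3 ≤ (2 * l) ^ 3 := pow_le_pow_left₀ (by positivity) (by linarith) 3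
      have h2 := mul_le_mul_of_nonneg_left this (abs_nonneg Cq)
      calc |Cq| * (1 + l) ^ 3 ≤ |Cq| * (2 * l) ^ 3 := h2
        _ = _ := by ring
    -- divide by J
    have h1 : J * (l ^ 2 / 4) ≤ H * (2 * C₁ * (1 + l) + J * (C₃ * Real.exp (-(4 * nb)))) := by
      have h2 : J * (J * (l ^ 2 / 4)) ≤
          J * (H * (2 * C₁ * (1 + l) + J * (C₃ * Real.exp (-(4 * nb))))) := by
        calc J * (J * (l ^ 2 / 4)) = (J * (l / 2)) ^ 2 := by ring
          _ ≤ H * S := hsq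
          _ = _ := by rw [hSdef]; ring
      exact le_of_mul_le_mul_left h2 h0
    have h3 : 8 * |Cq| * l ^ 3 * (C₃ * Real.exp (-(4 * nb))) ≤ l ^ 2 / 8 := by
      have h4 : 64 * |Cq| * C₃ * l * Real.exp (-(4 * nb)) ≤ 1 := by
        calc 64 * |Cq| * C₃ * l * Real.exp (-(4 * nb))
            ≤ Real.exp (4 * nb) * Real.exp (-(4 * nb)) :=
              mul_le_mul_of_nonneg_right hBd (Real.exp_pos _).le
          _ = 1 := by rw [← Real.exp_add]; simp
      have h5 : 0 ≤ l ^ 2 / 8 := by positivity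
      have h6 := mul_le_mul_of_nonneg_left h4 h5
      calc 8 * |Cq| * l ^ 3 * (C₃ * Real.exp (-(4 * nb)))
          = l ^ 2 / 8 * (64 * |Cq| * C₃ * l * Real.exp (-(4 * nb))) := by ring
        _ ≤ l ^ 2 / 8 * 1 := h6
        _ = _ := mul_one _
    have h7 : H * (J * (C₃ * Real.exp (-(4 * nb)))) ≤ J * (l ^ 2 / 8) := by
      have h8 : 0 ≤ J * (C₃ * Real.exp (-(4 * nb))) := by positivity
      calc H * (J * (C₃ * Real.exp (-(4 * nb))))
          ≤ 8 * |Cq| * l ^ 3 * (J * (C₃ * Real.exp (-(4 * nb)))) :=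
            mul_le_mul_of_nonneg_right hHl h8
        _ = J * (8 * |Cq| * l ^ 3 * (C₃ * Real.exp (-(4 * nb)))) := by ring
        _ ≤ _ := mul_le_mul_of_nonneg_left h3 hJ0
    have h9 : H * (2 * C₁ * (1 + l)) ≤ 32 * |Cq| * C₁ * l ^ 4 := by
      calc H * (2 * C₁ * (1 + l)) ≤ (8 * |Cq| * l ^ 3) * (2 * C₁ * (2 * l)) := by
            refine mul_le_mul hHl ?_ (by positivity) (by positivity)
            exact mul_le_mul_of_nonneg_left (by linarith) (by positivity)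
        _ = _ := by ring
    have h10 : J * (l ^ 2 / 8) ≤ 32 * |Cq| * C₁ * l ^ 4 := by
      rw [mul_add] at h1
      have h14 : J * (l ^ 2 / 4) = J * (l ^ 2 / 8) + J * (l ^ 2 / 8) := by ring
      linarith
    have h11 : (l ^ 2 / 8) * J ≤ (l ^ 2 / 8) * (256 * |Cq| * C₁ * l ^ 2) := by
      calc (l ^ 2 / 8) * J = J * (l ^ 2 / 8) := by ring
        _ ≤ 32 * |Cq| * C₁ * l ^ 4 := h10
        _ = _ := by ring
    have h12 : J ≤ 256 * |Cq| * C₁ * l ^ 2 := le_of_mul_le_mul_left h11 (by positivity)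
    have h13 : l ^ 2 = 4 ^ N := by
      rw [hl, ← pow_mul, mul_comm, pow_mul]; norm_num
    rwa [h13] at h12

end

end Pool.Agent.SelQ
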