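import Pool.Agent.SelQ.TargetsD

/-!
# SD2-FAI: half of the classes fail
-/

set_option autoImplicit false

open Finset

namespace Pool.Agent.SelQ

open Classical in
theorem FAI_wt_nonneg (π : ℕ → ℝ) (hπ : ∀ p, 0 ≤ π p ∧ π p ≤ 1) (Q B : Finset ℕ) :
    0 ≤ (∏ p ∈ B, π p) * ∏ p ∈ Q \ B, (1 - π p) :=
  mul_nonneg (prod_nonneg fun p _ => (hπ p).1)
    (prod_nonneg fun p _ => sub_nonneg.2 (hπ p).2)

theorem FAI_mono (π : ℕ → ℝ) (hπ : ∀ p, 0 ≤ π p ∧ π p ≤ 1) (Q : Finset ℕ)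
    (F F' : Finset ℕ → ℝ) (h : ∀ B, F B ≤ F' B) : EB π Q F ≤ EB π Q F' := by
  unfold EB
  exact sum_le_sum fun B _ => mul_le_mul_of_nonneg_right (h B) (FAI_wt_nonneg π hπ Q B)

theorem FAI_nonneg (π : ℕ → ℝ) (hπ : ∀ p, 0 ≤ π p ∧ π p ≤ 1) (Q : Finset ℕ)
    (F : Finset ℕ → ℝ) (h : ∀ B, 0 ≤ F B) : 0 ≤ EB π Q F := by
  unfold EB
  exact sum_nonneg fun B _ => mul_nonneg (h B) (FAI_wt_nonneg π hπ Q B)

theorem FAI_sum (π : ℕ → ℝ) (Q : Finset ℕ) (s : Finset (Finset ℕ))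
    (F : Finset ℕ → Finset ℕ → ℝ) :
    EB π Q (fun B => ∑ S ∈ s, F S B) = ∑ S ∈ s, EB π Q (F S) := by
  unfold EB
  rw [sum_comm]
  exact sum_congr rfl fun B _ => by rw [sum_mul]

theorem FAI_one (hEBS : T_EBS) (π : ℕ → ℝ) (Q : Finset ℕ) : EB π Q (fun _ => 1) = 1 := by
  have h := hEBS π Q ∅ (empty_subset _)
  simpa using h

theorem p_FAI (hEBS : T_EBS) (hIND : T_IND) : T_FAI := by
  classical
  intro π G P bad hπ hdis hbad
  set U := (range G).biUnion P with hU
  -- the functions of the classes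
  set Φ : Finset ℕ → ℕ → Finset ℕ → ℝ :=
    fun S i C => if i ∈ S then (if bad i C then 1 else 0) else 1 with hΦ
  have hΦ0 : ∀ S i C, 0 ≤ Φ S i C := by
    intro S i C
    simp only [hΦ]
    split_ifs <;> norm_num
  set T := (range G).powerset.filter (fun S => G ≤ 2 * S.card) with hT
  -- the bound of the indicator
  have h1 : ∀ B : Finset ℕ,
      (if G ≤ 2 * ((range G).filter (fun i => bad i (B ∩ P i))).card then (1 : ℝ) else 0) ≤
        ∑ S ∈ T, ∏ i ∈ range G, Φ S i (B ∩ P i) := by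
    intro B
    have h0 : ∀ S ∈ T, 0 ≤ ∏ i ∈ range G, Φ S i (B ∩ P i) :=
      fun S _ => prod_nonneg fun i _ => hΦ0 S i _
    split_ifs with h
    · have hmem : (range G).filter (fun i => bad i (B ∩ P i)) ∈ T :=
        mem_filter.2 ⟨mem_powerset.2 (filter_subset _ _), h⟩
      refine le_trans (le_of_eq ?_) (single_le_sum h0 hmem)
      symm
      refine prod_eq_one fun i hi => ?_
      simp only [hΦ]
      by_cases hb : bad i (B ∩ P i)
      · simp [hb]
      · simp [hb]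
    · exact sum_nonneg h0
  -- the expectation of one term
  have h2 : ∀ S ∈ T, EB π U (fun B => ∏ i ∈ range G, Φ S i (B ∩ P i)) ≤ (1 / 8) ^ G := by
    intro S hS
    obtain ⟨hSG, hcard⟩ := mem_filter.1 hS
    have hSG' : S ⊆ range G := mem_powerset.1 hSG
    rw [hIND π G P (Φ S) hdis]
    have e1 : ∀ i ∈ range G, EB π (P i) (Φ S i) ≤ if i ∈ S then (1 / 64 : ℝ) else 1 := by
      intro i hi
      by_cases hiS : i ∈ S
      · rw [if_pos hiS]
        have : Φ S i = fun B => if bad i B then 1 else 0 := by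
          funext B
          simp [hΦ, hiS]
        rw [this]
        exact hbad i (mem_range.1 hi)
      · rw [if_neg hiS]
        have : Φ S i = fun _ => 1 := by
          funext B
          simp [hΦ, hiS]
        rw [this, FAI_one hEBS]
    calc ∏ i ∈ range G, EB π (P i) (Φ S i)
        ≤ ∏ i ∈ range G, (if i ∈ S then (1 / 64 : ℝ) else 1) :=
          prod_le_prod (fun i _ => FAI_nonneg π hπ _ _ fun B => hΦ0 S i B) e1
      _ = (1 / 64) ^ S.card := by
          rw [prod_ite_mem, inter_eq_right.2 hSG', prod_const]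
      _ = (1 / 8) ^ (2 * S.card) := by
          rw [pow_mul]; norm_num
      _ ≤ (1 / 8) ^ G := pow_le_pow_of_le_one (by norm_num) (by norm_num) hcard
  have h3 : (T.card : ℝ) ≤ 2 ^ G := by
    have : T.card ≤ 2 ^ G := by
      refine (card_filter_le _ _).trans ?_
      rw [card_powerset, card_range]
    exact_mod_cast this
  calc EB π U (fun B => if G ≤ 2 * ((range G).filter (fun i => bad i (B ∩ P i))).card then 1 else 0)
      ≤ EB π U (fun B => ∑ S ∈ T, ∏ i ∈ range G, Φ S i (B ∩ P i)) := FAI_mono π hπ U _ _ h1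
    _ = ∑ S ∈ T, EB π U (fun B => ∏ i ∈ range G, Φ S i (B ∩ P i)) :=
        FAI_sum π U T fun S B => ∏ i ∈ range G, Φ S i (B ∩ P i)
    _ ≤ ∑ _S ∈ T, (1 / 8 : ℝ) ^ G := sum_le_sum h2
    _ = T.card * (1 / 8 : ℝ) ^ G := by rw [sum_const, nsmul_eq_mul]
    _ ≤ 2 ^ G * (1 / 8 : ℝ) ^ G := mul_le_mul_of_nonneg_right h3 (by positivity)
    _ = (1 / 4) ^ G := by rw [← mul_pow]; norm_num

end Pool.Agent.SelQ
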