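import Pool.Agent.SelQ.TargetsE

/-!
# SD2-MAS: the masses of the weights
-/

set_option autoImplicit false

open Finset

namespace Pool.Agent.SelQ

noncomputable section

namespace MAS_

theorem image_div {κ u v : ℝ} (hκ : 0 < κ) (hu : 0 < u) (huv : u < v) :
    (fun x : ℝ => κ / x) '' Set.Icc (κ / v) (κ / u) = Set.Icc u v := by
  have hv : 0 < v := hu.trans huv
  ext x
  constructor
  · rintro ⟨y, ⟨h1, h2⟩, rfl⟩
    have hy : 0 < y := lt_of_lt_of_le (by positivity) h1
    rw [div_le_iff₀ hv] at h1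
    rw [le_div_iff₀ hu] at h2
    constructor
    · show u ≤ κ / y
      rw [le_div_iff₀ hy]
      linarith
    · show κ / y ≤ v
      rw [div_le_iff₀ hy]
      linarith
  · rintro ⟨h1, h2⟩
    have hx : 0 < x := lt_of_lt_of_le hu h1
    refine ⟨κ / x, ⟨?_, ?_⟩, ?_⟩
    · exact div_le_div_of_nonneg_left hκ.le hx h2
    · exact div_le_div_of_nonneg_left hκ.le hu h1
    · show κ / (κ / x) = x
      field_simp

/-- the substitution -/
theorem subst {κ u v η : ℝ} (hκ : 0 < κ) (hu : 0 < u) (huv : u < v) :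
    ∫ x in (κ / v)..(κ / u), W1 κ η u v x = ∫ x in u..v, W0 u v x * (x ^ 2 / κ) ^ η := by
  have hv : 0 < v := hu.trans huv
  have hle : κ / v ≤ κ / u := div_le_div_of_nonneg_left hκ.le hu huv.le
  rw [intervalIntegral.integral_of_le huv.le, intervalIntegral.integral_of_le hle,
    ← MeasureTheory.integral_Icc_eq_integral_Ioc, ← MeasureTheory.integral_Icc_eq_integral_Ioc]
  conv_rhs => rw [← image_div hκ hu huv]
  rw [MeasureTheory.integral_image_eq_integral_abs_deriv_smul (f' := fun x => -κ / x ^ 2)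
    measurableSet_Icc]
  · apply MeasureTheory.setIntegral_congr_fun measurableSet_Icc
    intro x hx
    have hx0 : 0 < x := lt_of_lt_of_le (by positivity) hx.1
    have e2 : (κ / x) ^ 2 / κ = κ / x ^ 2 := by field_simp
    have e3 : |-κ / x ^ 2| = κ / x ^ 2 := by
      rw [neg_div, abs_neg, abs_of_pos (by positivity)]
    show W1 κ η u v x = |-κ / x ^ 2| • (W0 u v (κ / x) * ((κ / x) ^ 2 / κ) ^ η)
    rw [e2, e3, smul_eq_mul]
    unfold W1
    rw [Real.rpow_add (by positivity), Real.rpow_one]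
    ring
  · intro x hx
    have hx0 : 0 < x := lt_of_lt_of_le (by positivity) hx.1
    have h1 := (hasDerivAt_inv hx0.ne').const_mul κ
    have h2 : κ * -(x ^ 2)⁻¹ = -κ / x ^ 2 := by ring
    rw [h2] at h1
    exact h1.hasDerivWithinAt
  · intro x hx y hy hxy
    have hx0 : 0 < x := lt_of_lt_of_le (by positivity) hx.1
    have hy0 : 0 < y := lt_of_lt_of_le (by positivity) hy.1
    have h1 : κ / x = κ / y := hxy
    rw [div_eq_div_iff hx0.ne' hy0.ne'] at h1
    exact (mul_left_cancel₀ hκ.ne' h1).symm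

theorem w0_cont (u v : ℝ) : Continuous (W0 u v) := by
  unfold W0
  fun_prop

theorem w0_nonneg {u v x : ℝ} (h : x ∈ Set.Icc u v) : 0 ≤ W0 u v x :=
  mul_nonneg (by linarith [h.1]) (by linarith [h.2])

theorem int1 {κ u v η : ℝ} (hκ : 0 < κ) (hu : 0 < u) (huv : u < v) :
    IntervalIntegrable (fun x => W0 u v x * (x ^ 2 / κ) ^ η) MeasureTheory.volume u v := by
  apply ContinuousOn.intervalIntegrable
  rw [Set.uIcc_of_le huv.le]
  apply (w0_cont u v).continuousOn.mul
  apply ContinuousOn.rpow_const (by fun_prop)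
  intro x hx
  left
  have hx0 : 0 < x := lt_of_lt_of_le hu hx.1
  positivity

end MAS_

open MAS_ in
/-- Target MAS. -/
theorem p_MAS : T_MAS := by
  intro κ u v hκ hu huv
  have hv : 0 < v := hu.trans huv
  have hint0 : IntervalIntegrable (W0 u v) MeasureTheory.volume u v :=
    (w0_cont u v).intervalIntegrable u v
  refine ⟨?_, ?_, ?_⟩
  · apply intervalIntegral.intervalIntegral_pos_of_pos_on hint0 _ huv
    intro x hx
    exact mul_pos (by linarith [hx.1]) (by linarith [hx.2])
  · intro hvκ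
    have hq : v ^ 2 / κ < 1 := by rwa [div_lt_one hκ]
    refine ⟨1 - v ^ 2 / κ, by linarith, ?_⟩
    intro η hη hη1
    rw [subst hκ hu huv, ← intervalIntegral.integral_const_mul]
    apply intervalIntegral.integral_mono_on huv.le (int1 hκ hu huv)
      (hint0.const_mul _)
    intro x hx
    have hx0 : 0 < x := lt_of_lt_of_le hu hx.1
    have h1 : (x ^ 2 / κ) ^ η ≤ 1 - (1 - v ^ 2 / κ) * η := by
      have h2 : (x ^ 2 / κ) ^ η ≤ (v ^ 2 / κ) ^ η := by
        apply Real.rpow_le_rpow (by positivity) _ hη.le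
        apply div_le_div_of_nonneg_right _ hκ.le
        nlinarith [hx.2]
      have h3 : (1 + (v ^ 2 / κ - 1)) ^ η ≤ 1 + η * (v ^ 2 / κ - 1) := by
        apply _root_.rpow_one_add_le_one_add_mul_self _ hη.le hη1
        have : 0 < v ^ 2 / κ := by positivity
        linarith
      have h4 : 1 + (v ^ 2 / κ - 1) = v ^ 2 / κ := by ring
      rw [h4] at h3
      linarith
    have h5 := mul_le_mul_of_nonneg_left h1 (w0_nonneg hx)
    linarith
  · intro hκu
    have hq : 1 < u ^ 2 / κ := by rwa [one_lt_div hκ]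
    refine ⟨Real.log (u ^ 2 / κ), Real.log_pos hq, ?_⟩
    intro η hη hη1
    rw [subst hκ hu huv, ← intervalIntegral.integral_const_mul]
    apply intervalIntegral.integral_mono_on huv.le (hint0.const_mul _) (int1 hκ hu huv)
    intro x hx
    have hx0 : 0 < x := lt_of_lt_of_le hu hx.1
    have h1 : 1 + Real.log (u ^ 2 / κ) * η ≤ (x ^ 2 / κ) ^ η := by
      have h2 : (u ^ 2 / κ) ^ η ≤ (x ^ 2 / κ) ^ η := by
        apply Real.rpow_le_rpow (by positivity) _ hη.le
        apply div_le_div_of_nonneg_right _ hκ.le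
        nlinarith [hx.1]
      have h3 : Real.log (u ^ 2 / κ) * η + 1 ≤ (u ^ 2 / κ) ^ η := by
        rw [Real.rpow_def_of_pos (by positivity)]
        exact Real.add_one_le_exp _
      linarith
    have h5 := mul_le_mul_of_nonneg_left h1 (w0_nonneg hx)
    linarith

end

end Pool.Agent.SelQ
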