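import Pool.Agent.SelQ.TargetsD

/-!
# SD2-SEL: choice of the number of primes
-/

set_option autoImplicit false

open Finset

namespace Pool.Agent.SelQ

noncomputable section

/-- Target SEL. -/
theorem p_SEL : T_SEL := by
  intro K M V N hM hV hK hK0 hrec hN
  set L : ℕ → ℝ := fun j => K j * (j.factorial : ℝ) / M ^ j with hL
  have hf : ∀ j : ℕ, (0 : ℝ) < (j.factorial : ℝ) := fun j => by exact_mod_cast Nat.factorial_pos j
  have hMp : ∀ j : ℕ, 0 < M ^ j := fun j => pow_pos hM j
  have hL0 : L 0 ≤ 1 := by simpa [hL] using hK0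
  have hLs : ∀ j, L (j + 1) ≤ L j := by
    intro j
    simp only [hL]
    rw [div_le_div_iff₀ (hMp _) (hMp _), Nat.factorial_succ, pow_succ]
    push_cast
    have h1 := hrec j
    have h2 : 0 < (j.factorial : ℝ) * M ^ j := mul_pos (hf j) (hMp j)
    calc K (j + 1) * (((j : ℝ) + 1) * (j.factorial : ℝ)) * M ^ j
        = (((j : ℝ) + 1) * K (j + 1)) * ((j.factorial : ℝ) * M ^ j) := by ring
      _ ≤ (M * K j) * ((j.factorial : ℝ) * M ^ j) := mul_le_mul_of_nonneg_right h1 h2.le
      _ = K j * (j.factorial : ℝ) * (M ^ j * M) := by ring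
  have hanti : Antitone L := antitone_nat_of_succ_le hLs
  have hLN : 1 ≤ V * L N := by
    have h1 := hN
    rw [div_le_iff₀ (hf N)] at h1
    simp only [hL]
    rw [← mul_div_assoc, le_div_iff₀ (hMp N), one_mul]
    linarith
  obtain ⟨R, hR, hmax⟩ := exists_max_image (range (N + 1)) (fun j => (2 : ℝ) ^ j * L j)
    ⟨0, by simp⟩
  have hRN : R ≤ N := by
    have := mem_range.1 hR
    omega
  have hmax' : ∀ j ≤ N, (2 : ℝ) ^ j * L j ≤ 2 ^ R * L R := fun j hj =>
    hmax j (mem_range.2 (by omega))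
  have hLR1 : L R ≤ 1 := (hanti (Nat.zero_le R)).trans hL0
  refine ⟨R, hRN, ?_, ?_, ?_⟩
  · calc (2 : ℝ) ^ N = 2 ^ N * 1 := (mul_one _).symm
      _ ≤ 2 ^ N * (V * L N) := by gcongr
      _ = V * (2 ^ N * L N) := by ring
      _ ≤ V * (2 ^ R * L R) := mul_le_mul_of_nonneg_left (hmax' N le_rfl) hV.le
      _ ≤ V * (2 ^ R * 1) := by gcongr
      _ = V * 2 ^ R := by rw [mul_one]
  · have h1 : 1 ≤ V * L R := hLN.trans (mul_le_mul_of_nonneg_left (hanti hRN) hV.le)
    simp only [hL] at h1
    rw [← mul_div_assoc, le_div_iff₀ (hMp R), one_mul] at h1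
    rw [div_le_iff₀ (hf R)]
    linarith
  · intro s hs
    have h1 : (2 : ℝ) ^ (R - s) * L (R - s) ≤ 2 ^ R * L R := hmax' _ (by omega)
    have h2 : L (R - s) ≤ 2 ^ s * L R := by
      have e : (2 : ℝ) ^ R = 2 ^ (R - s) * 2 ^ s := by rw [← pow_add]; congr 1; omega
      rw [e, mul_assoc] at h1
      exact le_of_mul_le_mul_left h1 (by positivity)
    have h3 : K (R - s) = L (R - s) * (M ^ (R - s) / ((R - s).factorial : ℝ)) := by
      simp only [hL]
      have := hf (R - s)
      have := hMp (R - s)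
      field_simp
    have h4 : ((R.descFactorial s : ℕ) : ℝ) ≤ (R : ℝ) ^ s := by
      exact_mod_cast Nat.descFactorial_le_pow R s
    have h5 : ((R - s).factorial : ℝ) * ((R.descFactorial s : ℕ) : ℝ) = (R.factorial : ℝ) := by
      exact_mod_cast Nat.factorial_mul_descFactorial hs
    have h6 : M ^ R = M ^ (R - s) * M ^ s := by rw [← pow_add]; congr 1; omega
    have hg : 0 ≤ M ^ (R - s) / ((R - s).factorial : ℝ) := (div_pos (hMp _) (hf _)).le
    calc K (R - s) = L (R - s) * (M ^ (R - s) / ((R - s).factorial : ℝ)) := h3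
      _ ≤ (2 ^ s * L R) * (M ^ (R - s) / ((R - s).factorial : ℝ)) :=
          mul_le_mul_of_nonneg_right h2 hg
      _ = K R * (2 ^ s * ((R.descFactorial s : ℕ) : ℝ) / M ^ s) := by
          simp only [hL]
          rw [h6, ← h5]
          have := hf (R - s)
          have := hMp (R - s)
          have := hMp s
          field_simp
      _ ≤ K R * (2 ^ s * (R : ℝ) ^ s / M ^ s) := by
          have := hMp s
          have := hK R
          gcongr
      _ = K R * (2 * R / M) ^ s := by rw [div_pow, mul_pow]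

end

end Pool.Agent.SelQ
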