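import Pool.Agent.SelQ.TargetsI
import Pool.Agent.SelTwo.LAN2

/-!
# Degree 2 without the mean square bound (MP_995735_nt), part C': rational `κ`

For rational `κ` the bound `QP a` of theorem Q and the relation `UDrel` imply `MeanSquare a`. The
docstrings contain the proofs. Notation of `SelDeg2`: `aX a χ n = a n χ(n)`, `pser f s = ∑_p f(p) p^(-s)`,
`Lg η = log (1/η)`, `SS a α η = ∑ a(n) e(nα) n^(-1-η)`, `gth θ a n = a(n) n^(iθ)`,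
`HH a p 1 = a(p) - 1 + O(p^(-δ))` (`T_E1`). Scales: `et N = exp(-2^N)`, so `Lg (et N) = 2^N`, and
`YY B N = exp(N^B)`. All targets of SelDeg2 mentioned are proved there (`p_X`, see ABall.lean,
CDall.lean) and may be imported; or take them as hypotheses `(hX : Pool.Agent.SelDeg2.T_X)`.
-/

set_option autoImplicit false

open Finset

namespace Pool.Agent.SelQ

open Complex Filter Topology
open Pool.Agent.SelTwo (lam pX vl cj tw gP FEq DegreeTwo)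
open Pool.Agent.SelDeg2 (ee gth SS Drel HasPole MeanSquare aX pser Lg Br LpF HH)
open Pool.Agent.SelPole (IsSelberg)

noncomputable section

/-- The parameter `η` at the scale `N`. -/
def et (N : ℕ) : ℝ := Real.exp (-(2 : ℝ) ^ N)

/-- The range of the primes at the scale `N`. -/
def YY (B N : ℕ) : ℝ := Real.exp ((N : ℝ) ^ B)

/-- The prime `p` is active at the scale `N`: some nontrivial character mod `p` has a large twist. -/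
def Act (a : ℕ → ℂ) (r B N p : ℕ) : Prop :=
  ∃ χ : DirichletCharacter ℂ (p ^ 1), χ ≠ 1 ∧
    (1 / et N) ^ r * (1 / YY B N) ^ 10 < ‖LSeries (aX a χ) (1 + (et N : ℂ))‖

/-- The product `χ(n) conj χ'(n)`. -/
def cc {M M' : ℕ} (χ : DirichletCharacter ℂ M) (χ' : DirichletCharacter ℂ M') (n : ℕ) : ℂ :=
  χ (n : ZMod M) * (starRingEnd ℂ) (χ' (n : ZMod M'))

/-- The normalised value at `κ b`. -/
def Xi (a : ℕ → ℂ) (A₁ : ℂ) (κ θ : ℝ) (b : ℕ) (η : ℝ) : ℂ :=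
  A₁ * ((κ ^ (-η) : ℝ) : ℂ) * (starRingEnd ℂ) (SS (gth θ a) (κ * b) η) / LSeries a (1 + (η : ℂ))

/-- C1 LIP: a nonprincipal character mod `k`. Proof: summation by parts, the partial sums of `ψ` are
bounded by `k` (`∑` over a period is 0): `|∑ ψ(n) f(n)| ≤ k ∑ |f(n) - f(n+1)|` for `f → 0`. For
`f(n) = n^(-1-t)` the total variation is at most 1; for `f(n) = n^(-1-t) - n^(-1-t')` it is at most
`|t - t'|` times the total variation of `log x / x^(1+u)` (at most `2/e`). -/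
def T_LIP : Prop := ∀ (k : ℕ) [NeZero k] (ψ : DirichletCharacter ℂ k), ψ ≠ 1 →
  ∀ t t' : ℝ, 0 < t → 0 < t' →
  ‖LSeries (fun n => ψ (n : ZMod k)) (1 + (t : ℂ))‖ ≤ k ∧
  ‖LSeries (fun n => ψ (n : ZMod k)) (1 + (t : ℂ)) -
    LSeries (fun n => ψ (n : ZMod k)) (1 + (t' : ℂ))‖ ≤ k * |t - t'|

/-- C2 LBC (from LIP): lower bound for complex characters. Proof: Mathlib
`DirichletCharacter.norm_LSeries_product_ge_one` with `y = 0`: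
`‖L(1)^3 L(ψ)^4 L(ψ²)‖ ≥ 1` at `1 + t`; `‖L(1, 1 + t)‖ ≤ ∑ n^(-1-t) ≤ 1 + 1/t ≤ 2/t`,
`‖L(ψ², 1+t)‖ ≤ k` by LIP. So `‖L(ψ, 1+t)‖^4 ≥ t^3 / (8 k)`. -/
def T_LBC : Prop := ∀ (k : ℕ) [NeZero k] (ψ : DirichletCharacter ℂ k), ψ ^ 2 ≠ 1 →
  ∀ t : ℝ, 0 < t → t ≤ 1 → t ^ 3 / (8 * k) ≤ ‖LSeries (fun n => ψ (n : ZMod k)) (1 + (t : ℂ))‖ ^ 4

/-- C3 LBR (from LIP): lower bound for real characters, `ψ² = 1`, `ψ ≠ 1`. Proof: `ψ` has values in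
`{-1, 0, 1}`, `ρ = 1 * ψ ≥ 0`, `ρ(1) = 1`, `ρ(m²) ≥ 1`. (i) `ζ(1+t) L(ψ, 1+t) = ∑ ρ(n) n^(-1-t) ≥ 1` gives
`L(ψ, 1+t) ≥ t/2`. (ii) `∑ ρ(n) e^(-n/N) ≥ ∑_m e^(-m²/N) ≥ c √N`, and it is
`∑_d ψ(d) / (e^(d/N) - 1) = N ∑_d ψ(d) d^(-1-t) N^t + ∑_d ψ(d) h(d/N)`,
`h(x) = 1/(e^x - 1) - x^(-1-t)`. For fixed `N` let `t → 0+`: by summation by parts the last sum is at
most `k` times the total variation of `h` on `[1/N, ∞)` (and `|h|` there), with limit at most `C k`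
(`1/(e^x-1) - 1/x` is monotone between `-1` and 0). So `N liminf_{t→0+} L(ψ, 1+t) ≥ c √N - C k`; take
`N = C' k²`: `liminf ≥ c'/k`; by LIP `L(ψ, 1+t) ≥ c'/k - k t`. Together: for `t ≤ c'/(2k²)` use (ii),
otherwise (i). Any exponent of `k` is fine (here 2 up to the constant). -/
def T_LBR : Prop := ∃ c : ℝ, 0 < c ∧ ∀ (k : ℕ) [NeZero k] (ψ : DirichletCharacter ℂ k), ψ ≠ 1 →
  ψ ^ 2 = 1 → ∀ t : ℝ, 0 < t → t ≤ 1 →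
  c / (k : ℝ) ^ 2 ≤ ‖LSeries (fun n => ψ (n : ZMod k)) (1 + (t : ℂ))‖

/-- C4 RTO (from LIP, LBC, LBR): real parts of the sums over primes for `χ conj χ'`. Proof: there is a
character `ψ ≠ 1` modulo `k = p p'` with `ψ(n) = χ(n) conj χ'(n)` (see the proof of
`Pool.Agent.SelDeg2.T_PRX`, `changeLevel`). `log ‖L(ψ, 1+t)‖ = Re pser ψ (1+t) + Re ε(t)`,
`ε(t) = ∑_q ∑_{j≥2} ψ(q)^j q^(-j(1+t)) / j` (Euler product,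
`DirichletCharacter.LSeries_eulerProduct_exp_log`), `|ε(t) - ε(t')| ≤ C |t - t'|`. And
`log (‖L(1+η)‖ / ‖L(1+x)‖) ≤ ‖L(1+η) - L(1+x)‖ / ‖L(1+x)‖ ≤ k x / ‖L(1+x)‖`, at most
`k x (8k)^(1/4) x^(-3/4) ≤ C x^(1/4) k^3` if `ψ² ≠ 1` and `x k^3 / c` otherwise. -/
def T_RTO : Prop := ∃ C : ℝ, 0 ≤ C ∧ ∀ (p p' : ℕ) (χ : DirichletCharacter ℂ (p ^ 1))
  (χ' : DirichletCharacter ℂ (p' ^ 1)), p.Prime → p'.Prime → p ≠ p' → χ ≠ 1 →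
  ∀ η x : ℝ, 0 < η → η ≤ x → x ≤ 1 →
  (pser (cc χ χ') (1 + (η : ℂ)) - pser (cc χ χ') (1 + (x : ℂ))).re ≤
    C * x ^ (1 / 4 : ℝ) * ((p : ℝ) * p') ^ 3

/-- C5 BES: the inequality of Bessel. Proof: `w(q) = q^(-1-η) - q^(-1-x) ∈ [0, q^(-1-η)]`. The left side
is `Re ∑_q a(q) w(q) ∑_p χ_p(q)`, by Cauchy and Schwarz at most
`(∑ |a q|² w(q))^(1/2) (∑ w(q) |∑_p χ_p(q)|²)^(1/2)`; expand the square. -/
def T_BES : Prop := ∀ (a : ℕ → ℂ) (η x H : ℝ), 0 < η → η ≤ x → x ≤ 1 →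
  Summable (fun q : Nat.Primes => ‖a q‖ ^ 2 * ((q : ℕ) : ℝ) ^ (-1 - η)) →
  ∑' q : Nat.Primes, ‖a q‖ ^ 2 * ((q : ℕ) : ℝ) ^ (-1 - η) ≤ H →
  ∀ (P : Finset ℕ) (χ : ∀ p : ℕ, DirichletCharacter ℂ (p ^ 1)),
  ∑ p ∈ P, (pser (aX a (χ p)) (1 + (η : ℂ)) - pser (aX a (χ p)) (1 + (x : ℂ))).re ≤
    Real.sqrt (H * ∑ p ∈ P, ∑ p' ∈ P,
      (pser (cc (χ p) (χ p')) (1 + (η : ℂ)) - pser (cc (χ p) (χ p')) (1 + (x : ℂ))).re)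

/-- C6 SQ1: first moments over the primes. Proof: Cauchy and Schwarz with `QP` and
`∑_q q^(-1-η) ≤ C (1 + Lg η)` (`Pool.Agent.SelDeg2.T_PR` with the trivial character mod 1, or
`log ζ`). -/
def T_SQ1 : Prop := ∀ a : ℕ → ℂ, QP a → ∃ C : ℝ, 0 ≤ C ∧ ∀ x : ℝ, 0 < x → x ≤ 1 →
  Summable (fun q : Nat.Primes => ‖a q‖ * ((q : ℕ) : ℝ) ^ (-1 - x)) ∧
  ∑' q : Nat.Primes, ‖a q‖ * ((q : ℕ) : ℝ) ^ (-1 - x) ≤ C * (1 + Lg x) ^ 2 ∧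
  ∑' q : Nat.Primes, ((q : ℕ) : ℝ) ^ (-1 - x) ≤ C * (1 + Lg x)

/-- C7 ACN (from RTO, BES, SQ1): the number of active primes. Proof: `l = 2^N`, `η = et N`,
`Y = YY B N`, `x = Y^(-40)`; choose a character `χ_p` for each `p ∈ P`. By `T_EXPB`
`r l - 10 N^B < log ‖LSeries (aX a χ_p)‖ ≤ Re pser (aX a χ_p) (1+η) + C`, and
`|pser (aX a χ_p) (1+x)| ≤ C (1 + 40 N^B)^2` (SQ1), so for large `N` every term of the left side of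
BES is at least `l/2` (`r ≥ 1`). Right side: `H = C (1+l)^3`; diagonal terms at most
`∑ q^(-1-η) ≤ C (1+l)`, off-diagonal terms at most `C x^(1/4) Y^6 = C Y^(-4)` (RTO, `η ≤ x`). With
`J = P.card`: `J² l²/4 ≤ C l^3 (J l + J² Y^(-4))`, and `C l^3 Y^(-4) ≤ l²/8` for large `N`
(`Y^4 = exp(4 N^B) ≥ e^(4N)`, `B ≥ 1`), so `J ≤ 8 C l² = C' 4^N`. -/
def T_ACN : Prop := ∀ (F : ℂ → ℂ) (a b : ℕ → ℂ) (r B : ℕ), IsSelberg F a b → QP a → 1 ≤ r →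
  1 ≤ B → ∃ (C : ℝ) (N₀ : ℕ), 0 ≤ C ∧ ∀ N : ℕ, N₀ ≤ N → ∀ P : Finset ℕ,
  (∀ p ∈ P, p.Prime ∧ (p : ℝ) ≤ YY B N ∧ Act a r B N p) → (P.card : ℝ) ≤ C * 4 ^ N

/-- C8 PAP: supply of primes in progressions. Proof: by `Pool.Agent.SelDeg2.T_PR` and orthogonality
`∑_{p ≡ b (Q)} p^(-1-δ) ≥ (1/φ(Q)) log(1/δ) - C` for `0 < δ ≤ 1`. Let `Y = YY B N`,
`δ = 2 log log Y / log Y`: the integers above `Y` contribute at most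
`∑_{n>Y} n^(-1-δ) ≤ Y^(-δ)(1 + 1/δ) ≤ 1` (large `N`), so the primes `p ≤ Y`, `p ≡ b` have
`∑ 1/p ≥ (1/(2φ(Q))) log log Y = (B/(2φ(Q))) log N` for large `N`. If there were at most `J = C 4^N`
of them, then `∑ 1/p ≤ ∑_{p ≤ J} 1/p + 1 ≤ e log(1 + log J) + C ≤ 3 log N + C'`
(`∑_{p ≤ J} 1/p ≤ e ∑ p^(-1-1/log J) ≤ e log ζ(1 + 1/log J)`; or via `T_PR`). Take
`B > 6 φ(Q) + 6`: contradiction for large `N`. -/
def T_PAP : Prop := ∀ (Q : ℕ) [NeZero Q], ∃ B : ℕ, 2 ≤ B ∧ ∀ C : ℝ, ∃ N₁ : ℕ, ∀ N : ℕ, N₁ ≤ N →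
  ∀ b : ℕ, b.Coprime Q → ∃ P : Finset ℕ,
  (∀ p ∈ P, p.Prime ∧ (p : ℝ) ≤ YY B N ∧ p ≡ b [MOD Q]) ∧ C * 4 ^ N < (P.card : ℝ)

/-- C9 EPU: the local factor near `s = 1`, uniformly. Proof: `|a (p^j)| ≤ C p^(j/4)`,
`|p^(-j(1+η)) - p^(-j)| ≤ η j log p p^(-j)`, so `LpF` and `Br` change by at most `C η`;
`|LpF| ≥ c > 0` uniformly (`T_LOC`: `LpF = exp(∑ b(p^j) p^(-js))`, the exponent is bounded by
`∑ C p^(j(t-1))`, `t < 1/2`), and `|Br|, |LpF| ≤ C`. Same for the nonvanishing of `LpF`. -/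
def T_EPU : Prop := ∀ (F : ℂ → ℂ) (a b : ℕ → ℂ), IsSelberg F a b → ∃ C : ℝ, 0 ≤ C ∧
  ∀ p : ℕ, p.Prime → ∀ η : ℝ, 0 < η → η ≤ 1 →
  ‖(p : ℂ) * (Br a p 1 (1 + (η : ℂ)) / LpF a p (1 + (η : ℂ))) - HH a p 1‖ ≤ C * p * η

/-- C10 KAP: the additive twist at `1/p` and the nontrivial characters. Proof: `T_PP` with `k = 1`; for
`ξ ≠ 1` mod `p` `kap a (p^1) ξ s = cG (p^1) ξ 1` (`cG (p^1) ξ (p^j) = 0` for `j ≥ 1`, the average of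
`conj ξ` over the units), of modulus at most 1; there are at most `p` characters. -/
def T_KAP : Prop := ∀ (F : ℂ → ℂ) (a b : ℕ → ℂ), IsSelberg F a b → ∀ (p : ℕ) (η V : ℝ),
  p.Prime → 0 < η → 0 ≤ V →
  (∀ χ : DirichletCharacter ℂ (p ^ 1), χ ≠ 1 → ‖LSeries (aX a χ) (1 + (η : ℂ))‖ ≤ V) →
  ‖SS a (1 / p) η - Br a p 1 (1 + (η : ℂ)) / LpF a p (1 + (η : ℂ)) * LSeries a (1 + (η : ℂ))‖ ≤
    p * V

/-- C11 INA (from EPU, KAP): inactive primes. Proof: `η = et N`, `Y = YY B N`. `UDrel` at `α = 1/p`: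
`‖SS a (1/p) η - A₁ p^(-1-iθ) (p^(-2)/κ)^η conj (SS (gth θ a) (κ p) η)‖ ≤ C p^K`, and
`SS (gth θ a) (κ p) η = SS (gth θ a) (κ b) η` since `κ (p - b)` is an integer (`κ = u/Q`). KAP with
`V = η^(-r) Y^(-10)`. Multiply by `p / LSeries a (1+η)`, `‖LSeries a (1+η)‖ ≥ c η^(-r)` for small `η`
(`HasPole`, `IsSelberg.eq_series`): the difference of `p Br/LpF` and
`p^(-iθ) p^(-2η) Xi` is at most `C (p² Y^(-10) + p^(K+1) η^r) ≤ C Y^(-8) + C Y^(K+1) η`, and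
`Y^(K+6) η ≤ 1` for large `N` (`exp((K+6) N^B - 2^N)`). With EPU: `C p η ≤ C Y^(-5)`. -/
def T_INA : Prop := ∀ (F : ℂ → ℂ) (a b' : ℕ → ℂ) (r : ℕ) (R₀ A₁ : ℂ) (κ θ : ℝ) (u Q B : ℕ),
  IsSelberg F a b' → HasPole F r R₀ → UDrel a A₁ κ θ → 0 < κ → 1 ≤ Q → κ = (u : ℝ) / Q → 1 ≤ B →
  ∃ (C : ℝ) (N₂ : ℕ), 0 ≤ C ∧ ∀ N : ℕ, N₂ ≤ N → ∀ p b : ℕ, p.Prime → (p : ℝ) ≤ YY B N →
  ¬ Act a r B N p → p ≡ b [MOD Q] →
  ‖HH a p 1 - (p : ℂ) ^ (-((θ : ℂ) * I)) * (((p : ℝ) ^ (-2 * et N) : ℝ) : ℂ) *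
    Xi a A₁ κ θ b (et N)‖ ≤ C * (1 / YY B N) ^ 5

/-- C12 CHN: the chain over the scales. Proof: let `J N` be the set of active primes `≤ Y_N`, at most
`C 4^N` elements. For `N ≥ N₃` and a residue `b < Q` prime to `Q` there is a prime `p ≤ Y_N`,
`p ≡ b`, not active at `N` and at `N + 1` (PAP-type hypothesis with the constant `5 C + 1`; for
`N + 1` the active primes `≤ Y_N ≤ Y_(N+1)` are at most `4 C 4^N`). Then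
`| |X_(N+1) b| p^(-2 η_(N+1)) - |X_N b| p^(-2 η_N) | ≤ 2 C Y_N^(-5)`, and
`1 - p^(-2η) ≤ 2 η log p ≤ 2 η_N N^B ≤ 4^(-N)`, so `1 + |X_(N+1) b| ≤ (1 + |X_N b|)(1 + C 2^(-N))` for
large `N`: bounded for `N ≥ N₃` by a constant `K` (finitely many `b`). So `‖H p‖ ≤ K + C` for all `p`
prime to `Q` which are not active at some `N ≥ N₃` with `p ≤ Y_N`. -/
def T_CHN : Prop := ∀ (Q B N₀ : ℕ) (C : ℝ) (act : ℕ → ℕ → Prop) (H : ℕ → ℂ) (X : ℕ → ℕ → ℂ),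
  1 ≤ Q → 1 ≤ B → 0 ≤ C →
  (∀ N : ℕ, N₀ ≤ N → ∀ P : Finset ℕ, (∀ p ∈ P, p.Prime ∧ (p : ℝ) ≤ YY B N ∧ act N p) →
    (P.card : ℝ) ≤ C * 4 ^ N) →
  (∀ C' : ℝ, ∃ N₁ : ℕ, ∀ N : ℕ, N₁ ≤ N → ∀ b : ℕ, b.Coprime Q → ∃ P : Finset ℕ,
    (∀ p ∈ P, p.Prime ∧ (p : ℝ) ≤ YY B N ∧ p ≡ b [MOD Q]) ∧ C' * 4 ^ N < (P.card : ℝ)) →
  (∀ N : ℕ, N₀ ≤ N → ∀ p b : ℕ, p.Prime → (p : ℝ) ≤ YY B N → ¬ act N p → p ≡ b [MOD Q] →
    |‖H p‖ - (p : ℝ) ^ (-2 * et N) * ‖X N b‖| ≤ C * (1 / YY B N) ^ 5) →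
  ∃ (N₃ : ℕ) (K : ℝ), ∀ N : ℕ, N₃ ≤ N → ∀ p : ℕ, p.Prime → p.Coprime Q → (p : ℝ) ≤ YY B N →
    ¬ act N p → ‖H p‖ ≤ K

/-- C13 THI: the exceptional set is thin. Proof: let `p ∈ E`, `p > Y_(N₃)` and let `N` be minimal with
`p ≤ Y_N`: then `N > N₃`, `Y_(N-1) < p`, and `p` is active at `N`. So `E` has at most `C 4^N` elements
in `(Y_(N-1), Y_N]`, and `∑_{p ∈ E} p^(-1/2) ≤ const + ∑_N C 4^N exp(-(N-1)^B/2) < ∞` as `B ≥ 2`. -/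
def T_THI : Prop := ∀ (B N₃ : ℕ) (C : ℝ) (act : ℕ → ℕ → Prop) (E : Set ℕ), 2 ≤ B →
  (∀ N : ℕ, N₃ ≤ N → ∀ P : Finset ℕ, (∀ p ∈ P, p.Prime ∧ (p : ℝ) ≤ YY B N ∧ act N p) →
    (P.card : ℝ) ≤ C * 4 ^ N) →
  (∀ p ∈ E, p.Prime ∧ ∀ N : ℕ, N₃ ≤ N → (p : ℝ) ≤ YY B N → act N p) →
  Pool.Agent.SelTwo.Thin E

/-- C14 CQA (from ACN, PAP, INA, CHN, THI): `T_CQ`. Proof: `κ > 0` (`Drel.κ_pos`) and rational, so
`κ = u/Q`. `r ≥ 1` (`HasPole`). `B` from PAP for `Q`. `act N p = Act a r B N p`, `H p = HH a p 1`,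
`X N b = Xi a A₁ κ θ b (et N)` (norms: `‖p^(-iθ)‖ = 1`). CHN gives `‖HH a p 1‖ ≤ K` for the primes
`p ∤ Q` outside `E = {p prime : p active at all N ≥ N₃ with p ≤ Y_N}`. By `T_E1`
`‖a p‖ ≤ ‖HH a p 1‖ + 1 + K' p^(-δ)`. The primes dividing `Q` are finitely many: enlarge the bound.
THI and `Pool.Agent.SelDeg2.meanSquare_of_bounded`. -/
def T_CQA : Prop := T_CQ

end

end Pool.Agent.SelQ
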