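import Pool.Agent.SelQ.DefsD
import Pool.Agent.SelDeg2.TargetsA

/-!
# Degree 2 without the mean square bound (MP_995735_nt): theorem Q, exact targets

`QP a`: the sum over primes `∑ |a p|^2 p^(-1-η)` is at most `C (1 + log (1/η))^3`. It holds for every
`F` of degree 2 in the Selberg class. The docstrings contain the proofs. `lam c (pX x y) =
∑_{n ≥ 1} c n e(n x) exp(-2 π n y)`, `ee x = e(x) = exp(2 π i x)`.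
-/

set_option autoImplicit false

open Finset

namespace Pool.Agent.SelQ

open Pool.Agent.SelTwo (lam pX vl cj tw gP)
open Pool.Agent.SelDeg2 (ee gth)
open Pool.Agent.SelPole (IsSelberg)

noncomputable section

/-- The quasi-polynomial bound. -/
def QP (a : ℕ → ℂ) : Prop :=
  ∃ C : ℝ, ∀ η : ℝ, 0 < η → η ≤ 1 →
    Summable (fun p : Nat.Primes => ‖a p‖ ^ 2 * ((p : ℕ) : ℝ) ^ (-1 - η)) ∧
    ∑' p : Nat.Primes, ‖a p‖ ^ 2 * ((p : ℕ) : ℝ) ^ (-1 - η) ≤ C * (1 + Real.log (1 / η)) ^ 3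

/-- The integral of `W x * e(k x)` over `[α, β]`. -/
def FW (W : ℝ → ℝ) (α β : ℝ) (k : ℤ) : ℂ := ∫ x in α..β, (W x : ℂ) * ee (k * x)

/-- The correlation of `c` with the shift `k`. -/
def cor (c : ℕ → ℝ) (η : ℝ) (k : ℕ) : ℝ :=
  ∑' n : ℕ, c n * c (n + k) * ((n : ℝ) * (n + k)) ^ (-(1 + η) / 2)

/-- The weight on `[u, v]`. -/
def W0 (u v x : ℝ) : ℝ := (x - u) * (v - x)

/-- The transported weight on `[κ / v, κ / u]`. -/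
def W1 (κ η u v x : ℝ) : ℝ := W0 u v (κ / x) * (κ / x ^ 2) ^ (1 + η)

/-- The inversion relation in mean square. -/
def Inv (a as : ℕ → ℂ) (κ lam0 : ℝ) : Prop :=
  ∀ u v : ℝ, 0 < u → u < v → ∃ C : ℝ, ∀ η δ : ℝ, 0 < η → η ≤ 1 → 0 < δ → δ < 1 →
    |(∫ x in u..v, W0 u v x * ∫ y in δ..1, y ^ η * ‖lam a (pX x y)‖ ^ 2) -
      lam0 * ∫ x in u..v, W0 u v x * ∫ y in δ..1, y ^ η *
        (κ / x ^ 2 * ‖lam as (pX (κ / x) (κ * y / x ^ 2))‖ ^ 2)| ≤ C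

/-- E1 FOU: decay of the trigonometric integrals. Proof: integrate by parts twice,
`∫ g e(kx) = - (1/(2πik)) ∫ g' e(kx)` (boundary terms vanish), and
`∫ g' e(kx) = (1/(2πik)) ([g' e(kx)] - ∫ g'' e(kx))`. -/
def T_FOU : Prop := ∀ (g g1 g2 : ℝ → ℝ) (α β B : ℝ), α < β →
  (∀ x ∈ Set.Icc α β, HasDerivAt g (g1 x) x) → (∀ x ∈ Set.Icc α β, HasDerivAt g1 (g2 x) x) →
  ContinuousOn g2 (Set.Icc α β) → (∀ x ∈ Set.Icc α β, |g1 x| ≤ B ∧ |g2 x| ≤ B) →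
  g α = 0 → g β = 0 → ∀ k : ℤ, k ≠ 0 → ‖FW g α β k‖ ≤ (2 + (β - α)) * B / (k : ℝ) ^ 2

/-- E2 WTS (from FOU): the weights. Proof: `W0` is a polynomial. `W1 κ η u v` is smooth in `x > 0`
and vanishes at `κ/v` and `κ/u`; its first two derivatives are continuous functions of
`(η, x) ∈ [0,1] × [κ/v, κ/u]`, so bounded by a constant (explicitly: with `r = κ/x^2`,
`W0 (κ/x) = -κ^2/x^2 + (u+v) κ/x - u v`, the derivatives of `r^(1+η) = κ^(1+η) x^(-2-2η)` are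
`-(2+2η) κ^(1+η) x^(-3-2η)` and `(2+2η)(3+2η) κ^(1+η) x^(-4-2η)`; product rule). -/
def T_WTS : Prop := ∀ κ u v : ℝ, 0 < κ → 0 < u → u < v → ∃ B : ℝ, 0 ≤ B ∧
  ∀ η : ℝ, 0 < η → η ≤ 1 → ∀ k : ℤ, k ≠ 0 → ‖FW (W0 u v) u v k‖ ≤ B / (k : ℝ) ^ 2 ∧
    ‖FW (W1 κ η u v) (κ / v) (κ / u) k‖ ≤ B / (k : ℝ) ^ 2

/-- E3 OFF: the diagonal and the rest. Proof: for `y ≥ δ` the double series
`‖lam c (pX x y)‖^2 = ∑_{n, m ≥ 1} c n conj (c m) e((n - m) x) exp(-2π(n+m)y)` converges absolutely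
and uniformly, so `∫ W x ‖lam‖^2 dx = ∑ c n conj (c m) FW W (n - m) exp(-2π(n+m)y)`; the terms with
`n = m` are the diagonal. For `n ≠ m`, integrated over `y`:
`∫_δ^Y y^η exp(-2π(n+m)y) dy ≤ Γ(1+η) (2π(n+m))^(-1-η) ≤ (n+m)^(-1-η) ≤ (n m)^(-(1+η)/2)`
(`Γ(1+η) ≤ 1`, `n + m ≥ 2 √(nm)`), and `‖FW W k‖ ≤ B/k^2`; group by `k = |n - m|`. -/
def T_OFF : Prop := ∀ (c : ℕ → ℂ) (W : ℝ → ℝ) (η δ Y α β B : ℝ), 0 < η → η ≤ 1 → 0 < δ → δ < Y →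
  α < β → ContinuousOn W (Set.Icc α β) → (∃ C : ℝ, ∀ n : ℕ, 1 ≤ n → ‖c n‖ ≤ C * n) → 0 ≤ B →
  (∀ k : ℤ, k ≠ 0 → ‖FW W α β k‖ ≤ B / (k : ℝ) ^ 2) →
  (∀ k : ℕ, 1 ≤ k → Summable (fun n : ℕ => ‖c n‖ * ‖c (n + k)‖ *
    ((n : ℝ) * (n + k)) ^ (-(1 + η) / 2))) →
  Summable (fun k : ℕ => cor (fun n => ‖c n‖) η (k + 1) / ((k : ℝ) + 1) ^ 2) →
  |(∫ y in δ..Y, y ^ η * ∫ x in α..β, W x * ‖lam c (pX x y)‖ ^ 2) -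
    (∫ x in α..β, W x) * ∫ y in δ..Y, y ^ η * ∑' n : ℕ, ‖c (n + 1)‖ ^ 2 *
      Real.exp (-(4 * Real.pi * (n + 1) * y))| ≤
    2 * B * ∑' k : ℕ, cor (fun n => ‖c n‖) η (k + 1) / ((k : ℝ) + 1) ^ 2

/-- E4 KSM: the sum over the shifts. Proof: split at `K = ⌊T^(4/3)⌋`:
`∑_{k ≤ K} (1+k)^3 k^(-2) T^(-4) ≤ 8 K^2 T^(-4) ≤ 8 T^(-4/3)`, `∑_{k > K} k^(-2) ≤ 1/K`. -/
def T_KSM : Prop := ∀ (R : ℕ → ℝ) (D T : ℝ), 0 ≤ D → 1 ≤ T → (∀ k, 0 ≤ R k) →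
  (∀ k : ℕ, 1 ≤ k → R k ≤ D) → (∀ k : ℕ, 1 ≤ k → R k ≤ (1 + k : ℝ) ^ 3 * T ^ (-4 : ℝ) * D) →
  Summable (fun k : ℕ => R (k + 1) / ((k : ℝ) + 1) ^ 2) ∧
  ∑' k : ℕ, R (k + 1) / ((k : ℝ) + 1) ^ 2 ≤ 20 * T ^ (-(4 / 3) : ℝ) * D

/-- E5 CHV: change of variables. Proof: for fixed `x`, `y = x^2 y'/κ`:
`∫_δ^1 y^η (κ/x^2) G(κ/x, κ y/x^2) dy = (x^2/κ)^η ∫_{κδ/x^2}^{κ/x^2} y'^η G(κ/x, y') dy'`; then
`x = κ/x'`, `dx = -κ/x'^2 dx'`, `x^2/κ = κ/x'^2`. -/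
def T_CHV : Prop := ∀ (κ u v η δ : ℝ) (G : ℝ → ℝ → ℝ), 0 < κ → 0 < u → u < v → 0 < δ → δ < 1 →
  0 < η → η ≤ 1 → ContinuousOn (Function.uncurry G) {p : ℝ × ℝ | 0 < p.2} →
  ∫ x in u..v, W0 u v x * ∫ y in δ..1, y ^ η * (κ / x ^ 2 * G (κ / x) (κ * y / x ^ 2)) =
    ∫ x in (κ / v)..(κ / u), W1 κ η u v x * ∫ y in (δ * x ^ 2 / κ)..(x ^ 2 / κ), y ^ η * G x y

/-- E6 MAS: the masses of the weights. Proof: substitution `x = κ/x'` gives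
`∫ W1 = ∫ W0 x (x^2/κ)^η dx`; if `v^2 < κ` then `(x^2/κ)^η ≤ (v^2/κ)^η = exp(-η log(κ/v^2)) ≤ 1 - c η`
for `0 ≤ η ≤ 1` (`c = 1 - v^2/κ`, Bernoulli / convexity of the exponential); if `κ < u^2` then
`(x^2/κ)^η ≥ (u^2/κ)^η ≥ 1 + η log(u^2/κ)`. `W0 ≥ 0` on `[u, v]`. -/
def T_MAS : Prop := ∀ κ u v : ℝ, 0 < κ → 0 < u → u < v →
  0 < (∫ x in u..v, W0 u v x) ∧
  (v ^ 2 < κ → ∃ c : ℝ, 0 < c ∧ ∀ η : ℝ, 0 < η → η ≤ 1 →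
    ∫ x in (κ / v)..(κ / u), W1 κ η u v x ≤ (1 - c * η) * ∫ x in u..v, W0 u v x) ∧
  (κ < u ^ 2 → ∃ c : ℝ, 0 < c ∧ ∀ η : ℝ, 0 < η → η ≤ 1 →
    (1 + c * η) * (∫ x in u..v, W0 u v x) ≤ ∫ x in (κ / v)..(κ / u), W1 κ η u v x)

/-- E7 LOC: bound away from the real axis, and continuity. Proof: `‖exp(-(n+1) pX x y)‖ =
exp(-2π(n+1)y)`, so `‖lam c (pX x y)‖ ≤ ∑ C (n+1) exp(-2π(n+1)y₀)` for `y ≥ y₀`; the series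
converges locally uniformly for `y > 0`. -/
def T_LOC : Prop := ∀ (c : ℕ → ℂ), (∃ C : ℝ, ∀ n : ℕ, 1 ≤ n → ‖c n‖ ≤ C * n) →
  ContinuousOn (Function.uncurry (fun x y : ℝ => ‖lam c (pX x y)‖ ^ 2)) {p : ℝ × ℝ | 0 < p.2} ∧
  ∀ y₀ : ℝ, 0 < y₀ → ∃ C : ℝ, 0 ≤ C ∧ ∀ x y : ℝ, y₀ ≤ y → ‖lam c (pX x y)‖ ^ 2 ≤ C

/-- E8 DIA: the diagonal. Proof: `∫_0^1 y^η exp(-4πny) dy ≥ n^(-1-η) ∫_0^1 t^η exp(-4πt) dt ≥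
c₁ n^(-1-η)` (substitute `y = t/n`, `t^η ≥ t` for `0 ≤ η ≤ 1`, `n ≥ 1`); the term `n = 0` of the
first series is 0; take finitely many terms with sum at least the total minus `ε/2` and `δ` small.
(The series under the integral may be replaced by a finite partial sum from below.) The integrand
is integrable on `[δ, 1]` since `∑ ‖c n‖^2 exp(-4π n δ) < ∞`. -/
def T_DIA : Prop := ∃ c₁ : ℝ, 0 < c₁ ∧ ∀ (c : ℕ → ℂ) (η : ℝ), 0 < η → η ≤ 1 →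
  Summable (fun n : ℕ => ‖c n‖ ^ 2 * (n : ℝ) ^ (-1 - η)) → ∀ ε : ℝ, 0 < ε →
  ∃ δ₀ : ℝ, 0 < δ₀ ∧ ∀ δ : ℝ, 0 < δ → δ < δ₀ →
    c₁ * (∑' n : ℕ, ‖c n‖ ^ 2 * (n : ℝ) ^ (-1 - η)) - ε ≤
      ∫ y in δ..1, y ^ η * ∑' n : ℕ, ‖c (n + 1)‖ ^ 2 * Real.exp (-(4 * Real.pi * (n + 1) * y))

/-- E9 FIN (from WTS, OFF, KSM, CHV, MAS, LOC, DIA): the inversion relation and decorrelation give
`D ≤ C T`. Proof: `c n = ‖a n‖ = ‖as n‖`. Case `lam0 ≤ 1`: choose `0 < u < v` with `v^2 < κ`. Let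
`N_δ = ∫_δ^1 y^η ∑ ‖a n‖^2 exp(-4πny) dy`, `S = ∑_k cor c η k / k^2 ≤ 20 T^(-4/3) D` (KSM:
`cor ≤ D` by Cauchy and Schwarz). By Fubini (continuous functions) and OFF the first term of `Inv`
is at least `(∫ W0) N_δ - 2 B S`. In the second term use CHV with `G x y = ‖lam as (pX x y)‖^2`:
since `x ≥ κ/v`, `x^2/κ ≥ 1`, the inner integral over `[δ x^2/κ, x^2/κ]` is at most the one over
`[δ, Y]`, `Y = κ/u^2` (nonnegative integrand, `W1 ≥ 0`), so it is at most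
`(∫ W1) (N_δ + C) + 2 B S` (OFF on `[δ, 1]` for `as`, LOC on `[1, Y]`). So
`N_δ (∫ W0 - lam0 ∫ W1) ≤ 4 B S + C`, and the bracket is at least `c η ∫ W0`, `η = 1/T`. Case
`lam0 ≥ 1`: `κ < u^2`; now `x ≤ κ/u`, `x^2/κ < 1`, the inner integral is at least the one over
`[δ, κ/v^2]`, so the second term is at least `lam0 ((∫ W1) (N_δ - C) - 2 B S)`, the first one at most
`(∫ W0) N_δ + 2 B S`; `N_δ (lam0 ∫ W1 - ∫ W0) ≤ ..`. By DIA `N_δ ≥ c₁ D - ε`: so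
`c c₁ T^(-1) D ≤ C T^(-4/3) D + C`, and `D ≤ C' T` for large `T`. -/
def T_FIN : Prop := ∀ (a as : ℕ → ℂ) (κ lam0 : ℝ), MF (fun n => ‖a n‖) →
  (∀ n : ℕ, 1 ≤ n → ‖as n‖ = ‖a n‖) → 0 < κ → 0 < lam0 → Inv a as κ lam0 → ∃ C T₁ : ℝ, 1 ≤ T₁ ∧
  ∀ T : ℝ, T₁ ≤ T → (∀ k : ℕ, 1 ≤ k → cor (fun n => ‖a n‖) (1 / T) k ≤
    (1 + k : ℝ) ^ 3 * T ^ (-4 : ℝ) * DD (fun n => ‖a n‖) (1 / T)) →
  DD (fun n => ‖a n‖) (1 / T) ≤ C * T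

/-- E10 QTS (from DEC, FIN, LBD, WCP): theorem Q. Proof: `c n = ‖a n‖`. DEC gives `p₀, T₀, C₀`, FIN
gives `C, T₁`; increase `p₀` by WCP. If `T` is large and `∑_{p ∈ PT p₀ T} wc c (1/T) p ≥
C₀ (log T)^3` then DEC gives the hypothesis of FIN (`(n(n+k))^(-(1+η)/2) ≤ n^(-1-η)`), so
`D ≤ C T`, while LBD gives `D ≥ exp(C₀ (log T)^3 / 2)`: impossible for `T ≥ T₂`. So
`∑_{p₀ ≤ p ≤ e^T} c(p)^2 p^(-1-1/T) ≤ C₀ (log T)^3` for `T ≥ T₂`. For `η = 1/T`, `T ≥ T₂`: the primes in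
`(e^(jT), e^((j+1)T)]`, `j ≥ 0`, `T_j = (j+1) T`: `p^(-1-1/T) ≤ p^(-1-1/T_j) exp(-j/2)`, so their
contribution is at most `exp(-j/2) C₀ (log((j+1)T))^3`; the sum over `j` is at most `C (1+log T)^3`.
The primes below `p₀` contribute at most a constant. For `1/η < T₂` the sum is at most its value at
`1/T₂`. -/
def T_QTS : Prop := ∀ (a as : ℕ → ℂ) (κ lam0 : ℝ), MF (fun n => ‖a n‖) →
  (∀ n : ℕ, 1 ≤ n → ‖as n‖ = ‖a n‖) → 0 < κ → 0 < lam0 → Inv a as κ lam0 → QP a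

/-! ## The inversion relation -/

/-- The error integral. -/
def eI (E h : ℝ → ℂ) (X : ℂ) : ℂ := ∫ τ : ℝ, E τ * X ^ (vl (5 / 4) τ - 1) * h τ

/-- Bounds for the kernel error (as in `Pool.Agent.SelDeg2.T_ERR`). -/
structure KB (E h : ℝ → ℂ) (C : ℝ) : Prop where
  cE : Continuous E
  ch : Continuous h
  C0 : 0 ≤ C
  up : ∀ τ, 0 ≤ τ → ‖E τ‖ ≤ C * (1 + τ) ^ (-(1 / 4) : ℝ) * Real.exp (-(Real.pi * τ / 2))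
  dn : ∀ τ, τ ≤ 0 → ‖E τ‖ ≤ C * (1 + |τ|) * Real.exp (Real.pi * τ / 2)
  bh : ∀ τ, ‖h τ‖ ≤ C

/-- F1 REX: the relation with the explicit error. Proof: this is contained in the proof of
`Pool.Agent.SelDeg2.p_REL` (Pool/Agent/SelDeg2/REL.lean): `E = kE k l m A R`,
`h τ = conj (F (vl (5/4) τ))` up to the phase of the powers of `Q`; instead of applying `hERR` keep the
integral. The constant from `hSH` (shift of the line) is uniform for `1/K ≤ ‖X‖ ≤ K`. -/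
def T_REX : Prop := ∀ (F : ℂ → ℂ) (M : ℕ) (a : ℕ → ℂ) (Q : ℝ) (k : ℕ) (l : Fin k → ℝ)
  (m : Fin k → ℂ) (w : ℂ), (∀ s : ℂ, 1 < s.re → LSeriesSummable a s) →
  (∀ s : ℂ, 1 < s.re → F s = LSeries a s) → Pool.Agent.SelDeg2.ContM F M →
  Pool.Agent.SelTwo.FEq F Q k l m w → ∑ j, l j = 1 →
  ∃ (A : ℂ) (q : ℝ) (E h : ℝ → ℂ) (C : ℝ), A ≠ 0 ∧ 0 < q ∧ KB E h C ∧
  ∀ K : ℝ, 1 ≤ K → ∃ C₂ : ℝ, ∀ X : ℂ, 0 < X.re → X.im < 0 → 1 / K ≤ ‖X‖ → ‖X‖ ≤ K →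
    ‖lam a X - A / X * (4 * Real.pi ^ 2 / (q * X)) ^ (-(((2 * ∑ j, (m j).im : ℝ) : ℂ) *
      Complex.I)) * lam (tw (2 * ∑ j, (m j).im) (cj a)) (4 * Real.pi ^ 2 / (q * X)) -
      eI E h X‖ ≤ C₂

/-- F2 LTW: local mean square of a trigonometric integral. Proof: for `s ∈ [s₁, s₂]`,
`1 ≤ e^(S²) e^(-s²)`, `S = max |s₁| |s₂|`; `∫ e^(-s²) |∫ G(τ) e^(iτs) dτ|² ds =
∫∫ G(τ) conj G(τ') √π e^(-(τ-τ')²/4) dτ dτ' ≤ √π ∫∫ (|G(τ)|² + |G(τ')|²)/2 e^(-(τ-τ')²/4) =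
2 π ∫ |G|²` (Fubini: `G` integrable; `∫ e^(-s²) e^(irs) ds = √π e^(-r²/4)`:
`fourierIntegral_gaussian` or `integral_cexp_neg_mul_sq_add_real_mul_I`). -/
def T_LTW : Prop := ∀ (G : ℝ → ℂ) (s₁ s₂ : ℝ), Continuous G →
  MeasureTheory.Integrable G → MeasureTheory.Integrable (fun τ => ‖G τ‖ ^ 2) → s₁ ≤ s₂ →
  ∫ s in s₁..s₂, ‖∫ τ : ℝ, G τ * Complex.exp (τ * s * Complex.I)‖ ^ 2 ≤
    2 * Real.pi * Real.exp (max |s₁| |s₂| ^ 2) * ∫ τ : ℝ, ‖G τ‖ ^ 2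

/-- F3 LTE (from LTW): the error integral on a ray. Proof: `pX x (t x) = 2π x (t - i)`, for `x > 0`
`(2πx (t - i))^(1/4 + iτ) = (2πx)^(1/4+iτ) (t - i)^(1/4+iτ)`,
`|(t - i)^(iτ)| = exp(-τ arg(t - i)) = exp(τ (π/2 - arctan t))`. So `eI E h (pX x (t x)) =
(2πx)^(1/4) ∫ G(τ) e^(iτ log(2πx)) dτ` with `|G(τ)| ≤ C (1+τ)^(-1/4) e^(-τ arctan t)` for `τ ≥ 0` and
`|G(τ)| ≤ C (1+|τ|) e^(-π|τ|/2)` for `τ ≤ 0` (`t ≤ t₁` bounded), `arctan t ≥ c t` on `[0, t₁]`. LTW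
with `s = log(2πx)`, `ds = dx/x`; `∫_0^∞ (1+τ)^(-1/2) e^(-2cτt) dτ ≤ C t^(-1/2)`. -/
def T_LTE : Prop := ∀ (E h : ℝ → ℂ) (C u v t₁ : ℝ), KB E h C → 0 < u → u < v → 0 < t₁ →
  ∃ C' : ℝ, 0 ≤ C' ∧ ∀ t : ℝ, 0 < t → t ≤ t₁ →
    ∫ x in u..v, ‖eI E h (pX x (t * x))‖ ^ 2 ≤ C' * t ^ (-(1 / 2) : ℝ)

/-- F4 LTI (from LTE): the error in the strip. Proof: `X ↦ eI E h X` is continuous on
`{Re X > 0, Im X < 0}` (dominated convergence, as in `T_ERR`). For fixed `x` substitute `y = t x`: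
`∫_δ^1 y^(-1/4) |eI (pX x y)|² dy = x^(3/4) ∫_{δ/x}^{1/x} t^(-1/4) |eI (pX x (t x))|² dt`, enlarge to
`t ∈ [δ/v, 1/u]`, exchange the integrals, use LTE: `∫ t^(-1/4) t^(-1/2) dt < ∞`. -/
def T_LTI : Prop := ∀ (E h : ℝ → ℂ) (C u v : ℝ), KB E h C → 0 < u → u < v →
  ContinuousOn (fun X : ℂ => eI E h X) {X : ℂ | 0 < X.re ∧ X.im < 0} ∧
  ∃ C' : ℝ, 0 ≤ C' ∧ ∀ δ : ℝ, 0 < δ → δ < 1 →
    ∫ x in u..v, ∫ y in δ..1, y ^ (-(1 / 4) : ℝ) * ‖eI E h (pX x y)‖ ^ 2 ≤ C'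

/-- F5 PNT: moving the base point. Proof: `X = pX x y = 2π(y - ix)`,
`X' = 4π²/(qX) = (2π/q)(y + ix)/(x²+y²)`, `X₀' = pX (-κ/x) (κy/x²) = (2π/q)(y + ix)/x²` with
`κ = 1/q`. `|X' - X₀'| ≤ C y²`, `Re X', Re X₀' ≥ c y`. With `‖a n‖ ≤ C n^ε`, `ε = 1/32`:
`|lam c X' - lam c X₀'| ≤ ∑ ‖c n‖ n |X' - X₀'| exp(-c n y) ≤ C y² y^(-2-1/16)`, and
`|lam c X'| ≤ C y^(-1-1/16)`. The factor `A/X (X')^(-iθ)`: at `y = 0` it is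
`A/(-2πix) (2πi/(qx))^(-iθ)`, the difference is at most `C y` (uniformly for `x ∈ [u, v]`). -/
def T_PNT : Prop := ∀ (a : ℕ → ℂ) (A : ℂ) (q θ u v : ℝ),
  (∀ ε : ℝ, 0 < ε → ∃ C : ℝ, ∀ n : ℕ, 1 ≤ n → ‖a n‖ ≤ C * (n : ℝ) ^ ε) → 0 < q → 0 < u → u < v →
  ∃ C : ℝ, ∀ x y : ℝ, u ≤ x → x ≤ v → 0 < y → y ≤ 1 →
    ‖A / pX x y * (4 * Real.pi ^ 2 / (q * pX x y)) ^ (-((θ : ℂ) * Complex.I)) *
      lam (tw θ (cj a)) (4 * Real.pi ^ 2 / (q * pX x y)) -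
      A / (-(2 * Real.pi * Complex.I * x)) *
      (2 * Real.pi * Complex.I / (q * x)) ^ (-((θ : ℂ) * Complex.I)) *
      lam (tw θ (cj a)) (pX (-(1 / q / x)) (1 / q * y / x ^ 2))‖ ≤ C * y ^ (-(1 / 16) : ℝ)

/-- F6 MMS: mean square of the main term with the weight `y^(1/4)`. Proof: for fixed `x` substitute
`y' = κy/x²`, enlarge to `y' ∈ [δκ/v², κ/u²]`; exchange the integrals, `x' = κ/x`: for fixed `y'` the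
integral over `x' ∈ [κ/v, κ/u]` is at most (number of periods, `≤ κ/u + 2`) times
`∑ ‖c n‖² exp(-4πny') ≤ C y'^(-1-1/16)` (Parseval on `[0, 1]`; `‖c n‖² ≤ C n^(1/32)`);
`∫ y'^(1/4 - 17/16) dy' < ∞`. -/
def T_MMS : Prop := ∀ (c : ℕ → ℂ) (κ u v : ℝ),
  (∀ ε : ℝ, 0 < ε → ∃ C : ℝ, ∀ n : ℕ, 1 ≤ n → ‖c n‖ ≤ C * (n : ℝ) ^ ε) → 0 < κ → 0 < u → u < v →
  ∃ C : ℝ, 0 ≤ C ∧ ∀ δ : ℝ, 0 < δ → δ < 1 →
    ∫ x in u..v, ∫ y in δ..1, y ^ (1 / 4 : ℝ) * ‖lam c (pX (κ / x) (κ * y / x ^ 2))‖ ^ 2 ≤ C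

/-- F7 INV (from REX, LTI, PNT, MMS): the inversion relation. Proof: `κ = 1/q`,
`θ = 2 ∑ Im m_j`, `as = gth θ a`, so that `‖lam (tw θ (cj a)) (pX (-κ/x) y')‖ = ‖lam as (pX (κ/x) y')‖`
(complex conjugation). `|A/(-2πix) (2πi/(qx))^(-iθ)|² = |A|² e^(πθ)/(4π²x²) = lam0 κ/x²`. By REX
(`K` large for `x ∈ [u, v]`, `y ≤ 1`) and PNT `lam a (pX x y) = M₀ + e`,
`|e| ≤ |eI E h (pX x y)| + C y^(-1/16)`; `| |M₀ + e|² - |M₀|² | ≤ 2|M₀||e| + |e|² ≤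
y^(1/4) |M₀|² + 2 y^(-1/4) |e|²` for `0 < y ≤ 1`. Integrate (`|W0| ≤ (v-u)²`, `y^η ≤ 1`): MMS,
LTI, `∫_0^1 y^(-1/4-1/8) dy < ∞`. All integrands are continuous on `[u, v] × [δ, 1]`. -/
def T_INV : Prop := ∀ (F : ℂ → ℂ) (a b : ℕ → ℂ) (Q : ℝ) (k : ℕ) (l : Fin k → ℝ)
  (m : Fin k → ℂ) (w : ℂ), IsSelberg F a b → Pool.Agent.SelTwo.FEq F Q k l m w → ∑ j, l j = 1 →
  ∃ (as : ℕ → ℂ) (κ lam0 : ℝ), 0 < κ ∧ 0 < lam0 ∧ (∀ n : ℕ, 1 ≤ n → ‖as n‖ = ‖a n‖) ∧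
    Inv a as κ lam0

end

end Pool.Agent.SelQ
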