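import Pool.Agent.SelQ.TargetsE
import Pool.Agent.SelDeg2.TargetsB

/-!
# Degree 2 without the mean square bound (MP_995735_nt): interfaces between the parts
-/

set_option autoImplicit false

open Finset

namespace Pool.Agent.SelQ

open Complex Filter Topology
open Pool.Agent.SelTwo (lam pX vl cj tw gP FEq DegreeTwo)
open Pool.Agent.SelDeg2 (ee gth SS Drel HasPole MeanSquare)
open Pool.Agent.SelPole (IsSelberg)

noncomputable section

/-- The modular relation of Dirichlet series, with an error polynomial in `1/α`. -/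
def UDrel (a : ℕ → ℂ) (A₁ : ℂ) (κ θ : ℝ) : Prop :=
  ∃ (C : ℝ) (K : ℕ), ∀ α η : ℝ, 0 < α → α ≤ 1 → 0 < η → η ≤ 1 →
    ‖SS a α η - A₁ * (α : ℂ) ^ (1 + (θ : ℂ) * I) * (((α ^ 2 / κ) ^ η : ℝ) : ℂ) *
      (starRingEnd ℂ) (SS (gth θ a) (κ / α) η)‖ ≤ C * (1 / α) ^ K

/-- THQ (from INV, QTS): theorem Q. -/
def T_THQ : Prop := ∀ (F : ℂ → ℂ) (a b : ℕ → ℂ), IsSelberg F a b → DegreeTwo F → QP a

/-- UDR: the relation between additive twists, uniformly. -/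
def T_UDR : Prop := ∀ (F : ℂ → ℂ) (a b : ℕ → ℂ) (Q : ℝ) (k : ℕ) (l : Fin k → ℝ)
  (m : Fin k → ℂ) (w : ℂ), IsSelberg F a b → FEq F Q k l m w → ∑ j, l j = 1 →
  ∃ (A : ℂ) (κ : ℝ), Drel a A κ (2 * ∑ j, (m j).im) ∧ UDrel a A κ (2 * ∑ j, (m j).im)

/-- KRQ: the relation at `α = 1` and the pole force `κ` to be rational. -/
def T_KRQ : Prop := ∀ (F : ℂ → ℂ) (a b : ℕ → ℂ) (r : ℕ) (R₀ A₁ : ℂ) (κ θ : ℝ),
  IsSelberg F a b → HasPole F r R₀ → QP a → Drel a A₁ κ θ → ¬ Irrational κ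

/-- CQ: for rational `κ` the mean square bound holds. -/
def T_CQ : Prop := ∀ (F : ℂ → ℂ) (a b : ℕ → ℂ) (r : ℕ) (R₀ A₁ : ℂ) (κ θ : ℝ),
  IsSelberg F a b → HasPole F r R₀ → QP a → Drel a A₁ κ θ → UDrel a A₁ κ θ → ¬ Irrational κ →
  MeanSquare a

/-- MSF (from THQ, UDR, KRQ, CQ): every function of degree 2 with a pole satisfies the mean square
bound. -/
def T_MSF : Prop := ∀ (F : ℂ → ℂ) (a b : ℕ → ℂ) (r : ℕ), IsSelberg F a b → DegreeTwo F → 1 ≤ r →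
  meromorphicOrderAt F 1 = ((-(r : ℤ) : ℤ) : WithTop ℤ) → MeanSquare a

end

end Pool.Agent.SelQ
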