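import Pool.Agent.SelQ.TargetsI
import Pool.Agent.SelDeg2.TargetsB

/-!
# Degree 2 without the mean square bound (MP_995735_nt), part B': irrational `κ`

`T_KRQ` of TargetsI (the relation at `α = 1` and the pole force `κ` to be rational) with `QP`
in the place of `MeanSquare`. Every target is the version of a proved target of
`Pool/Agent/SelDeg2/TargetsB.lean` (its proof is the file of the same name in SelDeg2; adapt it), with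
the structure `MQ` in the place of `MD`. Bounds of the form `C (1/η)^K` become
`QE C η = exp(C (1 + log(1/η))^3)`, bounds `C (1 + log P)^K` become
`QL C P = exp(C (1 + log(1 + log P))^3)`.
-/

set_option autoImplicit false

open Finset

namespace Pool.Agent.SelQ

open Complex Filter Topology
open Pool.Agent.SelTwo (lam pX vl cj tw gP FEq DegreeTwo)
open Pool.Agent.SelDeg2 (ee gth SS Drel HasPole MeanSquare wt BF om uu dm EE)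
open Pool.Agent.SelPole (IsSelberg)

noncomputable section

/-- The data used in part B'. -/
structure MQ (g : ℕ → ℂ) : Prop where
  one : g 1 = 1
  mul : ∀ m n : ℕ, m.Coprime n → g (m * n) = g m * g n
  small : ∀ ε : ℝ, 0 < ε → ∃ C : ℝ, ∀ n : ℕ, 1 ≤ n → ‖g n‖ ≤ C * (n : ℝ) ^ ε
  qp : QP g

/-- `exp(C (1 + log(1/η))^3)` -/
def QE (C η : ℝ) : ℝ := Real.exp (C * (1 + Real.log (1 / η)) ^ 3)

/-- `exp(C (1 + log(1 + log P))^3)` -/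
def QL (C : ℝ) (P : ℕ) : ℝ := Real.exp (C * (1 + Real.log (1 + Real.log P)) ^ 3)

/-- K1 KMD (adapt SelDeg2/MDG.lean, `Pool.Agent.SelDeg2.p_MUL` may be used): only `ms` is replaced:
`‖gth θ a p‖ = ‖a p‖`. -/
def T_KMD : Prop := ∀ (F : ℂ → ℂ) (a b : ℕ → ℂ) (θ : ℝ), IsSelberg F a b → QP a → MQ (gth θ a)

/-- K2 KM2 (adapt SelDeg2/MOM2.lean, uses `T_EP`): the second moment. `h n = ‖g n‖² wt η n`,
`∑ h ≤ exp(∑_p ‖g p‖² wt η p + C')`, and `C' ≤ C' (1 + log(1/η))^3`. -/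
def T_KM2 : Prop := ∀ g : ℕ → ℂ, MQ g → ∃ C : ℝ, 0 ≤ C ∧ ∀ η : ℝ, 0 < η → η ≤ 1 →
  Summable (fun n : ℕ => ‖g n‖ ^ 2 * wt η n) ∧ ∑' n : ℕ, ‖g n‖ ^ 2 * wt η n ≤ QE C η

/-- K3 KM1 (from KM2; adapt SelDeg2/MOM1.lean): the first moment, `‖g‖ wt ≤ (‖g‖² wt + wt)/2`,
`∑ wt η n ≤ 1 + 1/η ≤ 2 exp(log(1/η))`. -/
def T_KM1 : Prop := ∀ g : ℕ → ℂ, MQ g → ∃ C : ℝ, 0 ≤ C ∧ ∀ η : ℝ, 0 < η → η ≤ 1 →
  Summable (fun n : ℕ => ‖g n‖ * wt η n) ∧ ∑' n : ℕ, ‖g n‖ * wt η n ≤ QE C η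

/-- K4 KP1 (adapt SelDeg2/PM1.lean): the first moment over the primes. -/
def T_KP1 : Prop := ∀ g : ℕ → ℂ, QP g → ∃ C : ℝ, 0 ≤ C ∧ ∀ η : ℝ, 0 < η → η ≤ 1 →
  Summable (fun p : Nat.Primes => ‖g p‖ * wt η p) ∧
  ∑' p : Nat.Primes, ‖g p‖ * wt η p ≤ C * (1 + Real.log (1 / η)) ^ 3

/-- K5 KHA (from KM1; adapt SelDeg2/HAR.lean): harmonic sums; `η = 1/(1 + log M)`,
`m^(-1) ≤ e wt η m`, `e QE C η ≤ QE (C+1) η`. -/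
def T_KHA : Prop := ∀ g : ℕ → ℂ, MQ g → ∃ C : ℝ, 0 ≤ C ∧ ∀ M : ℕ, 1 ≤ M →
  ∑ m ∈ Finset.Icc 1 M, ‖g m‖ / m ≤ QL C M

/-- K6 KSO (from KP1, `Pool.Agent.SelDeg2.T_EPS`; adapt SelDeg2/SMO.lean): sums over smooth
numbers. -/
def T_KSO : Prop := ∀ g : ℕ → ℂ, MQ g → ∃ C : ℝ, 0 ≤ C ∧ ∀ P : ℕ, 1 ≤ P →
  ∀ T : Finset ℕ, (∀ n ∈ T, n ≠ 0 ∧ ∀ p : ℕ, p.Prime → p ∣ n → p ≤ P) →
  ∑ n ∈ T, ‖g n‖ / n ≤ QL C P

/-- K7 KDV (adapt SelDeg2/DVP.lean, which does not use `ms`): sums over multiples of a prime and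
of its square. -/
def T_KDV : Prop := ∀ g : ℕ → ℂ, MQ g → ∃ C : ℝ, 0 ≤ C ∧ ∀ (p : ℕ) (η : ℝ), p.Prime → 0 < η →
  η ≤ 1 →
  ∑' n : ℕ, (if p ∣ n then ‖g n‖ * wt η n else 0) ≤
    C * (p : ℝ) ^ (-(3 / 4) : ℝ) * ∑' n : ℕ, ‖g n‖ * wt η n ∧
  ∑' n : ℕ, (if p ^ 2 ∣ n then ‖g n‖ * wt η n else 0) ≤
    C * (p : ℝ) ^ (-(3 / 2) : ℝ) * ∑' n : ℕ, ‖g n‖ * wt η n

/-- K8 KRI (adapt SelDeg2/RID.lean, which does not use `ms`): the identity of Ramare. -/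
def T_KRI : Prop := ∀ (g : ℕ → ℂ) (P₀ n : ℕ), MQ g → 1 ≤ n →
  ‖g n - ((if om P₀ n = 0 then g n else 0) +
    ∑ x ∈ n.divisorsAntidiagonal, uu g P₀ x.1 * dm g P₀ x.2)‖ ≤ EE g P₀ n

/-- K9 KEE (from KDV, KM1, KP1, `Pool.Agent.SelDeg2.T_GRP`; adapt SelDeg2/EE.lean): the exceptional
terms are small. -/
def T_KEE : Prop := ∀ g : ℕ → ℂ, MQ g → ∃ C : ℝ, 0 ≤ C ∧ ∀ (η : ℝ) (P₀ : ℕ), 0 < η →
  η ≤ 1 → 1 ≤ P₀ → Summable (fun n : ℕ => EE g P₀ n * wt η n) ∧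
  ∑' n : ℕ, EE g P₀ n * wt η n ≤ QE C η * (P₀ : ℝ) ^ (-(1 / 4) : ℝ)

/-- K10 KRA (from KM2, KM1, KP1, KHA, KSO, KRI, KEE and `Pool.Agent.SelDeg2.T_BIL`,
`Pool.Agent.SelDeg2.T_GRP`; adapt SelDeg2/RAM.lean): the bound for the twisted series. -/
def T_KRA : Prop := ∀ (g : ℕ → ℂ) (κ : ℝ), MQ g → ∃ C : ℝ, 0 ≤ C ∧
  ∀ (δ η : ℝ) (J P₀ M₀ : ℕ), 0 < δ → 0 < η → η ≤ 1 → 1 ≤ J → 1 ≤ P₀ → 1 ≤ M₀ →
  (∀ j : ℕ, 1 ≤ j → j ≤ J → ∀ z : ℤ, 2 * δ ≤ |j * κ - z|) →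
  ‖SS g κ η‖ ≤ QL C P₀ + QL C M₀ * (C * (1 + Real.log (1 / η)) ^ 3) +
    QE C η * (P₀ : ℝ) ^ (-(1 / 4) : ℝ) + QE C η * Real.sqrt (BF η δ J P₀ M₀)

/-- K11 KIR (from KRA, `Pool.Agent.SelDeg2.T_DIO`; see SelDeg2/IRR.lean, lemma `IRR_.BF_le`): at an
irrational point the twisted series is small on a sequence. Proof: `J` large from DIO,
`l = (log J)^(1/4)`, `η = exp(1 - l)` (so `1 + log(1/η) = l`), `P₀ = J`, `M₀ = J^3`,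
`δ = 1/(8(J+1))`. Then `η ‖SS g κ η‖` is at most
`exp(1 - l + C (1 + log(1 + l^4))^3) + exp(1 - l + C (1 + log(1 + 3 l^4))^3) C l^3 +
exp(C l^3 - l^4/4) + 7 exp(C l^3 - l^4/2)` up to constants (`BF_le`: the root is at most
`7 J^(-1/2) / η`), and every exponent tends to `-∞` as `l → ∞`. -/
def T_KIR : Prop := ∀ (g : ℕ → ℂ) (κ : ℝ), MQ g → Irrational κ → ∀ ε δ : ℝ, 0 < ε → 0 < δ →
  ∃ η : ℝ, 0 < η ∧ η < δ ∧ η ≤ 1 ∧ η * ‖SS g κ η‖ < ε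

/-- K12 KRT (from KMD, KIR; adapt `p_KRAT` in SelDeg2/IRR.lean): `T_KRQ`. -/
def T_KRT : Prop := T_KRQ

end

end Pool.Agent.SelQ
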