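import Pool.Agent.SelQ.TargetsI

/-!
# Degree 2 without the mean square bound (MP_995735_nt), part U: the modular relation uniformly

Exact targets for `T_UDR`: the relation between additive twists with an error polynomial in `1/α`.
All of them are versions of targets of `Pool/Agent/SelDeg2` (SHIFT, ERR, REL, PT, MEL, DREL1, DREL)
with explicit dependence of the constants; the proofs are copies of the proofs there, and all helper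
lemmas of those files may be used (import them).
-/

set_option autoImplicit false

open Finset

namespace Pool.Agent.SelQ

open Complex Filter Topology MeasureTheory
open Pool.Agent.SelTwo (lam pX vl cj tw gP FEq)
open Pool.Agent.SelDeg2 (ee gth SS Drel ContM)
open Pool.Agent.SelPole (IsSelberg)

noncomputable section

/-- U1 SHU (from `Pool.Agent.SelTwo.T_GAM`): the shift of the line with a constant polynomial in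
`K`. Proof: copy of `Pool.Agent.SelDeg2.p_SHIFT` (SHIFT.lean; use its lemmas `SHIFT_.half` etc). The
constant there is `2 * M + 2 * M + 2 * (D1 * KX) + 2 * (D2 * KX)` with `KX = K^(5/4) exp(π/2)`,
`M = G * KX * (C₀ * 2^N)`, and `G, C₀, D1, D2 ≥ 0` do not depend on `K`; `K^(5/4) ≤ K^2`. -/
def T_SHU : Prop := ∀ (F : ℂ → ℂ) (N : ℕ), (∀ s : ℂ, s ≠ 1 → DifferentiableAt ℂ F s) →
  (∃ C : ℝ, ∀ s : ℂ, -1 / 4 ≤ s.re → s.re ≤ 5 / 4 → 1 ≤ |s.im| →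
    ‖F s‖ ≤ C * (1 + |s.im|) ^ N) →
  ∃ C : ℝ, 0 ≤ C ∧ ∀ K : ℝ, 1 ≤ K → ∀ X : ℂ, 0 < X.re → 1 / K ≤ ‖X‖ → ‖X‖ ≤ K →
    Integrable (fun t : ℝ => Gamma (vl (5 / 4) t) * X ^ (-vl (5 / 4) t) * F (vl (5 / 4) t)) ∧
    Integrable (fun t : ℝ => Gamma (vl (-1 / 4) t) * X ^ (-vl (-1 / 4) t) * F (vl (-1 / 4) t)) ∧
    ‖(∫ t : ℝ, Gamma (vl (5 / 4) t) * X ^ (-vl (5 / 4) t) * F (vl (5 / 4) t)) -
      ∫ t : ℝ, Gamma (vl (-1 / 4) t) * X ^ (-vl (-1 / 4) t) * F (vl (-1 / 4) t)‖ ≤ C * K ^ 2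

/-- U2 ERU: the error term with a constant polynomial in `K`. Proof: copy of
`Pool.Agent.SelDeg2.p_ERR` (ERR.lean). The constant there is
`(4 K^(3/4) + 2 Γ(3/4) K^(3/4)) * (C₁ * K^(1/4) * B) = (4 + 2 Γ(3/4)) C₁ B K`, and `K ≤ K^2`. -/
def T_ERU : Prop := ∀ (C₁ B : ℝ), 0 ≤ C₁ → 0 ≤ B → ∃ C : ℝ, 0 ≤ C ∧ ∀ K : ℝ, 1 ≤ K → ∀ X : ℂ,
  0 < X.re → X.im < 0 → 1 / K ≤ ‖X‖ → ‖X‖ ≤ K → ∀ E h : ℝ → ℂ, Continuous E → Continuous h →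
  (∀ τ, 0 ≤ τ → ‖E τ‖ ≤ C₁ * (1 + τ) ^ (-(1 / 4) : ℝ) * Real.exp (-(Real.pi * τ / 2))) →
  (∀ τ, τ ≤ 0 → ‖E τ‖ ≤ C₁ * (1 + |τ|) * Real.exp (Real.pi * τ / 2)) →
  (∀ τ, ‖h τ‖ ≤ B) →
  Integrable (fun τ : ℝ => E τ * X ^ (vl (5 / 4) τ - 1) * h τ) ∧
  ‖∫ τ : ℝ, E τ * X ^ (vl (5 / 4) τ - 1) * h τ‖ ≤ C * K ^ 2 * X.re ^ (-(3 / 4) : ℝ)

/-- U3 RLU (from SHU, ERU and `T_LAM, T_RAT, T_KER, T_FE, T_PL` of SelDeg2): the modular relation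
near `α`, with an explicit dependence on `α`. Proof: copy of `Pool.Agent.SelDeg2.p_REL` (REL.lean).
There `K = max 1 (max (1 / (2 π α)) (2 π (1 + α))) ≤ 7 (1 + α + 1/α)` (`2 π ≤ 7`), and the final
constant is `(|C₂| + |C₃| (2 π)^(-3/4)) / (2 π)`, where now `C₂ = C K^2`, `C₃ = C' K^2`. -/
def T_RLU : Prop := ∀ (F : ℂ → ℂ) (M : ℕ) (a : ℕ → ℂ) (Q : ℝ) (k : ℕ) (l : Fin k → ℝ)
  (m : Fin k → ℂ) (w : ℂ), (∀ s : ℂ, 1 < s.re → LSeriesSummable a s) →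
  (∀ s : ℂ, 1 < s.re → F s = LSeries a s) → ContM F M → FEq F Q k l m w → ∑ j, l j = 1 →
  ∃ (A : ℂ) (q C : ℝ), A ≠ 0 ∧ 0 < q ∧ 0 ≤ C ∧ ∀ α : ℝ, 0 < α → ∀ y : ℝ, 0 < y → y ≤ 1 →
    ‖lam a (pX α y) - A / pX α y *
      (4 * Real.pi ^ 2 / (q * pX α y)) ^ (-(((2 * ∑ j, (m j).im : ℝ) : ℂ) * I)) *
      lam (tw (2 * ∑ j, (m j).im) (cj a)) (4 * Real.pi ^ 2 / (q * pX α y))‖ ≤
      C * (1 + α + 1 / α) ^ 2 * y ^ (-(3 / 4) : ℝ)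

/-- U4 WBU: the factor. Proof: let `W y = A / pX α y * (4π²/(q pX α y))^(-iθ)`,
`pX α y = 2π(y - iα)`. `‖z^(-iθ)‖ = exp(θ arg z) ≤ exp(π|θ|)` for `z ≠ 0` and `‖pX α y‖ ≥ 2πα`, so
`‖W y‖ ≤ ‖A‖ exp(π|θ|)/(2πα)`. `W` is differentiable in the real variable `y ∈ ℝ`
(`Pool.Agent.SelDeg2.PT_.W_diff` in PT.lean; `PT_.Wc A q θ α y = W y` by `rfl`), with
`W' = W * (-1 + iθ) / (y - iα)` (the base `z = 4π²/(q pX)` has `z'/z = -1/(y - iα)` and lies in the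
slit plane, `PT_.slit`), so `‖W'‖ ≤ (1 + |θ|) ‖A‖ exp(π|θ|)/(2πα²)` on `[0, 1]`, and the mean value
inequality (`Convex.norm_image_sub_le_of_norm_deriv_le` or
`norm_image_sub_le_of_norm_deriv_le_segment_01'`) gives the second bound. The value at `y = 0` is
the stated one: see `hW0` in the proof of `Pool.Agent.SelDeg2.p_PT`. `1/α ≤ (1/α)^2` for `α ≤ 1`. -/
def T_WBU : Prop := ∀ (A : ℂ) (q θ : ℝ), 0 < q → ∃ K : ℝ, 0 ≤ K ∧ ∀ α : ℝ, 0 < α → α ≤ 1 →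
  ∀ y : ℝ, 0 < y → y ≤ 1 →
    ‖A / pX α y * (4 * Real.pi ^ 2 / (q * pX α y)) ^ (-((θ : ℂ) * I))‖ ≤ K * (1 / α) ^ 2 ∧
    ‖A / pX α y * (4 * Real.pi ^ 2 / (q * pX α y)) ^ (-((θ : ℂ) * I)) -
      A / (-(2 * Real.pi * I * α)) * (2 * Real.pi * I / (q * α)) ^ (-((θ : ℂ) * I))‖ ≤
      K * (1 / α) ^ 2 * y

/-- U5 PTU (from WBU): the relation with the base point and the height moved. Proof: copy of
`Pool.Agent.SelDeg2.p_PT` (PT.lean). The constant there is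
`C + K * (A₁ * D * ρ^(-3/2) * (1/ρ)) + K * (A₁ * ρ^(-1/2) * (1/ρ))`, where now `K` is replaced by
`K (1/α)^2` (WBU), `D = 2π/(q α³)`, `ρ = 1/(q(1 + α²)) ≥ 1/(2q)`; so it is at most
`C' (1/α)^5`, `α ≤ 1`. (In the copy take `ρ = 1/(2q)` from the beginning: the real parts of `X1` and
`X2` are at least `2πρy`.) -/
def T_PTU : Prop := ∀ (a : ℕ → ℂ) (A₁ : ℝ) (A : ℂ) (q θ C : ℝ),
  (∀ n : ℕ, 1 ≤ n → ‖a n‖ ≤ A₁ * (n : ℝ) ^ (1 / 2 : ℝ)) → 0 < q → 0 ≤ C →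
  (∀ α : ℝ, 0 < α → α ≤ 1 → ∀ y : ℝ, 0 < y → y ≤ 1 →
    ‖lam a (pX α y) - A / pX α y * (4 * Real.pi ^ 2 / (q * pX α y)) ^ (-((θ : ℂ) * I)) *
      lam (tw θ (cj a)) (4 * Real.pi ^ 2 / (q * pX α y))‖ ≤
      C * (1 / α) ^ 2 * y ^ (-(3 / 4) : ℝ)) →
  ∃ C' : ℝ, 0 ≤ C' ∧ ∀ α : ℝ, 0 < α → α ≤ 1 → ∀ y : ℝ, 0 < y → y ≤ 1 →
    ‖lam a (pX α y) - A / (-(2 * Real.pi * I * α)) *
      (2 * Real.pi * I / (q * α)) ^ (-((θ : ℂ) * I)) *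
      lam (tw θ (cj a)) (pX (-1 / (q * α)) (y / (q * α ^ 2)))‖ ≤
      C' * (1 / α) ^ 5 * y ^ (-(3 / 4) : ℝ)

/-- U6 MLU: the Mellin transform over `(0, Y]`, uniformly. Proof: copy of
`Pool.Agent.SelDeg2.p_MEL` (MEL.lean; use its lemmas `MEL_.*`). The constant there is
`∫ y in Ioi Y, KY (1 + y) exp(-πy)`, `KY = ∑ ‖c (n+1)‖ exp(-πY(n+1))`; it does not depend on `α`,
and both `KY` and the integral decrease in `Y`, so the value at `Y = Y₀` bounds it. -/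
def T_MLU : Prop := ∀ (c : ℕ → ℂ) (Y₀ : ℝ), (∀ s : ℂ, 1 < s.re → LSeriesSummable c s) → 0 < Y₀ →
  ∃ K : ℝ, 0 ≤ K ∧ ∀ α Y η : ℝ, Y₀ ≤ Y → 0 < η → η ≤ 1 →
    IntegrableOn (fun y : ℝ => lam c (pX α y) * ((y ^ η : ℝ) : ℂ)) (Set.Ioc 0 Y) ∧
    ‖(∫ y in Set.Ioc (0 : ℝ) Y, lam c (pX α y) * ((y ^ η : ℝ) : ℂ)) -
      (((2 * Real.pi) ^ (-1 - η) * Real.Gamma (1 + η) : ℝ) : ℂ) * SS c α η‖ ≤ K

/-- U7 DRU (from PTU, MLU): the relation of Dirichlet series. Proof: copy of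
`Pool.Agent.SelDeg2.p_DREL1` (DREL.lean; use its lemmas `DREL_.*`). Take `MLU` for `a` with `Y₀ = 1`
and for `tw θ (cj a)` with `Y₀ = 1/q` (for `α ≤ 1`, `1/β = 1/(q α²) ≥ 1/q`): constants `K1`, `K2`
independent of `α`. The constant there is `(K1 + ‖B0‖ * βm * K2 + |C'| * 4) / (m / (2π)^2)`, where
`‖B0‖ ≤ ‖A‖ exp(π|θ|) / (2πα)` (or `B0 * bb = const * α^(1+iθ) * (q α²)^η`, `DREL_.const_eq`),
`βm ≤ max (q^2) q`, `C'` replaced by `C' (1/α)^5`. -/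
def T_DRU : Prop := ∀ (a : ℕ → ℂ) (A₁ : ℝ) (A : ℂ) (q θ C : ℝ),
  (∀ n : ℕ, 1 ≤ n → ‖a n‖ ≤ A₁ * (n : ℝ) ^ (1 / 2 : ℝ)) →
  (∀ s : ℂ, 1 < s.re → LSeriesSummable a s) → 0 < q → 0 ≤ C →
  (∀ α : ℝ, 0 < α → α ≤ 1 → ∀ y : ℝ, 0 < y → y ≤ 1 →
    ‖lam a (pX α y) - A / pX α y * (4 * Real.pi ^ 2 / (q * pX α y)) ^ (-((θ : ℂ) * I)) *
      lam (tw θ (cj a)) (4 * Real.pi ^ 2 / (q * pX α y))‖ ≤
      C * (1 / α) ^ 2 * y ^ (-(3 / 4) : ℝ)) →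
  ∃ C' : ℝ, ∀ α η : ℝ, 0 < α → α ≤ 1 → 0 < η → η ≤ 1 →
    ‖SS a α η - (q * A / (-(2 * Real.pi * I)) * (2 * Real.pi * I / q) ^ (-((θ : ℂ) * I))) *
      (α : ℂ) ^ (1 + (θ : ℂ) * I) * (((q * α ^ 2) ^ η : ℝ) : ℂ) *
      (starRingEnd ℂ) (SS (gth θ a) (1 / (q * α)) η)‖ ≤ C' * (1 / α) ^ 5

/-- U8 UDF (from RLU, DRU and `Pool.Agent.SelDeg2.T_DREL1`). Proof: copy of
`Pool.Agent.SelDeg2.p_DREL`: `κ = 1/q`, `A₁ = q A / (-(2πi)) (2πi/q)^(-iθ)`. For `Drel` use RLU at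
fixed `α` (constant `C (1+α+1/α)^2`) and `T_DREL1`; for `UDrel` with `α ≤ 1` use
`1 + α + 1/α ≤ 3/α`, so the hypothesis of DRU holds with `9 C`; `K = 5`. -/
def T_UDF : Prop := T_UDR

end

end Pool.Agent.SelQ
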